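import Pool.Agent.Mg.F4fffd4.G3529f8

set_option linter.all false


section

/-!
Sign patterns of the Liouville function: the base of the induction on scales.
-/

open Finset Filter
open scoped BigOperators ComplexConjugate Topology

noncomputable section

namespace Pool.Agent.MP_4fffd4_nt.SX

theorem num_Base (n : ℕ) (K l Y M E R A C τ D P L : ℝ) (hK : 0 < K) (hl : 0 < l) (hY : 0 < Y)
    (hM : Y * K / 2 ≤ M) (hE0 : 0 ≤ E) (hE : E ≤ D * K) (hD : 0 < D) (hC : 0 < C) (hA : 0 ≤ A)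
    (hP : 0 < P) (hL : 0 ≤ L) (hτ : 0 < τ) (hR0 : 0 ≤ R)
    (hR : R ^ 2 ≤ C * K ^ 2 / (l ^ (n + 1)) ^ 2 * (P ^ 2 * A * (Y * K) ^ 2))
    (hYb : 24 * L * D ^ (n + 2) * l ^ (n + 1) / τ ^ (n + 1) ≤ Y)
    (h : (K / l * τ) ^ (n + 1) ≤ E ^ n * (R / M + 6 * L * E ^ 2 / M)) :
    (τ ^ (n + 1) / (4 * D ^ n * P)) ^ 2 / C ≤ A := by
  obtain ⟨w, hw0, hw⟩ : ∃ w : ℝ, 0 ≤ w ∧ w ^ 2 = C * A :=
    ⟨Real.sqrt (C * A), Real.sqrt_nonneg _, Real.sq_sqrt (by positivity)⟩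
  obtain ⟨u, hu⟩ : ∃ u : ℝ, u = l ^ (n + 1) := ⟨_, rfl⟩
  obtain ⟨x, hx⟩ : ∃ x : ℝ, x = τ ^ (n + 1) := ⟨_, rfl⟩
  obtain ⟨d, hd⟩ : ∃ d : ℝ, d = D ^ n := ⟨_, rfl⟩
  obtain ⟨k, hk⟩ : ∃ k : ℝ, k = K ^ n := ⟨_, rfl⟩
  have hu0 : 0 < u := by rw [hu]; positivity
  have hx0 : 0 < x := by rw [hx]; positivity
  have hd0 : 0 < d := by rw [hd]; positivity
  have hk0 : 0 < k := by rw [hk]; positivity
  have hM0 : 0 < M := lt_of_lt_of_le (by positivity) hM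
  have h1 : R ≤ w * K / u * P * (Y * K) := by
    refine (pow_le_pow_iff_left₀ hR0 (by positivity) two_ne_zero).1 (hR.trans_eq ?_)
    rw [← hu]
    have : (w * K / u * P * (Y * K)) ^ 2 = w ^ 2 * K ^ 2 / u ^ 2 * (P ^ 2 * (Y * K) ^ 2) := by ring
    rw [this, hw]
    ring
  have h2 : R / M ≤ 2 * w * K * P / u := by
    rw [div_le_iff₀ hM0]
    calc R ≤ 2 * w * K * P / u * (Y * K / 2) := h1.trans_eq (by ring)
      _ ≤ _ := by gcongr
  have h3 : 6 * L * E ^ 2 / M ≤ K * x / (2 * d * u) := by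
    have e1 : 24 * L * (d * D ^ 2) * u ≤ Y * x := by
      rw [← hu, ← hx, div_le_iff₀ hx0, pow_add, ← hd] at hYb
      exact hYb
    calc 6 * L * E ^ 2 / M ≤ 6 * L * (D * K) ^ 2 / (Y * K / 2) := by gcongr
      _ = K * (24 * L * (d * D ^ 2) * u) / (2 * d * u * Y) := by field_simp; ring
      _ ≤ K * (Y * x) / (2 * d * u * Y) := by gcongr
      _ = _ := by field_simp
  have h4 : E ^ n ≤ d * k := by
    rw [hd, hk, ← mul_pow]
    gcongr
  have h5 : K * k / u * x ≤ d * k * (2 * w * K * P / u + K * x / (2 * d * u)) := by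
    calc K * k / u * x = (K / l * τ) ^ (n + 1) := by
          rw [hk, hu, hx, mul_pow, div_pow, pow_succ' K]
      _ ≤ E ^ n * (R / M + 6 * L * E ^ 2 / M) := h
      _ ≤ _ := by gcongr
  have h6 : x / (4 * d * P) ≤ w := by
    rw [div_le_iff₀ (by positivity)]
    have e : d * k * (2 * w * K * P / u + K * x / (2 * d * u)) =
        K * k / u * (2 * d * w * P + x / 2) := by field_simp
    rw [e] at h5
    have := le_of_mul_le_mul_left h5 (by positivity)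
    linarith
  rw [← hx, ← hd, div_le_iff₀ hC, mul_comm A, ← hw]
  gcongr

theorem prod_split_Base {s : ℕ} (S : Finset (Fin (s + 1))) (i₀ : Fin (s + 1)) (hi : i₀ ∈ S)
    (m p : ℤ) :
    ∏ i ∈ S, lam (m + (((i : ℕ) : ℤ) + 1) * p) = lam (m + (((i₀ : ℕ) : ℤ) + 1) * p) *
      ∏ j : Fin s, (fun z => if i₀.succAbove j ∈ S then lam z else 1)
        (m + (((i₀.succAbove j : ℕ) : ℤ) + 1) * p) := by
  rw [← Fintype.prod_ite_mem S, Fin.prod_univ_succAbove _ i₀, if_pos hi]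

theorem AE_nonneg_Base {s : ℕ} (e : Fin s → ℤ) (Y : ℝ) {K : ℝ} (hK : 0 ≤ K) : 0 ≤ AE e Y K :=
  div_nonneg (sum_nonneg fun _ _ => sq_nonneg _) (by positivity)

theorem sq_mean_Base {s : ℕ} {K : ℝ} (hK : 1 ≤ K) (X : (Fin s → ℤ) → ℝ) :
    𝔼 u : Fin s → Fin ⌊K⌋₊, 𝔼 u' : Fin s → Fin ⌊K⌋₊,
      |X fun j => ((u' j : ℕ) : ℤ) - ((u j : ℕ) : ℤ)| ^ 2 ≤
      (∑ h ∈ bx (fun _ => ⌊-K⌋) (fun _ => ⌊K⌋), X h ^ 2) / (K / 2) ^ s := by
  have hH : 1 ≤ ⌊K⌋₊ := Nat.le_floor (by exact_mod_cast hK)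
  have hHK : (⌊K⌋₊ : ℝ) ≤ K := Nat.floor_le (by linarith)
  have hKH : K / 2 ≤ ⌊K⌋₊ := by
    have h1 := Nat.lt_floor_add_one K
    have h2 : (1 : ℝ) ≤ ⌊K⌋₊ := by exact_mod_cast hH
    linarith
  have : Nonempty (Fin ⌊K⌋₊) := ⟨⟨0, hH⟩⟩
  refine expect_le univ_nonempty fun u _ => ?_
  rw [Fintype.expect_eq_sum_div_card]
  have hS : 0 ≤ ∑ h ∈ bx (fun _ => ⌊-K⌋) (fun _ => ⌊K⌋), X h ^ 2 :=
    sum_nonneg fun _ _ => sq_nonneg _
  have hc : (K / 2) ^ s ≤ (Fintype.card (Fin s → Fin ⌊K⌋₊) : ℝ) := by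
    simp only [Fintype.card_pi, Fintype.card_fin, prod_const, card_univ, Nat.cast_pow]
    gcongr
  refine div_le_div₀ hS ?_ (by positivity) hc
  have hinj : Set.InjOn (fun (u' : Fin s → Fin ⌊K⌋₊) (j : Fin s) =>
      ((u' j : ℕ) : ℤ) - ((u j : ℕ) : ℤ)) (univ : Finset (Fin s → Fin ⌊K⌋₊)) := by
    intro x _ y _ hxy
    funext j
    have := congrFun hxy j
    simp only at this
    exact Fin.ext (by omega)
  simp only [sq_abs]
  rw [← sum_image (f := fun h => X h ^ 2) hinj]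
  refine sum_le_sum_of_subset_of_nonneg ?_ fun _ _ _ => sq_nonneg _
  intro h hh
  obtain ⟨u', -, rfl⟩ := mem_image.1 hh
  refine mem_bx.2 fun j => ⟨Int.floor_lt.2 ?_, Int.le_floor.2 ?_⟩
  · have h1 : ((u j : ℕ) : ℝ) < ⌊K⌋₊ := by exact_mod_cast (u j).2
    have h2 : (0 : ℝ) ≤ ((u' j : ℕ) : ℝ) := Nat.cast_nonneg _
    push_cast
    linarith
  · have h1 : ((u' j : ℕ) : ℝ) < ⌊K⌋₊ := by exact_mod_cast (u' j).2
    have h2 : (0 : ℝ) ≤ ((u j : ℕ) : ℝ) := Nat.cast_nonneg _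
    push_cast
    linarith

theorem cs_Base {U : Type} [Fintype U] (r x : U → U → ℝ) :
    (𝔼 u, 𝔼 u', r u u' * x u u') ^ 2 ≤ (𝔼 u, 𝔼 u', r u u' ^ 2) * 𝔼 u, 𝔼 u', x u u' ^ 2 := by
  rw [← expect_prod fun p : U × U => r p.1 p.2 * x p.1 p.2,
    ← expect_prod fun p : U × U => r p.1 p.2 ^ 2, ← expect_prod fun p : U × U => x p.1 p.2 ^ 2]
  exact expect_mul_sq_le_sq_mul_sq _ _ _

end Pool.Agent.MP_4fffd4_nt.SX

end
end

section

open Finset Filter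
open scoped BigOperators ComplexConjugate Topology

noncomputable section

namespace Pool.Agent.MP_4fffd4_nt.SX

end Pool.Agent.MP_4fffd4_nt.SX

end
end

section

/-!
Sign patterns of the Liouville function, all lengths: one step of the lifting.
-/

open Finset Filter
open scoped BigOperators ComplexConjugate Topology

noncomputable section

namespace Pool.Agent.MP_4fffd4_nt.AN

open Pool.Agent.MP_4fffd4_nt.SX

theorem abs_expect_LiftC {α : Type} (s : Finset α) {f : α → ℝ} {C : ℝ} (hC : 0 ≤ C)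
    (h : ∀ a ∈ s, |f a| ≤ C) : |𝔼 a ∈ s, f a| ≤ C := by
  rcases s.eq_empty_or_nonempty with rfl | hs
  · simpa using hC
  · exact (abs_expect_le _ _).trans (expect_le hs h)

theorem abs_gq_LiftC {s : ℕ} (e : Fin s → ℤ) (y : Bool → ℤ) (h : Fin s → ℤ) :
    |gq e y h| = 1 := by
  simp [gq, Finset.abs_prod, abs_lam, abs_mul]

theorem abs_wt_LiftC {p Q : ℕ} (hp : 1 ≤ p) (hQ : p ≤ Q) (y : Bool → ℤ) :
    |wt p 0 y - 1| ≤ (Q : ℝ) ^ 2 := by
  have h1 : (1 : ℝ) ≤ p := by exact_mod_cast hp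
  have h2 : (p : ℝ) ≤ Q := by exact_mod_cast hQ
  have h3 : (p : ℝ) ^ 2 ≤ (Q : ℝ) ^ 2 := by gcongr
  have h4 : (1 : ℝ) ≤ (p : ℝ) ^ 2 := one_le_pow₀ h1
  unfold wt
  rw [Fintype.card_bool, abs_le]
  split_ifs <;> constructor <;> linarith

theorem low_LiftC {s L R : ℕ} {e h : Fin s → ℤ} {Y K : ℝ} (he : ∀ i, |e i| ≤ L)
    (hY : (s : ℝ) * L + 2 ≤ Y) (hK : (R : ℝ) + 2 ≤ K) (hh : h ∈ bh s K) (ω : Fin s → Bool) :
    (R : ℤ) + 2 ≤ ⌊Y * K⌋ + ∑ i, if ω i then e i * h i else 0 := by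
  have hR : (0 : ℝ) ≤ R := Nat.cast_nonneg _
  have hL : (0 : ℝ) ≤ L := Nat.cast_nonneg _
  have hb : ∀ i, |(h i : ℝ)| ≤ K := fun i => by
    obtain ⟨h1, h2⟩ := mem_bx.1 hh i
    have h3 : -K < (h i : ℝ) := Int.floor_lt.1 h1
    have h4 : (h i : ℝ) ≤ K := Int.le_floor.1 h2
    exact abs_le.2 ⟨h3.le, h4⟩
  have ht : ∀ i, -((L : ℝ) * K) ≤ ((if ω i then e i * h i else 0 : ℤ) : ℝ) := fun i => by
    have h1 : |(e i : ℝ)| ≤ L := by exact_mod_cast he i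
    have h2 : |(e i : ℝ) * h i| ≤ L * K := by
      rw [abs_mul]
      exact mul_le_mul h1 (hb i) (abs_nonneg _) hL
    split_ifs
    · push_cast
      exact (abs_le.1 h2).1
    · have : 0 ≤ (L : ℝ) * K := mul_nonneg hL (by linarith)
      simp only [Int.cast_zero]
      linarith
  have hs : -((s : ℝ) * (L * K)) ≤ ((∑ i, if ω i then e i * h i else 0 : ℤ) : ℝ) := by
    rw [Int.cast_sum]
    calc -((s : ℝ) * (L * K)) = ∑ _i : Fin s, -((L : ℝ) * K) := by simp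
      _ ≤ _ := sum_le_sum fun i _ => ht i
  have hf : Y * K - 1 < (⌊Y * K⌋ : ℝ) := Int.sub_one_lt_floor _
  have hm : ((s : ℝ) * L + 2) * K ≤ Y * K := mul_le_mul_of_nonneg_right hY (by linarith)
  have : ((R : ℝ) + 2) ≤ (⌊Y * K⌋ : ℝ) + ((∑ i, if ω i then e i * h i else 0 : ℤ) : ℝ) := by
    nlinarith
  exact_mod_cast this

end Pool.Agent.MP_4fffd4_nt.AN

end
end

section

/-!
Decoupling with the square root saving: the induction and the lifting step.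
-/

open Finset Filter
open scoped BigOperators ComplexConjugate Topology

noncomputable section

namespace Pool.Agent.MP_4fffd4_nt.AN

open Pool.Agent.MP_4fffd4_nt.SX

theorem ks_mono_UKAll {V : Type} [Fintype V] [DecidableEq V] {r J : ℕ} {Pr : Finset ℕ}
    {η M B B' : ℝ} (h : KS V r J Pr η M B) (hB : B ≤ B') : KS V r J Pr η M B' :=
  fun A _ _ F L a b σ c h1 h2 h3 h4 => (h A F L a b σ c h1 h2 h3 h4).trans hB

theorem ks_all_UKAll (h0 : Ks0Stmt) (h1 : Ks1Stmt) (V : Type) [Fintype V] [DecidableEq V]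
    (r : ℕ) : ∀ J : ℕ, ∃ (C : ℝ) (A : ℕ), 0 < C ∧ ∀ (Pr : Finset ℕ) (Q : ℕ) (η M : ℝ), 1 ≤ Q →
      (∀ p ∈ Pr, p.Prime ∧ p ≤ Q) → 0 < η → η ≤ 1 → η ^ 2 * Pr.card ≤ 1 →
      (2 * (Q : ℝ)) ^ A ≤ M → KS V r J Pr η M C := by
  have err : ∀ (Q n A : ℕ) (M : ℝ), 1 ≤ Q → n ≤ A → (2 * (Q : ℝ)) ^ A ≤ M →
      2 * (Fintype.card V : ℝ) * (Q : ℝ) ^ n / M ≤ 2 * Fintype.card V := by
    intro Q n A M hQ hn hM
    have hQ1 : (1 : ℝ) ≤ Q := by exact_mod_cast hQ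
    have hM0 : 0 < M := lt_of_lt_of_le (by positivity) hM
    have h2 : (Q : ℝ) ^ n ≤ M :=
      calc (Q : ℝ) ^ n ≤ (2 * (Q : ℝ)) ^ n := by gcongr; linarith
        _ ≤ (2 * (Q : ℝ)) ^ A := pow_le_pow_right₀ (by linarith) hn
        _ ≤ M := hM
    rw [div_le_iff₀ hM0]
    exact mul_le_mul_of_nonneg_left h2 (by positivity)
  induction r with
  | zero =>
    intro J
    refine ⟨1 + 2 * Fintype.card V, (Fintype.card V + 2) * J, by positivity, ?_⟩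
    intro Pr Q η M hQ hPr hη hη1 _ hM
    have hQ1 : (1 : ℝ) ≤ Q := by exact_mod_cast hQ
    have hM0 : 0 < M := lt_of_lt_of_le (by positivity) hM
    refine ks_mono_UKAll (h0 V J Q Pr η M hQ hPr hη.le hη1 hM0) ?_
    have := err Q _ _ M hQ le_rfl hM
    linarith
  | succ r ih =>
    intro J
    obtain ⟨C, A, hC, hKS⟩ := ih (2 * J)
    refine ⟨2 * Fintype.card V + Real.sqrt (55 * 8 ^ Fintype.card V * 4 ^ J * C),
      A + (J + 1) + (Fintype.card V + 2) * J, by positivity, ?_⟩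
    intro Pr Q η M hQ hPr hη hη1 hc hM
    have hQ1 : (1 : ℝ) ≤ Q := by exact_mod_cast hQ
    have h2Q : (1 : ℝ) ≤ 2 * Q := by linarith
    have hJ : 2 * (Q : ℝ) ^ J ≤ (2 * (Q : ℝ)) ^ (J + 1) := by
      have h3 : (Q : ℝ) ^ J ≤ (2 * (Q : ℝ)) ^ J := by gcongr; linarith
      have h4 : (0 : ℝ) ≤ (2 * (Q : ℝ)) ^ J := by positivity
      rw [pow_succ]
      nlinarith
    have hA : (2 * (Q : ℝ)) ^ A * (2 * (Q : ℝ) ^ J) ≤ M :=
      calc (2 * (Q : ℝ)) ^ A * (2 * (Q : ℝ) ^ J) ≤ (2 * (Q : ℝ)) ^ A * (2 * (Q : ℝ)) ^ (J + 1) := by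
            gcongr
        _ = (2 * (Q : ℝ)) ^ (A + (J + 1)) := (pow_add _ _ _).symm
        _ ≤ _ := pow_le_pow_right₀ h2Q (Nat.le_add_right _ _)
        _ ≤ M := hM
    have hJM : 2 * (Q : ℝ) ^ J ≤ M :=
      hJ.trans ((pow_le_pow_right₀ h2Q (by omega)).trans hM)
    have hI := hKS Pr Q η (M / (2 * (Q : ℝ) ^ J)) hQ hPr hη hη1 hc
      (by rw [le_div_iff₀ (by positivity)]; exact hA)
    refine ks_mono_UKAll (h1 V r J Q Pr η M C hQ hPr hη hη1 hc hJM hC.le hI) ?_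
    have := err Q ((Fintype.card V + 2) * J) _ M hQ (Nat.le_add_left _ _) hM
    linarith

theorem ws_one_UKAll {V : Type} [Fintype V] (Pr : Finset ℕ) (η : ℝ) (σ : ℕ → ℝ)
    (c : ℕ → V → ℤ) (h : V → ℤ) :
    WS Pr (fun S => if S.card = 1 then η * ∏ p ∈ S, σ p else 0) c h =
      η * ∑ p ∈ Pr, σ p * (wt p (c p) h - 1) := by
  unfold WS
  simp only [ite_mul, zero_mul]
  rw [← sum_filter, ← powersetCard_eq_filter, powersetCard_one, sum_map, mul_sum]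
  refine sum_congr rfl fun p _ => ?_
  simp [mul_assoc]

theorem klSharp_stmt (h0 : Ks0Stmt) (h1 : Ks1Stmt) : KlSharpStmt := by
  intro V _ _ r
  obtain ⟨C, A, hC, hKS⟩ := ks_all_UKAll h0 h1 V r 1
  refine ⟨C, A, hC, ?_⟩
  intro Pr Q M hPr hne hM B _ _ F L a b σ c hF hσ hab
  have hQ : 1 ≤ Q := by
    obtain ⟨p, hp⟩ := hne
    exact (hPr p hp).1.one_le.trans (hPr p hp).2
  have hn : (1 : ℝ) ≤ Pr.card := by exact_mod_cast hne.card_pos
  have hs1 : 1 ≤ Real.sqrt Pr.card := Real.one_le_sqrt.2 hn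
  have hss : Real.sqrt Pr.card * Real.sqrt Pr.card = Pr.card := Real.mul_self_sqrt (by linarith)
  set η : ℝ := (Real.sqrt Pr.card)⁻¹ with hηd
  have hη : 0 < η := by positivity
  have hη1 : η ≤ 1 := inv_le_one_of_one_le₀ hs1
  have hη2 : η * η = (Pr.card : ℝ)⁻¹ := by rw [hηd, ← mul_inv, hss]
  have hc : η ^ 2 * Pr.card ≤ 1 := by
    rw [sq, hη2, inv_mul_cancel₀ (by linarith)]
  have h2 := hKS Pr Q η M hQ hPr hη hη1 hc hM B F L a b
    (fun S => if S.card = 1 then η * ∏ p ∈ S, σ p else 0) c hF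
    (fun S => by
      split_ifs with hS
      · rw [hS, pow_one, abs_mul, abs_of_pos hη, Finset.abs_prod]
        exact mul_le_of_le_one_right hη.le
          (prod_le_one (fun _ _ => abs_nonneg _) fun p _ => hσ p)
      · rw [abs_zero]
        positivity)
    (fun S hS => if_neg (by omega)) hab
  have h3 : 𝔼 x, 𝔼 h ∈ bx a b, (∏ i, F i (x + L i h)) * 𝔼 p ∈ Pr, σ p * (wt p (c p) h - 1) =
      η * 𝔼 x, 𝔼 h ∈ bx a b, (∏ i, F i (x + L i h)) *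
        WS Pr (fun S => if S.card = 1 then η * ∏ p ∈ S, σ p else 0) c h := by
    rw [mul_expect]
    refine expect_congr rfl fun x _ => ?_
    rw [mul_expect]
    refine expect_congr rfl fun h _ => ?_
    rw [ws_one_UKAll, expect_eq_sum_div_card, div_eq_mul_inv, ← hη2]
    ring
  rw [h3, abs_mul, abs_of_pos hη, div_eq_mul_inv, mul_comm C]
  exact mul_le_mul_of_nonneg_left h2 hη.le

theorem liftSharp_stmt (hR : RsStmt) (hK : KlSharpStmt) (hM : MDecStmt) (hH : HDecStmt)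
    (hS : ScaleStmt) : LiftSharpStmt := by
  intro s L
  obtain ⟨C0, A0, hC0, hKL⟩ := hK (Fin s) (2 ^ s)
  refine ⟨2 ^ (s + 2) * (64 * C0 + 2 * s + 16), A0 + (s + 4), by positivity, ?_⟩
  intro e Y K Q R j Pr he hY hPr hne hj hRQ hRK hpat hM4 hQ
  have hR0 : (0 : ℝ) ≤ R := Nat.cast_nonneg _
  have hs0 : (0 : ℝ) ≤ s := Nat.cast_nonneg _
  have hsL : (0 : ℝ) ≤ (s : ℝ) * L := by positivity
  have hK2 : 2 ≤ K := by linarith
  have hY2 : 2 ≤ Y := by linarith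
  have hQ2 : (1 : ℝ) ≤ Q := by
    obtain ⟨p, hp⟩ := hne
    have := (hPr p hp).1.one_le.trans (hPr p hp).2
    exact_mod_cast this
  have hK1 : 0 < K - 1 := by linarith
  have hYK : K - 1 ≤ Y * K - 1 := by nlinarith
  have hn : (1 : ℝ) ≤ Pr.card := by exact_mod_cast hne.card_pos
  have hnQ : (Pr.card : ℝ) ≤ Q := by
    have h1 : Pr ⊆ Icc 1 Q := fun p hp => mem_Icc.2 ⟨(hPr p hp).1.one_le, (hPr p hp).2⟩
    have h2 := card_le_card h1
    rw [Nat.card_Icc] at h2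
    exact_mod_cast (by omega : Pr.card ≤ Q)
  have hs1 : 1 ≤ Real.sqrt Pr.card := Real.one_le_sqrt.2 hn
  have hss : Real.sqrt Pr.card * Real.sqrt Pr.card = Pr.card := Real.mul_self_sqrt (by linarith)
  set ζ : ℝ := (Real.sqrt Pr.card)⁻¹ with hζd
  have hζ : 0 < ζ := by positivity
  have hζQ : 1 ≤ ζ * Q := by
    rw [hζd, inv_mul_eq_div, le_div_iff₀ (by linarith)]
    nlinarith
  have hζj : ζ ≤ Real.sqrt (j / Pr.card) := by
    have hj1 : (1 : ℝ) ≤ j := by exact_mod_cast hj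
    rw [hζd, ← Real.sqrt_inv]
    refine Real.sqrt_le_sqrt ?_
    rw [inv_eq_one_div]
    gcongr
  have hQ3 : (Q : ℝ) ^ (s + 3) ≤ ζ * (K - 1) := by
    have h1 : (Q : ℝ) ^ (s + 4) ≤ K - 1 :=
      calc (Q : ℝ) ^ (s + 4) ≤ (2 * (Q : ℝ)) ^ (s + 4) := by gcongr; linarith
        _ ≤ (2 * (Q : ℝ)) ^ (A0 + (s + 4)) :=
          pow_le_pow_right₀ (by linarith) (Nat.le_add_left _ _)
        _ ≤ K - 1 := hQ
    calc (Q : ℝ) ^ (s + 3) = 1 * (Q : ℝ) ^ (s + 3) := (one_mul _).symm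
      _ ≤ ζ * Q * (Q : ℝ) ^ (s + 3) := by gcongr
      _ = ζ * (Q : ℝ) ^ (s + 4) := by ring
      _ ≤ ζ * (K - 1) := by gcongr
  obtain ⟨t, ht0, ht1, hA, hB⟩ := hS s L e Y K he hY hK2
  have hI := hH s L e Y K (C0 * ζ) Pr he hY hK2 (by
    rw [hζd, ← div_eq_mul_inv]
    exact hKL Pr Q (K - 1) hPr hne
      ((pow_le_pow_right₀ (by linarith) (Nat.le_add_right _ _)).trans hQ))
  set D : ℕ → (Fin s → ℤ) → ℝ := fun p h => 𝔼 y ∈ by2 Y K, (wt p 0 y - 1) * gq e y h with hD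
  have hDb : ∀ p ∈ Pr, ∀ h, |D p h| ≤ (Q : ℝ) ^ 2 := fun p hp h =>
    abs_expect_LiftC _ (by positivity) fun y _ => by
      rw [abs_mul, abs_gq_LiftC, mul_one]
      exact abs_wt_LiftC (hPr p hp).1.one_le (hPr p hp).2 y
  have hII1 : ∀ p ∈ Pr, |𝔼 h ∈ bh s K, D p (h + rs p h) - 𝔼 h ∈ bh s K, wt p 0 h * D p h| ≤
      2 * s * ζ := fun p hp => by
    have h1 := hR (Fin s) (fun _ => ⌊-K⌋) (fun _ => ⌊K⌋) (K - 1) ((Q : ℝ) ^ 2) p Q (D p) hK1
      (fun _ => by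
        have h2 : K - 1 < (⌊K⌋ : ℝ) := Int.sub_one_lt_floor _
        have h3 : (⌊-K⌋ : ℝ) ≤ -K := Int.floor_le _
        linarith) (hPr p hp).1.one_le (hPr p hp).2 (hDb p hp)
    rw [Fintype.card_fin] at h1
    refine h1.trans ?_
    rw [div_mul_eq_mul_div, div_le_iff₀ hK1]
    calc 2 * (s : ℝ) * (Q : ℝ) ^ (s + 1) * (Q : ℝ) ^ 2 = 2 * s * (Q : ℝ) ^ (s + 3) := by ring
      _ ≤ 2 * s * (ζ * (K - 1)) := by gcongr
      _ = _ := by ring
  have hsq : 0 ≤ Real.sqrt (j / Pr.card) := Real.sqrt_nonneg _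
  have hII2 : ∀ h ∈ bh s K, |𝔼 p ∈ Pr, D p (h + rs p h)| ≤
      8 * Real.sqrt (j / Pr.card) + 8 * ζ := fun h hh => by
    have h1 := hM s L Q R j e h (fun p => rs p h) ⌊Y * K⌋ ⌊2 * Y * K⌋ (Y * K - 1) Pr he
      (fun p hp i => by
        obtain ⟨h2, h3⟩ := mem_cell.1 (rs_mem_cell (hPr p hp).1.pos h) i
        have h4 : (p : ℤ) ≤ Q := by exact_mod_cast (hPr p hp).2
        rw [abs_of_nonneg h2]
        omega) (by linarith)
      (by
        have h2 : 2 * Y * K - 1 < (⌊2 * Y * K⌋ : ℝ) := Int.sub_one_lt_floor _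
        have h3 : (⌊Y * K⌋ : ℝ) ≤ Y * K := Int.floor_le _
        linarith) hPr hne hj hRQ (low_LiftC he hY hRK hh) hpat hM4
    refine h1.trans ?_
    have h5 : 8 * (Q : ℝ) ^ 3 / (Y * K - 1) ≤ 8 * ζ := by
      rw [div_le_iff₀ (by linarith)]
      have h6 : (Q : ℝ) ^ 3 ≤ (Q : ℝ) ^ (s + 3) := pow_le_pow_right₀ hQ2 (by omega)
      have h7 : ζ * (K - 1) ≤ ζ * (Y * K - 1) := mul_le_mul_of_nonneg_left hYK hζ.le
      linarith
    linarith
  have hII3 : |𝔼 p ∈ Pr, 𝔼 h ∈ bh s K, D p (h + rs p h)| ≤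
      8 * Real.sqrt (j / Pr.card) + 8 * ζ := by
    rw [expect_comm]
    exact abs_expect_LiftC _ (by positivity) hII2
  have hII4 : |𝔼 p ∈ Pr, 𝔼 h ∈ bh s K, D p (h + rs p h) -
      𝔼 p ∈ Pr, 𝔼 h ∈ bh s K, wt p 0 h * D p h| ≤ 2 * s * ζ := by
    rw [← expect_sub_distrib]
    exact abs_expect_LiftC _ (by positivity) hII1
  have hsplit : AE e Y K - 𝔼 p ∈ Pr, AE e Y (K / p) =
      -t * (𝔼 p ∈ Pr, 𝔼 h ∈ bh s K, 𝔼 y ∈ by2 Y K, (wt p 0 h - 1) * gq e y h +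
        𝔼 p ∈ Pr, 𝔼 h ∈ bh s K, wt p 0 h * D p h) := by
    have h1 : AE e Y K = 𝔼 _p ∈ Pr, AE e Y K := (expect_const hne _).symm
    rw [h1, ← expect_sub_distrib, ← expect_add_distrib, mul_expect]
    refine expect_congr rfl fun p hp => ?_
    rw [hB p (hPr p hp).1, hA, ← expect_add_distrib, ← mul_sub, ← expect_sub_distrib, neg_mul,
      ← mul_neg, ← expect_neg_distrib]
    congr 1
    refine expect_congr rfl fun h _ => ?_
    simp only [hD]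
    rw [mul_expect, ← expect_add_distrib, ← expect_sub_distrib, ← expect_neg_distrib]
    exact expect_congr rfl fun y _ => by ring
  rw [hsplit, abs_mul, abs_neg, abs_of_nonneg ht0, mul_assoc]
  refine mul_le_mul ht1 ?_ (abs_nonneg _) (by positivity)
  have h1 := abs_le.1 hI
  have h2 := abs_le.1 hII3
  have h3 := abs_le.1 hII4
  have h4 : C0 * ζ ≤ C0 * Real.sqrt (j / Pr.card) := mul_le_mul_of_nonneg_left hζj hC0.le
  have h5 : (s : ℝ) * ζ ≤ s * Real.sqrt (j / Pr.card) := mul_le_mul_of_nonneg_left hζj hs0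
  rw [abs_le]
  constructor <;> linarith [h1.1, h1.2, h2.1, h2.2, h3.1, h3.2]

end Pool.Agent.MP_4fffd4_nt.AN

end
end
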