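import Mathlib

set_option linter.all false


section

/-!
Sign patterns of the Liouville function: definitions.
-/

open Finset Filter
open scoped BigOperators ComplexConjugate Topology

noncomputable section

namespace Pool.Agent.MP_4fffd4_nt.SX

/-- The Liouville function on positive integers. -/
def lamZ (z : ℤ) : ℤ := (-1) ^ ArithmeticFunction.cardFactors z.toNat

/-- The same with real values. -/
def lam (z : ℤ) : ℝ := (lamZ z : ℝ)

/-- The sign patterns of length n that occur. -/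
def pat (n : ℕ) : Set (Fin n → ℤ) :=
  {ε | ∃ m : ℕ, 1 ≤ m ∧ ∀ j : Fin n, ε j = (-1 : ℤ) ^ ArithmeticFunction.cardFactors (m + j + 1)}

/-- The primes in (x, 2x]. -/
def prs (x : ℝ) : Finset ℕ := (Ioc ⌊x⌋₊ ⌊2 * x⌋₊).filter Nat.Prime

section box

variable {V W : Type} [Fintype V] [DecidableEq V] [Fintype W]

/-- A box of integer points. -/
def bx (a b : V → ℤ) : Finset (V → ℤ) := Fintype.piFinset fun v => Ioc (a v) (b v)

/-- The residues modulo p. -/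
def cell (V : Type) [Fintype V] [DecidableEq V] (p : ℕ) : Finset (V → ℤ) :=
  Fintype.piFinset fun _ => Ico (0 : ℤ) p

/-- The shift to the next multiple of p. -/
def rs (p : ℕ) (y : V → ℤ) : V → ℤ := fun v => (-y v) % (p : ℤ)

end box

/-- The sum over base points of the product over a cube with sides e j * h j. -/
def XX {s : ℕ} (f : ℤ → ℝ) (e : Fin s → ℤ) (a b : ℤ) (h : Fin s → ℤ) : ℝ :=
  ∑ m ∈ Ioc a b, ∏ ω : Fin s → Bool, f (m + ∑ j, if ω j then e j * h j else 0)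

/-- The lifted quantity. -/
def AE {s : ℕ} (e : Fin s → ℤ) (Y K : ℝ) : ℝ :=
  (∑ h ∈ bx (fun _ => ⌊-K⌋) (fun _ => ⌊K⌋), XX lam e ⌊Y * K⌋ ⌊2 * Y * K⌋ h ^ 2) /
    ((2 * K) ^ s * (Y * K) ^ 2)

/-- The differences between one index and the others. -/
def ee {s : ℕ} (i : Fin (s + 1)) (j : Fin s) : ℤ := ((i : ℕ) : ℤ) - ((i.succAbove j : ℕ) : ℤ)

/-- A vertex of the cube spanned by two points. -/
def mix {κ X : Type} (ω : κ → Bool) (s s' : κ → X) : κ → X := fun i => if ω i then s' i else s i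

/-- The number of cubes in the support of a weight. -/
def rr {s H : ℕ} (θ : ℤ → ℝ) (Q : ℕ) (u u' : Fin s → Fin H) : ℝ :=
  ∑ d ∈ Ioc (-((s * H : ℕ) : ℤ)) (Q : ℤ), ∏ ω : Fin s → Bool, θ (d + ∑ j, (((mix ω u u' j : Fin H) : ℕ) : ℤ))

section fin

variable {κ : Type} [Fintype κ] [DecidableEq κ] {G : Type} [AddCommGroup G] [Fintype G]

/-- Conjugation at the odd vertices. -/
def cj {κ : Type} [Fintype κ] (ω : κ → Bool) (z : ℂ) : ℂ :=
  if Even (univ.filter fun i => ω i = true).card then z else conj z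

/-- The vertex of a cube with sides h. -/
def dot {κ : Type} [Fintype κ] {G : Type} [AddCommGroup G] (ω : κ → Bool) (h : κ → G) : G :=
  ∑ i, if ω i then h i else 0

/-- The Gowers inner product. -/
def GI (v : (κ → Bool) → G → ℂ) : ℂ := 𝔼 x, 𝔼 h : κ → G, ∏ ω, cj ω (v ω (x + dot ω h))

/-- The power of the Gowers norm. -/
def UU (κ : Type) [Fintype κ] [DecidableEq κ] (v : G → ℂ) : ℂ := GI fun _ : κ → Bool => v

/-- The dual function. -/
def Dual (κ : Type) [Fintype κ] [DecidableEq κ] (v : G → ℂ) (x : G) : ℂ :=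
  𝔼 h : κ → G, ∏ ω ∈ univ.erase fun _ : κ => false, cj ω (v (x + dot ω h))

/-- Products of functions each of which misses one variable. -/
def Gen (κ : Type) [Fintype κ] [DecidableEq κ] (G : Type) : Set ((κ → G) → ℂ) :=
  {F | ∃ b : κ → (κ → G) → ℂ, (∀ i s, ‖b i s‖ ≤ 1) ∧
    (∀ i s t, b i (Function.update s i t) = b i s) ∧ F = fun s => ∏ i, b i s}

/-- Averages of such products. -/
def BB (κ : Type) [Fintype κ] [DecidableEq κ] (G : Type) : Set ((κ → G) → ℂ) :=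
  convexHull ℝ (Gen κ G)

/-- Measure preserving maps of finite sets. -/
def MP {X Y : Type} [Fintype X] [Fintype Y] (π : Y → X) : Prop :=
  ∀ g : X → ℝ, 𝔼 y, g (π y) = 𝔼 x, g x

/-- A vertex with one more coordinate. -/
def ext {κ : Type} (b : Bool) (ω : κ → Bool) : Option κ → Bool := fun o => o.elim b ω

end fin

section fam

variable {ι : Type} (l : Filter ι) (κ : Type) [Fintype κ] [DecidableEq κ]
  {G : ι → Type} [∀ n, AddCommGroup (G n)] [∀ n, Fintype (G n)]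
  {X : ι → Type} [∀ n, Fintype (X n)]

/-- Bounded families. -/
def Bd1 {Y : ι → Type} (F : ∀ n, Y n → ℂ) : Prop := ∃ C : ℝ, ∀ᶠ n in l, ∀ y, ‖F n y‖ ≤ C

/-- Bounded families in two variables. -/
def Bd2 {Y Z : ι → Type} (F : ∀ n, Y n → Z n → ℂ) : Prop :=
  ∃ C : ℝ, ∀ᶠ n in l, ∀ y z, ‖F n y z‖ ≤ C

/-- Families that are close to multiples of averages of products. -/
def ClB {κ : Type} [Fintype κ] [DecidableEq κ] {G : ι → Type} [∀ n, Fintype (G n)]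
    (F : ∀ n, X n → (κ → G n) → ℂ) : Prop :=
  Bd2 l F ∧ ∀ ε : ℝ, 0 < ε → ∃ C : ℝ, 0 ≤ C ∧ ∀ᶠ n in l, ∃ B : X n → (κ → G n) → ℂ,
    (∀ τ, B τ ∈ BB κ (G n)) ∧ 𝔼 τ, 𝔼 s, ‖F n τ s - C * B τ s‖ ^ 2 ≤ ε

/-- Structured functions on the groups. -/
def ClA (F : ∀ n, X n → G n → ℂ) : Prop := ClB l fun n τ (s : κ → G n) => F n τ (∑ i, s i)

/-- Structured kernels. -/
def ClK (L : ∀ n, G n → G n → ℂ) : Prop := ClA l κ fun n (t : G n) x => L n x (x + t)

/-- Uniform families with a parameter. -/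
def Null (v : ∀ n, X n → G n → ℂ) : Prop :=
  Tendsto (fun n => 𝔼 τ, (UU κ (v n τ)).re) l (𝓝 0)

/-- Uniform families. -/
def Nul0 (v : ∀ n, G n → ℂ) : Prop := Tendsto (fun n => (UU κ (v n)).re) l (𝓝 0)

/-- Kernels orthogonal to the structured kernels. -/
def Perp (M : ∀ n, G n → G n → ℂ) : Prop :=
  ∀ L : ∀ n, G n → G n → ℂ, ClK l κ L → Tendsto (fun n => 𝔼 x, 𝔼 y, M n x y * L n x y) l (𝓝 0)

/-- Correlation. -/
def Cor {G : ι → Type} [∀ n, Fintype (G n)] (f φ : ∀ n, G n → ℂ) : Prop :=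
  ∃ δ : ℝ, 0 < δ ∧ ∀ᶠ n in l, δ ≤ ‖𝔼 x, f n x * conj (φ n x)‖

/-- Bounded orthonormal systems with a structured projection. -/
structure Frame {r : ℕ} (e : Fin r → ∀ n, G n → ℂ) : Prop where
  bd : ∀ i, Bd1 l (e i)
  on : ∀ᶠ n in l, ∀ i j, 𝔼 x, e i n x * conj (e j n x) = if i = j then 1 else 0
  clk : ClK l κ fun n x y => ∑ i, e i n x * conj (e i n y)

/-- Characters of higher order. -/
structure Chr (φ : ∀ n, G n → ℂ) : Prop where
  bd : Bd1 l φ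
  nrm : ∀ᶠ n in l, 𝔼 x, φ n x * conj (φ n x) = 1
  clk : ClK l κ fun n x y => φ n x * conj (φ n y)

/-- The kernel of a matrix in a frame. -/
def ker {G : ι → Type} {r : ℕ} (e : Fin r → ∀ n, G n → ℂ) (a : Matrix (Fin r) (Fin r) ℂ) (n : ι)
    (x y : G n) : ℂ := ∑ i, ∑ j, a i j * (e i n x * conj (e j n y))

end fam

end Pool.Agent.MP_4fffd4_nt.SX

end
end

section

/-!
Sign patterns of the Liouville function: the statements of the steps.
-/

open Finset Filter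
open scoped BigOperators ComplexConjugate Topology

noncomputable section

namespace Pool.Agent.MP_4fffd4_nt.SX

/-! Boxes and decoupling. -/

def ShiftStmt : Prop :=
  ∀ (V : Type) [Fintype V] [DecidableEq V] (a b t : V → ℤ) (M T B : ℝ) (g : (V → ℤ) → ℝ),
    0 < M → (∀ v, M ≤ (b v : ℝ) - a v) → (∀ v, |(t v : ℝ)| ≤ T) → (∀ y, |g y| ≤ B) →
    |∑ y ∈ bx a b, g (y + t) - ∑ y ∈ bx a b, g y| ≤
      2 * Fintype.card V * T / M * B * (bx a b).card

def TupStmt : Prop :=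
  ∀ (P : Type) [Fintype P] [DecidableEq P] (j : ℕ), 1 ≤ j → j ≤ Fintype.card P →
    ((univ.filter fun q : Fin (2 * j) → P => ∀ i, ∃ i', i' ≠ i ∧ q i' = q i).card : ℝ) ≤
      (Real.exp 1 * Fintype.card P * j) ^ j

def MomStmt : Prop :=
  ∀ (V : Type) [Fintype V] [DecidableEq V] (a b : V → ℤ) (M : ℝ) (Pr : Finset ℕ) (Q j : ℕ)
    (Γ : ℕ → (V → ℤ) → ℝ), 0 < M → (∀ v, M ≤ (b v : ℝ) - a v) → (∀ p ∈ Pr, p.Prime ∧ p ≤ Q) →
    1 ≤ j → j ≤ Pr.card → (∀ p y, |Γ p y| ≤ 1) →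
    𝔼 y ∈ bx a b, (𝔼 p ∈ Pr, (Γ p (rs p y) - 𝔼 r ∈ cell V p, Γ p r)) ^ (2 * j) ≤
      4 ^ j * ((Real.exp 1 * j / Pr.card) ^ j + 2 * Fintype.card V * (Q : ℝ) ^ (2 * j) / M)

def DecStmt : Prop :=
  ∀ (V : Type) [Fintype V] [DecidableEq V] (S : Type) (T : Finset S) (a b : V → ℤ) (M : ℝ)
    (Pr : Finset ℕ) (Q j : ℕ) (w : (V → ℤ) → S) (Γ : S → ℕ → (V → ℤ) → ℝ),
    0 < M → (∀ v, M ≤ (b v : ℝ) - a v) → (∀ p ∈ Pr, p.Prime ∧ p ≤ Q) → Pr.Nonempty → 1 ≤ j →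
    (T.card : ℝ) ≤ Real.exp j → (∀ y ∈ bx a b, w y ∈ T) → (∀ s p y, |Γ s p y| ≤ 1) →
    2 * Fintype.card V * (Q : ℝ) ^ (2 * j) * (Pr.card : ℝ) ^ j ≤ M →
    |𝔼 y ∈ bx a b, 𝔼 p ∈ Pr, (Γ (w y) p (rs p y) - 𝔼 r ∈ cell V p, Γ (w y) p r)| ≤
      8 * Real.sqrt (j / Pr.card)

def ChebStmt : Prop := ∀ᶠ x : ℝ in atTop, x / (4 * Real.log x) ≤ (prs x).card

def GcsStmt : Prop :=
  ∀ (κ X : Type) [Fintype κ] [DecidableEq κ] [Nonempty κ] [Fintype X] (F : (κ → X) → ℂ)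
    (b : κ → (κ → X) → ℂ), (∀ i s, ‖b i s‖ ≤ 1) → (∀ i s t, b i (Function.update s i t) = b i s) →
    ‖𝔼 s, F s * ∏ i, b i s‖ ^ 2 ^ Fintype.card κ ≤ (𝔼 s, 𝔼 s', ∏ ω, cj ω (F (mix ω s s'))).re

def PetStmt : Prop :=
  ∀ (s L H Q : ℕ) (a b n₀ : ℤ) (nn : Fin s → ℤ) (θ f : ℤ → ℝ) (g : Fin s → ℤ → ℝ) (t : ℝ),
    1 ≤ s → 1 ≤ H → a < b → |n₀| ≤ L → (∀ j, |nn j| ≤ L) → (∀ d, 0 ≤ θ d ∧ θ d ≤ 1) →
    (∀ d, θ d ≠ 0 → 0 < d ∧ d ≤ Q) → (∀ z, |f z| ≤ 1) → (∀ j z, |g j z| ≤ 1) → 0 ≤ t →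
    t + 2 * L * s * H * Q / ((b : ℝ) - a) ≤
      |𝔼 m ∈ Ioc a b, ∑ d ∈ Ioc (0 : ℤ) Q, θ d * (f (m + n₀ * d) * ∏ j, g j (m + nn j * d))| →
    t ^ 2 ^ s ≤ ((Q : ℝ) + s * H) ^ (2 ^ s - 1) *
      ((𝔼 u : Fin s → Fin H, 𝔼 u' : Fin s → Fin H, rr θ Q u u' *
        |XX f (fun j => n₀ - nn j) a b fun j => ((u' j : ℕ) : ℤ) - ((u j : ℕ) : ℤ)|) / ((b : ℝ) - a) +
        6 * L * ((Q : ℝ) + s * H) ^ 2 / ((b : ℝ) - a))

/-! Finite inequalities for cubes. -/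

def GvnStmt : Prop :=
  ∀ (κ G : Type) [Fintype κ] [DecidableEq κ] [Nonempty κ] [AddCommGroup G] [Fintype G]
    (v : G → ℂ) (B : (κ → G) → ℂ) (z : G) (σ : κ → G → G), B ∈ BB κ G →
    (∀ i, Function.Bijective (σ i)) →
    ‖𝔼 h : κ → G, v (z + ∑ i, σ i (h i)) * B h‖ ^ 2 ^ Fintype.card κ ≤ (UU κ v).re

def GiStmt : Prop :=
  ∀ (κ G : Type) [Fintype κ] [DecidableEq κ] [Nonempty κ] [AddCommGroup G] [Fintype G]
    (v : (κ → Bool) → G → ℂ) (ω₀ : κ → Bool), (∀ ω, ω ≠ ω₀ → ∀ x, ‖v ω x‖ ≤ 1) →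
    ‖GI v‖ ^ 2 ^ Fintype.card κ ≤ (UU κ (v ω₀)).re

def GiOptStmt : Prop :=
  ∀ (κ G : Type) [Fintype κ] [DecidableEq κ] [AddCommGroup G] [Fintype G]
    (v : (Option κ → Bool) → G → ℂ),
    GI v = 𝔼 t, GI fun (ω : κ → Bool) x => v (ext false ω) x * conj (v (ext true ω) (x + t))

def GiEqvStmt : Prop :=
  ∀ (κ κ' G : Type) [Fintype κ] [DecidableEq κ] [Fintype κ'] [DecidableEq κ'] [AddCommGroup G]
    [Fintype G] (e : κ ≃ κ') (v : (κ → Bool) → G → ℂ), GI v = GI fun ω : κ' → Bool => v (ω ∘ e)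

def SpecFinStmt : Prop :=
  ∀ (X : Type) [Fintype X] [DecidableEq X] [Nonempty X] (K : X → X → ℂ),
    (∀ x y, K y x = conj (K x y)) →
    (∀ g : X → ℂ, 0 ≤ (𝔼 x, 𝔼 y, conj (g x) * K x y * g y).re) → (∀ x y, ‖K x y‖ ≤ 1) →
    ∃ (μ : X → ℝ) (u : X → X → ℂ), (∀ j, 0 ≤ μ j) ∧ ∑ j, μ j ≤ 1 ∧
      (∀ i j, 𝔼 x, u i x * conj (u j x) = if i = j then 1 else 0) ∧
      (∀ x y, K x y = ∑ j, μ j * (u j x * conj (u j y))) ∧ (∀ j x, μ j * ‖u j x‖ ≤ 1) ∧
      ∀ g : X → ℂ, ∑ j, ‖𝔼 x, g x * conj (u j x)‖ ^ 2 ≤ 𝔼 x, ‖g x‖ ^ 2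

open Matrix in
def AlgStmt : Prop :=
  ∀ (r : ℕ) (A : Set (Matrix (Fin r) (Fin r) ℂ)) (v : Fin r → ℂ), v ≠ 0 → 1 ∈ A →
    (∀ a ∈ A, ∀ b ∈ A, a + b ∈ A) → (∀ a ∈ A, ∀ c : ℂ, c • a ∈ A) →
    (∀ a ∈ A, ∀ b ∈ A, a * b ∈ A) → (∀ a ∈ A, aᴴ ∈ A) →
    ∃ α : Fin r → ℂ, star α ⬝ᵥ α = 1 ∧ star α ⬝ᵥ v ≠ 0 ∧ (vecMulVec α (star α) ∈ A ∨
      ∃ β : Fin r → ℂ, ∃ π ∈ A, π *ᵥ α = α ∧ ∀ a ∈ A, star β ⬝ᵥ a *ᵥ α = 0 ∧
        star α ⬝ᵥ a *ᵥ α = star β ⬝ᵥ a *ᵥ β)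

/-! Families of groups. -/

section fam

variable {ι : Type} (l : Filter ι) (κ : Type) [Fintype κ] [DecidableEq κ]
  (G : ι → Type) [∀ n, AddCommGroup (G n)] [∀ n, Fintype (G n)]

def PairStmt : Prop :=
  (∀ (X Y : ι → Type) [∀ n, Fintype (X n)] [∀ n, Fintype (Y n)] (v : ∀ n, X n → G n → ℂ)
    (B : ∀ n, Y n → (κ → G n) → ℂ) (π : ∀ n, Y n → X n) (z : ∀ n, Y n → G n)
    (σ : ∀ n, κ → G n → G n), Bd2 l v → Null l κ v → ClB l B → (∀ᶠ n in l, MP (π n)) →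
    (∀ᶠ n in l, ∀ i, Function.Bijective (σ n i)) →
    Tendsto (fun n => 𝔼 τ, 𝔼 h : κ → G n, v n (π n τ) (z n τ + ∑ i, σ n i (h i)) * B n τ h) l (𝓝 0)) ∧
  (∀ (X : ι → Type) [∀ n, Fintype (X n)] (v a : ∀ n, X n → G n → ℂ), Bd2 l v → Null l κ v →
    ClA l κ a → Tendsto (fun n => 𝔼 τ, 𝔼 x, v n τ x * a n τ x) l (𝓝 0)) ∧
  ∀ M : ∀ n, G n → G n → ℂ, Bd2 l M → (Null l κ fun n (t : G n) x => M n x (x + t)) → Perp l κ M

def DualStmt : Prop :=
  (∀ (X : ι → Type) [∀ n, Fintype (X n)] (v : ∀ n, X n → G n → ℂ), Bd2 l v →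
    ClA l κ fun n τ => Dual κ (v n τ)) ∧
  (∀ n (v : G n → ℂ), 𝔼 x, v x * Dual κ v x = UU κ v) ∧
  ∀ M : ∀ n, G n → G n → ℂ, Bd2 l M → Perp l κ M → Null l κ fun n (t : G n) x => M n x (x + t)

def KdualStmt : Prop :=
  ∀ f : ∀ n, G n → ℂ, (∀ n x, ‖f n x‖ ≤ 1) → ∃ K : ∀ n, G n → G n → ℂ, ClK l κ K ∧
    (∀ n x y, K n y x = conj (K n x y)) ∧
    (∀ n (g : G n → ℂ), 0 ≤ (𝔼 x, 𝔼 y, conj (g x) * K n x y * g y).re) ∧
    (∀ n x y, ‖K n x y‖ ≤ 1) ∧
    ∀ n, 𝔼 x, 𝔼 y, conj (f n x) * K n x y * f n y = UU (Option κ) (f n)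

def TwoStmt : Prop :=
  ∀ φ ψ : ∀ n, G n → ℂ, Bd1 l φ → Bd1 l ψ → (Perp l κ fun n x y => ψ n x * conj (φ n y)) →
    (Perp l κ fun n x y => φ n x * conj (φ n y) - ψ n x * conj (ψ n y)) →
    Perp l κ fun n x y => φ n x * conj (φ n y)

end fam

section ultra

variable {ι : Type} (u : Ultrafilter ι) (κ : Type) [Fintype κ] [DecidableEq κ]
  (G : ι → Type) [∀ n, AddCommGroup (G n)] [∀ n, Fintype (G n)]

def SpecStmt : Prop :=
  ∀ (K : ∀ n, G n → G n → ℂ) (f : ∀ n, G n → ℂ) (δ : ℝ), 0 < δ → ClK u κ K →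
    (∀ n x y, K n y x = conj (K n x y)) →
    (∀ n (g : G n → ℂ), 0 ≤ (𝔼 x, 𝔼 y, conj (g x) * K n x y * g y).re) →
    (∀ n x y, ‖K n x y‖ ≤ 1) → (∀ n x, ‖f n x‖ ≤ 1) →
    (∀ᶠ n in (u : Filter ι), δ ≤ (𝔼 x, 𝔼 y, conj (f n x) * K n x y * f n y).re) →
    ∃ (r : ℕ) (e : Fin r → ∀ n, G n → ℂ), Frame u κ e ∧
      ∀ᶠ n in (u : Filter ι), δ / 2 ≤ ∑ i, ‖𝔼 x, f n x * conj (e i n x)‖ ^ 2

open Matrix in
def ComprStmt : Prop :=
  ∀ (r : ℕ) (e : Fin r → ∀ n, G n → ℂ), Frame u κ e →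
    ClK u κ (ker e 1) ∧
    (∀ a b, ClK u κ (ker e a) → ClK u κ (ker e b) → ClK u κ (ker e (a + b))) ∧
    (∀ a (c : ℂ), ClK u κ (ker e a) → ClK u κ (ker e (c • a))) ∧
    (∀ a b, ClK u κ (ker e a) → ClK u κ (ker e b) → ClK u κ (ker e (a * b))) ∧
    (∀ a, ClK u κ (ker e a) → ClK u κ (ker e aᴴ)) ∧
    ∀ L : ∀ n, G n → G n → ℂ, ClK u κ L → ∃ a, ClK u κ (ker e a) ∧ ∀ i j,
      Tendsto (fun n => 𝔼 x, 𝔼 y, conj (e i n x) * L n x y * e j n y) u (𝓝 (a i j))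

def RankStmt : Prop :=
  ∀ (r : ℕ) (e : Fin r → ∀ n, G n → ℂ) (f : ∀ n, G n → ℂ) (δ : ℝ), 0 < δ → Frame u κ e → Bd1 u f →
    (∀ᶠ n in (u : Filter ι), δ ≤ ∑ i, ‖𝔼 x, f n x * conj (e i n x)‖ ^ 2) →
    ∃ φ : ∀ n, G n → ℂ, Chr u κ φ ∧ Cor u f φ

def CharStmt : Prop :=
  ∀ φ : ∀ n, G n → ℂ, Chr u κ φ →
    (∃ c₀ : ℝ, 0 < c₀ ∧ ∀ᶠ n in (u : Filter ι), c₀ ≤ (UU (Option κ) (φ n)).re) ∧
    ∀ f : ∀ n, G n → ℂ, Bd1 u f → Nul0 u κ f → Cor u f φ → Nul0 u κ φ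

end ultra

end Pool.Agent.MP_4fffd4_nt.SX

end
end

section

/-!
Sign patterns of the Liouville function: basic facts.
-/

open Finset Filter
open scoped BigOperators ComplexConjugate Topology

noncomputable section

namespace Pool.Agent.MP_4fffd4_nt.SX

theorem lamZ_natCast (n : ℕ) : lamZ (n : ℤ) = (-1) ^ ArithmeticFunction.cardFactors n := by
  simp [lamZ]

theorem lamZ_eq (z : ℤ) : lamZ z = 1 ∨ lamZ z = -1 := neg_one_pow_eq_or ℤ _

theorem lam_eq (z : ℤ) : lam z = 1 ∨ lam z = -1 := by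
  rcases lamZ_eq z with h | h <;> simp [lam, h]

theorem abs_lam (z : ℤ) : |lam z| = 1 := by
  rcases lam_eq z with h | h <;> simp [h]

theorem norm_lam (z : ℤ) : ‖(lam z : ℂ)‖ = 1 := by
  rw [Complex.norm_real, Real.norm_eq_abs, abs_lam]

theorem lamZ_mul {a b : ℤ} (ha : 0 < a) (hb : 0 < b) : lamZ (a * b) = lamZ a * lamZ b := by
  obtain ⟨a, rfl⟩ := Int.eq_ofNat_of_zero_le ha.le
  obtain ⟨b, rfl⟩ := Int.eq_ofNat_of_zero_le hb.le
  have h1 : a ≠ 0 := by omega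
  have h2 : b ≠ 0 := by omega
  rw [← Nat.cast_mul, lamZ_natCast, lamZ_natCast, lamZ_natCast,
    ArithmeticFunction.cardFactors_mul h1 h2, pow_add]

theorem lam_mul {a b : ℤ} (ha : 0 < a) (hb : 0 < b) : lam (a * b) = lam a * lam b := by
  simp [lam, lamZ_mul ha hb]

theorem lamZ_prime {p : ℕ} (hp : p.Prime) : lamZ p = -1 := by
  rw [lamZ_natCast, ArithmeticFunction.cardFactors_apply_prime hp, pow_one]

theorem lam_prime {p : ℕ} (hp : p.Prime) : lam p = -1 := by simp [lam, lamZ_prime hp]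

theorem lam_prime_mul {p : ℕ} (hp : p.Prime) {z : ℤ} (hz : 0 < z) : lam (p * z) = -lam z := by
  rw [lam_mul (by exact_mod_cast hp.pos) hz, lam_prime hp, neg_one_mul]

theorem pat_finite (n : ℕ) : (pat n).Finite := by
  refine (Set.Finite.pi' (fun _ : Fin n => Set.toFinite ({1, -1} : Set ℤ))).subset ?_
  rintro ε ⟨m, -, h⟩ j
  rw [h j]
  exact neg_one_pow_eq_or ℤ _

/-- The word of length n that starts at a. -/
theorem word_mem_pat (n : ℕ) {a : ℤ} (ha : 2 ≤ a) :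
    (fun j : Fin n => lamZ (a + ((j : ℕ) : ℤ))) ∈ pat n := by
  obtain ⟨m, rfl⟩ : ∃ m : ℕ, a = (m : ℤ) + 1 := ⟨(a - 1).toNat, by omega⟩
  refine ⟨m, by omega, fun j => ?_⟩
  rw [← lamZ_natCast]
  exact congrArg lamZ (by push_cast; ring)

theorem mem_prs {x : ℝ} (hx : 0 ≤ x) {p : ℕ} : p ∈ prs x ↔ p.Prime ∧ x < p ∧ (p : ℝ) ≤ 2 * x := by
  rw [prs, mem_filter, mem_Ioc, Nat.floor_lt hx, Nat.le_floor_iff (by linarith)]
  tauto

theorem mem_bx {V : Type} [Fintype V] [DecidableEq V] {a b y : V → ℤ} :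
    y ∈ bx a b ↔ ∀ v, a v < y v ∧ y v ≤ b v := by
  simp [bx, Fintype.mem_piFinset]

theorem mem_cell {V : Type} [Fintype V] [DecidableEq V] {p : ℕ} {y : V → ℤ} :
    y ∈ cell V p ↔ ∀ v, 0 ≤ y v ∧ y v < p := by
  simp [cell, Fintype.mem_piFinset]

theorem card_cell (V : Type) [Fintype V] [DecidableEq V] (p : ℕ) :
    (cell V p).card = p ^ Fintype.card V := by
  simp [cell, Fintype.card_piFinset]

theorem rs_mem_cell {V : Type} [Fintype V] [DecidableEq V] {p : ℕ} (hp : 0 < p) (y : V → ℤ) :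
    rs p y ∈ cell V p :=
  mem_cell.2 fun _ => ⟨Int.emod_nonneg _ (by omega), Int.emod_lt_of_pos _ (by omega)⟩

theorem dvd_add_rs {V : Type} (p : ℕ) (y : V → ℤ) (v : V) : (p : ℤ) ∣ y v + rs p y v := by
  have := Int.emod_add_mul_ediv (-y v) p
  exact ⟨-((-y v) / p), by simp only [rs]; linarith⟩

section cj

variable {κ : Type} [Fintype κ]

theorem cj_mul (ω : κ → Bool) (z w : ℂ) : cj ω (z * w) = cj ω z * cj ω w := by
  unfold cj; split_ifs <;> simp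

theorem cj_conj (ω : κ → Bool) (z : ℂ) : cj ω (conj z) = conj (cj ω z) := by
  unfold cj; split_ifs <;> simp

theorem cj_cj (ω : κ → Bool) (z : ℂ) : cj ω (cj ω z) = z := by
  unfold cj; split_ifs <;> simp

theorem cj_ofReal (ω : κ → Bool) (x : ℝ) : cj ω (x : ℂ) = x := by
  unfold cj; split_ifs <;> simp

theorem norm_cj (ω : κ → Bool) (z : ℂ) : ‖cj ω z‖ = ‖z‖ := by
  unfold cj; split_ifs <;> simp

theorem cj_false (z : ℂ) : cj (fun _ : κ => false) z = z := by simp [cj]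

theorem expect_conj {α : Type} (s : Finset α) (f : α → ℂ) :
    𝔼 a ∈ s, conj (f a) = conj (𝔼 a ∈ s, f a) := by
  simp [Finset.expect, map_sum]

theorem re_expect' {α : Type} (s : Finset α) (f : α → ℂ) :
    (𝔼 a ∈ s, f a).re = 𝔼 a ∈ s, (f a).re := by
  simp [Finset.expect, NNRat.smul_def]

theorem im_expect' {α : Type} (s : Finset α) (f : α → ℂ) :
    (𝔼 a ∈ s, f a).im = 𝔼 a ∈ s, (f a).im := by
  simp [Finset.expect, NNRat.smul_def]

theorem norm_expect_le' {α : Type} (s : Finset α) (f : α → ℂ) :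
    ‖𝔼 a ∈ s, f a‖ ≤ 𝔼 a ∈ s, ‖f a‖ := RCLike.norm_expect_le (K := ℂ)

theorem card_ext (b : Bool) (ω : κ → Bool) :
    (univ.filter fun o => ext b ω o = true).card =
      (if b then 1 else 0) + (univ.filter fun i => ω i = true).card := by
  rw [Finset.card_filter, Finset.card_filter, Fintype.sum_option]
  cases b <;> rfl

theorem cj_ext_false (ω : κ → Bool) (z : ℂ) : cj (ext false ω) z = cj ω z := by
  unfold cj
  rw [card_ext]
  simp

theorem cj_ext_true (ω : κ → Bool) (z : ℂ) : cj (ext true ω) z = cj ω (conj z) := by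
  unfold cj
  rw [card_ext]
  simp only [if_true, add_comm 1, Nat.even_add_one]
  split_ifs <;> simp_all

theorem cj_update [DecidableEq κ] (ω : κ → Bool) (i : κ) (h : ω i = true) (z : ℂ) :
    cj (Function.update ω i false) z = cj ω (conj z) := by
  have e : (univ.filter fun k => ω k = true) =
      insert i (univ.filter fun k => Function.update ω i false k = true) := by
    ext k
    by_cases hk : k = i <;> simp [hk, h]
  unfold cj
  rw [e, card_insert_of_notMem (by simp)]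
  simp only [Nat.even_add_one]
  split_ifs <;> simp_all

theorem cj_comp_equiv {κ' : Type} [Fintype κ'] (e : κ ≃ κ') (ω : κ' → Bool) (z : ℂ) :
    cj (ω ∘ e) z = cj ω z := by
  unfold cj
  rw [Finset.card_filter, Finset.card_filter]
  have := e.sum_comp fun i => if ω i = true then 1 else 0
  simp only [Function.comp_apply]
  rw [this]

/-- Vertices of a cube with one more side. -/
def extEquiv (κ : Type) : Bool × (κ → Bool) ≃ (Option κ → Bool) where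
  toFun p := ext p.1 p.2
  invFun ω := (ω none, fun i => ω (some i))
  left_inv _ := rfl
  right_inv ω := by
    funext o
    cases o <;> rfl

theorem prod_ext [DecidableEq κ] (f : (Option κ → Bool) → ℂ) :
    ∏ ω, f ω = ∏ ω : κ → Bool, f (ext false ω) * f (ext true ω) := by
  rw [← (extEquiv κ).prod_comp, Fintype.prod_prod_type, Fintype.prod_bool, ← prod_mul_distrib]
  exact prod_congr rfl fun ω _ => mul_comm _ _

variable {G : Type} [AddCommGroup G]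

theorem dot_false (h : κ → G) : dot (fun _ => false) h = 0 := by simp [dot]

theorem dot_add (ω : κ → Bool) (h k : κ → G) : dot ω (h + k) = dot ω h + dot ω k := by
  unfold dot
  rw [← sum_add_distrib]
  exact sum_congr rfl fun i _ => by split_ifs <;> simp

theorem dot_ext (b : Bool) (ω : κ → Bool) (h : Option κ → G) :
    dot (ext b ω) h = (if b then h none else 0) + dot ω fun i => h (some i) := by
  unfold dot
  rw [Fintype.sum_option]
  rfl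

theorem sum_mix (ω : κ → Bool) (s s' : κ → G) :
    ∑ i, mix ω s s' i = ∑ i, s i + dot ω (s' - s) := by
  unfold dot mix
  rw [← sum_add_distrib]
  exact sum_congr rfl fun i _ => by split_ifs <;> simp

theorem mix_update {κ X : Type} [DecidableEq κ] {ω : κ → Bool} {i : κ} (hi : ω i = true)
    (s s' : κ → X) (t : X) : mix ω (Function.update s i t) s' = mix ω s s' := by
  funext k
  by_cases hk : k = i
  · subst hk
    simp [mix, hi]
  · simp [mix, Function.update_of_ne hk]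

end cj

section MP

variable {X Y Z : Type} [Fintype X] [Fintype Y] [Fintype Z]

theorem MP.expect_c {π : Y → X} (h : MP π) (g : X → ℂ) : 𝔼 y, g (π y) = 𝔼 x, g x := by
  refine Complex.ext ?_ ?_
  · rw [re_expect', re_expect']
    exact h fun x => (g x).re
  · rw [im_expect', im_expect']
    exact h fun x => (g x).im

theorem MP.of_bijective {π : Y → X} (h : Function.Bijective π) : MP π :=
  fun _ => Fintype.expect_bijective π h _ _ fun _ => rfl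

theorem MP.equiv (e : Y ≃ X) : MP e := MP.of_bijective e.bijective

theorem MP.id : MP fun x : X => x := fun _ => rfl

theorem MP.comp {π : Y → X} {ρ : Z → Y} (h : MP π) (h' : MP ρ) : MP fun z => π (ρ z) :=
  fun g => (h' fun y => g (π y)).trans (h g)

theorem expect_prod {M : Type} [AddCommMonoid M] [Module ℚ≥0 M] (g : X × Y → M) :
    𝔼 p, g p = 𝔼 x, 𝔼 y, g (x, y) := by
  rw [← univ_product_univ, expect_product]

/-- If every fibre map in the second variable is measure preserving, so is the map. -/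
theorem MP.of_right [Nonempty Y] {π : Y × Z → X} (h : ∀ y, MP fun z => π (y, z)) : MP π := by
  intro g
  rw [expect_prod]
  simp only [fun y => h y g]
  exact Fintype.expect_const _

theorem MP.of_left [Nonempty Z] {π : Y × Z → X} (h : ∀ z, MP fun y => π (y, z)) : MP π := by
  intro g
  rw [expect_prod, expect_comm]
  simp only [fun z => h z g]
  exact Fintype.expect_const _

theorem MP.fst [Nonempty Y] : MP (Prod.fst : X × Y → X) := MP.of_left fun _ => MP.id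

theorem MP.snd [Nonempty Y] : MP (Prod.snd : Y × X → X) := MP.of_right fun _ => MP.id

theorem MP.prodMap {X' Y' : Type} [Fintype X'] [Fintype Y'] {π : Y → X} {π' : Y' → X'} (h : MP π)
    (h' : MP π') : MP fun p : Y × Y' => (π p.1, π' p.2) := by
  intro g
  rw [expect_prod, expect_prod]
  simp only [fun y => h' fun x' => g (π y, x')]
  exact h fun x => 𝔼 x', g (x, x')

variable {G : Type} [AddCommGroup G] [Fintype G]

theorem MP.add_right (z : G) : MP fun x : G => x + z := MP.equiv (Equiv.addRight z)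

theorem MP.add_left (z : G) : MP fun x : G => z + x := MP.equiv (Equiv.addLeft z)

theorem MP.sub_right (z : G) : MP fun x : G => x - z := MP.equiv (Equiv.subRight z)

theorem MP.neg : MP fun x : G => -x := MP.equiv (Equiv.neg G)

variable {κ : Type} [Fintype κ] [DecidableEq κ]

theorem MP.pi {σ : κ → X → X} (h : ∀ i, Function.Bijective (σ i)) :
    MP fun (s : κ → X) i => σ i (s i) :=
  MP.equiv (Equiv.piCongrRight fun i => Equiv.ofBijective (σ i) (h i))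

/-- The sum of the coordinates is uniformly distributed. -/
theorem MP.sum [Nonempty κ] : MP fun s : κ → G => ∑ i, s i := by
  obtain ⟨i₀⟩ := ‹Nonempty κ›
  intro g
  have h : ∀ t : G, 𝔼 s : κ → G, g (∑ i, s i) = 𝔼 s : κ → G, g (∑ i, s i + t) := fun t => by
    rw [← MP.add_right (G := κ → G) (Pi.single i₀ t) fun s => g (∑ i, s i)]
    simp [sum_add_distrib]
  calc 𝔼 s : κ → G, g (∑ i, s i) = 𝔼 t : G, 𝔼 s : κ → G, g (∑ i, s i + t) := by
        simp only [← h]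
        exact (Fintype.expect_const _).symm
    _ = 𝔼 x, g x := by
        rw [expect_comm]
        simp only [fun z : G => MP.add_left z g]
        exact Fintype.expect_const _

/-- From pairs of points to a point and a difference. -/
theorem expect_diff {M : Type} [AddCommMonoid M] [Module ℚ≥0 M] (g : G → G → M) :
    𝔼 x, 𝔼 y, g x y = 𝔼 t, 𝔼 x, g x (x + t) := by
  rw [expect_comm (f := fun t x => g x (x + t))]
  exact expect_congr rfl fun x _ =>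
    (Fintype.expect_equiv (Equiv.addLeft x) _ _ fun _ => rfl).symm

end MP

/-- Along an ultrafilter a nonnegative family tends to zero or stays away from zero. -/
theorem ultra_dichotomy {ι : Type} (u : Ultrafilter ι) (a : ι → ℝ) (h : ∀ n, 0 ≤ a n)
    (h0 : ¬ Tendsto a u (𝓝 0)) : ∃ c : ℝ, 0 < c ∧ ∀ᶠ n in (u : Filter ι), c ≤ a n := by
  by_contra hc
  push Not at hc
  refine h0 (tendsto_order.2 ⟨fun b hb => Eventually.of_forall fun n => hb.trans_le (h n),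
    fun b hb => ?_⟩)
  exact hc b hb

/-- Bounded families converge along an ultrafilter. -/
theorem ultra_lim {ι : Type} (u : Ultrafilter ι) (a : ι → ℂ) (C : ℝ)
    (h : ∀ᶠ n in (u : Filter ι), ‖a n‖ ≤ C) : ∃ z : ℂ, Tendsto a u (𝓝 z) := by
  obtain ⟨z, -, hz⟩ := (isCompact_closedBall (0 : ℂ) C).ultrafilter_le_nhds (u.map a)
    (le_principal_iff.2 (h.mono fun n hn => by simpa using hn))
  exact ⟨z, hz⟩

/-- A family with finitely many values is eventually constant along an ultrafilter. -/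
theorem ultra_const {ι : Type} (u : Ultrafilter ι) (a : ι → ℕ) (C : ℕ)
    (h : ∀ᶠ n in (u : Filter ι), a n ≤ C) : ∃ k, k ≤ C ∧ ∀ᶠ n in (u : Filter ι), a n = k := by
  have : ∀ᶠ n in (u : Filter ι), ∃ k ∈ Set.Iic C, a n = k := h.mono fun n hn => ⟨_, hn, rfl⟩
  obtain ⟨k, hk, h'⟩ := (Ultrafilter.eventually_exists_mem_iff (Set.finite_Iic C)).1 this
  exact ⟨k, hk, h'⟩

end Pool.Agent.MP_4fffd4_nt.SX

end
end

section

/-!
Closure properties of the classes of structured families.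
-/

open Finset Filter
open scoped BigOperators ComplexConjugate Topology

noncomputable section

namespace Pool.Agent.MP_4fffd4_nt.SX

section BB

variable {κ : Type} [Fintype κ] [DecidableEq κ] {G G' : Type}

theorem Gen.mem_BB {F : (κ → G) → ℂ} (h : F ∈ Gen κ G) : F ∈ BB κ G := subset_convexHull ℝ _ h

theorem BB.convex : Convex ℝ (BB κ G) := convex_convexHull ℝ _

theorem BB.map {T : ((κ → G) → ℂ) → (κ → G') → ℂ} (hT : IsLinearMap ℝ T)
    (h : ∀ F ∈ Gen κ G, T F ∈ BB κ G') {F : (κ → G) → ℂ} (hF : F ∈ BB κ G) : T F ∈ BB κ G' :=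
  convexHull_min (t := T ⁻¹' BB κ G') h (BB.convex.is_linear_preimage hT) hF

theorem BB.norm_le {F : (κ → G) → ℂ} (hF : F ∈ BB κ G) (s : κ → G) : ‖F s‖ ≤ 1 := by
  have hc : Convex ℝ ((fun F : (κ → G) → ℂ => F s) ⁻¹' Metric.closedBall 0 1) :=
    (convex_closedBall (0 : ℂ) 1).is_linear_preimage ⟨fun _ _ => rfl, fun _ _ => rfl⟩
  have := convexHull_min (t := (fun F : (κ → G) → ℂ => F s) ⁻¹' Metric.closedBall 0 1) (by
    rintro F ⟨b, h1, -, rfl⟩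
    simp only [Set.mem_preimage, mem_closedBall_zero_iff, norm_prod]
    exact prod_le_one (fun _ _ => norm_nonneg _) fun i _ => h1 i s) hc hF
  simpa using this

theorem Gen.mul {F F' : (κ → G) → ℂ} (h : F ∈ Gen κ G) (h' : F' ∈ Gen κ G) :
    (fun s => F s * F' s) ∈ Gen κ G := by
  obtain ⟨b, h1, h2, rfl⟩ := h
  obtain ⟨b', h1', h2', rfl⟩ := h'
  refine ⟨fun i s => b i s * b' i s, fun i s => ?_, fun i s t => by simp only [h2, h2'], ?_⟩
  · rw [norm_mul]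
    exact mul_le_one₀ (h1 i s) (norm_nonneg _) (h1' i s)
  · funext s
    rw [prod_mul_distrib]

theorem BB.mul {F F' : (κ → G) → ℂ} (h : F ∈ BB κ G) (h' : F' ∈ BB κ G) :
    (fun s => F s * F' s) ∈ BB κ G := by
  refine BB.map (T := fun F s => F s * F' s)
    ⟨fun _ _ => funext fun _ => add_mul _ _ _, fun _ _ => funext fun _ => by simp [mul_assoc]⟩
    (fun F hF => ?_) h
  exact BB.map (T := fun F' s => F s * F' s)
    ⟨fun _ _ => funext fun _ => mul_add _ _ _, fun _ _ => funext fun _ => by simp [mul_left_comm]⟩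
    (fun F' hF' => Gen.mem_BB (Gen.mul hF hF')) h'

theorem BB.conj {F : (κ → G) → ℂ} (h : F ∈ BB κ G) : (fun s => conj (F s)) ∈ BB κ G := by
  refine BB.map (T := fun F s => conj (F s))
    ⟨fun _ _ => funext fun _ => by simp, fun _ _ => funext fun _ => by simp⟩ ?_ h
  rintro F ⟨b, h1, h2, rfl⟩
  exact Gen.mem_BB ⟨fun i s => conj (b i s), fun i s => by simpa using h1 i s,
    fun i s t => by simp only [h2], funext fun s => by simp⟩

theorem Gen.of_indep {F : (κ → G) → ℂ} (i : κ) (h1 : ∀ s, ‖F s‖ ≤ 1)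
    (h2 : ∀ s t, F (Function.update s i t) = F s) : F ∈ Gen κ G := by
  refine ⟨fun k s => if k = i then F s else 1, fun k s => ?_, fun k s t => ?_, funext fun s => ?_⟩
  · beta_reduce
    split_ifs
    · exact h1 s
    · simp
  · beta_reduce
    split_ifs with h
    · rw [h, h2]
    · rfl
  · simp

theorem BB.smul [Nonempty κ] {F : (κ → G) → ℂ} (h : F ∈ BB κ G) {c : ℂ} (hc : ‖c‖ ≤ 1) :
    (fun s => c * F s) ∈ BB κ G :=
  BB.mul (Gen.mem_BB (Gen.of_indep (F := fun _ => c) (Classical.arbitrary κ) (fun _ => hc)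
    fun _ _ => rfl)) h

theorem BB.pull (σ : κ → G' → G) {F : (κ → G) → ℂ} (h : F ∈ BB κ G) :
    (fun s : κ → G' => F fun i => σ i (s i)) ∈ BB κ G' := by
  refine BB.map (T := fun F (s : κ → G') => F fun i => σ i (s i))
    ⟨fun _ _ => rfl, fun _ _ => rfl⟩ ?_ h
  rintro F ⟨b, h1, h2, rfl⟩
  refine Gen.mem_BB ⟨fun i s => b i fun k => σ k (s k), fun i s => h1 _ _, fun i s t => ?_, rfl⟩
  beta_reduce
  rw [← h2 i (fun k => σ k (s k)) (σ i t)]
  congr 1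
  funext k
  by_cases hk : k = i
  · subst hk
    simp
  · simp [Function.update_of_ne hk]

theorem BB.expect [Nonempty κ] {Y : Type} [Fintype Y] {B : Y → (κ → G) → ℂ}
    (h : ∀ y, B y ∈ BB κ G) : (fun s => 𝔼 y, B y s) ∈ BB κ G := by
  rcases isEmpty_or_nonempty Y with hY | hY
  · exact Gen.mem_BB (Gen.of_indep (Classical.arbitrary κ) (fun _ => by simp) fun _ _ => by simp)
  · have hc : (0 : ℝ) < Fintype.card Y := by exact_mod_cast Fintype.card_pos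
    have := BB.convex.sum_mem (t := univ) (w := fun _ : Y => (Fintype.card Y : ℝ)⁻¹) (z := B)
      (fun _ _ => by positivity) (by simp) fun y _ => h y
    convert this using 1
    funext s
    simp [Fintype.expect_eq_sum_div_card, div_eq_inv_mul, mul_sum]

end BB

theorem norm_add_sq_le (a b : ℂ) : ‖a + b‖ ^ 2 ≤ 2 * ‖a‖ ^ 2 + 2 * ‖b‖ ^ 2 := by
  have h := pow_le_pow_left₀ (norm_nonneg _) (norm_add_le a b) 2
  nlinarith [sq_nonneg (‖a‖ - ‖b‖)]

theorem sq_expect_le {α : Type} (s : Finset α) (f : α → ℝ) :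
    (𝔼 a ∈ s, f a) ^ 2 ≤ 𝔼 a ∈ s, f a ^ 2 := by
  rcases s.eq_empty_or_nonempty with rfl | hs
  · simp
  · simpa [expect_const hs] using expect_mul_sq_le_sq_mul_sq s f fun _ => (1 : ℝ)

theorem norm_expect_sq_le {α : Type} (s : Finset α) (f : α → ℂ) :
    ‖𝔼 a ∈ s, f a‖ ^ 2 ≤ 𝔼 a ∈ s, ‖f a‖ ^ 2 :=
  (pow_le_pow_left₀ (norm_nonneg _) (norm_expect_le' s f) 2).trans (sq_expect_le s _)

theorem norm_expect_le_of_le {α : Type} (s : Finset α) {f : α → ℂ} {C : ℝ} (hC : 0 ≤ C)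
    (h : ∀ a ∈ s, ‖f a‖ ≤ C) : ‖𝔼 a ∈ s, f a‖ ≤ C := by
  rcases s.eq_empty_or_nonempty with rfl | hs
  · simpa using hC
  · exact (norm_expect_le' s f).trans (expect_le hs h)

theorem expect2_le {X Y : Type} [Fintype X] [Fintype Y] {f g h : X → Y → ℝ} {a b : ℝ}
    (H : ∀ x y, f x y ≤ a * g x y + b * h x y) :
    𝔼 x, 𝔼 y, f x y ≤ a * (𝔼 x, 𝔼 y, g x y) + b * 𝔼 x, 𝔼 y, h x y := by
  simp only [mul_expect, ← expect_add_distrib]
  exact expect_le_expect fun x _ => expect_le_expect fun y _ => H x y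

section Bd

variable {ι : Type} {l : Filter ι} {X Y Z X' Y' : ι → Type}

theorem Bd1.pos {F : ∀ n, X n → ℂ} (h : Bd1 l F) :
    ∃ C : ℝ, 1 ≤ C ∧ ∀ᶠ n in l, ∀ y, ‖F n y‖ ≤ C := by
  obtain ⟨C, h⟩ := h
  exact ⟨max C 1, le_max_right _ _, h.mono fun n hn y => (hn y).trans (le_max_left _ _)⟩

theorem Bd2.pos {F : ∀ n, X n → Y n → ℂ} (h : Bd2 l F) :
    ∃ C : ℝ, 1 ≤ C ∧ ∀ᶠ n in l, ∀ y z, ‖F n y z‖ ≤ C := by
  obtain ⟨C, h⟩ := h
  exact ⟨max C 1, le_max_right _ _, h.mono fun n hn y z => (hn y z).trans (le_max_left _ _)⟩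

theorem Bd1.of_le {F : ∀ n, X n → ℂ} {C : ℝ} (h : ∀ n x, ‖F n x‖ ≤ C) : Bd1 l F :=
  ⟨C, Eventually.of_forall h⟩

theorem Bd2.of_le {F : ∀ n, X n → Y n → ℂ} {C : ℝ} (h : ∀ n x y, ‖F n x y‖ ≤ C) : Bd2 l F :=
  ⟨C, Eventually.of_forall h⟩

theorem Bd1.comp2 {F : ∀ n, Z n → ℂ} (h : Bd1 l F) (π : ∀ n, X n → Y n → Z n) :
    Bd2 l fun n x y => F n (π n x y) :=
  h.imp fun _ h => h.mono fun _ hn _ _ => hn _

theorem Bd1.comp {F : ∀ n, Z n → ℂ} (h : Bd1 l F) (π : ∀ n, X n → Z n) :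
    Bd1 l fun n x => F n (π n x) :=
  h.imp fun _ h => h.mono fun _ hn _ => hn _

theorem Bd2.comp {F : ∀ n, X' n → Y' n → ℂ} (h : Bd2 l F) (π : ∀ n, X n → Y n → X' n)
    (ρ : ∀ n, X n → Y n → Y' n) : Bd2 l fun n x y => F n (π n x y) (ρ n x y) :=
  h.imp fun _ h => h.mono fun _ hn _ _ => hn _ _

theorem Bd2.congr {F F' : ∀ n, X n → Y n → ℂ} (h : Bd2 l F)
    (e : ∀ᶠ n in l, ∀ x y, F n x y = F' n x y) : Bd2 l F' :=
  h.imp fun _ h => (h.and e).mono fun _ hn x y => hn.2 x y ▸ hn.1 x y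

theorem Bd2.const (c : ℂ) : Bd2 l fun n (_ : X n) (_ : Y n) => c := Bd2.of_le fun _ _ _ => le_rfl

theorem Bd2.add {F F' : ∀ n, X n → Y n → ℂ} (h : Bd2 l F) (h' : Bd2 l F') :
    Bd2 l fun n x y => F n x y + F' n x y := by
  obtain ⟨C, h⟩ := h
  obtain ⟨C', h'⟩ := h'
  exact ⟨C + C', (h.and h').mono fun n hn x y => norm_add_le_of_le (hn.1 x y) (hn.2 x y)⟩

theorem Bd2.sub {F F' : ∀ n, X n → Y n → ℂ} (h : Bd2 l F) (h' : Bd2 l F') :
    Bd2 l fun n x y => F n x y - F' n x y := by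
  obtain ⟨C, h⟩ := h
  obtain ⟨C', h'⟩ := h'
  exact ⟨C + C', (h.and h').mono fun n hn x y => norm_sub_le_of_le (hn.1 x y) (hn.2 x y)⟩

theorem Bd2.mul {F F' : ∀ n, X n → Y n → ℂ} (h : Bd2 l F) (h' : Bd2 l F') :
    Bd2 l fun n x y => F n x y * F' n x y := by
  obtain ⟨C, h⟩ := h
  obtain ⟨C', h'⟩ := h'
  exact ⟨C * C', (h.and h').mono fun n hn x y => norm_mul_le_of_le (hn.1 x y) (hn.2 x y)⟩

theorem Bd2.conj {F : ∀ n, X n → Y n → ℂ} (h : Bd2 l F) : Bd2 l fun n x y => conj (F n x y) :=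
  h.imp fun _ h => h.mono fun _ hn x y => by simpa using hn x y

theorem Bd2.cj {κ : Type} [Fintype κ] (ω : κ → Bool) {F : ∀ n, X n → Y n → ℂ} (h : Bd2 l F) :
    Bd2 l fun n x y => cj ω (F n x y) :=
  h.imp fun _ h => h.mono fun _ hn x y => by simpa [norm_cj] using hn x y

theorem Bd2.prod {α : Type} (s : Finset α) {F : α → ∀ n, X n → Y n → ℂ}
    (h : ∀ a ∈ s, Bd2 l (F a)) : Bd2 l fun n x y => ∏ a ∈ s, F a n x y := by
  classical
  induction s using Finset.induction_on with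
  | empty => simpa using Bd2.const 1
  | insert a s ha ih =>
    simpa [prod_insert ha] using (h a (mem_insert_self _ _)).mul
      (ih fun b hb => h b (mem_insert_of_mem hb))

theorem Bd2.sum {α : Type} (s : Finset α) {F : α → ∀ n, X n → Y n → ℂ}
    (h : ∀ a ∈ s, Bd2 l (F a)) : Bd2 l fun n x y => ∑ a ∈ s, F a n x y := by
  classical
  induction s using Finset.induction_on with
  | empty => simpa using Bd2.const 0
  | insert a s ha ih =>
    simpa [sum_insert ha] using (h a (mem_insert_self _ _)).add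
      (ih fun b hb => h b (mem_insert_of_mem hb))

theorem Bd2.expect [∀ n, Fintype (Z n)] {F : ∀ n, X n × Z n → Y n → ℂ} (h : Bd2 l F) :
    Bd2 l fun n x y => 𝔼 z, F n (x, z) y := by
  obtain ⟨C, hC, h⟩ := h.pos
  exact ⟨C, h.mono fun n hn x y => norm_expect_le_of_le _ (by linarith) fun z _ => hn _ _⟩

theorem Bd1.to2 {F : ∀ n, X n → ℂ} : Bd1 l F ↔ Bd2 l fun n (_ : Unit) x => F n x :=
  exists_congr fun _ => eventually_congr (Eventually.of_forall fun _ =>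
    ⟨fun h _ y => h y, fun h y => h () y⟩)

theorem Bd1.mul {F F' : ∀ n, X n → ℂ} (h : Bd1 l F) (h' : Bd1 l F') :
    Bd1 l fun n x => F n x * F' n x := Bd1.to2.2 ((Bd1.to2.1 h).mul (Bd1.to2.1 h'))

theorem Bd1.conj {F : ∀ n, X n → ℂ} (h : Bd1 l F) : Bd1 l fun n x => conj (F n x) :=
  Bd1.to2.2 (Bd1.to2.1 h).conj

theorem Bd1.sum_mul {α : Type} (s : Finset α) (c : α → ℂ) {F : α → ∀ n, X n → ℂ}
    (h : ∀ a ∈ s, Bd1 l (F a)) : Bd1 l fun n x => ∑ a ∈ s, c a * F a n x :=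
  Bd1.to2.2 (Bd2.sum s fun a ha => (Bd2.const (c a)).mul (Bd1.to2.1 (h a ha)))

end Bd

section ClB

variable {ι : Type} {l : Filter ι} {κ : Type} [Fintype κ] [DecidableEq κ]
  {G : ι → Type} [∀ n, Fintype (G n)] {X Y : ι → Type} [∀ n, Fintype (X n)] [∀ n, Fintype (Y n)]
  {F F' : ∀ n, X n → (κ → G n) → ℂ}

theorem ClB.of_close (hb : Bd2 l F) (h : ∀ ε : ℝ, 0 < ε → ∃ F' : ∀ n, X n → (κ → G n) → ℂ,
    ClB l F' ∧ ∀ᶠ n in l, 𝔼 τ, 𝔼 s, ‖F n τ s - F' n τ s‖ ^ 2 ≤ ε) : ClB l F := by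
  refine ⟨hb, fun ε hε => ?_⟩
  obtain ⟨F', h1, h2⟩ := h (ε / 4) (by positivity)
  obtain ⟨C, hC, h3⟩ := h1.2 (ε / 4) (by positivity)
  refine ⟨C, hC, (h2.and h3).mono fun n ⟨h4, B, h5, h6⟩ => ⟨B, h5, ?_⟩⟩
  refine (expect2_le (a := 2) (b := 2) (g := fun τ s => ‖F n τ s - F' n τ s‖ ^ 2)
    (h := fun τ s => ‖F' n τ s - C * B τ s‖ ^ 2) fun τ s => ?_).trans (by linarith)
  simpa using norm_add_sq_le (F n τ s - F' n τ s) (F' n τ s - C * B τ s)

theorem ClB.congr (h : ClB l F) (e : ∀ᶠ n in l, ∀ τ s, F n τ s = F' n τ s) : ClB l F' :=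
  ClB.of_close (h.1.congr e) fun ε hε => ⟨F, h, e.mono fun n hn => by simp [hn, hε.le]⟩

/-- Bounded families that do not depend on one coordinate. -/
theorem ClB.of_indep (i : κ) (hb : Bd2 l F)
    (h : ∀ n τ s t, F n τ (Function.update s i t) = F n τ s) : ClB l F := by
  obtain ⟨C, hC, h1⟩ := hb.pos
  have h0 : (0 : ℝ) < C := by linarith
  have h0' : (C : ℂ) ≠ 0 := by exact_mod_cast h0.ne'
  refine ⟨hb, fun ε hε => ⟨C, h0.le, h1.mono fun n hn => ⟨fun τ s => F n τ s / C, fun τ =>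
    Gen.mem_BB (Gen.of_indep i (fun s => ?_) fun s t => by simp only [h]), ?_⟩⟩⟩
  · rw [norm_div, Complex.norm_real, Real.norm_of_nonneg h0.le, div_le_one h0]
    exact hn τ s
  · simp [mul_div_cancel₀ _ h0', hε.le]

theorem ClB.mul (h : ClB l F) (h' : ClB l F') : ClB l fun n τ s => F n τ s * F' n τ s := by
  refine ⟨h.1.mul h'.1, fun ε hε => ?_⟩
  obtain ⟨D, hD, hb⟩ := h.1.pos
  obtain ⟨C', hC', h2⟩ := h'.2 (ε / (4 * D ^ 2)) (by positivity)
  obtain ⟨C, hC, h1⟩ := h.2 (ε / (4 * (C' + 1) ^ 2)) (by positivity)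
  refine ⟨C * C', by positivity, (hb.and (h1.and h2)).mono
    fun n ⟨h3, ⟨B, h4, h5⟩, B', h6, h7⟩ => ⟨fun τ s => B τ s * B' τ s,
      fun τ => BB.mul (h4 τ) (h6 τ), ?_⟩⟩
  refine (expect2_le (a := 2 * D ^ 2) (b := 2 * (C' + 1) ^ 2)
    (g := fun τ s => ‖F' n τ s - C' * B' τ s‖ ^ 2)
    (h := fun τ s => ‖F n τ s - C * B τ s‖ ^ 2) fun τ s => ?_).trans ?_
  · have e : F n τ s * F' n τ s - ((C * C' : ℝ) : ℂ) * (B τ s * B' τ s) =
        F n τ s * (F' n τ s - C' * B' τ s) + C' * B' τ s * (F n τ s - C * B τ s) := by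
      push_cast
      ring
    have a1 : ‖F n τ s‖ ^ 2 ≤ D ^ 2 := pow_le_pow_left₀ (norm_nonneg _) (h3 τ s) 2
    have a2 : ‖(C' : ℂ) * B' τ s‖ ^ 2 ≤ (C' + 1) ^ 2 := by
      refine pow_le_pow_left₀ (norm_nonneg _) ?_ 2
      rw [norm_mul, Complex.norm_real, Real.norm_of_nonneg hC']
      nlinarith [BB.norm_le (h6 τ) s]
    rw [e]
    refine (norm_add_sq_le _ _).trans ?_
    rw [norm_mul (F n τ s), norm_mul ((C' : ℂ) * B' τ s), mul_pow, mul_pow]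
    nlinarith [sq_nonneg ‖F' n τ s - C' * B' τ s‖, sq_nonneg ‖F n τ s - C * B τ s‖]
  · have a1 := mul_le_mul_of_nonneg_left h7 (show 0 ≤ 2 * D ^ 2 by positivity)
    have a2 := mul_le_mul_of_nonneg_left h5 (show 0 ≤ 2 * (C' + 1) ^ 2 by positivity)
    have e1 : 2 * D ^ 2 * (ε / (4 * D ^ 2)) = ε / 2 := by field_simp; ring
    have e2 : 2 * (C' + 1) ^ 2 * (ε / (4 * (C' + 1) ^ 2)) = ε / 2 := by field_simp; ring
    linarith

theorem ClB.conj (h : ClB l F) : ClB l fun n τ s => conj (F n τ s) := by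
  refine ⟨h.1.conj, fun ε hε => (h.2 ε hε).imp fun C hC => ⟨hC.1, hC.2.mono
    fun n ⟨B, h1, h2⟩ => ⟨fun τ s => conj (B τ s), fun τ => BB.conj (h1 τ), ?_⟩⟩⟩
  refine le_of_eq_of_le (expect_congr rfl fun τ _ => expect_congr rfl fun s _ => ?_) h2
  rw [← Complex.norm_conj (F n τ s - C * B τ s)]
  simp

theorem ClB.cj {κ' : Type} [Fintype κ'] (ω : κ' → Bool) (h : ClB l F) :
    ClB l fun n τ s => cj ω (F n τ s) := by
  unfold SX.cj
  split_ifs
  · exact h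
  · exact h.conj

/-- Change of the parameter and of each coordinate. -/
theorem ClB.pull (h : ClB l F) (π : ∀ n, Y n → X n) (σ : ∀ n, Y n → κ → G n → G n)
    (hπ : ∀ᶠ n in l, MP (π n)) (hσ : ∀ᶠ n in l, ∀ τ i, Function.Bijective (σ n τ i)) :
    ClB l fun n τ s => F n (π n τ) fun i => σ n τ i (s i) := by
  refine ⟨h.1.comp _ _, fun ε hε => (h.2 ε hε).imp fun C hC => ⟨hC.1,
    (hC.2.and (hπ.and hσ)).mono fun n ⟨⟨B, h1, h2⟩, h3, h4⟩ =>
      ⟨fun τ s => B (π n τ) fun i => σ n τ i (s i), fun τ => BB.pull _ (h1 _), ?_⟩⟩⟩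
  refine le_of_eq_of_le ?_ h2
  rw [← h3 fun x => 𝔼 s, ‖F n x s - C * B x s‖ ^ 2]
  exact expect_congr rfl fun τ _ =>
    MP.pi (h4 τ) fun s => ‖F n (π n τ) s - C * B (π n τ) s‖ ^ 2

theorem ClB.comap (h : ClB l F) (π : ∀ n, Y n → X n) (hπ : ∀ᶠ n in l, MP (π n)) :
    ClB l fun n τ s => F n (π n τ) s :=
  h.pull π (fun _ _ _ x => x) hπ (Eventually.of_forall fun _ _ _ => Function.bijective_id)

variable [Nonempty κ]

/-- Bounded functions of the parameter. -/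
theorem ClB.param {a : ∀ n, X n → ℂ} (h : Bd1 l a) : ClB l fun n τ (_ : κ → G n) => a n τ :=
  ClB.of_indep (Classical.arbitrary κ) (h.comp2 fun _ τ _ => τ) fun _ _ _ _ => rfl

theorem ClB.const (c : ℂ) : ClB l fun n (_ : X n) (_ : κ → G n) => c :=
  ClB.param (a := fun _ _ => c) (Bd1.of_le fun _ _ => le_rfl)

theorem ClB.smul (c : ℂ) (h : ClB l F) : ClB l fun n τ s => c * F n τ s := (ClB.const c).mul h

theorem ClB.add (h : ClB l F) (h' : ClB l F') : ClB l fun n τ s => F n τ s + F' n τ s := by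
  refine ⟨h.1.add h'.1, fun ε hε => ?_⟩
  obtain ⟨C, hC, h1⟩ := h.2 (ε / 4) (by positivity)
  obtain ⟨C', hC', h2⟩ := h'.2 (ε / 4) (by positivity)
  have hD : (0 : ℝ) < C + C' + 1 := by linarith
  have hD' : (C : ℂ) + C' + 1 ≠ 0 := by exact_mod_cast hD.ne'
  have a : ∀ x : ℝ, 0 ≤ x → x ≤ C + C' + 1 → ‖((x / (C + C' + 1) : ℝ) : ℂ)‖ ≤ 1 := fun x h0 h1 => by
    rw [Complex.norm_real, Real.norm_of_nonneg (by positivity), div_le_one hD]
    exact h1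
  refine ⟨2 * (C + C' + 1), by positivity, (h1.and h2).mono fun n ⟨⟨B, h3, h4⟩, B', h5, h6⟩ =>
    ⟨fun τ => (1 / 2 : ℝ) • (fun s => ((C / (C + C' + 1) : ℝ) : ℂ) * B τ s) +
      (1 / 2 : ℝ) • fun s => ((C' / (C + C' + 1) : ℝ) : ℂ) * B' τ s, fun τ =>
        BB.convex (BB.smul (h3 τ) (a C hC (by linarith))) (BB.smul (h5 τ) (a C' hC' (by linarith)))
          (by norm_num) (by norm_num) (by norm_num), ?_⟩⟩
  refine (expect2_le (a := 2) (b := 2) (g := fun τ s => ‖F n τ s - C * B τ s‖ ^ 2)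
    (h := fun τ s => ‖F' n τ s - C' * B' τ s‖ ^ 2) fun τ s => ?_).trans (by linarith)
  refine le_of_eq_of_le ?_ (norm_add_sq_le (F n τ s - C * B τ s) (F' n τ s - C' * B' τ s))
  congr 2
  simp only [Pi.add_apply, Pi.smul_apply, Complex.real_smul]
  push_cast
  field_simp
  ring

theorem ClB.sub (h : ClB l F) (h' : ClB l F') : ClB l fun n τ s => F n τ s - F' n τ s := by
  simpa [sub_eq_add_neg] using h.add (h'.smul (-1))

theorem ClB.prod {α : Type} (t : Finset α) {F : α → ∀ n, X n → (κ → G n) → ℂ}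
    (h : ∀ a ∈ t, ClB l (F a)) : ClB l fun n τ s => ∏ a ∈ t, F a n τ s := by
  classical
  induction t using Finset.induction_on with
  | empty => simpa using ClB.const 1
  | insert a t ha ih =>
    simpa [prod_insert ha] using (h a (mem_insert_self _ _)).mul
      (ih fun b hb => h b (mem_insert_of_mem hb))

theorem ClB.sum {α : Type} (t : Finset α) {F : α → ∀ n, X n → (κ → G n) → ℂ}
    (h : ∀ a ∈ t, ClB l (F a)) : ClB l fun n τ s => ∑ a ∈ t, F a n τ s := by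
  classical
  induction t using Finset.induction_on with
  | empty => simpa using ClB.const 0
  | insert a t ha ih =>
    simpa [sum_insert ha] using (h a (mem_insert_self _ _)).add
      (ih fun b hb => h b (mem_insert_of_mem hb))

/-- Averaging over a part of the parameter. -/
theorem ClB.avg {F : ∀ n, X n × Y n → (κ → G n) → ℂ} (h : ClB l F) :
    ClB l fun n τ s => 𝔼 y, F n (τ, y) s := by
  refine ⟨h.1.expect, fun ε hε => (h.2 ε hε).imp fun C hC => ⟨hC.1, hC.2.mono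
    fun n ⟨B, h1, h2⟩ => ⟨fun τ s => 𝔼 y, B (τ, y) s, fun τ => BB.expect fun y => h1 _, ?_⟩⟩⟩
  refine le_trans ?_ h2
  rw [expect_prod]
  refine expect_le_expect fun τ _ => ?_
  rw [expect_comm]
  refine expect_le_expect fun s _ => ?_
  rw [mul_expect, ← expect_sub_distrib]
  exact norm_expect_sq_le _ _

end ClB

section ClA

variable {ι : Type} {l : Filter ι} {κ : Type} [Fintype κ] [DecidableEq κ] [Nonempty κ]
  {G : ι → Type} [∀ n, AddCommGroup (G n)] [∀ n, Fintype (G n)]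
  {X Y : ι → Type} [∀ n, Fintype (X n)] [∀ n, Fintype (Y n)] {F F' : ∀ n, X n → G n → ℂ}

theorem ClA.bd (h : ClA l κ F) : Bd2 l F := by
  obtain ⟨C, h⟩ := h.1
  exact ⟨C, h.mono fun n hn τ x => by simpa using hn τ (Pi.single (Classical.arbitrary κ) x)⟩

omit [Nonempty κ] in
theorem ClA.congr (h : ClA l κ F) (e : ∀ᶠ n in l, ∀ τ x, F n τ x = F' n τ x) : ClA l κ F' :=
  ClB.congr h (e.mono fun _ hn _ _ => hn _ _)

theorem ClA.of_close (hb : Bd2 l F) (h : ∀ ε : ℝ, 0 < ε → ∃ F' : ∀ n, X n → G n → ℂ,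
    ClA l κ F' ∧ ∀ᶠ n in l, 𝔼 τ, 𝔼 x, ‖F n τ x - F' n τ x‖ ^ 2 ≤ ε) : ClA l κ F := by
  refine ClB.of_close (hb.comp _ _) fun ε hε => ?_
  obtain ⟨F', h1, h2⟩ := h ε hε
  refine ⟨_, h1, h2.mono fun n hn => le_of_eq_of_le (expect_congr rfl fun τ _ => ?_) hn⟩
  exact MP.sum fun x => ‖F n τ x - F' n τ x‖ ^ 2

theorem ClA.param {a : ∀ n, X n → ℂ} (h : Bd1 l a) : ClA l κ fun n τ (_ : G n) => a n τ :=
  ClB.param h

theorem ClA.const (c : ℂ) : ClA l κ fun n (_ : X n) (_ : G n) => c := ClB.const c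

omit [Nonempty κ] in
theorem ClA.mul (h : ClA l κ F) (h' : ClA l κ F') : ClA l κ fun n τ x => F n τ x * F' n τ x :=
  ClB.mul h h'

omit [Nonempty κ] in
theorem ClA.conj (h : ClA l κ F) : ClA l κ fun n τ x => conj (F n τ x) := ClB.conj h

theorem ClA.smul (c : ℂ) (h : ClA l κ F) : ClA l κ fun n τ x => c * F n τ x := ClB.smul c h

theorem ClA.add (h : ClA l κ F) (h' : ClA l κ F') : ClA l κ fun n τ x => F n τ x + F' n τ x :=
  ClB.add h h'

theorem ClA.sub (h : ClA l κ F) (h' : ClA l κ F') : ClA l κ fun n τ x => F n τ x - F' n τ x :=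
  ClB.sub h h'

theorem ClA.sum {α : Type} (t : Finset α) {F : α → ∀ n, X n → G n → ℂ}
    (h : ∀ a ∈ t, ClA l κ (F a)) : ClA l κ fun n τ x => ∑ a ∈ t, F a n τ x := ClB.sum t h

theorem ClA.avg {F : ∀ n, X n × Y n → G n → ℂ} (h : ClA l κ F) :
    ClA l κ fun n τ x => 𝔼 y, F n (τ, y) x :=
  ClB.avg (F := fun n τ (s : κ → G n) => F n τ (∑ i, s i)) h

/-- Structured functions along linear forms with bijective coefficients. -/
theorem ClA.along (h : ClA l κ F) (π : ∀ n, Y n → X n) (z : ∀ n, Y n → G n)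
    (σ : ∀ n, κ → G n → G n) (hπ : ∀ᶠ n in l, MP (π n))
    (hσ : ∀ᶠ n in l, ∀ i, Function.Bijective (σ n i)) :
    ClB l fun n τ (s : κ → G n) => F n (π n τ) (z n τ + ∑ i, σ n i (s i)) := by
  obtain ⟨i₀⟩ := ‹Nonempty κ›
  have h' : ClB l fun n τ (s : κ → G n) => F n τ (∑ i, s i) := h
  have hb : ∀ᶠ n in l, ∀ (τ : Y n) (i : κ),
      Function.Bijective fun x : G n => (if i = i₀ then z n τ else 0) + σ n i x :=
    hσ.mono fun n hn τ i => (Equiv.addLeft (if i = i₀ then z n τ else 0)).bijective.comp (hn i)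
  refine (h'.pull π (fun n τ i x => (if i = i₀ then z n τ else 0) + σ n i x) hπ hb).congr
    (Eventually.of_forall fun n τ s => ?_)
  simp [sum_add_distrib]

/-- Change of the parameter and translation. -/
theorem ClA.pull (h : ClA l κ F) (π : ∀ n, Y n → X n) (z : ∀ n, Y n → G n)
    (hπ : ∀ᶠ n in l, MP (π n)) : ClA l κ fun n τ x => F n (π n τ) (x + z n τ) := by
  have := h.along π z (fun _ _ x => x) hπ (Eventually.of_forall fun _ _ => Function.bijective_id)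
  simpa [ClA, add_comm] using this

omit [Nonempty κ] in
/-- The mean square of a character along a translate. -/
theorem Chr.nrm_add {φ : ∀ n, G n → ℂ} (h : Chr l κ φ) :
    ∀ᶠ n in l, ∀ z, 𝔼 y, φ n (y + z) * conj (φ n (y + z)) = 1 :=
  h.nrm.mono fun n hn z => ((MP.add_right z).expect_c fun x => φ n x * conj (φ n x)).trans hn

omit [Nonempty κ] in
theorem nul0_iff {v : ∀ n, G n → ℂ} : Nul0 l κ v ↔ Null l κ fun n (_ : Unit) => v n := by
  simp [Nul0, Null]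

section ClK

variable {L L' : ∀ n, G n → G n → ℂ}

omit [Nonempty κ] in
theorem ClK.congr (h : ClK l κ L) (e : ∀ᶠ n in l, ∀ x y, L n x y = L' n x y) : ClK l κ L' :=
  ClA.congr h (e.mono fun _ hn _ _ => hn _ _)

omit [Nonempty κ] in
theorem ClK.conj (h : ClK l κ L) : ClK l κ fun n x y => conj (L n x y) := ClA.conj h

theorem ClK.smul (c : ℂ) (h : ClK l κ L) : ClK l κ fun n x y => c * L n x y := ClA.smul c h

theorem ClK.add (h : ClK l κ L) (h' : ClK l κ L') : ClK l κ fun n x y => L n x y + L' n x y :=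
  ClA.add h h'

theorem ClK.sub (h : ClK l κ L) (h' : ClK l κ L') : ClK l κ fun n x y => L n x y - L' n x y :=
  ClA.sub h h'

theorem ClK.sum {α : Type} (t : Finset α) {L : α → ∀ n, G n → G n → ℂ}
    (h : ∀ a ∈ t, ClK l κ (L a)) : ClK l κ fun n x y => ∑ a ∈ t, L a n x y := ClA.sum t h

theorem ClK.bd (h : ClK l κ L) : Bd2 l L :=
  ((ClA.bd h).comp (fun _ x y => y - x) fun _ x _ => x).congr
    (Eventually.of_forall fun _ _ _ => by simp)

theorem ClK.of_close (hb : Bd2 l L) (h : ∀ ε : ℝ, 0 < ε → ∃ L' : ∀ n, G n → G n → ℂ,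
    ClK l κ L' ∧ ∀ᶠ n in l, 𝔼 x, 𝔼 y, ‖L n x y - L' n x y‖ ^ 2 ≤ ε) : ClK l κ L := by
  refine ClA.of_close (hb.comp _ _) fun ε hε => ?_
  obtain ⟨L', h1, h2⟩ := h ε hε
  exact ⟨_, h1, h2.mono fun n hn =>
    (expect_diff fun x y => ‖L n x y - L' n x y‖ ^ 2).symm.trans_le hn⟩

theorem ClK.adj (h : ClK l κ L) : ClK l κ fun n x y => conj (L n y x) :=
  (ClA.pull h (fun _ t => -t) (fun _ t => t) (Eventually.of_forall fun _ => MP.neg)).conj.congr
    (Eventually.of_forall fun _ _ _ => by simp)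

theorem ClK.comp (h : ClK l κ L) (h' : ClK l κ L') :
    ClK l κ fun n x y => 𝔼 z, L n x z * L' n z y := by
  have h1 := ClA.pull h (fun n (p : G n × G n) => p.2) (fun _ _ => 0)
    (Eventually.of_forall fun _ => MP.snd)
  have h2 := ClA.pull h' (fun n (p : G n × G n) => p.1 - p.2) (fun _ p => p.2)
    (Eventually.of_forall fun _ => MP.of_left fun z => MP.sub_right z)
  refine (h1.mul h2).avg.congr (Eventually.of_forall fun n t x => ?_)
  beta_reduce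
  rw [← (MP.add_left x).expect_c fun z => L n x z * L' n z (x + t)]
  refine expect_congr rfl fun u _ => ?_
  simp only [add_zero]
  congr 2
  abel

end ClK

end ClA

end Pool.Agent.MP_4fffd4_nt.SX

end
end

section

/-!
Local uniformity of the Liouville function: definitions and statements of the steps.
-/

open Finset Filter
open scoped BigOperators ComplexConjugate Topology

noncomputable section

namespace Pool.Agent.MP_4fffd4_nt.AN

open Pool.Agent.MP_4fffd4_nt.SX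

/-- The Liouville function on a window of length n + 1 that starts at x. -/
def fw (x n : ℕ) (z : ZMod (n + 1)) : ℂ := (lam ((x : ℤ) + (z.val : ℤ)) : ℂ)

/-- The local box average of the Liouville function with coefficients c. -/
def LB {κ : Type} [Fintype κ] [DecidableEq κ] (c : κ → ℤ) (x : ℤ) (B : ℕ) : ℝ :=
  𝔼 v : κ → Fin B, 𝔼 v' : κ → Fin B,
    ∏ ω : κ → Bool, lam (x + ∑ i, c i * (((mix ω v v' i : Fin B) : ℕ) : ℤ))

section fin

variable {κ : Type} [Fintype κ] [DecidableEq κ]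

/-- The power of the box norm. -/
def bxa {S : Type} [Fintype S] (F : (κ → S) → ℂ) : ℝ :=
  (𝔼 s, 𝔼 s', ∏ ω, cj ω (F (mix ω s s'))).re

/-- A function along a form in integer variables. -/
def Ph {κ : Type} [Fintype κ] {G : Type} [AddCommGroup G] (φ : G → ℂ) (g : G) (c : κ → ℤ) {B : ℕ}
    (z : G) (v : κ → Fin B) : ℂ :=
  φ (z + ∑ i, (c i * ((v i : ℕ) : ℤ)) • g)

/-- The mean of the product over a cube. -/
def DD {G : Type} [AddCommGroup G] [Fintype G] (φ : G → ℂ) (g : G) (c : κ → ℤ) {B : ℕ}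
    (t : (κ → Fin B) × (κ → Fin B)) : ℂ :=
  𝔼 z, ∏ ω, cj ω (Ph φ g c z (mix ω t.1 t.2))

/-- The product of the Liouville function over a cube. -/
def LL (m : ℕ) {B : ℕ} (t : (κ → Fin B) × (κ → Fin B)) : ℝ :=
  ∏ ω : κ → Bool, lam ((m : ℤ) + ∑ i, (((mix ω t.1 t.2 i : Fin B) : ℕ) : ℤ))

end fin

/-- Pairs whose product lies in a window. -/
def Om (Pr : Finset ℕ) (x y : ℕ) : Finset (ℕ × ℕ) :=
  (Pr ×ˢ range (y + 1)).filter fun p => x ≤ p.1 * p.2 ∧ p.1 * p.2 < y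

/-- The primes in dyadic blocks. -/
def Prk (k₁ k₂ : ℕ) : Finset ℕ := (Ico k₁ k₂).biUnion fun k => prs ((2 : ℝ) ^ k)

/-- A set of primes in a short interval. -/
def Short (A y : ℕ) (S : Finset ℕ) : Prop :=
  ∀ a ∈ S, a.Prime ∧ A ≤ 3 * a ∧ y < a ∧ a ≤ y + A

/-- Maps that are almost measure preserving, uniformly in a parameter. -/
def AMP {ι : Type} (l : Filter ι) {V Y Z : ι → Type} [∀ n, Fintype (Y n)] [∀ n, Fintype (Z n)]
    (π : ∀ n, V n → Y n → Z n) : Prop :=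
  ∀ ε : ℝ, 0 < ε → ∀ᶠ n in l, ∀ (v : V n) (g : Z n → ℝ), (∀ z, |g z| ≤ 1) →
    |𝔼 y, g (π n v y) - 𝔼 z, g z| ≤ ε

/-- The parameters of the bilinear step. -/
structure Par (l : Filter ℕ) (x q k₁ k₂ B B' : ℕ → ℕ) : Prop where
  k1 : Tendsto k₁ l atTop
  lt : ∀ᶠ n in l, k₁ n < k₂ n
  big : Tendsto (fun n => ∑ p ∈ Prk (k₁ n) (k₂ n), (1 : ℝ) / p) l atTop
  sq : ∀ᶠ n in l, x n ^ 2 ≤ (q n + 1) ^ 2 * 2 ^ k₁ n
  qx : ∀ᶠ n in l, q n + 1 ≤ x n
  pq : Tendsto (fun n => (2 : ℝ) ^ k₂ n / Real.sqrt (q n + 1)) l (𝓝 0)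
  bq : Tendsto (fun n => (B n : ℝ) * 2 ^ k₂ n / (q n + 1)) l (𝓝 0)
  bb : Tendsto (fun n => (B' n : ℝ) / B n) l (𝓝 0)
  b1 : ∀ᶠ n in l, 1 ≤ B n ∧ 1 ≤ B' n

/-! Finite statements. -/

def TkwStmt : Prop :=
  ∀ (Pr : Finset ℕ) (x q D P t : ℕ) (g : ℕ → ℝ), (∀ p ∈ Pr, p.Prime ∧ p ≤ P) →
    1 ≤ ∑ p ∈ Pr, (1 : ℝ) / p → 1 ≤ q → P * t ≤ D → D ≤ q → (∀ m, |g m| ≤ 1) →
    |𝔼 p ∈ Om Pr x (x + q - D), g (p.1 * (p.2 + t)) - 𝔼 m ∈ Ico x (x + q), g m| ≤
      4 * ((D : ℝ) / q + 1 / Real.sqrt (∑ p ∈ Pr, (1 : ℝ) / p) + 4 * P / Real.sqrt q)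

def SelStmt : Prop :=
  ∀ δ C : ℝ, 0 < δ → 0 < C → ∃ (ε : ℝ) (k₀ : ℕ), 0 < ε ∧
    ∀ (k₁ k₂ x q D : ℕ) (Ψ : ℕ → ℕ → ℝ), k₀ ≤ k₁ → k₁ < k₂ → q ≤ x → 2 * D ≤ q → 8 * 2 ^ k₂ ≤ q →
      x ^ 2 ≤ q ^ 2 * 2 ^ k₁ → (∀ a m, |Ψ a m| ≤ C) →
      δ ≤ 𝔼 p ∈ Om (Prk k₁ k₂) x (x + q - D), Ψ p.1 p.2 →
      ∃ (m y A : ℕ) (R : Finset ℕ), 2 ^ k₁ ≤ A ^ 2 ∧ Short A y R ∧
        ε * A / Real.log A ≤ R.card ∧ δ / 2 ≤ 𝔼 a ∈ R, Ψ a m

def CsStmt : Prop :=
  ∀ (T : Type) [Fintype T] (R : Finset ℕ) (Λ : T → ℝ) (D : ℕ → T → ℂ) (δ C : ℝ), 0 < δ → 0 < C →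
    (∀ t, |Λ t| ≤ 1) → (∀ a t, ‖D a t‖ ≤ C) →
    δ ≤ 𝔼 a ∈ R, (𝔼 t, (Λ t : ℂ) * conj (D a t)).re →
    ∃ (b : ℕ) (S : Finset ℕ), S ⊆ R ∧ δ ^ 2 / (2 * C ^ 2) * R.card ≤ S.card ∧
      ∀ a ∈ S, δ ^ 2 / 2 ≤ (𝔼 t, D a t * conj (D b t)).re

def SieveWStmt : Prop :=
  ∀ s : ℕ, ∃ (C : ℝ) (A₀ : ℕ), 0 < C ∧ ∀ (A : ℕ) (y : ℤ) (θ : ℤ → ℝ), A₀ ≤ A →
    (∀ d, 0 ≤ θ d ∧ θ d ≤ 1) → (∀ d, θ d ≠ 0 → (y + d).toNat.Prime ∧ (A : ℤ) ≤ 3 * (y + d)) →
    𝔼 u : Fin s → Fin A, 𝔼 u' : Fin s → Fin A, rr θ A u u' ^ 2 ≤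
      C * (A : ℝ) ^ 2 / Real.log A ^ 2 ^ (s + 1)

def CubeStmt : Prop :=
  ∀ (d : ℕ) (ε : ℝ), 1 ≤ d → 0 < ε → ∃ (c : ℝ) (A₀ : ℕ), 0 < c ∧
    ∀ (A y : ℕ) (S : Finset ℕ), A₀ ≤ A → Short A y S → ε * A / Real.log A ≤ S.card →
      ∃ W : Finset (Fin d → ℤ), (∀ w ∈ W, ∀ i, |w i| ≤ A) ∧ c * (A : ℝ) ^ d ≤ W.card ∧
        ∀ w ∈ W, ∃ a₀ : ℤ, ∀ ω : Fin d → Bool, ∃ a ∈ S, (a : ℤ) = a₀ + dot ω w

def PolStmt : Prop :=
  ∀ (κ R : Type) (Γ : Type 1) [Fintype κ] [DecidableEq κ] [AddCommGroup R] [AddCommGroup Γ]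
    (m : MultilinearMap ℤ (fun _ : κ => R) Γ) (a : R) (w : κ → R),
    ∑ ω : κ → Bool, ((-1 : ℤ) ^ (univ.filter fun i => ω i = false).card) •
      m (fun _ => a + dot ω w) = ∑ σ : Equiv.Perm κ, m fun i => w (σ i)

def TreeStmt : Prop :=
  ∀ (ι : Type) (u : Ultrafilter ι) (d : ℕ) (Γ : Type 1) [AddCommGroup Γ]
    (M : MultilinearMap ℤ (fun _ : Fin d => ι → ℤ) Γ) (A : ι → ℕ) (W : ι → Finset (Fin d → ℤ))
    (c : ℝ), 0 < c → Tendsto A u atTop →
    (∀ e e' : Fin d → ι → ℤ, (∀ᶠ n in (u : Filter ι), ∀ i, e i n = e' i n) → M e = M e') →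
    (∀ᶠ n in (u : Filter ι), (∀ w ∈ W n, ∀ i, |w i| ≤ A n) ∧ c * (A n : ℝ) ^ d ≤ (W n).card) →
    (∀ w : ι → Fin d → ℤ, (∀ᶠ n in (u : Filter ι), w n ∈ W n) → M (fun i n => w n i) = 0) →
    ∃ k : Fin d → ℕ, (∀ i, 1 ≤ k i) ∧ M (fun i _ => (k i : ℤ)) = 0

/-! Families of groups. -/

section fam

variable {ι : Type} (l : Filter ι) (κ : Type) [Fintype κ] [DecidableEq κ]
  (G : ι → Type) [∀ n, AddCommGroup (G n)] [∀ n, Fintype (G n)]

def AffStmt : Prop :=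
  ∀ (X Y S : ι → Type) [∀ n, Fintype (X n)] [∀ n, Fintype (Y n)] [∀ n, Fintype (S n)]
    (F : ∀ n, X n → G n → ℂ) (π : ∀ n, Y n → X n) (z : ∀ n, Y n → G n)
    (σ : ∀ n, Y n → κ → S n → G n), ClA l κ F →
    AMP l (fun n (v : κ → S n) (τ : Y n) => (π n τ, z n τ + ∑ i, σ n τ i (v i))) →
    ClB l fun n τ (v : κ → S n) => F n (π n τ) (z n τ + ∑ i, σ n τ i (v i))

def BoxPairStmt : Prop :=
  ∀ (X S : ι → Type) [∀ n, Fintype (X n)] [∀ n, Fintype (S n)]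
    (F K : ∀ n, X n → (κ → S n) → ℂ), Bd2 l F → ClB l K →
    Tendsto (fun n => 𝔼 τ, bxa (F n τ)) l (𝓝 0) →
    Tendsto (fun n => 𝔼 τ, 𝔼 v, F n τ v * K n τ v) l (𝓝 0)

def PairLStmt : Prop :=
  ∀ (φ : ∀ n, G n → ℂ) (g : ∀ n, G n) (B : ι → ℕ) (c : ι → κ → ℤ) (Y : ι → Type)
    [∀ n, Fintype (Y n)] (y y' : ∀ n, Y n → G n), Chr l κ φ →
    (∀ᶠ n in l, MP fun τ => (y n τ, y' n τ)) →
    ClB l fun n τ (v : κ → Fin (B n)) =>
      Ph (φ n) (g n) (c n) (y n τ) v * conj (Ph (φ n) (g n) (c n) (y' n τ) v)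

def CritStmt : Prop :=
  ∀ (φ : ∀ n, G n → ℂ) (g : ∀ n, G n) (B B' : ι → ℕ) (c c' : ι → κ → ℤ), Chr l κ φ →
    Tendsto (fun n => (B' n : ℝ) / B n) l (𝓝 0) →
    (∃ δ : ℝ, 0 < δ ∧ ∀ᶠ n in l, δ ≤ (𝔼 t : (κ → Fin (B n)) × (κ → Fin (B n)),
      DD (φ n) (g n) (c n) t * conj (DD (φ n) (g n) (c' n) t)).re) →
    ClB l fun n (p : G n × G n) (v : κ → Fin (B' n)) =>
      Ph (φ n) (g n) (c n) p.1 v * conj (Ph (φ n) (g n) (c' n) p.2 v)

def AddLStmt : Prop :=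
  ∀ (φ : ∀ n, G n → ℂ) (g : ∀ n, G n) (B : ι → ℕ), Chr l κ φ →
    (∃ c₀ : ℝ, 0 < c₀ ∧ ∀ᶠ n in l, c₀ ≤ (UU (Option κ) (φ n)).re) →
    ∀ (c : ι → κ → ℤ) (i₀ : κ) (a b : ι → ℤ),
      ClB l fun n (y : G n × G n × G n) (v : κ → Fin (B n)) =>
        Ph (φ n) (g n) (Function.update (c n) i₀ (a n + b n)) y.1 v *
          conj (Ph (φ n) (g n) (Function.update (c n) i₀ (a n)) y.2.1 v) *
          conj (Ph (φ n) (g n) (Function.update (c n) i₀ (b n)) y.2.2 v)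

def SymStmt : Prop :=
  ∀ (φ : ∀ n, G n → ℂ) (g : ∀ n, G n) (B : ι → ℕ), Chr l κ φ →
    (∃ c₀ : ℝ, 0 < c₀ ∧ ∀ᶠ n in l, c₀ ≤ (UU (Option κ) (φ n)).re) →
    ∃ (Γ : Type 1) (_ : AddCommGroup Γ) (m : MultilinearMap ℤ (fun _ : κ => ι → ℤ) Γ),
      (∀ e e' : κ → ι → ℤ, (ClB l fun n (p : G n × G n) (v : κ → Fin (B n)) =>
        Ph (φ n) (g n) (fun i => e i n) p.1 v * conj (Ph (φ n) (g n) (fun i => e' i n) p.2 v)) →
        m e = m e') ∧
      ∀ e : κ → ι → ℤ, m e = 0 →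
        ClB l fun n (z : G n) (v : κ → Fin (B n)) => Ph (φ n) (g n) (fun i => e i n) z v

end fam

def AllAff : Prop :=
  ∀ (l : Filter ℕ) (d : ℕ) (q : ℕ → ℕ), 1 ≤ d → AffStmt l (Fin d) fun n => ZMod (q n + 1)

def AllBox : Prop := ∀ (l : Filter ℕ) (d : ℕ), 1 ≤ d → BoxPairStmt l (Fin d)

def AllPair : Prop :=
  ∀ (l : Filter ℕ) (d : ℕ) (q : ℕ → ℕ), 1 ≤ d → PairLStmt l (Fin d) fun n => ZMod (q n + 1)

def AllCrit : Prop :=
  ∀ (l : Filter ℕ) (d : ℕ) (q : ℕ → ℕ), 1 ≤ d → CritStmt l (Fin d) fun n => ZMod (q n + 1)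

def AllSym : Prop :=
  ∀ (l : Filter ℕ) (d : ℕ) (q : ℕ → ℕ), 1 ≤ d → SymStmt l (Fin d) fun n => ZMod (q n + 1)

/-- Characters of higher order exist. -/
def ChrStmt : Prop :=
  ∀ (u : Ultrafilter ℕ) (d : ℕ) (q : ℕ → ℕ) (f : ∀ n, ZMod (q n + 1) → ℂ), 1 ≤ d →
    (∀ n z, ‖f n z‖ ≤ 1) → ¬ Nul0 u (Fin (d + 1)) f → ∃ φ : ∀ n, ZMod (q n + 1) → ℂ,
      Chr u (Fin d) φ ∧ Cor u f φ ∧
        ∃ c₀ : ℝ, 0 < c₀ ∧ ∀ᶠ n in (u : Filter ℕ), c₀ ≤ (UU (Option (Fin d)) (φ n)).re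

/-! The bilinear step. -/

def BilAStmt : Prop :=
  ∀ (u : Ultrafilter ℕ) (d : ℕ) (x q k₁ k₂ B B' : ℕ → ℕ) (φ : ∀ n, ZMod (q n + 1) → ℂ), 1 ≤ d →
    Par u x q k₁ k₂ B B' → Chr u (Fin d) φ → Cor u (fun n => fw (x n) (q n)) φ →
    ∃ δ : ℝ, 0 < δ ∧ ∀ᶠ n in (u : Filter ℕ),
      δ ≤ 𝔼 p ∈ Om (Prk (k₁ n) (k₂ n)) (x n) (x n + (q n + 1) - 2 ^ k₂ n * (d * B n)),
        (𝔼 t : (Fin d → Fin (B n)) × (Fin d → Fin (B n)),
          (LL p.2 t : ℂ) * conj (DD (φ n) 1 (fun _ => (p.1 : ℤ)) t)).re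

def BilBStmt : Prop :=
  ∀ (u : Ultrafilter ℕ) (d : ℕ) (x q k₁ k₂ B B' : ℕ → ℕ) (φ : ∀ n, ZMod (q n + 1) → ℂ), 1 ≤ d →
    Par u x q k₁ k₂ B B' → Chr u (Fin d) φ → Cor u (fun n => fw (x n) (q n)) φ →
    ∃ ε δ : ℝ, 0 < ε ∧ 0 < δ ∧ ∀ᶠ n in (u : Filter ℕ), ∃ (A y b : ℕ) (S : Finset ℕ),
      2 ^ k₁ n ≤ A ^ 2 ∧ Short A y S ∧ ε * A / Real.log A ≤ S.card ∧
      ∀ a ∈ S, δ ≤ (𝔼 t : (Fin d → Fin (B n)) × (Fin d → Fin (B n)),
        DD (φ n) 1 (fun _ => (a : ℤ)) t * conj (DD (φ n) 1 (fun _ => (b : ℤ)) t)).re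

def BilCStmt : Prop :=
  ∀ (u : Ultrafilter ℕ) (d : ℕ) (x q k₁ k₂ B B' : ℕ → ℕ) (φ : ∀ n, ZMod (q n + 1) → ℂ), 1 ≤ d →
    Par u x q k₁ k₂ B B' → Chr u (Fin d) φ →
    (∃ c₀ : ℝ, 0 < c₀ ∧ ∀ᶠ n in (u : Filter ℕ), c₀ ≤ (UU (Option (Fin d)) (φ n)).re) →
    Cor u (fun n => fw (x n) (q n)) φ → ∃ c : Fin d → ℤ, (∀ i, 1 ≤ c i) ∧
      ClB u fun n (z : ZMod (q n + 1)) (v : Fin d → Fin (B' n)) => Ph (φ n) 1 c z v

def EndStmt : Prop :=
  ∀ (l : Filter ℕ) (d : ℕ) (x q B' : ℕ → ℕ) (φ : ∀ n, ZMod (q n + 1) → ℂ) (c : Fin d → ℤ), 1 ≤ d →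
    (∀ i, 1 ≤ c i) → Tendsto (fun n => (B' n : ℝ) / (q n + 1)) l (𝓝 0) → (∀ᶠ n in l, 1 ≤ B' n) →
    (∀ ε : ℝ, 0 < ε → ∀ᶠ n in l, ∀ y : ℕ, x n ≤ y → y ≤ x n + q n → LB c y (B' n) ≤ ε) →
    (ClB l fun n (z : ZMod (q n + 1)) (v : Fin d → Fin (B' n)) => Ph (φ n) 1 c z v) →
    Tendsto (fun n => 𝔼 z, fw (x n) (q n) z * conj (φ n z)) l (𝓝 0)

end Pool.Agent.MP_4fffd4_nt.AN

end
end

section

open Finset Filter
open scoped BigOperators ComplexConjugate Topology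

noncomputable section

namespace Pool.Agent.MP_4fffd4_nt.SX

theorem eqv_Unif (hE : GiEqvStmt) {κ κ' G : Type} [Fintype κ] [DecidableEq κ] [Fintype κ']
    [DecidableEq κ'] [AddCommGroup G] [Fintype G] (e : κ ≃ κ') (v : G → ℂ) :
    UU κ v = UU κ' v := hE κ κ' G e fun _ => v

theorem nonneg_Unif (hG : GvnStmt) (κ : Type) {G : Type} [Fintype κ] [DecidableEq κ] [Nonempty κ]
    [AddCommGroup G] [Fintype G] (v : G → ℂ) : 0 ≤ (UU κ v).re := by
  have hB : (fun s : κ → G => ∏ _i : κ, (1 : ℂ)) ∈ BB κ G :=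
    subset_convexHull ℝ _ ⟨fun _ _ => 1, fun _ _ => by simp, fun _ _ _ => rfl, rfl⟩
  exact le_trans (by positivity) (hG κ G v _ 0 (fun _ x => x) hB fun _ => Function.bijective_id)

end Pool.Agent.MP_4fffd4_nt.SX

end
end

section

open Finset Filter
open scoped BigOperators ComplexConjugate Topology

noncomputable section

namespace Pool.Agent.MP_4fffd4_nt.SX

section fin

variable {X : Type} [Fintype X] [DecidableEq X] {w : X → X → ℂ}

/-- Diagonal kernels. -/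
def kr_Spec (w : X → X → ℂ) (c : X → ℂ) (x y : X) : ℂ := ∑ j, c j * (w j x * conj (w j y))

theorem comp_Spec (h : ∀ i j, 𝔼 x, w i x * conj (w j x) = if i = j then 1 else 0) (a b : X → ℂ)
    (x y : X) : 𝔼 z, kr_Spec w a x z * kr_Spec w b z y = kr_Spec w (fun j => a j * b j) x y := by
  have e : ∀ z, kr_Spec w a x z * kr_Spec w b z y =
      ∑ i, ∑ j, (a i * w i x * b j * conj (w j y)) * (w j z * conj (w i z)) := fun z => by
    unfold kr_Spec
    rw [sum_mul_sum]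
    exact sum_congr rfl fun i _ => sum_congr rfl fun j _ => by ring
  simp only [e, expect_sum_comm, ← mul_expect, h, mul_ite, mul_one, mul_zero, sum_ite_eq',
    mem_univ, if_true]
  exact sum_congr rfl fun i _ => by ring

theorem hs_Spec (h : ∀ i j, 𝔼 x, w i x * conj (w j x) = if i = j then 1 else 0) (c : X → ℂ) :
    𝔼 x, 𝔼 y, ‖kr_Spec w c x y‖ ^ 2 = ∑ j, ‖c j‖ ^ 2 := by
  have e : ∀ x y, ‖kr_Spec w c x y‖ ^ 2 =
      (kr_Spec w c x y * kr_Spec w (fun j => conj (c j)) y x).re := fun x y => by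
    have : kr_Spec w (fun j => conj (c j)) y x = conj (kr_Spec w c x y) := by
      unfold kr_Spec
      rw [map_sum]
      exact sum_congr rfl fun j _ => by simp [mul_comm]
    rw [this, Complex.mul_conj']
    norm_cast
  simp only [e, ← re_expect', comp_Spec h]
  unfold kr_Spec
  simp only [expect_sum_comm, ← mul_expect, h, if_true, mul_one, Complex.re_sum]
  exact sum_congr rfl fun j _ => by rw [Complex.mul_conj']; norm_cast

omit [DecidableEq X] in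
theorem form_Spec (f : X → ℂ) (c : X → ℝ) :
    (𝔼 x, 𝔼 y, conj (f x) * kr_Spec w (fun j => c j) x y * f y).re =
      ∑ j, c j * ‖𝔼 x, f x * conj (w j x)‖ ^ 2 := by
  have e : ∀ x y, conj (f x) * kr_Spec w (fun j => c j) x y * f y =
      ∑ j, (c j : ℂ) * (conj (f x * conj (w j x)) * (f y * conj (w j y))) := fun x y => by
    unfold kr_Spec
    rw [mul_sum, sum_mul]
    refine sum_congr rfl fun j _ => ?_
    simp only [map_mul, Complex.conj_conj]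
    ring
  simp only [e, expect_sum_comm, ← mul_expect, ← expect_mul, expect_conj, Complex.conj_mul',
    Complex.re_sum]
  exact sum_congr rfl fun j _ => by norm_cast

omit [DecidableEq X] in
theorem gap_Spec {μ : X → ℝ} (h0 : ∀ j, 0 ≤ μ j) (h1 : ∑ j, μ j ≤ 1) {a γ : ℝ} {R : ℕ}
    (hγ : 0 < γ) (hR : 1 < R * a) :
    ∃ k, k < R ∧ ∀ j, μ j < a + k * γ ∨ a + k * γ + γ ≤ μ j := by
  classical
  by_contra hc
  push Not at hc
  choose j hj using fun k : Fin R => hc k k.2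
  have hi : Function.Injective j := fun k k' e => by
    have a1 := hj k
    have a2 := hj k'
    rw [e] at a1
    have b1 : (k : ℝ) < k' + 1 := lt_of_mul_lt_mul_right (by linarith [a1.1, a2.2]) hγ.le
    have b2 : (k' : ℝ) < k + 1 := lt_of_mul_lt_mul_right (by linarith [a1.2, a2.1]) hγ.le
    have c1 : (k : ℕ) < k' + 1 := by exact_mod_cast b1
    have c2 : (k' : ℕ) < k + 1 := by exact_mod_cast b2
    exact Fin.ext (by omega)
  have s1 : ∑ k, μ (j k) ≤ ∑ i, μ i := by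
    rw [← sum_image (f := μ) hi.injOn]
    exact sum_le_sum_of_subset_of_nonneg (subset_univ _) fun i _ _ => h0 i
  have s2 : (R : ℝ) * a ≤ ∑ k, μ (j k) := by
    have := card_nsmul_le_sum univ (fun k => μ (j k)) a fun k _ =>
      le_trans (le_add_of_nonneg_right (by positivity)) (hj k).1
    simpa using this
  linarith

end fin

variable {ι : Type} (u : Ultrafilter ι) (κ : Type) [Fintype κ] [DecidableEq κ] [Nonempty κ]
  (G : ι → Type) [∀ n, AddCommGroup (G n)] [∀ n, Fintype (G n)]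

theorem spec_stmt (hS : SpecFinStmt) : SpecStmt u κ G := by
  classical
  intro K f δ hδ hK k1 k2 k3 hf hδK
  choose μ w m0 m1 on hk bd be using fun n => hS (G n) (K n) (k1 n) (k2 n) (k3 n)
  have m2 : ∀ n j, μ n j ≤ 1 := fun n j =>
    (single_le_sum (fun i _ => m0 n i) (mem_univ j)).trans (m1 n)
  obtain ⟨R, hR⟩ := exists_nat_gt (4 / δ)
  have R0 : (0 : ℝ) < R := lt_trans (by positivity) hR
  have R1 : 1 < R * (δ / 4) := by
    rw [div_lt_iff₀ hδ] at hR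
    linarith
  set γ : ℝ := δ / 4 / R with hγ
  have γ0 : 0 < γ := by positivity
  choose k hk1 hk2 using fun n => gap_Spec (m0 n) (m1 n) γ0 R1
  obtain ⟨k₀, -, ek⟩ := ultra_const u k R (Eventually.of_forall fun n => (hk1 n).le)
  have k0R : k₀ < R := by
    obtain ⟨n, hn⟩ := ek.exists
    exact hn ▸ hk1 n
  set a : ℝ := δ / 4 + k₀ * γ with ha
  have a0 : δ / 4 ≤ a := le_add_of_nonneg_right (by positivity)
  have a1 : a + γ ≤ δ / 2 := by
    have h1 : (k₀ : ℝ) + 1 ≤ R := by exact_mod_cast k0R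
    have h2 : R * γ = δ / 4 := by rw [hγ]; field_simp
    nlinarith
  set J : ∀ n, Finset (G n) := fun n => univ.filter fun j => a + γ ≤ μ n j with hJ
  have mJ : ∀ n j, j ∈ J n ↔ a + γ ≤ μ n j := fun n j => by simp [hJ]
  obtain ⟨r, -, er⟩ := ultra_const u (fun n => (J n).card) R (Eventually.of_forall fun n => by
    have h1 := card_nsmul_le_sum (J n) (μ n) (δ / 4) fun j hj => by linarith [(mJ n j).1 hj]
    have h2 := sum_le_sum_of_subset_of_nonneg (subset_univ (J n)) fun i _ _ => m0 n i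
    rw [nsmul_eq_mul] at h1
    have h3 : ((J n).card : ℝ) ≤ R :=
      le_of_mul_le_mul_right (by linarith [m1 n]) (show 0 < δ / 4 by positivity)
    exact_mod_cast h3)
  let e : Fin r → ∀ n, G n → ℂ := fun i n =>
    if h : (J n).card = r then w n ((equivFinOfCardEq h).symm i) else 0
  have he : ∀ n (h : (J n).card = r) i, e i n = w n ((equivFinOfCardEq h).symm i) :=
    fun n h i => dif_pos h
  have sm : ∀ {M : Type} [AddCommMonoid M] n (h : (J n).card = r) (F : (G n → ℂ) → M),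
      ∑ i, F (e i n) = ∑ j ∈ J n, F (w n j) := fun n h F => by
    simp only [he n h]
    rw [(equivFinOfCardEq h).symm.sum_comp fun j => F (w n j), sum_coe_sort _ fun j => F (w n j)]
  have eb : ∀ i, Bd1 u (e i) := fun i => ⟨4 / δ, er.mono fun n h x => by
    rw [he n h, le_div_iff₀ hδ]
    have h1 := (mJ n _).1 ((equivFinOfCardEq h).symm i).2
    have h2 := bd n ((equivFinOfCardEq h).symm i) x
    nlinarith [norm_nonneg (w n ((equivFinOfCardEq h).symm i) x)]⟩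
  have pc : ∀ q : Polynomial ℝ,
      ClK u κ fun n => kr_Spec (w n) fun j => ((μ n j * q.eval (μ n j) : ℝ) : ℂ) := fun q => by
    induction q using Polynomial.induction_on with
    | C c =>
      refine (hK.smul c).congr (Eventually.of_forall fun n x y => ?_)
      rw [hk n, mul_sum]
      exact sum_congr rfl fun j _ => by simp; ring
    | add p q hp hq =>
      refine (hp.add hq).congr (Eventually.of_forall fun n x y => ?_)
      unfold kr_Spec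
      rw [← sum_add_distrib]
      exact sum_congr rfl fun j _ => by simp; ring
    | monomial m c hp =>
      refine (hK.comp hp).congr (Eventually.of_forall fun n x y => ?_)
      simp only [hk n]
      refine (comp_Spec (on n) (fun j => μ n j) _ x y).trans ?_
      refine sum_congr rfl fun j _ => ?_
      simp only [Polynomial.eval_mul, Polynomial.eval_C, Polynomial.eval_pow, Polynomial.eval_X]
      push_cast
      ring
  refine ⟨r, e, ⟨eb, er.mono fun n h i j => ?_, ClK.of_close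
    (Bd2.sum _ fun i _ => ((eb i).comp2 fun _ x _ => x).mul ((eb i).comp2 fun _ _ y => y).conj)
    fun ε hε => ?_⟩, ?_⟩
  · rw [he n h, he n h, on n]
    simp only [Subtype.val_inj, EmbeddingLike.apply_eq_iff_eq]
  · have gc : Continuous fun t : ℝ => max 0 (min 1 ((t - a) / γ)) / max t a :=
      Continuous.div (by fun_prop) (by fun_prop) fun t =>
        (lt_of_lt_of_le (by linarith) (le_max_right t a)).ne'
    obtain ⟨q, hq⟩ := exists_polynomial_near_of_continuousOn 0 1 _ gc.continuousOn _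
      (Real.sqrt_pos.2 hε)
    refine ⟨_, pc q, (er.and ek).mono fun n ⟨h, h'⟩ => ?_⟩
    have e1 : ∀ x y, ∑ i, e i n x * conj (e i n y) -
        kr_Spec (w n) (fun j => ((μ n j * q.eval (μ n j) : ℝ) : ℂ)) x y =
        kr_Spec (w n) (fun j => (((if a + γ ≤ μ n j then 1 else 0) -
          μ n j * q.eval (μ n j) : ℝ) : ℂ)) x y := fun x y => by
      rw [sm n h fun v => v x * conj (v y), hJ, sum_filter]
      unfold kr_Spec
      rw [← sum_sub_distrib]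
      refine sum_congr rfl fun j _ => ?_
      beta_reduce
      split_ifs <;> push_cast <;> ring
    simp only [e1]
    rw [hs_Spec (on n)]
    calc _ ≤ ∑ j, μ n j * ε := sum_le_sum fun j _ => ?_
      _ ≤ ε := by
        rw [← sum_mul]
        exact mul_le_of_le_one_left hε.le (m1 n)
    have g1 : (if a + γ ≤ μ n j then 1 else 0) =
        μ n j * (max 0 (min 1 ((μ n j - a) / γ)) / max (μ n j) a) := by
      split_ifs with hj
      · rw [min_eq_left ((one_le_div γ0).2 (by linarith)), max_eq_right zero_le_one,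
          max_eq_left (by linarith), mul_one_div_cancel (by linarith : 0 < μ n j).ne']
      · have := (hk2 n j).resolve_right (by rw [h']; exact hj)
        rw [h'] at this
        rw [max_eq_left ((min_le_right _ _).trans
          (div_nonpos_of_nonpos_of_nonneg (by linarith) γ0.le)), zero_div, mul_zero]
    have g2 := hq _ ⟨m0 n j, m2 n j⟩
    rw [g1, ← mul_sub, Complex.norm_real, Real.norm_eq_abs, abs_mul, abs_of_nonneg (m0 n j),
      abs_sub_comm, mul_pow]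
    have g3 := (pow_le_pow_left₀ (abs_nonneg _) g2.le 2).trans_eq (Real.sq_sqrt hε.le)
    exact mul_le_mul (by nlinarith [m0 n j, m2 n j]) g3 (sq_nonneg _) (m0 n j)
  · filter_upwards [er, hδK] with n h h1
    rw [sm n h fun v => ‖𝔼 x, f n x * conj (v x)‖ ^ 2, hJ, sum_filter]
    simp only [hk n] at h1
    have h2 := h1.trans_eq (form_Spec (w := w n) (f n) (μ n))
    have h3 : ∑ j, ‖𝔼 x, f n x * conj (w n j x)‖ ^ 2 ≤ 1 :=
      (be n (f n)).trans (expect_le univ_nonempty fun x _ =>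
        pow_le_one₀ (norm_nonneg _) (hf n x))
    have h4 : ∑ j, μ n j * ‖𝔼 x, f n x * conj (w n j x)‖ ^ 2 ≤
        ∑ j, ((if a + γ ≤ μ n j then ‖𝔼 x, f n x * conj (w n j x)‖ ^ 2 else 0) +
          δ / 2 * ‖𝔼 x, f n x * conj (w n j x)‖ ^ 2) := sum_le_sum fun j _ => by
      have := sq_nonneg ‖𝔼 x, f n x * conj (w n j x)‖
      split_ifs with hj
      · nlinarith [m2 n j]
      · nlinarith [not_le.1 hj]
    rw [sum_add_distrib, ← mul_sum] at h4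
    nlinarith

end Pool.Agent.MP_4fffd4_nt.SX

end
end

section

open Finset Filter
open scoped BigOperators ComplexConjugate Topology

noncomputable section

namespace Pool.Agent.MP_4fffd4_nt.AN

open Pool.Agent.MP_4fffd4_nt.SX

theorem prod_GL {κ G α : Type} [Fintype κ] [DecidableEq κ] [Nonempty κ] (A : Finset α)
    (F : α → (κ → G) → ℂ) (h : ∀ a ∈ A, F a ∈ Gen κ G) :
    (fun s => ∏ a ∈ A, F a s) ∈ Gen κ G := by
  classical
  induction A using Finset.induction_on with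
  | empty => exact Gen.of_indep (Classical.arbitrary κ) (fun _ => by simp) fun _ _ => by simp
  | insert a A ha ih =>
    simp only [prod_insert ha]
    exact Gen.mul (h a (mem_insert_self _ _)) (ih fun b hb => h b (mem_insert_of_mem hb))

theorem core_GL (hG : GvnStmt) {κ G S : Type} [Fintype κ] [DecidableEq κ] [AddCommGroup G]
    [Fintype G] [Fintype S] (hκ : 2 ≤ Fintype.card κ) (j : κ → S → G)
    (hj : ∀ i, Function.Injective (j i)) (f : G → ℂ) (hf : ∀ z, ‖f z‖ ≤ 1) {r : ℝ} (hr : 0 ≤ r)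
    (hU : (UU κ f).re ≤ r ^ 2 ^ Fintype.card κ) (v' : κ → S) :
    ‖∑ v : κ → S, ∏ ω : κ → Bool, f (∑ i, j i (mix ω v v' i))‖ ≤
      (Fintype.card G : ℝ) ^ Fintype.card κ * r := by
  classical
  have : Nontrivial κ := Fintype.one_lt_card_iff_nontrivial.1 (by omega)
  have hB : (fun s : κ → G => (∏ i, if s i ∈ Set.range (j i) then (1 : ℂ) else 0) *
      ∏ ω ∈ univ.erase fun _ : κ => false, f (∑ i, mix ω s (fun i => j i (v' i)) i)) ∈ BB κ G := by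
    refine Gen.mem_BB (Gen.mul (prod_GL _ _ fun i _ => ?_) (prod_GL _ _ fun ω hω => ?_))
    · obtain ⟨k, hk⟩ := exists_ne i
      refine Gen.of_indep k (fun s => ?_) fun s t => ?_
      · split_ifs <;> simp
      · rw [Function.update_of_ne hk.symm]
    · obtain ⟨k, hk⟩ := Function.ne_iff.1 (ne_of_mem_erase hω)
      refine Gen.of_indep k (fun s => hf _) fun s t => ?_
      rw [mix_update (by simpa using hk)]
  have h2 := hG κ G f _ 0 (fun _ x => x) hB fun _ => Function.bijective_id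
  simp only [zero_add] at h2
  have h3 := le_of_pow_le_pow_left₀ (by positivity) hr (h2.trans hU)
  have hc : (0 : ℝ) < (Fintype.card G : ℝ) ^ Fintype.card κ := by
    have : 0 < Fintype.card G := Fintype.card_pos
    positivity
  rw [Fintype.expect_eq_sum_div_card, norm_div, Complex.norm_natCast, Fintype.card_fun,
    Nat.cast_pow, div_le_iff₀' hc] at h3
  refine le_of_eq_of_le (congrArg _ ?_) h3
  refine Fintype.sum_of_injective (fun (v : κ → S) i => j i (v i))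
    (fun v w h => funext fun i => hj i (congrFun h i)) _ _ (fun s hs => ?_) fun v => ?_
  · have : ∃ i, s i ∉ Set.range (j i) := by
      by_contra hc
      have hc' : ∀ i, ∃ v, j i v = s i := fun i => not_not.1 fun h => hc ⟨i, h⟩
      choose v hv using hc'
      exact hs ⟨v, funext hv⟩
    obtain ⟨i, hi⟩ := this
    rw [prod_eq_zero (mem_univ i) (if_neg hi), zero_mul, mul_zero]
  · rw [prod_eq_one fun i _ => if_pos ⟨v i, rfl⟩, one_mul,
      ← mul_prod_erase univ _ (mem_univ fun _ : κ => false)]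
    congr 1
    refine prod_congr rfl fun ω _ => congrArg f (sum_congr rfl fun i _ => ?_)
    unfold mix
    split_ifs <;> rfl

theorem fin_GL (hG : GvnStmt) {d : ℕ} (hd : 2 ≤ d) (c : Fin d → ℤ) (hc : ∀ i, c i ≠ 0)
    (y B s : ℕ) (hB : 1 ≤ B) (hs : (s : ℤ) = ∑ i, |c i|) {r : ℝ} (hr : 0 ≤ r)
    (hU : (UU (Fin d) (fw y (2 * s * B))).re ≤ r ^ 2 ^ d) :
    LB c ((y : ℤ) + s * B) B ≤ (2 * s + 1) ^ d * r := by
  have hb : ∀ (i : Fin d) (v : Fin B), 0 ≤ c i * (v : ℕ) + |c i| * B ∧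
      c i * (v : ℕ) + |c i| * B ≤ 2 * |c i| * B := fun i v => by
    have h1 : ((v : ℕ) : ℤ) ≤ B := by exact_mod_cast v.2.le
    have h2 : (0 : ℤ) ≤ (v : ℕ) := by positivity
    have h3 := abs_nonneg (c i)
    have h4 := le_abs_self (c i)
    have h5 := neg_abs_le (c i)
    constructor <;> nlinarith
  have hval : ∀ z : ℤ, 0 ≤ z → z ≤ 2 * s * B → (((z : ZMod (2 * s * B + 1)).val : ℕ) : ℤ) = z :=
    fun z h0 h1 => by
      rw [ZMod.val_intCast]
      exact Int.emod_eq_of_lt h0 (by push_cast; omega)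
  have hcs : ∀ i, |c i| ≤ s := fun i => by
    rw [hs]
    exact single_le_sum (f := fun i => |c i|) (fun _ _ => abs_nonneg _) (mem_univ i)
  have hB' : (0 : ℤ) ≤ B := by positivity
  have key := core_GL hG (κ := Fin d) (G := ZMod (2 * s * B + 1)) (S := Fin B) (by simpa using hd)
    (fun i v => ((c i * (v : ℕ) + |c i| * B : ℤ) : ZMod (2 * s * B + 1))) (fun i v w h => by
      have h1 := hval _ (hb i v).1 ((hb i v).2.trans (by have := hcs i; nlinarith))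
      have h2 := hval _ (hb i w).1 ((hb i w).2.trans (by have := hcs i; nlinarith))
      simp only at h
      rw [h, h2] at h1
      have h3 := mul_left_cancel₀ (hc i) (add_right_cancel h1)
      exact Fin.ext (by exact_mod_cast h3.symm))
    (fw y (2 * s * B)) (fun z => (norm_lam _).le) hr (by simpa using hU)
  have hf : ∀ v : Fin d → Fin B, fw y (2 * s * B)
      (∑ i, ((c i * (v i : ℕ) + |c i| * B : ℤ) : ZMod (2 * s * B + 1))) =
      (lam ((y : ℤ) + s * B + ∑ i, c i * (v i : ℕ)) : ℂ) := fun v => by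
    rw [← Int.cast_sum, fw, hval _ (sum_nonneg fun i _ => (hb i (v i)).1)
      ((sum_le_sum fun i _ => (hb i (v i)).2).trans (by rw [← sum_mul, ← mul_sum, hs])),
      sum_add_distrib, ← sum_mul, ← hs]
    congr 2
    ring
  simp only [hf] at key
  have : Nonempty (Fin B) := ⟨⟨0, hB⟩⟩
  have hBR : (1 : ℝ) ≤ B := by exact_mod_cast hB
  rw [LB, expect_comm]
  refine expect_le univ_nonempty fun v' _ => ?_
  have h1 := key v'
  simp only [← Complex.ofReal_prod, ← Complex.ofReal_sum, Complex.norm_real, Real.norm_eq_abs,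
    ZMod.card, Fintype.card_fin] at h1
  rw [Fintype.expect_eq_sum_div_card, Fintype.card_fun, Fintype.card_fin, Fintype.card_fin,
    Nat.cast_pow, div_le_iff₀ (by positivity)]
  refine ((le_abs_self _).trans h1).trans ?_
  rw [mul_right_comm _ r, ← mul_pow]
  refine mul_le_mul_of_nonneg_right (pow_le_pow_left₀ (by positivity) ?_ _) hr
  push_cast
  nlinarith

end Pool.Agent.MP_4fffd4_nt.AN

end
end

section

/-!
The inductive step for local uniformity, from the pieces.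
-/

open Finset Filter
open scoped BigOperators ComplexConjugate Topology

noncomputable section

namespace Pool.Agent.MP_4fffd4_nt.AN

open Pool.Agent.MP_4fffd4_nt.SX

theorem norm_fw (x n : ℕ) (z : ZMod (n + 1)) : ‖fw x n z‖ = 1 := norm_lam _

end Pool.Agent.MP_4fffd4_nt.AN

end
end

section

/-!
The Turan-Kubilius inequality in a window.
-/

open Finset Filter
open scoped BigOperators ComplexConjugate Topology

noncomputable section

namespace Pool.Agent.MP_4fffd4_nt.AN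

open Pool.Agent.MP_4fffd4_nt.SX

theorem cnt_Tkw (d x r : ℕ) (hd : 0 < d) :
    |(((Ico x (x + r)).filter fun m => d ∣ m).card : ℝ) - r * (1 / d)| ≤ 1 := by
  have h := Nat.Ico_filter_modEq_card x (x + r) hd 0
  simp only [Nat.modEq_zero_iff_dvd, Nat.cast_zero, sub_zero] at h
  have hd' : (0 : ℚ) < d := by exact_mod_cast hd
  have h1 : ⌈(x : ℚ) / d⌉ ≤ ⌈((x + r : ℕ) : ℚ) / d⌉ := by
    refine Int.ceil_le_ceil (div_le_div_of_nonneg_right ?_ hd'.le)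
    exact_mod_cast Nat.le_add_right x r
  rw [max_eq_left (by omega)] at h
  have h2 : (((Ico x (x + r)).filter fun m => d ∣ m).card : ℚ) =
      (⌈((x + r : ℕ) : ℚ) / d⌉ : ℚ) - (⌈(x : ℚ) / d⌉ : ℚ) := by exact_mod_cast h
  have h3 := Int.le_ceil ((x : ℚ) / d)
  have h4 := Int.ceil_lt_add_one ((x : ℚ) / d)
  have h5 := Int.le_ceil (((x + r : ℕ) : ℚ) / d)
  have h6 := Int.ceil_lt_add_one (((x + r : ℕ) : ℚ) / d)
  have h7 : ((x + r : ℕ) : ℚ) / d = (x : ℚ) / d + r * (1 / d) := by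
    push_cast
    ring
  have h8 : |(((Ico x (x + r)).filter fun m => d ∣ m).card : ℚ) - r * (1 / d)| ≤ 1 := by
    rw [h2, abs_le]
    constructor <;> linarith
  have h9 := (Rat.cast_le (K := ℝ)).2 h8
  push_cast at h9
  exact h9

theorem ind_Tkw (d x r : ℕ) (hd : 0 < d) :
    |∑ m ∈ Ico x (x + r), (if d ∣ m then (1 : ℝ) else 0) - r * (1 / d)| ≤ 1 := by
  rw [Finset.sum_boole]
  exact cnt_Tkw d x r hd

theorem tk_Tkw (Pr : Finset ℕ) (x N : ℕ) (hP : ∀ p ∈ Pr, p.Prime) :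
    ∑ n ∈ Ico x (x + N), (∑ p ∈ Pr, (if p ∣ n then (1 : ℝ) else 0) - ∑ p ∈ Pr, (1 : ℝ) / p) ^ 2 ≤
      N * ∑ p ∈ Pr, (1 : ℝ) / p + (Pr.card : ℝ) ^ 2 + 2 * Pr.card * ∑ p ∈ Pr, (1 : ℝ) / p := by
  set L : ℝ := ∑ p ∈ Pr, (1 : ℝ) / p with hL
  have hL0 : 0 ≤ L := Finset.sum_nonneg fun p _ => by positivity
  have h1 : (N : ℝ) * L - Pr.card ≤
      ∑ n ∈ Ico x (x + N), ∑ p ∈ Pr, (if p ∣ n then (1 : ℝ) else 0) := by
    rw [Finset.sum_comm, hL, Finset.mul_sum, Finset.card_eq_sum_ones, Nat.cast_sum,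
      ← Finset.sum_sub_distrib]
    refine Finset.sum_le_sum fun p hp => ?_
    have := (abs_le.1 (ind_Tkw p x N (hP p hp).pos)).1
    push_cast
    linarith
  have h2 : ∑ n ∈ Ico x (x + N), (∑ p ∈ Pr, (if p ∣ n then (1 : ℝ) else 0)) ^ 2 ≤
      N * L + N * L ^ 2 + (Pr.card : ℝ) ^ 2 := by
    simp_rw [sq, Finset.sum_mul_sum]
    rw [Finset.sum_comm]
    have key : ∀ p ∈ Pr, ∑ n ∈ Ico x (x + N), ∑ q ∈ Pr,
        (if p ∣ n then (1 : ℝ) else 0) * (if q ∣ n then (1 : ℝ) else 0) ≤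
        N * (1 / p) + ∑ q ∈ Pr, (N * ((1 : ℝ) / p * (1 / q)) + 1) := by
      intro p hp
      rw [Finset.sum_comm]
      have e1 : (N : ℝ) * (1 / p) = ∑ q ∈ Pr, if p = q then (N : ℝ) * (1 / p) else 0 := by
        rw [Finset.sum_ite_eq]; simp [hp]
      rw [e1, ← Finset.sum_add_distrib]
      refine Finset.sum_le_sum fun q hq => ?_
      by_cases hpq : p = q
      · subst hpq
        have e2 : ∀ n : ℕ, (if p ∣ n then (1 : ℝ) else 0) * (if p ∣ n then (1 : ℝ) else 0) =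
            if p ∣ n then (1 : ℝ) else 0 := fun n => by split_ifs <;> simp
        simp_rw [e2, if_true]
        have h3 := (abs_le.1 (ind_Tkw p x N (hP p hp).pos)).2
        have h4 : (0 : ℝ) ≤ N * ((1 : ℝ) / p * (1 / p)) := by positivity
        linarith
      · have hc : Nat.Coprime p q := (Nat.coprime_primes (hP p hp) (hP q hq)).2 hpq
        have e2 : ∀ n : ℕ, (if p ∣ n then (1 : ℝ) else 0) * (if q ∣ n then (1 : ℝ) else 0) =
            if p * q ∣ n then (1 : ℝ) else 0 := fun n => by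
          by_cases a : p ∣ n
          · by_cases b : q ∣ n
            · simp [a, b, hc.mul_dvd_of_dvd_of_dvd a b]
            · have : ¬ p * q ∣ n := fun h => b (Dvd.dvd.trans (Dvd.intro_left p rfl) h)
              simp [a, b, this]
          · have : ¬ p * q ∣ n := fun h => a (Dvd.dvd.trans (Dvd.intro q rfl) h)
            simp [a, this]
        simp_rw [e2, if_neg hpq, zero_add]
        have h3 := (abs_le.1 (ind_Tkw (p * q) x N (Nat.mul_pos (hP p hp).pos (hP q hq).pos))).2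
        have h4 : (1 : ℝ) / ((p * q : ℕ) : ℝ) = 1 / p * (1 / q) := by
          push_cast
          rw [one_div_mul_one_div]
        rw [h4] at h3
        linarith
    refine (Finset.sum_le_sum key).trans (le_of_eq ?_)
    simp only [Finset.sum_add_distrib, Finset.sum_const, nsmul_eq_mul, mul_one]
    rw [hL, Finset.sum_mul_sum, Finset.mul_sum, Finset.mul_sum, add_assoc]
    congr 2
    refine Finset.sum_congr rfl fun p _ => ?_
    rw [Finset.mul_sum]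
  have h3 : ∑ n ∈ Ico x (x + N), (∑ p ∈ Pr, (if p ∣ n then (1 : ℝ) else 0) - L) ^ 2 =
      ∑ n ∈ Ico x (x + N), (∑ p ∈ Pr, (if p ∣ n then (1 : ℝ) else 0)) ^ 2 -
        2 * L * ∑ n ∈ Ico x (x + N), ∑ p ∈ Pr, (if p ∣ n then (1 : ℝ) else 0) + N * L ^ 2 := by
    have e : (N : ℝ) * L ^ 2 = ∑ _n ∈ Ico x (x + N), L ^ 2 := by simp
    rw [e, Finset.mul_sum, ← Finset.sum_sub_distrib, ← Finset.sum_add_distrib]
    exact Finset.sum_congr rfl fun n _ => by ring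
  rw [h3]
  nlinarith [mul_le_mul_of_nonneg_left h1 hL0]

theorem row_Tkw (a x r t : ℕ) (ha : 0 < a) (g : ℕ → ℝ) :
    ∑ m ∈ range (x + r + 1), (if x ≤ a * m ∧ a * m < x + r then g (a * (m + t)) else 0) =
      ∑ n ∈ (Ico (x + a * t) (x + a * t + r)).filter (fun n => a ∣ n), g n := by
  rw [← Finset.sum_filter]
  refine Finset.sum_bij (fun m _ => a * (m + t)) ?_ ?_ ?_ fun _ _ => rfl
  · intro m hm
    simp only [Finset.mem_filter, Finset.mem_range, Finset.mem_Ico] at hm ⊢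
    refine ⟨?_, Dvd.intro _ rfl⟩
    rw [mul_add]
    omega
  · intro m _ m' _ h
    have := Nat.eq_of_mul_eq_mul_left ha h
    omega
  · intro n hn
    simp only [Finset.mem_filter, Finset.mem_Ico] at hn
    obtain ⟨⟨h1, h2⟩, k, rfl⟩ := hn
    have h3 : t ≤ k := Nat.le_of_mul_le_mul_left (by omega) ha
    obtain ⟨m, rfl⟩ := Nat.exists_eq_add_of_le' h3
    refine ⟨m, ?_, rfl⟩
    simp only [Finset.mem_filter, Finset.mem_range]
    rw [mul_add] at h1 h2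
    have h4 : m ≤ a * m := Nat.le_mul_of_pos_left m ha
    omega

theorem cut_Tkw (a x r D t : ℕ) (ha : 0 < a) (h : a * t ≤ D) (g : ℕ → ℝ) (hg : ∀ m, |g m| ≤ 1) :
    |∑ m ∈ range (x + r + 1), (if x ≤ a * m ∧ a * m < x + r then g (a * (m + t)) else 0) -
      ∑ n ∈ Ico x (x + (r + D)), (if a ∣ n then (1 : ℝ) else 0) * g n| ≤ D * (1 / a) + 2 := by
  have e : ∑ n ∈ Ico x (x + (r + D)), (if a ∣ n then (1 : ℝ) else 0) * g n =
      ∑ n ∈ (Ico x (x + (r + D))).filter (fun n => a ∣ n), g n := by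
    rw [Finset.sum_filter]
    exact Finset.sum_congr rfl fun n _ => by split_ifs <;> simp
  have hs : (Ico (x + a * t) (x + a * t + r)).filter (fun n => a ∣ n) ⊆
      (Ico x (x + (r + D))).filter (fun n => a ∣ n) :=
    Finset.filter_subset_filter _ (Finset.Ico_subset_Ico (by omega) (by omega))
  rw [row_Tkw a x r t ha, e, abs_sub_comm, ← Finset.sum_sdiff hs, add_sub_cancel_right]
  refine (Finset.abs_sum_le_sum_abs _ _).trans ((Finset.sum_le_sum fun n _ => hg n).trans ?_)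
  rw [Finset.sum_const, nsmul_eq_mul, mul_one, Finset.card_sdiff_of_subset hs,
    Nat.cast_sub (Finset.card_le_card hs)]
  have h1 := (abs_le.1 (cnt_Tkw a x (r + D) ha)).2
  have h2 := (abs_le.1 (cnt_Tkw a (x + a * t) r ha)).1
  push_cast at h1
  linarith

theorem sum_Tkw (Pr : Finset ℕ) (x r D P t : ℕ) (hP : ∀ p ∈ Pr, p.Prime ∧ p ≤ P) (hD : P * t ≤ D)
    (g : ℕ → ℝ) (hg : ∀ m, |g m| ≤ 1) :
    |∑ p ∈ Om Pr x (x + r), g (p.1 * (p.2 + t)) -
      (∑ p ∈ Pr, (1 : ℝ) / p) * ∑ n ∈ Ico x (x + (r + D)), g n| ≤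
      D * (∑ p ∈ Pr, (1 : ℝ) / p) + 2 * P + (r + D : ℕ) * Real.sqrt (∑ p ∈ Pr, (1 : ℝ) / p) +
        2 * P * Real.sqrt (r + D : ℕ) := by
  have htk := tk_Tkw Pr x (r + D) fun p hp => (hP p hp).1
  set L : ℝ := ∑ p ∈ Pr, (1 : ℝ) / p with hL
  have hL0 : 0 ≤ L := Finset.sum_nonneg fun p _ => by positivity
  have hK : (Pr.card : ℝ) ≤ P := by
    have : Pr ⊆ Icc 1 P := fun p hp => Finset.mem_Icc.2 ⟨(hP p hp).1.pos, (hP p hp).2⟩
    have h := Finset.card_le_card this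
    rw [Nat.card_Icc, Nat.add_sub_cancel] at h
    exact_mod_cast h
  have hLK : L ≤ Pr.card := by
    rw [hL, Finset.card_eq_sum_ones, Nat.cast_sum]
    refine Finset.sum_le_sum fun p hp => ?_
    have : (1 : ℝ) ≤ p := by exact_mod_cast (hP p hp).1.pos
    rw [Nat.cast_one, div_le_one (by linarith)]
    exact this
  have h1 : |∑ p ∈ Om Pr x (x + r), g (p.1 * (p.2 + t)) -
      ∑ n ∈ Ico x (x + (r + D)), (∑ p ∈ Pr, (if p ∣ n then (1 : ℝ) else 0)) * g n| ≤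
      D * L + 2 * P := by
    simp_rw [Finset.sum_mul]
    rw [Om, Finset.sum_filter, Finset.sum_product, Finset.sum_comm (s := Ico x (x + (r + D))),
      ← Finset.sum_sub_distrib]
    refine (Finset.abs_sum_le_sum_abs _ _).trans ((Finset.sum_le_sum fun a ha =>
      cut_Tkw a x r D t (hP a ha).1.pos ((Nat.mul_le_mul_right t (hP a ha).2).trans hD) g hg).trans ?_)
    rw [Finset.sum_add_distrib, ← Finset.mul_sum, Finset.sum_const, nsmul_eq_mul]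
    linarith
  generalize r + D = q at *
  have h2 : |∑ n ∈ Ico x (x + q), (∑ p ∈ Pr, (if p ∣ n then (1 : ℝ) else 0)) * g n -
      L * ∑ n ∈ Ico x (x + q), g n| ≤ q * Real.sqrt L + 2 * P * Real.sqrt q := by
    rw [Finset.mul_sum, ← Finset.sum_sub_distrib]
    have a1 : ∀ n ∈ Ico x (x + q), |(∑ p ∈ Pr, (if p ∣ n then (1 : ℝ) else 0)) * g n - L * g n| ≤
        |∑ p ∈ Pr, (if p ∣ n then (1 : ℝ) else 0) - L| := fun n _ => by
      rw [← sub_mul, abs_mul]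
      exact mul_le_of_le_one_right (abs_nonneg _) (hg n)
    refine (Finset.abs_sum_le_sum_abs _ _).trans ((Finset.sum_le_sum a1).trans ?_)
    have a2 := sq_sum_le_card_mul_sum_sq (s := Ico x (x + q))
      (f := fun n => |∑ p ∈ Pr, (if p ∣ n then (1 : ℝ) else 0) - L|)
    simp only [sq_abs, Nat.card_Ico, Nat.add_sub_cancel_left] at a2
    have q0 : (0 : ℝ) ≤ q := by positivity
    have s1 := Real.sq_sqrt hL0
    have s2 := Real.sq_sqrt q0
    have s3 : 0 ≤ q * Real.sqrt L * (P * Real.sqrt q) := by positivity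
    have k0 : (0 : ℝ) ≤ Pr.card := by positivity
    have k1 : (Pr.card : ℝ) ^ 2 ≤ (P : ℝ) ^ 2 := pow_le_pow_left₀ k0 hK 2
    have k2 : (Pr.card : ℝ) * L ≤ (P : ℝ) ^ 2 := by nlinarith
    have k3 : 0 ≤ (q : ℝ) * (P : ℝ) ^ 2 := by positivity
    refine abs_le_of_sq_le_sq' ?_ (by positivity) |>.2
    refine a2.trans ((mul_le_mul_of_nonneg_left htk q0).trans ?_)
    have e : (q * Real.sqrt L + 2 * P * Real.sqrt q) ^ 2 =
        q * (q * L) + 4 * (q * Real.sqrt L * (P * Real.sqrt q)) + 4 * (q * (P : ℝ) ^ 2) := by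
      linear_combination (q : ℝ) ^ 2 * s1 + 4 * (P : ℝ) ^ 2 * s2
    rw [e]
    nlinarith [mul_le_mul_of_nonneg_left k1 q0, mul_le_mul_of_nonneg_left k2 q0]
  have h3 := abs_sub_le (∑ p ∈ Om Pr x (x + r), g (p.1 * (p.2 + t)))
    (∑ n ∈ Ico x (x + q), (∑ p ∈ Pr, (if p ∣ n then (1 : ℝ) else 0)) * g n)
    (L * ∑ n ∈ Ico x (x + q), g n)
  linarith

theorem one_Tkw {α : Type} (s : Finset α) (f : α → ℝ) (hf : ∀ a, |f a| ≤ 1) :
    |∑ a ∈ s, f a| ≤ s.card := by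
  refine (Finset.abs_sum_le_sum_abs _ _).trans ((Finset.sum_le_sum fun n _ => hf n).trans ?_)
  simp

theorem fin_Tkw {S T c q L E : ℝ} (hq : 0 < q) (hL : 0 < L) (hc : 0 ≤ c) (h1 : |S - L * T| ≤ E)
    (h2 : |c - L * q| ≤ E) (hS : |S| ≤ c) (hT : |T| ≤ q) : |S / c - T / q| ≤ 4 * E / (L * q) := by
  have hLq : 0 < L * q := by positivity
  rw [le_div_iff₀ hLq]
  by_cases h : 2 * E ≤ L * q
  · have c1 : L * q ≤ 2 * c := by linarith [(abs_le.1 h2).1]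
    have c0 : 0 < c := by linarith
    have e : S / c - T / q = ((S - L * T) - T / q * (c - L * q)) / c := by
      field_simp
      ring
    have a1 : |T / q| ≤ 1 := by
      rw [abs_div, abs_of_pos hq, div_le_one hq]
      exact hT
    have a2 : |T / q * (c - L * q)| ≤ E := by
      rw [abs_mul]
      exact (mul_le_of_le_one_left (abs_nonneg _) a1).trans h2
    have a3 := abs_sub (S - L * T) (T / q * (c - L * q))
    have a4 : |S / c - T / q| * c ≤ 2 * E := by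
      rw [e, abs_div, abs_of_pos c0, div_mul_cancel₀ _ c0.ne']
      linarith
    nlinarith [abs_nonneg (S / c - T / q)]
  · have a1 : |T / q| ≤ 1 := by
      rw [abs_div, abs_of_pos hq, div_le_one hq]
      exact hT
    have a2 : |S / c| ≤ 1 := by
      rw [abs_div, abs_of_nonneg hc]
      exact div_le_one_of_le₀ hS hc
    have a3 := abs_sub (S / c) (T / q)
    nlinarith

theorem tkw_stmt : TkwStmt := by
  intro Pr x q D P t g hP hL hq hD hDq hg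
  obtain ⟨r, rfl⟩ := Nat.exists_eq_add_of_le' hDq
  have e : x + (r + D) - D = x + r := by omega
  have h1 := sum_Tkw Pr x r D P t hP hD g hg
  have h2 := sum_Tkw Pr x r D P t hP hD (fun _ => 1) fun _ => by simp
  simp only [Finset.sum_const, nsmul_eq_mul, mul_one, Nat.card_Ico, Nat.add_sub_cancel_left] at h2
  have h3 := one_Tkw (Om Pr x (x + r)) (fun p => g (p.1 * (p.2 + t))) fun _ => hg _
  have h4 := one_Tkw (Ico x (x + (r + D))) g hg
  rw [e, Finset.expect_eq_sum_div_card, Finset.expect_eq_sum_div_card]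
  rw [Nat.card_Ico, Nat.add_sub_cancel_left] at h4 ⊢
  generalize r + D = q at *
  generalize ∑ p ∈ Pr, (1 : ℝ) / p = L at *
  have q1 : (1 : ℝ) ≤ q := by exact_mod_cast hq
  refine (fin_Tkw (by linarith) (by linarith) (by positivity) h1 h2 h3 h4).trans ?_
  have s1 : 1 ≤ Real.sqrt L := Real.one_le_sqrt.2 hL
  have s2 : 1 ≤ Real.sqrt q := Real.one_le_sqrt.2 q1
  have s3 := Real.sq_sqrt (show 0 ≤ L by linarith)
  have s4 := Real.sq_sqrt (show (0 : ℝ) ≤ q by linarith)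
  generalize Real.sqrt L = u at *
  generalize Real.sqrt q = v at *
  rw [← s3, ← s4]
  have P0 : (0 : ℝ) ≤ P := by positivity
  have e2 : 4 * ((D : ℝ) / v ^ 2 + 1 / u + 4 * P / v) =
      4 * (D * u ^ 2 + v ^ 2 * u + 4 * P * (u ^ 2 * v)) / (u ^ 2 * v ^ 2) := by
    field_simp
  rw [e2]
  refine div_le_div_of_nonneg_right ?_ (by positivity)
  have a1 : v ≤ u ^ 2 * v := le_mul_of_one_le_left (by linarith) (by linarith)
  nlinarith [mul_le_mul_of_nonneg_left a1 P0, mul_le_mul_of_nonneg_left s2 P0]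

end Pool.Agent.MP_4fffd4_nt.AN

end
end

section

open Finset Filter
open scoped BigOperators ComplexConjugate Topology

noncomputable section

namespace Pool.Agent.MP_4fffd4_nt.AN

open Pool.Agent.MP_4fffd4_nt.SX

open Classical in
/-- The tails over which the set has two points at distance k. -/
def W2_Tree {d : ℕ} (W : Finset (Fin (d + 1) → ℤ)) (k : ℕ) : Finset (Fin d → ℤ) :=
  (W.image fun w => Fin.tail w).filter fun w' =>
    ∃ t : ℤ, (Fin.cons t w' : Fin (d + 1) → ℤ) ∈ W ∧ (Fin.cons (t + k) w' : Fin (d + 1) → ℤ) ∈ W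

theorem ext_Tree {d : ℕ} {w v : Fin (d + 1) → ℤ} (h0 : w 0 = v 0) (h1 : Fin.tail w = Fin.tail v) :
    w = v := by
  rw [← Fin.cons_self_tail w, ← Fin.cons_self_tail v, h0, h1]

theorem fib1_Tree {d : ℕ} (W : Finset (Fin (d + 1) → ℤ)) (A : ℕ)
    (hW : ∀ w ∈ W, ∀ i, |w i| ≤ A) (w' : Fin d → ℤ) :
    (W.filter fun w => Fin.tail w = w').card ≤ 2 * A + 1 := by
  have h : (W.filter fun w => Fin.tail w = w').card ≤ (Icc (-(A : ℤ)) A).card := by
    refine card_le_card_of_injOn (fun w => w 0) (fun w hw => ?_) (fun w hw v hv h => ?_)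
    · simp only [coe_filter, Set.mem_ofPred_eq] at hw
      simpa [abs_le] using hW w hw.1 0
    · simp only [coe_filter, Set.mem_ofPred_eq] at hw hv
      exact ext_Tree h (hw.2.trans hv.2.symm)
  rw [Int.card_Icc] at h
  omega

theorem fib2_Tree {d : ℕ} (W : Finset (Fin (d + 1) → ℤ)) (A K : ℕ) (hK : 1 ≤ K)
    (hW : ∀ w ∈ W, ∀ i, |w i| ≤ A) (w' : Fin d → ℤ)
    (h : ∀ k ∈ Icc 1 K, w' ∉ W2_Tree W k) :
    (W.filter fun w => Fin.tail w = w').card ≤ 2 * A / K + 1 := by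
  have key : ∀ w ∈ W, ∀ v ∈ W, Fin.tail w = w' → Fin.tail v = w' → w 0 < v 0 →
      w 0 + K < v 0 := by
    intro w hw v hv h1 h2 hlt
    by_contra hc
    refine h (v 0 - w 0).toNat (by rw [mem_Icc]; omega) ?_
    unfold W2_Tree
    simp only [mem_filter, mem_image]
    refine ⟨⟨w, hw, h1⟩, w 0, ?_, ?_⟩
    · rw [← h1, Fin.cons_self_tail]; exact hw
    · have h3 : w 0 + ((v 0 - w 0).toNat : ℤ) = v 0 := by omega
      rw [h3, ← h2, Fin.cons_self_tail]; exact hv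
  have cl : ∀ a b : ℕ, a + K < b → a / K ≠ b / K := by
    intro a b hab he
    have h1 : (a + K) / K ≤ b / K := Nat.div_le_div_right hab.le
    rw [Nat.add_div_right _ hK] at h1
    omega
  rw [← card_range (2 * A / K + 1)]
  refine card_le_card_of_injOn (fun w => (w 0 + A).toNat / K) (fun w hw => ?_)
    (fun w hw v hv he => ?_)
  · simp only [coe_filter, Set.mem_ofPred_eq] at hw
    have h1 := abs_le.1 (hW w hw.1 0)
    simp only [coe_range, Set.mem_Iio]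
    exact Nat.lt_succ_of_le (Nat.div_le_div_right (by omega))
  · simp only [coe_filter, Set.mem_ofPred_eq] at hw hv
    have h1 := abs_le.1 (hW w hw.1 0)
    have h2 := abs_le.1 (hW v hv.1 0)
    refine ext_Tree ?_ (hw.2.trans hv.2.symm)
    rcases lt_trichotomy (w 0) (v 0) with h3 | h3 | h3
    · have h4 := key w hw.1 v hv.1 hw.2 hv.2 h3
      exact absurd he (cl _ _ (by omega))
    · exact h3
    · have h4 := key v hv.1 w hw.1 hv.2 hw.2 h3
      exact absurd he.symm (cl _ _ (by omega))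

theorem tails_Tree {d : ℕ} (W : Finset (Fin (d + 1) → ℤ)) (A : ℕ)
    (hW : ∀ w ∈ W, ∀ i, |w i| ≤ A) :
    (W.image fun w => Fin.tail w).card ≤ (2 * A + 1) ^ d := by
  have h : (W.image fun w => Fin.tail w) ⊆ Fintype.piFinset fun _ : Fin d => Icc (-(A : ℤ)) A := by
    intro w' hw'
    obtain ⟨w, hw, rfl⟩ := mem_image.1 hw'
    rw [Fintype.mem_piFinset]
    intro i
    simpa [abs_le, Fin.tail] using hW w hw i.succ
  refine (card_le_card h).trans (le_of_eq ?_)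
  rw [Fintype.card_piFinset, prod_const, card_univ, Fintype.card_fin, Int.card_Icc]
  congr 1
  omega

theorem count_Tree {d : ℕ} (W : Finset (Fin (d + 1) → ℤ)) (A K : ℕ) (hK : 1 ≤ K)
    (hW : ∀ w ∈ W, ∀ i, |w i| ≤ A) :
    W.card ≤ (∑ k ∈ Icc 1 K, (W2_Tree W k).card) * (2 * A + 1) +
      (2 * A + 1) ^ d * (2 * A / K + 1) := by
  classical
  set G := (Icc 1 K).biUnion fun k => W2_Tree W k with hG
  rw [card_eq_sum_card_image (fun w => Fin.tail w) W,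
    ← sum_filter_add_sum_filter_not _ (fun w' => w' ∈ G)]
  refine add_le_add ?_ ?_
  · refine (sum_le_card_nsmul _ _ (2 * A + 1) fun w' _ => ?_).trans ?_
    · exact fib1_Tree W A hW w'
    · rw [smul_eq_mul]
      refine Nat.mul_le_mul_right _ (le_trans (card_le_card fun w' hw' => (mem_filter.1 hw').2) ?_)
      exact card_biUnion_le
  · refine (sum_le_card_nsmul _ _ (2 * A / K + 1) fun w' hw' => ?_).trans ?_
    · refine fib2_Tree W A K hK hW w' fun k hk hm => (mem_filter.1 hw').2 ?_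
      exact mem_biUnion.2 ⟨k, hk, hm⟩
    · rw [smul_eq_mul]
      exact Nat.mul_le_mul_right _ ((card_filter_le _ _).trans (tails_Tree W A hW))

theorem step_Tree (d : ℕ) (c : ℝ) (hc : 0 < c) : ∃ K A₀ : ℕ, 1 ≤ K ∧
    ∀ (A : ℕ) (W : Finset (Fin (d + 1) → ℤ)), A₀ ≤ A → (∀ w ∈ W, ∀ i, |w i| ≤ A) →
      c * (A : ℝ) ^ (d + 1) ≤ W.card →
      ∃ k, 1 ≤ k ∧ k ≤ K ∧ c / (6 * K) * (A : ℝ) ^ d ≤ (W2_Tree W k).card := by
  obtain ⟨K, hK⟩ := exists_nat_ge (8 * 3 ^ d / c + 1)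
  have h3 : (0 : ℝ) < 3 ^ d := by positivity
  have hK1 : (1 : ℝ) ≤ K := le_trans (by have : 0 ≤ 8 * 3 ^ d / c := by positivity
                                         linarith) hK
  have hK2 : 8 * 3 ^ d ≤ c * K := by
    have h1 : 8 * 3 ^ d / c ≤ K := by linarith
    rw [div_le_iff₀ hc] at h1
    linarith
  refine ⟨K, K, by exact_mod_cast hK1, fun A W hA hW hcard => ?_⟩
  have hA' : (K : ℝ) ≤ A := by exact_mod_cast hA
  have hA1 : (1 : ℝ) ≤ A := hK1.trans hA'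
  have hK0 : (0 : ℝ) < K := by linarith
  by_contra hne
  push Not at hne
  have hsum : ((∑ k ∈ Icc 1 K, (W2_Tree W k).card : ℕ) : ℝ) ≤ c / 6 * (A : ℝ) ^ d := by
    push_cast
    refine (sum_le_card_nsmul _ _ (c / (6 * K) * (A : ℝ) ^ d) fun k hk => ?_).trans (le_of_eq ?_)
    · rw [mem_Icc] at hk
      exact (hne k hk.1 hk.2).le
    · rw [Nat.card_Icc, nsmul_eq_mul, Nat.add_sub_cancel]
      field_simp
  have hcount : (W.card : ℝ) ≤ ((∑ k ∈ Icc 1 K, (W2_Tree W k).card : ℕ) : ℝ) * (2 * A + 1) +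
      (2 * A + 1) ^ d * (((2 * A / K : ℕ) : ℝ) + 1) := by
    exact_mod_cast count_Tree W A K (by exact_mod_cast hK1) hW
  have hdiv : ((2 * A / K : ℕ) : ℝ) ≤ 2 * A / K := by
    have := Nat.cast_div_le (α := ℝ) (m := 2 * A) (n := K)
    simpa using this
  have hpow : (2 * (A : ℝ) + 1) ^ d ≤ 3 ^ d * (A : ℝ) ^ d := by
    rw [← mul_pow]
    exact pow_le_pow_left₀ (by positivity) (by linarith) d
  have hAd : (0 : ℝ) < (A : ℝ) ^ d := by positivity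
  have h1 : (1 : ℝ) ≤ A / K := by rw [le_div_iff₀ hK0]; linarith
  have h2 : ((2 * A / K : ℕ) : ℝ) + 1 ≤ 3 * (A / K) := by
    have : 2 * (A : ℝ) / K = 2 * (A / K) := by ring
    linarith
  have h4 : (3 : ℝ) ^ d * (3 * (A / K)) ≤ 3 / 8 * c * A := by
    have h5 : (3 : ℝ) ^ d * (3 * (A / K)) = 3 * A * (3 ^ d / K) := by ring
    have h6 : (3 : ℝ) ^ d / K ≤ c / 8 := by
      rw [div_le_iff₀ hK0]; linarith
    rw [h5]
    nlinarith
  have h7 : (2 * (A : ℝ) + 1) ^ d * (((2 * A / K : ℕ) : ℝ) + 1) ≤ (A : ℝ) ^ d * (3 / 8 * c * A) := by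
    calc _ ≤ (3 ^ d * (A : ℝ) ^ d) * (3 * (A / K)) :=
          mul_le_mul hpow h2 (by positivity) (by positivity)
      _ = (A : ℝ) ^ d * (3 ^ d * (3 * (A / K))) := by ring
      _ ≤ _ := mul_le_mul_of_nonneg_left h4 hAd.le
  have h8 : ((∑ k ∈ Icc 1 K, (W2_Tree W k).card : ℕ) : ℝ) * (2 * A + 1) ≤
      c / 6 * (A : ℝ) ^ d * (3 * A) :=
    mul_le_mul hsum (by linarith) (by positivity) (by positivity)
  have h9 : 0 < c * ((A : ℝ) ^ d * A) := by positivity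
  rw [pow_succ] at hcard
  nlinarith

theorem tree_stmt : TreeStmt := by
  intro ι u d
  induction d with
  | zero =>
    intro Γ _ M A W c hc _ _ hW h0
    refine ⟨Fin.elim0, fun i => i.elim0, ?_⟩
    have h1 := h0 (fun _ => Fin.elim0) (hW.mono fun n hn => by
      have h2 : (0 : ℝ) < (W n).card := lt_of_lt_of_le (by simpa using hc) hn.2
      obtain ⟨w, hw⟩ := card_pos.1 (by exact_mod_cast h2 : 0 < (W n).card)
      rwa [Subsingleton.elim w Fin.elim0] at hw)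
    rw [← h1]
    exact congrArg M (Subsingleton.elim _ _)
  | succ d ih =>
    intro Γ _ M A W c hc hA hM hW h0
    classical
    obtain ⟨K, A₀, hK, hstep⟩ := step_Tree d c hc
    have hex : ∀ᶠ n in (u : Filter ι), ∃ k ∈ Set.Icc 1 K,
        c / (6 * K) * (A n : ℝ) ^ d ≤ (W2_Tree (W n) k).card := by
      filter_upwards [hW, hA.eventually_ge_atTop A₀] with n hn hn'
      obtain ⟨k, h1, h2, h3⟩ := hstep (A n) (W n) hn' hn.1 hn.2
      exact ⟨k, ⟨h1, h2⟩, h3⟩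
    obtain ⟨k, hk, hev⟩ := (Ultrafilter.eventually_exists_mem_iff (Set.finite_Icc 1 K)).1 hex
    have hK0 : (0 : ℝ) < K := by exact_mod_cast hK
    let M' : MultilinearMap ℤ (fun _ : Fin d => ι → ℤ) Γ := M.curryLeft (fun _ => (k : ℤ))
    have hM' : ∀ e : Fin d → ι → ℤ,
        M' e = M (Fin.cons (fun _ => (k : ℤ)) e : Fin (d + 1) → ι → ℤ) := fun e => rfl
    obtain ⟨k', hk', hz⟩ := ih Γ M' A (fun n => W2_Tree (W n) k) (c / (6 * K)) (by positivity) hA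
      (fun e e' he => by
        rw [hM', hM']
        refine hM _ _ (he.mono fun n hn i => ?_)
        refine Fin.cases ?_ (fun j => ?_) i
        · simp
        · simpa using hn j)
      (by
        filter_upwards [hW, hev] with n hn hn'
        refine ⟨fun w' hw' i => ?_, hn'⟩
        unfold W2_Tree at hw'
        obtain ⟨w, hw, rfl⟩ := mem_image.1 (mem_filter.1 hw').1
        exact hn.1 w hw i.succ)
      (fun w' hw' => by
        have hch : ∀ n, ∃ t : ℤ, w' n ∈ W2_Tree (W n) k →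
            (Fin.cons t (w' n) : Fin (d + 1) → ℤ) ∈ W n ∧
              (Fin.cons (t + k) (w' n) : Fin (d + 1) → ℤ) ∈ W n := by
          intro n
          by_cases h : w' n ∈ W2_Tree (W n) k
          · unfold W2_Tree at h
            obtain ⟨t, ht⟩ := (mem_filter.1 h).2
            exact ⟨t, fun _ => ht⟩
          · exact ⟨0, fun h' => absurd h' h⟩
        choose t ht using hch
        have h1 := h0 (fun n => Fin.cons (t n) (w' n)) (hw'.mono fun n hn => (ht n hn).1)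
        have h2 := h0 (fun n => Fin.cons (t n + k) (w' n)) (hw'.mono fun n hn => (ht n hn).2)
        have e1 : (fun i n => (Fin.cons (t n) (w' n) : Fin (d + 1) → ℤ) i) =
            (Fin.cons t (fun i n => w' n i) : Fin (d + 1) → ι → ℤ) := by
          funext i n
          refine Fin.cases ?_ (fun j => ?_) i <;> simp
        have e2 : (fun i n => (Fin.cons (t n + k) (w' n) : Fin (d + 1) → ℤ) i) =
            (Fin.cons (t + fun _ => (k : ℤ)) (fun i n => w' n i) : Fin (d + 1) → ι → ℤ) := by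
          funext i n
          refine Fin.cases ?_ (fun j => ?_) i <;> simp
        rw [e1] at h1
        rw [e2, MultilinearMap.cons_add, h1, zero_add] at h2
        rw [hM']
        exact h2)
    refine ⟨Fin.cons k k', fun i => Fin.cases (by simpa using hk.1) (fun j => by simpa using hk' j) i, ?_⟩
    rw [← hz, hM']
    congr 1
    funext i n
    refine Fin.cases ?_ (fun j => ?_) i <;> simp

end Pool.Agent.MP_4fffd4_nt.AN

end
end

section

/-!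
Assembly from the steps.
-/

open Finset Filter
open scoped BigOperators ComplexConjugate Topology

noncomputable section

namespace Pool.Agent.MP_4fffd4_nt.SX

end Pool.Agent.MP_4fffd4_nt.SX

end
end

section

/-!
Sign patterns of the Liouville function: uniform functions have small sums over intervals.
-/

open Finset Filter
open scoped BigOperators ComplexConjugate Topology

noncomputable section

namespace Pool.Agent.MP_4fffd4_nt.SX

end Pool.Agent.MP_4fffd4_nt.SX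

end
end

section

/-!
The moment bound for residues modulo different primes.
-/

open Finset Filter
open scoped BigOperators ComplexConjugate Topology

noncomputable section

namespace Pool.Agent.MP_4fffd4_nt.SX

variable {V : Type} [Fintype V] [DecidableEq V]

theorem bij_Mom {p d : ℕ} (hp : p.Prime) (hd : ¬ p ∣ d) (y : V → ℤ) (f : (V → ℤ) → ℝ) :
    ∑ t ∈ cell V p, f (rs p (y + (d : ℤ) • t)) = ∑ r ∈ cell V p, f r := by
  have hm : Set.MapsTo (fun t => rs p (y + (d : ℤ) • t)) (cell V p : Set (V → ℤ)) (cell V p) :=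
    fun t _ => rs_mem_cell hp.pos _
  have hi : Set.InjOn (fun t => rs p (y + (d : ℤ) • t)) (cell V p : Set (V → ℤ)) := by
    intro t ht t' ht' e
    funext v
    have h1 := dvd_add_rs p (y + (d : ℤ) • t) v
    have h2 := dvd_add_rs p (y + (d : ℤ) • t') v
    have h3 : rs p (y + (d : ℤ) • t) v = rs p (y + (d : ℤ) • t') v := congrFun e v
    have h4 : (p : ℤ) ∣ d * (t v - t' v) := by
      have := dvd_sub h1 h2
      rw [h3] at this
      simp only [Pi.add_apply, Pi.smul_apply, smul_eq_mul] at this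
      rwa [show y v + d * t v + rs p (y + (d : ℤ) • t') v -
        (y v + d * t' v + rs p (y + (d : ℤ) • t') v) = d * (t v - t' v) by ring] at this
    have h5 : (p : ℤ) ∣ t v - t' v :=
      ((Nat.prime_iff_prime_int.1 hp).dvd_or_dvd h4).resolve_left fun h =>
        hd (Int.natCast_dvd_natCast.1 h)
    have a := mem_cell.1 ht v
    have b := mem_cell.1 ht' v
    have := Int.eq_zero_of_abs_lt_dvd h5 (abs_lt.2 ⟨by linarith, by linarith⟩)
    linarith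
  have hb := ((cell V p).finite_toSet.injOn_iff_bijOn_of_mapsTo hm).1 hi
  exact sum_nbij _ (fun t ht => hm ht) hi hb.surjOn fun _ _ => rfl

omit [Fintype V] [DecidableEq V] in
theorem rs_Mom {p d : ℕ} (h : p ∣ d) (y t : V → ℤ) : rs p (y + (d : ℤ) • t) = rs p y := by
  obtain ⟨c, rfl⟩ := h
  funext v
  simp only [rs, Pi.add_apply, Pi.smul_apply, smul_eq_mul]
  rw [show -(y v + ((p * c : ℕ) : ℤ) * t v) = -y v + p * (-(c * t v)) by push_cast; ring,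
    Int.add_mul_emod_self_left]

theorem one_Mom (hS : ShiftStmt) {a b : V → ℤ} {M : ℝ} (hM : 0 < M)
    (hab : ∀ v, M ≤ (b v : ℝ) - a v) {n Q : ℕ} (q : Fin n → ℕ) (hq : ∀ i, (q i).Prime ∧ q i ≤ Q)
    (Z : ℕ → (V → ℤ) → ℝ) (hZ : ∀ p r, |Z p r| ≤ 2) (i₀ : Fin n)
    (h0 : ∑ r ∈ cell V (q i₀), Z (q i₀) r = 0) (hi : ∀ i, i ≠ i₀ → q i ≠ q i₀) :
    ∑ y ∈ bx a b, ∏ i, Z (q i) (rs (q i) y) ≤
      2 * Fintype.card V * (Q : ℝ) ^ n / M * 2 ^ n * (bx a b).card := by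
  obtain ⟨d, hd⟩ : ∃ d, d = ∏ i ∈ univ.erase i₀, q i := ⟨_, rfl⟩
  have hp := (hq i₀).1
  have h1 : ¬ q i₀ ∣ d := by
    rw [hd, Prime.dvd_finsetProd_iff hp.prime]
    rintro ⟨i, hi', h⟩
    exact hi i (mem_erase.1 hi').1 ((Nat.prime_dvd_prime_iff_eq hp (hq i).1).1 h).symm
  have h2 : d * Q ≤ Q ^ n := by
    have := prod_le_pow_card (univ.erase i₀) q Q fun i _ => (hq i).2
    rw [card_erase_of_mem (mem_univ _), card_univ, Fintype.card_fin, ← hd] at this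
    have hn : n - 1 + 1 = n := Nat.sub_add_cancel i₀.pos
    calc d * Q ≤ Q ^ (n - 1) * Q := Nat.mul_le_mul_right _ this
      _ = Q ^ n := by rw [← pow_succ, hn]
  have h3 : ∀ t ∈ cell V (q i₀), ∑ y ∈ bx a b, ∏ i, Z (q i) (rs (q i) y) -
      ∑ y ∈ bx a b, ∏ i, Z (q i) (rs (q i) (y + (d : ℤ) • t)) ≤
      2 * Fintype.card V * (Q : ℝ) ^ n / M * 2 ^ n * (bx a b).card := fun t ht => by
    refine le_trans ?_ (hS V a b ((d : ℤ) • t) M ((Q : ℝ) ^ n) (2 ^ n)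
      (fun y => ∏ i, Z (q i) (rs (q i) y)) hM hab (fun v => ?_) fun y => ?_)
    · rw [abs_sub_comm]
      exact le_abs_self _
    · have a1 := mem_cell.1 ht v
      have a2 : (q i₀ : ℤ) ≤ Q := by exact_mod_cast (hq i₀).2
      have a3 : (d : ℤ) * Q ≤ (Q : ℤ) ^ n := by exact_mod_cast h2
      have a4 : |((d : ℤ) • t) v| ≤ (Q : ℤ) ^ n := by
        rw [Pi.smul_apply, smul_eq_mul, abs_of_nonneg (mul_nonneg (Int.natCast_nonneg d) a1.1)]
        exact (mul_le_mul_of_nonneg_left (by linarith [a1.2]) (Int.natCast_nonneg d)).trans a3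
      exact_mod_cast a4
    · rw [abs_prod]
      refine (prod_le_prod (fun _ _ => abs_nonneg _) fun i _ => hZ _ _).trans_eq ?_
      simp
  have h4 : ∑ t ∈ cell V (q i₀), ∑ y ∈ bx a b, ∏ i, Z (q i) (rs (q i) (y + (d : ℤ) • t)) = 0 := by
    rw [sum_comm]
    refine sum_eq_zero fun y _ => ?_
    have e : ∀ t, ∏ i, Z (q i) (rs (q i) (y + (d : ℤ) • t)) =
        Z (q i₀) (rs (q i₀) (y + (d : ℤ) • t)) * ∏ i ∈ univ.erase i₀, Z (q i) (rs (q i) y) :=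
      fun t => by
        rw [← mul_prod_erase univ _ (mem_univ i₀)]
        congr 1
        exact prod_congr rfl fun i hi' => by rw [rs_Mom (hd ▸ dvd_prod_of_mem q hi')]
    simp only [e]
    rw [← sum_mul, bij_Mom hp h1, h0, zero_mul]
  have h5 := sum_le_sum h3
  rw [sum_sub_distrib, h4, sub_zero, sum_const, sum_const, nsmul_eq_mul, nsmul_eq_mul] at h5
  refine le_of_mul_le_mul_left h5 ?_
  rw [card_cell]
  exact_mod_cast pow_pos hp.pos _

theorem mom_stmt (hS : ShiftStmt) (hT : TupStmt) : MomStmt := by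
  intro V _ _ a b M Pr Q j Γ hM hab hPr hj hjP hΓ
  classical
  obtain ⟨Z, hZ⟩ : ∃ Z : ℕ → (V → ℤ) → ℝ, Z = fun p r => Γ p r - 𝔼 r ∈ cell V p, Γ p r := ⟨_, rfl⟩
  have hZ2 : ∀ p r, |Z p r| ≤ 2 := fun p r => by
    have h1 : |𝔼 r ∈ cell V p, Γ p r| ≤ 1 := by
      rcases (cell V p).eq_empty_or_nonempty with h | h
      · simp [h]
      · exact (abs_expect_le _ _).trans (expect_le h fun r _ => hΓ p r)
    rw [hZ]
    exact (abs_sub _ _).trans (by linarith [hΓ p r])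
  have hZ0 : ∀ p : ℕ, ∑ r ∈ cell V p, Z p r = 0 := fun p => by
    simp only [hZ, sum_sub_distrib, sum_const]
    rw [card_smul_expect, sub_self]
  have hN : (0 : ℝ) < Pr.card := by exact_mod_cast lt_of_lt_of_le hj hjP
  have hB : (0 : ℝ) < (bx a b).card := by
    refine Nat.cast_pos.2 (card_pos.2 ⟨b, mem_bx.2 fun v => ⟨?_, le_rfl⟩⟩)
    have := hab v
    have h2 : (a v : ℝ) < b v := by linarith
    exact_mod_cast h2
  have h4 : (2 : ℝ) ^ (2 * j) = 4 ^ j := by rw [pow_mul]; norm_num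
  obtain ⟨X, hX⟩ : ∃ X : ℝ, X = 2 * Fintype.card V * (Q : ℝ) ^ (2 * j) / M := ⟨_, rfl⟩
  have X0 : 0 ≤ X := by rw [hX]; positivity
  have key : ∀ q : Fin (2 * j) → Pr, ∑ y ∈ bx a b, ∏ i, Z (q i) (rs (q i) y) ≤
      ((if ∀ i, ∃ i', i' ≠ i ∧ q i' = q i then 1 else 0) + X) * (4 ^ j * (bx a b).card) := by
    intro q
    split_ifs with h
    · refine (sum_le_card_nsmul _ _ (4 ^ j) fun y _ => ?_).trans ?_
      · refine (le_abs_self _).trans ?_
        rw [abs_prod]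
        refine (prod_le_prod (fun _ _ => abs_nonneg _) fun i _ => hZ2 _ _).trans_eq ?_
        simp [h4]
      · rw [nsmul_eq_mul, mul_comm]
        exact le_mul_of_one_le_left (by positivity) (by linarith)
    · push Not at h
      obtain ⟨i₀, h⟩ := h
      refine (one_Mom hS hM hab (fun i => (q i : ℕ)) (fun i => hPr _ (q i).2) Z hZ2 i₀ (hZ0 _)
        fun i hi e => h i hi (Subtype.ext e)).trans_eq ?_
      rw [h4, ← hX]
      ring
  have h5 := sum_le_sum fun q (_ : q ∈ univ) => key q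
  have h6 := hT Pr j hj (by simpa using hjP)
  rw [← sum_mul, sum_add_distrib, sum_boole, sum_const, nsmul_eq_mul, card_univ, Fintype.card_fun,
    Fintype.card_fin, Fintype.card_coe, sum_comm] at h5
  rw [Fintype.card_coe] at h6
  have h7 : ∀ y, (𝔼 p ∈ Pr, (Γ p (rs p y) - 𝔼 r ∈ cell V p, Γ p r)) ^ (2 * j) =
      (∑ q : Fin (2 * j) → Pr, ∏ i, Z (q i) (rs (q i) y)) / (Pr.card : ℝ) ^ (2 * j) := fun y => by
    rw [expect_eq_sum_div_card, div_pow, ← sum_coe_sort Pr, Fintype.sum_pow, hZ]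
  simp only [h7]
  rw [expect_eq_sum_div_card, ← sum_div, div_le_iff₀ hB, div_le_iff₀ (by positivity), ← hX]
  refine h5.trans ?_
  push_cast
  calc _ ≤ ((Real.exp 1 * Pr.card * j) ^ j + (Pr.card : ℝ) ^ (2 * j) * X) *
        (4 ^ j * (bx a b).card) := by gcongr
    _ = _ := by
      rw [div_pow, mul_pow, mul_pow, mul_pow, pow_mul', sq]
      field_simp

end Pool.Agent.MP_4fffd4_nt.SX

end
end

section

open Finset Filter
open scoped BigOperators ComplexConjugate Topology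

noncomputable section

namespace Pool.Agent.MP_4fffd4_nt.SX

theorem gi_sq_Top (hO : GiOptStmt) {κ G : Type} [Fintype κ] [DecidableEq κ] [AddCommGroup G]
    [Fintype G] (w : (κ → Bool) → G → ℝ) :
    GI (fun (ω' : Option κ → Bool) (x : G) => ((w (fun i => ω' (some i)) x : ℝ) : ℂ)) =
      ((𝔼 k : κ → G, (𝔼 x, ∏ ω, w ω (x + dot ω k)) ^ 2 : ℝ) : ℂ) := by
  rw [hO]
  have h1 : ∀ t : G, GI (fun (ω : κ → Bool) (x : G) =>
      ((w (fun i => ext false ω (some i)) x : ℝ) : ℂ) *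
        conj ((w (fun i => ext true ω (some i)) (x + t) : ℝ) : ℂ)) =
      𝔼 x, 𝔼 k : κ → G, (((∏ ω, w ω (x + dot ω k)) * ∏ ω, w ω (x + t + dot ω k) : ℝ) : ℂ) := by
    intro t
    unfold GI
    refine expect_congr rfl fun x _ => expect_congr rfl fun k _ => ?_
    rw [← prod_mul_distrib, Complex.ofReal_prod]
    refine prod_congr rfl fun ω _ => ?_
    beta_reduce
    rw [Complex.conj_ofReal, ← Complex.ofReal_mul, cj_ofReal, add_right_comm x (dot ω k) t]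
    rfl
  simp only [h1]
  rw [← expect_diff (fun x y : G => 𝔼 k : κ → G,
    (((∏ ω, w ω (x + dot ω k)) * ∏ ω, w ω (y + dot ω k) : ℝ) : ℂ))]
  have h2 : ∀ k : κ → G, (𝔼 x, ∏ ω, w ω (x + dot ω k)) ^ 2 =
      𝔼 x, 𝔼 y, (∏ ω, w ω (x + dot ω k)) * ∏ ω, w ω (y + dot ω k) := by
    intro k
    rw [sq, Fintype.expect_mul_expect]
  simp only [h2]
  rw [Complex.ofReal_expect]
  simp only [Complex.ofReal_expect]
  rw [expect_comm (s := (univ : Finset (κ → G)))]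
  refine expect_congr rfl fun x _ => ?_
  rw [expect_comm]

/-- The weights on the vertices. -/
def ww_Top (s n : ℕ) (a b : ℤ) (ω : Fin s → Bool) (x : ZMod (n + 1)) : ℝ :=
  (if ω = fun _ => false then (if a < (x.val : ℤ) ∧ (x.val : ℤ) ≤ b then 1 else 0) else 1) *
    lam (x.val : ℤ)

theorem xx_eq_Top {s n : ℕ} (e : Fin s → ℤ) (a b : ℤ) (h : Fin s → ℤ) (ha : 0 ≤ a) (hb : b ≤ n)
    (hz : ∀ m ∈ Ioc a b, ∀ ω : Fin s → Bool,
      0 ≤ m + ∑ j, (if ω j then e j * h j else 0) ∧ m + ∑ j, (if ω j then e j * h j else 0) ≤ n) :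
    XX lam e a b h = ∑ x : ZMod (n + 1),
      ∏ ω, ww_Top s n a b ω (x + dot ω fun j => ((e j * h j : ℤ) : ZMod (n + 1))) := by
  have hv : ∀ z : ℤ, 0 ≤ z → z ≤ n → (((z : ZMod (n + 1)).val : ℕ) : ℤ) = z := by
    intro z h0 h1
    rw [ZMod.val_intCast]
    exact Int.emod_eq_of_lt h0 (by push_cast; omega)
  have h1 : ∀ x : ZMod (n + 1),
      ∏ ω, ww_Top s n a b ω (x + dot ω fun j => ((e j * h j : ℤ) : ZMod (n + 1))) =
      if a < (x.val : ℤ) ∧ (x.val : ℤ) ≤ b then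
        ∏ ω : Fin s → Bool,
          lam (((x + dot ω fun j => ((e j * h j : ℤ) : ZMod (n + 1))).val : ℕ) : ℤ) else 0 := by
    intro x
    unfold ww_Top
    rw [prod_mul_distrib, prod_ite_eq' univ (fun _ : Fin s => false)]
    simp only [mem_univ, if_true, dot_false, add_zero]
    split_ifs <;> simp
  simp only [h1]
  rw [← sum_filter]
  unfold XX
  refine sum_nbij' (fun m => (m : ZMod (n + 1))) (fun x => ((x.val : ℕ) : ℤ)) ?_ ?_ ?_ ?_ ?_
  · intro m hm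
    have hm' := mem_Ioc.1 hm
    refine mem_filter.2 ⟨mem_univ _, ?_⟩
    rw [hv m (by omega) (by omega)]
    exact hm'
  · intro x hx
    exact mem_Ioc.2 (mem_filter.1 hx).2
  · intro m hm
    have hm' := mem_Ioc.1 hm
    exact hv m (by omega) (by omega)
  · intro x _
    simp
  · intro m hm
    refine prod_congr rfl fun ω _ => ?_
    have h2 : ((m : ZMod (n + 1)) + dot ω fun j => ((e j * h j : ℤ) : ZMod (n + 1))) =
        ((m + ∑ j, (if ω j then e j * h j else 0) : ℤ) : ZMod (n + 1)) := by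
      unfold dot
      rw [Int.cast_add, Int.cast_sum]
      congr 1
      refine sum_congr rfl fun j _ => ?_
      split_ifs <;> simp
    rw [h2, hv _ (hz m hm ω).1 (hz m hm ω).2]

end Pool.Agent.MP_4fffd4_nt.SX

end
end

section

/-!
Sign patterns of the Liouville function, all lengths: statements of the global steps.
-/

open Finset Filter
open scoped BigOperators ComplexConjugate Topology

noncomputable section

namespace Pool.Agent.MP_4fffd4_nt.AN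

open Pool.Agent.MP_4fffd4_nt.SX

/-! Lifting. -/

/-- The normalised indicator of a residue class. -/
def wt {V : Type} [Fintype V] (p : ℕ) (c h : V → ℤ) : ℝ :=
  if ∀ v, (p : ℤ) ∣ h v - c v then (p : ℝ) ^ Fintype.card V else 0

def RsStmt : Prop :=
  ∀ (V : Type) [Fintype V] [DecidableEq V] (a b : V → ℤ) (M B : ℝ) (p Q : ℕ) (g : (V → ℤ) → ℝ),
    0 < M → (∀ v, M ≤ (b v : ℝ) - a v) → 1 ≤ p → p ≤ Q → (∀ y, |g y| ≤ B) →
    |𝔼 y ∈ bx a b, g (y + rs p y) - 𝔼 y ∈ bx a b, wt p 0 y * g y| ≤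
      2 * Fintype.card V * (Q : ℝ) ^ (Fintype.card V + 1) / M * B

def ClsStmt : Prop :=
  ∀ (V : Type) [Fintype V] [DecidableEq V] (a b ρ : V → ℤ) (M : ℝ) (q : ℕ), 1 ≤ q → (q : ℝ) ≤ M →
    (∀ v, M ≤ (b v : ℝ) - a v) → ∃ (a' b' : V → ℤ) (t : ℝ), 0 ≤ t ∧ t ≤ 2 ^ Fintype.card V ∧
      (∀ v, M / q - 1 ≤ (b' v : ℝ) - a' v) ∧ ∀ g : (V → ℤ) → ℝ,
        𝔼 h ∈ bx a b, wt q ρ h * g h = t * 𝔼 h ∈ bx a' b', g fun v => q * h v + ρ v

/-- Decoupling of the steps from residue classes. -/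
def KL (V : Type) [Fintype V] [DecidableEq V] (r : ℕ) (Pr : Finset ℕ) (M ε : ℝ) : Prop :=
  ∀ (A : Type) [AddCommGroup A] [Fintype A] (F : Fin r → A → ℝ) (L : Fin r → (V → ℤ) →+ A)
    (a b : V → ℤ) (σ : ℕ → ℝ) (c : ℕ → V → ℤ), (∀ i x, |F i x| ≤ 1) → (∀ p, |σ p| ≤ 1) →
    (∀ v, M ≤ (b v : ℝ) - a v) →
    |𝔼 x, 𝔼 h ∈ bx a b, (∏ i, F i (x + L i h)) * 𝔼 p ∈ Pr, σ p * (wt p (c p) h - 1)| ≤ ε

/-- The product over two cubes. -/
def gq {s : ℕ} (e : Fin s → ℤ) (y : Bool → ℤ) (h : Fin s → ℤ) : ℝ :=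
  ∏ b : Bool, ∏ ω : Fin s → Bool, lam (y b + ∑ j, if ω j then e j * h j else 0)

/-- The box of the base points. -/
def by2 (Y K : ℝ) : Finset (Bool → ℤ) := bx (fun _ => ⌊Y * K⌋) (fun _ => ⌊2 * Y * K⌋)

/-- The box of the steps. -/
def bh (s : ℕ) (K : ℝ) : Finset (Fin s → ℤ) := bx (fun _ => ⌊-K⌋) (fun _ => ⌊K⌋)

def MDecStmt : Prop :=
  ∀ (s L Q R j : ℕ) (e h : Fin s → ℤ) (u : ℕ → Fin s → ℤ) (a b : ℤ) (M : ℝ) (Pr : Finset ℕ),
    (∀ i, |e i| ≤ L) → (∀ p ∈ Pr, ∀ i, |u p i| ≤ Q) → 0 < M → M ≤ (b : ℝ) - a →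
    (∀ p ∈ Pr, p.Prime ∧ p ≤ Q) → Pr.Nonempty → 1 ≤ j → (1 + s * L) * Q ≤ R →
    (∀ ω : Fin s → Bool, (R : ℤ) + 2 ≤ a + ∑ i, if ω i then e i * h i else 0) →
    ((pat (2 * R + 1)).ncard : ℝ) ^ 2 ^ (s + 1) ≤ Real.exp j →
    4 * (Q : ℝ) ^ (2 * j) * (Pr.card : ℝ) ^ j ≤ M →
    |𝔼 p ∈ Pr, 𝔼 y ∈ bx (fun _ : Bool => a) (fun _ => b), (wt p 0 y - 1) * gq e y (h + u p)| ≤
      8 * Real.sqrt (j / Pr.card) + 8 * (Q : ℝ) ^ 3 / M

def HDecStmt : Prop :=
  ∀ (s L : ℕ) (e : Fin s → ℤ) (Y K ε : ℝ) (Pr : Finset ℕ), (∀ i, |e i| ≤ L) →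
    (s : ℝ) * L + 2 ≤ Y → 2 ≤ K → KL (Fin s) (2 ^ s) Pr (K - 1) ε →
    |𝔼 p ∈ Pr, 𝔼 h ∈ bh s K, 𝔼 y ∈ by2 Y K, (wt p 0 h - 1) * gq e y h| ≤ 64 * ε

def ScaleStmt : Prop :=
  ∀ (s L : ℕ) (e : Fin s → ℤ) (Y K : ℝ), (∀ i, |e i| ≤ L) → (s : ℝ) * L + 2 ≤ Y → 2 ≤ K →
    ∃ t : ℝ, 0 ≤ t ∧ t ≤ 2 ^ (s + 2) ∧ AE e Y K = t * 𝔼 h ∈ bh s K, 𝔼 y ∈ by2 Y K, gq e y h ∧
      ∀ p : ℕ, p.Prime →
        AE e Y (K / p) = t * 𝔼 h ∈ bh s K, 𝔼 y ∈ by2 Y K, wt p 0 h * (wt p 0 y * gq e y h)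

def MonoStmt : Prop :=
  (∀ m n : ℕ, m ≤ n → (pat m).ncard ≤ (pat n).ncard) ∧
    ∀ s : ℕ, (pat (s + 1)).ncard < 2 ^ (s + 1) →
      ∃ v : Fin (s + 1) → ℤ, (∀ i, v i = 1 ∨ v i = -1) ∧ v ∉ pat (s + 1)

end Pool.Agent.MP_4fffd4_nt.AN

end
end

section

open Finset Filter
open scoped BigOperators ComplexConjugate Topology

noncomputable section

namespace Pool.Agent.MP_4fffd4_nt.AN

open Pool.Agent.MP_4fffd4_nt.SX

/-- The additive maps attached to the vertices. -/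
def LL_HDec {s : ℕ} (n : ℕ) (e : Fin s → ℤ) (ω : Fin s → Bool) :
    (Fin s → ℤ) →+ (Bool → ZMod (n + 1)) :=
  AddMonoidHom.mk' (fun h _ => dot ω fun j => ((e j * h j : ℤ) : ZMod (n + 1))) (by
    intro h k
    funext b
    rw [Pi.add_apply, ← dot_add]
    congr 1
    funext j
    simp [mul_add])

theorem sum_gq_HDec {s n : ℕ} (e : Fin s → ℤ) (a b : ℤ) (h : Fin s → ℤ) (ha : 0 ≤ a) (hb : b ≤ n)
    (hz : ∀ m ∈ Ioc a b, ∀ ω : Fin s → Bool,
      0 ≤ m + ∑ j, (if ω j then e j * h j else 0) ∧ m + ∑ j, (if ω j then e j * h j else 0) ≤ n) :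
    ∑ y ∈ bx (fun _ : Bool => a) (fun _ => b), gq e y h =
      ∑ x : Bool → ZMod (n + 1), ∏ ω : Fin s → Bool,
        ∏ c : Bool, ww_Top s n a b ω ((x + LL_HDec n e ω h) c) := by
  have h1 : ∑ y ∈ bx (fun _ : Bool => a) (fun _ => b), gq e y h = ∏ _c : Bool, XX lam e a b h := by
    unfold XX bx gq
    rw [prod_univ_sum]
  rw [h1, xx_eq_Top e a b h ha hb hz, prod_univ_sum, Fintype.piFinset_univ]
  refine sum_congr rfl fun x _ => ?_
  rw [Finset.prod_comm]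
  rfl

theorem hDec_stmt : HDecStmt := by
  intro s L e Y K ε Pr he hY hK hKL
  have hsL : (0 : ℝ) ≤ (s : ℝ) * L := by positivity
  have hY2 : 2 ≤ Y := by linarith
  have hYK : 4 ≤ Y * K := by nlinarith
  set a : ℤ := ⌊Y * K⌋ with ha
  set b : ℤ := ⌊2 * Y * K⌋ with hb
  set n : ℕ := ⌈3 * Y * K⌉₊ with hn
  have hn1 : 3 * Y * K ≤ n := Nat.le_ceil _
  have hn2 : (n : ℝ) < 3 * Y * K + 1 := Nat.ceil_lt_add_one (by nlinarith)
  have ha1 : (a : ℝ) ≤ Y * K := Int.floor_le _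
  have hb1 : 2 * Y * K < (b : ℝ) + 1 := Int.lt_floor_add_one _
  have hb2 : (b : ℝ) ≤ 2 * Y * K := Int.floor_le _
  have hab : Y * K - 1 ≤ (b : ℝ) - a := by linarith
  have hbox : ∀ h ∈ bh s K, ∀ j, |(h j : ℝ)| ≤ K := by
    intro h hh j
    have h1 := mem_bx.1 hh j
    have h2 : -K < (h j : ℝ) := Int.floor_lt.1 h1.1
    have h3 : (h j : ℝ) ≤ K := Int.le_floor.1 h1.2
    exact abs_le.2 ⟨h2.le, h3⟩
  have hsum : ∀ h ∈ bh s K, ∑ y ∈ by2 Y K, gq e y h =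
      ∑ x : Bool → ZMod (n + 1), ∏ ω : Fin s → Bool,
        ∏ c : Bool, ww_Top s n a b ω ((x + LL_HDec n e ω h) c) := by
    intro h hh
    refine sum_gq_HDec e a b h (Int.floor_nonneg.2 (by linarith)) ?_ ?_
    · have h1 : ((b : ℤ) : ℝ) ≤ ((n : ℤ) : ℝ) := by
        push_cast
        linarith
      exact_mod_cast h1
    · intro m hm ω
      have hm' := mem_Ioc.1 hm
      have h2 : Y * K < (m : ℝ) := Int.floor_lt.1 hm'.1
      have h3 : (m : ℝ) ≤ 2 * Y * K := Int.le_floor.1 hm'.2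
      have h4 : |((∑ j, (if ω j then e j * h j else 0) : ℤ) : ℝ)| ≤ ∑ _j : Fin s, (L : ℝ) * K := by
        rw [Int.cast_sum]
        refine (abs_sum_le_sum_abs _ _).trans (sum_le_sum fun j _ => ?_)
        split_ifs
        · rw [Int.cast_mul, abs_mul]
          have h5 : |(e j : ℝ)| ≤ L := by exact_mod_cast he j
          exact mul_le_mul h5 (hbox h hh j) (abs_nonneg _) (by positivity)
        · rw [Int.cast_zero, abs_zero]
          positivity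
      rw [sum_const, card_univ, Fintype.card_fin, nsmul_eq_mul, ← mul_assoc] at h4
      have h5 : (s : ℝ) * L * K ≤ Y * K := by nlinarith
      have h6 := abs_le.1 (h4.trans h5)
      constructor
      · have : (0 : ℝ) ≤ ((m + ∑ j, (if ω j then e j * h j else 0) : ℤ) : ℝ) := by
          rw [Int.cast_add]
          linarith [h6.1]
        exact_mod_cast this
      · have : ((m + ∑ j, (if ω j then e j * h j else 0) : ℤ) : ℝ) ≤ ((n : ℤ) : ℝ) := by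
          rw [Int.cast_add, Int.cast_natCast]
          linarith [h6.2]
        exact_mod_cast this
  have hcard : Fintype.card (Fin s → Bool) = 2 ^ s := by simp
  let E : (Fin s → Bool) ≃ Fin (2 ^ s) := Fintype.equivFinOfCardEq hcard
  have hK' := hKL (Bool → ZMod (n + 1))
    (fun i x => ∏ c : Bool, ww_Top s n a b (E.symm i) (x c)) (fun i => LL_HDec n e (E.symm i))
    (fun _ => ⌊-K⌋) (fun _ => ⌊K⌋) (fun _ => 1) (fun _ => 0) (by
      intro i x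
      rw [abs_prod]
      refine prod_le_one (fun _ _ => abs_nonneg _) fun c _ => ?_
      unfold ww_Top
      rw [abs_mul, abs_lam, mul_one]
      split_ifs <;> simp) (by intro p; simp) (by
      intro v
      have h1 := Int.floor_le (-K)
      have h2 := Int.lt_floor_add_one K
      linarith)
  have hε : 0 ≤ ε := (abs_nonneg _).trans hK'
  have hE : ∀ (x : Bool → ZMod (n + 1)) (h : Fin s → ℤ),
      ∏ i : Fin (2 ^ s), ∏ c : Bool, ww_Top s n a b (E.symm i) ((x + LL_HDec n e (E.symm i) h) c) =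
        ∏ ω : Fin s → Bool, ∏ c : Bool, ww_Top s n a b ω ((x + LL_HDec n e ω h) c) := by
    intro x h
    exact E.symm.prod_comp fun ω => ∏ c : Bool, ww_Top s n a b ω ((x + LL_HDec n e ω h) c)
  simp only [hE, one_mul] at hK'
  have hcb : ((by2 Y K).card : ℝ) = ((b : ℝ) - a) ^ 2 := by
    have h1 : a ≤ b := by
      have : (a : ℝ) ≤ b := by linarith
      exact_mod_cast this
    have h2 : (((b - a).toNat : ℕ) : ℝ) = (b : ℝ) - a := by
      have h3 : (((b - a).toNat : ℕ) : ℤ) = b - a := Int.toNat_of_nonneg (by omega)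
      exact_mod_cast h3
    unfold by2 bx
    rw [Fintype.card_piFinset]
    simp only [Int.card_Ioc, prod_const, card_univ, Fintype.card_bool, Nat.cast_pow]
    rw [← ha, ← hb, h2]
  have hcA : (Fintype.card (Bool → ZMod (n + 1)) : ℝ) = ((n : ℝ) + 1) ^ 2 := by
    simp [ZMod.card]
  have hpos : 0 < (b : ℝ) - a := by linarith
  set t : ℝ := ((n : ℝ) + 1) ^ 2 / ((b : ℝ) - a) ^ 2 with ht
  have ht0 : 0 ≤ t := by positivity
  have ht1 : t ≤ 64 := by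
    rw [ht, div_le_iff₀ (by positivity)]
    have h1 : (n : ℝ) + 1 ≤ 8 * ((b : ℝ) - a) := by linarith
    calc ((n : ℝ) + 1) ^ 2 ≤ (8 * ((b : ℝ) - a)) ^ 2 := pow_le_pow_left₀ (by positivity) h1 2
      _ = _ := by ring
  have hexp : ∀ h ∈ bh s K, 𝔼 y ∈ by2 Y K, gq e y h =
      t * 𝔼 x : Bool → ZMod (n + 1), ∏ ω : Fin s → Bool,
        ∏ c : Bool, ww_Top s n a b ω ((x + LL_HDec n e ω h) c) := by
    intro h hh
    rw [expect_eq_sum_div_card, Fintype.expect_eq_sum_div_card, hsum h hh, hcb, hcA, ht]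
    field_simp
  have hmain : 𝔼 p ∈ Pr, 𝔼 h ∈ bh s K, 𝔼 y ∈ by2 Y K, (wt p 0 h - 1) * gq e y h =
      t * 𝔼 x : Bool → ZMod (n + 1), 𝔼 h ∈ bx (fun _ : Fin s => ⌊-K⌋) (fun _ => ⌊K⌋),
        (∏ ω : Fin s → Bool, ∏ c : Bool, ww_Top s n a b ω ((x + LL_HDec n e ω h) c)) *
          𝔼 p ∈ Pr, (wt p 0 h - 1) := by
    rw [expect_comm (s := Pr), expect_comm (s := (univ : Finset (Bool → ZMod (n + 1)))),
      mul_expect]
    refine expect_congr rfl fun h hh => ?_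
    simp only [← mul_expect]
    rw [← expect_mul, ← expect_mul, hexp h hh]
    ring
  rw [hmain, abs_mul, abs_of_nonneg ht0]
  exact mul_le_mul ht1 hK' (abs_nonneg _) (by norm_num)

end Pool.Agent.MP_4fffd4_nt.AN

end
end

section

/-!
Decoupling of the steps from residue classes, with the square root saving.
-/

open Finset Filter
open scoped BigOperators ComplexConjugate Topology

noncomputable section

namespace Pool.Agent.MP_4fffd4_nt.AN

open Pool.Agent.MP_4fffd4_nt.SX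

/-- A weight built from sets of primes. -/
def WS {V : Type} [Fintype V] (Pr : Finset ℕ) (σ : Finset ℕ → ℝ) (c : ℕ → V → ℤ) (h : V → ℤ) : ℝ :=
  ∑ S ∈ Pr.powerset, σ S * ∏ p ∈ S, (wt p (c p) h - 1)

/-- Decoupling for weights of degree at most J. -/
def KS (V : Type) [Fintype V] [DecidableEq V] (r J : ℕ) (Pr : Finset ℕ) (η M B : ℝ) : Prop :=
  ∀ (A : Type) [AddCommGroup A] [Fintype A] (F : Fin r → A → ℝ) (L : Fin r → (V → ℤ) →+ A)
    (a b : V → ℤ) (σ : Finset ℕ → ℝ) (c : ℕ → V → ℤ), (∀ i x, |F i x| ≤ 1) →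
    (∀ S, |σ S| ≤ η ^ S.card) → (∀ S, J < S.card → σ S = 0) → (∀ v, M ≤ (b v : ℝ) - a v) →
    |𝔼 x, 𝔼 h ∈ bx a b, (∏ i, F i (x + L i h)) * WS Pr σ c h| ≤ B

/-- The coefficients after the common primes are frozen. -/
def tau (σ : Finset ℕ → ℝ) (I l U : Finset ℕ) : ℝ :=
  if Disjoint U I then 2 ^ U.card * (σ (I ∪ (U ∩ l)) * σ (I ∪ (U \ l))) else 0

def SplitStmt : Prop :=
  ∀ (Pr : Finset ℕ) (σ : Finset ℕ → ℝ) (u u' : ℕ → ℝ),
    (∑ S ∈ Pr.powerset, σ S * ∏ p ∈ S, u p) * (∑ S ∈ Pr.powerset, σ S * ∏ p ∈ S, u' p) =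
      ∑ I ∈ Pr.powerset, (∏ p ∈ I, u p) * (∏ p ∈ I, u' p) * 𝔼 l ∈ Pr.powerset,
        ∑ U ∈ Pr.powerset, tau σ I l U * ∏ p ∈ U, (if p ∈ l then u p else u' p)

def AbsStmt : Prop :=
  ∀ (V : Type) [Fintype V] [DecidableEq V] (I : Finset ℕ) (c : ℕ → V → ℤ) (h : V → ℤ) (T : ℕ),
    (∀ p ∈ I, p.Prime) → ∏ p ∈ I, p ≤ T →
    𝔼 t ∈ cell V T, |∏ p ∈ I, (wt p (c p) (h + t) - 1)| ≤ 2 ^ I.card * 2 ^ Fintype.card V

def FrzStmt : Prop :=
  ∀ (V : Type) [Fintype V] [DecidableEq V] (r J : ℕ) (Pr I : Finset ℕ) (η M M' B κ : ℝ),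
    (∀ p ∈ Pr, p.Prime) → (∀ p ∈ I, p.Prime) → ((∏ p ∈ I, p : ℕ) : ℝ) ≤ M →
    M' ≤ M / (∏ p ∈ I, p : ℕ) - 1 → 0 < κ → KS V r J Pr η M' B →
    ∀ (A : Type) [AddCommGroup A] [Fintype A] (F : Fin r → A → ℝ) (L : Fin r → (V → ℤ) →+ A)
      (a b : V → ℤ) (σ : Finset ℕ → ℝ) (c : ℕ → V → ℤ) (D : (V → ℤ) → ℝ), (∀ i x, |F i x| ≤ 1) →
      (∀ S, |σ S| ≤ κ * η ^ S.card) → (∀ S, J < S.card → σ S = 0) →
      (∀ S, ¬ Disjoint S I → σ S = 0) → (∀ v, M ≤ (b v : ℝ) - a v) →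
      (∀ h ρ : V → ℤ, D (fun v => ((∏ p ∈ I, p : ℕ) : ℤ) * h v + ρ v) = D ρ) →
      |𝔼 x, 𝔼 h ∈ bx a b, (∏ i, F i (x + L i h)) * (D h * WS Pr σ c h)| ≤
        2 ^ Fintype.card V * κ * B * 𝔼 ρ ∈ cell V (∏ p ∈ I, p), |D ρ|

def SupStmt : Prop :=
  ∀ (V : Type) [Fintype V] [DecidableEq V] (J Q : ℕ) (Pr : Finset ℕ) (σ : Finset ℕ → ℝ)
    (c : ℕ → V → ℤ) (h : V → ℤ), 1 ≤ Q → (∀ p ∈ Pr, p.Prime ∧ p ≤ Q) → (∀ S, |σ S| ≤ 1) →
    (∀ S, J < S.card → σ S = 0) → |WS Pr σ c h| ≤ (Q : ℝ) ^ ((Fintype.card V + 1) * J)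

def Ks0Stmt : Prop :=
  ∀ (V : Type) [Fintype V] [DecidableEq V] (J Q : ℕ) (Pr : Finset ℕ) (η M : ℝ), 1 ≤ Q →
    (∀ p ∈ Pr, p.Prime ∧ p ≤ Q) → 0 ≤ η → η ≤ 1 → 0 < M →
    KS V 0 J Pr η M (1 + 2 * Fintype.card V * (Q : ℝ) ^ ((Fintype.card V + 2) * J) / M)

def Ks1Stmt : Prop :=
  ∀ (V : Type) [Fintype V] [DecidableEq V] (r J Q : ℕ) (Pr : Finset ℕ) (η M B : ℝ), 1 ≤ Q →
    (∀ p ∈ Pr, p.Prime ∧ p ≤ Q) → 0 < η → η ≤ 1 → η ^ 2 * Pr.card ≤ 1 → 2 * (Q : ℝ) ^ J ≤ M →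
    0 ≤ B → KS V r (2 * J) Pr η (M / (2 * (Q : ℝ) ^ J)) B →
    KS V (r + 1) J Pr η M (2 * Fintype.card V * (Q : ℝ) ^ ((Fintype.card V + 2) * J) / M +
      Real.sqrt (55 * 8 ^ Fintype.card V * 4 ^ J * B))

def KlSharpStmt : Prop :=
  ∀ (V : Type) [Fintype V] [DecidableEq V] (r : ℕ), ∃ (C : ℝ) (A : ℕ), 0 < C ∧
    ∀ (Pr : Finset ℕ) (Q : ℕ) (M : ℝ), (∀ p ∈ Pr, p.Prime ∧ p ≤ Q) → Pr.Nonempty →
      (2 * (Q : ℝ)) ^ A ≤ M → KL V r Pr M (C / Real.sqrt Pr.card)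

def LiftSharpStmt : Prop :=
  ∀ s L : ℕ, ∃ (C : ℝ) (A : ℕ), 0 < C ∧ ∀ (e : Fin s → ℤ) (Y K : ℝ) (Q R j : ℕ) (Pr : Finset ℕ),
    (∀ i, |e i| ≤ L) → (s : ℝ) * L + 2 ≤ Y → (∀ p ∈ Pr, p.Prime ∧ p ≤ Q) → Pr.Nonempty → 1 ≤ j →
    (1 + s * L) * Q ≤ R → (R : ℝ) + 2 ≤ K →
    ((pat (2 * R + 1)).ncard : ℝ) ^ 2 ^ (s + 1) ≤ Real.exp j →
    4 * (Q : ℝ) ^ (2 * j) * (Pr.card : ℝ) ^ j ≤ Y * K - 1 → (2 * (Q : ℝ)) ^ A ≤ K - 1 →
    |AE e Y K - 𝔼 p ∈ Pr, AE e Y (K / p)| ≤ C * Real.sqrt (j / Pr.card)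

end Pool.Agent.MP_4fffd4_nt.AN

end
end

section

/-!
The mean absolute value of a product of centred class weights.
-/

open Finset Filter
open scoped BigOperators ComplexConjugate Topology

noncomputable section

namespace Pool.Agent.MP_4fffd4_nt.AN

open Pool.Agent.MP_4fffd4_nt.SX

theorem crt_UKAbs {a b : ℤ} (h : IsCoprime a b) (c d : ℤ) :
    ∃ e : ℤ, ∀ y : ℤ, a * b ∣ y - e ↔ a ∣ y - c ∧ b ∣ y - d := by
  obtain ⟨u, v, huv⟩ := h
  have h1 : a ∣ c * (v * b) + d * (u * a) - c := ⟨(d - c) * u, by linear_combination c * huv⟩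
  have h2 : b ∣ c * (v * b) + d * (u * a) - d := ⟨(c - d) * v, by linear_combination d * huv⟩
  refine ⟨c * (v * b) + d * (u * a), fun y => ⟨fun hy => ⟨?_, ?_⟩, fun hy => ?_⟩⟩
  · simpa using dvd_add ((dvd_mul_right a b).trans hy) h1
  · simpa using dvd_add ((dvd_mul_left b a).trans hy) h2
  · refine IsCoprime.mul_dvd ⟨u, v, huv⟩ ?_ ?_
    · simpa using dvd_sub hy.1 h1
    · simpa using dvd_sub hy.2 h2

theorem nonneg_UKAbs {V : Type} [Fintype V] (p : ℕ) (c y : V → ℤ) : 0 ≤ wt p c y := by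
  unfold wt
  split_ifs
  · positivity
  · exact le_rfl

theorem prod_UKAbs {V : Type} [Fintype V] (I : Finset ℕ) (c : ℕ → V → ℤ)
    (hI : ∀ p ∈ I, p.Prime) :
    ∃ e : V → ℤ, ∀ y, ∏ p ∈ I, wt p (c p) y = wt (∏ p ∈ I, p) e y := by
  induction I using Finset.induction_on with
  | empty => exact ⟨0, fun y => by simp [wt]⟩
  | insert q I hq ih =>
    obtain ⟨e, he⟩ := ih fun p hp => hI p (mem_insert_of_mem hp)
    have hc : IsCoprime (q : ℤ) ((∏ p ∈ I, p : ℕ) : ℤ) :=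
      Nat.isCoprime_iff_coprime.2 (Nat.Coprime.prod_right fun p hp =>
        (Nat.coprime_primes (hI q (mem_insert_self _ _)) (hI p (mem_insert_of_mem hp))).2
          fun h => hq (h ▸ hp))
    choose f hf using fun v => crt_UKAbs hc (c q v) (e v)
    refine ⟨f, fun y => ?_⟩
    rw [prod_insert hq, prod_insert hq, he, wt, wt, wt, ite_zero_mul_ite_zero, Nat.cast_mul,
      Nat.cast_mul, mul_pow]
    refine if_congr ?_ rfl rfl
    simp only [hf, forall_and]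

theorem abs_stmt (hC : ClsStmt) : AbsStmt := by
  intro V _ _ I c h T hI hT
  have hcell : cell V T = bx (fun _ => -1) fun _ => (T : ℤ) - 1 := by
    ext y
    rw [mem_cell, mem_bx]
    exact forall_congr' fun v => by omega
  have h1 : ∀ J ∈ I.powerset,
      𝔼 t ∈ cell V T, ∏ p ∈ J, wt p (c p) (h + t) ≤ 2 ^ Fintype.card V := fun J hJ => by
    have hJ' := mem_powerset.1 hJ
    obtain ⟨e, he⟩ := prod_UKAbs J c fun p hp => hI p (hJ' hp)
    have hle : ∏ p ∈ J, p ≤ T :=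
      (prod_le_prod_of_subset_of_one_le' hJ' fun p hp _ => (hI p hp).one_le).trans hT
    obtain ⟨a', b', t, ht0, ht, -, hg⟩ := hC V (fun _ => -1) (fun _ => (T : ℤ) - 1) (e - h) T
      (∏ p ∈ J, p) (prod_pos fun p hp => (hI p (hJ' hp)).pos) (by exact_mod_cast hle)
      fun _ => by push_cast; linarith
    have h2 : 𝔼 _y ∈ bx a' b', (1 : ℝ) ≤ 1 := by
      rcases (bx a' b').eq_empty_or_nonempty with h0 | h0
      · rw [h0, expect_empty]
        exact zero_le_one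
      · rw [expect_const h0]
    have h3 := hg fun _ => 1
    rw [hcell]
    refine le_trans (le_of_eq (Eq.trans (expect_congr rfl fun y _ => ?_) h3))
      ((mul_le_of_le_one_right ht0 h2).trans ht)
    rw [he, mul_one, wt, wt]
    refine if_congr (forall_congr' fun v => ?_) rfl rfl
    rw [Pi.add_apply, Pi.sub_apply, show h v + y v - e v = y v - (e v - h v) by ring]
  calc _ ≤ 𝔼 t ∈ cell V T, ∑ J ∈ I.powerset, ∏ p ∈ J, wt p (c p) (h + t) := by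
        refine expect_le_expect fun y _ => ?_
        rw [← prod_add_one, abs_prod]
        refine prod_le_prod (fun _ _ => abs_nonneg _) fun p _ => ?_
        have := nonneg_UKAbs p (c p) (h + y)
        exact abs_le.2 ⟨by linarith, by linarith⟩
    _ = ∑ J ∈ I.powerset, 𝔼 t ∈ cell V T, ∏ p ∈ J, wt p (c p) (h + t) := expect_sum_comm _ _ _
    _ ≤ ∑ _J ∈ I.powerset, (2 : ℝ) ^ Fintype.card V := sum_le_sum h1
    _ = _ := by
        rw [sum_const, card_powerset, nsmul_eq_mul]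
        push_cast
        rfl

end Pool.Agent.MP_4fffd4_nt.AN

end
end

section

open Finset Filter
open scoped BigOperators ComplexConjugate Topology

noncomputable section

namespace Pool.Agent.MP_4fffd4_nt.AN

open Pool.Agent.MP_4fffd4_nt.SX

/-- The summand for a function of two sets. -/
def gg_UKSplit (f : Finset ℕ → Finset ℕ → ℝ) (I l U : Finset ℕ) : ℝ :=
  if Disjoint U I then 2 ^ U.card * f (I ∪ (U ∩ l)) (I ∪ (U \ l)) else 0

theorem step_UKSplit (f : Finset ℕ → Finset ℕ → ℝ) {a : ℕ} {I l U : Finset ℕ} (hI : a ∉ I)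
    (hl : a ∉ l) (hU : a ∉ U) :
    ((gg_UKSplit f I l U + gg_UKSplit f I l (insert a U)) +
      (gg_UKSplit f I (insert a l) U + gg_UKSplit f I (insert a l) (insert a U))) +
    ((gg_UKSplit f (insert a I) l U + gg_UKSplit f (insert a I) l (insert a U)) +
      (gg_UKSplit f (insert a I) (insert a l) U +
        gg_UKSplit f (insert a I) (insert a l) (insert a U))) =
    2 * ((gg_UKSplit f I l U + gg_UKSplit (fun S S' => f S (insert a S')) I l U) +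
      (gg_UKSplit (fun S S' => f (insert a S) S') I l U +
        gg_UKSplit (fun S S' => f (insert a S) (insert a S')) I l U)) := by
  have e1 : insert a U ∩ l = U ∩ l := insert_inter_of_notMem hl
  have e2 : insert a U \ l = insert a (U \ l) := insert_sdiff_of_notMem U hl
  have e3 : U ∩ insert a l = U ∩ l := inter_insert_of_notMem hU
  have e4 : U \ insert a l = U \ l := sdiff_insert_of_notMem hU l
  have e5 : insert a U ∩ insert a l = insert a (U ∩ l) := (insert_inter_distrib U l a).symm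
  have e6 : insert a U \ insert a l = U \ l := by rw [insert_sdiff_insert, e4]
  have d1 : Disjoint (insert a U) I ↔ Disjoint U I := by simp [hI]
  have d2 : Disjoint U (insert a I) ↔ Disjoint U I := by simp [hU]
  have d3 : ¬ Disjoint (insert a U) (insert a I) := by simp
  unfold gg_UKSplit
  simp only [e1, e2, e3, e4, e5, e6, d1, d2, if_neg d3, card_insert_of_notMem hU, union_insert,
    insert_union]
  split_ifs <;> ring

theorem key_UKSplit (Pr : Finset ℕ) : ∀ f : Finset ℕ → Finset ℕ → ℝ,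
    ∑ I ∈ Pr.powerset, ∑ l ∈ Pr.powerset, ∑ U ∈ Pr.powerset, gg_UKSplit f I l U =
      2 ^ Pr.card * ∑ S ∈ Pr.powerset, ∑ S' ∈ Pr.powerset, f S S' := by
  induction Pr using Finset.induction_on with
  | empty => intro f; simp [gg_UKSplit]
  | insert a Pr ha ih =>
    intro f
    simp only [sum_powerset_insert ha, card_insert_of_notMem ha]
    have h1 := ih f
    have h2 := ih fun S S' => f S (insert a S')
    have h3 := ih fun S S' => f (insert a S) S'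
    have h4 := ih fun S S' => f (insert a S) (insert a S')
    have h5 : ∀ S ∈ Pr.powerset, a ∉ S := fun S hS h => ha (mem_powerset.1 hS h)
    simp only [← sum_add_distrib]
    rw [sum_congr rfl fun I hI => sum_congr rfl fun l hl => sum_congr rfl fun U hU =>
      step_UKSplit f (h5 I hI) (h5 l hl) (h5 U hU)]
    simp only [← mul_sum, sum_add_distrib]
    rw [h1, h2, h3, h4]
    ring

theorem split_stmt : SplitStmt := by
  intro Pr σ u u'
  have h := key_UKSplit Pr fun S S' => (σ S * ∏ p ∈ S, u p) * (σ S' * ∏ p ∈ S', u' p)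
  have h0 : (2 : ℝ) ^ Pr.card ≠ 0 := by positivity
  rw [sum_mul_sum]
  refine mul_left_cancel₀ h0 ?_
  rw [← h, mul_sum]
  refine sum_congr rfl fun I _ => ?_
  have e : ((Pr.powerset.card : ℕ) : ℝ) = 2 ^ Pr.card := by rw [card_powerset]; push_cast; rfl
  rw [mul_left_comm, ← e, card_mul_expect, mul_sum]
  refine sum_congr rfl fun l _ => ?_
  rw [mul_sum]
  refine sum_congr rfl fun U _ => ?_
  unfold gg_UKSplit tau
  split_ifs with hd
  · have d1 : Disjoint I (U ∩ l) := (hd.mono_left inter_subset_left).symm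
    have d2 : Disjoint I (U \ l) := (hd.mono_left sdiff_subset).symm
    beta_reduce
    rw [prod_union d1, prod_union d2, prod_ite, filter_mem_eq_inter, ← sdiff_eq_filter]
    ring
  · simp

end Pool.Agent.MP_4fffd4_nt.AN

end
end

section

/-!
Sign patterns of the Liouville function, all lengths: the base with products of several primes.
-/

open Finset Filter
open scoped BigOperators ComplexConjugate Topology Pointwise

noncomputable section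

namespace Pool.Agent.MP_4fffd4_nt.AN

open Pool.Agent.MP_4fffd4_nt.SX

/-- The density of a pattern along the progressions with step h. -/
def Fv {L : ℕ} (v : Fin L → ℝ) (X : ℝ) (h : ℕ) : ℝ :=
  (∑ m ∈ Ioc ⌊X⌋ ⌊2 * X⌋, ∏ i : Fin L, (1 + v i * lam (m + (((i : ℕ) : ℤ) + 1) * h)) / 2) / X

def BDecStmt : Prop :=
  ∀ (L Q j H : ℕ) (v : Fin L → ℝ) (X : ℝ) (Pr : Finset ℕ) (c : ℕ → ℝ) (g : ℕ → ℕ),
    (∀ i, |v i| ≤ 1) → (∀ p ∈ Pr, |c p| ≤ 1) →
    (∀ p ∈ Pr, p.Prime ∧ p ≤ Q ∧ H ≤ p * g p ∧ p * g p ≤ H + Q) → Pr.Nonempty → 1 ≤ j → 2 ≤ X →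
    ((pat ((L + 1) * Q + 1)).ncard : ℝ) ^ L ≤ Real.exp j →
    2 * (Q : ℝ) ^ (2 * j) * (Pr.card : ℝ) ^ j ≤ X - 1 →
    |𝔼 p ∈ Pr, c p * (Fv v X (p * g p) - Fv (-v) (X / p) (g p))| ≤
      16 * Real.sqrt (j / Pr.card) + 8 * (Q : ℝ) ^ 2 / (X - 1)

def BStepStmt : Prop :=
  ∀ (L k₁ k₂ j H₀ : ℕ) (v : Fin L → ℝ) (S : Finset ℕ) (X ε ζ : ℝ), (∀ i, |v i| ≤ 1) →
    (∀ h ∈ S, 1 ≤ h ∧ h ≤ H₀) → 1 ≤ j → 0 ≤ ε → 0 ≤ ζ →
    (∀ k, k₁ ≤ k → k < k₂ → (prs ((2 : ℝ) ^ k)).Nonempty ∧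
      16 * Real.sqrt (j / (prs ((2 : ℝ) ^ k)).card) + 8 * ((2 : ℝ) ^ k₂) ^ 2 / (X - 1) ≤ ζ) →
    ((pat ((L + 1) * 2 ^ k₂ + 1)).ncard : ℝ) ^ L ≤ Real.exp j →
    2 * ((2 : ℝ) ^ k₂) ^ (3 * j) ≤ X - 1 →
    (∀ p ∈ Prk k₁ k₂, ∑ h ∈ S, Fv (-v) (X / p) h / h ≤ ε) →
    ∑ h ∈ S * Prk k₁ k₂, Fv v X h / h ≤ k₂ * (ε + ζ * (1 + Real.log (H₀ * 2 ^ k₂)))

def BIterStmt : Prop :=
  ∀ (L k₁ k₂ j r : ℕ) (v : Fin L → ℤ) (Z ζ : ℝ), (∀ i, v i = 1 ∨ v i = -1) → v ∉ pat L →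
    1 ≤ j → 1 ≤ k₂ → 0 ≤ ζ →
    (∀ k, k₁ ≤ k → k < k₂ → (prs ((2 : ℝ) ^ k)).Nonempty ∧
      16 * Real.sqrt (j / (prs ((2 : ℝ) ^ k)).card) + 8 * ((2 : ℝ) ^ k₂) ^ 2 / (Z - 1) ≤ ζ) →
    ((pat ((L + 1) * 2 ^ k₂ + 1)).ncard : ℝ) ^ L ≤ Real.exp j →
    2 * ((2 : ℝ) ^ k₂) ^ (3 * j) ≤ Z - 1 → ∀ X : ℝ, Z * ((2 : ℝ) ^ k₂) ^ r ≤ X →
    ∑ h ∈ Prk k₁ k₂ ^ r, Fv (fun i => (-1) ^ r * (v i : ℝ)) X h / h ≤
      r * (k₂ : ℝ) ^ r * (ζ * (1 + r * k₂))

def CountStmt : Prop :=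
  ∀ r : ℕ, 1 ≤ r → ∃ c K₁ : ℝ, 0 < c ∧ ∀ (K : ℝ) (k₁ k₂ : ℕ), K₁ ≤ K →
    ((2 : ℝ) ^ k₁) ^ (10 * r) ≤ K ^ 9 → K ^ 11 ≤ ((2 : ℝ) ^ k₂) ^ (10 * r) →
    c * K / Real.log K ≤ ((Prk k₁ k₂ ^ r).filter fun h : ℕ => K < h ∧ (h : ℝ) ≤ 2 * K).card

def SieveRStmt : Prop :=
  ∀ s D : ℕ, ∃ C K₁ : ℝ, 0 < C ∧ ∀ (K : ℝ) (Θ : Finset ℕ), K₁ ≤ K →
    (∀ h ∈ Θ, 1 ≤ h ∧ ∀ q : ℕ, q.Prime → q ∣ h → K ≤ (q : ℝ) ^ D) →
    𝔼 u : Fin s → Fin ⌊K⌋₊, 𝔼 u' : Fin s → Fin ⌊K⌋₊,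
      rr (fun d => if d.toNat ∈ Θ then 1 else 0) ⌊2 * K⌋₊ u u' ^ 2 ≤
        C * K ^ 2 / Real.log K ^ 2 ^ (s + 1)

def CoreRStmt : Prop :=
  ∀ (s : ℕ) (c C : ℝ), 1 ≤ s → 0 < c → 0 < C → ∃ δ K₁ : ℝ, 0 < δ ∧
    ∀ (v : Fin (s + 1) → ℝ) (Y K : ℝ) (Θ : Finset ℕ), K₁ ≤ K → K ≤ Y → (∀ i, |v i| = 1) →
      (∀ h ∈ Θ, 1 ≤ h ∧ (h : ℝ) ≤ 2 * K) → c * K / Real.log K ≤ Θ.card →
      𝔼 u : Fin s → Fin ⌊K⌋₊, 𝔼 u' : Fin s → Fin ⌊K⌋₊,
        rr (fun d => if d.toNat ∈ Θ then 1 else 0) ⌊2 * K⌋₊ u u' ^ 2 ≤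
          C * K ^ 2 / Real.log K ^ 2 ^ (s + 1) →
      ∑ h ∈ Θ, Fv v (Y * K) h ≤ (1 / 2) ^ (s + 3) * Θ.card →
      δ ≤ ∑ i : Fin (s + 1), AE (ee i) Y K

def BNumStmt : Prop :=
  ∀ (s A : ℕ) (c : ℝ), 4 ≤ A → 0 < c → ∃ n₀ : ℕ, ∀ (n j : ℕ) (K : ℝ), n₀ ≤ n → 1 ≤ j →
    (j : ℝ) ^ 5 ≤ (n : ℝ) ^ 2 → (n : ℝ) ^ A ≤ K → K ≤ (n : ℝ) ^ (A + 1) →
    ∃ (k₁ k₂ : ℕ) (ζ : ℝ), 1 ≤ k₂ ∧ 0 ≤ ζ ∧ ((2 : ℝ) ^ k₁) ^ (10 * (2 * A)) ≤ K ^ 9 ∧
      K ^ 11 ≤ ((2 : ℝ) ^ k₂) ^ (10 * (2 * A)) ∧ K ≤ ((2 : ℝ) ^ k₁) ^ (4 * A) ∧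
      (s + 2) * 2 ^ k₂ + 1 ≤ n ∧
      (∀ k, k₁ ≤ k → k < k₂ → (prs ((2 : ℝ) ^ k)).Nonempty ∧
        16 * Real.sqrt (j / (prs ((2 : ℝ) ^ k)).card) +
          8 * ((2 : ℝ) ^ k₂) ^ 2 / ((n : ℝ) ^ (4 * j) - 1) ≤ ζ) ∧
      ((2 * A : ℕ) : ℝ) * (k₂ : ℝ) ^ (2 * A) * (ζ * (1 + ((2 * A : ℕ) : ℝ) * k₂)) * Real.log K ≤ c

def BaseRStmt : Prop :=
  ∀ (s A : ℕ) (v : Fin (s + 1) → ℤ), 1 ≤ s → 4 ≤ A → (∀ i, v i = 1 ∨ v i = -1) → v ∉ pat (s + 1) →
    ∃ δ : ℝ, 0 < δ ∧ ∃ n₀ : ℕ, ∀ (n j : ℕ) (Y K : ℝ), n₀ ≤ n → 1 ≤ j →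
      (j : ℝ) ^ 5 ≤ (n : ℝ) ^ 2 → ((pat n).ncard : ℝ) ^ (s + 1) ≤ Real.exp j →
      (n : ℝ) ^ A ≤ K → K ≤ (n : ℝ) ^ (A + 1) → (n : ℝ) ^ (2 * A + 4 * j) ≤ Y →
      δ ≤ ∑ i : Fin (s + 1), AE (ee i) Y K

end Pool.Agent.MP_4fffd4_nt.AN

end
end

section

/-!
The Liouville function in all windows of relative length exp (- (log x) ^ a), a < 1: statements.
-/

open Finset Filter
open scoped BigOperators ComplexConjugate Topology

noncomputable section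

namespace Pool.Agent.MP_4fffd4_nt.AN

open Pool.Agent.MP_4fffd4_nt.SX

/-- The normalised sum over the window (u, u (1 + 1 / Y)]. -/
def gw (f : ℕ → ℂ) (Y u : ℝ) : ℂ :=
  ((Y / u : ℝ) : ℂ) * ∑ n ∈ Ioc ⌊u⌋₊ ⌊u * (1 + 1 / Y)⌋₊, f n

/-- Bounded functions that are multiplicative at primes. -/
def CM (f : ℕ → ℂ) : Prop :=
  (∀ n, ‖f n‖ ≤ 1) ∧ ∀ p m : ℕ, p.Prime → 1 ≤ m → f (p * m) = f p * f m

/-- The sum of the reciprocals. -/
def Lr (Pr : Finset ℕ) : ℝ := ∑ p ∈ Pr, (1 : ℝ) / p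

/-- The primes in (y, z]. -/
def pio (y z : ℝ) : Finset ℕ := (Ioc ⌊y⌋₊ ⌊z⌋₊).filter Nat.Prime

/-- The number exp (- i x). -/
def ex (x : ℝ) : ℂ := Complex.exp (-(x : ℂ) * Complex.I)

def VLipStmt : Prop :=
  ∀ (f : ℕ → ℂ) (Y u : ℝ), (∀ n, ‖f n‖ ≤ 1) → 1 ≤ Y → Y ≤ u → ‖gw f Y u‖ ≤ 2 ∧
    ∀ s : ℝ, 0 ≤ s → ‖gw f Y (u * Real.exp s) - gw f Y u‖ ≤ 5 * Y * s + 2 * Y / u

def VTkStmt : Prop :=
  ∀ (f : ℕ → ℂ) (Pr : Finset ℕ) (P Y u : ℝ), CM f → (∀ p ∈ Pr, p.Prime ∧ (p : ℝ) ≤ P) →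
    1 ≤ Lr Pr → 1 ≤ Y → Y ≤ u →
    ‖gw f Y u - ∑ p ∈ Pr, f p / (p * Lr Pr) * gw f Y (u / p)‖ ≤
      2 / Real.sqrt (Lr Pr) + 3 * P * Real.sqrt (Y / u)

def VSpecStmt : Prop :=
  ∀ (N : ℕ) [NeZero N] (G : ZMod N → ℂ) (Pr : Finset ℕ) (ν : ℕ → ℂ) (k : ℕ → ℕ) (c κ : ℝ),
    0 < c → 0 < κ → ∑ p ∈ Pr, ‖ν p‖ ≤ 1 →
    (∀ θ : ℝ, |θ| ≤ κ → c ≤ 1 - (∑ p ∈ Pr, ν p * ex (k p * θ)).re) →
    𝔼 j, ‖G j‖ ^ 2 ≤ (𝔼 j, conj (G j) * (G j - ∑ p ∈ Pr, ν p * G (j - (k p : ZMod N)))).re / c +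
      3 / κ ^ 2 * 𝔼 j, ‖G j - G (j - 1)‖ ^ 2

def VRangeStmt : Prop :=
  ∀ c ε : ℝ, 0 < c → 0 < ε → ∀ᶠ K : ℝ in atTop,
    ∀ (f : ℕ → ℂ) (Pr : Finset ℕ) (P Y u : ℝ) (N : ℕ), CM f → (∀ p ∈ Pr, p.Prime ∧ (p : ℝ) ≤ P) →
      K ≤ Lr Pr → 1 ≤ Y →
      (∀ t : ℝ, |t| ≤ K * Y → c ≤ 1 - (∑ p ∈ Pr, f p / (p * Lr Pr) * ex (t * Real.log p)).re) →
      K * P ^ 2 * Y ≤ u → K ^ 2 * Y * Real.log P ≤ N →
      𝔼 j ∈ range N, ‖gw f Y (u * Real.exp (j * (1 / (K * Y))))‖ ^ 2 ≤ ε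

def VEulStmt : Prop :=
  ∀ (q : ℕ) (χ : DirichletCharacter ℂ q) (s : ℂ), 1 < s.re →
    Summable (fun p : Nat.Primes => χ (p : ℕ) * ((p : ℕ) : ℂ) ^ (-s)) ∧
      |Real.log ‖LSeries (fun n : ℕ => χ n) s‖ -
        (∑' p : Nat.Primes, χ (p : ℕ) * ((p : ℕ) : ℂ) ^ (-s)).re| ≤ 2

def VZetStmt : Prop :=
  ∀ δ : ℝ, 0 < δ → δ ≤ 1 → Summable (fun p : Nat.Primes => ((p : ℕ) : ℝ) ^ (-(1 + δ))) ∧
    Real.log (1 / δ) - 2 ≤ ∑' p : Nat.Primes, ((p : ℕ) : ℝ) ^ (-(1 + δ)) ∧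
    ∑' p : Nat.Primes, ((p : ℕ) : ℝ) ^ (-(1 + δ)) ≤ Real.log (1 / δ) + 3

def VBtStmt : Prop :=
  ∃ C z₀ : ℝ, 0 < C ∧ 2 ≤ z₀ ∧ ∀ y z : ℝ, z₀ ≤ z → z ≤ y →
    ((pio y (y + z)).card : ℝ) ≤ C * z / Real.log z

def VChStmt : Prop := ∀ᶠ Z : ℝ in atTop, 1 / 16 ≤ Lr (pio Z (Z ^ 2))

def VBlockStmt : Prop :=
  ∃ C Z₀ : ℝ, 0 < C ∧ 1 ≤ Z₀ ∧ ∀ (g : ℝ → ℝ) (σ Z u η : ℝ), 0 < σ → σ ≤ 1 / 2 →
    (Z₀ / σ) ^ 2 ≤ Z → 0 < u → (∀ v, 0 ≤ g v) → 0 ≤ η →
    (∀ v s, u ≤ v → 0 ≤ s → s ≤ σ → g (v * Real.exp s) ≤ g v + η) →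
    ∑ p ∈ pio Z (Z ^ 2), g (u * Z ^ 2 / p) / p ≤
      C * (𝔼 j ∈ range ⌈Real.log Z / σ⌉₊, g (u * Real.exp (j * σ)) + η)

def VAllStmt : Prop :=
  ∃ C Z₀ : ℝ, 0 < C ∧ 1 ≤ Z₀ ∧ ∀ (f : ℕ → ℂ) (Y x σ Z η : ℝ) (I : ℕ), CM f → 1 ≤ Y → 0 < σ →
    σ ≤ 1 / 2 → (Z₀ / σ) ^ 2 ≤ Z → 16 ≤ I → Z ^ 2 ^ I * Y ≤ x → 0 ≤ η →
    (∀ i : ℕ, i < I → 𝔼 j ∈ range ⌈Real.log (Z ^ 2 ^ i) / σ⌉₊,
      ‖gw f Y (x / Z ^ 2 ^ (i + 1) * Real.exp (j * σ))‖ ^ 2 ≤ η ^ 2) →
    ‖gw f Y x‖ ≤ 8 / Real.sqrt I + 3 * Z ^ 2 ^ I * Real.sqrt (Y / x) +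
      C * (η + 5 * Y * σ + 2 * Y * Z ^ 2 ^ I / x)

end Pool.Agent.MP_4fffd4_nt.AN

end
end

section

open Finset Filter
open scoped BigOperators ComplexConjugate Topology
noncomputable section
namespace Pool.Agent.MP_4fffd4_nt.AN
open Pool.Agent.MP_4fffd4_nt.SX

theorem split_VAll {y w z : ℝ} (h1 : y ≤ w) (h2 : w ≤ z) (F : ℕ → ℝ) :
    ∑ p ∈ pio y z, F p = ∑ p ∈ pio y w, F p + ∑ p ∈ pio w z, F p := by
  simp only [pio, sum_filter]
  exact (sum_Ioc_consecutive _ (Nat.floor_le_floor h1) (Nat.floor_le_floor h2)).symm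

theorem sq_VAll (Z : ℝ) (i : ℕ) : (Z ^ 2 ^ i) ^ 2 = Z ^ 2 ^ (i + 1) := by
  rw [← pow_mul, pow_succ]

theorem mono_VAll {Z : ℝ} (hZ : 1 ≤ Z) {i j : ℕ} (h : i ≤ j) : Z ^ 2 ^ i ≤ Z ^ 2 ^ j :=
  pow_le_pow_right₀ hZ (Nat.pow_le_pow_right two_pos h)

theorem self_VAll {Z : ℝ} (hZ : 1 ≤ Z) (i : ℕ) : Z ≤ Z ^ 2 ^ i := by
  simpa using mono_VAll hZ (Nat.zero_le i)

theorem blocks_VAll {Z : ℝ} (hZ : 1 ≤ Z) (F : ℕ → ℝ) (I : ℕ) :
    ∑ p ∈ pio Z (Z ^ 2 ^ I), F p =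
      ∑ i ∈ range I, ∑ p ∈ pio (Z ^ 2 ^ i) ((Z ^ 2 ^ i) ^ 2), F p := by
  induction I with
  | zero => simp [pio]
  | succ I ih =>
    rw [sum_range_succ, ← ih, sq_VAll]
    exact split_VAll (self_VAll hZ I) (mono_VAll hZ I.le_succ) F

theorem mean_VAll (s : Finset ℕ) (g : ℕ → ℝ) {η : ℝ} (hη : 0 ≤ η)
    (h : 𝔼 j ∈ s, g j ^ 2 ≤ η ^ 2) : 𝔼 j ∈ s, g j ≤ η := by
  refine le_of_sq_le_sq (le_trans ?_ h) hη
  rcases s.eq_empty_or_nonempty with rfl | hs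
  · simp
  · simpa [expect_const hs] using expect_mul_sq_le_sq_mul_sq s g fun _ => (1 : ℝ)

theorem vAll_stmt (h1 : VLipStmt) (h2 : VTkStmt) (h3 : VChStmt) (h4 : VBlockStmt) : VAllStmt := by
  obtain ⟨C, Z₁, hC, hZ₁, h4⟩ := h4
  obtain ⟨Z₂, h3⟩ := eventually_atTop.1 h3
  refine ⟨16 * C, max Z₁ Z₂, by positivity, le_max_of_le_left hZ₁, ?_⟩
  intro f Y x σ Z η I hf hY hσ hσ' hZ hI hx hη hm
  have m1 := le_max_left Z₁ Z₂
  have m2 := le_max_right Z₁ Z₂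
  have z1 : max Z₁ Z₂ ≤ max Z₁ Z₂ / σ := by
    rw [le_div_iff₀ hσ]
    nlinarith
  have z2 : max Z₁ Z₂ ≤ Z := by nlinarith
  have z3 : 1 ≤ Z := by linarith
  have z4 : (Z₁ / σ) ^ 2 ≤ Z :=
    (pow_le_pow_left₀ (by positivity) (div_le_div_of_nonneg_right m1 hσ.le) 2).trans hZ
  have P1 : 1 ≤ Z ^ 2 ^ I := z3.trans (self_VAll z3 I)
  have xY : Y ≤ x := by nlinarith
  have x0 : 0 < x := by linarith
  have hI' : (16 : ℝ) ≤ I := by exact_mod_cast hI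
  have hL : (I : ℝ) / 16 ≤ Lr (pio Z (Z ^ 2 ^ I)) := by
    rw [Lr, blocks_VAll z3]
    refine le_trans (le_of_eq ?_) (sum_le_sum fun i _ =>
      h3 (Z ^ 2 ^ i) ((m2.trans z2).trans (self_VAll z3 i)))
    rw [sum_const, card_range, nsmul_eq_mul]
    ring
  have hT := h2 f (pio Z (Z ^ 2 ^ I)) (Z ^ 2 ^ I) Y x hf (fun p hp => by
    obtain ⟨a, b⟩ := mem_filter.1 hp
    exact ⟨b, (Nat.le_floor_iff (by linarith)).1 (mem_Ioc.1 a).2⟩) (by linarith) hY xY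
  have hB : ∑ p ∈ pio Z (Z ^ 2 ^ I), ‖gw f Y (x / p)‖ / p ≤
      I * (C * (η + (5 * Y * σ + 2 * Y * Z ^ 2 ^ I / x))) := by
    rw [blocks_VAll z3]
    refine (sum_le_card_nsmul _ _ _ fun i hi => ?_).trans
      (le_of_eq (by rw [card_range, nsmul_eq_mul]))
    have hi' := mem_range.1 hi
    have p0 : 0 < Z ^ 2 ^ (i + 1) := by positivity
    have u1 : x / Z ^ 2 ^ I ≤ x / Z ^ 2 ^ (i + 1) :=
      div_le_div_of_nonneg_left x0.le p0 (mono_VAll z3 hi')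
    have u2 : Y ≤ x / Z ^ 2 ^ I := by
      rw [le_div_iff₀ (by linarith)]
      linarith
    have b := h4 (fun v => ‖gw f Y v‖) σ (Z ^ 2 ^ i) (x / Z ^ 2 ^ (i + 1))
      (5 * Y * σ + 2 * Y * Z ^ 2 ^ I / x) hσ hσ' (z4.trans (self_VAll z3 i)) (by positivity)
      (fun _ => norm_nonneg _) (by positivity) (by
        intro v s hv hs hs'
        have c1 := (h1 f Y v hf.1 hY (by linarith)).2 s hs
        have c2 := norm_le_norm_add_norm_sub' (gw f Y (v * Real.exp s)) (gw f Y v)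
        have c3 : 5 * Y * s ≤ 5 * Y * σ := mul_le_mul_of_nonneg_left hs' (by linarith)
        have c4 : 2 * Y / v ≤ 2 * Y / (x / Z ^ 2 ^ I) :=
          div_le_div_of_nonneg_left (by linarith) (by linarith) (u1.trans hv)
        rw [div_div_eq_mul_div] at c4
        linarith)
    have e : x / Z ^ 2 ^ (i + 1) * (Z ^ 2 ^ i) ^ 2 = x := by
      rw [sq_VAll, div_mul_cancel₀ _ p0.ne']
    rw [e] at b
    refine b.trans (mul_le_mul_of_nonneg_left ?_ hC.le)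
    exact add_le_add_left (mean_VAll _ _ hη (hm i hi')) _
  generalize hLe : Lr (pio Z (Z ^ 2 ^ I)) = L at hL hT
  have L0 : 0 < L := by linarith
  have hS : ‖∑ p ∈ pio Z (Z ^ 2 ^ I), f p / (p * L) * gw f Y (x / p)‖ ≤
      (∑ p ∈ pio Z (Z ^ 2 ^ I), ‖gw f Y (x / p)‖ / p) / L := by
    rw [sum_div]
    refine norm_sum_le_of_le _ fun p _ => ?_
    rw [norm_mul, norm_div, norm_mul, Complex.norm_natCast, Complex.norm_real,
      Real.norm_of_nonneg L0.le, div_div, div_mul_eq_mul_div]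
    exact div_le_div_of_nonneg_right (mul_le_of_le_one_left (norm_nonneg _) (hf.1 p))
      (by positivity)
  have k0 : 0 ≤ C * (η + (5 * Y * σ + 2 * Y * Z ^ 2 ^ I / x)) := by positivity
  have hS' : (∑ p ∈ pio Z (Z ^ 2 ^ I), ‖gw f Y (x / p)‖ / p) / L ≤
      16 * (C * (η + (5 * Y * σ + 2 * Y * Z ^ 2 ^ I / x))) := by
    rw [div_le_iff₀ L0]
    refine hB.trans ?_
    nlinarith [mul_le_mul_of_nonneg_right hL k0]
  have hq : 2 / Real.sqrt L ≤ 8 / Real.sqrt I := by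
    have a : Real.sqrt I ≤ 4 * Real.sqrt L := by
      rw [Real.sqrt_le_left (by positivity), mul_pow, Real.sq_sqrt L0.le]
      linarith
    rw [div_le_div_iff₀ (Real.sqrt_pos.2 L0) (Real.sqrt_pos.2 (by linarith))]
    linarith
  have c := norm_le_norm_add_norm_sub' (gw f Y x)
    (∑ p ∈ pio Z (Z ^ 2 ^ I), f p / (p * L) * gw f Y (x / p))
  linarith

end Pool.Agent.MP_4fffd4_nt.AN

end
end

section

/-!
The sum over the primes in (Z, Z ^ 2] of a slowly varying function, cut into short blocks.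
-/

open Finset Filter
open scoped BigOperators ComplexConjugate Topology

noncomputable section

namespace Pool.Agent.MP_4fffd4_nt.AN

open Pool.Agent.MP_4fffd4_nt.SX

lemma mem_pio_VBlock {y w : ℝ} (hy : 0 ≤ y) (hw : 0 ≤ w) {p : ℕ} :
    p ∈ pio y w ↔ p.Prime ∧ y < p ∧ (p : ℝ) ≤ w := by
  unfold pio
  rw [mem_filter, mem_Ioc, Nat.floor_lt hy, Nat.le_floor_iff hw]
  tauto

/-- One block. -/
lemma fibre_VBlock {C0 z0 : ℝ} (hC : 0 < C0) (hz0 : 2 ≤ z0)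
    (hB : ∀ y z : ℝ, z0 ≤ z → z ≤ y → ((pio y (y + z)).card : ℝ) ≤ C0 * z / Real.log z)
    {σ Z : ℝ} (hσ : 0 < σ) (hσ2 : σ ≤ 1 / 2) (hZ : (2 * z0 / σ) ^ 2 ≤ Z) (hZ1 : 1 < Z)
    (j : ℕ) (hj : (j : ℝ) * σ < Real.log Z) (S : Finset ℕ)
    (hS : ∀ p ∈ S, p.Prime ∧ (j : ℝ) * σ ≤ Real.log (Z ^ 2 / p) ∧
      Real.log (Z ^ 2 / p) < (j + 1) * σ) :
    ∑ p ∈ S, (1 : ℝ) / p ≤ 4 * C0 * σ / Real.log Z := by
  have hZ0 : 0 < Z := by linarith
  have hL : 0 < Real.log Z := Real.log_pos hZ1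
  set y : ℝ := Z ^ 2 * Real.exp (-((j + 1) * σ)) with hy
  set z : ℝ := y * (Real.exp σ - 1) with hz
  have hy0 : 0 < y := by positivity
  have he1 : σ ≤ Real.exp σ - 1 := by linarith [Real.add_one_le_exp σ]
  have he2 : Real.exp σ - 1 ≤ 2 * σ := by
    have h1 : |σ| ≤ 1 := by rw [abs_of_pos hσ]; linarith
    have h2 := Real.abs_exp_sub_one_le h1
    rw [abs_of_pos hσ] at h2
    exact le_trans (le_abs_self _) h2
  have hyZ : Z / 2 ≤ y := by
    have h1 : Real.exp (-((j + 1) * σ)) = Real.exp (-(j * σ)) * Real.exp (-σ) := by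
      rw [← Real.exp_add]; congr 1; ring
    have h2 : Z⁻¹ ≤ Real.exp (-(j * σ)) := by
      have : Z⁻¹ = Real.exp (-Real.log Z) := by rw [Real.exp_neg, Real.exp_log hZ0]
      rw [this]
      exact Real.exp_le_exp.2 (by linarith)
    have h3 : 1 / 2 ≤ Real.exp (-σ) := by linarith [Real.add_one_le_exp (-σ)]
    have h4 : Z⁻¹ * (1 / 2) ≤ Real.exp (-(j * σ)) * Real.exp (-σ) :=
      mul_le_mul h2 h3 (by norm_num) (Real.exp_pos _).le
    have h5 : Z / 2 = Z ^ 2 * (Z⁻¹ * (1 / 2)) := by field_simp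
    rw [hy, h1, h5]
    exact mul_le_mul_of_nonneg_left h4 (by positivity)
  have hsq : 2 * z0 / σ ≤ Real.sqrt Z := Real.le_sqrt_of_sq_le hZ
  have hsq' : 2 * z0 ≤ σ * Real.sqrt Z := by
    rw [div_le_iff₀ hσ] at hsq; linarith
  have hs1 : 1 ≤ Real.sqrt Z := by
    rw [Real.le_sqrt (by norm_num) hZ0.le]; linarith
  have hss : Real.sqrt Z * Real.sqrt Z = Z := Real.mul_self_sqrt hZ0.le
  have hzlo : z0 * Real.sqrt Z ≤ z := by
    have h1 : σ * (Z / 2) ≤ z := by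
      rw [hz, mul_comm y]
      exact mul_le_mul he1 hyZ (by positivity) (by linarith)
    have h2 : 2 * z0 * Real.sqrt Z ≤ σ * Real.sqrt Z * Real.sqrt Z :=
      mul_le_mul_of_nonneg_right hsq' (by linarith)
    have h3 : σ * Real.sqrt Z * Real.sqrt Z = σ * Z := by rw [mul_assoc, hss]
    linarith
  have hzz0 : z0 ≤ z := by nlinarith
  have hzs : Real.sqrt Z ≤ z := by nlinarith
  have hzup : z ≤ 2 * σ * y := by
    rw [hz, mul_comm y]
    exact mul_le_mul_of_nonneg_right he2 hy0.le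
  have hzy : z ≤ y := by nlinarith
  have hlog : Real.log Z / 2 ≤ Real.log z := by
    rw [← Real.log_sqrt hZ0.le]
    exact Real.log_le_log (by linarith) hzs
  have hyz : y + z = Z ^ 2 * Real.exp (-(j * σ)) := by
    have h1 : Real.exp (-(j * σ)) = Real.exp (-((j + 1) * σ)) * Real.exp σ := by
      rw [← Real.exp_add]; congr 1; ring
    rw [hz, h1, hy]; ring
  have hsub : ∀ p ∈ S, p ∈ pio y (y + z) ∧ y < p := by
    intro p hp
    obtain ⟨hpp, h1, h2⟩ := hS p hp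
    have hp0 : (0 : ℝ) < p := by exact_mod_cast hpp.pos
    have hq : 0 < Z ^ 2 / p := by positivity
    have hyp : y < p := by
      have h3 : Z ^ 2 / p < Real.exp ((j + 1) * σ) := by
        rw [← Real.exp_log hq]; exact Real.exp_lt_exp.2 h2
      rw [div_lt_iff₀ hp0] at h3
      rw [hy, Real.exp_neg, ← div_eq_mul_inv, div_lt_iff₀ (Real.exp_pos _)]
      linarith
    have hpw : (p : ℝ) ≤ y + z := by
      have h3 : Real.exp (j * σ) ≤ Z ^ 2 / p := by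
        rw [← Real.exp_log hq]; exact Real.exp_le_exp.2 h1
      rw [le_div_iff₀ hp0] at h3
      rw [hyz, Real.exp_neg, ← div_eq_mul_inv, le_div_iff₀ (Real.exp_pos _)]
      linarith
    exact ⟨(mem_pio_VBlock hy0.le (by linarith)).2 ⟨hpp, hyp, hpw⟩, hyp⟩
  have hcard : (S.card : ℝ) ≤ C0 * z / Real.log z := by
    refine le_trans ?_ (hB y z hzz0 hzy)
    exact_mod_cast card_le_card fun p hp => (hsub p hp).1
  have hsum : ∑ p ∈ S, (1 : ℝ) / p ≤ S.card * (1 / y) := by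
    have := sum_le_card_nsmul S (fun p : ℕ => (1 : ℝ) / p) (1 / y) fun p hp =>
      one_div_le_one_div_of_le hy0 (hsub p hp).2.le
    simpa [nsmul_eq_mul] using this
  have hlz : 0 < Real.log z := by linarith
  calc ∑ p ∈ S, (1 : ℝ) / p ≤ S.card * (1 / y) := hsum
    _ ≤ C0 * z / Real.log z * (1 / y) :=
        mul_le_mul_of_nonneg_right hcard (by positivity)
    _ ≤ C0 * (2 * σ * y) / (Real.log Z / 2) * (1 / y) := by
        refine mul_le_mul_of_nonneg_right ?_ (by positivity)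
        exact div_le_div₀ (by positivity) (mul_le_mul_of_nonneg_left hzup hC.le)
          (by positivity) hlog
    _ = 4 * C0 * σ / Real.log Z := by field_simp; ring

theorem vBlock_stmt (h : VBtStmt) : VBlockStmt := by
  obtain ⟨C0, z0, hC, hz0, hB⟩ := h
  refine ⟨8 * C0, 2 * z0, by positivity, by linarith, ?_⟩
  intro g σ Z u η hσ hσ2 hZ hu hg hη hlip
  have h8 : 8 ≤ 2 * z0 / σ := by
    rw [le_div_iff₀ hσ]; linarith
  have hZ64 : 64 ≤ Z := by nlinarith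
  have hZ0 : 0 < Z := by linarith
  have hZ1 : 1 < Z := by linarith
  have hL1 : 1 ≤ Real.log Z := by
    rw [Real.le_log_iff_exp_le hZ0]
    have := Real.exp_one_lt_d9
    linarith
  have hL : 0 < Real.log Z := by linarith
  set N : ℕ := ⌈Real.log Z / σ⌉₊ with hN
  have hN1 : (N : ℝ) < Real.log Z / σ + 1 := Nat.ceil_lt_add_one (by positivity)
  have hN0 : 0 < N := Nat.ceil_pos.2 (by positivity)
  have hNσ : (N : ℝ) * σ ≤ 2 * Real.log Z := by
    have h1 : (N : ℝ) * σ ≤ (Real.log Z / σ + 1) * σ := mul_le_mul_of_nonneg_right hN1.le hσ.le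
    have h2 : (Real.log Z / σ + 1) * σ = Real.log Z + σ := by field_simp
    linarith
  set J : ℕ → ℕ := fun p => ⌊Real.log (Z ^ 2 / p) / σ⌋₊ with hJ
  have hmem : ∀ p ∈ pio Z (Z ^ 2), p.Prime ∧ 0 ≤ Real.log (Z ^ 2 / p) ∧
      Real.log (Z ^ 2 / p) < Real.log Z := by
    intro p hp
    obtain ⟨hpp, h1, h2⟩ := (mem_pio_VBlock hZ0.le (by positivity)).1 hp
    have hp0 : (0 : ℝ) < p := by exact_mod_cast hpp.pos
    refine ⟨hpp, Real.log_nonneg ((one_le_div hp0).2 h2), Real.log_lt_log (by positivity) ?_⟩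
    rw [div_lt_iff₀ hp0]; nlinarith
  have hJb : ∀ p ∈ pio Z (Z ^ 2), (J p : ℝ) * σ ≤ Real.log (Z ^ 2 / p) ∧
      Real.log (Z ^ 2 / p) < (J p + 1) * σ := by
    intro p hp
    obtain ⟨_, h1, _⟩ := hmem p hp
    have h3 : (J p : ℝ) ≤ Real.log (Z ^ 2 / p) / σ := Nat.floor_le (by positivity)
    have h4 : Real.log (Z ^ 2 / p) / σ < J p + 1 := Nat.lt_floor_add_one _
    exact ⟨(le_div_iff₀ hσ).1 h3, (div_lt_iff₀ hσ).1 h4⟩
  have hmaps : ∀ p ∈ pio Z (Z ^ 2), J p ∈ range N := by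
    intro p hp
    rw [mem_range, hN, Nat.lt_ceil, lt_div_iff₀ hσ]
    exact lt_of_le_of_lt (hJb p hp).1 (hmem p hp).2.2
  have hpt : ∀ p ∈ pio Z (Z ^ 2),
      g (u * Z ^ 2 / p) / p ≤ (g (u * Real.exp (J p * σ)) + η) * (1 / p) := by
    intro p hp
    obtain ⟨hpp, _, _⟩ := hmem p hp
    obtain ⟨h1, h2⟩ := hJb p hp
    have hp0 : (0 : ℝ) < p := by exact_mod_cast hpp.pos
    have hq : 0 < Z ^ 2 / p := by positivity
    have he : u * Z ^ 2 / p =
        u * Real.exp (J p * σ) * Real.exp (Real.log (Z ^ 2 / p) - J p * σ) := by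
      rw [mul_assoc, ← Real.exp_add, add_sub_cancel, Real.exp_log hq, mul_div_assoc]
    have hv : u ≤ u * Real.exp (J p * σ) :=
      le_mul_of_one_le_right hu.le (Real.one_le_exp (by positivity))
    have h3 := hlip _ (Real.log (Z ^ 2 / p) - J p * σ) hv (by linarith) (by linarith)
    rw [← he] at h3
    rw [div_eq_mul_one_div]
    exact mul_le_mul_of_nonneg_right h3 (by positivity)
  have hfib : ∀ j ∈ range N, ∑ p ∈ (pio Z (Z ^ 2)).filter (fun p => J p = j),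
      (g (u * Real.exp (J p * σ)) + η) * (1 / (p : ℝ)) ≤
      (g (u * Real.exp (j * σ)) + η) * (4 * C0 * σ / Real.log Z) := by
    intro j hj
    have hj' : (j : ℝ) * σ < Real.log Z := by
      rw [mem_range, hN, Nat.lt_ceil, lt_div_iff₀ hσ] at hj
      exact hj
    have h1 : ∑ p ∈ (pio Z (Z ^ 2)).filter (fun p => J p = j),
        (g (u * Real.exp (J p * σ)) + η) * (1 / (p : ℝ)) =
        (g (u * Real.exp (j * σ)) + η) *
          ∑ p ∈ (pio Z (Z ^ 2)).filter (fun p => J p = j), (1 / (p : ℝ)) := by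
      rw [mul_sum]
      refine sum_congr rfl fun p hp => ?_
      rw [(mem_filter.1 hp).2]
    rw [h1]
    refine mul_le_mul_of_nonneg_left ?_ (add_nonneg (hg _) hη)
    refine fibre_VBlock hC hz0 hB hσ hσ2 hZ hZ1 j hj' _ fun p hp => ?_
    obtain ⟨hp1, hp2⟩ := mem_filter.1 hp
    have h2 := hJb p hp1
    rw [hp2] at h2
    exact ⟨(hmem p hp1).1, h2.1, h2.2⟩
  set E : ℝ := 𝔼 j ∈ range N, g (u * Real.exp (j * σ)) with hE
  have hNpos : (0 : ℝ) < N := by exact_mod_cast hN0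
  have hEs : ∑ j ∈ range N, g (u * Real.exp (j * σ)) = N * E := by
    rw [hE, expect_eq_sum_div_card, card_range, mul_div_cancel₀ _ hNpos.ne']
  have hE0 : 0 ≤ E := expect_nonneg fun j _ => hg _
  calc ∑ p ∈ pio Z (Z ^ 2), g (u * Z ^ 2 / p) / p
      ≤ ∑ p ∈ pio Z (Z ^ 2), (g (u * Real.exp (J p * σ)) + η) * (1 / (p : ℝ)) := sum_le_sum hpt
    _ = ∑ j ∈ range N, ∑ p ∈ (pio Z (Z ^ 2)).filter (fun p => J p = j),
          (g (u * Real.exp (J p * σ)) + η) * (1 / (p : ℝ)) :=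
        (sum_fiberwise_of_maps_to hmaps _).symm
    _ ≤ ∑ j ∈ range N, (g (u * Real.exp (j * σ)) + η) * (4 * C0 * σ / Real.log Z) :=
        sum_le_sum hfib
    _ = (E + η) * (4 * C0 * ((N * σ) / Real.log Z)) := by
        rw [← sum_mul, sum_add_distrib, hEs, sum_const, card_range, nsmul_eq_mul]
        ring
    _ ≤ (E + η) * (4 * C0 * 2) := by
        refine mul_le_mul_of_nonneg_left ?_ (add_nonneg hE0 hη)
        refine mul_le_mul_of_nonneg_left ?_ (by positivity)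
        rw [div_le_iff₀ hL]
        exact hNσ
    _ = 8 * C0 * (E + η) := by ring

end Pool.Agent.MP_4fffd4_nt.AN

end
end

section

open Finset Filter
open scoped BigOperators ComplexConjugate Topology

noncomputable section

namespace Pool.Agent.MP_4fffd4_nt.AN

open Pool.Agent.MP_4fffd4_nt.SX

theorem card_VLipTk {w v : ℝ} (h0 : 0 ≤ w) (h : w ≤ v) :
    ((⌊v⌋₊ - ⌊w⌋₊ : ℕ) : ℝ) ≤ v - w + 1 := by
  rw [Nat.cast_sub (Nat.floor_mono h)]
  linarith [Nat.floor_le (h0.trans h), Nat.lt_floor_add_one w]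

theorem norm_VLipTk {f : ℕ → ℂ} (hf : ∀ n, ‖f n‖ ≤ 1) {w v : ℝ} (h0 : 0 ≤ w) (h : w ≤ v) :
    ‖∑ n ∈ Ioc ⌊w⌋₊ ⌊v⌋₊, f n‖ ≤ v - w + 1 := by
  refine (norm_sum_le _ _).trans ((sum_le_card_nsmul _ _ 1 fun n _ => hf n).trans ?_)
  rw [Nat.card_Ioc, nsmul_eq_mul, mul_one]
  exact card_VLipTk h0 h

theorem vLip_stmt : VLipStmt := by
  intro f Y u hf hY hu
  have Y0 : 0 < Y := by linarith
  have u0 : 0 < u := by linarith
  have c0 : 0 < 1 / Y := by positivity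
  have c1 : 1 / Y ≤ 1 := (div_le_one Y0).2 hY
  have r0 : 0 < Y / u := by positivity
  have r1 : Y / u ≤ 1 := (div_le_one u0).2 hu
  have le : ∀ w : ℝ, 0 ≤ w → w ≤ w * (1 + 1 / Y) := fun w hw => by nlinarith
  have hw := norm_VLipTk hf u0.le (le u u0.le)
  have e1 : Y / u * (u * (1 + 1 / Y) - u + 1) = 1 + Y / u := by field_simp; ring
  have h1 : Y / u * ‖∑ n ∈ Ioc ⌊u⌋₊ ⌊u * (1 + 1 / Y)⌋₊, f n‖ ≤ 2 := by
    linarith [mul_le_mul_of_nonneg_left hw r0.le]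
  refine ⟨?_, fun s hs => ?_⟩
  · rwa [gw, norm_mul, Complex.norm_real, Real.norm_of_nonneg r0.le]
  obtain ⟨v, hv⟩ : ∃ v, v = u * Real.exp s := ⟨_, rfl⟩
  have uv : u ≤ v := by rw [hv]; nlinarith [Real.one_le_exp hs]
  have v0 : 0 < v := by linarith
  have hd : (v - u) / v ≤ s := by
    have g1 : u = v * Real.exp (-s) := by rw [hv, mul_assoc, ← Real.exp_add]; simp
    have g2 := mul_le_mul_of_nonneg_left (Real.add_one_le_exp (-s)) v0.le
    rw [div_le_iff₀ v0]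
    linarith
  have hd0 : 0 ≤ (v - u) / v := div_nonneg (by linarith) v0.le
  have uv' : u * (1 + 1 / Y) ≤ v * (1 + 1 / Y) := by nlinarith
  have s1 := sum_Ioc_consecutive f (Nat.floor_mono (le u u0.le)) (Nat.floor_mono uv')
  have s2 := sum_Ioc_consecutive f (Nat.floor_mono uv) (Nat.floor_mono (le v v0.le))
  have n1 := norm_VLipTk hf (u0.le.trans (le u u0.le)) uv'
  have n2 := norm_VLipTk hf u0.le uv
  rw [← hv]
  have e2 : gw f Y v - gw f Y u =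
      ((Y / v : ℝ) : ℂ) * (∑ n ∈ Ioc ⌊u * (1 + 1 / Y)⌋₊ ⌊v * (1 + 1 / Y)⌋₊, f n -
        ∑ n ∈ Ioc ⌊u⌋₊ ⌊v⌋₊, f n) -
      (((v - u) / v * (Y / u) : ℝ) : ℂ) * ∑ n ∈ Ioc ⌊u⌋₊ ⌊u * (1 + 1 / Y)⌋₊, f n := by
    have e3 : (v - u) / v * (Y / u) = Y / u - Y / v := by field_simp
    rw [e3, gw, gw, Complex.ofReal_sub]
    linear_combination ((Y / v : ℝ) : ℂ) * (s2 - s1)
  rw [e2]
  refine (norm_sub_le _ _).trans ?_
  rw [norm_mul, norm_mul, Complex.norm_real, Complex.norm_real,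
    Real.norm_of_nonneg (by positivity), Real.norm_of_nonneg (by positivity), mul_assoc]
  have n3 : ‖∑ n ∈ Ioc ⌊u * (1 + 1 / Y)⌋₊ ⌊v * (1 + 1 / Y)⌋₊, f n - ∑ n ∈ Ioc ⌊u⌋₊ ⌊v⌋₊, f n‖ ≤
      3 * (v - u) + 2 := by
    refine (norm_sub_le _ _).trans ?_
    nlinarith
  have k1 := mul_le_mul_of_nonneg_left n3 (show 0 ≤ Y / v by positivity)
  have k2 : Y / v * (3 * (v - u) + 2) = 3 * Y * ((v - u) / v) + 2 * Y / v := by field_simp
  have k3 := mul_le_mul_of_nonneg_left h1 hd0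
  have k4 : 2 * Y / v ≤ 2 * Y / u := by gcongr
  have k5 := mul_le_mul_of_nonneg_left hd Y0.le
  have k6 := mul_le_mul_of_nonneg_right hY hs
  linarith

theorem mult_VLipTk (g : ℕ → ℂ) (a b : ℕ) {p : ℕ} (hp : 0 < p) :
    ∑ m ∈ Ioc (a / p) (b / p), g (p * m) = ∑ n ∈ Ioc a b, if p ∣ n then g n else 0 := by
  rw [← sum_filter]
  refine sum_bij (fun m _ => p * m) (fun m hm => ?_) (fun m _ m' _ h => ?_) (fun n hn => ?_)
    fun _ _ => rfl
  · obtain ⟨h1, h2⟩ := mem_Ioc.1 hm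
    rw [Nat.div_lt_iff_lt_mul hp] at h1
    rw [Nat.le_div_iff_mul_le hp] at h2
    exact mem_filter.2 ⟨mem_Ioc.2 ⟨by rwa [mul_comm], by rwa [mul_comm]⟩, dvd_mul_right _ _⟩
  · exact Nat.eq_of_mul_eq_mul_left hp h
  · obtain ⟨h1, m, rfl⟩ := mem_filter.1 hn
    obtain ⟨h1, h2⟩ := mem_Ioc.1 h1
    exact ⟨m, mem_Ioc.2 ⟨(Nat.div_lt_iff_lt_mul hp).2 (by rwa [mul_comm]),
      (Nat.le_div_iff_mul_le hp).2 (by rwa [mul_comm])⟩, rfl⟩

theorem vTk_stmt : VTkStmt := by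
  intro f Pr P Y u hf hP hL hY hu
  have Y0 : 0 < Y := by linarith
  have u0 : 0 < u := by linarith
  have L0 : 0 < Lr Pr := by linarith
  have r0 : 0 < Y / u := by positivity
  have r1 : Y / u ≤ 1 := (div_le_one u0).2 hu
  have le : u ≤ u * (1 + 1 / Y) := by
    have : 0 < 1 / Y := by positivity
    nlinarith
  have hab := Nat.floor_mono le
  have hN := card_VLipTk u0.le le
  have e0 : ∀ p ∈ Pr, f p / (p * Lr Pr) * gw f Y (u / p) = ((Y / u / Lr Pr : ℝ) : ℂ) *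
      ∑ n ∈ Ioc ⌊u⌋₊ ⌊u * (1 + 1 / Y)⌋₊, if p ∣ n then f n else 0 := by
    intro p hp
    have p0 := (hP p hp).1.pos
    have p1 : (p : ℂ) ≠ 0 := by exact_mod_cast p0.ne'
    have u1 : (u : ℂ) ≠ 0 := by exact_mod_cast u0.ne'
    have l1 : (Lr Pr : ℂ) ≠ 0 := by exact_mod_cast L0.ne'
    rw [gw, div_mul_eq_mul_div u, Nat.floor_div_natCast, Nat.floor_div_natCast,
      ← mult_VLipTk f _ _ p0, sum_congr rfl fun m hm => hf.2 p m (hP p hp).1
        (Nat.succ_le_of_lt ((Nat.zero_le _).trans_lt (mem_Ioc.1 hm).1)), ← mul_sum]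
    push_cast
    field_simp
  have e1 : gw f Y u - ∑ p ∈ Pr, f p / (p * Lr Pr) * gw f Y (u / p) =
      ((Y / u / Lr Pr : ℝ) : ℂ) * ∑ n ∈ Ioc ⌊u⌋₊ ⌊u * (1 + 1 / Y)⌋₊,
        -(f n * ((∑ p ∈ Pr, (if p ∣ n then (1 : ℝ) else 0) - Lr Pr : ℝ) : ℂ)) := by
    have l1 : (Lr Pr : ℂ) ≠ 0 := by exact_mod_cast L0.ne'
    have e2 : ((Y / u : ℝ) : ℂ) = ((Y / u / Lr Pr : ℝ) : ℂ) * (Lr Pr : ℂ) := by
      rw [← Complex.ofReal_mul, div_mul_cancel₀ _ L0.ne']
    rw [sum_congr rfl e0, ← mul_sum, sum_comm, gw, e2, mul_assoc, ← mul_sub, mul_sum,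
      ← sum_sub_distrib]
    congr 1
    refine sum_congr rfl fun n _ => ?_
    rw [Complex.ofReal_sub, Complex.ofReal_sum, mul_sub, mul_sum, neg_sub, mul_comm]
    congr 1
    refine sum_congr rfl fun p _ => ?_
    split_ifs <;> simp
  have hc : (Pr.card : ℝ) ≤ P := by
    obtain ⟨p, hp⟩ : Pr.Nonempty := nonempty_of_sum_ne_zero L0.ne'
    have P0 : 0 ≤ P := (Nat.cast_nonneg p).trans (hP p hp).2
    have : Pr ⊆ Ioc 0 ⌊P⌋₊ := fun q hq => mem_Ioc.2 ⟨(hP q hq).1.pos, Nat.le_floor (hP q hq).2⟩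
    have := card_le_card this
    rw [Nat.card_Ioc, Nat.sub_zero] at this
    exact (Nat.cast_le.2 this).trans (Nat.floor_le P0)
  have hLc : Lr Pr ≤ Pr.card := by
    have := sum_le_card_nsmul Pr (fun p => (1 : ℝ) / p) 1 fun p hp =>
      div_le_one_of_le₀ (by exact_mod_cast (hP p hp).1.pos) (Nat.cast_nonneg p)
    rwa [nsmul_eq_mul, mul_one] at this
  have tk := tk_Tkw Pr (⌊u⌋₊ + 1) (⌊u * (1 + 1 / Y)⌋₊ - ⌊u⌋₊) fun p hp => (hP p hp).1
  have eI : Ico (⌊u⌋₊ + 1) (⌊u⌋₊ + 1 + (⌊u * (1 + 1 / Y)⌋₊ - ⌊u⌋₊)) =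
      Ioc ⌊u⌋₊ ⌊u * (1 + 1 / Y)⌋₊ := by
    ext n
    rw [mem_Ico, mem_Ioc]
    omega
  rw [eI] at tk
  have cs := sq_sum_le_card_mul_sum_sq (s := Ioc ⌊u⌋₊ ⌊u * (1 + 1 / Y)⌋₊)
    (f := fun n => |∑ p ∈ Pr, (if p ∣ n then (1 : ℝ) else 0) - Lr Pr|)
  simp only [sq_abs] at cs
  rw [Nat.card_Ioc] at cs
  have hN' : Y / u * ((⌊u * (1 + 1 / Y)⌋₊ - ⌊u⌋₊ : ℕ) : ℝ) ≤ 2 := by
    have e2 : Y / u * (u * (1 + 1 / Y) - u + 1) = 1 + Y / u := by field_simp; ring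
    linarith [mul_le_mul_of_nonneg_left hN r0.le]
  have hS : ‖∑ n ∈ Ioc ⌊u⌋₊ ⌊u * (1 + 1 / Y)⌋₊,
      -(f n * ((∑ p ∈ Pr, (if p ∣ n then (1 : ℝ) else 0) - Lr Pr : ℝ) : ℂ))‖ ≤
      ∑ n ∈ Ioc ⌊u⌋₊ ⌊u * (1 + 1 / Y)⌋₊, |∑ p ∈ Pr, (if p ∣ n then (1 : ℝ) else 0) - Lr Pr| := by
    refine (norm_sum_le _ _).trans (sum_le_sum fun n _ => ?_)
    rw [norm_neg, norm_mul, Complex.norm_real, Real.norm_eq_abs]
    exact mul_le_of_le_one_left (abs_nonneg _) (hf.1 n)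
  rw [e1, norm_mul, Complex.norm_real, Real.norm_of_nonneg (by positivity)]
  refine (mul_le_mul_of_nonneg_left hS (by positivity)).trans ?_
  change _ ≤ _ * Lr Pr + _ + 2 * _ * Lr Pr at tk
  have cs' := cs.trans (mul_le_mul_of_nonneg_left tk (Nat.cast_nonneg _))
  have N0 : (0 : ℝ) ≤ ((⌊u * (1 + 1 / Y)⌋₊ - ⌊u⌋₊ : ℕ) : ℝ) := Nat.cast_nonneg _
  generalize ((⌊u * (1 + 1 / Y)⌋₊ - ⌊u⌋₊ : ℕ) : ℝ) = N at cs' hN' N0
  generalize ∑ n ∈ Ioc ⌊u⌋₊ ⌊u * (1 + 1 / Y)⌋₊,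
    |∑ p ∈ Pr, (if p ∣ n then (1 : ℝ) else 0) - Lr Pr| = S at cs' ⊢
  generalize Y / u = ρ at r0 hN' ⊢
  generalize (Pr.card : ℝ) = c at hc hLc cs'
  generalize Lr Pr = L at L0 hL hLc cs' ⊢
  have P0 : 0 ≤ P := by linarith
  have l2 := Real.sq_sqrt L0.le
  have t2 := Real.sq_sqrt r0.le
  have l0 := Real.sqrt_pos.2 L0
  have t0 := Real.sqrt_nonneg ρ
  have k1 : c ^ 2 + 2 * c * L ≤ 3 * P ^ 2 := by nlinarith
  have k2 : (ρ * S) ^ 2 ≤ (2 * √L + 3 * P * √ρ) ^ 2 := by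
    have a0 : 0 ≤ ρ * N := by positivity
    calc (ρ * S) ^ 2 = ρ ^ 2 * S ^ 2 := by ring
      _ ≤ ρ ^ 2 * (N * (N * L + 3 * P ^ 2)) := by
          refine mul_le_mul_of_nonneg_left (cs'.trans ?_) (sq_nonneg _)
          exact mul_le_mul_of_nonneg_left (by linarith) N0
      _ = (ρ * N) ^ 2 * L + (ρ * N) * (3 * P ^ 2 * ρ) := by ring
      _ ≤ 2 ^ 2 * L + 2 * (3 * P ^ 2 * ρ) := by gcongr
      _ ≤ 4 * √L ^ 2 + 12 * (√L * P * √ρ) + 9 * P ^ 2 * √ρ ^ 2 := by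
          rw [l2, t2]
          have a1 : 0 ≤ √L * P * √ρ := by positivity
          have a2 : 0 ≤ P ^ 2 * ρ := by positivity
          linarith
      _ = _ := by ring
  have k3 : ρ * S ≤ 2 * √L + 3 * P * √ρ := (abs_le_of_sq_le_sq' k2 (by positivity)).2
  calc ρ / L * S = ρ * S / L := by ring
    _ ≤ (2 * √L + 3 * P * √ρ) / L := by gcongr
    _ = 2 / √L + 3 * P * √ρ / L := by
        rw [add_div, mul_div_assoc 2, Real.sqrt_div_self', mul_one_div]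
    _ ≤ 2 / √L + 3 * P * √ρ := by
        have : 3 * P * √ρ / L ≤ 3 * P * √ρ := div_le_self (by positivity) hL
        linarith

end Pool.Agent.MP_4fffd4_nt.AN

end
end

section

/-!
A spectral gap inequality on the cyclic groups.
-/

open Finset Filter
open scoped BigOperators ComplexConjugate Topology

noncomputable section

namespace Pool.Agent.MP_4fffd4_nt.AN

open Pool.Agent.MP_4fffd4_nt.SX

section

variable {N : ℕ} [NeZero N]

/-- The Fourier coefficients. -/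
def fc_VSpec (G : ZMod N → ℂ) (ξ : ZMod N) : ℂ := 𝔼 j, G j * conj (ZMod.stdAddChar (j * ξ))

theorem inv_VSpec (G : ZMod N → ℂ) (j : ZMod N) :
    G j = ∑ ξ, fc_VSpec G ξ * ZMod.stdAddChar (j * ξ) := by
  have h : ∀ i : ZMod N, ∑ ξ, G i * conj (ZMod.stdAddChar (i * ξ)) * ZMod.stdAddChar (j * ξ) =
      if i = j then G j * N else 0 := fun i => by
    have e : ∀ ξ : ZMod N, G i * conj (ZMod.stdAddChar (i * ξ)) * ZMod.stdAddChar (j * ξ) =
        G i * ZMod.stdAddChar (ξ * (j - i)) := fun ξ => by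
      rw [← AddChar.map_neg_eq_conj, mul_assoc, ← AddChar.map_add_eq_mul]
      congr 2
      ring
    simp only [e]
    rw [← mul_sum, AddChar.sum_mulShift _ (ZMod.isPrimitive_stdAddChar N), ZMod.card]
    by_cases hi : i = j
    · simp [hi]
    · simp [hi, sub_eq_zero, Ne.symm hi]
  have hN : (N : ℂ) ≠ 0 := Nat.cast_ne_zero.2 (NeZero.ne N)
  simp only [fc_VSpec, expect_mul]
  rw [← expect_sum_comm]
  simp only [h]
  rw [Fintype.expect_eq_sum_div_card, sum_ite_eq', ZMod.card]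
  simp [hN]

theorem cor_VSpec (G : ZMod N → ℂ) (k : ZMod N) :
    𝔼 j, conj (G j) * G (j - k) =
      ∑ ξ, ((‖fc_VSpec G ξ‖ ^ 2 : ℝ) : ℂ) * conj (ZMod.stdAddChar (k * ξ)) := by
  rw [expect_congr rfl fun j _ => by rw [inv_VSpec G (j - k), mul_sum], expect_sum_comm]
  refine sum_congr rfl fun ξ _ => ?_
  have e : conj (fc_VSpec G ξ) = 𝔼 j, conj (G j) * ZMod.stdAddChar (j * ξ) := by
    rw [fc_VSpec, ← expect_conj]
    simp only [map_mul, Complex.conj_conj]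
  rw [Complex.ofReal_pow, ← Complex.mul_conj', e, mul_expect, expect_mul]
  refine expect_congr rfl fun j _ => ?_
  rw [← AddChar.map_neg_eq_conj, sub_mul, sub_eq_add_neg, AddChar.map_add_eq_mul]
  ring

/-- The angle of a residue. -/
def th_VSpec (ξ : ZMod N) : ℝ := 2 * Real.pi * (ξ.valMinAbs : ℝ) / N

theorem th_le_VSpec (ξ : ZMod N) : |th_VSpec ξ| ≤ Real.pi := by
  have hN : (0 : ℝ) < N := Nat.cast_pos.2 (NeZero.pos N)
  have h : 2 * ξ.valMinAbs.natAbs ≤ N := by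
    have := ZMod.natAbs_valMinAbs_le ξ
    omega
  have h' : 2 * |(ξ.valMinAbs : ℝ)| ≤ N := by
    have : ((2 * ξ.valMinAbs.natAbs : ℕ) : ℝ) ≤ N := Nat.cast_le.2 h
    rwa [Nat.cast_mul, Nat.cast_natAbs, Int.cast_abs] at this
  rw [th_VSpec, abs_div, abs_mul, abs_of_pos hN, abs_of_pos Real.two_pi_pos, div_le_iff₀ hN]
  nlinarith [Real.pi_pos]

theorem ex_VSpec (k : ℕ) (ξ : ZMod N) :
    conj (ZMod.stdAddChar ((k : ZMod N) * ξ)) = ex (k * th_VSpec ξ) := by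
  have e : -((k : ZMod N) * ξ) = ((-(k * ξ.valMinAbs) : ℤ) : ZMod N) := by simp
  rw [← AddChar.map_neg_eq_conj, e, ZMod.stdAddChar_coe, ex, th_VSpec]
  congr 1
  push_cast
  ring

end

theorem norm_ex_VSpec (x : ℝ) : ‖ex x‖ = 1 := by
  rw [ex, ← Complex.ofReal_neg, Complex.norm_exp_ofReal_mul_I]

theorem re_ex_VSpec (x : ℝ) : (ex x).re = Real.cos x := by
  rw [ex, ← Complex.ofReal_neg, Complex.exp_ofReal_mul_I_re, Real.cos_neg]

theorem one_VSpec {c κ θ a : ℝ} (hc : 0 < c) (hκ : 0 < κ) (hθ : |θ| ≤ Real.pi) (h0 : 0 ≤ a)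
    (h1 : |θ| ≤ κ → c ≤ a) : 1 ≤ a / c + 3 / κ ^ 2 * (2 - 2 * Real.cos θ) := by
  have h2 := Real.cos_le_one θ
  by_cases h : |θ| ≤ κ
  · have := (one_le_div hc).2 (h1 h)
    have : 0 ≤ 3 / κ ^ 2 * (2 - 2 * Real.cos θ) := mul_nonneg (by positivity) (by linarith)
    linarith
  · have h3 := Real.cos_le_one_sub_mul_cos_sq hθ
    have h4 : κ ^ 2 ≤ θ ^ 2 := by
      rw [← sq_abs θ]
      exact pow_le_pow_left₀ hκ.le (not_le.1 h).le 2
    have h5 : 1 / 6 ≤ 2 / Real.pi ^ 2 := by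
      rw [div_le_div_iff₀ (by norm_num) (by positivity)]
      nlinarith [Real.pi_lt_d2, Real.pi_pos]
    have h6 : 1 ≤ 3 / κ ^ 2 * (2 - 2 * Real.cos θ) := by
      rw [div_mul_eq_mul_div, one_le_div (by positivity)]
      nlinarith [mul_le_mul_of_nonneg_right h5 (sq_nonneg θ)]
    have : 0 ≤ a / c := by positivity
    linarith

theorem vSpec_stmt : VSpecStmt := by
  intro N _ G Pr ν k c κ hc hκ hν h
  obtain ⟨w, hw⟩ : ∃ w : ZMod N → ℝ, ∀ ξ, w ξ = ‖fc_VSpec G ξ‖ ^ 2 := ⟨_, fun _ => rfl⟩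
  have hk : ∀ m : ℕ, 𝔼 j, conj (G j) * G (j - (m : ZMod N)) =
      ∑ ξ, (w ξ : ℂ) * ex (m * th_VSpec ξ) := fun m => by
    simp only [cor_VSpec, ex_VSpec, hw]
  have h0 : 𝔼 j, conj (G j) * G j = ∑ ξ, (w ξ : ℂ) := by simpa [ex] using hk 0
  have h1 : 𝔼 j, ‖G j‖ ^ 2 = ∑ ξ, w ξ := by
    have := congrArg Complex.re h0
    rw [re_expect', Complex.re_sum] at this
    simpa only [Complex.conj_mul', ← Complex.ofReal_pow, Complex.ofReal_re] using this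
  have h2 : (𝔼 j, conj (G j) * (G j - ∑ p ∈ Pr, ν p * G (j - (k p : ZMod N)))).re =
      ∑ ξ, w ξ * (1 - (∑ p ∈ Pr, ν p * ex (k p * th_VSpec ξ)).re) := by
    have e : 𝔼 j, conj (G j) * (G j - ∑ p ∈ Pr, ν p * G (j - (k p : ZMod N))) =
        ∑ ξ, (w ξ : ℂ) * (1 - ∑ p ∈ Pr, ν p * ex (k p * th_VSpec ξ)) := by
      simp only [mul_sub, mul_sum, mul_left_comm _ (ν _), expect_sub_distrib, expect_sum_comm,
        ← mul_expect, hk, h0, mul_one, sum_sub_distrib]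
      rw [sum_comm]
    rw [e, Complex.re_sum]
    simp only [Complex.re_ofReal_mul, Complex.sub_re, Complex.one_re]
  have h3 : 𝔼 j, ‖G j - G (j - 1)‖ ^ 2 = ∑ ξ, w ξ * (2 - 2 * Real.cos (th_VSpec ξ)) := by
    have e1 : ∀ j, ‖G j - G (j - 1)‖ ^ 2 =
        ‖G j‖ ^ 2 + ‖G (j - 1)‖ ^ 2 - 2 * (conj (G j) * G (j - 1)).re := fun j => by
      simp only [Complex.sq_norm, Complex.normSq_apply, Complex.sub_re, Complex.sub_im,
        Complex.mul_re, Complex.conj_re, Complex.conj_im]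
      ring
    have e2 := congrArg Complex.re (hk 1)
    rw [re_expect', Complex.re_sum] at e2
    simp only [Nat.cast_one, one_mul, Complex.re_ofReal_mul, re_ex_VSpec] at e2
    have e3 : 𝔼 j, ‖G (j - 1)‖ ^ 2 = 𝔼 j, ‖G j‖ ^ 2 := MP.sub_right (1 : ZMod N) fun j => ‖G j‖ ^ 2
    simp only [e1, expect_sub_distrib, expect_add_distrib, ← mul_expect, e2, e3, h1]
    rw [mul_sum, ← sum_add_distrib, ← sum_sub_distrib]
    exact sum_congr rfl fun ξ _ => by ring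
  rw [h1, h2, h3, sum_div, mul_sum, ← sum_add_distrib]
  refine sum_le_sum fun ξ _ => ?_
  have h4 : 0 ≤ 1 - (∑ p ∈ Pr, ν p * ex (k p * th_VSpec ξ)).re := by
    refine sub_nonneg.2 ((Complex.re_le_norm _).trans ((norm_sum_le _ _).trans ?_))
    simpa only [norm_mul, norm_ex_VSpec, mul_one] using hν
  have h5 := mul_le_mul_of_nonneg_left (one_VSpec hc hκ (th_le_VSpec ξ) h4 (h _))
    (show 0 ≤ w ξ by rw [hw]; positivity)
  refine le_of_eq_of_le (mul_one _).symm (h5.trans_eq ?_)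
  ring

end Pool.Agent.MP_4fffd4_nt.AN

end
end

section

/-!
Local uniformity of the Liouville function in windows of length x ^ (1 - θ): statements.
-/

open Finset Filter
open scoped BigOperators ComplexConjugate Topology

noncomputable section

namespace Pool.Agent.MP_4fffd4_nt.AN

open Pool.Agent.MP_4fffd4_nt.SX

/-- Local uniformity for boxes of side x ^ (1 - θ). -/
def LP (d : ℕ) : Prop :=
  ∀ c : Fin d → ℤ, (∀ i, c i ≠ 0) → ∀ ε : ℝ, 0 < ε → ∃ θ : ℝ, 0 < θ ∧ ∀ᶠ x : ℕ in atTop, ∀ B : ℕ,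
    (x : ℝ) ^ (1 - θ) ≤ B → (B : ℝ) * Real.log x ≤ x → LB c x B ≤ ε

/-- Local uniformity for windows of length x ^ (1 - θ). -/
def GP (d : ℕ) : Prop :=
  ∀ ε : ℝ, 0 < ε → ∃ θ : ℝ, 0 < θ ∧ ∀ᶠ x : ℕ in atTop, ∀ n : ℕ,
    (x : ℝ) ^ (1 - θ) ≤ (n : ℝ) + 1 → n + 1 ≤ x → (UU (Fin d) (fw x n)).re ≤ ε

def WParStmt : Prop :=
  ∀ (l : Filter ℕ) (x q : ℕ → ℕ), Tendsto x l atTop →
    (∀ θ : ℝ, 0 < θ → ∀ᶠ n in l, (x n : ℝ) ^ (1 - θ) ≤ (q n : ℝ) + 1) →
    (∀ᶠ n in l, q n + 1 ≤ x n) →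
    ∃ k₁ k₂ B B' : ℕ → ℕ, Par l x q k₁ k₂ B B' ∧ ∀ θ : ℝ, 0 < θ → ∀ᶠ n in l, ∀ y : ℕ, x n ≤ y →
      y ≤ 2 * x n → (y : ℝ) ^ (1 - θ) ≤ B' n ∧ (B' n : ℝ) * Real.log y ≤ y

def WTopStmt : Prop :=
  ∀ s L : ℕ, 1 ≤ s → GP (s + 1) → ∀ ε : ℝ, 0 < ε → ∃ θ K₁ : ℝ, 0 < θ ∧
    ∀ (e : Fin s → ℤ) (Y K : ℝ), (∀ j, e j ≠ 0 ∧ |e j| ≤ L) → K₁ ≤ K →
      4 * ((s : ℝ) * L + 1) ≤ Y → 2 * Y ≤ K ^ θ → AE e Y K ≤ ε

def WGeoStmt : Prop :=
  ∀ (R N : ℕ) (α β : ℝ), 1 ≤ R → 1 ≤ N → β ≠ 0 → R * |β| ≤ 1 →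
    𝔼 j ∈ range N, ‖𝔼 r ∈ range R, ex (α + j * β) ^ r‖ ^ 2 ≤ 1 / R + 4 / (N * |β|)

def WArcStmt : Prop :=
  ∃ R : ℕ, 1 ≤ R ∧ ∀ A : ℝ, ∀ᶠ Z : ℝ in atTop, ∀ τ : ℝ, 1 ≤ |τ| → τ ^ 4 ≤ A * Z →
    ∑ p ∈ pio Z (Z ^ 2), ‖𝔼 r ∈ range R, ex (τ * Real.log p) ^ r‖ / p ≤ 1 / 32

def WBigStmt : Prop :=
  ∀ (q : ℕ) [NeZero q] (χ : DirichletCharacter ℂ q), ∃ c : ℝ, 0 < c ∧ ∀ᶠ Z : ℝ in atTop,
    ∀ t : ℝ, 1 ≤ |t| → t ^ 4 ≤ Z →
      c ≤ ∑ p ∈ pio Z (Z ^ 2), (1 + (χ p * ex (t * Real.log p)).re) / p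

def WRatStmt : Prop :=
  ∀ (q : ℕ) [NeZero q] (χ : DirichletCharacter ℂ q), ∃ C : ℝ, 1 ≤ C ∧ ∀ δ₁ δ₂ t : ℝ, 0 < δ₁ →
    δ₁ ≤ δ₂ → δ₂ ≤ 1 → |t| ≤ 1 →
    ‖LSeries (fun n : ℕ => χ n) (((1 + δ₂ : ℝ) : ℂ) + (t : ℂ) * Complex.I)‖ ≤
      C * ‖LSeries (fun n : ℕ => χ n) (((1 + δ₁ : ℝ) : ℂ) + (t : ℂ) * Complex.I)‖

def WCutStmt : Prop :=
  ∃ C : ℝ, ∀ (Z P : ℝ) (a : ℕ → ℝ), 3 ≤ Z → Z ≤ P → (∀ p, 0 ≤ a p ∧ a p ≤ 2) →
    ∑' p : Nat.Primes, a p * ((p : ℕ) : ℝ) ^ (-(1 + 1 / Real.log P)) -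
      ∑' p : Nat.Primes, a p * ((p : ℕ) : ℝ) ^ (-(1 + 1 / Real.log Z)) ≤
        ∑ p ∈ pio Z P, a p / p + C

def WSmallStmt : Prop :=
  ∀ (q : ℕ) [NeZero q] (χ : DirichletCharacter ℂ q), ∃ C : ℝ, ∀ Z P t : ℝ, 3 ≤ Z → Z ≤ P →
    |t| ≤ 1 → Real.log (Real.log P / Real.log Z) - C ≤
      ∑ p ∈ pio Z P, (1 + (χ p * ex (t * Real.log p)).re) / p

def WPretStmt : Prop :=
  ∀ (q : ℕ) [NeZero q] (χ : DirichletCharacter ℂ q), ∃ (c : ℝ) (J₀ : ℕ), 0 < c ∧
    ∀ J : ℕ, J₀ ≤ J → ∀ᶠ Z : ℝ in atTop, (J : ℝ) / 16 ≤ Lr (pio Z (Z ^ 2 ^ J)) ∧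
      ∀ t : ℝ, t ^ 4 ≤ Z → c ≤ 1 - (∑ p ∈ pio Z (Z ^ 2 ^ J),
        χ p * (lam (p : ℤ) : ℂ) / (p * Lr (pio Z (Z ^ 2 ^ J))) * ex (t * Real.log p)).re

def WWinStmt : Prop :=
  ∀ (q : ℕ) [NeZero q] (χ : DirichletCharacter ℂ q) (ε : ℝ), 0 < ε → ∃ θ : ℝ, 0 < θ ∧
    ∀ᶠ x : ℝ in atTop, ∀ Y : ℝ, 1 ≤ Y → Y ≤ x ^ θ →
      ‖gw (fun n : ℕ => χ n * (lam (n : ℤ) : ℂ)) Y x‖ ≤ ε

def WApStmt : Prop :=
  ∀ (W : ℕ) (ε : ℝ), 1 ≤ W → 0 < ε → ∃ θ : ℝ, 0 < θ ∧ ∀ᶠ X : ℕ in atTop, ∀ r H : ℕ,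
    (X : ℝ) ^ (1 - θ) ≤ H → H ≤ X →
      |∑ n ∈ (Ioc X (X + H)).filter fun n => n % W = r % W, lam (n : ℤ)| ≤ ε * H

def WNumStmt : Prop :=
  ∀ (s A B : ℕ) (δ θ : ℝ), 1 ≤ B → 0 < δ → 0 < θ → ∃ c : ℝ, 0 < c ∧ ∃ n₀ : ℕ, ∀ n : ℕ, n₀ ≤ n →
    ∃ j i : ℕ, 1 ≤ j ∧ 2 ^ (s + 1) * (c * ((n : ℝ) / Real.log n) ^ (1 / 3 : ℝ)) ≤ j ∧
      (j : ℝ) ^ 5 ≤ (n : ℝ) ^ 2 ∧
      i * Real.sqrt (j / ((n : ℝ) / B / (4 * Real.log ((n : ℝ) / B)))) ≤ δ ∧
      2 * (n : ℝ) ^ (2 * A + 4 * j) ≤ ((n : ℝ) ^ A * ((n : ℝ) / B) ^ i) ^ θ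

def WMainStmt : Prop :=
  ∃ c : ℝ, 0 < c ∧ ∃ N : ℕ, ∀ n : ℕ, N ≤ n →
    Real.exp (c * ((n : ℝ) / Real.log n) ^ (1 / 3 : ℝ)) ≤ ((pat n).ncard : ℝ)

end Pool.Agent.MP_4fffd4_nt.AN

end
end

section

open Finset Filter
open scoped BigOperators ComplexConjugate Topology

noncomputable section

namespace Pool.Agent.MP_4fffd4_nt.AN

open Pool.Agent.MP_4fffd4_nt.SX

theorem tele_LuOne (f : ℕ → ℝ) {W : ℕ} (hW : 1 ≤ W) (y B : ℕ) :
    ∑ n ∈ (Icc 1 (y + W * B)).filter fun n => n % W = y % W, f n =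
      ∑ n ∈ (Icc 1 y).filter fun n => n % W = y % W, f n +
        ∑ v ∈ range B, f (y + W * (v + 1)) := by
  induction B with
  | zero => simp
  | succ B ih =>
    have e : ((Icc 1 (y + W * (B + 1))).filter fun n => n % W = y % W) =
        insert (y + W * (B + 1)) ((Icc 1 (y + W * B)).filter fun n => n % W = y % W) := by
      ext n
      simp only [mem_filter, mem_Icc, mem_insert, mul_add, mul_one]
      constructor
      · rintro ⟨⟨h1, h2⟩, h3⟩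
        by_cases h : n ≤ y + W * B
        · exact Or.inr ⟨⟨h1, h⟩, h3⟩
        · have h4 : y + W * B ≡ n [MOD W] := by
            rw [Nat.ModEq, h3, Nat.add_mul_mod_self_left]
          have := Nat.le_of_dvd (by omega) ((Nat.modEq_iff_dvd' (by omega)).1 h4)
          omega
      · rintro (rfl | ⟨⟨h1, h2⟩, h3⟩)
        · refine ⟨by omega, ?_⟩
          rw [← add_assoc, Nat.add_mod_right, Nat.add_mul_mod_self_left]
        · exact ⟨by omega, h3⟩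
    rw [e, sum_insert (by simp only [mem_filter, mem_Icc, mul_add, mul_one]; omega), ih,
      sum_range_succ]
    ring

theorem lb_LuOne (c : Fin 1 → ℤ) (x : ℤ) (B : ℕ) :
    LB c x B = ((∑ v ∈ range B, lam (x + c 0 * v)) / B) ^ 2 := by
  have h1 : 𝔼 v : Fin 1 → Fin B, lam (x + c 0 * (v 0 : ℕ)) =
      (∑ v ∈ range B, lam (x + c 0 * v)) / B := by
    rw [Fintype.expect_equiv (Equiv.funUnique (Fin 1) (Fin B))
      (fun v => lam (x + c 0 * (v 0 : ℕ))) (fun t => lam (x + c 0 * (t : ℕ))) fun _ => rfl, Fintype.expect_eq_sum_div_card,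
      Fintype.card_fin, Fin.sum_univ_eq_sum_range fun t => lam (x + c 0 * (t : ℕ))]
  rw [← h1, sq, expect_mul_expect, LB]
  refine expect_congr rfl fun v _ => expect_congr rfl fun v' _ => ?_
  rw [← (Equiv.funUnique (Fin 1) Bool).symm.prod_comp, Fintype.prod_bool, mul_comm]
  simp [mix]

theorem sum_LuOne (c : ℤ) (x B : ℕ) (hB : 1 ≤ B) (h : 2 * (c.natAbs * B) ≤ x) :
    ∃ y : ℕ, x ≤ 2 * y ∧ y + c.natAbs * B ≤ 2 * x ∧ ∑ v ∈ range B, lam (x + c * v) =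
      ∑ v ∈ range B, lam ((y + c.natAbs * (v + 1) : ℕ) : ℤ) := by
  have h1 : c.natAbs ≤ c.natAbs * B := Nat.le_mul_of_pos_right _ hB
  obtain ⟨W, rfl | rfl⟩ := Int.eq_nat_or_neg c
  · rw [Int.natAbs_natCast] at *
    obtain ⟨y, rfl⟩ : ∃ y, x = y + W := ⟨x - W, by omega⟩
    refine ⟨y, by omega, by omega, sum_congr rfl fun v _ => congrArg lam ?_⟩
    push_cast
    ring
  · rw [Int.natAbs_neg, Int.natAbs_natCast] at *
    obtain ⟨y, rfl⟩ : ∃ y, x = y + W * B := ⟨x - W * B, by omega⟩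
    refine ⟨y, by omega, by omega, ?_⟩
    rw [← sum_range_reflect]
    refine sum_congr rfl fun v hv => congrArg lam ?_
    obtain ⟨k, rfl⟩ : ∃ k, B = v + 1 + k := ⟨B - (v + 1), by have := mem_range.1 hv; omega⟩
    rw [show v + 1 + k - 1 - v = k by omega]
    push_cast
    ring

end Pool.Agent.MP_4fffd4_nt.AN

end
end

section

open Finset Filter
open scoped BigOperators ComplexConjugate Topology

noncomputable section

namespace Pool.Agent.MP_4fffd4_nt.AN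

open Pool.Agent.MP_4fffd4_nt.SX

theorem pow_WBig {y : ℂ} (hy : ‖y‖ = 1) (k : ℕ) : ‖y ^ k - 1‖ ≤ k * ‖y - 1‖ := by
  induction k with
  | zero => simp
  | succ k ih =>
    have e : y ^ (k + 1) - 1 = (y ^ k - 1) * y + (y - 1) := by ring
    rw [e]
    refine (norm_add_le _ _).trans ?_
    rw [norm_mul, hy, mul_one, Nat.cast_succ]
    linarith

theorem re_WBig {a : ℂ} (ha : ‖a‖ = 1) : ‖a - 1‖ ^ 2 = 2 * (1 - a.re) := by
  have h : ‖a‖ ^ 2 = 1 := by rw [ha, one_pow]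
  rw [Complex.sq_norm, Complex.normSq_apply] at h ⊢
  simp only [Complex.sub_re, Complex.sub_im, Complex.one_re, Complex.one_im, sub_zero]
  linarith

theorem one_WBig {y : ℂ} (hy : ‖y‖ = 1) {k K : ℕ} (hk : k ≤ K) :
    1 - (K : ℝ) ^ 2 * (1 - y.re) ≤ (y ^ k).re := by
  have h1 := re_WBig hy
  have h2 := re_WBig (a := y ^ k) (by rw [norm_pow, hy, one_pow])
  have h3 : ‖y ^ k - 1‖ ≤ K * ‖y - 1‖ := (pow_WBig hy k).trans
    (mul_le_mul_of_nonneg_right (by exact_mod_cast hk) (norm_nonneg _))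
  have h4 := pow_le_pow_left₀ (norm_nonneg _) h3 2
  rw [mul_pow, h1, h2] at h4
  linarith

theorem norm_ex_WBig (x : ℝ) : ‖ex x‖ = 1 := by
  rw [ex, ← Complex.ofReal_neg, Complex.norm_exp_ofReal_mul_I]

theorem ex_pow_WBig (x : ℝ) (k : ℕ) : ex x ^ k = ex (k * x) := by
  rw [ex, ex, ← Complex.exp_nat_mul]
  congr 1
  push_cast
  ring

theorem wBig_stmt (h1 : VChStmt) (h2 : WArcStmt) : WBigStmt := by
  intro q _ χ
  obtain ⟨R, hR, h2⟩ := h2
  have hq : 0 < q := Nat.pos_of_ne_zero (NeZero.ne q)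
  have hm : 0 < q.totient := Nat.totient_pos.2 hq
  have hK : (0 : ℝ) < ((2 * q.totient * R : ℕ) : ℝ) ^ 2 := by positivity
  refine ⟨1 / 32 / ((2 * q.totient * R : ℕ) : ℝ) ^ 2, by positivity, ?_⟩
  filter_upwards [h1, h2 (((2 * q.totient : ℕ) : ℝ) ^ 4), eventually_ge_atTop (q : ℝ)]
    with Z hZ1 hZ2 hZq t ht1 ht2
  have hm1 : (1 : ℝ) ≤ ((2 * q.totient : ℕ) : ℝ) := by exact_mod_cast (by omega)
  have h3 := hZ2 (((2 * q.totient : ℕ) : ℝ) * t)
    (by rw [abs_mul, Nat.abs_cast]; exact one_le_mul_of_one_le_of_one_le hm1 ht1)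
    (by rw [mul_pow]; exact mul_le_mul_of_nonneg_left ht2 (by positivity))
  rw [div_le_iff₀' hK, mul_sum]
  have h4 : Lr (pio Z (Z ^ 2)) - ∑ p ∈ pio Z (Z ^ 2), ((2 * q.totient * R : ℕ) : ℝ) ^ 2 *
      ((1 + (χ p * ex (t * Real.log p)).re) / p) ≤ ∑ p ∈ pio Z (Z ^ 2),
      ‖𝔼 r ∈ range R, ex (((2 * q.totient : ℕ) : ℝ) * t * Real.log p) ^ r‖ / p := by
    rw [Lr, ← sum_sub_distrib]
    refine sum_le_sum fun p hp => ?_
    rw [pio, mem_filter, mem_Ioc] at hp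
    have hqp : q < p := lt_of_le_of_lt (Nat.le_floor hZq) hp.1.1
    have hc : p.Coprime q := (Nat.coprime_of_lt_prime hq.ne' hqp hp.2)
    have hχ : χ p ^ q.totient = 1 := by
      rw [← map_pow, ← ZMod.coe_unitOfCoprime p hc, ← Units.val_pow_eq_pow_val, ZMod.pow_totient,
        Units.val_one, map_one]
    have hn : ‖χ p‖ = 1 := by
      have := congrArg norm hχ
      rw [norm_pow, norm_one] at this
      exact (pow_eq_one_iff_of_nonneg (norm_nonneg _) hm.ne').1 this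
    have hy : ‖-(χ p * ex (t * Real.log p))‖ = 1 := by
      rw [norm_neg, norm_mul, hn, norm_ex_WBig, one_mul]
    have hw : ex (((2 * q.totient : ℕ) : ℝ) * t * Real.log p) =
        (-(χ p * ex (t * Real.log p))) ^ (2 * q.totient) := by
      rw [Even.neg_pow (even_two_mul _), mul_pow, pow_mul', hχ, one_pow, one_mul, ex_pow_WBig,
        mul_assoc]
    rw [← mul_div_assoc, ← sub_div]
    refine div_le_div_of_nonneg_right (le_trans ?_ (Complex.re_le_norm _)) (Nat.cast_nonneg _)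
    rw [re_expect']
    refine le_expect (nonempty_range_iff.2 (by omega)) fun r hr => ?_
    rw [hw, ← pow_mul]
    have h5 := one_WBig hy (Nat.mul_le_mul_left (2 * q.totient) (mem_range.1 hr).le)
    rwa [Complex.neg_re, sub_neg_eq_add] at h5
  linarith

end Pool.Agent.MP_4fffd4_nt.AN

end
end

section

open Finset Filter
open scoped BigOperators ComplexConjugate Topology

noncomputable section

namespace Pool.Agent.MP_4fffd4_nt.AN

open Pool.Agent.MP_4fffd4_nt.SX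

lemma term_WCut {d x : ℝ} (hx : 0 < x) :
    d * Real.log x * x ^ (-(1 + d)) ≤ 2 * (x ^ (-(1 + d / 2)) - x ^ (-(1 + d))) := by
  have h1 : x ^ (-(1 + d / 2)) = x ^ (-(1 + d)) * Real.exp (d / 2 * Real.log x) := by
    rw [Real.rpow_def_of_pos hx, Real.rpow_def_of_pos hx, ← Real.exp_add]
    congr 1
    ring
  have h2 := Real.add_one_le_exp (d / 2 * Real.log x)
  have h3 : 0 ≤ x ^ (-(1 + d)) := Real.rpow_nonneg hx.le _
  have h4 := mul_le_mul_of_nonneg_left h2 h3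
  rw [h1]
  linarith

lemma logsum_WCut (h : VZetStmt) {d : ℝ} (hd : 0 < d) (hd1 : d ≤ 1) :
    Summable (fun p : Nat.Primes => d * Real.log ((p : ℕ) : ℝ) * ((p : ℕ) : ℝ) ^ (-(1 + d))) ∧
      ∑' p : Nat.Primes, d * Real.log ((p : ℕ) : ℝ) * ((p : ℕ) : ℝ) ^ (-(1 + d)) ≤ 12 := by
  obtain ⟨s1, l1, -⟩ := h d hd hd1
  obtain ⟨s2, -, u2⟩ := h (d / 2) (by linarith) (by linarith)
  have hp : ∀ p : Nat.Primes, (1 : ℝ) ≤ ((p : ℕ) : ℝ) := fun p => by exact_mod_cast p.2.pos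
  have s3 := (s2.sub s1).mul_left 2
  have hle : ∀ p : Nat.Primes, d * Real.log ((p : ℕ) : ℝ) * ((p : ℕ) : ℝ) ^ (-(1 + d)) ≤
      2 * (((p : ℕ) : ℝ) ^ (-(1 + d / 2)) - ((p : ℕ) : ℝ) ^ (-(1 + d))) := fun p =>
    term_WCut (by linarith [hp p])
  have s4 : Summable
      (fun p : Nat.Primes => d * Real.log ((p : ℕ) : ℝ) * ((p : ℕ) : ℝ) ^ (-(1 + d))) :=
    Summable.of_nonneg_of_le (fun p => mul_nonneg (mul_nonneg hd.le (Real.log_nonneg (hp p)))
      (Real.rpow_nonneg (Nat.cast_nonneg _) _)) hle s3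
  refine ⟨s4, le_trans (s4.tsum_le_tsum hle s3) ?_⟩
  rw [tsum_mul_left, s2.tsum_sub s1]
  have h1 : Real.log (1 / (d / 2)) = Real.log 2 + Real.log (1 / d) := by
    rw [← Real.log_mul (by norm_num) (by positivity)]
    congr 1
    field_simp
  have h2 : Real.log 2 ≤ 1 := by linarith [Real.log_two_lt_d9]
  linarith

lemma ind_WCut (s : Finset ℕ) (hs : ∀ p ∈ s, p.Prime) (g : ℕ → ℝ) :
    HasSum (fun p : Nat.Primes => if (p : ℕ) ∈ s then g p else 0) (∑ p ∈ s, g p) := by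
  let e : Nat.Primes ↪ ℕ := ⟨fun p => (p : ℕ), fun _ _ h => Subtype.ext h⟩
  let t : Finset Nat.Primes := s.preimage e e.injective.injOn
  have ht : t.map e = s := by
    ext n
    simp only [t, Finset.mem_map, Finset.mem_preimage]
    exact ⟨fun ⟨p, hp, h⟩ => h ▸ hp, fun hn => ⟨⟨n, hs n hn⟩, hn, rfl⟩⟩
  have hm : ∀ p : Nat.Primes, p ∈ t ↔ (p : ℕ) ∈ s := fun p => Finset.mem_preimage
  have h1 : ∑ p ∈ s, g p = ∑ p ∈ t, if (p : ℕ) ∈ s then g p else 0 := by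
    conv_lhs => rw [← ht, Finset.sum_map]
    exact sum_congr rfl fun p hp => (if_pos ((hm p).1 hp)).symm
  rw [h1]
  exact hasSum_sum_of_ne_finset_zero fun p hp => if_neg fun h => hp ((hm p).2 h)

lemma cut_WCut {Z P : ℝ} (hZ : 3 ≤ Z) (hP : Z ≤ P) {a : ℝ} (ha : 0 ≤ a) (ha2 : a ≤ 2) {p : ℕ}
    (hp : p.Prime) :
    a * (p : ℝ) ^ (-(1 + 1 / Real.log P)) - a * (p : ℝ) ^ (-(1 + 1 / Real.log Z)) ≤
      (if p ∈ pio Z P then a / p else 0) +
        4 * (1 / Real.log Z * Real.log p * (p : ℝ) ^ (-(1 + 1 / Real.log Z))) +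
        2 * (1 / Real.log P * Real.log p * (p : ℝ) ^ (-(1 + 1 / Real.log P))) := by
  have hp1 : (1 : ℝ) ≤ p := by exact_mod_cast hp.pos
  have hp0 : (0 : ℝ) < p := by linarith
  have hLZ : 0 < Real.log Z := Real.log_pos (by linarith)
  have hLP : 0 < Real.log P := Real.log_pos (by linarith)
  have hlp : 0 ≤ Real.log p := Real.log_nonneg hp1
  have r1 : 0 ≤ (p : ℝ) ^ (-(1 + 1 / Real.log P)) := Real.rpow_nonneg hp0.le _
  have r2 : 0 ≤ (p : ℝ) ^ (-(1 + 1 / Real.log Z)) := Real.rpow_nonneg hp0.le _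
  have t1 : 0 ≤ 1 / Real.log P * Real.log p * (p : ℝ) ^ (-(1 + 1 / Real.log P)) := by positivity
  have t2 : 0 ≤ 1 / Real.log Z * Real.log p * (p : ℝ) ^ (-(1 + 1 / Real.log Z)) := by positivity
  have t0 : 0 ≤ (if p ∈ pio Z P then a / p else 0) := by
    split_ifs
    · positivity
    · exact le_rfl
  have t3 : 0 ≤ a * (p : ℝ) ^ (-(1 + 1 / Real.log Z)) := mul_nonneg ha r2
  have b1 : (p : ℝ) ^ (-(1 + 1 / Real.log P)) ≤ (p : ℝ) ^ (-1 : ℝ) :=
    Real.rpow_le_rpow_of_exponent_le hp1 (by linarith [one_div_pos.2 hLP])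
  rcases le_or_gt p ⌊Z⌋₊ with h1 | h1
  · have h2 : (p : ℝ) ≤ Z := le_trans (by exact_mod_cast h1) (Nat.floor_le (by linarith))
    have h3 : 1 / Real.log Z * Real.log p ≤ 1 := by
      rw [one_div_mul_eq_div, div_le_one hLZ]
      exact Real.log_le_log hp0 h2
    have h4 : 0 ≤ 1 / Real.log Z * Real.log p := by positivity
    have h5 := Real.abs_exp_sub_one_le (x := 1 / Real.log Z * Real.log p)
      (by rwa [abs_of_nonneg h4])
    rw [abs_of_nonneg h4] at h5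
    have h6 := le_trans (le_abs_self _) h5
    have h7 : (p : ℝ) ^ (-1 : ℝ) =
        (p : ℝ) ^ (-(1 + 1 / Real.log Z)) * Real.exp (1 / Real.log Z * Real.log p) := by
      rw [Real.rpow_def_of_pos hp0, Real.rpow_def_of_pos hp0, ← Real.exp_add]
      congr 1
      ring
    have h8 := mul_le_mul_of_nonneg_left h6 r2
    have h9 : (p : ℝ) ^ (-(1 + 1 / Real.log P)) - (p : ℝ) ^ (-(1 + 1 / Real.log Z)) ≤
        2 * (1 / Real.log Z * Real.log p * (p : ℝ) ^ (-(1 + 1 / Real.log Z))) := by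
      rw [h7] at b1
      linarith
    have h10 := mul_le_mul_of_nonneg_left h9 ha
    have h11 := mul_le_mul_of_nonneg_right ha2 t2
    linarith
  · rcases le_or_gt p ⌊P⌋₊ with h2 | h2
    · have h3 : p ∈ pio Z P := mem_filter.2 ⟨mem_Ioc.2 ⟨h1, h2⟩, hp⟩
      rw [if_pos h3, div_eq_mul_inv a, ← Real.rpow_neg_one]
      have h4 := mul_le_mul_of_nonneg_left b1 ha
      linarith
    · have h3 : P ≤ p := by
        have h4 : ((⌊P⌋₊ + 1 : ℕ) : ℝ) ≤ p := by exact_mod_cast h2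
        push_cast at h4
        linarith [Nat.lt_floor_add_one P]
      have h4 : 1 ≤ 1 / Real.log P * Real.log p := by
        rw [one_div_mul_eq_div, one_le_div hLP]
        exact Real.log_le_log (by linarith) h3
      have h5 := mul_le_mul_of_nonneg_right h4 r1
      have h6 := mul_le_mul_of_nonneg_right ha2 r1
      linarith

theorem wCut_stmt (h : VZetStmt) : WCutStmt := by
  refine ⟨72, fun Z P a hZ hP ha => ?_⟩
  have h3 : 1 ≤ Real.log Z := by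
    rw [Real.le_log_iff_exp_le (by linarith)]
    linarith [Real.exp_one_lt_three]
  have h4 : Real.log Z ≤ Real.log P := Real.log_le_log (by linarith) hP
  have d1 : 0 < 1 / Real.log P := one_div_pos.2 (by linarith)
  have d2 : 0 < 1 / Real.log Z := one_div_pos.2 (by linarith)
  have e1 : 1 / Real.log P ≤ 1 := by rw [div_le_one (by linarith)]; linarith
  have e2 : 1 / Real.log Z ≤ 1 := by rw [div_le_one (by linarith)]; linarith
  have hs : ∀ d : ℝ, 0 < d → d ≤ 1 →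
      Summable fun p : Nat.Primes => a p * ((p : ℕ) : ℝ) ^ (-(1 + d)) := fun d hd hd1 =>
    Summable.of_nonneg_of_le
      (fun p => mul_nonneg (ha p).1 (Real.rpow_nonneg (Nat.cast_nonneg _) _))
      (fun p => mul_le_mul_of_nonneg_right (ha p).2 (Real.rpow_nonneg (Nat.cast_nonneg _) _))
      ((h d hd hd1).1.mul_left 2)
  obtain ⟨s1, u1⟩ := logsum_WCut h d1 e1
  obtain ⟨s2, u2⟩ := logsum_WCut h d2 e2
  have s0 := ind_WCut (pio Z P) (fun p hp => (mem_filter.1 hp).2) fun p => a p / p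
  have hA := (hs _ d1 e1).hasSum.sub (hs _ d2 e2).hasSum
  have hB := (s0.add (s2.hasSum.mul_left 4)).add (s1.hasSum.mul_left 2)
  have hle := hasSum_le (fun p : Nat.Primes => cut_WCut hZ hP (ha p).1 (ha p).2 p.2) hA hB
  linarith

end Pool.Agent.MP_4fffd4_nt.AN

end
end

section

/-!
Mean square of short geometric averages along an arithmetic progression of phases.
-/

open Finset Filter
open scoped BigOperators ComplexConjugate Topology

noncomputable section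

namespace Pool.Agent.MP_4fffd4_nt.AN

open Pool.Agent.MP_4fffd4_nt.SX

lemma ex_add_WGeo (a b : ℝ) : ex (a + b) = ex a * ex b := by
  unfold ex
  rw [← Complex.exp_add]
  congr 1
  push_cast
  ring

lemma ex_pow_WGeo (a : ℝ) (r : ℕ) : ex a ^ r = ex (r * a) := by
  unfold ex
  rw [← Complex.exp_nat_mul]
  congr 1
  push_cast
  ring

lemma ex_conj_WGeo (a : ℝ) : conj (ex a) = ex (-a) := by
  unfold ex
  rw [← Complex.exp_conj]
  congr 1
  simp

lemma norm_ex_WGeo (x : ℝ) : ‖ex x‖ = 1 := by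
  have h := Complex.norm_exp_ofReal_mul_I (-x)
  rw [ex]
  push_cast at h
  exact h

lemma ex_re_WGeo (x : ℝ) : (ex x).re = Real.cos x := by
  have h := Complex.exp_ofReal_mul_I_re (-x)
  rw [ex]
  push_cast at h
  rw [h, Real.cos_neg]

lemma sub_one_WGeo (x : ℝ) (hx : |x| ≤ 1) : |x| / 2 ≤ ‖ex x - 1‖ := by
  have h1 : ‖ex x - 1‖ ^ 2 = 2 - 2 * Real.cos x := by
    have hn : Complex.normSq (ex x) = 1 := by
      rw [Complex.normSq_eq_norm_sq, norm_ex_WGeo]; norm_num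
    rw [← Complex.normSq_eq_norm_sq, Complex.normSq_sub, hn]
    simp [ex_re_WGeo]
    ring
  have hpi : |x| ≤ Real.pi := hx.trans (by linarith [Real.pi_gt_three])
  have h2 := Real.cos_le_one_sub_mul_cos_sq hpi
  have h3 : Real.pi ^ 2 ≤ 16 := by nlinarith [Real.pi_lt_four, Real.pi_pos]
  have h4 : (1 / 8 : ℝ) ≤ 2 / Real.pi ^ 2 := by
    rw [div_le_div_iff₀ (by norm_num) (by positivity)]
    linarith
  have h5 : (1 / 8 : ℝ) * x ^ 2 ≤ 2 / Real.pi ^ 2 * x ^ 2 :=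
    mul_le_mul_of_nonneg_right h4 (sq_nonneg x)
  have h6 : (|x| / 2) ^ 2 ≤ ‖ex x - 1‖ ^ 2 := by
    rw [h1, div_pow, sq_abs]
    linarith
  exact le_of_sq_le_sq h6 (norm_nonneg _) |>.trans le_rfl

lemma geom_WGeo (N : ℕ) (α β d : ℝ) (hβ : β ≠ 0) (hd : 1 ≤ |d|) (hdβ : |d * β| ≤ 1) :
    ∑ j ∈ range N, (ex (d * (α + j * β))).re ≤ 4 / |β| := by
  have hb : 0 < |β| := abs_pos.mpr hβ
  have e1 : ∑ j ∈ range N, ex (d * (α + j * β)) =
      ex (d * α) * ∑ j ∈ range N, ex (d * β) ^ j := by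
    rw [mul_sum]
    refine sum_congr rfl fun j _ => ?_
    rw [ex_pow_WGeo, ← ex_add_WGeo]
    congr 1
    ring
  have e2 := geom_sum_mul (ex (d * β)) N
  have e3 : ‖∑ j ∈ range N, ex (d * β) ^ j‖ * ‖ex (d * β) - 1‖ ≤ 2 := by
    rw [← norm_mul, e2]
    refine (norm_sub_le _ _).trans ?_
    rw [norm_pow, norm_ex_WGeo]
    norm_num
  have e4 : |β| / 2 ≤ ‖ex (d * β) - 1‖ := by
    refine le_trans ?_ (sub_one_WGeo _ hdβ)
    rw [abs_mul]
    nlinarith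
  have e5 : ‖∑ j ∈ range N, ex (d * β) ^ j‖ ≤ 4 / |β| := by
    rw [le_div_iff₀ hb]
    nlinarith [norm_nonneg (∑ j ∈ range N, ex (d * β) ^ j)]
  rw [← Complex.re_sum, e1]
  refine (Complex.re_le_norm _).trans ?_
  rw [norm_mul, norm_ex_WGeo, one_mul]
  exact e5

lemma sq_WGeo (R : ℕ) (x : ℝ) :
    ‖∑ r ∈ range R, ex x ^ r‖ ^ 2 =
      ∑ r ∈ range R, ∑ s ∈ range R, (ex (((r : ℝ) - s) * x)).re := by
  have h : (((‖∑ r ∈ range R, ex x ^ r‖ ^ 2 : ℝ)) : ℂ) =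
      ∑ r ∈ range R, ∑ s ∈ range R, ex (((r : ℝ) - s) * x) := by
    rw [← Complex.normSq_eq_norm_sq, ← Complex.mul_conj, map_sum, sum_mul_sum]
    refine sum_congr rfl fun r _ => sum_congr rfl fun s _ => ?_
    rw [ex_pow_WGeo, ex_pow_WGeo, ex_conj_WGeo, ← ex_add_WGeo]
    congr 1
    ring
  have h2 := congrArg Complex.re h
  rw [Complex.ofReal_re, Complex.re_sum] at h2
  rw [h2]
  exact sum_congr rfl fun r _ => Complex.re_sum _ _

theorem wGeo_stmt : WGeoStmt := by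
  intro R N α β hR hN hβ hRβ
  have hb : 0 < |β| := abs_pos.mpr hβ
  have hR' : (0 : ℝ) < R := by exact_mod_cast hR
  have hN' : (0 : ℝ) < N := by exact_mod_cast hN
  have key : ∀ r ∈ range R, ∀ s ∈ range R,
      ∑ j ∈ range N, (ex (((r : ℝ) - s) * (α + j * β))).re ≤
        (if r = s then (N : ℝ) else 0) + 4 / |β| := by
    intro r hr s hs
    have hr' : (r : ℝ) < R := by exact_mod_cast mem_range.mp hr
    have hs' : (s : ℝ) < R := by exact_mod_cast mem_range.mp hs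
    split_ifs with h
    · subst h
      have : ∑ j ∈ range N, (ex (((r : ℝ) - r) * (α + j * β))).re = N := by
        simp [ex]
      rw [this]
      have : 0 ≤ 4 / |β| := by positivity
      linarith
    · rw [zero_add]
      refine geom_WGeo N α β _ hβ ?_ ?_
      · have h1 : ((r : ℤ) - s) ≠ 0 := by
          intro h0
          exact h (by exact_mod_cast sub_eq_zero.mp h0)
        have h2 := Int.one_le_abs h1
        have h3 : ((1 : ℤ) : ℝ) ≤ ((|(r : ℤ) - s| : ℤ) : ℝ) := by exact_mod_cast h2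
        push_cast at h3
        exact h3
      · rw [abs_mul]
        have h1 : |(r : ℝ) - s| ≤ R := by
          rw [abs_le]
          constructor <;> linarith [Nat.cast_nonneg (α := ℝ) r, Nat.cast_nonneg (α := ℝ) s]
        nlinarith
  have tot : ∑ j ∈ range N, ‖∑ r ∈ range R, ex (α + j * β) ^ r‖ ^ 2 ≤
      R * N + R * R * (4 / |β|) := by
    simp_rw [sq_WGeo]
    rw [sum_comm]
    calc _ = ∑ r ∈ range R, ∑ s ∈ range R,
            ∑ j ∈ range N, (ex (((r : ℝ) - s) * (α + j * β))).re :=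
          sum_congr rfl fun r _ => sum_comm
      _ ≤ ∑ r ∈ range R, ∑ s ∈ range R, ((if r = s then (N : ℝ) else 0) + 4 / |β|) :=
          sum_le_sum fun r hr => sum_le_sum fun s hs => key r hr s hs
      _ = ∑ r ∈ range R, ((N : ℝ) + R * (4 / |β|)) := by
          refine sum_congr rfl fun r hr => ?_
          rw [sum_add_distrib, sum_ite_eq, if_pos hr]
          simp
      _ = _ := by
          simp
          ring
  have e : ∀ j : ℕ, ‖𝔼 r ∈ range R, ex (α + j * β) ^ r‖ ^ 2 =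
      ‖∑ r ∈ range R, ex (α + j * β) ^ r‖ ^ 2 / R ^ 2 := by
    intro j
    rw [expect_eq_sum_div_card, norm_div, div_pow, card_range]
    simp
  simp_rw [e]
  rw [expect_eq_sum_div_card, card_range, ← sum_div, div_div, div_le_iff₀ (by positivity)]
  refine tot.trans (le_of_eq ?_)
  field_simp

end Pool.Agent.MP_4fffd4_nt.AN

end
end

section

open Finset Filter
open scoped BigOperators ComplexConjugate Topology
noncomputable section
namespace Pool.Agent.MP_4fffd4_nt.AN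
open Pool.Agent.MP_4fffd4_nt.SX

theorem core_WNum (A : ℕ) (B δ θ K x m : ℝ) (hB : 1 ≤ B) (hδ : 0 < δ) (hθ : 0 < θ) (K0 : 0 < K)
    (K1 : K ≤ 1) (K2 : (10 / θ + 1) ^ 2 * (4 * B) * K ≤ δ ^ 2) (x1 : B ^ 2 ≤ x) (x2 : 3 * B ≤ x)
    (hm : m ^ 3 = x / Real.log x) (m0 : 4 * A + 2 ≤ K * m) :
    ∃ j i : ℕ, 1 ≤ j ∧ K * m / 2 ≤ j ∧ (j : ℝ) ^ 5 ≤ x ^ 2 ∧
      i * Real.sqrt (j / (x / B / (4 * Real.log (x / B)))) ≤ δ ∧
      2 * x ^ (2 * A + 4 * j) ≤ (x ^ A * (x / B) ^ i) ^ θ := by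
  have A0 : (0 : ℝ) ≤ A := Nat.cast_nonneg A
  have B0 : 0 < B := by linarith
  have x0 : 0 < x := by linarith
  have l1 : 1 ≤ Real.log x := by
    rw [Real.le_log_iff_exp_le x0]
    linarith [Real.exp_one_lt_d9]
  have mp : 0 < m := (mul_pos_iff_of_pos_left K0).1 (by linarith)
  have eL : Real.log (x / B) = Real.log x - Real.log B := Real.log_div x0.ne' B0.ne'
  have lB : 0 ≤ Real.log B := Real.log_nonneg hB
  have lB' : 2 * Real.log B ≤ Real.log x := by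
    have := Real.log_le_log (by positivity) x1
    rwa [Real.log_pow] at this
  obtain ⟨j, j1, j2⟩ : ∃ j : ℕ, K * m / 2 ≤ j ∧ (j : ℝ) ≤ K * m :=
    ⟨_, Nat.le_ceil _, by linarith [Nat.ceil_lt_add_one (show 0 ≤ K * m / 2 by linarith)]⟩
  have j3 : 2 * A + 1 ≤ j := by
    have : ((2 * A + 1 : ℕ) : ℝ) ≤ j := by
      push_cast
      linarith
    exact_mod_cast this
  have j4 : (1 : ℝ) ≤ j := by linarith
  obtain ⟨i, i1, i2⟩ : ∃ i : ℕ, 10 / θ * j ≤ i ∧ (i : ℝ) ≤ (10 / θ + 1) * j :=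
    ⟨_, Nat.le_ceil _, by linarith [Nat.ceil_lt_add_one (show 0 ≤ 10 / θ * j by positivity)]⟩
  have m3 : m ^ 3 * Real.log x = x := by
    rw [hm]
    field_simp
  refine ⟨j, i, by omega, j1, ?_, ?_, ?_⟩
  · have a1 : (j : ℝ) ≤ m := j2.trans (mul_le_of_le_one_left mp.le K1)
    have a2 : (j : ℝ) ^ 3 ≤ x := (pow_le_pow_left₀ (by linarith) a1 3).trans
      (hm.le.trans (div_le_self x0.le l1))
    calc (j : ℝ) ^ 5 ≤ j ^ 6 := pow_le_pow_right₀ j4 (by norm_num)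
      _ = (j ^ 3) ^ 2 := by ring
      _ ≤ x ^ 2 := pow_le_pow_left₀ (by positivity) a2 2
  · have L0 : 0 < Real.log (x / B) := by linarith
    have a1 : (j : ℝ) / (x / B / (4 * Real.log (x / B))) ≤ 4 * B * j / m ^ 3 := by
      rw [hm]
      have e1 : (j : ℝ) / (x / B / (4 * Real.log (x / B))) = 4 * B * j / x * Real.log (x / B) := by
        field_simp
      have e2 : 4 * B * j / (x / Real.log x) = 4 * B * j / x * Real.log x := by
        field_simp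
      rw [e1, e2]
      exact mul_le_mul_of_nonneg_left (by linarith) (by positivity)
    refine le_of_sq_le_sq ?_ hδ.le
    rw [mul_pow, Real.sq_sqrt (by positivity)]
    have a2 : (j : ℝ) ^ 3 ≤ (K * m) ^ 3 := pow_le_pow_left₀ (by linarith) j2 3
    have a3 : K ^ 3 ≤ K := pow_le_of_le_one K0.le K1 (by norm_num)
    have a4 : (j : ℝ) ^ 3 / m ^ 3 ≤ K := by
      rw [div_le_iff₀ (by positivity)]
      exact a2.trans (by rw [mul_pow]; exact mul_le_mul_of_nonneg_right a3 (by positivity))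
    calc (i : ℝ) ^ 2 * (j / (x / B / (4 * Real.log (x / B))))
        ≤ ((10 / θ + 1) * j) ^ 2 * (4 * B * j / m ^ 3) :=
          mul_le_mul (pow_le_pow_left₀ (by positivity) i2 2) a1 (by positivity) (by positivity)
      _ = (10 / θ + 1) ^ 2 * (4 * B) * (j ^ 3 / m ^ 3) := by ring
      _ ≤ (10 / θ + 1) ^ 2 * (4 * B) * K := mul_le_mul_of_nonneg_left a4 (by positivity)
      _ ≤ δ ^ 2 := K2
  · have x3 : 1 ≤ x := by linarith
    have a1 : 10 * (j : ℝ) ≤ i * θ := by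
      have := mul_le_mul_of_nonneg_right i1 hθ.le
      rwa [show 10 / θ * j * θ = 10 * j by field_simp] at this
    calc 2 * x ^ (2 * A + 4 * j) ≤ x * x ^ (2 * A + 4 * j) :=
          mul_le_mul_of_nonneg_right (by linarith) (by positivity)
      _ = x ^ (2 * A + 4 * j + 1) := (pow_succ' _ _).symm
      _ ≤ x ^ (5 * j) := pow_le_pow_right₀ x3 (by omega)
      _ = Real.exp ((5 * j : ℕ) * Real.log x) := by rw [Real.exp_nat_mul, Real.exp_log x0]
      _ ≤ ((x / B) ^ i) ^ θ := by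
          rw [Real.rpow_def_of_pos (by positivity), Real.log_pow, Real.exp_le_exp]
          push_cast
          have := mul_le_mul a1 (show Real.log x / 2 ≤ Real.log (x / B) by linarith)
            (by linarith) (by positivity)
          linarith
      _ ≤ (x ^ A * (x / B) ^ i) ^ θ :=
          Real.rpow_le_rpow (by positivity)
            (le_mul_of_one_le_left (by positivity) (one_le_pow₀ x3)) hθ.le

theorem wNum_stmt : WNumStmt := by
  intro s A B δ θ hB hδ hθ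
  have hB' : (1 : ℝ) ≤ B := by exact_mod_cast hB
  have hD : 0 < (10 / θ + 1) ^ 2 * (4 * (B : ℝ)) := by positivity
  obtain ⟨K, K0, K1, K2⟩ : ∃ K : ℝ, 0 < K ∧ K ≤ 1 ∧ (10 / θ + 1) ^ 2 * (4 * B) * K ≤ δ ^ 2 :=
    ⟨min 1 (δ ^ 2 / ((10 / θ + 1) ^ 2 * (4 * B))), by positivity, min_le_left _ _,
      (le_div_iff₀' hD).1 (min_le_right _ _)⟩
  refine ⟨K / (2 * 2 ^ (s + 1)), by positivity, ?_⟩
  have M0 : 0 < (4 * (A : ℝ) + 2) / K := by positivity
  have h1 := Real.isLittleO_log_id_atTop.bound (c := (((4 * (A : ℝ) + 2) / K) ^ 3)⁻¹)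
    (by positivity)
  obtain ⟨n₀, h⟩ := eventually_atTop.1 (tendsto_natCast_atTop_atTop.eventually
    (h1.and ((eventually_ge_atTop ((B : ℝ) ^ 2)).and (eventually_ge_atTop (3 * (B : ℝ))))))
  refine ⟨n₀, fun n hn => ?_⟩
  obtain ⟨a1, a2, a3⟩ := h n hn
  have l0 : 0 < Real.log n := Real.log_pos (by linarith)
  have q0 : 0 ≤ (n : ℝ) / Real.log n := by positivity
  have hm : (((n : ℝ) / Real.log n) ^ (1 / 3 : ℝ)) ^ 3 = n / Real.log n := by
    rw [← Real.rpow_natCast, ← Real.rpow_mul q0]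
    norm_num
  rw [Real.norm_of_nonneg l0.le, id, Real.norm_of_nonneg (Nat.cast_nonneg n),
    le_inv_mul_iff₀ (by positivity), ← le_div_iff₀ l0, ← hm] at a1
  have a4 := le_of_pow_le_pow_left₀ (by norm_num) (Real.rpow_nonneg q0 _) a1
  rw [div_le_iff₀' K0] at a4
  obtain ⟨j, i, b1, b2, b3⟩ := core_WNum A B δ θ K n _ hB' hδ hθ K0 K1 K2 a2 a3 hm a4
  refine ⟨j, i, b1, le_of_eq_of_le ?_ b2, b3⟩
  field_simp

end Pool.Agent.MP_4fffd4_nt.AN

end
end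

section

open Finset Filter
open scoped BigOperators ComplexConjugate Topology
noncomputable section
namespace Pool.Agent.MP_4fffd4_nt.AN
open Pool.Agent.MP_4fffd4_nt.SX

theorem box_WRat (F : ℂ → ℂ) (hF : Continuous F) (h0 : ∀ s : ℂ, 1 ≤ s.re → F s ≠ 0) :
    ∃ C : ℝ, 1 ≤ C ∧ ∀ s₁ ∈ Set.Icc (1 : ℝ) 2 ×ℂ Set.Icc (-1 : ℝ) 1,
      ∀ s₂ ∈ Set.Icc (1 : ℝ) 2 ×ℂ Set.Icc (-1 : ℝ) 1, ‖F s₂‖ ≤ C * ‖F s₁‖ := by
  have hK : IsCompact (Set.Icc (1 : ℝ) 2 ×ℂ Set.Icc (-1 : ℝ) 1) :=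
    isCompact_Icc.reProdIm isCompact_Icc
  obtain ⟨z, hz, hm⟩ := hK.exists_isMinOn ⟨1, by simp [Complex.mem_reProdIm]⟩
    hF.norm.continuousOn
  obtain ⟨M, hM⟩ := hK.exists_bound_of_continuousOn hF.continuousOn
  have hp : 0 < ‖F z‖ := norm_pos_iff.2 (h0 z hz.1.1)
  refine ⟨max 1 (M / ‖F z‖), le_max_left _ _, fun s₁ h1 s₂ h2 => ?_⟩
  calc ‖F s₂‖ ≤ M / ‖F z‖ * ‖F z‖ := by rw [div_mul_cancel₀ _ hp.ne']; exact hM _ h2
    _ ≤ _ := mul_le_mul (le_max_right _ _) (hm h1) hp.le (zero_le_one.trans (le_max_left _ _))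

theorem wRat_stmt : WRatStmt := by
  intro q _ χ
  have hb : ∀ δ t : ℝ, 0 < δ → δ ≤ 1 → |t| ≤ 1 → ((1 + δ : ℝ) : ℂ) + (t : ℂ) * Complex.I ∈
      Set.Icc (1 : ℝ) 2 ×ℂ Set.Icc (-1 : ℝ) 1 := fun δ t h1 h2 h3 => by
    simp only [Complex.mem_reProdIm, Set.mem_Icc]
    simp
    exact ⟨⟨h1.le, by linarith⟩, abs_le.1 h3⟩
  have hL : ∀ δ t : ℝ, 0 < δ → LSeries (fun n : ℕ => χ n) (((1 + δ : ℝ) : ℂ) + (t : ℂ) * Complex.I) =
      χ.LFunction (((1 + δ : ℝ) : ℂ) + (t : ℂ) * Complex.I) := fun δ t h =>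
    (χ.LFunction_eq_LSeries (by simpa using h)).symm
  by_cases hχ : χ = 1
  · subst hχ
    obtain ⟨C, hC, h⟩ := box_WRat (DirichletCharacter.LFunctionTrivChar₁ q)
      (DirichletCharacter.differentiable_LFunctionTrivChar₁ q).continuous (fun s hs => by
        rcases eq_or_ne s 1 with rfl | h1
        · exact DirichletCharacter.LFunctionTrivChar₁_apply_one_ne_zero q
        · rw [DirichletCharacter.LFunctionTrivChar₁, Function.update_of_ne h1]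
          exact mul_ne_zero (sub_ne_zero.2 h1)
            (DirichletCharacter.LFunction_ne_zero_of_one_le_re _ (.inr h1) hs))
    refine ⟨C, hC, fun δ₁ δ₂ t h1 h2 h3 h4 => ?_⟩
    have h5 := h _ (hb δ₁ t h1 (h2.trans h3) h4) _ (hb δ₂ t (h1.trans_le h2) h3 h4)
    have hne : ∀ δ : ℝ, 0 < δ → ((1 + δ : ℝ) : ℂ) + (t : ℂ) * Complex.I ≠ 1 := fun δ hδ e => by
      have := congrArg Complex.re e
      simp at this
      exact hδ.ne' this
    rw [DirichletCharacter.LFunctionTrivChar₁, Function.update_of_ne (hne δ₁ h1),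
      Function.update_of_ne (hne δ₂ (h1.trans_le h2)), norm_mul, norm_mul] at h5
    have h6 : ‖((1 + δ₁ : ℝ) : ℂ) + (t : ℂ) * Complex.I - 1‖ ≤
        ‖((1 + δ₂ : ℝ) : ℂ) + (t : ℂ) * Complex.I - 1‖ := by
      refine (pow_le_pow_iff_left₀ (norm_nonneg _) (norm_nonneg _) two_ne_zero).1 ?_
      rw [← Complex.normSq_eq_norm_sq, ← Complex.normSq_eq_norm_sq, Complex.normSq_apply,
        Complex.normSq_apply]
      simp
      nlinarith
    rw [hL δ₁ t h1, hL δ₂ t (h1.trans_le h2)]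
    refine le_of_mul_le_mul_left (h5.trans ?_)
      (norm_pos_iff.2 (sub_ne_zero.2 (hne δ₂ (h1.trans_le h2))))
    rw [mul_left_comm]
    exact mul_le_mul_of_nonneg_right h6 (by positivity)
  · obtain ⟨C, hC, h⟩ := box_WRat χ.LFunction
      (DirichletCharacter.differentiable_LFunction hχ).continuous
      fun s hs => χ.LFunction_ne_zero_of_one_le_re (.inl hχ) hs
    refine ⟨C, hC, fun δ₁ δ₂ t h1 h2 h3 h4 => ?_⟩
    rw [hL δ₁ t h1, hL δ₂ t (h1.trans_le h2)]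
    exact h _ (hb δ₁ t h1 (h2.trans h3) h4) _ (hb δ₂ t (h1.trans_le h2) h3 h4)

end Pool.Agent.MP_4fffd4_nt.AN

end
end
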