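import Pool.Agent.Mg.F4fffd4.G3529f8
import Pool.Agent.MP_357fb4_an.BoxFL

set_option linter.all false


section

/-!
The sieve bound for cubes of primes.
-/

open Finset Filter
open scoped BigOperators ComplexConjugate Topology

noncomputable section

namespace Pool.Agent.MP_4fffd4_nt.SX

/-- The coefficients of the forms. -/
def c_Sieve {s : ℕ} (i : Bool × (Fin s → Bool)) : Bool ⊕ (Fin s × Bool) → ℤ :=
  Sum.elim (fun b => if b = i.1 then 1 else 0) fun p => if i.2 p.1 = p.2 then 1 else 0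

lemma sep_Sieve (s : ℕ) : Pool.Agent.GT.Sep (c_Sieve (s := s)) 1 := by
  refine ⟨fun i v => ?_, fun i => ⟨Sum.inl i.1, by simp [c_Sieve]⟩, fun i j hij => ?_⟩
  · rcases v with b | p <;> simp only [c_Sieve, Sum.elim_inl, Sum.elim_inr] <;> split_ifs <;> simp
  · by_cases h : i.1 = j.1
    · have h2 : i.2 ≠ j.2 := fun e => hij (Prod.ext h e)
      obtain ⟨k, hk⟩ := Function.ne_iff.1 h2
      exact ⟨Sum.inr (k, i.2 k), by simp [c_Sieve], by simp [c_Sieve, hk.symm]⟩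
    · exact ⟨Sum.inl i.1, by simp [c_Sieve], by simp [c_Sieve, h]⟩

lemma sum_c_Sieve {s : ℕ} (i : Bool × (Fin s → Bool)) (y : Bool ⊕ (Fin s × Bool) → ℤ) :
    ∑ v, c_Sieve i v * y v = y (Sum.inl i.1) + ∑ j, y (Sum.inr (j, i.2 j)) := by
  rw [Fintype.sum_sum_type, Fintype.sum_prod_type]
  simp only [c_Sieve, Sum.elim_inl, Sum.elim_inr, ite_mul, one_mul, zero_mul, sum_ite_eq,
    sum_ite_eq', mem_univ, if_true]

/-- The point of the box attached to two cubes. -/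
def phi_Sieve {s H : ℕ} (Q : ℕ) (p : ((Fin s → Fin H) × (Fin s → Fin H)) × ℤ × ℤ) :
    Bool ⊕ (Fin s × Bool) → Fin (Q + s * H + H + 1) :=
  Sum.elim (fun b => Fin.ofNat _ ((if b then p.2.2 else p.2.1) + (s * H : ℕ)).toNat)
    fun q => Fin.castLE (by omega) (if q.2 then p.1.2 q.1 else p.1.1 q.1)

lemma phi_inl_Sieve {s H Q : ℕ} (p : ((Fin s → Fin H) × (Fin s → Fin H)) × ℤ × ℤ)
    (h1 : p.2.1 ∈ Ioc (-((s * H : ℕ) : ℤ)) (Q : ℤ)) (h2 : p.2.2 ∈ Ioc (-((s * H : ℕ) : ℤ)) (Q : ℤ))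
    (b : Bool) : ((phi_Sieve Q p (Sum.inl b) : ℕ) : ℤ) = (if b then p.2.2 else p.2.1) + (s * H : ℕ) := by
  rw [mem_Ioc] at h1 h2
  have h : (if b then p.2.2 else p.2.1) ≤ (Q : ℤ) ∧ -((s * H : ℕ) : ℤ) < (if b then p.2.2 else p.2.1) := by
    split_ifs
    · exact ⟨h2.2, h2.1⟩
    · exact ⟨h1.2, h1.1⟩
  simp only [phi_Sieve, Sum.elim_inl, Fin.val_ofNat]
  generalize (if b then p.2.2 else p.2.1) = d at h
  generalize s * H = m at h
  rw [Nat.mod_eq_of_lt (by omega)]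
  omega

lemma comb_Sieve {s H Q : ℕ} (θ : ℤ → ℝ) (h0 : ∀ x, 0 ≤ θ x) :
    ∑ u : Fin s → Fin H, ∑ u' : Fin s → Fin H, rr θ Q u u' ^ 2 ≤
      ∑ h : Bool ⊕ (Fin s × Bool) → Fin (Q + s * H + H + 1), ∏ i : Bool × (Fin s → Bool),
        θ (1 * ∑ v, c_Sieve i v * ((h v : ℕ) : ℤ) + -((s * H : ℕ) : ℤ)) := by
  set J : Finset ℤ := Ioc (-((s * H : ℕ) : ℤ)) (Q : ℤ) with hJ
  set G : (Bool ⊕ (Fin s × Bool) → Fin (Q + s * H + H + 1)) → ℝ := fun h =>
    ∏ i : Bool × (Fin s → Bool), θ (1 * ∑ v, c_Sieve i v * ((h v : ℕ) : ℤ) + -((s * H : ℕ) : ℤ))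
    with hG
  have e : ∑ u : Fin s → Fin H, ∑ u' : Fin s → Fin H, rr θ Q u u' ^ 2 =
      ∑ p ∈ (univ : Finset ((Fin s → Fin H) × (Fin s → Fin H))) ×ˢ (J ×ˢ J), G (phi_Sieve Q p) := by
    rw [sum_product, Fintype.sum_prod_type]
    refine sum_congr rfl fun u _ => sum_congr rfl fun u' _ => ?_
    rw [sq, rr, sum_mul_sum, sum_product]
    refine sum_congr rfl fun d hd => sum_congr rfl fun d' hd' => ?_
    simp only [hG]
    rw [Fintype.prod_prod_type, Fintype.prod_bool, mul_comm]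
    congr 1
    all_goals
      refine prod_congr rfl fun ω _ => ?_
      rw [sum_c_Sieve (_, ω) fun v => ((phi_Sieve Q ((u, u'), d, d') v : ℕ) : ℤ),
        phi_inl_Sieve ((u, u'), d, d') hd hd']
      congr 1
      simp only [phi_Sieve, mix, Sum.elim_inr, Fin.val_castLE, if_true, Bool.false_eq_true,
        if_false]
      ring
  rw [e, ← sum_image (f := G)]
  · exact sum_le_sum_of_subset_of_nonneg (subset_univ _) fun h _ _ => prod_nonneg fun i _ => h0 _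
  · rintro ⟨⟨u, u'⟩, d, d'⟩ hp ⟨⟨t, t'⟩, f, f'⟩ hq h
    simp only [coe_product, Set.mem_prod, mem_coe] at hp hq
    have a1 := phi_inl_Sieve ((u, u'), d, d') hp.2.1 hp.2.2
    have a2 := phi_inl_Sieve ((t, t'), f, f') hq.2.1 hq.2.2
    rw [h] at a1
    have b1 := (a1 false).symm.trans (a2 false)
    have b2 := (a1 true).symm.trans (a2 true)
    simp only [Bool.false_eq_true, if_false, if_true, add_left_inj] at b1 b2
    have c1 : u = t := funext fun j => by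
      have := congrFun h (Sum.inr (j, false))
      simpa [phi_Sieve] using this
    have c2 : u' = t' := funext fun j => by
      have := congrFun h (Sum.inr (j, true))
      simpa [phi_Sieve] using this
    rw [b1, b2, c1, c2]

lemma Vp_le_Sieve {w z : ℕ} (hw : 1 ≤ w) (h : w ≤ z) :
    MP_357fb4_an.Vp w z * Real.log (z + 1) ≤ w := by
  have hR : ∀ a b : ℕ, MP_357fb4_an.nuI a b 1 = (MP_357fb4_an.Vp a b)⁻¹ := fun a b =>
    if_pos fun q hq hd => (MP_357fb4_an.Nu_mem.1 hq).2.2.one_lt.ne'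
      (by exact_mod_cast Int.eq_one_of_dvd_one (Int.natCast_nonneg q) hd)
  have h1 := MP_357fb4_an.nuI_split h 1
  rw [hR, hR, hR] at h1
  have h2 := MP_357fb4_an.log_le_inv_Vp z
  have h3 := MP_357fb4_an.inv_Vp_le 0 hw
  have h4 := MP_357fb4_an.Vp_pos w z
  rw [h1] at h2
  calc _ ≤ MP_357fb4_an.Vp w z * (w * (MP_357fb4_an.Vp w z)⁻¹) := by
        gcongr
        exact h2.trans (by gcongr)
    _ = w := by field_simp

end Pool.Agent.MP_4fffd4_nt.SX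

end
end

section

open Finset Filter
open scoped BigOperators ComplexConjugate Topology
noncomputable section
namespace Pool.Agent.MP_4fffd4_nt.AN
open Pool.Agent.MP_4fffd4_nt.SX

lemma le_SieveW {w z : ℕ} {t : ℝ} {x : ℤ} (h1 : t ≤ 1) (h : t ≠ 0 → x.toNat.Prime ∧ (z : ℤ) < x) :
    t ≤ MP_357fb4_an.Vp w z * MP_357fb4_an.nuI w z x := by
  by_cases h0 : t = 0
  · rw [h0]
    exact mul_nonneg (MP_357fb4_an.Vp_pos w z).le (MP_357fb4_an.nuI_nonneg w z x)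
  obtain ⟨hp, h2⟩ := h h0
  have hx : x = (x.toNat : ℕ) := by have := hp.pos; omega
  have hR : MP_357fb4_an.Rough w z x := fun q hq hd => by
    obtain ⟨-, a, c⟩ := MP_357fb4_an.Nu_mem.1 hq
    rw [hx] at hd
    have := (Nat.prime_dvd_prime_iff_eq c hp).1 (Int.natCast_dvd_natCast.1 hd)
    omega
  rw [MP_357fb4_an.nuI, if_pos hR, mul_inv_cancel₀ (MP_357fb4_an.Vp_pos w z).ne']
  exact h1

theorem sieveW_stmt : SieveWStmt := by
  intro s
  obtain ⟨A, k, hA⟩ := MP_357fb4_an.box_fl (2 ^ (s + 1)) 1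
  obtain ⟨w₀, hw₀⟩ := hA 1 one_pos
  obtain ⟨w, hw, hw2⟩ : ∃ w : ℕ, w₀ ≤ w ∧ 4 ≤ w := ⟨max w₀ 4, le_max_left _ _, le_max_right _ _⟩
  obtain ⟨D, hD⟩ : ∃ D : ℕ, D = A * (k + 1) + 2 := ⟨_, rfl⟩
  have hD0 : (0 : ℝ) < D := by rw [hD]; positivity
  have hw0 : (0 : ℝ) < w := by exact_mod_cast (by omega : 0 < w)
  obtain ⟨A₀, hA₀⟩ := eventually_atTop.1 ((eventually_ge_atTop (2 : ℕ)).and
    (((tendsto_rpow_atTop (inv_pos.2 hD0)).comp tendsto_natCast_atTop_atTop).eventually_ge_atTop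
      (w : ℝ)))
  refine ⟨(w * D) ^ 2 ^ (s + 1) * ((s : ℝ) + 4) ^ (2 * s + 2) * (2 * s + 20), A₀,
    by positivity, fun H y θ hH h01 hθ => ?_⟩
  obtain ⟨hK', hKw⟩ := hA₀ H hH
  have hKw : (w : ℝ) ≤ (H : ℝ) ^ (D : ℝ)⁻¹ := hKw
  have hK : (2 : ℝ) ≤ H := by exact_mod_cast hK'
  have hK0 : (0 : ℝ) < H := by linarith
  have hl : 0 < Real.log H := Real.log_pos (by linarith)
  obtain ⟨z, hz⟩ : ∃ z : ℕ, z = ⌊(H : ℝ) ^ (D : ℝ)⁻¹⌋₊ := ⟨_, rfl⟩
  have hwz : w ≤ z := hz ▸ Nat.le_floor hKw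
  have hz1 : (1 : ℝ) ≤ z := by exact_mod_cast (by omega : 1 ≤ z)
  have hzD : (z : ℝ) ^ D ≤ H := by
    calc (z : ℝ) ^ D ≤ ((H : ℝ) ^ (D : ℝ)⁻¹) ^ D := by
          gcongr
          rw [hz]
          exact Nat.floor_le (by positivity)
      _ = H := Real.rpow_inv_natCast_pow hK0.le (by omega)
  have hzK : 4 * z ≤ H := by
    have h1 : z ^ 2 ≤ H := by exact_mod_cast (pow_le_pow_right₀ hz1 (by omega : 2 ≤ D)).trans hzD
    nlinarith
  have hzA : (z : ℝ) ^ (A * (k + 1)) ≤ H := (pow_le_pow_right₀ hz1 (by omega)).trans hzD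
  have hV : MP_357fb4_an.Vp w z ≤ w * D / Real.log H := by
    have h1 : Real.log ((H : ℝ) ^ (D : ℝ)⁻¹) ≤ Real.log (z + 1) :=
      Real.log_le_log (by positivity) (hz ▸ (Nat.lt_floor_add_one _).le)
    rw [Real.log_rpow hK0] at h1
    have h2 := Vp_le_Sieve (by omega) hwz
    have h3 := MP_357fb4_an.Vp_pos w z
    rw [le_div_iff₀ hl]
    calc _ = MP_357fb4_an.Vp w z * ((D : ℝ)⁻¹ * Real.log H) * D := by field_simp
      _ ≤ MP_357fb4_an.Vp w z * Real.log (z + 1) * D := by gcongr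
      _ ≤ _ := by gcongr
  have hM1 : (H : ℝ) ≤ ((H + s * H + H + 1 : ℕ) : ℝ) := by
    exact_mod_cast (by omega : H ≤ H + s * H + H + 1)
  have hM2 : ((H + s * H + H + 1 : ℕ) : ℝ) ≤ (s + 4) * H := by
    push_cast
    linarith
  have h1 := (abs_le.1 (hw₀ w z (H + s * H + H + 1) k hw le_rfl (by omega) (by omega)
    (Bool × (Fin s → Bool)) (Bool ⊕ (Fin s × Bool)) (by simp [pow_succ, mul_comm]) c_Sieve
    (sep_Sieve s) 1 (fun p hp _ hd => hp.one_lt.ne'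
      (by exact_mod_cast Int.eq_one_of_dvd_one (Int.natCast_nonneg p) hd))
    fun _ => y - ((s * H : ℕ) : ℤ))).2
  have h2 := comb_Sieve (s := s) (H := H) (Q := H) θ fun x => (h01 x).1
  rw [Pool.Agent.GT.av_eq_sum] at h1
  have hc1 : Fintype.card (Bool ⊕ (Fin s × Bool)) = 2 * s + 2 := by
    simp
    ring
  have hc2 : Fintype.card (Bool × (Fin s → Bool)) = 2 ^ (s + 1) := by simp [pow_succ, mul_comm]
  rw [Fintype.card_fun, hc1, Fintype.card_fin] at h1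
  generalize hM : H + s * H + H + 1 = M at h1 h2 hM1 hM2
  have hM0 : (0 : ℝ) < M := by linarith
  have h3 : ∑ h : Bool ⊕ (Fin s × Bool) → Fin M, ∏ i : Bool × (Fin s → Bool),
      θ (1 * ∑ v, c_Sieve i v * ((h v : ℕ) : ℤ) + -((s * H : ℕ) : ℤ)) ≤
      MP_357fb4_an.Vp w z ^ 2 ^ (s + 1) * ∑ h : Bool ⊕ (Fin s × Bool) → Fin M,
        ∏ i : Bool × (Fin s → Bool),
          MP_357fb4_an.nuI w z
            (1 * ∑ v, c_Sieve i v * ((h v : ℕ) : ℤ) + (y - ((s * H : ℕ) : ℤ))) := by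
    rw [mul_sum]
    refine sum_le_sum fun h _ => ?_
    rw [← hc2, ← card_univ, ← prod_const, ← prod_mul_distrib]
    refine prod_le_prod (fun i _ => (h01 _).1) fun i _ => le_SieveW (h01 _).2 fun h0 => ?_
    obtain ⟨a, b⟩ := hθ _ h0
    rw [show y + (1 * ∑ v, c_Sieve i v * ((h v : ℕ) : ℤ) + -((s * H : ℕ) : ℤ)) =
      1 * ∑ v, c_Sieve i v * ((h v : ℕ) : ℤ) + (y - ((s * H : ℕ) : ℤ)) by ring] at a b
    exact ⟨a, by omega⟩
  generalize (∑ h : Bool ⊕ (Fin s × Bool) → Fin M, ∏ i : Bool × (Fin s → Bool),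
    MP_357fb4_an.nuI w z (1 * ∑ v, c_Sieve i v * ((h v : ℕ) : ℤ) + (y - ((s * H : ℕ) : ℤ)))) = S
    at h1 h3
  have h4 : S ≤ (M : ℝ) ^ (2 * s + 2) * (2 * s + 20) := by
    have a1 : (16 : ℝ) / 2 ^ k ≤ 16 := div_le_self (by norm_num) (one_le_pow₀ one_le_two)
    have a2 : ((2 * s + 2 : ℕ) : ℝ) * (z : ℝ) ^ (A * (k + 1)) / M ≤ 2 * s + 2 := by
      rw [div_le_iff₀ hM0]
      push_cast
      gcongr
      exact hzA.trans hM1
    have a3 : S / (M : ℝ) ^ (2 * s + 2) ≤ 2 * s + 20 := by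
      push_cast at h1 a2
      linarith
    rwa [div_le_iff₀' (by positivity)] at a3
  have hV0 := MP_357fb4_an.Vp_pos w z
  simp only [Fintype.expect_eq_sum_div_card, ← sum_div, Fintype.card_fun, Fintype.card_fin]
  push_cast
  rw [div_div, div_le_iff₀ (by positivity)]
  have h5 : S ≤ ((s + 4) * H) ^ (2 * s + 2) * (2 * s + 20) := h4.trans (by gcongr)
  calc _ ≤ _ := h2.trans h3
    _ ≤ MP_357fb4_an.Vp w z ^ 2 ^ (s + 1) * (((s + 4) * H) ^ (2 * s + 2) * (2 * s + 20)) := by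
        gcongr
    _ ≤ (w * D / Real.log H) ^ 2 ^ (s + 1) * (((s + 4) * H) ^ (2 * s + 2) * (2 * s + 20)) := by
        gcongr
    _ = _ := by
        rw [div_pow, mul_pow, mul_pow]
        field_simp
        ring

end Pool.Agent.MP_4fffd4_nt.AN

end
end

section

open Finset Filter
open scoped BigOperators ComplexConjugate Topology

noncomputable section

namespace Pool.Agent.MP_4fffd4_nt.SX

theorem expand_Base1 {L : ℕ} (v x : Fin L → ℝ) :
    ∏ i, (1 - v i * x i) / 2 =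
      (1 / 2 : ℝ) ^ L * ∑ S ∈ (univ : Finset (Fin L)).powerset, (∏ i ∈ S, -v i) * ∏ i ∈ S, x i := by
  have h : ∀ i, (1 - v i * x i) / 2 = 1 / 2 * (1 + -v i * x i) := fun i => by ring
  simp only [h]
  rw [prod_mul_distrib, prod_const, card_univ, Fintype.card_fin, prod_one_add]
  simp only [prod_mul_distrib]

theorem pick_Base1 {L : ℕ} (v : Fin L → ℝ) (hv : ∀ i, |v i| = 1) (T : Finset (Fin L) → ℝ)
    (h0 : T ∅ = 1)
    (h : (1 / 2 : ℝ) ^ L * ∑ S ∈ (univ : Finset (Fin L)).powerset, (∏ i ∈ S, -v i) * T S ≤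
      (1 / 2) ^ (L + 1)) :
    ∃ S : Finset (Fin L), S.Nonempty ∧ (1 / 2 : ℝ) ^ (L + 1) ≤ |T S| := by
  by_contra hc
  push Not at hc
  have hp : (0 : ℝ) < (1 / 2) ^ L := by positivity
  rw [pow_succ, mul_le_mul_iff_right₀ hp,
    ← add_sum_erase _ _ (empty_mem_powerset (univ : Finset (Fin L))), prod_empty, h0] at h
  have h1 : ∀ S ∈ (univ : Finset (Fin L)).powerset.erase ∅,
      -(1 / 2 : ℝ) ^ (L + 1) ≤ (∏ i ∈ S, -v i) * T S := by
    intro S hS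
    have h2 := hc S (nonempty_iff_ne_empty.2 (ne_of_mem_erase hS))
    have h3 : |(∏ i ∈ S, -v i) * T S| = |T S| := by
      rw [abs_mul, abs_prod]
      simp [hv]
    linarith [neg_abs_le ((∏ i ∈ S, -v i) * T S)]
  have h2 := card_nsmul_le_sum _ _ _ h1
  rw [card_erase_of_mem (empty_mem_powerset _), card_powerset, card_univ, Fintype.card_fin,
    nsmul_eq_mul, Nat.cast_sub Nat.one_le_two_pow] at h2
  push_cast at h2
  have h3 : (2 : ℝ) ^ L * (1 / 2) ^ (L + 1) = 1 / 2 := by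
    rw [pow_succ, ← mul_assoc, ← mul_pow]
    norm_num
  have h4 : (0 : ℝ) < (1 / 2) ^ (L + 1) := by positivity
  nlinarith

end Pool.Agent.MP_4fffd4_nt.SX

end
end

section

open Finset Filter
open scoped BigOperators ComplexConjugate Topology Pointwise

noncomputable section

namespace Pool.Agent.MP_4fffd4_nt.AN

open Pool.Agent.MP_4fffd4_nt.SX

lemma le_UBSieve {K : ℝ} {w z D₀ D : ℕ} {Θ : Finset ℕ} (hD : D₀ < D) (hz : (z : ℝ) ^ D ≤ K)
    (hΘ : ∀ h ∈ Θ, 1 ≤ h ∧ ∀ q : ℕ, q.Prime → q ∣ h → K ≤ (q : ℝ) ^ D₀) (x : ℤ) :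
    (if x.toNat ∈ Θ then (1 : ℝ) else 0) ≤ MP_357fb4_an.Vp w z * MP_357fb4_an.nuI w z x := by
  split_ifs with h
  · obtain ⟨h1, h2⟩ := hΘ _ h
    have hx : x = (x.toNat : ℕ) := by omega
    have hR : MP_357fb4_an.Rough w z x := fun q hq hd => by
      obtain ⟨-, a, c⟩ := MP_357fb4_an.Nu_mem.1 hq
      rw [hx] at hd
      have h3 := h2 q c (Int.natCast_dvd_natCast.1 hd)
      have h4 : (1 : ℝ) < q := by exact_mod_cast c.one_lt
      have h5 : (q : ℝ) ^ D ≤ (z : ℝ) ^ D :=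
        pow_le_pow_left₀ (by positivity) (by exact_mod_cast a) _
      have h6 := pow_lt_pow_right₀ h4 hD
      linarith
    rw [MP_357fb4_an.nuI, if_pos hR, mul_inv_cancel₀ (MP_357fb4_an.Vp_pos w z).ne']
  · exact mul_nonneg (MP_357fb4_an.Vp_pos w z).le (MP_357fb4_an.nuI_nonneg w z x)

theorem sieveR_stmt : SieveRStmt := by
  intro s D₀
  obtain ⟨A, k, hA⟩ := MP_357fb4_an.box_fl (2 ^ (s + 1)) 1
  obtain ⟨w₀, hw₀⟩ := hA 1 one_pos
  obtain ⟨w, hw, hw2⟩ : ∃ w : ℕ, w₀ ≤ w ∧ 2 ≤ w := ⟨max w₀ 2, le_max_left _ _, le_max_right _ _⟩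
  obtain ⟨D, hD⟩ : ∃ D : ℕ, D = A * (k + 1) + D₀ + 1 := ⟨_, rfl⟩
  have hD0 : (0 : ℝ) < D := by rw [hD]; positivity
  have hw0 : (0 : ℝ) < w := by exact_mod_cast (by omega : 0 < w)
  obtain ⟨K₁, hK₁⟩ := eventually_atTop.1 ((eventually_ge_atTop (2 : ℝ)).and
    ((tendsto_rpow_atTop (inv_pos.2 hD0)).eventually_ge_atTop (w : ℝ)))
  refine ⟨(w * D) ^ 2 ^ (s + 1) * (((s : ℝ) + 4) ^ (2 * s + 2) * 2 ^ (2 * s)) * (2 * s + 20), K₁,
    by positivity, fun K Θ hKK hΘ => ?_⟩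
  obtain ⟨hK, hKw⟩ := hK₁ K hKK
  set th : ℤ → ℝ := fun d => if d.toNat ∈ Θ then 1 else 0 with hth
  have hth0 : ∀ x, 0 ≤ th x := fun x => by
    simp only [hth]
    split_ifs <;> norm_num
  have hK0 : 0 < K := by linarith
  have hl : 0 < Real.log K := Real.log_pos (by linarith)
  obtain ⟨z, hz⟩ : ∃ z : ℕ, z = ⌊K ^ (D : ℝ)⁻¹⌋₊ := ⟨_, rfl⟩
  have hwz : w ≤ z := hz ▸ Nat.le_floor hKw
  have hz1 : (1 : ℝ) ≤ z := by exact_mod_cast (by omega : 1 ≤ z)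
  have hzD : (z : ℝ) ^ D ≤ K := by
    calc (z : ℝ) ^ D ≤ (K ^ (D : ℝ)⁻¹) ^ D := by
          gcongr
          rw [hz]
          exact Nat.floor_le (by positivity)
      _ = K := Real.rpow_inv_natCast_pow hK0.le (by omega)
  have hth1 : ∀ x, th x ≤ MP_357fb4_an.Vp w z * MP_357fb4_an.nuI w z x :=
    le_UBSieve (by omega : D₀ < D) hzD hΘ
  have hzA : (z : ℝ) ^ (A * (k + 1)) ≤ K := (pow_le_pow_right₀ hz1 (by omega)).trans hzD
  have hV : MP_357fb4_an.Vp w z ≤ w * D / Real.log K := by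
    have h1 : Real.log (K ^ (D : ℝ)⁻¹) ≤ Real.log (z + 1) :=
      Real.log_le_log (by positivity) (hz ▸ (Nat.lt_floor_add_one _).le)
    rw [Real.log_rpow hK0] at h1
    have h2 := Vp_le_Sieve (by omega) hwz
    have h3 := MP_357fb4_an.Vp_pos w z
    rw [le_div_iff₀ hl]
    calc _ = MP_357fb4_an.Vp w z * ((D : ℝ)⁻¹ * Real.log K) * D := by field_simp
      _ ≤ MP_357fb4_an.Vp w z * Real.log (z + 1) * D := by gcongr
      _ ≤ _ := by gcongr
  have hH1 : (⌊K⌋₊ : ℝ) ≤ K := Nat.floor_le hK0.le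
  have hH2 : K < ⌊K⌋₊ + 1 := Nat.lt_floor_add_one K
  have hQ : (⌊2 * K⌋₊ : ℝ) ≤ 2 * K := Nat.floor_le (by positivity)
  generalize ⌊K⌋₊ = H at hH1 hH2 ⊢
  generalize ⌊2 * K⌋₊ = Q at hQ ⊢
  have hH3 : K / 2 ≤ H := by linarith
  have hH0 : (0 : ℝ) < H := by linarith
  have hM1 : K ≤ ((Q + s * H + H + 1 : ℕ) : ℝ) := by
    push_cast
    have : (0 : ℝ) ≤ Q + s * H := by positivity
    linarith
  have hM2 : ((Q + s * H + H + 1 : ℕ) : ℝ) ≤ (s + 4) * K := by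
    push_cast
    have : (s : ℝ) * H ≤ s * K := by gcongr
    linarith
  have h1 := (abs_le.1 (hw₀ w z (Q + s * H + H + 1) k hw le_rfl (by omega) (by omega)
    (Bool × (Fin s → Bool)) (Bool ⊕ (Fin s × Bool)) (by simp [pow_succ, mul_comm]) c_Sieve
    (sep_Sieve s) 1 (fun p hp _ hd => hp.one_lt.ne'
      (by exact_mod_cast Int.eq_one_of_dvd_one (Int.natCast_nonneg p) hd))
    fun _ => -((s * H : ℕ) : ℤ))).2
  have h2 := comb_Sieve (s := s) (H := H) (Q := Q) th hth0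
  rw [Pool.Agent.GT.av_eq_sum] at h1
  have hc1 : Fintype.card (Bool ⊕ (Fin s × Bool)) = 2 * s + 2 := by
    simp
    ring
  have hc2 : Fintype.card (Bool × (Fin s → Bool)) = 2 ^ (s + 1) := by simp [pow_succ, mul_comm]
  rw [Fintype.card_fun, hc1, Fintype.card_fin] at h1
  generalize hM : Q + s * H + H + 1 = M at h1 h2 hM1 hM2
  have hM0 : (0 : ℝ) < M := by linarith
  have h3 : ∑ h : Bool ⊕ (Fin s × Bool) → Fin M, ∏ i : Bool × (Fin s → Bool),
      th (1 * ∑ v, c_Sieve i v * ((h v : ℕ) : ℤ) + -((s * H : ℕ) : ℤ)) ≤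
      MP_357fb4_an.Vp w z ^ 2 ^ (s + 1) * ∑ h : Bool ⊕ (Fin s × Bool) → Fin M,
        ∏ i : Bool × (Fin s → Bool),
          MP_357fb4_an.nuI w z (1 * ∑ v, c_Sieve i v * ((h v : ℕ) : ℤ) + -((s * H : ℕ) : ℤ)) := by
    rw [mul_sum]
    refine sum_le_sum fun h _ => ?_
    rw [← hc2, ← card_univ, ← prod_const, ← prod_mul_distrib]
    exact prod_le_prod (fun i _ => hth0 _) fun i _ => hth1 _
  generalize (∑ h : Bool ⊕ (Fin s × Bool) → Fin M, ∏ i : Bool × (Fin s → Bool),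
    MP_357fb4_an.nuI w z (1 * ∑ v, c_Sieve i v * ((h v : ℕ) : ℤ) + -((s * H : ℕ) : ℤ))) = S
    at h1 h3
  have h4 : S ≤ (M : ℝ) ^ (2 * s + 2) * (2 * s + 20) := by
    have a1 : (16 : ℝ) / 2 ^ k ≤ 16 := div_le_self (by norm_num) (one_le_pow₀ one_le_two)
    have a2 : ((2 * s + 2 : ℕ) : ℝ) * (z : ℝ) ^ (A * (k + 1)) / M ≤ 2 * s + 2 := by
      rw [div_le_iff₀ hM0]
      push_cast
      gcongr
      exact hzA.trans hM1
    have a3 : S / (M : ℝ) ^ (2 * s + 2) ≤ 2 * s + 20 := by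
      push_cast at h1 a2
      linarith
    rwa [div_le_iff₀' (by positivity)] at a3
  have hV0 := MP_357fb4_an.Vp_pos w z
  simp only [Fintype.expect_eq_sum_div_card, ← sum_div, Fintype.card_fun, Fintype.card_fin]
  push_cast
  rw [div_div, div_le_iff₀ (by positivity)]
  have h5 : S ≤ ((s + 4) * K) ^ (2 * s + 2) * (2 * s + 20) := h4.trans (by gcongr)
  calc _ ≤ _ := h2.trans h3
    _ ≤ MP_357fb4_an.Vp w z ^ 2 ^ (s + 1) * (((s + 4) * K) ^ (2 * s + 2) * (2 * s + 20)) := by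
        gcongr
    _ ≤ (w * D / Real.log K) ^ 2 ^ (s + 1) * (((s + 4) * K) ^ (2 * s + 2) * (2 * s + 20)) := by
        gcongr
    _ = (w * D) ^ 2 ^ (s + 1) * (((s : ℝ) + 4) ^ (2 * s + 2) * 2 ^ (2 * s)) * (2 * s + 20) * K ^ 2 /
          Real.log K ^ 2 ^ (s + 1) * ((K / 2) ^ s * (K / 2) ^ s) := by
        rw [div_pow, mul_pow, mul_pow, div_pow]
        field_simp
        ring
    _ ≤ _ := by gcongr

end Pool.Agent.MP_4fffd4_nt.AN

end
end

section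

/-!
Assembly of the global steps.
-/

open Finset Filter
open scoped BigOperators ComplexConjugate Topology

noncomputable section

namespace Pool.Agent.MP_4fffd4_nt.AN

open Pool.Agent.MP_4fffd4_nt.SX

theorem iter_Main (A : ℝ → ℝ) (K₀ P δ η : ℝ) (hK : 0 < K₀) (hP : 1 ≤ P) (hη : 0 ≤ η)
    (h0 : ∀ K, K₀ ≤ K → K ≤ 2 * P * K₀ → δ ≤ A K)
    (h1 : ∀ K, K₀ ≤ K → ∃ p : ℝ, P ≤ p ∧ p ≤ 2 * P ∧ A (K / p) - η ≤ A K) (k : ℕ) :
    ∀ K, K₀ ≤ K → K ≤ K₀ * P ^ k → δ - k * η ≤ A K := by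
  induction k with
  | zero =>
    intro K a b
    simpa using h0 K a (by rw [pow_zero] at b; nlinarith)
  | succ k ih =>
    intro K a b
    rcases le_total K (2 * P * K₀) with h | h
    · have := h0 K a h
      have : 0 ≤ ((k + 1 : ℕ) : ℝ) * η := by positivity
      linarith
    · obtain ⟨p, p1, p2, p3⟩ := h1 K a
      have hp : 0 < p := by linarith
      have := ih (K / p) (by rw [le_div_iff₀ hp]; nlinarith) (by
        rw [div_le_iff₀ hp]
        refine b.trans ?_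
        rw [pow_succ, ← mul_assoc]
        gcongr)
      push_cast
      linarith

theorem ee_Main {s : ℕ} (i : Fin (s + 1)) (j : Fin s) : ee i j ≠ 0 ∧ |ee i j| ≤ s := by
  refine ⟨fun hj => ?_, ?_⟩
  · have h7 : ((i : ℕ) : ℤ) = ((i.succAbove j : ℕ) : ℤ) := sub_eq_zero.1 hj
    exact Fin.succAbove_ne i j (Fin.ext (by exact_mod_cast h7.symm))
  · have a := i.2
    have b := (i.succAbove j).2
    rw [ee, abs_le]
    constructor <;> omega

end Pool.Agent.MP_4fffd4_nt.AN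

end
end
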