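import Pool.Agent.Mg.F4fffd4.G3529f8

set_option linter.all false


section

open Finset Filter
open scoped BigOperators ComplexConjugate Topology

noncomputable section

namespace Pool.Agent.MP_4fffd4_nt.AN

open Pool.Agent.MP_4fffd4_nt.SX

lemma ev_Num (C u v : ℝ) (h : u < v) :
    ∀ᶠ x : ℝ in atTop, C * x ^ u * (1 + Real.log x) ≤ x ^ v := by
  have hr : 0 < (v - u) / 2 := by linarith
  have h1 := (isLittleO_log_rpow_atTop hr).bound (show (0 : ℝ) < 1 by norm_num)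
  have h2 := (tendsto_rpow_atTop hr).eventually_ge_atTop (2 * |C|)
  filter_upwards [h1, h2, eventually_ge_atTop (1 : ℝ)] with x a1 a2 a3
  have hx : 0 < x := by linarith
  have hl : 0 ≤ Real.log x := Real.log_nonneg a3
  have hp : 1 ≤ x ^ ((v - u) / 2) := Real.one_le_rpow a3 hr.le
  rw [Real.norm_of_nonneg hl, Real.norm_of_nonneg (by linarith), one_mul] at a1
  have e : x ^ v = x ^ ((v - u) / 2) * x ^ u * x ^ ((v - u) / 2) := by
    rw [← Real.rpow_add hx, ← Real.rpow_add hx]; congr 1; ring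
  have hu : 0 < x ^ u := Real.rpow_pos_of_pos hx u
  calc C * x ^ u * (1 + Real.log x) ≤ |C| * x ^ u * (1 + Real.log x) := by
        have := le_abs_self C
        gcongr
    _ ≤ |C| * x ^ u * (2 * x ^ ((v - u) / 2)) := by
        have : 0 ≤ |C| := abs_nonneg C
        gcongr; linarith
    _ = (2 * |C|) * x ^ u * x ^ ((v - u) / 2) := by ring
    _ ≤ x ^ ((v - u) / 2) * x ^ u * x ^ ((v - u) / 2) := by gcongr
    _ = x ^ v := e.symm

lemma ev2_Num (C u v : ℝ) (hC : 0 ≤ C) (h : u < v) :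
    ∀ᶠ x : ℝ in atTop, C * x ^ u ≤ x ^ v := by
  filter_upwards [ev_Num C u v h, eventually_ge_atTop (1 : ℝ)] with x a1 a3
  have hl : 0 ≤ Real.log x := Real.log_nonneg a3
  have hu : 0 ≤ C * x ^ u := mul_nonneg hC (Real.rpow_nonneg (by linarith) u)
  nlinarith [mul_nonneg hu hl]

end Pool.Agent.MP_4fffd4_nt.AN

end
end

section

open Finset Filter
open scoped BigOperators ComplexConjugate Topology Pointwise

noncomputable section

namespace Pool.Agent.MP_4fffd4_nt.AN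

open Pool.Agent.MP_4fffd4_nt.SX

theorem two_pow_UBNum (k : ℕ) : (2 : ℝ) ^ k = Real.exp (k * Real.log 2) := by
  rw [Real.exp_nat_mul, Real.exp_log (by norm_num)]

theorem fin_UBNum {A : ℕ} {c x k M W η : ℝ} (hc : 0 < c) (hx : 0 < x) (hW : W = x ^ η)
    (hη : η * ((2 * A + 2 : ℕ) : ℝ) = 1 / 100) (hW1 : 1 ≤ W) (hk0 : 0 ≤ k) (hk : k ≤ 2 * W)
    (hM0 : 0 ≤ M) (hM : M ≤ (A + 1) * W)
    (h : (2 * A * 2 ^ (2 * A) * (1 + 4 * A) * (A + 1) / c) * x ^ (-(1 / 100) : ℝ) ≤ x ^ (0 : ℝ)) :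
    ((2 * A : ℕ) : ℝ) * k ^ (2 * A) * (x ^ (-(1 / 50) : ℝ) * (1 + ((2 * A : ℕ) : ℝ) * k)) * M ≤ c := by
  have hA : (0 : ℝ) ≤ A := Nat.cast_nonneg A
  have hz : 0 < x ^ (-(1 / 50) : ℝ) := Real.rpow_pos_of_pos hx _
  have h1 : 1 + ((2 * A : ℕ) : ℝ) * k ≤ (1 + 4 * A) * W := by
    push_cast
    nlinarith [mul_le_mul_of_nonneg_left hk hA]
  have h2 : W ^ (2 * A + 2) * x ^ (-(1 / 50) : ℝ) = x ^ (-(1 / 100) : ℝ) := by
    rw [hW, ← Real.rpow_natCast, ← Real.rpow_mul hx.le, hη, ← Real.rpow_add hx]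
    norm_num
  rw [Real.rpow_zero, div_mul_eq_mul_div, div_le_one hc] at h
  calc ((2 * A : ℕ) : ℝ) * k ^ (2 * A) * (x ^ (-(1 / 50) : ℝ) * (1 + ((2 * A : ℕ) : ℝ) * k)) * M
      ≤ ((2 * A : ℕ) : ℝ) * (2 * W) ^ (2 * A) * (x ^ (-(1 / 50) : ℝ) * ((1 + 4 * A) * W)) *
        ((A + 1) * W) := by gcongr
    _ = 2 * A * 2 ^ (2 * A) * (1 + 4 * A) * (A + 1) * (W ^ (2 * A + 2) * x ^ (-(1 / 50) : ℝ)) := by
      push_cast
      ring
    _ ≤ c := by rw [h2]; exact h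

theorem mid_UBNum {x y j N P : ℝ} (hx : 2 ≤ x) (hy1 : x ^ (9 / 20 : ℝ) ≤ 2 * y) (hy2 : y ≤ x)
    (hy3 : 1 < y) (hN : y / (4 * Real.log y) ≤ N) (hj0 : 0 ≤ j) (hj : j ≤ x ^ (2 / 5 : ℝ))
    (hP : x ^ 4 ≤ P) {z : ℝ} (hz0 : 0 ≤ z) (hz : z ≤ x)
    (h1 : 8192 * x ^ (-(1 / 20) : ℝ) * (1 + Real.log x) ≤ x ^ (-(1 / 25) : ℝ))
    (h2 : 32 * x ^ (-2 : ℝ) ≤ x ^ (-(1 / 50) : ℝ)) :
    0 < N ∧ 16 * Real.sqrt (j / N) + 8 * z ^ 2 / (P - 1) ≤ x ^ (-(1 / 50) : ℝ) := by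
  have hx0 : 0 < x := by linarith
  have hly : 0 < Real.log y := Real.log_pos hy3
  have hlx : Real.log y ≤ Real.log x := Real.log_le_log (by linarith) hy2
  have hN0 : 0 < N := lt_of_lt_of_le (by positivity) hN
  refine ⟨hN0, ?_⟩
  have hq : 0 < x ^ (-(1 / 50) : ℝ) := Real.rpow_pos_of_pos hx0 _
  have hr : 0 < x ^ (-(1 / 20) : ℝ) := Real.rpow_pos_of_pos hx0 _
  have e1 : x ^ (2 / 5 : ℝ) = x ^ (-(1 / 20) : ℝ) * x ^ (9 / 20 : ℝ) := by
    rw [← Real.rpow_add hx0]; norm_num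
  have e2 : x ^ (-(1 / 25) : ℝ) = x ^ (-(1 / 50) : ℝ) * x ^ (-(1 / 50) : ℝ) := by
    rw [← Real.rpow_add hx0]; norm_num
  have h3 : y ≤ N * (4 * Real.log x) := by
    rw [div_le_iff₀ (by positivity)] at hN
    exact hN.trans (by gcongr)
  have h4 : j / N ≤ (x ^ (-(1 / 50) : ℝ) / 32) ^ 2 := by
    rw [div_le_iff₀ hN0]
    calc j ≤ x ^ (-(1 / 20) : ℝ) * (2 * y) := by rw [e1] at hj; exact hj.trans (by gcongr)
      _ ≤ x ^ (-(1 / 20) : ℝ) * (2 * (N * (4 * Real.log x))) := by gcongr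
      _ = (8192 * x ^ (-(1 / 20) : ℝ) * Real.log x) / 1024 * N := by ring
      _ ≤ (8192 * x ^ (-(1 / 20) : ℝ) * (1 + Real.log x)) / 1024 * N := by gcongr; linarith
      _ ≤ x ^ (-(1 / 25) : ℝ) / 1024 * N := by gcongr
      _ = _ := by rw [e2]; ring
  have h5 : Real.sqrt (j / N) ≤ x ^ (-(1 / 50) : ℝ) / 32 := by
    rw [Real.sqrt_le_left (by positivity)]
    exact h4
  have h6 : 8 * z ^ 2 / (P - 1) ≤ 16 * x ^ (-2 : ℝ) := by
    have h7 : (2 : ℝ) ≤ x ^ 4 := by nlinarith [pow_le_pow_left₀ (by norm_num : (0 : ℝ) ≤ 2) hx 4]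
    have h8 : z ^ 2 ≤ x ^ 2 := by gcongr
    have e3 : x ^ (-2 : ℝ) = 1 / x ^ 2 := by
      rw [Real.rpow_neg hx0.le, one_div]
      norm_num
    rw [e3, div_le_iff₀ (by linarith), mul_one_div, div_mul_eq_mul_div, le_div_iff₀ (by positivity)]
    nlinarith [mul_le_mul_of_nonneg_right h8 (sq_nonneg x)]
  linarith

theorem bNum_stmt (hC : ChebStmt) : BNumStmt := by
  intro s A c hA hc
  have hA' : (4 : ℝ) ≤ A := by exact_mod_cast hA
  obtain ⟨y₀, hy₀⟩ := eventually_atTop.1 hC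
  obtain ⟨η, hη⟩ : ∃ η : ℝ, η = 1 / (100 * ((2 * A + 2 : ℕ) : ℝ)) := ⟨_, rfl⟩
  have hη0 : 0 < η := by rw [hη]; positivity
  have hη1 : η * ((2 * A + 2 : ℕ) : ℝ) = 1 / 100 := by rw [hη]; field_simp
  have E1 := ev2_Num (2 * ((s : ℝ) + 2) + 1) (11 / 16) 1 (by positivity) (by norm_num)
  have E2 := (tendsto_rpow_atTop (show (0 : ℝ) < 9 / 20 by norm_num)).eventually_ge_atTop
    (2 * max y₀ 2)
  have E3 := ev_Num 8192 (-(1 / 20)) (-(1 / 25)) (by norm_num)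
  have E4 := ev2_Num 32 (-2) (-(1 / 50)) (by norm_num) (by norm_num)
  have E5 := ev_Num 1 0 η hη0
  have E6 := ev2_Num (2 * A * 2 ^ (2 * A) * (1 + 4 * A) * (A + 1) / c) (-(1 / 100)) 0
    (by positivity) (by norm_num)
  have E7 := Real.tendsto_log_atTop.eventually_ge_atTop (5 : ℝ)
  have Eall := (tendsto_natCast_atTop_atTop (R := ℝ)).eventually
    (E1.and (E2.and (E3.and (E4.and (E5.and (E6.and (E7.and (eventually_ge_atTop (2 : ℝ)))))))))
  obtain ⟨n₀, hn₀⟩ := eventually_atTop.1 Eall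
  refine ⟨n₀, fun n j K hn hj hj5 hK1 hK2 => ?_⟩
  obtain ⟨b1, b2, b3, b4, b5, b6, b7, b8⟩ := hn₀ n hn
  have hx : (0 : ℝ) < n := by linarith
  have hK0 : 0 < K := lt_of_lt_of_le (by positivity) hK1
  have ht1 : Real.log 2 < 1 := by linarith [Real.log_two_lt_d9]
  have ht2 : 1 / 2 < Real.log 2 := by linarith [Real.log_two_gt_d9]
  obtain ⟨L, hL⟩ : ∃ L, L = Real.log n := ⟨_, rfl⟩
  obtain ⟨M, hM⟩ : ∃ M, M = Real.log K := ⟨_, rfl⟩
  have hM1 : A * L ≤ M := by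
    rw [hL, hM, ← Real.log_pow]
    exact Real.log_le_log (by positivity) hK1
  have hM2 : M ≤ (A + 1) * L := by
    have := Real.log_le_log hK0 hK2
    rw [Real.log_pow] at this
    rw [hL, hM]
    exact_mod_cast this
  rw [← hL] at b7
  have hM0 : 0 < M := lt_of_lt_of_le (by positivity) hM1
  have hD : 0 < 20 * (A : ℝ) * Real.log 2 := by positivity
  obtain ⟨k₁, hk₁⟩ : ∃ k₁, k₁ = ⌊9 * M / (20 * A * Real.log 2)⌋₊ := ⟨_, rfl⟩
  obtain ⟨k₂, hk₂⟩ : ∃ k₂, k₂ = ⌈11 * M / (20 * A * Real.log 2)⌉₊ := ⟨_, rfl⟩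
  have c1 : (k₁ : ℝ) * (20 * A * Real.log 2) ≤ 9 * M := by
    rw [← le_div_iff₀ hD, hk₁]
    exact Nat.floor_le (by positivity)
  have c2 : 9 * M ≤ ((k₁ : ℝ) + 1) * (20 * A * Real.log 2) := by
    rw [← div_le_iff₀ hD, hk₁]
    exact (Nat.lt_floor_add_one _).le
  have c3 : 11 * M ≤ (k₂ : ℝ) * (20 * A * Real.log 2) := by
    rw [← div_le_iff₀ hD, hk₂]
    exact Nat.le_ceil _
  have c4 : ((k₂ : ℝ) - 1) * (20 * A * Real.log 2) ≤ 11 * M := by
    rw [← le_div_iff₀ hD, hk₂]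
    have := Nat.ceil_lt_add_one (show 0 ≤ 11 * M / (20 * A * Real.log 2) by positivity)
    linarith
  have hKe : ∀ m : ℕ, K ^ m = Real.exp (m * M) := fun m => by
    rw [Real.exp_nat_mul, hM, Real.exp_log hK0]
  have hxe : ∀ u : ℝ, (n : ℝ) ^ u = Real.exp (L * u) := fun u => by
    rw [hL, Real.rpow_def_of_pos hx]
  have hA0 : (0 : ℝ) < A := by linarith
  have d1 : (n : ℝ) ^ (9 / 20 : ℝ) ≤ 2 * 2 ^ k₁ := by
    rw [← pow_succ', two_pow_UBNum, hxe, Real.exp_le_exp]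
    push_cast
    refine le_of_mul_le_mul_left ?_ hA0
    nlinarith
  have d2 : (2 : ℝ) ^ k₂ ≤ 2 * (n : ℝ) ^ (11 / 16 : ℝ) := by
    have e : (2 : ℝ) * (n : ℝ) ^ (11 / 16 : ℝ) = Real.exp (Real.log 2 + L * (11 / 16)) := by
      rw [Real.exp_add, Real.exp_log (by norm_num), hxe]
    rw [e, two_pow_UBNum, Real.exp_le_exp]
    refine le_of_mul_le_mul_left ?_ hA0
    nlinarith [mul_le_mul_of_nonneg_right hA' (show 0 ≤ L by linarith)]
  have d3 : ((s : ℝ) + 2) * 2 ^ k₂ + 1 ≤ n := by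
    have h1 : (1 : ℝ) ≤ (n : ℝ) ^ (11 / 16 : ℝ) := Real.one_le_rpow (by linarith) (by norm_num)
    rw [Real.rpow_one] at b1
    have h2 : ((s : ℝ) + 2) * 2 ^ k₂ ≤ ((s : ℝ) + 2) * (2 * (n : ℝ) ^ (11 / 16 : ℝ)) := by gcongr
    linarith
  have d4 : (2 : ℝ) ^ k₂ ≤ n := by
    have : (0 : ℝ) ≤ ((s : ℝ) + 1) * 2 ^ k₂ := by positivity
    linarith
  refine ⟨k₁, k₂, (n : ℝ) ^ (-(1 / 50) : ℝ), ?_, by positivity, ?_, ?_, ?_, ?_, ?_, ?_⟩
  · rw [hk₂]
    exact Nat.ceil_pos.2 (by positivity)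
  · rw [two_pow_UBNum, ← Real.exp_nat_mul, hKe, Real.exp_le_exp]
    push_cast
    linarith
  · rw [two_pow_UBNum, ← Real.exp_nat_mul, hKe, Real.exp_le_exp]
    push_cast
    linarith
  · have e := hKe 1
    rw [pow_one] at e
    rw [two_pow_UBNum, ← Real.exp_nat_mul, e, Real.exp_le_exp]
    push_cast
    nlinarith [mul_le_mul_of_nonneg_left b7 hA0.le, mul_le_mul_of_nonneg_left ht1.le hA0.le]
  · exact_mod_cast d3
  · intro k h1 h2
    have h3 : (2 : ℝ) ^ k₁ ≤ 2 ^ k := pow_le_pow_right₀ (by norm_num) h1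
    have h4 : (2 : ℝ) ^ k ≤ 2 ^ k₂ := pow_le_pow_right₀ (by norm_num) h2.le
    have h5 : max y₀ 2 ≤ (2 : ℝ) ^ k := by linarith
    have h6 : (j : ℝ) ≤ (n : ℝ) ^ (2 / 5 : ℝ) := by
      refine le_of_pow_le_pow_left₀ (n := 5) (by norm_num) (by positivity) (hj5.trans_eq ?_)
      rw [← Real.rpow_natCast ((n : ℝ) ^ (2 / 5 : ℝ)), ← Real.rpow_mul hx.le, ← Real.rpow_natCast]
      norm_num
    have h7 : (n : ℝ) ^ 4 ≤ (n : ℝ) ^ (4 * j) := pow_le_pow_right₀ (by linarith) (by omega)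
    have h8 := mid_UBNum b8 (by linarith) (h4.trans d4) (by linarith [le_max_right y₀ 2])
      (hy₀ _ ((le_max_left _ _).trans h5)) (Nat.cast_nonneg j) h6 h7 (by positivity) d4 b3 b4
    exact ⟨card_pos.1 (by exact_mod_cast h8.1), h8.2⟩
  · rw [Real.rpow_zero, one_mul, one_mul, ← hL] at b5
    have h1 : (k₂ : ℝ) * Real.log 2 ≤ L := by
      rw [hL, ← Real.log_pow]
      exact Real.log_le_log (by positivity) d4
    have h2 : (0 : ℝ) ≤ k₂ := Nat.cast_nonneg _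
    rw [← hM]
    refine fin_UBNum hc hx rfl hη1 (by linarith) h2 (by nlinarith) hM0.le ?_ b6
    nlinarith

end Pool.Agent.MP_4fffd4_nt.AN

end
end

section

/-!
The Liouville function times a character has small mean in every window.
-/

open Finset Filter
open scoped BigOperators ComplexConjugate Topology

noncomputable section

namespace Pool.Agent.MP_4fffd4_nt.AN

open Pool.Agent.MP_4fffd4_nt.SX

theorem cm_VWin {q : ℕ} (χ : DirichletCharacter ℂ q) :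
    CM fun n : ℕ => χ n * (lam (n : ℤ) : ℂ) := by
  refine ⟨fun n => ?_, fun p m hp hm => ?_⟩
  · rw [norm_mul, norm_lam, mul_one]
    exact χ.norm_le_one _
  · have h1 : lam ((p * m : ℕ) : ℤ) = lam (p : ℤ) * lam (m : ℤ) := by
      rw [Nat.cast_mul]
      exact lam_mul (by exact_mod_cast hp.pos) (by exact_mod_cast hm)
    simp only [h1]
    rw [Nat.cast_mul, map_mul, Complex.ofReal_mul]
    ring

end Pool.Agent.MP_4fffd4_nt.AN

end
end

section

/-!
The Liouville function times a character has small mean in windows of length x ^ (1 - θ).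
-/

open Finset Filter
open scoped BigOperators ComplexConjugate Topology

noncomputable section

namespace Pool.Agent.MP_4fffd4_nt.AN

open Pool.Agent.MP_4fffd4_nt.SX

theorem pio_WWin {Z P : ℝ} (hP : 0 ≤ P) : ∀ p ∈ pio Z P, p.Prime ∧ (p : ℝ) ≤ P := by
  intro p hp
  rw [pio, mem_filter, mem_Ioc] at hp
  exact ⟨hp.2, (Nat.le_floor_iff hP).1 hp.1.2⟩

theorem wWin_stmt (h1 : VRangeStmt) (h2 : WPretStmt) (h3 : VAllStmt) : WWinStmt := by
  intro q _ χ ε hε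
  obtain ⟨c, J₀, hc, hP⟩ := h2 q χ
  obtain ⟨C, Z₀, hC, hZ₀, hall⟩ := h3
  have hη : 0 < ε / (8 * C) := by positivity
  obtain ⟨K, hK, hK2, hK3⟩ := ((h1 c ((ε / (8 * C)) ^ 2) hc (by positivity)).and
    ((eventually_ge_atTop 2).and (eventually_ge_atTop (40 * C / ε)))).exists
  have K0 : 0 < K := by linarith
  obtain ⟨I, hI⟩ := exists_nat_ge (max 16 ((32 / ε) ^ 2))
  have I1 : 16 ≤ I := by exact_mod_cast (le_max_left _ _).trans hI
  have I2 : 8 / Real.sqrt I ≤ ε / 4 := by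
    have s1 : 32 / ε ≤ Real.sqrt I := Real.le_sqrt_of_sq_le ((le_max_right _ _).trans hI)
    have s2 : 0 < Real.sqrt I := lt_of_lt_of_le (by positivity) s1
    rw [div_le_iff₀ hε] at s1
    rw [div_le_iff₀ s2]
    linarith
  obtain ⟨k, hk⟩ := exists_nat_ge K
  obtain ⟨J, hJ0, hJ⟩ : ∃ J : ℕ, J₀ ≤ J ∧ K ≤ (J : ℝ) / 16 :=
    ⟨J₀ + 16 * k, Nat.le_add_right _ _, by
      push_cast
      linarith [Nat.cast_nonneg (α := ℝ) J₀]⟩
  obtain ⟨a, ha⟩ : ∃ a : ℝ, a = ((2 ^ J : ℕ) : ℝ) * 5 := ⟨_, rfl⟩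
  have a5 : 5 ≤ a := by
    have : (1 : ℝ) ≤ ((2 ^ J : ℕ) : ℝ) := by exact_mod_cast Nat.one_le_two_pow
    linarith
  obtain ⟨D, hD⟩ : ∃ D : ℝ, D = 2 ^ I * (K * a) := ⟨_, rfl⟩
  have Ka : 2 * a ≤ K * a := by nlinarith
  have D1 : 2 * (K * a) ≤ D := by
    have : (2 : ℝ) ^ 1 ≤ 2 ^ I := pow_le_pow_right₀ one_le_two (by omega)
    rw [hD]
    exact mul_le_mul_of_nonneg_right (by linarith) (by linarith)
  have D0 : 0 < D := by linarith
  refine ⟨1 / (8 * D), by positivity, ?_⟩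
  have tP : Tendsto (fun s : ℝ => Real.exp (5 * s)) atTop atTop :=
    Real.tendsto_exp_atTop.comp (tendsto_id.const_mul_atTop (by norm_num))
  have tE : Tendsto (fun s : ℝ => Real.exp (-s)) atTop (𝓝 0) :=
    Real.tendsto_exp_neg_atTop_nhds_zero
  have ev := (tP.eventually (hP J hJ0)).and <| (eventually_ge_atTop (4 * Real.log K)).and <|
    (eventually_ge_atTop (Real.log (Z₀ * K))).and <|
    (tE.eventually_le_const (show 0 < ε / 12 by positivity)).and <|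
    (tE.eventually_le_const (show 0 < ε / (16 * C) by positivity)).and (eventually_ge_atTop 1)
  have ts : Tendsto (fun x : ℝ => Real.log x * (1 / (8 * D))) atTop atTop :=
    Real.tendsto_log_atTop.atTop_mul_const (by positivity)
  filter_upwards [ts.eventually ev, eventually_gt_atTop 0] with x hx x0 Y Y1 Y2
  rw [Real.rpow_def_of_pos x0] at Y2
  obtain ⟨s, es⟩ : ∃ s, s = Real.log x * (1 / (8 * D)) := ⟨_, rfl⟩
  rw [← es] at hx Y2
  have ex' : x = Real.exp (8 * (D * s)) := by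
    rw [es, show 8 * (D * (Real.log x * (1 / (8 * D)))) = Real.log x by field_simp,
      Real.exp_log x0]
  obtain ⟨⟨f1, f2⟩, f3, f4, f9, f10, f11⟩ := hx
  have eP : Real.exp (5 * s) ^ 2 ^ J = Real.exp (a * s) := by
    rw [← Real.exp_nat_mul, ha, mul_assoc]
  rw [eP] at f1 f2
  have lK : 0 ≤ Real.log K := Real.log_nonneg (by linarith)
  have Y0 : 0 < Y := by linarith
  have KY : 0 < K * Y := by positivity
  have q1 : 5 * s ≤ a * s := mul_le_mul_of_nonneg_right a5 (by linarith)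
  have q2 : 2 * (a * s) ≤ K * a * s := by nlinarith
  have q3 : 2 * (K * a * s) ≤ D * s := by nlinarith
  have Zp : ∀ n : ℕ, Real.exp (K * a * s) ^ n = Real.exp (n * (K * a * s)) := fun n =>
    (Real.exp_nat_mul _ n).symm
  have ZI : ∀ i : ℕ, i ≤ I → Real.exp (K * a * s) ^ 2 ^ i ≤ Real.exp (D * s) := fun i hi => by
    rw [Zp, Real.exp_le_exp, hD, mul_assoc (2 ^ I : ℝ)]
    have s1 : ((2 ^ i : ℕ) : ℝ) ≤ 2 ^ I := by exact_mod_cast Nat.pow_le_pow_right two_pos hi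
    exact mul_le_mul_of_nonneg_right s1 (by linarith)
  have Y3 : Y ≤ Real.exp (D * s) := Y2.trans (Real.exp_le_exp.2 (by linarith))
  have KY2 : K * Y ≤ Real.exp (Real.log K + s) := by
    rw [Real.exp_add, Real.exp_log K0]
    exact mul_le_mul_of_nonneg_left Y2 K0.le
  have KP : K * Real.exp (a * s) ^ 2 ≤ Real.exp (D * s) := by
    have : K * Real.exp (a * s) ^ 2 = Real.exp (Real.log K + 2 * (a * s)) := by
      rw [Real.exp_add, Real.exp_log K0, ← Real.exp_nat_mul]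
      norm_num
    rw [this, Real.exp_le_exp]
    linarith
  have E8 : 0 < Real.exp (D * s) := Real.exp_pos _
  have E2 : Real.exp (D * s) * Real.exp (D * s) ≤ x * Real.exp (-s) := by
    rw [ex', ← Real.exp_add, ← Real.exp_add, Real.exp_le_exp]
    linarith
  have E3 : Real.exp (D * s) * Real.exp (D * s) * Real.exp (D * s) ≤ x := by
    rw [ex', ← Real.exp_add, ← Real.exp_add, Real.exp_le_exp]
    linarith
  have ZY : Real.exp (K * a * s) ^ 2 ^ I * Y ≤ x * Real.exp (-s) :=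
    (mul_le_mul (ZI I le_rfl) Y3 Y0.le E8.le).trans E2
  have key := hall _ Y x (1 / (K * Y)) (Real.exp (K * a * s)) (ε / (8 * C)) I (cm_VWin χ) Y1
    (by positivity) (one_div_le_one_div_of_le two_pos (by nlinarith)) ?_ I1 ?_ hη.le ?_
  · refine key.trans ?_
    have t1 : 3 * Real.exp (K * a * s) ^ 2 ^ I * Real.sqrt (Y / x) ≤ ε / 4 := by
      have s1 : Real.sqrt (Y / x) ≤ Real.exp (-(3 * (D * s))) := by
        refine Real.sqrt_le_iff.2 ⟨(Real.exp_pos _).le, ?_⟩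
        rw [div_le_iff₀ x0, ex', ← Real.exp_nat_mul, ← Real.exp_add]
        refine Y3.trans (Real.exp_le_exp.2 ?_)
        push_cast
        linarith
      have s2 := mul_le_mul (ZI I le_rfl) s1 (Real.sqrt_nonneg _) E8.le
      rw [← Real.exp_add] at s2
      have s3 : Real.exp (D * s + -(3 * (D * s))) ≤ Real.exp (-s) :=
        Real.exp_le_exp.2 (by linarith)
      linarith
    have t2 : C * (ε / (8 * C)) = ε / 8 := by field_simp
    have t3 : C * (5 * Y * (1 / (K * Y))) ≤ ε / 8 := by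
      rw [show C * (5 * Y * (1 / (K * Y))) = 5 * C / K by field_simp, div_le_iff₀ K0]
      rw [div_le_iff₀ hε] at hK3
      linarith
    have t4 : C * (2 * Y * Real.exp (K * a * s) ^ 2 ^ I / x) ≤ ε / 8 := by
      have s1 : 2 * Y * Real.exp (K * a * s) ^ 2 ^ I / x ≤ 2 * (ε / (16 * C)) := by
        rw [div_le_iff₀ x0]
        have s2 := mul_le_mul_of_nonneg_left f10 x0.le
        linarith
      refine (mul_le_mul_of_nonneg_left s1 hC.le).trans (le_of_eq ?_)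
      field_simp
      norm_num
    rw [mul_add, mul_add, t2]
    linarith
  · rw [div_div_eq_mul_div, div_one]
    have s1 : Z₀ * (K * Y) ≤ Real.exp (Real.log (Z₀ * K) + s) := by
      rw [Real.exp_add, Real.exp_log (by positivity), ← mul_assoc]
      exact mul_le_mul_of_nonneg_left Y2 (by positivity)
    refine (pow_le_pow_left₀ (by positivity) s1 2).trans ?_
    rw [← Real.exp_nat_mul, Real.exp_le_exp]
    push_cast
    linarith
  · refine ZY.trans (mul_le_of_le_one_right x0.le ?_)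
    exact Real.exp_le_one_iff.2 (by linarith)
  · intro i hi
    refine hK _ (pio (Real.exp (5 * s)) (Real.exp (a * s))) (Real.exp (a * s)) Y _ _ (cm_VWin χ)
      (pio_WWin (Real.exp_pos _).le) (hJ.trans f1) Y1 (fun t ht => f2 t ?_) ?_ ?_
    · have s1 := pow_le_pow_left₀ (abs_nonneg t) (ht.trans KY2) 4
      rw [← Real.exp_nat_mul, (show Even 4 by decide).pow_abs] at s1
      refine s1.trans (Real.exp_le_exp.2 ?_)
      push_cast
      linarith
    · rw [le_div_iff₀ (by positivity)]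
      refine le_trans ?_ E3
      exact mul_le_mul (mul_le_mul KP Y3 Y0.le E8.le) (ZI _ hi) (by positivity) (by positivity)
    · refine le_trans ?_ (Nat.le_ceil _)
      rw [Real.log_exp, Zp, Real.log_exp, div_div_eq_mul_div, div_one]
      have s1 : (1 : ℝ) ≤ ((2 ^ i : ℕ) : ℝ) := by exact_mod_cast Nat.one_le_two_pow
      have s2 : K * a * s ≤ ((2 ^ i : ℕ) : ℝ) * (K * a * s) :=
        le_mul_of_one_le_left (by linarith) s1
      have s3 := mul_le_mul_of_nonneg_right s2 KY.le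
      calc K ^ 2 * Y * (a * s) = K * a * s * (K * Y) := by ring
        _ ≤ _ := s3

end Pool.Agent.MP_4fffd4_nt.AN

end
end
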