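import Pool.Agent.Mg.F4fffd4.G3529f8

set_option linter.all false


section

open Finset Filter
open scoped BigOperators ComplexConjugate Topology

noncomputable section

namespace Pool.Agent.MP_4fffd4_nt.AN

open Pool.Agent.MP_4fffd4_nt.SX

lemma mem_Par {k p : ℕ} (h : p ∈ prs ((2 : ℝ) ^ k)) : 2 ^ k < p ∧ p ≤ 2 ^ (k + 1) := by
  have h1 := mem_Ioc.1 (mem_filter.1 h).1
  have e1 : ((2 : ℝ) ^ k) = ((2 ^ k : ℕ) : ℝ) := by push_cast; rfl
  have e2 : (2 * (2 : ℝ) ^ k) = ((2 ^ (k + 1) : ℕ) : ℝ) := by push_cast; ring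
  rwa [e2, e1, Nat.floor_natCast, Nat.floor_natCast] at h1

lemma blk_Par (hC : ChebStmt) : ∃ k₀ : ℕ, 1 ≤ k₀ ∧ ∀ k, k₀ ≤ k →
    (Real.log ((k + 1 : ℕ) : ℝ) - Real.log k) / 8 ≤ ∑ p ∈ prs ((2 : ℝ) ^ k), (1 : ℝ) / p := by
  obtain ⟨k₀, hk₀⟩ := eventually_atTop.1
    ((tendsto_pow_atTop_atTop_of_one_lt (show (1 : ℝ) < 2 by norm_num)).eventually hC)
  refine ⟨k₀ + 1, by omega, fun k hk => ?_⟩
  have h1 := hk₀ k (by omega)
  have hk0 : (0 : ℝ) < k := by exact_mod_cast (by omega : 0 < k)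
  have h2 : (prs ((2 : ℝ) ^ k)).card • ((1 : ℝ) / 2 ^ (k + 1)) ≤
      ∑ p ∈ prs ((2 : ℝ) ^ k), (1 : ℝ) / p := card_nsmul_le_sum _ _ _ fun p hp => by
    obtain ⟨a1, a2⟩ := mem_Par hp
    have a3 : (0 : ℝ) < p := by exact_mod_cast (Nat.zero_le _).trans_lt a1
    exact one_div_le_one_div_of_le a3 (by exact_mod_cast a2)
  have h3 : Real.log ((k + 1 : ℕ) : ℝ) - Real.log k ≤ 1 / k := by
    rw [← Real.log_div (by positivity) hk0.ne']
    refine (Real.log_le_sub_one_of_pos (by positivity)).trans (le_of_eq ?_)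
    push_cast
    field_simp
    ring
  have hl2 : (0 : ℝ) < Real.log 2 := Real.log_pos (by norm_num)
  have hl2' : Real.log 2 ≤ 1 := by have := Real.log_two_lt_d9; linarith
  rw [Real.log_pow] at h1
  rw [nsmul_eq_mul] at h2
  refine le_trans ?_ (le_trans (mul_le_mul_of_nonneg_right h1 (by positivity)) h2)
  have e : (2 : ℝ) ^ k / (4 * (k * Real.log 2)) * (1 / 2 ^ (k + 1)) = 1 / k / 8 / Real.log 2 := by
    field_simp
    ring
  rw [e, le_div_iff₀ hl2]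
  have h4 : (0 : ℝ) ≤ 1 / k / 8 := by positivity
  have h5 : 0 ≤ Real.log ((k + 1 : ℕ) : ℝ) - Real.log k :=
    sub_nonneg.2 (Real.log_le_log hk0 (by push_cast; linarith))
  nlinarith

lemma sum_Par (hC : ChebStmt) : ∃ k₀ : ℕ, 1 ≤ k₀ ∧ ∀ k₁ k₂, k₀ ≤ k₁ → k₁ ≤ k₂ →
    (Real.log k₂ - Real.log k₁) / 8 ≤ ∑ p ∈ Prk k₁ k₂, (1 : ℝ) / p := by
  obtain ⟨k₀, h0, h⟩ := blk_Par hC
  refine ⟨k₀, h0, fun k₁ k₂ h1 h2 => ?_⟩
  have key : ∀ i j : ℕ, i < j → Disjoint (prs ((2 : ℝ) ^ i)) (prs ((2 : ℝ) ^ j)) :=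
    fun i j hij => disjoint_left.2 fun p hp hq => by
      have a1 := (mem_Par hp).2
      have a2 := (mem_Par hq).1
      have a3 : 2 ^ (i + 1) ≤ 2 ^ j := Nat.pow_le_pow_right (by norm_num) hij
      omega
  rw [Prk, sum_biUnion fun i _ j _ hij => (lt_or_gt_of_ne hij).elim (key i j) fun h' =>
    (key j i h').symm]
  induction k₂, h2 using Nat.le_induction with
  | base => simp
  | succ k hk ih =>
    rw [sum_Ico_succ_top hk]
    have := h k (by omega)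
    linarith

lemma pow_Par (c k : ℕ) {t : ℝ} (h : (k : ℝ) ≤ t) : ((2 : ℝ) ^ c) ^ k ≤ Real.exp (c * t) := by
  have h1 : (2 : ℝ) ≤ Real.exp 1 := by have := Real.add_one_le_exp (1 : ℝ); linarith
  calc ((2 : ℝ) ^ c) ^ k ≤ (Real.exp 1 ^ c) ^ k := by gcongr
    _ = Real.exp (c * k) := by rw [← pow_mul, ← Real.exp_nat_mul, mul_one, Nat.cast_mul]
    _ ≤ _ := by gcongr

lemma half_Par {Q D : ℕ} (hD : 0 < D) (h : D ≤ Q) :
    1 ≤ Q / D ∧ ((Q / D : ℕ) : ℝ) * D ≤ Q ∧ (Q : ℝ) ≤ 2 * ((Q / D : ℕ) : ℝ) * D := by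
  have h1 : 1 ≤ Q / D := (Nat.le_div_iff_mul_le hD).2 (by omega)
  have h2 : Q / D * D ≤ Q := Nat.div_mul_le_self _ _
  have h3 : Q < D * (Q / D + 1) := Nat.lt_mul_div_succ Q hD
  refine ⟨h1, by exact_mod_cast h2, ?_⟩
  have h4 : Q ≤ 2 * (Q / D) * D := by nlinarith
  exact_mod_cast h4

end Pool.Agent.MP_4fffd4_nt.AN

end
end

section

open Finset Filter
open scoped BigOperators ComplexConjugate Topology

noncomputable section

namespace Pool.Agent.MP_4fffd4_nt.AN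

open Pool.Agent.MP_4fffd4_nt.SX

theorem mem_prs_Sel {k a : ℕ} : a ∈ prs ((2 : ℝ) ^ k) ↔ (2 ^ k < a ∧ a ≤ 2 * 2 ^ k) ∧ a.Prime := by
  have h1 : ⌊(2 : ℝ) ^ k⌋₊ = 2 ^ k := by
    rw [show (2 : ℝ) ^ k = ((2 ^ k : ℕ) : ℝ) by push_cast; rfl, Nat.floor_natCast]
  have h2 : ⌊2 * (2 : ℝ) ^ k⌋₊ = 2 * 2 ^ k := by
    rw [show 2 * (2 : ℝ) ^ k = ((2 * 2 ^ k : ℕ) : ℝ) by push_cast; rfl, Nat.floor_natCast]
  rw [prs, mem_filter, mem_Ioc, h1, h2]

theorem count_Sel {P x q L a : ℕ} (h1 : P < a) (h2 : a ≤ 2 * P) (hq : 16 * P ≤ q)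
    (hL : q ≤ 2 * L) :
    q ≤ 8 * P * ((range (x + L + 1)).filter fun m => x ≤ a * m ∧ a * m < x + L).card := by
  have a0 : 0 < a := by omega
  have e1 := Nat.div_add_mod (x + a - 1) a
  have e2 := Nat.mod_lt (x + a - 1) a0
  have e3 := Nat.div_add_mod L a
  have e4 := Nat.mod_lt L a0
  generalize (x + a - 1) / a = m₀ at e1
  generalize L / a = c at e3
  have hsub : Ico m₀ (m₀ + c) ⊆
      (range (x + L + 1)).filter fun m => x ≤ a * m ∧ a * m < x + L := by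
    intro m hm
    obtain ⟨m1, m2⟩ := mem_Ico.1 hm
    have f1 : a * m₀ ≤ a * m := Nat.mul_le_mul_left a m1
    have f2 : a * (m + 1) ≤ a * (m₀ + c) := Nat.mul_le_mul_left a m2
    have f3 : m ≤ a * m := Nat.le_mul_of_pos_left m a0
    rw [Nat.mul_add, Nat.mul_add, mul_one] at f2
    exact mem_filter.2 ⟨mem_range.2 (by omega), by omega, by omega⟩
  have hc := card_le_card hsub
  rw [Nat.card_Ico, Nat.add_sub_cancel_left] at hc
  have g1 : a * c ≤ 2 * P * c := Nat.mul_le_mul_right c h2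
  have g2 : 1 ≤ c := by
    rcases Nat.eq_zero_or_pos c with rfl | h
    · omega
    · exact h
  have g3 : P * 1 ≤ P * c := Nat.mul_le_mul_left P g2
  refine le_trans ?_ (Nat.mul_le_mul_left _ hc)
  have g4 : 2 * P * c = 2 * (P * c) := by ring
  have g5 : 8 * P * c = 8 * (P * c) := by ring
  omega

theorem short_Sel {P x q L m : ℕ} {S : Finset ℕ} (hS : ∀ a ∈ S, a.Prime ∧ P < a ∧ a ≤ 2 * P)
    (hx : 0 < x) (hP : 1 ≤ P) (hqx : q ≤ x) (hL : L ≤ q) :
    Short (2 * q * P / x + 1) ((x - 1) / m) (S.filter fun a => x ≤ a * m ∧ a * m < x + L) := by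
  intro a ha
  obtain ⟨h1, h2, h3⟩ := mem_filter.1 ha
  obtain ⟨p1, p2, p3⟩ := hS a h1
  have m0 : 0 < m := by
    rcases Nat.eq_zero_or_pos m with rfl | h
    · omega
    · exact h
  have k1 : 2 * q * P / x ≤ 2 * P := by
    refine Nat.div_le_of_le_mul ?_
    nlinarith [Nat.mul_le_mul_right P hqx]
  have k2 : (x - 1) / m < a := (Nat.div_lt_iff_lt_mul m0).2 (by omega)
  refine ⟨p1, by omega, k2, ?_⟩
  have e1 := Nat.div_add_mod (x - 1) m
  have e2 := Nat.mod_lt (x - 1) m0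
  generalize (x - 1) / m = y at e1 k2 ⊢
  obtain ⟨t, rfl⟩ : ∃ t, a = y + 1 + t := ⟨a - (y + 1), by omega⟩
  have f1 : t * m ≤ q := by
    have : (y + 1 + t) * m = m * y + m + t * m := by ring
    omega
  have f2 : x ≤ 2 * P * m := h2.trans (Nat.mul_le_mul_right m p3)
  have f3 : t ≤ 2 * q * P / x := by
    refine (Nat.le_div_iff_mul_le hx).2 ?_
    calc t * x ≤ t * (2 * P * m) := Nat.mul_le_mul_left t f2
      _ = 2 * (t * m) * P := by ring
      _ ≤ 2 * q * P := by gcongr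
  omega

theorem block_Sel {δ C : ℝ} (hδ : 0 < δ) (hC : 0 < C) {P x q L : ℕ} {S : Finset ℕ}
    {Ψ : ℕ → ℕ → ℝ} (hS : ∀ a ∈ S, a.Prime ∧ P < a ∧ a ≤ 2 * P)
    (hc : (P : ℝ) / (4 * Real.log P) ≤ S.card) (hP : 2 ≤ P) (hq : 16 * P ≤ q) (hqx : q ≤ x)
    (hL : q ≤ 2 * L) (hL' : L ≤ q) (hx : x ^ 2 ≤ q ^ 2 * P) (hΨ : ∀ a m, |Ψ a m| ≤ C)
    (h : 0 ≤ ∑ a ∈ S, ∑ m ∈ range (x + L + 1),
      if x ≤ a * m ∧ a * m < x + L then Ψ a m - δ else 0) :
    ∃ (m y A : ℕ) (R : Finset ℕ), P ≤ A ^ 2 ∧ Short A y R ∧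
      δ / (2000 * C) * A / Real.log A ≤ R.card ∧ δ / 2 ≤ 𝔼 a ∈ R, Ψ a m := by
  by_contra hn
  have x0 : 0 < x := by omega
  set A : ℕ := 2 * q * P / x + 1 with hA
  set M : ℕ := 2 * x / P + 1 with hM
  set R : ℕ → Finset ℕ := fun m => S.filter fun a => x ≤ a * m ∧ a * m < x + L with hR
  have xR : (0 : ℝ) < x := by exact_mod_cast x0
  have PR : (2 : ℝ) ≤ P := by exact_mod_cast hP
  have qR : (0 : ℝ) < q := by exact_mod_cast (by omega : 0 < q)
  have l0 : 0 < Real.log P := Real.log_pos (by linarith)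
  have A1 : 2 * q * P < x * A := Nat.lt_mul_div_succ _ x0
  have A2 : P ≤ A ^ 2 := by
    have f1 : (q * P) ^ 2 ≤ (x * A) ^ 2 := Nat.pow_le_pow_left (by nlinarith) 2
    have f2 : x ^ 2 * P ≤ x ^ 2 * A ^ 2 := by
      calc x ^ 2 * P ≤ q ^ 2 * P * P := Nat.mul_le_mul_right P hx
        _ = (q * P) ^ 2 := by ring
        _ ≤ (x * A) ^ 2 := f1
        _ = x ^ 2 * A ^ 2 := by ring
    exact Nat.le_of_mul_le_mul_left f2 (by positivity)
  have A3 : x ≤ q * P := by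
    refine (Nat.pow_le_pow_iff_left two_ne_zero).1 (hx.trans ?_)
    rw [mul_pow]
    exact Nat.mul_le_mul_left _ (by nlinarith)
  have A4 : x * A ≤ 3 * (q * P) := by
    have := Nat.mul_div_le (2 * q * P) x
    rw [hA, Nat.mul_add, mul_one]
    nlinarith
  have M1 : P * M ≤ 3 * x := by
    have := Nat.mul_div_le (2 * x) P
    rw [hM, Nat.mul_add, mul_one]
    omega
  have M2 : 2 * x < P * M := Nat.lt_mul_div_succ _ (by omega)
  have M3 : M ≤ x + L + 1 := by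
    have : 2 * x / P ≤ x := Nat.div_le_of_le_mul (Nat.mul_le_mul_right x hP)
    omega
  have AM : (M : ℝ) * A ≤ 9 * q := by
    have f1 : (P * x) * (M * A) ≤ (P * x) * (9 * q) := by
      calc (P * x) * (M * A) = (P * M) * (x * A) := by ring
        _ ≤ (3 * x) * (3 * (q * P)) := Nat.mul_le_mul M1 A4
        _ = (P * x) * (9 * q) := by ring
    exact_mod_cast Nat.le_of_mul_le_mul_left f1 (Nat.mul_pos (by omega) x0)
  have lA : Real.log P ≤ 2 * Real.log A := by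
    have f1 : (P : ℝ) ≤ (A : ℝ) ^ 2 := by exact_mod_cast A2
    have f2 := Real.log_le_log (by linarith) f1
    rwa [Real.log_pow] at f2
  have hE : δ / (2000 * C) * A / Real.log A ≤ δ / (1000 * C) * A / Real.log P := by
    rw [div_le_div_iff₀ (by linarith) l0]
    have f1 : 0 ≤ δ / (2000 * C) * A := by positivity
    calc _ ≤ δ / (2000 * C) * A * (2 * Real.log A) := mul_le_mul_of_nonneg_left lA f1
      _ = _ := by field_simp; ring
  have key : ∀ m, ∑ a ∈ R m, (Ψ a m - δ) ≤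
      δ / 1000 * A / Real.log P - δ / 2 * (R m).card := fun m => by
    have f0 : 0 ≤ δ / 1000 * A / Real.log P := by positivity
    have f1 : 0 ≤ δ * (R m).card := by positivity
    rw [sum_sub_distrib, sum_const, nsmul_eq_mul]
    by_cases hb : δ / (2000 * C) * A / Real.log A ≤ (R m).card
    · have f2 : 𝔼 a ∈ R m, Ψ a m < δ / 2 := not_le.1 fun h' =>
        hn ⟨m, _, A, R m, A2, short_Sel hS x0 (by omega) hqx hL', hb, h'⟩
      have f3 := mul_le_mul_of_nonneg_left f2.le (Nat.cast_nonneg (α := ℝ) (R m).card)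
      rw [card_mul_expect] at f3
      linarith
    · have f2 : ∑ a ∈ R m, Ψ a m ≤ (R m).card * C := by
        rw [← nsmul_eq_mul]
        exact sum_le_card_nsmul _ _ _ fun a _ => (le_abs_self _).trans (hΨ a m)
      have f3 := mul_le_mul_of_nonneg_right ((not_le.1 hb).le.trans hE) hC.le
      have f4 : δ / (1000 * C) * A / Real.log P * C = δ / 1000 * A / Real.log P := by field_simp
      linarith
  have sw : ∀ f : ℕ → ℕ → ℝ, (∑ a ∈ S, ∑ m ∈ range (x + L + 1),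
      if x ≤ a * m ∧ a * m < x + L then f a m else 0) = ∑ m ∈ range M, ∑ a ∈ R m, f a m := by
    intro f
    rw [sum_comm]
    refine (sum_subset (range_subset_range.2 M3) fun m _ hm => ?_).symm.trans
      (sum_congr rfl fun m _ => (sum_filter _ _).symm)
    refine sum_eq_zero fun a ha => if_neg fun h' => ?_
    have f1 : P * M ≤ a * m :=
      Nat.mul_le_mul (hS a ha).2.1.le (not_lt.1 fun h'' => hm (mem_range.2 h''))
    omega
  have hN : (q : ℝ) / (32 * Real.log P) ≤ ∑ m ∈ range M, ((R m).card : ℝ) := by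
    have f1 := sw fun _ _ => 1
    simp only [sum_const, nsmul_eq_mul, mul_one] at f1
    rw [← f1]
    calc (q : ℝ) / (32 * Real.log P) = P / (4 * Real.log P) * (q / (8 * P)) := by
          field_simp; ring
      _ ≤ S.card * (q / (8 * P)) := by gcongr
      _ = ∑ a ∈ S, (q : ℝ) / (8 * P) := by rw [sum_const, nsmul_eq_mul]
      _ ≤ _ := by
          refine sum_le_sum fun a ha => ?_
          rw [sum_boole, div_le_iff₀ (by linarith), mul_comm]
          exact_mod_cast count_Sel (x := x) (hS a ha).2.1 (hS a ha).2.2 hq hL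
  rw [sw fun a m => Ψ a m - δ] at h
  have f1 := h.trans (sum_le_sum fun m _ => key m)
  rw [sum_sub_distrib, sum_const, card_range, nsmul_eq_mul, ← mul_sum] at f1
  have f2 : (M : ℝ) * (δ / 1000 * A / Real.log P) ≤ 9 / 1000 * (δ * q / Real.log P) := by
    calc _ = δ / 1000 / Real.log P * (M * A) := by ring
      _ ≤ δ / 1000 / Real.log P * (9 * q) := by gcongr
      _ = _ := by ring
  have f3 := mul_le_mul_of_nonneg_left hN (half_pos hδ).le
  have f4 : δ / 2 * (q / (32 * Real.log P)) = 1 / 64 * (δ * q / Real.log P) := by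
    field_simp; ring
  have f5 : 0 < δ * q / Real.log P := by positivity
  linarith

theorem sel_stmt (hC : ChebStmt) : SelStmt := by
  obtain ⟨x₀, h₀⟩ := eventually_atTop.1 hC
  intro δ C hδ hC0
  refine ⟨δ / (2000 * C), ⌈x₀⌉₊ + 1, by positivity, ?_⟩
  intro k₁ k₂ x q D Ψ hk₀ hk hqx hD hq hx hΨ h
  have e : x + q - D = x + (q - D) := by omega
  rw [e] at h
  have h1 : 0 ≤ ∑ p ∈ Om (Prk k₁ k₂) x (x + (q - D)), (Ψ p.1 p.2 - δ) := by
    rw [sum_sub_distrib, sum_const, nsmul_eq_mul, ← card_mul_expect, sub_nonneg]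
    exact mul_le_mul_of_nonneg_left h (Nat.cast_nonneg _)
  rw [Om, sum_filter, sum_product, Prk, sum_biUnion] at h1
  · obtain ⟨k, hk1, hk2⟩ := exists_le_of_sum_le (f := fun _ => (0 : ℝ)) (nonempty_Ico.2 hk)
      (sum_const_zero.trans_le h1)
    obtain ⟨k1, k2⟩ := mem_Ico.1 hk1
    have p1 : 2 ^ k₁ ≤ 2 ^ k := Nat.pow_le_pow_right (by norm_num) k1
    have p2 : 2 ^ (k + 1) ≤ 2 ^ k₂ := Nat.pow_le_pow_right (by norm_num) k2
    have p3 : 2 ^ 1 ≤ 2 ^ k := Nat.pow_le_pow_right (by norm_num) (by omega)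
    have p4 : x₀ ≤ (2 : ℝ) ^ k := by
      have f1 : ⌈x₀⌉₊ ≤ 2 ^ k := by have := @Nat.lt_two_pow_self k; omega
      exact (Nat.le_ceil x₀).trans (by exact_mod_cast f1)
    obtain ⟨m, y, A, R, r1, r2⟩ := block_Sel hδ hC0 (P := 2 ^ k) (q := q) (L := q - D)
      (S := prs ((2 : ℝ) ^ k))
      (fun a ha => ⟨(mem_prs_Sel.1 ha).2, (mem_prs_Sel.1 ha).1⟩)
      (by push_cast; exact h₀ _ p4) p3 (by rw [pow_succ] at p2; omega) hqx (by omega) (by omega)
      (hx.trans (Nat.mul_le_mul_left _ p1)) hΨ hk2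
    exact ⟨m, y, A, R, p1.trans r1, r2⟩
  · intro i _ j _ hij
    refine disjoint_left.2 fun a hi hj => ?_
    obtain ⟨⟨a1, a2⟩, -⟩ := mem_prs_Sel.1 hi
    obtain ⟨⟨b1, b2⟩, -⟩ := mem_prs_Sel.1 hj
    rcases lt_or_gt_of_ne hij with h' | h'
    · have := Nat.pow_le_pow_right (show 0 < 2 by norm_num) (Nat.succ_le_of_lt h')
      rw [pow_succ] at this
      omega
    · have := Nat.pow_le_pow_right (show 0 < 2 by norm_num) (Nat.succ_le_of_lt h')
      rw [pow_succ] at this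
      omega

end Pool.Agent.MP_4fffd4_nt.AN

end
end

section

open Finset Filter
open scoped BigOperators ComplexConjugate Topology Pointwise

noncomputable section

namespace Pool.Agent.MP_4fffd4_nt.AN

open Pool.Agent.MP_4fffd4_nt.SX

theorem mem_UBCount {k₁ k₂ p : ℕ} : p ∈ Prk k₁ k₂ ↔ p.Prime ∧ 2 ^ k₁ < p ∧ p ≤ 2 ^ k₂ := by
  unfold Prk
  rw [mem_biUnion]
  constructor
  · rintro ⟨k, hk, hp⟩
    obtain ⟨⟨h1, h2⟩, h3⟩ := mem_prs_Sel.1 hp
    have hk' := mem_Ico.1 hk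
    refine ⟨h3, lt_of_le_of_lt (Nat.pow_le_pow_right (by norm_num) hk'.1) h1, h2.trans ?_⟩
    rw [← pow_succ']
    exact Nat.pow_le_pow_right (by norm_num) hk'.2
  · rintro ⟨h1, h2, h3⟩
    have h4 : p - 1 ≠ 0 := by
      have := h1.two_le
      omega
    refine ⟨Nat.log 2 (p - 1), mem_Ico.2 ⟨?_, ?_⟩, mem_prs_Sel.2 ⟨⟨?_, ?_⟩, h1⟩⟩
    · exact Nat.le_log_of_pow_le (by norm_num) (by omega)
    · exact Nat.log_lt_of_lt_pow h4 (by omega)
    · have := Nat.pow_log_le_self 2 h4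
      omega
    · have := Nat.lt_pow_succ_log_self (b := 2) (by norm_num) (p - 1)
      rw [pow_succ] at this
      omega

theorem fac_UBCount {P : Finset ℕ} (hP : ∀ p ∈ P, p.Prime) (i : ℕ) :
    ∀ h ∈ P ^ i, h ≠ 0 ∧ h.primeFactors.card ≤ i := by
  induction i with
  | zero =>
    intro h hh
    rw [pow_zero, Finset.mem_one] at hh
    simp [hh]
  | succ i ih =>
    intro h hh
    rw [pow_succ] at hh
    obtain ⟨a, ha, p, hp, rfl⟩ := mem_mul.1 hh
    obtain ⟨h1, h2⟩ := ih a ha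
    have h3 := hP p hp
    refine ⟨mul_ne_zero h1 h3.ne_zero, ?_⟩
    rw [Nat.primeFactors_mul h1 h3.ne_zero, h3.primeFactors]
    refine (card_union_le _ _).trans ?_
    rw [card_singleton]
    omega

theorem dbl_UBCount {P P' : Finset ℕ} (hP : ∀ p ∈ P, p.Prime) (hs : P' ⊆ P) (i : ℕ) (y : ℝ) :
    ∑ p ∈ P', ((P ^ i).filter fun h : ℕ => y / p < h ∧ (h : ℝ) ≤ 2 * (y / p)).card ≤
      (i + 1) * ((P ^ (i + 1)).filter fun h : ℕ => y < h ∧ (h : ℝ) ≤ 2 * y).card := by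
  set T := (P ^ (i + 1)).filter fun h : ℕ => y < h ∧ (h : ℝ) ≤ 2 * y with hT
  calc _ ≤ ∑ p ∈ P', (T.filter fun h => p ∣ h).card := by
        refine sum_le_sum fun p hp => ?_
        have hp0 : 0 < p := (hP p (hs hp)).pos
        have hp1 : (0 : ℝ) < p := by exact_mod_cast hp0
        refine card_le_card_of_injOn (fun h => h * p) (fun h hh => ?_) fun a _ b _ hab =>
          Nat.eq_of_mul_eq_mul_right hp0 hab
        obtain ⟨h1, h2, h3⟩ := mem_filter.1 (mem_coe.1 hh)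
        refine mem_coe.2 (mem_filter.2 ⟨mem_filter.2 ⟨?_, ?_, ?_⟩, Dvd.intro_left _ rfl⟩)
        · rw [pow_succ]
          exact mul_mem_mul h1 (hs hp)
        · push_cast
          exact (div_lt_iff₀ hp1).1 h2
        · push_cast
          rw [← mul_div_assoc] at h3
          exact (le_div_iff₀ hp1).1 h3
    _ = ∑ h ∈ T, (P'.filter fun p => p ∣ h).card :=
        sum_card_bipartiteAbove_eq_sum_card_bipartiteBelow (fun p h : ℕ => p ∣ h)
    _ ≤ ∑ _h ∈ T, (i + 1) := by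
        refine sum_le_sum fun h hh => ?_
        obtain ⟨h1, h2⟩ := fac_UBCount hP (i + 1) h (mem_filter.1 hh).1
        refine le_trans (card_le_card fun p hp => ?_) h2
        obtain ⟨h3, h4⟩ := mem_filter.1 hp
        exact Nat.mem_primeFactors.2 ⟨hP p (hs h3), h4, h1⟩
    _ = _ := by rw [sum_const, smul_eq_mul, mul_comm]

theorem ind_UBCount {P P' : Finset ℕ} (hP : ∀ p ∈ P, p.Prime) (hs : P' ⊆ P) {a w v g κ : ℝ}
    (ha : 0 ≤ a) (hw : 0 < w) (hv : 0 < v) (hg : 0 ≤ g) (hκ : 0 ≤ κ)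
    (hP' : ∀ p ∈ P', w ≤ p ∧ (p : ℝ) ≤ v) (hg' : g ≤ ∑ p ∈ P', (1 : ℝ) / p)
    (h0 : ∀ y : ℝ, a ≤ y → y ≤ w →
      κ * y ≤ (P.filter fun h : ℕ => y < h ∧ (h : ℝ) ≤ 2 * y).card) (i : ℕ) :
    ∀ y : ℝ, a * v ^ i ≤ y → y ≤ w * w ^ i → g ^ i / (i + 1).factorial * κ * y ≤
      ((P ^ (i + 1)).filter fun h : ℕ => y < h ∧ (h : ℝ) ≤ 2 * y).card := by
  induction i with
  | zero =>
    intro y h1 h2
    simpa using h0 y (by simpa using h1) (by simpa using h2)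
  | succ i ih =>
    intro y h1 h2
    have hy : 0 ≤ y := le_trans (by positivity) h1
    have h3 : ∀ p ∈ P', g ^ i / (i + 1).factorial * κ * y * (1 / p) ≤
        ((P ^ (i + 1)).filter fun h : ℕ => y / p < h ∧ (h : ℝ) ≤ 2 * (y / p)).card := by
      intro p hp
      obtain ⟨h4, h5⟩ := hP' p hp
      have hp0 : (0 : ℝ) < p := hw.trans_le h4
      have h6 := ih (y / p) (by
        rw [le_div_iff₀ hp0]
        calc a * v ^ i * p ≤ a * v ^ i * v := by gcongr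
          _ = a * v ^ (i + 1) := by ring
          _ ≤ y := h1) (by
        rw [div_le_iff₀ hp0]
        calc y ≤ w * w ^ (i + 1) := h2
          _ = w * w ^ i * w := by ring
          _ ≤ _ := by gcongr)
      calc _ = g ^ i / (i + 1).factorial * κ * (y / p) := by ring
        _ ≤ _ := h6
    have h4 := sum_le_sum h3
    rw [← mul_sum, ← Nat.cast_sum] at h4
    have h5 : ((∑ p ∈ P', ((P ^ (i + 1)).filter fun h : ℕ =>
        y / p < h ∧ (h : ℝ) ≤ 2 * (y / p)).card : ℕ) : ℝ) ≤ ((i + 1 + 1 : ℕ) : ℝ) *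
        ((P ^ (i + 1 + 1)).filter fun h : ℕ => y < h ∧ (h : ℝ) ≤ 2 * y).card := by
      exact_mod_cast dbl_UBCount hP hs (i + 1) y
    have h6 : g ^ i / (i + 1).factorial * κ * y * g ≤
        g ^ i / (i + 1).factorial * κ * y * ∑ p ∈ P', (1 : ℝ) / p :=
      mul_le_mul_of_nonneg_left hg' (by positivity)
    have h7 : (0 : ℝ) < ((i + 1 + 1 : ℕ) : ℝ) := by positivity
    refine le_of_mul_le_mul_left (le_trans (le_of_eq ?_) (h6.trans (h4.trans h5))) h7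
    rw [Nat.factorial_succ (i + 1), Nat.cast_mul]
    field_simp
    ring

theorem count_stmt (hC : ChebStmt) : CountStmt := by
  intro r hr
  obtain ⟨k₀, -, hk₀⟩ := sum_Par hC
  obtain ⟨x₀, hx₀⟩ := eventually_atTop.1 hC
  have hr' : (1 : ℝ) ≤ r := by exact_mod_cast hr
  set η : ℝ := 1 / (10 * r) with hη
  have hη0 : 0 < η := by positivity
  have hη1 : η * r = 1 / 10 := by
    rw [hη]
    field_simp
  have hη2 : η ≤ 1 / 10 := by nlinarith
  set g : ℝ := Real.log (1 + η / 2) / 8 with hg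
  have hg0 : 0 < g := div_pos (Real.log_pos (by linarith)) (by norm_num)
  refine ⟨g ^ (r - 1) / (r - 1 + 1).factorial / 4, Real.exp (r * (60 * r + k₀ + 10 + 2 * |x₀|)),
    by positivity, fun K k₁ k₂ hK h1 h2 => ?_⟩
  have hK0 : 0 < K := (Real.exp_pos _).trans_le hK
  set l : ℝ := Real.log K / r with hl
  have hlK : Real.log K = r * l := by
    rw [hl]
    field_simp
  have hKe : K = Real.exp (r * l) := by rw [← hlK, Real.exp_log hK0]
  have hl1 : 60 * r + k₀ + 10 + 2 * |x₀| ≤ l := by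
    rw [hKe, Real.exp_le_exp] at hK
    exact le_of_mul_le_mul_left hK (by linarith)
  have hk0 : (0 : ℝ) ≤ k₀ := Nat.cast_nonneg _
  have hx0 := abs_nonneg x₀
  have hl0 : 10 ≤ l := by linarith
  have h10 : 10 * r ≠ 0 := by omega
  have h3 : (2 : ℝ) ^ k₁ ≤ Real.exp (9 / 10 * l) := by
    refine (pow_le_pow_iff_left₀ (by positivity) (by positivity) h10).1 (h1.trans (le_of_eq ?_))
    rw [hKe, ← Real.exp_nat_mul, ← Real.exp_nat_mul]
    congr 1
    push_cast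
    ring
  have h4 : Real.exp (11 / 10 * l) ≤ (2 : ℝ) ^ k₂ := by
    refine (pow_le_pow_iff_left₀ (by positivity) (by positivity) h10).1 (le_trans (le_of_eq ?_) h2)
    rw [hKe, ← Real.exp_nat_mul, ← Real.exp_nat_mul]
    congr 1
    push_cast
    ring
  have hmem : ∀ p : ℕ, p.Prime → Real.exp (9 / 10 * l) < p → (p : ℝ) ≤ Real.exp (11 / 10 * l) →
      p ∈ Prk k₁ k₂ := by
    intro p hp h5 h6
    refine mem_UBCount.2 ⟨hp, ?_, ?_⟩
    · exact_mod_cast h3.trans_lt h5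
    · exact_mod_cast h6.trans h4
  have hlog0 : 0 < Real.log 2 := Real.log_pos (by norm_num)
  have hlog1 : Real.log 2 ≤ 1 := by
    have := Real.log_le_sub_one_of_pos (show (0 : ℝ) < 2 by norm_num)
    linarith
  set t : ℝ := l / Real.log 2 with ht
  have ht1 : t * Real.log 2 = l := by
    rw [ht]
    field_simp
  have ht0 : 0 ≤ t := by positivity
  have ht2 : l ≤ t := by nlinarith
  have hpow : ∀ n : ℕ, (2 : ℝ) ^ n = Real.exp (n * Real.log 2) := by
    intro n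
    rw [Real.exp_nat_mul, Real.exp_log (by norm_num)]
  have ha1 : t ≤ (⌈t⌉₊ : ℝ) := Nat.le_ceil t
  have ha2 : (⌈t⌉₊ : ℝ) < t + 1 := Nat.ceil_lt_add_one ht0
  have hb1 : (⌊(1 + η) * t⌋₊ : ℝ) ≤ (1 + η) * t := Nat.floor_le (by positivity)
  have hb2 : (1 + η) * t < (⌊(1 + η) * t⌋₊ : ℝ) + 1 := Nat.lt_floor_add_one _
  have hηt : 6 ≤ η * t := by nlinarith
  have hab : (1 + η / 2) * (⌈t⌉₊ : ℝ) ≤ (⌊(1 + η) * t⌋₊ : ℝ) := by nlinarith
  have hP' : ∀ p ∈ Prk ⌈t⌉₊ ⌊(1 + η) * t⌋₊,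
      Real.exp l < p ∧ (p : ℝ) ≤ Real.exp ((1 + η) * l) := by
    intro p hp
    obtain ⟨-, h5, h6⟩ := mem_UBCount.1 hp
    have h7 : (2 : ℝ) ^ ⌈t⌉₊ < p := by exact_mod_cast h5
    have h8 : (p : ℝ) ≤ (2 : ℝ) ^ ⌊(1 + η) * t⌋₊ := by exact_mod_cast h6
    rw [hpow] at h7 h8
    refine ⟨lt_of_le_of_lt (Real.exp_le_exp.2 ?_) h7, h8.trans (Real.exp_le_exp.2 ?_)⟩
    · rw [← ht1]
      gcongr
    · rw [← ht1, ← mul_assoc]
      gcongr
  have hmain := ind_UBCount (P := Prk k₁ k₂) (P' := Prk ⌈t⌉₊ ⌊(1 + η) * t⌋₊)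
    (fun p hp => (mem_UBCount.1 hp).1) (fun p hp => hmem p (mem_UBCount.1 hp).1
      (lt_of_le_of_lt (Real.exp_le_exp.2 (by linarith)) (hP' p hp).1)
      ((hP' p hp).2.trans (Real.exp_le_exp.2 (by nlinarith))))
    (a := Real.exp (9 / 10 * l)) (w := Real.exp l) (v := Real.exp ((1 + η) * l)) (g := g)
    (κ := 1 / (4 * l)) (by positivity) (by positivity) (by positivity)
    hg0.le (by positivity)
    (fun p hp => ⟨(hP' p hp).1.le, (hP' p hp).2⟩) (by
      have h5 : k₀ ≤ ⌈t⌉₊ := by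
        have : (k₀ : ℝ) ≤ ⌈t⌉₊ := by linarith
        exact_mod_cast this
      have h6 : ⌈t⌉₊ ≤ ⌊(1 + η) * t⌋₊ := by
        have : (⌈t⌉₊ : ℝ) ≤ ⌊(1 + η) * t⌋₊ := by nlinarith
        exact_mod_cast this
      refine le_trans ?_ (hk₀ _ _ h5 h6)
      have h7 := Real.log_le_log (by nlinarith) hab
      rw [Real.log_mul (by positivity) (by linarith)] at h7
      rw [hg]
      linarith) (by
      intro y h5 h6
      have hy0 : 0 < y := (Real.exp_pos _).trans_le h5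
      have h7 : 9 / 10 * l ≤ Real.log y := (Real.le_log_iff_exp_le hy0).2 h5
      have h8 : Real.log y ≤ l := (Real.log_le_iff_le_exp hy0).2 h6
      have h9 : x₀ ≤ y := by
        have := Real.add_one_le_exp (9 / 10 * l)
        have := le_abs_self x₀
        linarith
      have h11 : 2 * Real.exp l ≤ Real.exp (11 / 10 * l) := by
        rw [show 11 / 10 * l = 1 / 10 * l + l by ring, Real.exp_add]
        have := Real.add_one_le_exp (1 / 10 * l)
        gcongr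
        linarith
      calc 1 / (4 * l) * y = y / (4 * l) := by ring
        _ ≤ y / (4 * Real.log y) := by
            gcongr
            linarith
        _ ≤ (prs y).card := hx₀ y h9
        _ ≤ _ := by
            refine Nat.cast_le.2 (card_le_card fun p hp => ?_)
            obtain ⟨h12, h13⟩ := mem_filter.1 hp
            obtain ⟨h14, h15⟩ := mem_Ioc.1 h12
            have h16 : y < p := (Nat.floor_lt hy0.le).1 h14
            have h17 : (p : ℝ) ≤ 2 * y := (Nat.le_floor_iff (by positivity)).1 h15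
            exact mem_filter.2 ⟨hmem p h13 (h5.trans_lt h16) (by linarith), h16, h17⟩)
    (r - 1) K (by
      rw [← Real.exp_nat_mul, ← Real.exp_add, hKe, Real.exp_le_exp, Nat.cast_sub hr]
      push_cast
      nlinarith) (by
      rw [← Real.exp_nat_mul, ← Real.exp_add, hKe, Real.exp_le_exp, Nat.cast_sub hr]
      push_cast
      linarith)
  refine le_trans ?_ (hmain.trans (le_of_eq (by rw [Nat.sub_add_cancel hr])))
  rw [hlK]
  calc _ ≤ g ^ (r - 1) / (r - 1 + 1).factorial / 4 * K / l := by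
        gcongr
        nlinarith
    _ = _ := by ring

end Pool.Agent.MP_4fffd4_nt.AN

end
end

section

open Finset Filter
open scoped BigOperators ComplexConjugate Topology Pointwise

noncomputable section

namespace Pool.Agent.MP_4fffd4_nt.AN

open Pool.Agent.MP_4fffd4_nt.SX

lemma memPrk_UBase {k₁ k₂ p : ℕ} (h : p ∈ Prk k₁ k₂) : p.Prime ∧ 2 ^ k₁ < p := by
  obtain ⟨k, hk, hp⟩ := mem_biUnion.1 h
  exact ⟨(mem_filter.1 hp).2,
    (Nat.pow_le_pow_right (by norm_num) (mem_Ico.1 hk).1).trans_lt (mem_Par hp).1⟩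

lemma dvd_UBase {k₁ k₂ q : ℕ} (hq : q.Prime) (i : ℕ) :
    ∀ h : ℕ, h ∈ Prk k₁ k₂ ^ i → q ∣ h → q ∈ Prk k₁ k₂ := by
  induction i with
  | zero =>
    intro h hh hd
    rw [pow_zero, Finset.mem_one] at hh
    subst hh
    exact absurd (Nat.dvd_one.1 hd) hq.one_lt.ne'
  | succ i ih =>
    intro h hh hd
    rw [pow_succ, Finset.mem_mul] at hh
    obtain ⟨a, ha, p, hp, rfl⟩ := hh
    rcases (Nat.Prime.dvd_mul hq).1 hd with h1 | h1
    · exact ih a ha h1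
    · rwa [(Nat.prime_dvd_prime_iff_eq hq (memPrk_UBase hp).1).1 h1]

lemma lam_UBase (z : ℤ) : |lam z| = 1 := by
  simp [lam, lamZ]

lemma nonneg_UBase {L : ℕ} {v : Fin L → ℝ} (hv : ∀ i, |v i| = 1) {X : ℝ} (hX : 0 ≤ X) (h : ℕ) :
    0 ≤ Fv v X h := by
  refine div_nonneg (sum_nonneg fun m _ => prod_nonneg fun i _ => ?_) hX
  have h1 : |v i * lam (m + (((i : ℕ) : ℤ) + 1) * h)| = 1 := by
    rw [abs_mul, hv, lam_UBase, one_mul]
  have h2 := neg_abs_le (v i * lam (m + (((i : ℕ) : ℤ) + 1) * h))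
  linarith

theorem baseR_stmt (hI : BIterStmt) (hN : CountStmt) (hS : SieveRStmt) (hR : CoreRStmt)
    (hB : BNumStmt) (hM : MonoStmt) : BaseRStmt := by
  intro s A v hs hA hv hvp
  obtain ⟨c, K₁, hc, hN'⟩ := hN (2 * A) (by omega)
  obtain ⟨C, K₂, hC, hS'⟩ := hS s (4 * A)
  obtain ⟨δ, K₃, hδ, hR'⟩ := hR s c C hs hc hC
  obtain ⟨n₀, hB'⟩ := hB s A (c * (1 / 2) ^ (s + 4)) hA (by positivity)
  refine ⟨δ, hδ, max n₀ (max ⌈max K₁ (max K₂ K₃)⌉₊ 3), fun n j Y K hn hj hjn hp hK1 hK2 hY => ?_⟩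
  have hn0 : n₀ ≤ n := (le_max_left _ _).trans hn
  have hn1 : ⌈max K₁ (max K₂ K₃)⌉₊ ≤ n := ((le_max_left _ _).trans (le_max_right _ _)).trans hn
  have hn3 : (3 : ℝ) ≤ n := by
    exact_mod_cast ((le_max_right _ _).trans (le_max_right _ _)).trans hn
  have hn2 : max K₁ (max K₂ K₃) ≤ n := Nat.ceil_le.1 hn1
  have hone : (1 : ℝ) ≤ n := by linarith
  have hnK : (n : ℝ) ≤ K := (le_self_pow₀ hone (by omega)).trans hK1
  have hKY : K ≤ Y := hK2.trans ((pow_le_pow_right₀ hone (by omega)).trans hY)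
  have hK3 : 3 ≤ K := hn3.trans hnK
  have a1 : K₁ ≤ K := ((le_max_left _ _).trans hn2).trans hnK
  have a2 : K₂ ≤ K := (((le_max_left _ _).trans (le_max_right _ _)).trans hn2).trans hnK
  have a3 : K₃ ≤ K := (((le_max_right _ _).trans (le_max_right _ _)).trans hn2).trans hnK
  obtain ⟨k₁, k₂, ζ, hk2, hζ, h1, h2, h3, h4, h5, h6⟩ := hB' n j K hn0 hj hjn hK1 hK2
  have h2k : (2 : ℝ) ^ k₂ ≤ n := by
    have : 2 ^ k₂ ≤ n := by nlinarith [Nat.zero_le (s * 2 ^ k₂), Nat.zero_le (2 ^ k₂)]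
    exact_mod_cast this
  have hZ : 2 * ((2 : ℝ) ^ k₂) ^ (3 * j) ≤ (n : ℝ) ^ (4 * j) - 1 := by
    have b1 : ((2 : ℝ) ^ k₂) ^ (3 * j) ≤ (n : ℝ) ^ (3 * j) :=
      pow_le_pow_left₀ (by positivity) h2k _
    have b2 : (1 : ℝ) ≤ (n : ℝ) ^ (3 * j) := one_le_pow₀ hone
    have b3 : (3 : ℝ) ≤ (n : ℝ) ^ j := hn3.trans (le_self_pow₀ hone (by omega))
    have b4 : (n : ℝ) ^ (4 * j) = (n : ℝ) ^ (3 * j) * (n : ℝ) ^ j := by
      rw [← pow_add]; congr 1; omega
    nlinarith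
  have hX : (n : ℝ) ^ (4 * j) * ((2 : ℝ) ^ k₂) ^ (2 * A) ≤ Y * K := by
    have b1 : ((2 : ℝ) ^ k₂) ^ (2 * A) ≤ (n : ℝ) ^ (2 * A) :=
      pow_le_pow_left₀ (by positivity) h2k _
    have b2 : (n : ℝ) ^ (4 * j) * ((2 : ℝ) ^ k₂) ^ (2 * A) ≤ (n : ℝ) ^ (2 * A + 4 * j) := by
      rw [pow_add, mul_comm]
      exact mul_le_mul_of_nonneg_right b1 (by positivity)
    nlinarith
  have hpat : ((pat ((s + 1 + 1) * 2 ^ k₂ + 1)).ncard : ℝ) ^ (s + 1) ≤ Real.exp j := by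
    refine le_trans (pow_le_pow_left₀ (by positivity) ?_ _) hp
    exact_mod_cast hM.1 _ _ h4
  have hI' := hI (s + 1) k₁ k₂ j (2 * A) v _ ζ hv hvp hj hk2 hζ h5 hpat hZ (Y * K) hX
  set w : Fin (s + 1) → ℝ := fun i => (-1) ^ (2 * A) * (v i : ℝ) with hw
  have hw1 : ∀ i, |w i| = 1 := fun i => by
    rcases hv i with h | h <;> simp [hw, h]
  have hcard := hN' K k₁ k₂ a1 h1 h2
  set Θ := (Prk k₁ k₂ ^ (2 * A)).filter fun h : ℕ => K < h ∧ (h : ℝ) ≤ 2 * K with hΘ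
  have hm : ∀ h ∈ Θ, 1 ≤ h ∧ (h : ℝ) ≤ 2 * K := fun h hh => by
    obtain ⟨b1, b2⟩ := (mem_filter.1 hh).2
    refine ⟨?_, b2⟩
    have : (1 : ℝ) ≤ h := by linarith
    exact_mod_cast this
  have hsv := hS' K Θ a2 fun h hh => ⟨(hm h hh).1, fun q hq hd => by
    have b1 := (memPrk_UBase (dvd_UBase hq _ h (mem_filter.1 hh).1 hd)).2
    have b2 : (2 : ℝ) ^ k₁ ≤ q := by exact_mod_cast b1.le
    exact h3.trans (pow_le_pow_left₀ (by positivity) b2 _)⟩
  refine hR' w Y K Θ a3 hKY hw1 hm hcard hsv ?_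
  have hYK : 0 ≤ Y * K := by nlinarith
  have hlog : 0 < Real.log K := Real.log_pos (by linarith)
  have c1 : ∑ h ∈ Θ, Fv w (Y * K) h ≤ 2 * K * ∑ h ∈ Θ, Fv w (Y * K) h / h := by
    rw [mul_sum]
    refine sum_le_sum fun h hh => ?_
    have b0 : (0 : ℝ) < h := by exact_mod_cast (hm h hh).1
    have b1 := nonneg_UBase hw1 hYK h
    rw [← mul_div_assoc, le_div_iff₀ b0]
    nlinarith [(hm h hh).2]
  have c2 : ∑ h ∈ Θ, Fv w (Y * K) h / h ≤ ∑ h ∈ Prk k₁ k₂ ^ (2 * A), Fv w (Y * K) h / h :=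
    sum_le_sum_of_subset_of_nonneg (filter_subset _ _) fun h _ _ =>
      div_nonneg (nonneg_UBase hw1 hYK h) (Nat.cast_nonneg _)
  have c3 := (le_div_iff₀ hlog).2 h6
  have c4 : ∑ h ∈ Θ, Fv w (Y * K) h / h ≤ c * (1 / 2) ^ (s + 4) / Real.log K :=
    (c2.trans hI').trans c3
  calc ∑ h ∈ Θ, Fv w (Y * K) h ≤ 2 * K * (c * (1 / 2) ^ (s + 4) / Real.log K) :=
        c1.trans (mul_le_mul_of_nonneg_left c4 (by linarith))
    _ = (1 / 2) ^ (s + 3) * (c * K / Real.log K) := by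
        rw [pow_succ _ (s + 3)]; ring
    _ ≤ (1 / 2) ^ (s + 3) * Θ.card := mul_le_mul_of_nonneg_left hcard (by positivity)

end Pool.Agent.MP_4fffd4_nt.AN

end
end
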