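import Pool.Agent.Mg.F4fffd4.G3529f8
import Pool.Agent.MP_e23604_nt.P.SW
import Pool.Agent.Mg.F4fffd4.G86bb1c
import Pool.Agent.Mg.F4fffd4.G7a216a
import Pool.Agent.Mg.F4fffd4.G28422a

set_option linter.all false


section

open Finset Filter
open scoped BigOperators ComplexConjugate Topology

noncomputable section

namespace Pool.Agent.MP_4fffd4_nt.SX

section aux

variable {κ : Type} [Fintype κ] [DecidableEq κ]

/-- The coefficients at a vertex. -/
def co_Add (c : κ → ℤ) (i₀ : κ) (a b : ℤ) (w : Option κ → Bool) (i : κ) : ℤ :=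
  (if w (some i) then Function.update c i₀ a i else 0) + if i = i₀ then (if w none then b else 0) else 0

theorem dot_Add {H : Type} [AddCommGroup H] (c : κ → ℤ) (i₀ : κ) (a b : ℤ) (w : Option κ → Bool)
    (h : κ → H) :
    dot w (fun o => o.elim (b • h i₀) fun i => Function.update c i₀ a i • h i) =
      ∑ i, co_Add c i₀ a b w i • h i := by
  simp only [dot, co_Add, Fintype.sum_option, add_smul, sum_add_distrib, ite_smul, zero_smul,
    sum_ite_eq', mem_univ, if_true, Option.elim]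
  rw [add_comm]

theorem UU_Add {H : Type} [AddCommGroup H] [Fintype H] (φ : H → ℂ) (c : κ → ℤ) (i₀ : κ) (a b : ℤ)
    (h : κ → H) : UU (Option κ) φ = 𝔼 p : H × (Option κ → H),
      ∏ w, cj w (φ (p.1 + dot w p.2 + ∑ i, co_Add c i₀ a b w i • h i)) := by
  rw [expect_prod, UU, GI]
  refine expect_congr rfl fun x _ => ?_
  rw [← (MP.add_right (fun o : Option κ => o.elim (b • h i₀)
    fun i => Function.update c i₀ a i • h i)).expect_c fun k => ∏ w, cj w (φ (x + dot w k))]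
  simp only [dot_add, dot_Add, add_assoc]

omit [Fintype κ] in
theorem co_top_Add (c : κ → ℤ) (i₀ : κ) (a b : ℤ) :
    co_Add c i₀ a b (fun _ => true) = Function.update c i₀ (a + b) := by
  funext i
  by_cases h : i = i₀ <;> simp [co_Add, h]

omit [Fintype κ] in
theorem co_one_Add (c : κ → ℤ) (i₀ : κ) (a b : ℤ) :
    co_Add c i₀ a b (Function.update (fun _ => true) none false) = Function.update c i₀ a := by
  funext i
  by_cases h : i = i₀ <;> simp [co_Add, h]

omit [Fintype κ] in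
theorem co_two_Add (c : κ → ℤ) (i₀ : κ) (a b : ℤ) :
    co_Add c i₀ a b (Function.update (fun _ => true) (some i₀) false) = Function.update c i₀ b := by
  funext i
  by_cases h : i = i₀ <;> simp [co_Add, h]

/-- The multipliers at the three special vertices. -/
def mm_Add (i₀ : κ) (A B C : ℂ) (w : Option κ → Bool) : ℂ :=
  (if w = fun _ => true then A else 1) *
    (if w = Function.update (fun _ => true) none false then B else 1) *
    if w = Function.update (fun _ => true) (some i₀) false then C else 1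

theorem prod_mm_Add (i₀ : κ) (A B C : ℂ) : ∏ w, mm_Add i₀ A B C w = A * B * C := by
  simp only [mm_Add, prod_mul_distrib, prod_ite_eq', mem_univ, if_true]

omit [Fintype κ] in
theorem ne_Add (i₀ : κ) :
    ((fun _ => true : Option κ → Bool) ≠ Function.update (fun _ => true) none false) ∧
    ((fun _ => true : Option κ → Bool) ≠ Function.update (fun _ => true) (some i₀) false) ∧
    ((Function.update (fun _ => true) none false : Option κ → Bool) ≠
      Function.update (fun _ => true) (some i₀) false) :=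
  ⟨fun e => by simpa using congrFun e none, fun e => by simpa using congrFun e (some i₀),
    fun e => by simpa using congrFun e none⟩

end aux

variable {ι : Type} (l : Filter ι) (κ : Type) [Fintype κ] [DecidableEq κ] [Nonempty κ]
  (G : ι → Type) [∀ n, AddCommGroup (G n)] [∀ n, Fintype (G n)]

end Pool.Agent.MP_4fffd4_nt.SX

end
end

section

open Finset Filter
open scoped BigOperators ComplexConjugate Topology

noncomputable section

namespace Pool.Agent.MP_4fffd4_nt.AN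

open Pool.Agent.MP_4fffd4_nt.SX

section aux

variable {κ : Type} [Fintype κ] [DecidableEq κ]

theorem mp_AddL {H P : Type} [AddCommGroup H] [Fintype H] [Fintype P]
    (w : Option κ → Bool) {f : P → H} (hf : MP f) :
    MP fun τ : P × (H × (Option κ → H)) => (f τ.1, τ.2.1 + dot w τ.2.2) :=
  MP.prodMap hf (π' := fun q : H × (Option κ → H) => q.1 + dot w q.2)
    (MP.of_left fun k => MP.add_right (dot w k))

omit [Fintype κ] in
theorem co_zero_AddL (i₀ : κ) (w : Option κ → Bool)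
    (h0 : w ≠ fun _ => true) (h1 : w ≠ Function.update (fun _ => true) none false)
    (h2 : w ≠ Function.update (fun _ => true) (some i₀) false) :
    ∃ i, ∀ (c : κ → ℤ) (a b : ℤ), co_Add c i₀ a b w i = 0 := by
  by_cases h : ∃ i, i ≠ i₀ ∧ w (some i) = false
  · obtain ⟨i, hi, hw⟩ := h
    exact ⟨i, by simp [co_Add, hi, hw]⟩
  have h' : ∀ i, i ≠ i₀ → w (some i) = true := fun i hi => by
    by_contra hw
    exact h ⟨i, hi, by simpa using hw⟩
  refine ⟨i₀, ?_⟩
  cases e1 : w none <;> cases e2 : w (some i₀)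
  · simp [co_Add, e1, e2]
  · refine absurd (funext fun o => ?_) h1
    rcases o with _ | i
    · simp [e1]
    · by_cases hi : i = i₀
      · simp [hi, e2]
      · simp [h' i hi]
  · refine absurd (funext fun o => ?_) h2
    rcases o with _ | i
    · simp [e1]
    · by_cases hi : i = i₀
      · simp [hi, e2]
      · simp [h' i hi, hi]
  · refine absurd (funext fun o => ?_) h0
    rcases o with _ | i
    · exact e1
    · by_cases hi : i = i₀
      · rw [hi, e2]
      · exact h' i hi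

theorem UU_AddL {H : Type} [AddCommGroup H] [Fintype H] (φ : H → ℂ) (g : H) (c : κ → ℤ) (i₀ : κ)
    (a b : ℤ) {B : ℕ} (v : κ → Fin B) : UU (Option κ) φ = 𝔼 p : H × (Option κ → H),
      ∏ w, cj w (Ph φ g (co_Add c i₀ a b w) (p.1 + dot w p.2) v) := by
  rw [UU_Add φ c i₀ a b fun i => ((v i : ℕ) : ℤ) • g]
  simp only [Ph, mul_smul]

end aux

variable {ι : Type} (l : Filter ι) (κ : Type) [Fintype κ] [DecidableEq κ] [Nonempty κ]
  (G : ι → Type) [∀ n, AddCommGroup (G n)] [∀ n, Fintype (G n)]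

theorem addL_stmt (hP : PairLStmt l κ G) : AddLStmt l κ G := by
  rintro φ g B hφ ⟨c₀, hc₀, hU⟩ c i₀ a b
  obtain ⟨n1, n2, n3⟩ := ne_Add i₀
  have hg : ∀ w : Option κ → Bool, ClB l
      fun n (τ : (G n × G n × G n) × (G n × (Option κ → G n))) (v : κ → Fin (B n)) =>
        mm_Add i₀
          (cj (fun _ : Option κ => true)
            (conj (Ph (φ n) (g n) (Function.update (c n) i₀ (a n + b n)) τ.1.1 v)))
          (cj (fun _ : Option κ => true)
            (Ph (φ n) (g n) (Function.update (c n) i₀ (a n)) τ.1.2.1 v))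
          (cj (fun _ : Option κ => true)
            (Ph (φ n) (g n) (Function.update (c n) i₀ (b n)) τ.1.2.2 v)) w *
        cj w (Ph (φ n) (g n) (co_Add (c n) i₀ (a n) (b n) w) (τ.2.1 + dot w τ.2.2) v) := by
    intro w
    by_cases h0 : w = fun _ => true
    · refine ((hP φ g B (fun n => Function.update (c n) i₀ (a n + b n))
        (fun n => (G n × G n × G n) × (G n × (Option κ → G n)))
        (fun n τ => τ.1.1) (fun n τ => τ.2.1 + dot w τ.2.2) hφ
        (Eventually.of_forall fun n => mp_AddL w (f := fun y : G n × G n × G n => y.1)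
          MP.fst)).conj.cj
        fun _ : Option κ => true).congr (Eventually.of_forall fun n τ h => ?_)
      subst h0
      simp only [mm_Add, if_true, if_neg n1, if_neg n2, mul_one, co_top_Add, map_mul,
        Complex.conj_conj, cj_mul]
    by_cases h1 : w = Function.update (fun _ => true) none false
    · refine ((hP φ g B (fun n => Function.update (c n) i₀ (a n))
        (fun n => (G n × G n × G n) × (G n × (Option κ → G n)))
        (fun n τ => τ.1.2.1) (fun n τ => τ.2.1 + dot w τ.2.2) hφ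
        (Eventually.of_forall fun n => mp_AddL w (f := fun y : G n × G n × G n => y.2.1)
          (MP.fst.comp MP.snd))).cj
        fun _ : Option κ => true).congr (Eventually.of_forall fun n τ h => ?_)
      subst h1
      simp only [mm_Add, if_true, if_neg n1.symm, if_neg n3, mul_one, one_mul, co_one_Add, cj_mul]
      rw [cj_update _ _ rfl]
    by_cases h2 : w = Function.update (fun _ => true) (some i₀) false
    · refine ((hP φ g B (fun n => Function.update (c n) i₀ (b n))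
        (fun n => (G n × G n × G n) × (G n × (Option κ → G n)))
        (fun n τ => τ.1.2.2) (fun n τ => τ.2.1 + dot w τ.2.2) hφ
        (Eventually.of_forall fun n => mp_AddL w (f := fun y : G n × G n × G n => y.2.2)
          (MP.snd.comp MP.snd))).cj
        fun _ : Option κ => true).congr (Eventually.of_forall fun n τ h => ?_)
      subst h2
      simp only [mm_Add, if_true, if_neg n2.symm, if_neg n3.symm, mul_one, one_mul, co_two_Add,
        cj_mul]
      rw [cj_update _ _ rfl]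
    obtain ⟨i, hi⟩ := co_zero_AddL i₀ w h0 h1 h2
    have hz : ClB l fun n (τ : (G n × G n × G n) × (G n × (Option κ → G n)))
        (v : κ → Fin (B n)) =>
        Ph (φ n) (g n) (co_Add (c n) i₀ (a n) (b n) w) (τ.2.1 + dot w τ.2.2) v := by
      refine ClB.of_indep i (hφ.bd.comp2 _) fun n τ s t => ?_
      simp only [Ph]
      congr 2
      refine sum_congr rfl fun k _ => ?_
      by_cases hk : k = i
      · simp [hk, hi]
      · rw [Function.update_of_ne hk]
    refine (hz.cj w).congr (Eventually.of_forall fun n τ h => ?_)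
    simp only [mm_Add, if_neg h0, if_neg h1, if_neg h2, one_mul]
  have hp := (ClB.prod univ fun w _ => hg w).avg
  have hb : Bd1 l fun n (_ : G n × G n × G n) => (UU (Option κ) (φ n))⁻¹ :=
    ⟨c₀⁻¹, hU.mono fun n hn _ => by
      rw [norm_inv]
      exact inv_anti₀ hc₀ (hn.trans (Complex.re_le_norm _))⟩
  refine ((((ClB.param hb).mul hp).cj fun _ : Option κ => true).conj).congr
    (hU.mono fun n hn y h => ?_)
  have hne : UU (Option κ) (φ n) ≠ 0 := fun e => by
    rw [e, Complex.zero_re] at hn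
    linarith
  simp only [prod_mul_distrib, prod_mm_Add]
  rw [← mul_expect]
  have e := UU_AddL (φ n) (g n) (c n) i₀ (a n) (b n) h
  rw [← e, mul_comm _ (UU (Option κ) (φ n)), ← mul_assoc, inv_mul_cancel₀ hne, one_mul, cj_mul,
    cj_mul, cj_cj, cj_cj, cj_cj]
  simp only [map_mul, Complex.conj_conj]

end Pool.Agent.MP_4fffd4_nt.AN

end
end

section

open Finset Filter
open scoped BigOperators ComplexConjugate Topology

noncomputable section

namespace Pool.Agent.MP_4fffd4_nt.AN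

open Pool.Agent.MP_4fffd4_nt.SX

section fin

variable {κ : Type} [Fintype κ] [DecidableEq κ] {G : Type} [AddCommGroup G] [Fintype G]

/-- Correction of one coordinate to get a given sum. -/
def r_Aff (i₀ : κ) (s : κ → G) (y : G) : κ → G := s + Pi.single i₀ (y - ∑ i, s i)

omit [Fintype G] in
lemma sum_r_Aff (i₀ : κ) (s : κ → G) (y : G) : ∑ i, r_Aff i₀ s y i = y := by
  simp [r_Aff, sum_add_distrib]

omit [Fintype G] in
lemma r_add_Aff (i₀ : κ) (s σ : κ → G) (y : G) :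
    r_Aff i₀ (s + σ) (y + ∑ i, σ i) = fun i => r_Aff i₀ s y i + σ i := by
  have : y + ∑ i, σ i - ∑ i, (s + σ) i = y - ∑ i, s i := by
    simp only [Pi.add_apply, sum_add_distrib]
    abel
  funext i
  rw [r_Aff, this]
  simp only [r_Aff, Pi.add_apply]
  abel

lemma mp_r_Aff (i₀ : κ) (g : (κ → G) → ℝ) :
    𝔼 y : G, 𝔼 s : κ → G, g (r_Aff i₀ s y) = 𝔼 s, g s := by
  rw [expect_comm]
  have h1 : ∀ s : κ → G, 𝔼 y : G, g (r_Aff i₀ s y) = 𝔼 t : G, g (s + Pi.single i₀ t) :=
    fun s => MP.sub_right (∑ i, s i) fun t => g (s + Pi.single i₀ t)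
  simp only [h1]
  rw [expect_comm]
  have h2 : ∀ t : G, 𝔼 s : κ → G, g (s + Pi.single i₀ t) = 𝔼 s, g s :=
    fun t => MP.add_right (Pi.single i₀ t : κ → G) g
  simp only [h2]
  exact expect_const univ_nonempty _

lemma le_Aff {α : Type} [Fintype α] {f : α → ℝ} {c : ℝ} (hc : 0 ≤ c) (h : ∀ a, f a ≤ c) :
    𝔼 a, f a ≤ c := by
  rcases isEmpty_or_nonempty α with hα | hα
  · simpa using hc
  · exact expect_le univ_nonempty fun a _ => h a

lemma fin_Aff [Nonempty κ] {X Y S : Type} [Fintype X] [Fintype Y] [Fintype S] (F : X → G → ℂ)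
    (π : Y → X) (z : Y → G) (σ : Y → κ → S → G) {C D ε : ℝ} (B : X → (κ → G) → ℂ)
    (hB : ∀ t, B t ∈ BB κ G) (hC : 0 ≤ C) (hD : 1 ≤ D) (hε : 0 < ε) (hF : ∀ t y, ‖F t y‖ ≤ D)
    (h1 : 𝔼 t, 𝔼 s : κ → G, ‖F t (∑ i, s i) - C * B t s‖ ^ 2 ≤ ε / 2)
    (hA : ∀ (v : κ → S) (g : X × G → ℝ), (∀ p, |g p| ≤ 1) →
      |𝔼 τ, g (π τ, z τ + ∑ i, σ τ i (v i)) - 𝔼 p, g p| ≤ ε / 2 / (D + C) ^ 2) :
    ∃ B' : Y → (κ → S) → ℂ, (∀ τ, B' τ ∈ BB κ S) ∧
      𝔼 τ, 𝔼 v : κ → S, ‖F (π τ) (z τ + ∑ i, σ τ i (v i)) - C * B' τ v‖ ^ 2 ≤ ε := by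
  obtain ⟨i₀⟩ := ‹Nonempty κ›
  have hM : 0 < (D + C) ^ 2 := by positivity
  let e : X × G → ℝ := fun p => 𝔼 s : κ → G, ‖F p.1 p.2 - C * B p.1 (r_Aff i₀ s p.2)‖ ^ 2
  have e0 : ∀ p, 0 ≤ e p := fun p => expect_nonneg fun _ _ => by positivity
  have e1 : ∀ p, e p ≤ (D + C) ^ 2 := fun p => le_Aff hM.le fun s => by
    refine pow_le_pow_left₀ (norm_nonneg _) (norm_sub_le_of_le (hF _ _) ?_) 2
    rw [norm_mul, Complex.norm_real, Real.norm_of_nonneg hC]
    exact mul_le_of_le_one_right hC (BB.norm_le (hB _) _)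
  have e2 : 𝔼 p, e p ≤ ε / 2 := by
    refine le_of_eq_of_le ?_ h1
    rw [expect_prod]
    refine expect_congr rfl fun t _ => ?_
    rw [← mp_r_Aff i₀ fun s => ‖F t (∑ i, s i) - C * B t s‖ ^ 2]
    simp only [e, sum_r_Aff]
  have e3 : ∀ v : κ → S, 𝔼 τ, e (π τ, z τ + ∑ i, σ τ i (v i)) ≤ ε := fun v => by
    have h := hA v (fun p => e p / (D + C) ^ 2) fun p => by
      rw [abs_of_nonneg (div_nonneg (e0 p) hM.le), div_le_one hM]
      exact e1 p
    rw [← expect_div, ← expect_div, ← sub_div, abs_div, abs_of_pos hM,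
      div_le_div_iff_of_pos_right hM] at h
    linarith [(abs_le.1 h).2]
  refine ⟨fun τ v => 𝔼 s : κ → G, B (π τ) fun i => r_Aff i₀ s (z τ) i + σ τ i (v i),
    fun τ => BB.expect fun s => BB.pull (fun i x => r_Aff i₀ s (z τ) i + σ τ i x) (hB _), ?_⟩
  refine le_trans (expect_le_expect fun τ _ => expect_le_expect fun v _ =>
    (?_ : _ ≤ e (π τ, z τ + ∑ i, σ τ i (v i)))) ?_
  · have h := MP.add_right (fun i => σ τ i (v i) : κ → G) fun s =>
      ‖F (π τ) (z τ + ∑ i, σ τ i (v i)) -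
        C * B (π τ) (r_Aff i₀ s (z τ + ∑ i, σ τ i (v i)))‖ ^ 2
    simp only [r_add_Aff] at h
    refine le_of_le_of_eq ?_ h
    refine le_of_eq_of_le ?_ (norm_expect_sq_le _ _)
    rw [expect_sub_distrib, expect_const univ_nonempty, mul_expect]
  · rw [expect_comm]
    exact le_Aff hε.le e3

end fin

variable {ι : Type} (l : Filter ι) (κ : Type) [Fintype κ] [DecidableEq κ] [Nonempty κ]
  (G : ι → Type) [∀ n, AddCommGroup (G n)] [∀ n, Fintype (G n)]

theorem aff_stmt : AffStmt l κ G := by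
  intro X Y S _ _ _ F π z σ hF hA
  refine ⟨hF.bd.comp _ _, fun ε hε => ?_⟩
  obtain ⟨D, hD, h1⟩ := hF.bd.pos
  obtain ⟨C, hC, h2⟩ := hF.2 (ε / 2) (by positivity)
  refine ⟨C, hC, (h1.and (h2.and (hA (ε / 2 / (D + C) ^ 2) (by positivity)))).mono
    fun n ⟨h3, ⟨B, h4, h5⟩, h6⟩ => ?_⟩
  exact fin_Aff (F n) (π n) (z n) (σ n) B h4 hC hD hε h3 h5 h6

theorem AMP.of_MP {V Y Z : ι → Type} [∀ n, Fintype (Y n)] [∀ n, Fintype (Z n)] {π : ∀ n, V n → Y n → Z n} (h : ∀ᶠ n in l, ∀ v, MP (π n v)) : AMP l π :=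
  fun ε hε => h.mono fun n hn v g _ => by rw [hn v g, sub_self, abs_zero]; exact hε.le

theorem pairL_stmt (h : AffStmt l κ G) : PairLStmt l κ G := by
  intro φ g B c Y _ y y' hφ hy
  refine (h G Y (fun n => Fin (B n)) (fun n t x => φ n x * conj (φ n (x + t)))
    (fun n τ => y' n τ - y n τ) y (fun n _ i v => (c n i * ((v : ℕ) : ℤ)) • g n) hφ.clk
    (AMP.of_MP l (hy.mono fun n hn v => ?_))).congr (Eventually.of_forall fun n τ v => ?_)
  · refine MP.comp (π := fun p : G n × G n =>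
      (p.2 - p.1, p.1 + ∑ i, (c n i * ((v i : ℕ) : ℤ)) • g n)) (MP.of_bijective ?_) hn
    refine Finite.injective_iff_bijective.1 fun p q hpq => ?_
    obtain ⟨h1, h2⟩ := Prod.mk.inj hpq
    have h3 : p.1 = q.1 := add_right_cancel h2
    rw [h3] at h1
    exact Prod.ext h3 (sub_left_injective h1)
  · simp only [Ph]
    congr 3
    abel

end Pool.Agent.MP_4fffd4_nt.AN

end
end

section

/-!
Local uniformity of the Liouville function: the first part of the bilinear step.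
-/

open Finset Filter
open scoped BigOperators ComplexConjugate Topology

noncomputable section

namespace Pool.Agent.MP_4fffd4_nt.AN

open Pool.Agent.MP_4fffd4_nt.SX

theorem ico_BilA (x q : ℕ) (g : ZMod (q + 1) → ℝ) :
    𝔼 m ∈ Ico x (x + (q + 1)), g (((m : ℤ) - x : ℤ) : ZMod (q + 1)) = 𝔼 z, g z := by
  symm
  refine expect_nbij (fun z : ZMod (q + 1) => x + z.val) (fun z _ => ?_) (fun z _ => ?_)
    (fun z _ w _ h => ZMod.val_injective _ (by simpa using h)) fun m hm => ?_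
  · have := z.val_lt
    exact mem_Ico.2 ⟨by omega, by omega⟩
  · simp
  · have h := mem_Ico.1 (mem_coe.1 hm)
    refine ⟨((m - x : ℕ) : ZMod (q + 1)), by simp, ?_⟩
    show x + _ = m
    rw [ZMod.val_natCast, Nat.mod_eq_of_lt (by omega)]
    omega

theorem prk_BilA {k₁ k₂ p : ℕ} (h : p ∈ Prk k₁ k₂) : p.Prime ∧ p ≤ 2 ^ k₂ := by
  obtain ⟨k, hk, hp⟩ := mem_biUnion.1 h
  obtain ⟨h1, -, h2⟩ := (mem_prs (by positivity)).1 hp
  refine ⟨h1, le_trans ?_ (Nat.pow_le_pow_right two_pos (Nat.succ_le_of_lt (mem_Ico.1 hk).2))⟩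
  rw [pow_succ, mul_comm]
  exact_mod_cast h2

theorem eqd_BilA (hT : TkwStmt) {l : Filter ℕ} (d : ℕ) {x q k₁ k₂ B B' : ℕ → ℕ}
    (hP : Par l x q k₁ k₂ B B') {ε : ℝ} (hε : 0 < ε) :
    ∀ᶠ n in l, ∀ t : ℕ, t ≤ d * B n → ∀ g : ZMod (q n + 1) → ℝ, (∀ z, |g z| ≤ 1) →
      |𝔼 p ∈ Om (Prk (k₁ n) (k₂ n)) (x n) (x n + (q n + 1) - 2 ^ k₂ n * (d * B n)),
        g ((((p.1 * (p.2 + t) : ℕ) : ℤ) - x n : ℤ) : ZMod (q n + 1)) - 𝔼 z, g z| ≤ ε := by
  have h1 := hP.bq.const_mul (d : ℝ)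
  have h2 : Tendsto (fun n => 1 / Real.sqrt (∑ p ∈ Prk (k₁ n) (k₂ n), (1 : ℝ) / p)) l (𝓝 0) :=
    tendsto_const_nhds.div_atTop (Real.tendsto_sqrt_atTop.comp hP.big)
  have h3 := hP.pq.const_mul (4 : ℝ)
  have h4 := ((h1.add h2).add h3).const_mul (4 : ℝ)
  simp only [mul_zero, add_zero] at h1 h4
  filter_upwards [h1.eventually (ge_mem_nhds one_pos), h4.eventually (ge_mem_nhds hε),
    hP.big.eventually (eventually_ge_atTop 1)] with n g1 g2 g3 t ht g hg
  have hq : (0 : ℝ) < q n + 1 := by positivity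
  have g4 : 2 ^ k₂ n * (d * B n) ≤ q n + 1 := by
    rw [← mul_div_assoc, div_le_one hq] at g1
    have : ((2 ^ k₂ n * (d * B n) : ℕ) : ℝ) ≤ ((q n + 1 : ℕ) : ℝ) := by
      push_cast
      linarith
    exact_mod_cast this
  have := hT (Prk (k₁ n) (k₂ n)) (x n) (q n + 1) (2 ^ k₂ n * (d * B n)) (2 ^ k₂ n) t
    (fun m => g (((m : ℤ) - x n : ℤ) : ZMod (q n + 1))) (fun p hp => prk_BilA hp) g3 (by omega)
    (Nat.mul_le_mul_left _ ht) g4 fun m => hg _
  rw [ico_BilA] at this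
  refine this.trans (le_of_eq_of_le ?_ g2)
  push_cast
  ring

theorem cplx_BilA {α β : Type} [Fintype β] (s : Finset α) (π : α → β) {ε C : ℝ} (hC : 1 ≤ C)
    (h : ∀ g : β → ℝ, (∀ z, |g z| ≤ 1) → |𝔼 p ∈ s, g (π p) - 𝔼 z, g z| ≤ ε) (g : β → ℂ)
    (hg : ∀ z, ‖g z‖ ≤ C) : ‖𝔼 p ∈ s, g (π p) - 𝔼 z, g z‖ ≤ 2 * C * ε := by
  have h0 : 0 < C := by linarith
  have k : ∀ f : β → ℝ, (∀ z, |f z| ≤ C) → |𝔼 p ∈ s, f (π p) - 𝔼 z, f z| ≤ C * ε := fun f hf => by
    have := h (fun z => C⁻¹ * f z) fun z => by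
      rw [abs_mul, abs_of_pos (inv_pos.2 h0), inv_mul_le_iff₀ h0, mul_one]
      exact hf z
    rwa [← mul_expect, ← mul_expect, ← mul_sub, abs_mul, abs_of_pos (inv_pos.2 h0),
      inv_mul_le_iff₀ h0] at this
  have a1 := k (fun z => (g z).re) fun z => (Complex.abs_re_le_norm _).trans (hg z)
  have a2 := k (fun z => (g z).im) fun z => (Complex.abs_im_le_norm _).trans (hg z)
  refine (Complex.norm_le_abs_re_add_abs_im _).trans ?_
  rw [Complex.sub_re, Complex.sub_im, re_expect', re_expect', im_expect', im_expect']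
  linarith

theorem coe_BilA {α M : Type} [AddCommMonoid M] [Module ℚ≥0 M] (s : Finset α) (f : α → M) :
    𝔼 p : s, f p = 𝔼 p ∈ s, f p := by
  simp only [Finset.expect, sum_coe_sort, card_univ, Fintype.card_coe]

theorem nonneg_BilA (hG : GcsStmt) {κ S : Type} [Fintype κ] [DecidableEq κ] [Nonempty κ]
    [Fintype S] (F : (κ → S) → ℂ) : 0 ≤ bxa F :=
  le_trans (by positivity) (hG κ S F (fun _ _ => 1) (fun _ _ => norm_one.le) fun _ _ _ => rfl)

theorem sum_le_BilA {d B : ℕ} (v : Fin d → Fin B) : ∑ i, (v i : ℕ) ≤ d * B :=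
  (sum_le_card_nsmul _ _ B fun i _ => (v i).2.le).trans_eq (by simp)

theorem pt_BilA {d B : ℕ} (q x a m : ℕ) (v : Fin d → Fin B) :
    (((a * m : ℕ) : ℤ) - x : ℤ) + ∑ i, ((a : ℤ) * ((v i : ℕ) : ℤ)) • (1 : ZMod (q + 1)) =
      ((((a * (m + ∑ i, (v i : ℕ)) : ℕ) : ℤ) - x : ℤ) : ZMod (q + 1)) := by
  simp only [zsmul_eq_mul, mul_one]
  push_cast
  rw [← mul_sum]
  ring

theorem fw_BilA {k₁ k₂ x q T t : ℕ} {p : ℕ × ℕ} (hx : 1 ≤ x) (ht : t ≤ T)
    (hp : p ∈ Om (Prk k₁ k₂) x (x + (q + 1) - 2 ^ k₂ * T)) :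
    fw x q ((((p.1 * (p.2 + t) : ℕ) : ℤ) - x : ℤ) : ZMod (q + 1)) =
      -(lam ((p.2 : ℤ) + (t : ℕ)) : ℂ) := by
  obtain ⟨h1, h2, h3⟩ := mem_filter.1 hp
  obtain ⟨h4, h5⟩ := prk_BilA (mem_product.1 h1).1
  have h6 : p.1 * t ≤ 2 ^ k₂ * T := Nat.mul_le_mul h5 ht
  have h7 : 0 < p.2 := Nat.pos_of_mul_pos_left (by omega : 0 < p.1 * p.2)
  have h8 : p.1 * (p.2 + t) = p.1 * p.2 + p.1 * t := mul_add _ _ _
  unfold fw
  rw [ZMod.val_intCast, Int.emod_eq_of_lt (by omega) (by omega), add_sub_cancel, Nat.cast_mul,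
    lam_prime_mul h4 (by omega)]
  push_cast
  rfl

theorem bxa_BilA {d B : ℕ} {G : Type} [AddCommGroup G] [Fintype G] (φ : G → ℂ) (g : G)
    (c : Fin d → ℤ) (m : ℕ) :
    𝔼 z, bxa (fun v : Fin d → Fin B =>
      (lam ((m : ℤ) + ((∑ i, (v i : ℕ) : ℕ) : ℤ)) : ℂ) * conj (Ph φ g c z v)) =
      (𝔼 t : (Fin d → Fin B) × (Fin d → Fin B), (LL m t : ℂ) * conj (DD φ g c t)).re := by
  unfold bxa DD LL
  rw [← re_expect']
  congr 1
  rw [expect_prod, expect_comm]
  refine expect_congr rfl fun s _ => ?_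
  rw [expect_comm]
  refine expect_congr rfl fun s' _ => ?_
  rw [← expect_conj, mul_expect]
  refine expect_congr rfl fun z _ => ?_
  simp only [cj_mul, cj_ofReal, cj_conj, prod_mul_distrib, map_prod, Complex.ofReal_prod,
    Nat.cast_sum]

theorem amp_BilA {P G : Type} [Fintype P] [AddCommGroup G] [Fintype G] (y w : P → G) {ε : ℝ}
    (h : ∀ g : G → ℝ, (∀ z, |g z| ≤ 1) → |𝔼 p, g (y p + w p) - 𝔼 z, g z| ≤ ε)
    (g : G × G → ℝ) (hg : ∀ z, |g z| ≤ 1) :
    |𝔼 τ : P × G, g (τ.2 - y τ.1, y τ.1 + w τ.1) - 𝔼 z, g z| ≤ ε := by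
  have := h (fun z => 𝔼 t, g (t, z)) fun z =>
    (abs_expect_le _ _).trans (expect_le univ_nonempty fun t _ => hg _)
  rw [expect_prod, expect_prod, expect_comm (f := fun a b => g (a, b))]
  refine le_of_eq_of_le (congrArg (fun r => |r - _|) (expect_congr rfl fun p _ => ?_)) this
  exact MP.sub_right (y p) fun t => g (t, y p + w p)

theorem val_BilA {P G : Type} [Fintype P] [AddCommGroup G] [Fintype G] (y w : P → G) (a : P → ℂ)
    (φ : G → ℂ) (hφ : ∀ z, 𝔼 y, φ (y + z) * conj (φ (y + z)) = 1) :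
    𝔼 τ : P × G, a τ.1 * conj (φ (τ.2 + w τ.1)) *
      conj (φ (y τ.1 + w τ.1) * conj (φ (y τ.1 + w τ.1 + (τ.2 - y τ.1)))) =
      -𝔼 p, -a p * conj (φ (y p + w p)) := by
  rw [expect_prod, ← expect_neg_distrib]
  refine expect_congr rfl fun p _ => ?_
  rw [neg_mul, neg_neg, ← mul_one (a p * _), ← hφ (w p), mul_expect]
  refine expect_congr rfl fun z _ => ?_
  simp only [map_mul, Complex.conj_conj]
  rw [add_right_comm, add_sub_cancel]
  ring

theorem fin_BilA {a b : ℂ} {δ : ℝ} (h1 : δ ≤ ‖a‖) (h2 : ‖b - a‖ ≤ δ / 2) (h3 : ‖b‖ < δ / 2) :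
    False := by
  have := (norm_sub_norm_le a b).trans ((norm_sub_rev _ _).trans_le h2)
  linarith

theorem bilA_stmt (hT : TkwStmt) (hG : GcsStmt) (hA : AllAff) (hB : AllBox) : BilAStmt := by
  intro u d x q k₁ k₂ B B' φ hd hP hφ ⟨δ, hδ, hc⟩
  have : Nonempty (Fin d) := ⟨⟨0, hd⟩⟩
  obtain ⟨Ω, hΩ⟩ : ∃ Ω : ℕ → Finset (ℕ × ℕ), ∀ n, Ω n =
      Om (Prk (k₁ n) (k₂ n)) (x n) (x n + (q n + 1) - 2 ^ k₂ n * (d * B n)) := ⟨_, fun _ => rfl⟩
  obtain ⟨y, hy⟩ : ∃ y : ∀ n, Ω n → ZMod (q n + 1), ∀ n p,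
      y n p = ((((p.1.1 * p.1.2 : ℕ) : ℤ) - x n : ℤ) : ZMod (q n + 1)) := ⟨_, fun _ _ => rfl⟩
  have hE : ∀ ε : ℝ, 0 < ε → ∀ᶠ n in (u : Filter ℕ), ∀ v : Fin d → Fin (B n),
      ∀ g : ZMod (q n + 1) → ℝ, (∀ z, |g z| ≤ 1) → |𝔼 p : Ω n,
        g (y n p + ∑ i, ((p.1.1 : ℤ) * ((v i : ℕ) : ℤ)) • (1 : ZMod (q n + 1))) - 𝔼 z, g z| ≤ ε :=
    fun ε hε => (eqd_BilA hT d hP hε).mono fun n hn v g hg => by
      have := hn _ (sum_le_BilA v) g hg
      rw [← hΩ, ← coe_BilA] at this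
      simpa only [hy, pt_BilA] using this
  have hK := hA u d q hd (fun n => ZMod (q n + 1)) (fun n => Ω n × ZMod (q n + 1))
    (fun n => Fin (B n)) (fun n t z => φ n z * conj (φ n (z + t))) (fun n τ => τ.2 - y n τ.1)
    (fun n τ => y n τ.1)
    (fun n τ _ v => ((τ.1.1.1 : ℤ) * ((v : ℕ) : ℤ)) • (1 : ZMod (q n + 1))) hφ.clk
    fun ε hε => (hE ε hε).mono fun n hn v g hg => amp_BilA (y n) _ (hn v) g hg
  obtain ⟨C, hC, hb⟩ := hφ.bd.pos
  have key := hB u d hd (fun n => Ω n × ZMod (q n + 1)) (fun n => Fin (B n))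
    (fun n τ v => (lam ((τ.1.1.2 : ℤ) + ((∑ i, (v i : ℕ) : ℕ) : ℤ)) : ℂ) *
      conj (Ph (φ n) 1 (fun _ => (τ.1.1.1 : ℤ)) τ.2 v)) _
    ((Bd2.of_le fun n τ v => (norm_lam _).le).mul (hφ.bd.comp2 _).conj) hK.conj
  obtain ⟨c, hc0, hc1⟩ := ultra_dichotomy u
    (fun n => 𝔼 τ : Ω n × ZMod (q n + 1), bxa fun v : Fin d → Fin (B n) =>
      (lam ((τ.1.1.2 : ℤ) + ((∑ i, (v i : ℕ) : ℕ) : ℤ)) : ℂ) *
        conj (Ph (φ n) 1 (fun _ => (τ.1.1.1 : ℤ)) τ.2 v))
    (fun n => expect_nonneg fun τ _ => nonneg_BilA hG _) fun h0 => by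
      have h1 := (key h0).norm
      rw [norm_zero] at h1
      obtain ⟨n, g1, g2, g3, g4, g5, g6, g7⟩ := ((h1.eventually (gt_mem_nhds (half_pos hδ))).and
        (hc.and (hb.and (hφ.nrm_add.and (hP.b1.and (hP.qx.and
          (hE (δ / (4 * C)) (by positivity)))))))).exists
      have : Nonempty (Fin (B n)) := ⟨⟨0, g5.1⟩⟩
      have e1 := fun v : Fin d → Fin (B n) => cplx_BilA univ _ hC (g7 v)
        (fun z => fw (x n) (q n) z * conj (φ n z)) fun z => by
          rw [norm_mul, fw, norm_lam, one_mul, Complex.norm_conj]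
          exact g3 z
      have e2 := norm_expect_le_of_le univ (by positivity) fun v _ => e1 v
      rw [expect_sub_distrib, Fintype.expect_const] at e2
      have e3 : 2 * C * (δ / (4 * C)) = δ / 2 := by
        field_simp
        ring
      have e5 : ∀ (v : Fin d → Fin (B n)) (p : Ω n), fw (x n) (q n)
          (y n p + ∑ i, ((p.1.1 : ℤ) * ((v i : ℕ) : ℤ)) • (1 : ZMod (q n + 1))) =
          -(lam ((p.1.2 : ℤ) + ((∑ i, (v i : ℕ) : ℕ) : ℤ)) : ℂ) := fun v p => by
        rw [hy, pt_BilA]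
        exact fw_BilA (by omega) (sum_le_BilA v) ((hΩ n).subset p.2)
      simp only [e5] at e2
      rw [expect_comm] at g1
      simp only [Ph] at g1
      rw [expect_congr rfl fun v _ => val_BilA (y n)
        (fun p => ∑ i, ((p.1.1 : ℤ) * ((v i : ℕ) : ℤ)) • (1 : ZMod (q n + 1)))
        (fun p => (lam ((p.1.2 : ℤ) + ((∑ i, (v i : ℕ) : ℕ) : ℤ)) : ℂ)) (φ n) g4,
        expect_neg_distrib, norm_neg] at g1
      exact fin_BilA g2 (e2.trans_eq e3) g1
  refine ⟨c, hc0, hc1.mono fun n hn => hn.trans_eq ?_⟩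
  rw [expect_prod, ← hΩ, ← coe_BilA (Ω n)]
  exact expect_congr rfl fun (p : Ω n) _ => bxa_BilA (φ n) 1 (fun _ => (p.1.1 : ℤ)) p.1.2

end Pool.Agent.MP_4fffd4_nt.AN

end
end

section

open Finset Filter
open scoped BigOperators ComplexConjugate Topology
noncomputable section
namespace Pool.Agent.MP_4fffd4_nt.AN
open Pool.Agent.MP_4fffd4_nt.SX

theorem dd_le_BilB {κ : Type} [Fintype κ] [DecidableEq κ] {G : Type} [AddCommGroup G] [Fintype G]
    (φ : G → ℂ) (g : G) (c : κ → ℤ) {B : ℕ} (t : (κ → Fin B) × (κ → Fin B)) {C : ℝ} (hC : 0 ≤ C)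
    (h : ∀ z, ‖φ z‖ ≤ C) : ‖DD φ g c t‖ ≤ C ^ Fintype.card (κ → Bool) := by
  unfold DD
  refine norm_expect_le_of_le _ (by positivity) fun z _ => ?_
  rw [norm_prod]
  calc ∏ ω : κ → Bool, ‖cj ω (Ph φ g c z (mix ω t.1 t.2))‖ ≤ ∏ _ω : κ → Bool, C :=
        Finset.prod_le_prod (fun _ _ => norm_nonneg _) fun ω _ => by rw [norm_cj]; exact h _
    _ = C ^ Fintype.card (κ → Bool) := by simp

theorem ll_abs_BilB {κ : Type} [Fintype κ] [DecidableEq κ] (m : ℕ) {B : ℕ}
    (t : (κ → Fin B) × (κ → Fin B)) : |LL m t| = 1 := by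
  unfold LL
  rw [Finset.abs_prod]
  simp [abs_lam]

theorem bilB_stmt (hA : BilAStmt) (hS : SelStmt) (hC : CsStmt) : BilBStmt := by
  intro u d x q k₁ k₂ B B' φ hd hP hφ hcor
  obtain ⟨δ, hδ, hev⟩ := hA u d x q k₁ k₂ B B' φ hd hP hφ hcor
  obtain ⟨C₀, hC₀⟩ := hφ.bd
  set C : ℝ := (max C₀ 1) ^ Fintype.card (Fin d → Bool) with hCdef
  have hm : (0 : ℝ) < max C₀ 1 := lt_of_lt_of_le one_pos (le_max_right _ _)
  have hCpos : 0 < C := by positivity
  obtain ⟨ε₀, k₀, hε₀, hsel⟩ := hS δ C hδ hCpos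
  refine ⟨(δ / 2) ^ 2 / (2 * C ^ 2) * ε₀, (δ / 2) ^ 2 / 2, by positivity, by positivity, ?_⟩
  have hd0 : (0 : ℝ) < d := by exact_mod_cast hd
  have e1 := hP.k1.eventually (eventually_ge_atTop k₀)
  have e2 := hP.bq.eventually (ge_mem_nhds (show (0 : ℝ) < 1 / (2 * d) by positivity))
  have e3 := hP.pq.eventually (ge_mem_nhds (show (0 : ℝ) < 1 / 8 by norm_num))
  filter_upwards [hev, hC₀, e1, e2, e3, hP.lt, hP.sq, hP.qx] with n hn hb h1 h2 h3 hlt hsq hqx
  have hq0 : (0 : ℝ) < (q n : ℝ) + 1 := by positivity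
  have hDD : ∀ (a : ℕ) (t : (Fin d → Fin (B n)) × (Fin d → Fin (B n))),
      ‖DD (φ n) 1 (fun _ : Fin d => (a : ℤ)) t‖ ≤ C := fun a t =>
    dd_le_BilB _ _ _ t hm.le fun z => (hb z).trans (le_max_left _ _)
  have hD : 2 * (2 ^ k₂ n * (d * B n)) ≤ q n + 1 := by
    rw [div_le_div_iff₀ hq0 (by positivity)] at h2
    have : (2 : ℝ) * (2 ^ k₂ n * (d * B n)) ≤ (q n : ℝ) + 1 := by nlinarith
    exact_mod_cast this
  have h8 : 8 * 2 ^ k₂ n ≤ q n + 1 := by
    have hs : 0 < Real.sqrt ((q n : ℝ) + 1) := Real.sqrt_pos.2 hq0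
    rw [div_le_div_iff₀ hs (by norm_num)] at h3
    have hs2 : Real.sqrt ((q n : ℝ) + 1) ≤ (q n : ℝ) + 1 := by
      refine Real.sqrt_le_iff.2 ⟨hq0.le, ?_⟩
      have : (0 : ℝ) ≤ q n := Nat.cast_nonneg _
      nlinarith
    have : (8 : ℝ) * 2 ^ k₂ n ≤ (q n : ℝ) + 1 := by linarith
    exact_mod_cast this
  obtain ⟨m, y, A, R, hA2, hsh, hR, hΨ⟩ := hsel (k₁ n) (k₂ n) (x n) (q n + 1)
    (2 ^ k₂ n * (d * B n))
    (fun a m => (𝔼 t : (Fin d → Fin (B n)) × (Fin d → Fin (B n)),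
      (LL m t : ℂ) * conj (DD (φ n) 1 (fun _ => (a : ℤ)) t)).re) h1 hlt hqx hD h8 hsq
    (fun a m => (Complex.abs_re_le_norm _).trans
      (norm_expect_le_of_le _ hCpos.le fun t _ => by
        rw [norm_mul, Complex.norm_real, Real.norm_eq_abs, ll_abs_BilB, one_mul,
          Complex.norm_conj]
        exact hDD a t)) hn
  obtain ⟨b, S, hSR, hcard, hSa⟩ := hC _ R (fun t => LL m t)
    (fun a t => DD (φ n) 1 (fun _ : Fin d => (a : ℤ)) t) (δ / 2) C (by positivity) hCpos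
    (fun t => (ll_abs_BilB m t).le) hDD hΨ
  refine ⟨A, y, b, S, hA2, fun a ha => hsh a (hSR ha), ?_, hSa⟩
  calc (δ / 2) ^ 2 / (2 * C ^ 2) * ε₀ * A / Real.log A
      = (δ / 2) ^ 2 / (2 * C ^ 2) * (ε₀ * A / Real.log A) := by ring
    _ ≤ (δ / 2) ^ 2 / (2 * C ^ 2) * R.card := mul_le_mul_of_nonneg_left hR (by positivity)
    _ ≤ S.card := hcard

end Pool.Agent.MP_4fffd4_nt.AN

end
end

section

/-!
From many equal symbols to a trivial symbol with bounded coefficients.
-/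

open Finset Filter
open scoped BigOperators ComplexConjugate Topology

noncomputable section

namespace Pool.Agent.MP_4fffd4_nt.AN

open Pool.Agent.MP_4fffd4_nt.SX

theorem sign_BilC (d : ℕ) (hd : 1 ≤ d) :
    ∑ ω : Fin d → Bool, (-1 : ℤ) ^ (univ.filter fun i => ω i = false).card = 0 := by
  have h : ∀ ω : Fin d → Bool, (-1 : ℤ) ^ (univ.filter fun i => ω i = false).card =
      ∏ i, if ω i = false then (-1 : ℤ) else 1 := fun ω => by
    rw [prod_ite, prod_const, prod_const_one, mul_one]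
  simp only [h]
  rw [← Fintype.prod_sum (fun (_ : Fin d) (b : Bool) => if b = false then (-1 : ℤ) else 1)]
  simp [show d ≠ 0 by omega]

theorem const_BilC {ι : Type} {d : ℕ} {Γ : Type 1} [AddCommGroup Γ]
    (m : MultilinearMap ℤ (fun _ : Fin d => ι → ℤ) Γ) (k : Fin d → ℤ) :
    m (fun i _ => k i) = (∏ i, k i) • m fun _ _ => 1 := by
  rw [← m.map_smul_univ]
  congr 1
  funext i n
  simp

theorem alg_BilC (hP : PolStmt) (hT : TreeStmt) (u : Ultrafilter ℕ) {d : ℕ} (hd : 1 ≤ d)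
    {Γ : Type 1} [AddCommGroup Γ] (m : MultilinearMap ℤ (fun _ : Fin d => ℕ → ℤ) Γ) (γ : Γ)
    (A : ℕ → ℕ) (S : ℕ → Finset ℕ) (W : ℕ → Finset (Fin d → ℤ)) {c : ℝ} (hc : 0 < c)
    (hA : Tendsto A u atTop)
    (h3 : ∀ᶠ n in (u : Filter ℕ), (∀ w ∈ W n, ∀ i, |w i| ≤ A n) ∧ c * (A n : ℝ) ^ d ≤ (W n).card ∧
      ∀ w ∈ W n, ∃ a₀ : ℤ, ∀ ω : Fin d → Bool, ∃ a ∈ S n, (a : ℤ) = a₀ + dot ω w)
    (hev : ∀ e e' : Fin d → ℕ → ℤ, (∀ᶠ n in (u : Filter ℕ), ∀ i, e i n = e' i n) → m e = m e')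
    (hdiag : ∀ e : ℕ → ℤ, (∀ᶠ n in (u : Filter ℕ), ∃ a ∈ S n, (a : ℤ) = e n) →
      (m fun _ => e) = γ) :
    ∃ c : Fin d → ℤ, (∀ i, 1 ≤ c i) ∧ (m fun i _ => c i) = 0 := by
  obtain ⟨M, hM'⟩ : ∃ M : MultilinearMap ℤ (fun _ : Fin d => ℕ → ℤ) Γ,
      ∀ e : Fin d → ℕ → ℤ, M e = ∑ σ : Equiv.Perm (Fin d), m fun i => e (σ i) :=
    ⟨∑ σ : Equiv.Perm (Fin d), m.domDomCongr σ, fun e => by
      rw [_root_.sum_apply]
      rfl⟩
  obtain ⟨k, hk, h4⟩ := hT ℕ u d Γ M A W c hc hA (fun e e' h => by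
      rw [hM', hM']
      exact sum_congr rfl fun σ _ => hev _ _ (h.mono fun n hn i => hn _))
    (h3.mono fun n hn => ⟨hn.1, hn.2.1⟩) fun w hw => by
      have h5 : ∀ᶠ n in (u : Filter ℕ), ∃ a₀ : ℤ, ∀ ω : Fin d → Bool, ∃ a ∈ S n,
          (a : ℤ) = a₀ + dot ω (w n) := by
        filter_upwards [h3, hw] with n hn h6 using hn.2.2 _ h6
      obtain ⟨a₀, h5⟩ := h5.choice
      rw [hM', ← hP (Fin d) (ℕ → ℤ) Γ m a₀ fun i n => w n i]
      have h6 : ∀ ω : Fin d → Bool, (m fun _ => a₀ + dot ω fun i n => w n i) = γ :=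
        fun ω => hdiag _ (h5.mono fun n hn => by
        obtain ⟨a, ha, ha'⟩ := hn ω
        refine ⟨a, ha, ha'.trans ?_⟩
        simp only [dot, Pi.add_apply, Finset.sum_apply]
        congr 1
        exact sum_congr rfl fun i _ => by split_ifs <;> rfl)
      simp only [h6]
      rw [← sum_smul, sign_BilC d hd, zero_smul]
  have h5 : ∀ σ : Equiv.Perm (Fin d), (m fun i _ => (k (σ i) : ℤ)) =
      (∏ i, (k i : ℤ)) • m fun _ _ => 1 := fun σ => by
    rw [const_BilC, Equiv.prod_comp σ fun i => (k i : ℤ)]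
  rw [hM'] at h4
  simp only [h5] at h4
  rw [sum_const, ← natCast_zsmul, smul_smul] at h4
  generalize hr : ((univ : Finset (Equiv.Perm (Fin d))).card : ℤ) * ∏ i, (k i : ℤ) = r at h4
  have hr1 : 1 ≤ r := by
    have a1 : 0 < ((univ : Finset (Equiv.Perm (Fin d))).card : ℤ) := by
      exact_mod_cast card_pos.2 univ_nonempty
    have a2 : 0 < ∏ i, (k i : ℤ) := prod_pos fun i _ => by exact_mod_cast hk i
    exact hr ▸ mul_pos a1 a2
  refine ⟨Function.update (fun _ => 1) ⟨0, hd⟩ r, fun i => ?_, ?_⟩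
  · by_cases hi : i = ⟨0, hd⟩
    · rw [hi, Function.update_self]
      exact hr1
    · rw [Function.update_of_ne hi]
  · rw [const_BilC, prod_update_of_mem (mem_univ _), prod_const_one, mul_one]
    exact h4

theorem big_BilC (u : Ultrafilter ℕ) (k A : ℕ → ℕ) (hk : Tendsto k u atTop)
    (h : ∀ᶠ n in (u : Filter ℕ), 2 ^ k n ≤ A n ^ 2) : Tendsto A u atTop := by
  refine tendsto_atTop.2 fun N => ?_
  filter_upwards [h, hk.eventually_ge_atTop (2 * N)] with n hn h3
  have h4 : N ^ 2 ≤ A n ^ 2 := by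
    refine le_trans ?_ hn
    calc N ^ 2 ≤ (2 ^ N) ^ 2 := Nat.pow_le_pow_left Nat.lt_two_pow_self.le 2
      _ = 2 ^ (2 * N) := by rw [← pow_mul, mul_comm]
      _ ≤ _ := Nat.pow_le_pow_right two_pos h3
  exact (Nat.pow_le_pow_iff_left two_ne_zero).1 h4

theorem bilC_stmt (hB : BilBStmt) (hQ : CubeStmt) (hP : PolStmt) (hT : TreeStmt) (hL : AllPair)
    (hC : AllCrit) (hS : AllSym) : BilCStmt := by
  intro u d x q k₁ k₂ B B' φ hd hpar hφ hc₀ hcor
  obtain ⟨ε, δ, hε, hδ, h1⟩ := hB u d x q k₁ k₂ B B' φ hd hpar hφ hcor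
  obtain ⟨c, A₀, hc, h2⟩ := hQ d ε hd hε
  obtain ⟨Γ, _, m, m1, m2⟩ := hS u d q hd φ (fun _ => 1) B' hφ hc₀
  obtain ⟨A, h1⟩ := h1.choice
  obtain ⟨y, h1⟩ := h1.choice
  obtain ⟨b, h1⟩ := h1.choice
  obtain ⟨S, h1⟩ := h1.choice
  have hA : Tendsto A u atTop := big_BilC u k₁ A hpar.k1 (h1.mono fun n hn => hn.1)
  have h3 : ∀ᶠ n in (u : Filter ℕ), ∃ W : Finset (Fin d → ℤ), (∀ w ∈ W, ∀ i, |w i| ≤ A n) ∧
      c * (A n : ℝ) ^ d ≤ W.card ∧
      ∀ w ∈ W, ∃ a₀ : ℤ, ∀ ω : Fin d → Bool, ∃ a ∈ S n, (a : ℤ) = a₀ + dot ω w := by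
    filter_upwards [h1, hA.eventually_ge_atTop A₀] with n hn h4
    exact h2 (A n) (y n) (S n) h4 hn.2.1 hn.2.2.1
  obtain ⟨W, h3⟩ := h3.choice
  have hev : ∀ e e' : Fin d → ℕ → ℤ, (∀ᶠ n in (u : Filter ℕ), ∀ i, e i n = e' i n) →
      m e = m e' := by
    intro e e' h
    have h4 := hL u d q hd φ (fun _ => 1) B' (fun n i => e i n)
      (fun n => ZMod (q n + 1) × ZMod (q n + 1)) (fun _ p => p.1) (fun _ p => p.2) hφ
      (Eventually.of_forall fun n => MP.id)
    refine m1 e e' (h4.congr (h.mono fun n hn τ v => ?_))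
    rw [show (fun i => e' i n) = fun i => e i n from funext fun i => (hn i).symm]
  have hdiag : ∀ e : ℕ → ℤ, (∀ᶠ n in (u : Filter ℕ), ∃ a ∈ S n, (a : ℤ) = e n) →
      (m fun _ => e) = m fun _ n => (b n : ℤ) := by
    intro e he
    have h4 := hC u d q hd φ (fun _ => 1) B B' (fun n _ => e n) (fun n _ => (b n : ℤ)) hφ
      hpar.bb ⟨δ, hδ, by
        filter_upwards [h1, he] with n hn ⟨a, ha, ha'⟩
        rw [← ha']
        exact hn.2.2.2 a ha⟩
    exact m1 (fun _ => e) (fun _ n => (b n : ℤ)) h4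
  obtain ⟨c', h4, h5⟩ := alg_BilC hP hT u hd m _ A S W hc hA h3 hev hdiag
  exact ⟨c', h4, m2 (fun i _ => c' i) h5⟩

end Pool.Agent.MP_4fffd4_nt.AN

end
end

section

open Finset Filter
open scoped BigOperators ComplexConjugate Topology

noncomputable section

namespace Pool.Agent.MP_4fffd4_nt.SX

theorem pow_expect_Gcs {ι : Type} (s : Finset ι) {f : ι → ℝ} (h0 : ∀ i ∈ s, 0 ≤ f i) {n : ℕ}
    (hn : n ≠ 0) : (𝔼 i ∈ s, f i) ^ n ≤ 𝔼 i ∈ s, f i ^ n := by
  rcases s.eq_empty_or_nonempty with rfl | hs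
  · simp [hn]
  · have hc : (0 : ℝ) < s.card := by exact_mod_cast hs.card_pos
    have := Real.pow_arith_mean_le_arith_mean_pow s (fun _ => (s.card : ℝ)⁻¹) f
      (fun _ _ => by positivity) (by simp [hc.ne']) h0 n
    simpa only [expect_eq_sum_div_card, div_eq_inv_mul, mul_sum] using this

theorem pow_two_expect_Gcs {ι : Type} (s : Finset ι) (f : ι → ℝ) (k : ℕ) :
    (𝔼 i ∈ s, f i) ^ 2 ^ k ≤ 𝔼 i ∈ s, f i ^ 2 ^ k := by
  rcases k with _ | k
  · simp
  · have he : Even (2 ^ (k + 1)) := (Nat.even_pow.2 ⟨even_two, k.succ_ne_zero⟩)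
    rw [← he.pow_abs]
    refine (pow_le_pow_left₀ (abs_nonneg _) (abs_expect_le s f) _).trans
      ((pow_expect_Gcs s (fun _ _ => abs_nonneg _) (by positivity)).trans (le_of_eq ?_))
    simp only [he.pow_abs]

theorem sq_norm_Gcs {X : Type} [Fintype X] (g : X → ℂ) :
    ‖𝔼 x, g x‖ ^ 2 = (𝔼 x, 𝔼 y, g x * conj (g y)).re := by
  simp only [← mul_expect, expect_conj, ← expect_mul]
  rw [Complex.mul_conj, Complex.ofReal_re, Complex.normSq_eq_norm_sq]

/-- A point with one more coordinate. -/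
def oc_Gcs {κ X : Type} (x : X) (s : κ → X) : Option κ → X := fun o => o.elim x s

theorem mix_oc_Gcs {κ X : Type} (b : Bool) (ω : κ → Bool) (x y : X) (s s' : κ → X) :
    mix (ext b ω) (oc_Gcs x s) (oc_Gcs y s') = oc_Gcs (if b then y else x) (mix ω s s') := by
  funext o
  cases o <;> rfl

theorem upd_none_Gcs {κ X : Type} [DecidableEq κ] (x t : X) (s : κ → X) :
    Function.update (oc_Gcs x s) none t = oc_Gcs t s := by
  funext o
  cases o <;> simp [oc_Gcs]

theorem upd_some_Gcs {κ X : Type} [DecidableEq κ] (x t : X) (s : κ → X) (i : κ) :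
    Function.update (oc_Gcs x s) (some i) t = oc_Gcs x (Function.update s i t) := by
  funext o
  cases o <;> simp [oc_Gcs, Function.update_apply]

theorem expect_oc_Gcs {κ X : Type} [Fintype κ] [DecidableEq κ] [Fintype X]
    (f : (Option κ → X) → ℂ) : 𝔼 s, f s = 𝔼 x, 𝔼 s : κ → X, f (oc_Gcs x s) := by
  rw [← expect_prod (fun p : X × (κ → X) => f (oc_Gcs p.1 p.2))]
  refine Fintype.expect_equiv (Equiv.piOptionEquivProd (β := fun _ => X)) _ _ fun s => ?_
  refine congrArg f ?_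
  funext o
  cases o <;> rfl

theorem step_Gcs {κ X : Type} [Fintype κ] [DecidableEq κ] [Fintype X] (x₀ : X)
    (F : (Option κ → X) → ℂ) (b : Option κ → (Option κ → X) → ℂ) (hb : ∀ i s, ‖b i s‖ ≤ 1)
    (hb' : ∀ i s t, b i (Function.update s i t) = b i s) :
    ‖𝔼 s, F s * ∏ i, b i s‖ ^ 2 ≤ 𝔼 x, 𝔼 y,
      (𝔼 s : κ → X, (F (oc_Gcs x s) * conj (F (oc_Gcs y s))) *
        ∏ i, (b (some i) (oc_Gcs x s) * conj (b (some i) (oc_Gcs y s)))).re := by
  set G : X → (κ → X) → ℂ := fun x s => F (oc_Gcs x s) * ∏ i, b (some i) (oc_Gcs x s) with hG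
  have e₁ : 𝔼 s, F s * ∏ i, b i s = 𝔼 s : κ → X, b none (oc_Gcs x₀ s) * 𝔼 x, G x s := by
    rw [expect_oc_Gcs, expect_comm]
    refine expect_congr rfl fun s _ => ?_
    rw [mul_expect]
    refine expect_congr rfl fun x _ => ?_
    have : b none (oc_Gcs x s) = b none (oc_Gcs x₀ s) := by
      rw [← hb' none (oc_Gcs x₀ s) x, upd_none_Gcs]
    rw [Fintype.prod_option, this, hG]
    ring
  have e₂ : ‖𝔼 s : κ → X, b none (oc_Gcs x₀ s) * 𝔼 x, G x s‖ ≤ 𝔼 s : κ → X, ‖𝔼 x, G x s‖ := by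
    refine (norm_expect_le' _ _).trans (expect_le_expect fun s _ => ?_)
    rw [norm_mul]
    exact mul_le_of_le_one_left (norm_nonneg _) (hb _ _)
  rw [e₁]
  refine (pow_le_pow_left₀ (norm_nonneg _) e₂ 2).trans
    ((pow_expect_Gcs _ (fun _ _ => norm_nonneg _) two_ne_zero).trans (le_of_eq ?_))
  simp only [sq_norm_Gcs, ← re_expect']
  congr 1
  rw [expect_comm]
  refine expect_congr rfl fun x _ => ?_
  rw [expect_comm]
  refine expect_congr rfl fun y _ => expect_congr rfl fun s _ => ?_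
  simp only [hG, prod_mul_distrib, map_mul, map_prod]
  ring

theorem cube_oc_Gcs {κ X : Type} [Fintype κ] [DecidableEq κ] [Fintype X]
    (F : (Option κ → X) → ℂ) :
    𝔼 s, 𝔼 s', ∏ ω, cj ω (F (mix ω s s')) = 𝔼 x, 𝔼 y, 𝔼 s : κ → X, 𝔼 s' : κ → X,
      ∏ ω, cj ω (F (oc_Gcs x (mix ω s s')) * conj (F (oc_Gcs y (mix ω s s')))) := by
  rw [expect_oc_Gcs]
  refine expect_congr rfl fun x _ => ?_
  rw [expect_comm (univ : Finset X)]
  refine expect_congr rfl fun s _ => ?_
  rw [expect_oc_Gcs]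
  refine expect_congr rfl fun y _ => expect_congr rfl fun s' _ => ?_
  rw [prod_ext]
  refine prod_congr rfl fun ω _ => ?_
  rw [mix_oc_Gcs, mix_oc_Gcs, cj_ext_false, cj_ext_true, cj_mul]
  rfl

/-- The statement carried through the induction. -/
def P_Gcs (X : Type) [Fintype X] (κ : Type) [Fintype κ] : Prop :=
  ∀ [DecidableEq κ] (F : (κ → X) → ℂ) (b : κ → (κ → X) → ℂ), (∀ i s, ‖b i s‖ ≤ 1) →
    (∀ i s t, b i (Function.update s i t) = b i s) →
    (𝔼 s, F s * ∏ i, b i s).re ^ 2 ^ Fintype.card κ ≤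
        (𝔼 s, 𝔼 s', ∏ ω, cj ω (F (mix ω s s'))).re ∧
      (Nonempty κ → ‖𝔼 s, F s * ∏ i, b i s‖ ^ 2 ^ Fintype.card κ ≤
        (𝔼 s, 𝔼 s', ∏ ω, cj ω (F (mix ω s s'))).re)

theorem equiv_Gcs {X α β : Type} [Fintype X] [Fintype α] [Fintype β] (e : α ≃ β)
    (h : P_Gcs X α) : P_Gcs X β := by
  classical
  intro _ F b hb hb'
  have H := h (fun s => F (s ∘ e.symm)) (fun i s => b (e i) (s ∘ e.symm)) (fun i s => hb _ _)
    (fun i s t => by
      rw [Function.update_comp_equiv, Equiv.symm_symm]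
      exact hb' _ _ _)
  have e₁ : 𝔼 s : α → X, F (s ∘ e.symm) * ∏ i, b (e i) (s ∘ e.symm) = 𝔼 s, F s * ∏ i, b i s :=
    Fintype.expect_equiv (e.arrowCongr (Equiv.refl X)) _ _ fun s => by
      rw [e.prod_comp fun i => b i (s ∘ e.symm)]
      rfl
  have e₂ : 𝔼 s : α → X, 𝔼 s' : α → X, ∏ ω, cj ω (F (mix ω s s' ∘ e.symm)) =
      𝔼 s, 𝔼 s', ∏ ω, cj ω (F (mix ω s s')) :=
    Fintype.expect_equiv (e.arrowCongr (Equiv.refl X)) _ _ fun s =>
      Fintype.expect_equiv (e.arrowCongr (Equiv.refl X)) _ _ fun s' =>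
        Fintype.prod_equiv (e.arrowCongr (Equiv.refl Bool)) _ _ fun ω =>
          (cj_comp_equiv e.symm ω _).symm
  rw [e₁, e₂, Fintype.card_congr e] at H
  exact ⟨H.1, fun ⟨i⟩ => H.2 ⟨e.symm i⟩⟩

theorem empty_Gcs {X : Type} [Fintype X] : P_Gcs X PEmpty := by
  intro _ F b _ _
  refine ⟨le_of_eq ?_, fun ⟨i⟩ => i.elim⟩
  rw [Fintype.card_pempty, pow_zero, pow_one]
  congr 1
  refine expect_congr rfl fun s _ => ?_
  rw [univ_eq_empty, prod_empty, mul_one, ← Fintype.expect_const (ι := PEmpty → X) (F s)]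
  refine expect_congr rfl fun s' _ => ?_
  rw [Fintype.prod_subsingleton _ fun _ => false, cj_false]
  exact congrArg F (Subsingleton.elim _ _)

theorem option_Gcs {X κ : Type} [Fintype X] [Fintype κ] (x₀ : X) (h : P_Gcs X κ) :
    P_Gcs X (Option κ) := by
  classical
  intro inst F b hb hb'
  obtain rfl : inst = fun a b => Option.instDecidableEq a b := Subsingleton.elim _ _
  have key : ‖𝔼 s, F s * ∏ i, b i s‖ ^ 2 ^ Fintype.card (Option κ) ≤
      (𝔼 s, 𝔼 s', ∏ ω, cj ω (F (mix ω s s'))).re := by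
    rw [Fintype.card_option, pow_succ', pow_mul, cube_oc_Gcs, re_expect']
    refine (pow_le_pow_left₀ (by positivity) (step_Gcs x₀ F b hb hb') _).trans
      ((pow_two_expect_Gcs _ _ _).trans (expect_le_expect fun x _ => ?_))
    rw [re_expect']
    refine (pow_two_expect_Gcs _ _ _).trans (expect_le_expect fun y _ => ?_)
    refine (h (fun s => F (oc_Gcs x s) * conj (F (oc_Gcs y s)))
      (fun i s => b (some i) (oc_Gcs x s) * conj (b (some i) (oc_Gcs y s))) (fun i s => ?_)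
      fun i s t => ?_).1
    · rw [norm_mul, Complex.norm_conj]
      exact mul_le_one₀ (hb _ _) (norm_nonneg _) (hb _ _)
    · rw [← upd_some_Gcs, ← upd_some_Gcs, hb', hb']
  refine ⟨le_trans ?_ key, fun _ => key⟩
  have he : Even (2 ^ Fintype.card (Option κ)) :=
    Nat.even_pow.2 ⟨even_two, Fintype.card_ne_zero⟩
  rw [← he.pow_abs]
  exact pow_le_pow_left₀ (abs_nonneg _) (Complex.abs_re_le_norm _) _

theorem gcs_stmt : GcsStmt := by
  intro κ X _ _ hκ _ F b hb hb'
  rcases isEmpty_or_nonempty X with hX | ⟨⟨x₀⟩⟩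
  · simp
  · exact (Fintype.induction_empty_option (P := fun κ _ => P_Gcs X κ)
      (fun α β _ e h => @equiv_Gcs X α β _ (Fintype.ofEquiv β e.symm) _ e h) empty_Gcs
      (fun _ _ h => option_Gcs x₀ h) κ F b hb hb').2 hκ

theorem gvn_stmt (h : GcsStmt) : GvnStmt := by
  intro κ G _ _ _ _ _ v B z σ hB hσ
  refine convexHull_min (t := {B : (κ → G) → ℂ |
    ‖𝔼 h : κ → G, v (z + ∑ i, σ i (h i)) * B h‖ ^ 2 ^ Fintype.card κ ≤ (UU κ v).re}) ?_ ?_ hB
  · rintro _ ⟨b, hb, hb', rfl⟩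
    refine (h κ G (fun s => v (z + ∑ i, σ i (s i))) b hb hb').trans (le_of_eq ?_)
    congr 1
    have e : ∀ (ω : κ → Bool) (s s' : κ → G), z + ∑ i, σ i (mix ω s s' i) =
        z + ∑ i, σ i (s i) + dot ω ((fun i => σ i (s' i)) - fun i => σ i (s i)) := fun ω s s' => by
      rw [add_assoc, ← sum_mix]
      congr 1
      exact sum_congr rfl fun i _ => apply_ite (σ i) _ _ _
    simp only [e]
    have e₁ : ∀ s : κ → G, 𝔼 s' : κ → G, ∏ ω, cj ω (v (z + ∑ i, σ i (s i) +
        dot ω ((fun i => σ i (s' i)) - fun i => σ i (s i)))) =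
        𝔼 t : κ → G, ∏ ω, cj ω (v (z + ∑ i, σ i (s i) + dot ω t)) := fun s =>
      ((MP.sub_right fun i => σ i (s i)).comp (MP.pi hσ)).expect_c
        fun t => ∏ ω, cj ω (v (z + ∑ i, σ i (s i) + dot ω t))
    simp only [e₁]
    exact (((MP.add_left z).comp MP.sum).comp (MP.pi hσ)).expect_c
      fun x => 𝔼 t : κ → G, ∏ ω, cj ω (v (x + dot ω t))
  · intro B₁ h₁ B₂ h₂ a b ha hb hab
    have e : 𝔼 h : κ → G, v (z + ∑ i, σ i (h i)) * (a • B₁ + b • B₂) h =
        a * (𝔼 h : κ → G, v (z + ∑ i, σ i (h i)) * B₁ h) +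
          b * 𝔼 h : κ → G, v (z + ∑ i, σ i (h i)) * B₂ h := by
      rw [mul_expect, mul_expect, ← expect_add_distrib]
      refine expect_congr rfl fun s _ => ?_
      simp only [Pi.add_apply, Pi.smul_apply, Complex.real_smul]
      ring
    simp only [Set.mem_ofPred_eq] at h₁ h₂ ⊢
    rw [e]
    generalize 𝔼 h : κ → G, v (z + ∑ i, σ i (h i)) * B₁ h = p at h₁ ⊢
    generalize 𝔼 h : κ → G, v (z + ∑ i, σ i (h i)) * B₂ h = q at h₂ ⊢
    have hn : ‖a * p + b * q‖ ≤ a * ‖p‖ + b * ‖q‖ := by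
      refine (norm_add_le _ _).trans (le_of_eq ?_)
      rw [norm_mul, norm_mul, Complex.norm_of_nonneg ha, Complex.norm_of_nonneg hb]
    rcases le_total ‖p‖ ‖q‖ with hpq | hpq
    · refine le_trans (pow_le_pow_left₀ (norm_nonneg _) (hn.trans ?_) _) h₂
      calc _ ≤ a * ‖q‖ + b * ‖q‖ := by gcongr
        _ = ‖q‖ := by rw [← add_mul, hab, one_mul]
    · refine le_trans (pow_le_pow_left₀ (norm_nonneg _) (hn.trans ?_) _) h₁
      calc _ ≤ a * ‖p‖ + b * ‖p‖ := by gcongr
        _ = ‖p‖ := by rw [← add_mul, hab, one_mul]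

end Pool.Agent.MP_4fffd4_nt.SX

end
end

section

/-!
Sign patterns of the Liouville function: the Gowers inner product.
-/

open Finset Filter
open scoped BigOperators ComplexConjugate Topology

noncomputable section

namespace Pool.Agent.MP_4fffd4_nt.SX

section

variable {κ G : Type} [Fintype κ] [DecidableEq κ] [AddCommGroup G] [Fintype G]

theorem UU_conj_Gi (v : G → ℂ) : UU κ (fun y => conj (v y)) = conj (UU κ v) := by
  unfold UU GI
  rw [← expect_conj]
  refine expect_congr rfl fun x _ => ?_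
  rw [← expect_conj]
  refine expect_congr rfl fun h _ => ?_
  rw [map_prod]
  exact prod_congr rfl fun ω _ => cj_conj _ _

theorem UU_cj_Gi (ω₀ : κ → Bool) (v : G → ℂ) :
    (UU κ fun y => cj ω₀ (v y)).re = (UU κ v).re := by
  by_cases h : Even (univ.filter fun i => ω₀ i = true).card
  · have e : (fun y => cj ω₀ (v y)) = v := funext fun y => by simp only [cj, if_pos h]
    rw [e]
  · have e : (fun y => cj ω₀ (v y)) = fun y => conj (v y) :=
      funext fun y => by simp only [cj, if_neg h]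
    rw [e, UU_conj_Gi, Complex.conj_re]

/-- Change of signs. -/
def sg_Gi (ω₀ : κ → Bool) (k : κ → G) : κ → G := fun i => if ω₀ i then k i else -k i

omit [Fintype κ] [DecidableEq κ] [Fintype G] in
theorem sg_inv_Gi (ω₀ : κ → Bool) : Function.Involutive (sg_Gi (G := G) ω₀) := fun k => by
  funext i
  unfold sg_Gi
  split_ifs <;> simp

omit [DecidableEq κ] [Fintype G] in
theorem shift_Gi (ω₀ ω : κ → Bool) (k : κ → G) (x : G) :
    x + (∑ i, k i - dot ω₀ (sg_Gi ω₀ k)) + dot ω (sg_Gi ω₀ k) =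
      x + ∑ i, if ω i = ω₀ i then k i else 0 := by
  unfold dot sg_Gi
  rw [add_assoc, ← sum_sub_distrib, ← sum_add_distrib]
  congr 1
  refine sum_congr rfl fun i _ => ?_
  cases ω i <;> cases ω₀ i <;> simp

theorem GI_eq_Gi (v : (κ → Bool) → G → ℂ) (ω₀ : κ → Bool) :
    GI v = 𝔼 x, 𝔼 k : κ → G, ∏ ω, cj ω (v ω (x + ∑ i, if ω i = ω₀ i then k i else 0)) := by
  unfold GI
  rw [expect_comm, ← (MP.of_bijective (sg_inv_Gi (G := G) ω₀).bijective).expect_c, expect_comm,
    expect_comm, expect_comm (f := fun (x : G) (k : κ → G) =>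
      ∏ ω, cj ω (v ω (x + ∑ i, if ω i = ω₀ i then k i else 0)))]
  refine expect_congr rfl fun k _ => ?_
  rw [← (MP.add_right (∑ i, k i - dot ω₀ (sg_Gi ω₀ k))).expect_c]
  simp only [shift_Gi]

omit [Fintype G] in
theorem gen_Gi [Nonempty κ] (v : (κ → Bool) → G → ℂ) (ω₀ : κ → Bool)
    (hv : ∀ ω, ω ≠ ω₀ → ∀ x, ‖v ω x‖ ≤ 1) (x : G) :
    (fun k : κ → G => ∏ ω ∈ univ.erase ω₀,
      cj ω (v ω (x + ∑ i, if ω i = ω₀ i then k i else 0))) ∈ Gen κ G := by
  have hc : ∀ ω : κ → Bool, ∃ i, ω ≠ ω₀ → ω i ≠ ω₀ i := fun ω => by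
    by_cases h : ω = ω₀
    · exact ⟨Classical.arbitrary κ, fun h' => absurd h h'⟩
    · obtain ⟨i, hi⟩ := Function.ne_iff.1 h
      exact ⟨i, fun _ => hi⟩
  choose c hc using hc
  refine ⟨fun i k => ∏ ω ∈ (univ.erase ω₀).filter fun ω => c ω = i,
    cj ω (v ω (x + ∑ i, if ω i = ω₀ i then k i else 0)), fun i s => ?_, fun i s t => ?_, ?_⟩
  · rw [norm_prod]
    refine prod_le_one (fun _ _ => norm_nonneg _) fun ω hω => ?_
    rw [norm_cj]
    exact hv ω (ne_of_mem_erase (mem_filter.1 hω).1) _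
  · refine prod_congr rfl fun ω hω => ?_
    obtain ⟨h1, h2⟩ := mem_filter.1 hω
    have h3 := hc ω (ne_of_mem_erase h1)
    rw [h2] at h3
    congr 3
    refine sum_congr rfl fun j _ => ?_
    by_cases hj : j = i
    · rw [hj, if_neg h3, if_neg h3]
    · rw [Function.update_of_ne hj]
  · funext k
    exact (prod_fiberwise _ c _).symm

end

theorem gi_stmt (h : GvnStmt) : GiStmt := by
  intro κ G _ _ _ _ _ v ω₀ hv
  set I : G → ℂ := fun x => 𝔼 k : κ → G,
    ∏ ω, cj ω (v ω (x + ∑ i, if ω i = ω₀ i then k i else 0)) with hI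
  have h1 : ∀ x, ‖I x‖ ^ 2 ^ Fintype.card κ ≤ (UU κ (v ω₀)).re := fun x => by
    have := h κ G (fun y => cj ω₀ (v ω₀ y)) _ x (fun _ y => y)
      (subset_convexHull ℝ _ (gen_Gi v ω₀ hv x)) fun _ => Function.bijective_id
    rw [UU_cj_Gi] at this
    refine le_of_eq_of_le ?_ this
    congr 2
    refine expect_congr rfl fun k _ => ?_
    rw [← mul_prod_erase univ _ (mem_univ ω₀)]
    simp only [if_true]
  obtain ⟨x₀, -, hx⟩ := exists_max_image univ (fun x => ‖I x‖) ⟨0, mem_univ _⟩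
  refine le_trans (pow_le_pow_left₀ (norm_nonneg _) ?_ _) (h1 x₀)
  rw [GI_eq_Gi v ω₀]
  exact (norm_expect_le' _ _).trans (expect_le ⟨0, mem_univ _⟩ hx)

theorem giOpt_stmt : GiOptStmt := by
  intro κ G _ _ _ _ v
  unfold GI
  rw [expect_comm (f := fun (t x : G) => 𝔼 h : κ → G, ∏ ω : κ → Bool,
    cj ω (v (ext false ω) (x + dot ω h) * conj (v (ext true ω) (x + dot ω h + t))))]
  refine expect_congr rfl fun x _ => ?_
  rw [← (MP.equiv (Equiv.piOptionEquivProd (β := fun _ : Option κ => G)).symm).expect_c,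
    expect_prod]
  refine expect_congr rfl fun t _ => expect_congr rfl fun k _ => ?_
  rw [prod_ext]
  refine prod_congr rfl fun ω _ => ?_
  rw [cj_ext_false, cj_ext_true, dot_ext, dot_ext, cj_mul]
  simp only [Equiv.piOptionEquivProd_symm_apply, Bool.false_eq_true, if_false, if_true, zero_add]
  rw [add_comm t, add_assoc]

theorem giEqv_stmt : GiEqvStmt := by
  intro κ κ' G _ _ _ _ _ _ e v
  unfold GI
  refine expect_congr rfl fun x _ => ?_
  rw [← (MP.equiv (e.symm.arrowCongr (Equiv.refl G))).expect_c]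
  refine expect_congr rfl fun k _ => ?_
  rw [← (e.symm.arrowCongr (Equiv.refl Bool)).prod_comp]
  refine prod_congr rfl fun ω _ => ?_
  have e1 : (e.symm.arrowCongr (Equiv.refl Bool)) ω = ω ∘ e := by
    funext i
    simp
  have e2 : dot (ω ∘ e) ((e.symm.arrowCongr (Equiv.refl G)) k) = dot ω k := by
    unfold dot
    rw [← e.sum_comp]
    refine sum_congr rfl fun i _ => ?_
    simp
  rw [e1, e2, cj_comp_equiv]

end Pool.Agent.MP_4fffd4_nt.SX

end
end

section

open Finset Filter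
open scoped BigOperators ComplexConjugate Topology

noncomputable section

namespace Pool.Agent.MP_4fffd4_nt.SX

theorem pow_expect_Pair {α : Type} (s : Finset α) (f : α → ℝ) (hf : ∀ a, 0 ≤ f a) (d : ℕ) :
    (𝔼 a ∈ s, f a) ^ 2 ^ d ≤ 𝔼 a ∈ s, f a ^ 2 ^ d := by
  induction d with
  | zero => simp
  | succ d ih =>
    simp only [pow_succ 2 d, pow_mul]
    exact (pow_le_pow_left₀ (pow_nonneg (expect_nonneg fun a _ => hf a) _) ih 2).trans
      (sq_expect_le s _)

theorem fin_Pair (hG : GvnStmt) {κ G X Y : Type} [Fintype κ] [DecidableEq κ] [Nonempty κ]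
    [AddCommGroup G] [Fintype G] [Fintype X] [Fintype Y] (v : X → G → ℂ)
    (B B' : Y → (κ → G) → ℂ) (π : Y → X) (z : Y → G) (σ : κ → G → G) {D C δ η : ℝ}
    (hD : 0 ≤ D) (hC : 0 ≤ C) (hδ : 0 ≤ δ) (hη : 0 ≤ η) (hv : ∀ τ x, ‖v τ x‖ ≤ D)
    (hB : ∀ τ, B' τ ∈ BB κ G) (hc : 𝔼 τ, 𝔼 s, ‖B τ s - C * B' τ s‖ ^ 2 ≤ δ ^ 2) (hπ : MP π)
    (hσ : ∀ i, Function.Bijective (σ i))
    (hU : 𝔼 τ, (UU κ (v τ)).re ≤ η ^ 2 ^ Fintype.card κ) :
    ‖𝔼 τ, 𝔼 h : κ → G, v (π τ) (z τ + ∑ i, σ i (h i)) * B τ h‖ ≤ D * δ + C * η := by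
  have e : 𝔼 τ, 𝔼 h : κ → G, v (π τ) (z τ + ∑ i, σ i (h i)) * B τ h =
      (𝔼 τ, 𝔼 h : κ → G, v (π τ) (z τ + ∑ i, σ i (h i)) * (B τ h - C * B' τ h)) +
        C * 𝔼 τ, 𝔼 h : κ → G, v (π τ) (z τ + ∑ i, σ i (h i)) * B' τ h := by
    simp only [mul_expect, ← expect_add_distrib]
    refine expect_congr rfl fun τ _ => expect_congr rfl fun h _ => ?_
    ring
  have a1 : 𝔼 τ, 𝔼 s, ‖B τ s - C * B' τ s‖ ≤ δ := by
    refine (pow_le_pow_iff_left₀ (expect_nonneg fun _ _ => expect_nonneg fun _ _ => norm_nonneg _)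
      hδ two_ne_zero).1 (le_trans ?_ hc)
    exact (sq_expect_le _ _).trans (expect_le_expect fun τ _ => sq_expect_le _ _)
  have a2 : ‖𝔼 τ, 𝔼 h : κ → G, v (π τ) (z τ + ∑ i, σ i (h i)) * (B τ h - C * B' τ h)‖ ≤ D * δ := by
    refine le_trans ?_ (mul_le_mul_of_nonneg_left a1 hD)
    simp only [mul_expect]
    refine (norm_expect_le' _ _).trans (expect_le_expect fun τ _ => ?_)
    refine (norm_expect_le' _ _).trans (expect_le_expect fun h _ => ?_)
    rw [norm_mul]
    exact mul_le_mul_of_nonneg_right (hv _ _) (norm_nonneg _)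
  have a3 : ‖𝔼 τ, 𝔼 h : κ → G, v (π τ) (z τ + ∑ i, σ i (h i)) * B' τ h‖ ≤ η := by
    refine (norm_expect_le' _ _).trans ?_
    refine (pow_le_pow_iff_left₀ (expect_nonneg fun _ _ => norm_nonneg _) hη
      (pow_ne_zero (Fintype.card κ) two_ne_zero)).1 (le_trans ?_ hU)
    refine (pow_expect_Pair _ _ (fun _ => norm_nonneg _) _).trans ?_
    rw [← hπ fun τ => (UU κ (v τ)).re]
    exact expect_le_expect fun τ _ => hG κ G (v (π τ)) (B' τ) (z τ) σ (hB τ) hσ
  rw [e]
  refine norm_add_le_of_le a2 ?_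
  rw [norm_mul, Complex.norm_real, Real.norm_of_nonneg hC]
  exact mul_le_mul_of_nonneg_left a3 hC

variable {ι : Type} (l : Filter ι) (κ : Type) [Fintype κ] [DecidableEq κ] [Nonempty κ]
  (G : ι → Type) [∀ n, AddCommGroup (G n)] [∀ n, Fintype (G n)]

theorem one_Pair (hG : GvnStmt) (X Y : ι → Type) [∀ n, Fintype (X n)] [∀ n, Fintype (Y n)]
    (v : ∀ n, X n → G n → ℂ) (B : ∀ n, Y n → (κ → G n) → ℂ) (π : ∀ n, Y n → X n)
    (z : ∀ n, Y n → G n) (σ : ∀ n, κ → G n → G n) (hv : Bd2 l v) (hN : Null l κ v) (hB : ClB l B)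
    (hπ : ∀ᶠ n in l, MP (π n)) (hσ : ∀ᶠ n in l, ∀ i, Function.Bijective (σ n i)) :
    Tendsto (fun n => 𝔼 τ, 𝔼 h : κ → G n, v n (π n τ) (z n τ + ∑ i, σ n i (h i)) * B n τ h) l
      (𝓝 0) := by
  obtain ⟨D, hD, hb⟩ := hv.pos
  have hD0 : 0 < D := by linarith
  refine NormedAddGroup.tendsto_nhds_zero.2 fun ε hε => ?_
  obtain ⟨C, hC, hc⟩ := hB.2 ((ε / (4 * D)) ^ 2) (by positivity)
  have hη : 0 < ε / (4 * (C + 1)) := by positivity
  have hU : ∀ᶠ n in l, 𝔼 τ, (UU κ (v n τ)).re ≤ (ε / (4 * (C + 1))) ^ 2 ^ Fintype.card κ :=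
    hN.eventually (eventually_le_nhds (pow_pos hη _))
  filter_upwards [hb, hc, hU, hπ, hσ] with n h1 ⟨B', h2, h3⟩ h4 h5 h6
  refine (fin_Pair hG (v n) (B n) B' (π n) (z n) (σ n) hD0.le hC (by positivity) hη.le h1 h2 h3 h5
    h6 h4).trans_lt ?_
  have e1 : D * (ε / (4 * D)) = ε / 4 := by field_simp
  have e2 : (C + 1) * (ε / (4 * (C + 1))) = ε / 4 := by field_simp
  nlinarith

theorem two_Pair (hG : GvnStmt) (X : ι → Type) [∀ n, Fintype (X n)] (v a : ∀ n, X n → G n → ℂ)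
    (hv : Bd2 l v) (hN : Null l κ v) (ha : ClA l κ a) :
    Tendsto (fun n => 𝔼 τ, 𝔼 x, v n τ x * a n τ x) l (𝓝 0) := by
  have h' : ClB l fun n τ (s : κ → G n) => a n τ (∑ i, s i) := ha
  have := one_Pair l κ G hG X X v (fun n τ (s : κ → G n) => a n τ (∑ i, s i)) (fun _ τ => τ)
    (fun _ _ => 0) (fun _ _ x => x) hv hN h' (Eventually.of_forall fun _ => MP.id)
    (Eventually.of_forall fun _ _ => Function.bijective_id)
  refine this.congr fun n => expect_congr rfl fun τ _ => ?_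
  simp only [zero_add]
  exact MP.sum.expect_c fun x => v n τ x * a n τ x

theorem pair_stmt (hG : GvnStmt) : PairStmt l κ G := by
  refine ⟨fun X Y _ _ v B π z σ => one_Pair l κ G hG X Y v B π z σ,
    fun X _ v a => two_Pair l κ G hG X v a, fun M hM hN L hL => ?_⟩
  have h' : ClA l κ fun n (t : G n) x => L n x (x + t) := hL
  have := two_Pair l κ G hG G (fun n (t : G n) x => M n x (x + t))
    (fun n (t : G n) x => L n x (x + t)) (hM.comp _ _) hN h'
  exact this.congr fun n => (expect_diff fun x y => M n x y * L n x y).symm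

end Pool.Agent.MP_4fffd4_nt.SX

end
end

section

open Finset Filter
open scoped BigOperators ComplexConjugate Topology
noncomputable section
namespace Pool.Agent.MP_4fffd4_nt.SX
variable {ι : Type} (l : Filter ι) (κ : Type) [Fintype κ] [DecidableEq κ] [Nonempty κ]
  (G : ι → Type) [∀ n, AddCommGroup (G n)] [∀ n, Fintype (G n)]

section
variable {κ : Type} [Fintype κ] [DecidableEq κ] {A : Type} [AddCommGroup A] [Fintype A]

/-- The product over the vertices other than the base point. -/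
def pi_Dual (f : A → ℂ) (h : κ → A) (x : A) : ℂ :=
  ∏ ω ∈ univ.erase fun _ : κ => false, cj ω (f (x + dot ω h))

omit [Fintype A] in
theorem full_Dual (f : A → ℂ) (h : κ → A) (x : A) :
    f x * pi_Dual f h x = ∏ ω, cj ω (f (x + dot ω h)) := by
  rw [← mul_prod_erase univ _ (mem_univ fun _ => false), cj_false, dot_false, add_zero, pi_Dual]

theorem uu_Dual (v : A → ℂ) : 𝔼 x, v x * Dual κ v x = UU κ v := by
  refine expect_congr rfl fun x _ => ?_
  rw [Dual, mul_expect]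
  exact expect_congr rfl fun h _ => full_Dual v h x

omit [AddCommGroup A] in
theorem form_Dual {B : Type} [Fintype B] (P : B → A → ℂ) (g : A → ℂ) :
    𝔼 x, 𝔼 y, conj (g x) * (𝔼 h, conj (P h x) * P h y) * g y =
      𝔼 h, 𝔼 x, 𝔼 y, conj (g x * P h x) * (g y * P h y) := by
  rw [expect_comm (f := fun h x => 𝔼 y, conj (g x * P h x) * (g y * P h y))]
  refine expect_congr rfl fun x _ => ?_
  rw [expect_comm (f := fun h y => conj (g x * P h x) * (g y * P h y))]
  refine expect_congr rfl fun y _ => ?_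
  rw [mul_expect, expect_mul]
  refine expect_congr rfl fun h _ => ?_
  rw [map_mul]
  ring

end

theorem cla_Dual {X : ι → Type} [∀ n, Fintype (X n)] (v : ∀ n, X n → G n → ℂ) (hv : Bd2 l v) :
    ClA l κ fun n τ => Dual κ (v n τ) := by
  have h1 : ClB l fun n (p : X n × (κ → G n)) (s : κ → G n) =>
      ∏ ω ∈ univ.erase fun _ : κ => false, cj ω (v n p.1 (∑ i, mix ω s p.2 i)) := by
    refine ClB.prod _ (F := fun ω n (p : X n × (κ → G n)) (s : κ → G n) =>
      cj ω (v n p.1 (∑ i, mix ω s p.2 i))) fun ω hω => ?_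
    obtain ⟨i, hi⟩ : ∃ i, ω i = true := by
      by_contra! h
      exact (mem_erase.1 hω).1 (funext fun i => by simpa using h i)
    exact ClB.of_indep i ((hv.comp _ _).cj ω) fun n τ s t => by rw [mix_update hi]
  refine (ClB.avg h1).congr (Eventually.of_forall fun n τ s => ?_)
  simp only [sum_mix]
  exact (MP.sub_right s).expect_c fun h =>
    ∏ ω ∈ univ.erase fun _ : κ => false, cj ω (v n τ (∑ i, s i + dot ω h))

theorem dual_stmt : DualStmt l κ G := by
  refine ⟨fun X _ v hv => cla_Dual l κ G v hv, fun n v => uu_Dual v, fun M hb hP => ?_⟩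
  have h1 := hP (fun n x y => Dual κ (fun x' => M n x' (x' + (y - x))) x)
    ((cla_Dual l κ G (fun n (t : G n) x => M n x (x + t)) (hb.comp _ _)).congr
      (Eventually.of_forall fun n t x => by simp only [add_sub_cancel_left]))
  refine ((Complex.continuous_re.tendsto 0).comp h1).congr fun n => ?_
  rw [Function.comp_apply, expect_diff, re_expect']
  refine expect_congr rfl fun t _ => ?_
  simp only [add_sub_cancel_left]
  rw [uu_Dual]

theorem kdual_stmt (hO : GiOptStmt) : KdualStmt l κ G := by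
  intro f hf
  refine ⟨fun n x y => 𝔼 h : κ → G n, conj (pi_Dual (f n) h x) * pi_Dual (f n) h y, ?_,
    fun n x y => ?_, fun n g => ?_, fun n x y => ?_, fun n => ?_⟩
  · refine (cla_Dual l κ G (fun n (t : G n) x => conj (f n x) * f n (x + t))
      (((Bd1.of_le hf).comp2 _).conj.mul ((Bd1.of_le hf).comp2 _))).congr
      (Eventually.of_forall fun n t x => expect_congr rfl fun h _ => ?_)
    simp only [pi_Dual, cj_mul, cj_conj, map_prod, prod_mul_distrib, add_right_comm x t]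
  · rw [← expect_conj]
    exact expect_congr rfl fun h _ => by rw [map_mul, Complex.conj_conj, mul_comm]
  · rw [form_Dual, re_expect']
    refine expect_nonneg fun h _ => ?_
    rw [← expect_mul_expect, expect_conj, Complex.conj_mul', ← Complex.ofReal_pow,
      Complex.ofReal_re]
    positivity
  · have h1 : ∀ (h : κ → G n) z, ‖pi_Dual (f n) h z‖ ≤ 1 := fun h z => by
      rw [pi_Dual, norm_prod]
      exact prod_le_one (fun _ _ => norm_nonneg _) fun ω _ => (norm_cj _ _).trans_le (hf n _)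
    refine norm_expect_le_of_le _ zero_le_one fun h _ => ?_
    rw [norm_mul, Complex.norm_conj]
    exact mul_le_one₀ (h1 h x) (norm_nonneg _) (h1 h y)
  · rw [form_Dual, UU, hO]
    simp only [full_Dual, GI, cj_mul, cj_conj, prod_mul_distrib, ← map_prod]
    refine Eq.trans ?_ (expect_congr rfl fun t _ => expect_comm _ _ _)
    rw [expect_comm (s := univ) (t := (univ : Finset (κ → G n)))]
    refine expect_congr rfl fun h _ => ?_
    rw [expect_comm, expect_diff]
    refine expect_congr rfl fun t _ => expect_congr rfl fun x _ => ?_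
    simp only [add_right_comm x t, mul_comm]

end Pool.Agent.MP_4fffd4_nt.SX

end
end

section

/-!
Sign patterns of the Liouville function: the spectral theorem for finite kernels.
-/

open Finset Filter
open scoped BigOperators ComplexConjugate Topology

noncomputable section

namespace Pool.Agent.MP_4fffd4_nt.SX

theorem eig_SpecFin {X : Type} [Fintype X] [DecidableEq X] (K : X → X → ℂ)
    (hK : ∀ x y, K y x = conj (K x y)) :
    ∃ (l : X → ℝ) (w : X → X → ℂ),
      (∀ i j, ∑ x, w i x * conj (w j x) = if i = j then 1 else 0) ∧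
      (∀ x y, ∑ j, w j x * conj (w j y) = if x = y then 1 else 0) ∧
      ∀ j x, ∑ y, K x y * w j y = l j * w j x := by
  have hA : (Matrix.of K).IsHermitian := by
    ext x y
    simp [Matrix.conjTranspose_apply, hK x y]
  refine ⟨hA.eigenvalues, fun j x => hA.eigenvectorBasis j x, fun i j => ?_, fun x y => ?_,
    fun j x => ?_⟩
  · have h := congrFun (congrFun (Unitary.coe_star_mul_self hA.eigenvectorUnitary) j) i
    rw [Matrix.mul_apply, Matrix.one_apply] at h
    simp only [Matrix.star_apply, Matrix.IsHermitian.eigenvectorUnitary_apply] at h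
    rw [if_congr eq_comm rfl rfl, ← h]
    exact Finset.sum_congr rfl fun x _ => mul_comm _ _
  · have h := congrFun (congrFun (Unitary.coe_mul_star_self hA.eigenvectorUnitary) x) y
    rw [Matrix.mul_apply, Matrix.one_apply] at h
    simp only [Unitary.coe_star, Matrix.star_apply,
      Matrix.IsHermitian.eigenvectorUnitary_apply] at h
    exact h
  · have h := congrFun (hA.mulVec_eigenvectorBasis j) x
    simpa [Matrix.mulVec, dotProduct] using h

theorem eig2_SpecFin {X : Type} [Fintype X] [DecidableEq X] [Nonempty X] (K : X → X → ℂ)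
    (hK : ∀ x y, K y x = conj (K x y)) :
    ∃ (μ : X → ℝ) (u : X → X → ℂ),
      (∀ i j, 𝔼 x, u i x * conj (u j x) = if i = j then 1 else 0) ∧
      (∀ x y, ∑ j, u j x * conj (u j y) = if x = y then (Fintype.card X : ℂ) else 0) ∧
      ∀ j x, 𝔼 y, K x y * u j y = μ j * u j x := by
  obtain ⟨l, w, h1, h2, h3⟩ := eig_SpecFin K hK
  have hN : (Fintype.card X : ℂ) ≠ 0 := Nat.cast_ne_zero.2 Fintype.card_ne_zero
  set s : ℂ := (Real.sqrt (Fintype.card X) : ℂ) with hs
  have hss : s * s = Fintype.card X := by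
    rw [hs, ← Complex.ofReal_mul, Real.mul_self_sqrt (Nat.cast_nonneg _)]
    simp
  have hcs : conj s = s := Complex.conj_ofReal _
  have key : ∀ a b : ℂ, s * a * conj (s * b) = Fintype.card X * (a * conj b) := by
    intro a b
    rw [map_mul, hcs, ← hss]
    ring
  refine ⟨fun j => l j / Fintype.card X, fun j x => s * w j x, fun i j => ?_, fun x y => ?_,
    fun j x => ?_⟩
  · simp only [key]
    rw [Fintype.expect_eq_sum_div_card, ← Finset.mul_sum, h1, mul_div_cancel_left₀ _ hN]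
  · simp only [key]
    rw [← Finset.mul_sum, h2]
    split_ifs <;> simp
  · rw [Fintype.expect_eq_sum_div_card]
    have : ∑ y, K x y * (s * w j y) = s * ∑ y, K x y * w j y := by
      rw [Finset.mul_sum]
      exact Finset.sum_congr rfl fun y _ => by ring
    rw [this, h3]
    push_cast
    ring

theorem delta_SpecFin {X : Type} [Fintype X] [DecidableEq X] [Nonempty X] (f : X → ℂ) (y : X) :
    𝔼 z, f z * (if z = y then (Fintype.card X : ℂ) else 0) = f y := by
  have hN : (Fintype.card X : ℂ) ≠ 0 := Nat.cast_ne_zero.2 Fintype.card_ne_zero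
  rw [Fintype.expect_eq_sum_div_card]
  simp only [mul_ite, mul_zero, Finset.sum_ite_eq', Finset.mem_univ, if_true]
  exact mul_div_cancel_right₀ _ hN

theorem specFin_stmt : SpecFinStmt := by
  intro X _ _ _ K hK hpos hb
  obtain ⟨μ, u, h1, h2, h3⟩ := eig2_SpecFin K hK
  have hexp : ∀ x y, K x y = ∑ j, μ j * (u j x * conj (u j y)) := by
    intro x y
    rw [← delta_SpecFin (fun z => K x z) y]
    simp only [← h2, Finset.mul_sum]
    rw [Finset.expect_sum_comm]
    refine Finset.sum_congr rfl fun j _ => ?_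
    rw [← mul_assoc, ← h3, Finset.expect_mul]
    exact Finset.expect_congr rfl fun z _ => by ring
  have h0 : ∀ j, 0 ≤ μ j := by
    intro j
    have h := hpos (u j)
    have e : 𝔼 x, 𝔼 y, conj (u j x) * K x y * u j y = (μ j : ℂ) := by
      have : ∀ x, 𝔼 y, conj (u j x) * K x y * u j y = μ j * (u j x * conj (u j x)) := by
        intro x
        simp only [mul_assoc]
        rw [← Finset.mul_expect, h3]
        ring
      simp only [this]
      rw [← Finset.mul_expect, h1, if_pos rfl, mul_one]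
    rwa [e, Complex.ofReal_re] at h
  have hsq : ∀ j, 𝔼 x, ‖u j x‖ ^ 2 = 1 := by
    intro j
    have h := congrArg Complex.re (h1 j j)
    rw [re_expect', if_pos rfl, Complex.one_re] at h
    rw [← h]
    refine Finset.expect_congr rfl fun x _ => ?_
    rw [Complex.mul_conj, Complex.normSq_eq_norm_sq, Complex.ofReal_re]
  refine ⟨μ, u, h0, ?_, h1, hexp, fun j x => ?_, fun g => ?_⟩
  · have e : 𝔼 x, K x x = ((∑ j, μ j : ℝ) : ℂ) := by
      simp only [hexp]
      rw [Finset.expect_sum_comm]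
      push_cast
      refine Finset.sum_congr rfl fun j _ => ?_
      rw [← Finset.mul_expect, h1, if_pos rfl, mul_one]
    have h := norm_expect_le' univ fun x => K x x
    rw [e, Complex.norm_real, Real.norm_eq_abs] at h
    refine (le_abs_self _).trans (h.trans ?_)
    exact Finset.expect_le Finset.univ_nonempty fun x _ => hb x x
  · have h := norm_expect_le' univ fun y => K x y * u j y
    rw [h3, norm_mul, Complex.norm_real, Real.norm_of_nonneg (h0 j)] at h
    refine h.trans ?_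
    have h' : 𝔼 y, ‖K x y * u j y‖ ≤ 𝔼 y, (1 + ‖u j y‖ ^ 2) * (1 / 2) := by
      refine Finset.expect_le_expect fun y _ => ?_
      rw [norm_mul]
      have := mul_le_mul_of_nonneg_right (hb x y) (norm_nonneg (u j y))
      nlinarith [sq_nonneg (‖u j y‖ - 1)]
    rw [← Finset.expect_mul, Finset.expect_add_distrib, hsq,
      Finset.expect_const Finset.univ_nonempty] at h'
    linarith
  · have e : ∑ j, (𝔼 x, g x * conj (u j x)) * conj (𝔼 x, g x * conj (u j x)) =
        𝔼 x, g x * conj (g x) := by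
      have : ∀ j, (𝔼 x, g x * conj (u j x)) * conj (𝔼 x, g x * conj (u j x)) =
          𝔼 x, 𝔼 y, g x * conj (g y) * (u j y * conj (u j x)) := by
        intro j
        rw [← expect_conj, Finset.expect_mul_expect]
        refine Finset.expect_congr rfl fun x _ => Finset.expect_congr rfl fun y _ => ?_
        rw [map_mul, Complex.conj_conj]
        ring
      simp only [this]
      rw [← Finset.expect_sum_comm]
      refine Finset.expect_congr rfl fun x _ => ?_
      rw [← Finset.expect_sum_comm]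
      simp only [← Finset.mul_sum, h2]
      exact delta_SpecFin (fun y => g x * conj (g y)) x
    have h := congrArg Complex.re e
    rw [re_expect', Complex.re_sum] at h
    simp only [Complex.mul_conj, Complex.normSq_eq_norm_sq, Complex.ofReal_re] at h
    exact h.le

end Pool.Agent.MP_4fffd4_nt.SX

end
end

section

/-!
Minimal projections in algebras of matrices.
-/

open Finset Filter
open scoped BigOperators ComplexConjugate Topology

noncomputable section

namespace Pool.Agent.MP_4fffd4_nt.SX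

open Matrix

theorem spec_Alg {r : ℕ} (S : Subalgebra ℂ (Matrix (Fin r) (Fin r) ℂ))
    {b : Matrix (Fin r) (Fin r) ℂ} (hS : b ∈ S) (hb : b.IsHermitian) :
    ∃ (T : Finset ℂ) (E : ℂ → Matrix (Fin r) (Fin r) ℂ), ∑ l ∈ T, E l = 1 ∧
      ∀ l, E l ∈ S ∧ (E l)ᴴ = E l ∧ E l * E l = E l ∧ b * E l = l • E l := by
  classical
  set μ : Fin r → ℂ := RCLike.ofReal ∘ hb.eigenvalues
  set ψ := Unitary.conjStarAlgAut ℂ _ hb.eigenvectorUnitary
  set φ : (Fin r → ℂ) →ₐ[ℂ] Matrix (Fin r) (Fin r) ℂ :=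
    (ψ.toAlgEquiv : _ →ₐ[ℂ] _).comp (diagonalAlgHom ℂ) with hφ
  have e : ∀ d, φ d = ψ (diagonal d) := fun d => rfl
  have hμ : φ μ = b := hb.spectral_theorem.symm
  refine ⟨univ.image μ, fun l => φ fun j => if μ j = l then 1 else 0, ?_, fun l => ⟨?_, ?_, ?_, ?_⟩⟩
  · rw [← map_sum, ← map_one φ]
    congr 1
    ext j
    simp [Finset.sum_apply]
  · have : (fun j => if μ j = l then (1 : ℂ) else 0) =
        ∏ k ∈ univ.filter fun k => μ k ≠ l, (l - μ k)⁻¹ • (μ - μ k • (1 : Fin r → ℂ)) := by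
      ext j
      rw [Finset.prod_apply]
      split_ifs with h
      · refine (prod_eq_one fun k hk => ?_).symm
        have := (mem_filter.1 hk).2
        simp only [Pi.smul_apply, Pi.sub_apply, Pi.one_apply, smul_eq_mul, mul_one, h]
        exact inv_mul_cancel₀ (sub_ne_zero.2 this.symm)
      · exact (prod_eq_zero (mem_filter.2 ⟨mem_univ j, h⟩) (by simp)).symm
    change _ ∈ S.comap φ
    rw [this]
    have h1 : μ ∈ S.comap φ := by rwa [Subalgebra.mem_comap, hμ]
    exact prod_mem fun k _ => Subalgebra.smul_mem _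
      (sub_mem h1 (Subalgebra.smul_mem _ (one_mem _) _)) _
  · beta_reduce
    rw [e, ← star_eq_conjTranspose, ← map_star, star_eq_conjTranspose, diagonal_conjTranspose]
    congr 2
    ext j
    simp only [Pi.star_apply]
    split_ifs <;> simp
  · rw [← map_mul]
    congr 1
    ext j
    simp only [Pi.mul_apply]
    split_ifs <;> simp
  · rw [← hμ, ← map_mul, ← map_smul]
    congr 1
    ext j
    simp only [Pi.mul_apply, Pi.smul_apply, smul_eq_mul]
    split_ifs with h <;> simp [h]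

theorem min_Alg {r : ℕ} (S : Subalgebra ℂ (Matrix (Fin r) (Fin r) ℂ)) (hS : ∀ a ∈ S, aᴴ ∈ S)
    {v : Fin r → ℂ} (hv : v ≠ 0) : ∃ π ∈ S, πᴴ = π ∧ π * π = π ∧ π *ᵥ v ≠ 0 ∧
      ∀ a ∈ S, ∃ c : ℂ, π * a * π = c • π := by
  obtain ⟨π, ⟨h1, h2, h3, h4⟩, hm⟩ := exists_minimalFor_of_wellFoundedLT
    (fun π : Matrix (Fin r) (Fin r) ℂ => π ∈ S ∧ πᴴ = π ∧ π * π = π ∧ π *ᵥ v ≠ 0)
    (fun π => LinearMap.range π.mulVecLin) ⟨1, one_mem _, by simp, by simp, by simpa using hv⟩
  have key : ∀ a ∈ S, aᴴ = a → ∃ c : ℂ, π * a * π = c • π := by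
    intro a ha hh
    have e1 : π * a * π * π = π * a * π := by rw [mul_assoc, h3]
    have e2 : π * (π * a * π) = π * a * π := by rw [← mul_assoc, ← mul_assoc, h3]
    obtain ⟨T, E, hT, hE⟩ := spec_Alg (S ⊓ Subalgebra.centralizer ℂ {π}) (b := π * a * π)
      ⟨mul_mem (mul_mem h1 ha) h1, by
        rintro _ rfl
        rw [e1, e2]⟩
      (by rw [IsHermitian, conjTranspose_mul, conjTranspose_mul, h2, hh, mul_assoc])
    obtain ⟨l, -, hl⟩ : ∃ l ∈ T, (π * E l) *ᵥ v ≠ 0 := by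
      refine exists_ne_zero_of_sum_ne_zero ?_
      rwa [← sum_mulVec, ← Finset.mul_sum, hT, mul_one]
    obtain ⟨⟨g1, g2⟩, g3, g4, g5⟩ := hE l
    have c : π * E l = E l * π := g2 π rfl
    have q : π * E l * (π * E l) = π * E l := by
      rw [mul_assoc, ← mul_assoc (E l), ← c, mul_assoc, g4, ← mul_assoc, h3]
    have le := hm (j := π * E l) ⟨mul_mem h1 g1, by rw [conjTranspose_mul, g3, h2, c], q, hl⟩ (by
      beta_reduce
      rw [mulVecLin_mul]
      exact LinearMap.range_comp_le_range _ _)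
    have e3 : π * E l * π = π := ext_iff_mulVec.2 fun x => by
      obtain ⟨y, hy⟩ := le ⟨x, rfl⟩
      simp only [mulVecLin_apply] at hy
      rw [← mulVec_mulVec, ← hy, mulVec_mulVec, q]
    have e4 : E l * π = π := by rwa [c, mul_assoc, h3] at e3
    exact ⟨l, calc π * a * π = π * a * π * E l * π := by rw [mul_assoc _ (E l), e4, e1]
      _ = l • π := by rw [g5, smul_mul_assoc, e4]⟩
  refine ⟨π, h1, h2, h3, h4, fun a ha => ?_⟩
  obtain ⟨c, hc⟩ := key (a + aᴴ) (add_mem ha (hS a ha)) (by simp [add_comm])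
  obtain ⟨d, hd⟩ := key (Complex.I • (a - aᴴ)) (S.smul_mem (sub_mem ha (hS a ha)) _) (by
    simp [← smul_neg])
  refine ⟨(c - Complex.I * d) / 2, ?_⟩
  have e : a = (1 / 2 : ℂ) • ((a + aᴴ) - Complex.I • Complex.I • (a - aᴴ)) := by
    rw [smul_smul, Complex.I_mul_I]
    module
  rw [e, Matrix.mul_smul, Matrix.smul_mul, mul_sub, sub_mul, Matrix.mul_smul, Matrix.smul_mul, hc,
    hd]
  module

theorem nrm_Alg {r : ℕ} {w : Fin r → ℂ} (hw : w ≠ 0) : ∃ c : ℂ, star (c • w) ⬝ᵥ (c • w) = 1 := by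
  open ComplexOrder in
  obtain ⟨h1, h2⟩ := Complex.pos_iff.1 (dotProduct_star_self_pos_iff.2 hw)
  refine ⟨((√(star w ⬝ᵥ w).re)⁻¹ : ℝ), ?_⟩
  have e : star w ⬝ᵥ w = ((star w ⬝ᵥ w).re : ℂ) := Complex.ext rfl (by simp [← h2])
  rw [star_smul, smul_dotProduct, dotProduct_smul, e]
  generalize (star w ⬝ᵥ w).re = N at *
  simp only [smul_eq_mul, Complex.star_def, Complex.conj_ofReal, Complex.ofReal_re]
  norm_cast
  rw [← mul_assoc, ← mul_inv, Real.mul_self_sqrt h1.le, inv_mul_cancel₀ h1.ne']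

theorem alg_stmt : AlgStmt := by
  intro r A v hv h1 ha hs hm hc
  let S : Subalgebra ℂ (Matrix (Fin r) (Fin r) ℂ) :=
    { carrier := A
      mul_mem' := fun x y => hm _ x _ y
      add_mem' := fun x y => ha _ x _ y
      algebraMap_mem' := fun c => by
        rw [Algebra.algebraMap_eq_smul_one]
        exact hs _ h1 c }
  obtain ⟨π, p1, p2, p3, p4, p5⟩ := min_Alg S hc hv
  have fx : ∀ x y, π *ᵥ x = x → star x ⬝ᵥ π *ᵥ y = star x ⬝ᵥ y := fun x y h => by
    rw [dotProduct_mulVec, ← p2, ← star_mulVec, h]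
  have ev : ∀ a ∈ A, ∃ c : ℂ, ∀ x y, π *ᵥ x = x → π *ᵥ y = y →
      star x ⬝ᵥ a *ᵥ y = c * (star x ⬝ᵥ y) := fun a h => by
    obtain ⟨c, e⟩ := p5 a h
    refine ⟨c, fun x y hx hy => ?_⟩
    rw [← fx x _ hx, ← hy, mulVec_mulVec, mulVec_mulVec, e, smul_mulVec, dotProduct_smul, hy,
      smul_eq_mul]
  obtain ⟨c, hα⟩ := nrm_Alg p4
  have a1 : π *ᵥ (c • π *ᵥ v) = c • π *ᵥ v := by rw [mulVec_smul, mulVec_mulVec, p3]
  refine ⟨c • π *ᵥ v, hα, fun h => ?_, ?_⟩
  · rw [dotProduct_smul, fx _ _ a1, h] at hα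
    simp at hα
  generalize c • π *ᵥ v = α at *
  by_cases h : π = vecMulVec α (star α)
  · exact Or.inl (h ▸ p1)
  obtain ⟨x, hx⟩ := not_forall.1 (ext_iff_mulVec.not.1 h)
  rw [vecMulVec_mulVec, op_smul_eq_smul, ← sub_eq_zero] at hx
  obtain ⟨d, hβ⟩ := nrm_Alg hx
  have b1 : π *ᵥ (d • (π *ᵥ x - (star α ⬝ᵥ x) • α)) = d • (π *ᵥ x - (star α ⬝ᵥ x) • α) := by
    rw [mulVec_smul, mulVec_sub, mulVec_mulVec, p3, mulVec_smul, a1]
  have b2 : star α ⬝ᵥ (d • (π *ᵥ x - (star α ⬝ᵥ x) • α)) = 0 := by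
    rw [dotProduct_smul, dotProduct_sub, fx _ _ a1, dotProduct_smul, hα]
    simp
  generalize d • (π *ᵥ x - (star α ⬝ᵥ x) • α) = β at *
  refine Or.inr ⟨β, π, p1, a1, fun a h => ?_⟩
  obtain ⟨e, he⟩ := ev a h
  rw [he β α b1 a1, he α α a1 a1, he β β b1 b1, star_dotProduct β α, b2, hα, hβ]
  simp

end Pool.Agent.MP_4fffd4_nt.SX

end
end

section

open Finset Filter
open scoped BigOperators ComplexConjugate Topology
noncomputable section
namespace Pool.Agent.MP_4fffd4_nt.SX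

theorem mul_fin_Compr {X : Type} [Fintype X] {r : ℕ} (e : Fin r → X → ℂ)
    (hon : ∀ i j, 𝔼 x, e i x * conj (e j x) = if i = j then 1 else 0)
    (a b : Matrix (Fin r) (Fin r) ℂ) (x y : X) :
    𝔼 z, (∑ i, ∑ j, a i j * (e i x * conj (e j z))) * (∑ i, ∑ j, b i j * (e i z * conj (e j y))) =
      ∑ i, ∑ j, (a * b) i j * (e i x * conj (e j y)) := by
  have h1 : ∀ z, (∑ i, ∑ j, a i j * (e i x * conj (e j z))) *
      (∑ i, ∑ j, b i j * (e i z * conj (e j y))) =
      ∑ i, ∑ l, ∑ j, ∑ k, (a i j * b k l * (e i x * conj (e l y))) * (e k z * conj (e j z)) := by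
    intro z
    rw [Finset.sum_mul]
    refine Finset.sum_congr rfl fun i _ => ?_
    rw [Finset.sum_comm (f := fun k l => b k l * (e k z * conj (e l y))), Finset.mul_sum]
    refine Finset.sum_congr rfl fun l _ => ?_
    rw [Finset.sum_mul_sum]
    refine Finset.sum_congr rfl fun j _ => Finset.sum_congr rfl fun k _ => ?_
    ring
  simp only [h1, Finset.expect_sum_comm, ← Finset.mul_expect, hon]
  refine Finset.sum_congr rfl fun i _ => Finset.sum_congr rfl fun l _ => ?_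
  rw [Matrix.mul_apply, Finset.sum_mul]
  refine Finset.sum_congr rfl fun j _ => ?_
  simp

theorem plp_fin_Compr {X : Type} [Fintype X] {r : ℕ} (e : Fin r → X → ℂ) (L : X → X → ℂ) (x y : X) :
    𝔼 z, (∑ i, e i x * conj (e i z)) * (𝔼 w, L z w * ∑ i, e i w * conj (e i y)) =
      ∑ i, ∑ j, (𝔼 z, 𝔼 w, conj (e i z) * L z w * e j w) * (e i x * conj (e j y)) := by
  have h1 : ∀ z, (∑ i, e i x * conj (e i z)) * (𝔼 w, L z w * ∑ i, e i w * conj (e i y)) =
      ∑ i, ∑ j, (𝔼 w, conj (e i z) * L z w * e j w) * (e i x * conj (e j y)) := by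
    intro z
    rw [Finset.sum_mul]
    refine Finset.sum_congr rfl fun i _ => ?_
    simp only [Finset.mul_sum, Finset.expect_sum_comm, Finset.mul_expect, Finset.expect_mul]
    refine Finset.sum_congr rfl fun j _ => Finset.expect_congr rfl fun w _ => ?_
    ring
  simp only [h1, Finset.expect_sum_comm, ← Finset.expect_mul]

variable {ι : Type} (u : Ultrafilter ι) (κ : Type) [Fintype κ] [DecidableEq κ] [Nonempty κ]
  (G : ι → Type) [∀ n, AddCommGroup (G n)] [∀ n, Fintype (G n)]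

theorem compr_stmt : ComprStmt u κ G := by
  intro r e he
  refine ⟨?_, fun a b ha hb => ?_, fun a c ha => ?_, fun a b ha hb => ?_, fun a ha => ?_,
    fun L hL => ?_⟩
  · refine he.clk.congr (Eventually.of_forall fun n x y => ?_)
    simp [ker, Matrix.one_apply]
  · refine (ha.add hb).congr (Eventually.of_forall fun n x y => ?_)
    simp [ker, add_mul, Finset.sum_add_distrib]
  · refine (ha.smul c).congr (Eventually.of_forall fun n x y => ?_)
    simp [ker, Finset.mul_sum, mul_assoc]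
  · refine (ha.comp hb).congr (he.on.mono fun n hn x y => ?_)
    exact mul_fin_Compr (fun i => e i n) hn a b x y
  · refine ha.adj.congr (Eventually.of_forall fun n x y => ?_)
    simp only [ker, map_sum, map_mul, Complex.conj_conj, Matrix.conjTranspose_apply]
    rw [Finset.sum_comm]
    refine Finset.sum_congr rfl fun i _ => Finset.sum_congr rfl fun j _ => ?_
    simp only [RCLike.star_def]
    ring
  · have hlim : ∀ i j, ∃ z : ℂ,
        Tendsto (fun n => 𝔼 x, 𝔼 y, conj (e i n x) * L n x y * e j n y) u (𝓝 z) := by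
      intro i j
      obtain ⟨C, hC1, hC⟩ := ((((he.bd i).comp2 fun _ x _ => x).conj.mul hL.bd).mul
        ((he.bd j).comp2 fun _ _ y => y)).pos
      refine ultra_lim u _ C (hC.mono fun n hn => ?_)
      exact norm_expect_le_of_le _ (by linarith) fun x _ =>
        norm_expect_le_of_le _ (by linarith) fun y _ => hn x y
    choose a ha using hlim
    refine ⟨Matrix.of a, ?_, ha⟩
    have hbd : ∀ i j, Bd2 (u : Filter ι) fun n (x y : G n) => e i n x * conj (e j n y) :=
      fun i j => ((he.bd i).comp2 fun _ x _ => x).mul ((he.bd j).comp2 fun _ _ y => y).conj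
    choose C hC1 hC using fun i j => (hbd i j).pos
    have hall : ∀ᶠ n in (u : Filter ι), ∀ i j, ∀ x y, ‖e i n x * conj (e j n y)‖ ≤ C i j :=
      eventually_all.2 fun i => eventually_all.2 fun j => hC i j
    have ht : Tendsto (fun n => (∑ i, ∑ j,
        ‖a i j - 𝔼 x, 𝔼 y, conj (e i n x) * L n x y * e j n y‖ * C i j) ^ 2) u (𝓝 0) := by
      have h1 : Tendsto (fun n => ∑ i, ∑ j,
          ‖a i j - 𝔼 x, 𝔼 y, conj (e i n x) * L n x y * e j n y‖ * C i j) u
          (𝓝 (∑ i, ∑ j, ‖a i j - a i j‖ * C i j)) :=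
        tendsto_finsetSum _ fun i _ => tendsto_finsetSum _ fun j _ =>
          ((tendsto_const_nhds.sub (ha i j)).norm).mul_const _
      simpa using h1.pow 2
    refine ClK.of_close ?_ fun ε hε => ⟨_, he.clk.comp (hL.comp he.clk), ?_⟩
    · exact Bd2.sum _ fun i _ => Bd2.sum _ fun j _ => (Bd2.const _).mul (hbd i j)
    · filter_upwards [hall, ht.eventually (eventually_le_nhds hε)] with n hn hn'
      refine Finset.expect_le univ_nonempty fun x _ => Finset.expect_le univ_nonempty fun y _ => ?_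
      refine le_trans (pow_le_pow_left₀ (norm_nonneg _) ?_ 2) hn'
      rw [plp_fin_Compr (fun i => e i n) (L n) x y, ker, ← Finset.sum_sub_distrib]
      refine (norm_sum_le _ _).trans (Finset.sum_le_sum fun i _ => ?_)
      rw [← Finset.sum_sub_distrib]
      refine (norm_sum_le _ _).trans (Finset.sum_le_sum fun j _ => ?_)
      rw [← sub_mul, norm_mul]
      exact mul_le_mul_of_nonneg_left (hn i j x y) (norm_nonneg _)

end Pool.Agent.MP_4fffd4_nt.SX

end
end

section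

/-!
Two functions with orthogonal kernels.
-/

open Finset Filter
open scoped BigOperators ComplexConjugate Topology

noncomputable section

namespace Pool.Agent.MP_4fffd4_nt.SX

theorem split_Two {κ : Type} [Fintype κ] [DecidableEq κ] {G : Type} [AddCommGroup G] [Fintype G]
    (v : (κ → Bool) → G → ℂ) : GI v = 𝔼 x, v (fun _ => false) x *
      𝔼 h : κ → G, ∏ ω ∈ univ.erase fun _ : κ => false, cj ω (v ω (x + dot ω h)) := by
  refine expect_congr rfl fun x _ => ?_
  rw [mul_expect]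
  refine expect_congr rfl fun h _ => ?_
  rw [← mul_prod_erase univ _ (mem_univ fun _ : κ => false), cj_false, dot_false, add_zero]

theorem sub_Two {κ : Type} [Fintype κ] [DecidableEq κ] {G : Type} [AddCommGroup G] [Fintype G]
    (v₁ v₂ v₃ : (κ → Bool) → G → ℂ) (h1 : ∀ ω, (ω ≠ fun _ => false) → v₁ ω = v₃ ω ∧ v₂ ω = v₃ ω)
    (h0 : ∀ x, v₃ (fun _ => false) x = v₁ (fun _ => false) x - v₂ (fun _ => false) x) :
    GI v₁ = GI v₃ + GI v₂ := by
  rw [split_Two v₁, split_Two v₂, split_Two v₃, ← expect_add_distrib]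
  refine expect_congr rfl fun x _ => ?_
  have e1 : ∀ h : κ → G, ∏ ω ∈ univ.erase fun _ : κ => false, cj ω (v₁ ω (x + dot ω h)) =
      ∏ ω ∈ univ.erase fun _ : κ => false, cj ω (v₃ ω (x + dot ω h)) := fun h =>
    prod_congr rfl fun ω hω => by rw [(h1 ω (mem_erase.1 hω).1).1]
  have e2 : ∀ h : κ → G, ∏ ω ∈ univ.erase fun _ : κ => false, cj ω (v₂ ω (x + dot ω h)) =
      ∏ ω ∈ univ.erase fun _ : κ => false, cj ω (v₃ ω (x + dot ω h)) := fun h =>
    prod_congr rfl fun ω hω => by rw [(h1 ω (mem_erase.1 hω).1).2]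
  simp only [e1, e2, h0]
  ring

variable {ι : Type} (l : Filter ι) (κ : Type) [Fintype κ] [DecidableEq κ] [Nonempty κ]
  (G : ι → Type) [∀ n, AddCommGroup (G n)] [∀ n, Fintype (G n)]

theorem vert_Two (hP : PairStmt l κ G) (w : (κ → Bool) → ∀ n, G n → G n → ℂ)
    (hb : ∀ ω, Bd2 l (w ω)) (h0 : Null l κ (w fun _ => false)) :
    Tendsto (fun n => 𝔼 t, GI fun ω => w ω n t) l (𝓝 0) := by
  have h1 : ClB l fun n (p : G n × (κ → G n)) (s : κ → G n) =>
      ∏ ω ∈ univ.erase fun _ : κ => false, cj ω (w ω n p.1 (∑ i, mix ω s p.2 i)) := by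
    refine ClB.prod (F := fun ω n (p : G n × (κ → G n)) (s : κ → G n) =>
      cj ω (w ω n p.1 (∑ i, mix ω s p.2 i))) _ fun ω hω => ?_
    obtain ⟨i, hi⟩ := Function.ne_iff.1 (mem_erase.1 hω).1
    refine ClB.of_indep i (((hb ω).comp _ _).cj ω) fun n p s t => ?_
    rw [mix_update (by simpa using hi)]
  have h2 : ClA l κ fun n (t : G n) x =>
      𝔼 h : κ → G n, ∏ ω ∈ univ.erase fun _ : κ => false, cj ω (w ω n t (x + dot ω h)) := by
    refine (ClB.avg h1).congr (Eventually.of_forall fun n t s => ?_)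
    simp only [sum_mix]
    exact (MP.sub_right s).expect_c fun h : κ → G n =>
      ∏ ω ∈ univ.erase fun _ : κ => false, cj ω (w ω n t (∑ i, s i + dot ω h))
  refine (hP.2.1 G _ _ (hb _) h0 h2).congr fun n => expect_congr rfl fun t _ => ?_
  rw [split_Two]

theorem two_stmt (hP : PairStmt l κ G) (hD : DualStmt l κ G) (hG : GiStmt) (hO : GiOptStmt)
    (hE : GiEqvStmt) : TwoStmt l κ G := by
  intro φ ψ bφ bψ h1 h2
  obtain ⟨i₀⟩ := ‹Nonempty κ›
  have bb : ∀ {f g : ∀ n, G n → ℂ}, Bd1 l f → Bd1 l g → Bd2 l fun n x y => f n x * conj (g n y) :=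
    fun hf hg => (hf.comp2 fun _ x _ => x).mul (hg.comp2 fun _ _ y => y).conj
  have n1 := hD.2.2 _ (bb bψ bφ) h1
  have n2 := hD.2.2 _ ((bb bφ bφ).sub (bb bψ bψ)) h2
  obtain ⟨v, hv⟩ : ∃ v : (Option κ → Bool) → ∀ n, G n → ℂ,
    v = fun ω => if ∀ i, ω (some i) = false then ψ else φ := ⟨_, rfl⟩
  have bv : ∀ ω, Bd1 l (v ω) := fun ω => by
    rw [hv]
    beta_reduce
    split_ifs
    exacts [bψ, bφ]
  have v0 : ∀ b, v (ext b fun _ => false) = ψ := fun b => by
    rw [hv]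
    exact if_pos fun _ => rfl
  have v1 : ∀ b (ω : κ → Bool), (ω ≠ fun _ => false) → v (ext b ω) = φ := fun b ω hω => by
    rw [hv]
    exact if_neg fun h => hω (funext h)
  have v2 : v ((ext false fun _ => false) ∘ Equiv.swap none (some i₀)) = ψ := by
    rw [hv]
    refine if_pos fun i => ?_
    rw [Function.comp_apply]
    cases Equiv.swap none (some i₀) (some i) <;> rfl
  have v3 : v ((ext true fun _ => false) ∘ Equiv.swap none (some i₀)) = φ := by
    rw [hv]
    refine if_neg fun h => ?_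
    have := h i₀
    rw [Function.comp_apply, Equiv.swap_apply_right] at this
    exact absurd this (by simp [ext])
  have t1 := vert_Two l κ G hP (fun ω n t x =>
      v (ext false ω ∘ Equiv.swap none (some i₀)) n x *
        conj (v (ext true ω ∘ Equiv.swap none (some i₀)) n (x + t)))
    (fun ω => ((bv _).comp2 fun _ _ x => x).mul ((bv _).comp2 fun _ t x => x + t).conj)
    (by simpa only [v2, v3] using n1)
  have bu : Bd2 l fun n (t x : G n) => φ n x * conj (φ n (x + t)) :=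
    (bφ.comp2 fun _ _ x => x).mul (bφ.comp2 fun _ t x => x + t).conj
  have t2 := vert_Two l κ G hP (fun ω => if ω = fun _ => false then
      fun n t x => φ n x * conj (φ n (x + t)) - ψ n x * conj (ψ n (x + t))
      else fun n t x => φ n x * conj (φ n (x + t)))
    (fun ω => by
      split_ifs
      · exact bu.sub ((bψ.comp2 fun _ _ x => x).mul (bψ.comp2 fun _ t x => x + t).conj)
      · exact bu)
    (by simpa only [if_pos] using n2)
  have t3 : Tendsto (fun n => 𝔼 t, UU κ fun x => φ n x * conj (φ n (x + t))) l (𝓝 0) := by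
    have := t2.add t1
    rw [add_zero] at this
    refine this.congr fun n => ?_
    rw [← hO κ (G n) fun ω => v (ω ∘ Equiv.swap none (some i₀)) n,
      ← hE _ _ (G n) (Equiv.swap none (some i₀)) fun ω => v ω n, hO, ← expect_add_distrib]
    refine expect_congr rfl fun t _ => (sub_Two _ _ _ (fun ω hω => ?_) fun x => ?_).symm
    · simp only [if_neg hω, v1 _ ω hω, and_self]
    · simp only [if_pos, v0]
  refine hP.2.2 _ (bb bφ bφ) ?_
  have := (Complex.continuous_re.tendsto 0).comp t3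
  refine this.congr fun n => ?_
  exact re_expect' _ _

end Pool.Agent.MP_4fffd4_nt.SX

end
end

section

open Finset Filter
open scoped BigOperators ComplexConjugate Topology

noncomputable section

namespace Pool.Agent.MP_4fffd4_nt.SX

section fin

variable {r : ℕ} {H : Type} [Fintype H]

lemma ex1_Rank (e : Fin r → H → ℂ) (α : Fin r → ℂ) (g : H → ℂ) :
    𝔼 x, g x * conj (∑ i, α i * e i x) = ∑ i, conj (α i) * 𝔼 x, g x * conj (e i x) := by
  simp only [map_sum, map_mul, mul_sum, mul_expect]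
  rw [expect_sum_comm]
  exact sum_congr rfl fun i _ => expect_congr rfl fun x _ => by ring

lemma ex2_Rank (e : Fin r → H → ℂ) (α β : Fin r → ℂ) (L : H → H → ℂ) :
    𝔼 x, 𝔼 y, conj (∑ i, β i * e i x) * L x y * ∑ j, α j * e j y =
      ∑ i, conj (β i) * ∑ j, (𝔼 x, 𝔼 y, conj (e i x) * L x y * e j y) * α j := by
  simp only [map_sum, map_mul, mul_sum, sum_mul, mul_expect, expect_mul, expect_sum_comm]
  rw [sum_comm]
  exact sum_congr rfl fun i _ => sum_congr rfl fun j _ => expect_congr rfl fun x _ =>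
    expect_congr rfl fun y _ => by ring

lemma ex3_Rank (e : Fin r → H → ℂ)
    (on : ∀ i j, 𝔼 x, e i x * conj (e j x) = if i = j then 1 else 0)
    (a : Matrix (Fin r) (Fin r) ℂ) (i j : Fin r) :
    𝔼 x, 𝔼 y, conj (e i x) * (∑ k, ∑ m, a k m * (e k x * conj (e m y))) * e j y = a i j := by
  have : 𝔼 x, 𝔼 y, conj (e i x) * (∑ k, ∑ m, a k m * (e k x * conj (e m y))) * e j y =
      ∑ k, ∑ m, a k m * ((𝔼 x, e k x * conj (e i x)) * 𝔼 y, e j y * conj (e m y)) := by
    simp only [mul_sum, sum_mul, expect_sum_comm, expect_mul_expect]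
    simp only [mul_expect]
    exact sum_congr rfl fun k _ => sum_congr rfl fun m _ => expect_congr rfl fun x _ =>
      expect_congr rfl fun y _ => by ring
  rw [this]
  simp [on]

lemma ex4_Rank (e : Fin r → H → ℂ)
    (on : ∀ i j, 𝔼 x, e i x * conj (e j x) = if i = j then 1 else 0) (α : Fin r → ℂ) :
    𝔼 x, (∑ i, α i * e i x) * conj (∑ i, α i * e i x) = ∑ i, conj (α i) * α i := by
  rw [ex1_Rank]
  refine sum_congr rfl fun i _ => ?_
  simp only [sum_mul, expect_sum_comm, mul_assoc, ← mul_expect, on]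
  simp

lemma ex5_Rank (φ ψ : H → ℂ) (L : H → H → ℂ) :
    𝔼 x, 𝔼 y, ψ x * conj (φ y) * L x y = conj (𝔼 x, 𝔼 y, conj (ψ x) * conj (L x y) * φ y) := by
  simp only [← expect_conj, map_mul, Complex.conj_conj]
  exact expect_congr rfl fun x _ => expect_congr rfl fun y _ => by ring

end fin

lemma uu_nonneg_Rank (hG : GvnStmt) (κ H : Type) [Fintype κ] [DecidableEq κ] [Nonempty κ]
    [AddCommGroup H] [Fintype H] (v : H → ℂ) : 0 ≤ (UU κ v).re :=
  le_trans (by positivity) (hG κ H v (fun _ => 1) 0 (fun _ x => x)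
    (Gen.mem_BB (Gen.of_indep (Classical.arbitrary κ) (fun _ => by simp) fun _ _ => rfl))
    fun _ => Function.bijective_id)

variable {ι : Type} (u : Ultrafilter ι) (κ : Type) [Fintype κ] [DecidableEq κ] [Nonempty κ]
  (G : ι → Type) [∀ n, AddCommGroup (G n)] [∀ n, Fintype (G n)]

open Matrix in
theorem rank_stmt (hA : AlgStmt) (hC : ComprStmt u κ G) (hT : TwoStmt u κ G) :
    RankStmt u κ G := by
  intro r e f δ hδ he hf hs
  obtain ⟨c1, c2, c3, c4, c5, c6⟩ := hC r e he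
  have hv : ∀ i, ∃ z : ℂ, Tendsto (fun n => 𝔼 x, f n x * conj (e i n x)) u (𝓝 z) := fun i => by
    obtain ⟨C, hC1, h⟩ := (hf.mul (he.bd i).conj).pos
    exact ultra_lim u _ C (h.mono fun n hn =>
      norm_expect_le_of_le _ (by linarith) fun x _ => hn x)
  choose v hv using hv
  have hv0 : v ≠ 0 := by
    rintro rfl
    have := ge_of_tendsto (tendsto_finsetSum univ fun i _ => (hv i).norm.pow 2) hs
    simp at this
    linarith
  obtain ⟨α, h1, h2, h3⟩ := hA r {a | ClK (u : Filter ι) κ (ker e a)} v hv0 c1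
    (fun a ha b hb => c2 a b ha hb) (fun a ha c => c3 a c ha)
    (fun a ha b hb => c4 a b ha hb) fun a ha => c5 a ha
  have hb : ∀ γ : Fin r → ℂ, Bd1 u fun n x => ∑ i, γ i * e i n x := fun γ =>
    Bd1.sum_mul univ γ fun i _ => he.bd i
  rcases h3 with h3 | ⟨β, π, hπ, h4, h5⟩
  · refine ⟨fun n x => ∑ i, α i * e i n x, ⟨hb α, he.on.mono fun n hn => ?_, ?_⟩,
      ‖star α ⬝ᵥ v‖ / 2, half_pos (norm_pos_iff.2 h2), ?_⟩
    · exact (ex4_Rank (fun i => e i n) hn α).trans h1
    · refine ClK.congr h3 (Eventually.of_forall fun n x y => ?_)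
      simp only [ker, map_sum, map_mul, sum_mul_sum, vecMulVec_apply, Pi.star_apply,
        RCLike.star_def]
      exact sum_congr rfl fun i _ => sum_congr rfl fun j _ => by ring
    · have t : Tendsto (fun n => 𝔼 x, f n x * conj (∑ i, α i * e i n x)) u (𝓝 (star α ⬝ᵥ v)) := by
        simp only [fun n => ex1_Rank (fun i => e i n) α (f n)]
        exact tendsto_finsetSum univ fun i _ => (hv i).const_mul _
      exact Tendsto.eventually_const_le (half_lt_self (norm_pos_iff.2 h2)) t.norm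
  · exfalso
    have lim : ∀ L : ∀ n, G n → G n → ℂ, ClK u κ L → ∃ a, ClK u κ (ker e a) ∧
        ∀ γ η : Fin r → ℂ, Tendsto (fun n => 𝔼 x, 𝔼 y,
          (∑ i, γ i * e i n x) * conj (∑ i, η i * e i n y) * L n x y) u
          (𝓝 (conj (star γ ⬝ᵥ a *ᵥ η))) := fun L hL => by
      obtain ⟨a, ha, ht⟩ := c6 _ hL.conj
      refine ⟨a, ha, fun γ η => ?_⟩
      simp only [fun n => ex5_Rank (fun y => ∑ i, η i * e i n y) (fun x => ∑ i, γ i * e i n x) (L n),
        fun n => ex2_Rank (fun i => e i n) η γ fun x y => conj (L n x y)]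
      refine (Complex.continuous_conj.tendsto _).comp ?_
      exact tendsto_finsetSum univ fun i _ =>
        (tendsto_finsetSum univ fun j _ => (ht i j).mul_const _).const_mul _
    have P := hT (fun n x => ∑ i, α i * e i n x) (fun n x => ∑ i, β i * e i n x) (hb α) (hb β)
      (fun L hL => by
        obtain ⟨a, ha, ht⟩ := lim L hL
        simpa only [(h5 a ha).1, map_zero] using ht β α)
      (fun L hL => by
        obtain ⟨a, ha, ht⟩ := lim L hL
        have := (ht α α).sub (ht β β)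
        rw [(h5 a ha).2, sub_self] at this
        simpa only [sub_mul, expect_sub_distrib] using this)
      _ (ClK.conj hπ)
    have Q : Tendsto (fun n => 𝔼 x, 𝔼 y, (∑ i, α i * e i n x) * conj (∑ i, α i * e i n y) *
        conj (ker e π n x y)) u (𝓝 1) := by
      refine tendsto_const_nhds.congr' (he.on.mono fun n hn => ?_)
      beta_reduce
      rw [ex5_Rank (fun y => ∑ i, α i * e i n y) (fun x => ∑ i, α i * e i n x)]
      simp only [Complex.conj_conj]
      rw [ex2_Rank (fun i => e i n) α α (ker e π n)]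
      simp only [ker, ex3_Rank (fun i => e i n) hn π]
      have : ∑ i, conj (α i) * ∑ j, π i j * α j = 1 := by
        rw [← h4] at h1
        nth_rewrite 1 [h4] at h1
        exact h1
      rw [this, map_one]
    exact zero_ne_one (tendsto_nhds_unique P Q)

theorem char_stmt (hP : PairStmt u κ G) (hD : DualStmt u κ G) (hG : GvnStmt) (hO : GiOptStmt) :
    CharStmt u κ G := by
  intro φ h
  have hk : ClA u κ fun n (t : G n) x => conj (φ n x * conj (φ n (x + t))) := ClA.conj h.clk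
  constructor
  · refine ultra_dichotomy u _ (fun n => uu_nonneg_Rank hG _ _ _) fun h0 => ?_
    have hN : Null u κ fun n (t : G n) x => φ n x * conj (φ n (x + t)) := by
      refine h0.congr fun n => ?_
      rw [UU, hO, re_expect']
      rfl
    have P := hP.2.1 G _ _ ((h.bd.comp2 fun _ _ x => x).mul (h.bd.conj.comp2 fun _ t x => x + t))
      hN hk
    have Q : Tendsto (fun n => 𝔼 t : G n, 𝔼 x, φ n x * conj (φ n (x + t)) *
        conj (φ n x * conj (φ n (x + t)))) u (𝓝 1) := by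
      refine tendsto_const_nhds.congr' ((h.nrm.and h.nrm_add).mono fun n hn => ?_)
      beta_reduce
      rw [expect_comm, ← hn.1]
      refine expect_congr rfl fun x _ => ?_
      rw [← mul_one (φ n x * conj (φ n x)), ← hn.2 x, mul_expect]
      refine expect_congr rfl fun t _ => ?_
      rw [map_mul, Complex.conj_conj, add_comm t x]
      ring
    exact zero_ne_one (tendsto_nhds_unique P Q)
  · intro f hf hf0 hcor
    by_contra h0
    obtain ⟨c, hc, hU⟩ := ultra_dichotomy u _ (fun n => uu_nonneg_Rank hG κ _ (φ n)) h0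
    have d0 := hD.1 (fun _ => Unit) (fun n _ => φ n) (Bd1.to2.1 h.bd)
    have d1 := ClA.pull hk (fun n (p : Unit × G n) => p.2) (fun _ _ => 0)
      (Eventually.of_forall fun _ => MP.snd)
    have d2 := ClA.pull d0 (fun n (p : Unit × G n) => p.1) (fun _ p => p.2)
      (Eventually.of_forall fun _ => MP.fst)
    have hn' : ∀ᶠ n in (u : Filter ι), c ≤ ‖UU κ (φ n)‖ :=
      hU.mono fun n hn => hn.trans (Complex.re_le_norm _)
    have d3 : ClA u κ fun n (_ : Unit) (_ : G n) => (UU κ (φ n))⁻¹ :=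
      ClA.param (a := fun n (_ : Unit) => (UU κ (φ n))⁻¹)
        ⟨c⁻¹, hn'.mono fun n hn _ => by rw [norm_inv]; exact inv_anti₀ hc hn⟩
    have d4 : ClA u κ fun n (_ : Unit) x => conj (φ n x) := by
      refine (d3.mul (d1.mul d2).avg).congr (hn'.mono fun n hn τ x => ?_)
      have hne : UU κ (φ n) ≠ 0 := norm_pos_iff.1 (hc.trans_le hn)
      rw [inv_mul_eq_iff_eq_mul₀ hne, ← hD.2.1 n (φ n), expect_mul,
        ← (MP.add_left x).expect_c fun y => φ n y * Dual κ (φ n) y * conj (φ n x)]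
      refine expect_congr rfl fun t _ => ?_
      rw [add_zero, map_mul, Complex.conj_conj]
      ring
    have P := hP.2.1 (fun _ => Unit) _ _ (Bd1.to2.1 hf) (nul0_iff.1 hf0) d4
    obtain ⟨δ, hδ, h1⟩ := hcor
    simp only [Fintype.expect_const] at P
    have := ge_of_tendsto P.norm h1
    rw [norm_zero] at this
    linarith

end Pool.Agent.MP_4fffd4_nt.SX

end
end

section

open Finset Filter
open scoped BigOperators ComplexConjugate Topology

noncomputable section

namespace Pool.Agent.MP_4fffd4_nt.AN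

open Pool.Agent.MP_4fffd4_nt.SX

theorem bxa_bound (hG : GcsStmt) {κ S : Type} [Fintype κ] [DecidableEq κ] [Nonempty κ] [Fintype S]
    (F B : (κ → S) → ℂ) (hB : B ∈ BB κ S) :
    ‖𝔼 s, F s * B s‖ ^ 2 ^ Fintype.card κ ≤ bxa F := by
  refine convexHull_min (t := {B : (κ → S) → ℂ |
    ‖𝔼 s, F s * B s‖ ^ 2 ^ Fintype.card κ ≤ bxa F}) ?_ ?_ hB
  · rintro _ ⟨b, hb, hb', rfl⟩
    exact hG κ S F b hb hb'
  · intro B₁ h₁ B₂ h₂ a b ha hb hab
    have e : 𝔼 s, F s * (a • B₁ + b • B₂) s =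
        a * (𝔼 s, F s * B₁ s) + b * 𝔼 s, F s * B₂ s := by
      rw [mul_expect, mul_expect, ← expect_add_distrib]
      refine expect_congr rfl fun s _ => ?_
      simp only [Pi.add_apply, Pi.smul_apply, Complex.real_smul]
      ring
    simp only [Set.mem_ofPred_eq] at h₁ h₂ ⊢
    rw [e]
    generalize 𝔼 s, F s * B₁ s = p at h₁ ⊢
    generalize 𝔼 s, F s * B₂ s = q at h₂ ⊢
    have hn : ‖a * p + b * q‖ ≤ a * ‖p‖ + b * ‖q‖ := by
      refine (norm_add_le _ _).trans (le_of_eq ?_)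
      rw [norm_mul, norm_mul, Complex.norm_of_nonneg ha, Complex.norm_of_nonneg hb]
    rcases le_total ‖p‖ ‖q‖ with hpq | hpq
    · refine le_trans (pow_le_pow_left₀ (norm_nonneg _) (hn.trans ?_) _) h₂
      calc _ ≤ a * ‖q‖ + b * ‖q‖ := by gcongr
        _ = ‖q‖ := by rw [← add_mul, hab, one_mul]
    · refine le_trans (pow_le_pow_left₀ (norm_nonneg _) (hn.trans ?_) _) h₁
      calc _ ≤ a * ‖p‖ + b * ‖p‖ := by gcongr
        _ = ‖p‖ := by rw [← add_mul, hab, one_mul]

theorem fin_BoxPair (hG : GcsStmt) {κ S X : Type} [Fintype κ] [DecidableEq κ] [Nonempty κ]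
    [Fintype S] [Fintype X] (F B B' : X → (κ → S) → ℂ) {D C δ η : ℝ}
    (hD : 0 ≤ D) (hC : 0 ≤ C) (hδ : 0 ≤ δ) (hη : 0 ≤ η) (hv : ∀ τ x, ‖F τ x‖ ≤ D)
    (hB : ∀ τ, B' τ ∈ BB κ S) (hc : 𝔼 τ, 𝔼 s, ‖B τ s - C * B' τ s‖ ^ 2 ≤ δ ^ 2)
    (hU : 𝔼 τ, bxa (F τ) ≤ η ^ 2 ^ Fintype.card κ) :
    ‖𝔼 τ, 𝔼 h : κ → S, F τ h * B τ h‖ ≤ D * δ + C * η := by
  have e : 𝔼 τ, 𝔼 h : κ → S, F τ h * B τ h =
      (𝔼 τ, 𝔼 h : κ → S, F τ h * (B τ h - C * B' τ h)) +
        C * 𝔼 τ, 𝔼 h : κ → S, F τ h * B' τ h := by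
    simp only [mul_expect, ← expect_add_distrib]
    refine expect_congr rfl fun τ _ => expect_congr rfl fun h _ => ?_
    ring
  have a1 : 𝔼 τ, 𝔼 s, ‖B τ s - C * B' τ s‖ ≤ δ := by
    refine (pow_le_pow_iff_left₀ (expect_nonneg fun _ _ => expect_nonneg fun _ _ => norm_nonneg _)
      hδ two_ne_zero).1 (le_trans ?_ hc)
    exact (sq_expect_le _ _).trans (expect_le_expect fun τ _ => sq_expect_le _ _)
  have a2 : ‖𝔼 τ, 𝔼 h : κ → S, F τ h * (B τ h - C * B' τ h)‖ ≤ D * δ := by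
    refine le_trans ?_ (mul_le_mul_of_nonneg_left a1 hD)
    simp only [mul_expect]
    refine (norm_expect_le' _ _).trans (expect_le_expect fun τ _ => ?_)
    refine (norm_expect_le' _ _).trans (expect_le_expect fun h _ => ?_)
    rw [norm_mul]
    exact mul_le_mul_of_nonneg_right (hv _ _) (norm_nonneg _)
  have a3 : ‖𝔼 τ, 𝔼 h : κ → S, F τ h * B' τ h‖ ≤ η := by
    refine (norm_expect_le' _ _).trans ?_
    refine (pow_le_pow_iff_left₀ (expect_nonneg fun _ _ => norm_nonneg _) hη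
      (pow_ne_zero (Fintype.card κ) two_ne_zero)).1 (le_trans ?_ hU)
    refine (pow_expect_Pair _ _ (fun _ => norm_nonneg _) _).trans ?_
    exact expect_le_expect fun τ _ => bxa_bound hG (F τ) (B' τ) (hB τ)
  rw [e]
  refine norm_add_le_of_le a2 ?_
  rw [norm_mul, Complex.norm_real, Real.norm_of_nonneg hC]
  exact mul_le_mul_of_nonneg_left a3 hC

theorem chr_stmt : ChrStmt := by
  intro u d q f hd hf h1
  haveI : Nonempty (Fin d) := ⟨⟨0, hd⟩⟩
  have hG : GvnStmt := gvn_stmt gcs_stmt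
  have hP := pair_stmt (u : Filter ℕ) (Fin d) (fun n => ZMod (q n + 1)) hG
  have hD := dual_stmt (u : Filter ℕ) (Fin d) fun n => ZMod (q n + 1)
  have hK : KdualStmt (u : Filter ℕ) (Fin d) fun n => ZMod (q n + 1) :=
    kdual_stmt _ (Fin d) _ giOpt_stmt
  have hS : SpecStmt u (Fin d) fun n => ZMod (q n + 1) := spec_stmt u (Fin d) _ specFin_stmt
  have hR : RankStmt u (Fin d) fun n => ZMod (q n + 1) :=
    rank_stmt u (Fin d) _ alg_stmt (compr_stmt u (Fin d) _)
      (two_stmt _ (Fin d) _ hP hD (gi_stmt hG) giOpt_stmt giEqv_stmt)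
  have hC : CharStmt u (Fin d) fun n => ZMod (q n + 1) := char_stmt u (Fin d) _ hP hD hG giOpt_stmt
  have h1' : ¬ Tendsto (fun n => (UU (Option (Fin d)) (f n)).re) u (𝓝 0) := fun h =>
    h1 (h.congr fun n => by rw [eqv_Unif giEqv_stmt (finSuccEquiv d) (f n)])
  obtain ⟨δ, hδ, h2⟩ := ultra_dichotomy u (fun n => (UU (Option (Fin d)) (f n)).re)
    (fun n => nonneg_Unif hG _ _) h1'
  obtain ⟨K, k1, k2, k3, k4, k5⟩ := hK f hf
  obtain ⟨r, e, he, h3⟩ := hS K f δ hδ k1 k2 k3 k4 hf (h2.mono fun n hn => by rw [k5]; exact hn)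
  obtain ⟨φ, hφ, hc⟩ := hR r e f (δ / 2) (by positivity) he (Bd1.of_le hf) h3
  exact ⟨φ, hφ, hc, (hC φ hφ).1⟩

variable {ι : Type} (l : Filter ι) (κ : Type) [Fintype κ] [DecidableEq κ] [Nonempty κ]
  (G : ι → Type) [∀ n, AddCommGroup (G n)] [∀ n, Fintype (G n)]

theorem boxPair_stmt (hG : GcsStmt) : BoxPairStmt l κ := by
  intro X S _ _ F K hv hB hN
  obtain ⟨D, hD, hb⟩ := hv.pos
  have hD0 : 0 < D := by linarith
  refine NormedAddGroup.tendsto_nhds_zero.2 fun ε hε => ?_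
  obtain ⟨C, hC, hc⟩ := hB.2 ((ε / (4 * D)) ^ 2) (by positivity)
  have hη : 0 < ε / (4 * (C + 1)) := by positivity
  have hU : ∀ᶠ n in l, 𝔼 τ, bxa (F n τ) ≤ (ε / (4 * (C + 1))) ^ 2 ^ Fintype.card κ :=
    hN.eventually (eventually_le_nhds (pow_pos hη _))
  filter_upwards [hb, hc, hU] with n h1 ⟨B', h2, h3⟩ h4
  refine (fin_BoxPair hG (F n) (K n) B' hD0.le hC (by positivity) hη.le h1 h2 h3 h4).trans_lt ?_
  have e1 : D * (ε / (4 * D)) = ε / 4 := by field_simp
  have e2 : (C + 1) * (ε / (4 * (C + 1))) = ε / 4 := by field_simp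
  nlinarith

end Pool.Agent.MP_4fffd4_nt.AN

end
end

section

open Finset Filter
open scoped BigOperators ComplexConjugate Topology
noncomputable section
namespace Pool.Agent.MP_4fffd4_nt.AN
open Pool.Agent.MP_4fffd4_nt.SX

section fin

variable {κ : Type} [Fintype κ] [DecidableEq κ] {G : Type} [AddCommGroup G] [Fintype G]

/-- integer vectors -/
def iv_Crit {κ : Type} {B : ℕ} (y : κ → Fin B) : κ → ℤ := fun i => ((y i : ℕ) : ℤ)

/-- the value of the form -/
def pt_Crit {κ : Type} [Fintype κ] {G : Type} [AddCommGroup G] (g : G) (c k : κ → ℤ) : G :=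
  ∑ i, (c i * k i) • g

/-- the product of two values -/
def FF_Crit {κ : Type} [Fintype κ] {G : Type} [AddCommGroup G] (φ : G → ℂ) (g : G)
    (c c' : κ → ℤ) (p : G × G) (k : κ → ℤ) : ℂ :=
  φ (p.1 + pt_Crit g c k) * conj (φ (p.2 + pt_Crit g c' k))

/-- the shifted mean -/
def be_Crit (φ : G → ℂ) (g : G) (c c' : κ → ℤ) (B : ℕ) (k : κ → ℤ) : ℂ :=
  𝔼 q : ((G × G) × (κ → Fin B)) × (κ → Fin B),
    ∏ ω, cj ω (FF_Crit φ g c c' q.1.1 (mix ω (iv_Crit q.2 + k) (iv_Crit q.1.2)))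

theorem pt_add_Crit {κ : Type} [Fintype κ] {G : Type} [AddCommGroup G] (g : G)
    (c k k' : κ → ℤ) : pt_Crit g c (k + k') = pt_Crit g c k + pt_Crit g c k' := by
  simp only [pt_Crit, Pi.add_apply, mul_add, add_smul, sum_add_distrib]

theorem iv_mix_Crit {κ : Type} {B : ℕ} (ω : κ → Bool) (y y' : κ → Fin B) :
    iv_Crit (mix ω y y') = mix ω (iv_Crit y) (iv_Crit y') := by
  funext i
  simp only [iv_Crit, mix]
  split_ifs <;> rfl

theorem swap_Crit {P Y Z : Type} [Fintype P] [Fintype Y] [Fintype Z] (f : P → Y → Z → ℂ) :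
    𝔼 t : Y × Z, 𝔼 p, f p t.1 t.2 = 𝔼 q : (P × Z) × Y, f q.1.1 q.2 q.1.2 := by
  rw [expect_prod, expect_prod (X := P × Z), expect_comm (s := (univ : Finset (P × Z)))]
  refine expect_congr rfl fun y _ => ?_
  rw [expect_prod, expect_comm]

theorem base_Crit (φ : G → ℂ) (g : G) (c c' : κ → ℤ) (B : ℕ) :
    𝔼 t : (κ → Fin B) × (κ → Fin B), DD φ g c t * conj (DD φ g c' t) =
      be_Crit φ g c c' B 0 := by
  have e : ∀ t : (κ → Fin B) × (κ → Fin B), DD φ g c t * conj (DD φ g c' t) =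
      𝔼 p : G × G, ∏ ω, cj ω (FF_Crit φ g c c' p (mix ω (iv_Crit t.1 + 0) (iv_Crit t.2))) := by
    intro t
    rw [DD, DD, ← expect_conj, expect_mul_expect, expect_prod]
    refine expect_congr rfl fun z _ => expect_congr rfl fun z' _ => ?_
    rw [map_prod, ← prod_mul_distrib]
    refine prod_congr rfl fun ω _ => ?_
    rw [← cj_conj, ← cj_mul, add_zero, ← iv_mix_Crit]
    rfl
  simp only [e]
  exact swap_Crit fun (p : G × G) (y y' : κ → Fin B) =>
    ∏ ω, cj ω (FF_Crit φ g c c' p (mix ω (iv_Crit y + 0) (iv_Crit y')))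

theorem sum_bx_Crit {B : ℕ} (h : (κ → ℤ) → ℝ) :
    ∑ y ∈ bx (fun _ : κ => (-1 : ℤ)) (fun _ => (B : ℤ) - 1), h y =
      ∑ y : κ → Fin B, h (iv_Crit y) := by
  symm
  refine sum_bij (fun y _ => iv_Crit y) (fun y _ => mem_bx.2 fun i => ?_)
    (fun y _ y' _ e => funext fun i => Fin.ext ?_) (fun y hy => ?_) fun _ _ => rfl
  · have := (y i).2
    simp only [iv_Crit]
    omega
  · have := congrFun e i
    simp only [iv_Crit] at this
    omega
  · have hy' := mem_bx.1 hy
    refine ⟨fun i => ⟨(y i).toNat, by have := hy' i; omega⟩, mem_univ _, funext fun i => ?_⟩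
    have := hy' i
    simp only [iv_Crit]
    omega

theorem shiftR_Crit (hS : ShiftStmt) {B : ℕ} (hB : 1 ≤ B) (k : κ → ℤ) (T D : ℝ)
    (hk : ∀ i, |(k i : ℝ)| ≤ T) (h : (κ → ℤ) → ℝ) (hh : ∀ y, |h y| ≤ D) :
    |𝔼 y : κ → Fin B, h (iv_Crit y + k) - 𝔼 y : κ → Fin B, h (iv_Crit y + 0)| ≤
      2 * Fintype.card κ * T / B * D := by
  have hB' : (0 : ℝ) < B := by exact_mod_cast hB
  have : Nonempty (Fin B) := ⟨⟨0, hB⟩⟩
  have h1 := hS κ (fun _ => -1) (fun _ => (B : ℤ) - 1) k B T D h hB'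
    (fun _ => by push_cast; linarith) hk hh
  have h2 := sum_bx_Crit (κ := κ) (B := B) fun _ => 1
  rw [sum_const, sum_const, nsmul_one, nsmul_one, card_univ] at h2
  rw [sum_bx_Crit (fun y => h (y + k)), sum_bx_Crit h, h2] at h1
  have hc : (0 : ℝ) < Fintype.card (κ → Fin B) := by exact_mod_cast Fintype.card_pos
  simp only [add_zero, Fintype.expect_eq_sum_div_card]
  rw [← sub_div, abs_div, abs_of_pos hc, div_le_iff₀ hc]
  exact h1

theorem shift_Crit (hS : ShiftStmt) {B : ℕ} (hB : 1 ≤ B) (k : κ → ℤ) (T D : ℝ)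
    (hk : ∀ i, |(k i : ℝ)| ≤ T) (h : (κ → ℤ) → ℂ) (hh : ∀ y, ‖h y‖ ≤ D) :
    ‖𝔼 y : κ → Fin B, h (iv_Crit y + k) - 𝔼 y : κ → Fin B, h (iv_Crit y + 0)‖ ≤
      4 * Fintype.card κ * D * (T / B) := by
  have h1 := shiftR_Crit hS hB k T D hk (fun y => (h y).re)
    fun y => (Complex.abs_re_le_norm _).trans (hh y)
  have h2 := shiftR_Crit hS hB k T D hk (fun y => (h y).im)
    fun y => (Complex.abs_im_le_norm _).trans (hh y)
  refine (Complex.norm_le_abs_re_add_abs_im _).trans ?_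
  rw [Complex.sub_re, Complex.sub_im, re_expect', re_expect', im_expect', im_expect']
  refine (add_le_add h1 h2).trans (le_of_eq ?_)
  ring

theorem norm_FF_Crit {κ : Type} [Fintype κ] {G : Type} [AddCommGroup G] {φ : G → ℂ} {C : ℝ}
    (h : ∀ x, ‖φ x‖ ≤ C) (g : G) (c c' : κ → ℤ) (p : G × G) (k : κ → ℤ) :
    ‖FF_Crit φ g c c' p k‖ ≤ C * C :=
  norm_mul_le_of_le (h _) (by rw [Complex.norm_conj]; exact h _)

theorem close_Crit (hS : ShiftStmt) {φ : G → ℂ} {C : ℝ} (h : ∀ x, ‖φ x‖ ≤ C) (g : G)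
    (c c' : κ → ℤ) {B : ℕ} (hB : 1 ≤ B) {B' : ℕ} (v : κ → Fin B') :
    ‖be_Crit φ g c c' B (iv_Crit v) - be_Crit φ g c c' B 0‖ ≤
      4 * Fintype.card κ * (C * C) ^ Fintype.card (κ → Bool) * ((B' : ℝ) / B) := by
  have hC := mul_self_nonneg C
  rw [be_Crit, be_Crit, expect_prod, expect_prod (X := (G × G) × (κ → Fin B)),
    ← expect_sub_distrib]
  refine norm_expect_le_of_le _ (by positivity) fun q _ => ?_
  refine shift_Crit hS hB (iv_Crit v) B' _ (fun i => ?_)
    (fun y => ∏ ω, cj ω (FF_Crit φ g c c' q.1 (mix ω y (iv_Crit q.2)))) fun y => ?_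
  · simp only [iv_Crit, Int.cast_natCast, Nat.abs_cast]
    exact_mod_cast (v i).2.le
  · rw [norm_prod, ← card_univ, ← prod_const]
    exact prod_le_prod (fun _ _ => norm_nonneg _) fun ω _ => by
      rw [norm_cj]
      exact norm_FF_Crit h _ _ _ _ _

theorem expect_le_Crit {X : Type} [Fintype X] {f : X → ℝ} {a : ℝ} (ha : 0 ≤ a)
    (h : ∀ x, f x ≤ a) : 𝔼 x, f x ≤ a := by
  rcases (univ : Finset X).eq_empty_or_nonempty with e | hs
  · rw [e, expect_empty]
    exact ha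
  · exact expect_le hs fun x _ => h x

end fin

variable {ι : Type} (l : Filter ι) (κ : Type) [Fintype κ] [DecidableEq κ] [Nonempty κ]
  (G : ι → Type) [∀ n, AddCommGroup (G n)] [∀ n, Fintype (G n)]

theorem prod_Crit (hP : PairLStmt l κ G) (φ : ∀ n, G n → ℂ) (g : ∀ n, G n) (B B' : ι → ℕ)
    (c c' : ι → κ → ℤ) (hφ : Chr l κ φ) (hB : ∀ᶠ n in l, 1 ≤ B n) :
    ClB l fun n (ζ : G n × G n) (v : κ → Fin (B' n)) =>
      FF_Crit (φ n) (g n) (c n) (c' n) ζ (iv_Crit v) *
        conj (be_Crit (φ n) (g n) (c n) (c' n) (B n) (iv_Crit v)) := by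
  have h1 := hP φ g B' c
    (fun n => (G n × G n) × (((G n × G n) × (κ → Fin (B n))) × (κ → Fin (B n))))
    (fun n τ => τ.1.1) (fun n τ => τ.2.1.1.1 + pt_Crit (g n) (c n) (iv_Crit τ.2.2)) hφ
    (hB.mono fun n hn => by
      have : Nonempty (Fin (B n)) := ⟨⟨0, hn⟩⟩
      exact MP.prodMap MP.fst (π' := fun q : ((G n × G n) × (κ → Fin (B n))) × (κ → Fin (B n)) =>
        q.1.1.1 + pt_Crit (g n) (c n) (iv_Crit q.2))
        (MP.of_left fun y => (MP.add_right (pt_Crit (g n) (c n) (iv_Crit y))).comp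
          (MP.fst.comp MP.fst)))
  have h2 := hP φ g B' c'
    (fun n => (G n × G n) × (((G n × G n) × (κ → Fin (B n))) × (κ → Fin (B n))))
    (fun n τ => τ.1.2) (fun n τ => τ.2.1.1.2 + pt_Crit (g n) (c' n) (iv_Crit τ.2.2)) hφ
    (hB.mono fun n hn => by
      have : Nonempty (Fin (B n)) := ⟨⟨0, hn⟩⟩
      exact MP.prodMap MP.snd (π' := fun q : ((G n × G n) × (κ → Fin (B n))) × (κ → Fin (B n)) =>
        q.1.1.2 + pt_Crit (g n) (c' n) (iv_Crit q.2))
        (MP.of_left fun y => (MP.add_right (pt_Crit (g n) (c' n) (iv_Crit y))).comp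
          (MP.snd.comp MP.fst)))
  have h3 := ClB.prod (l := l) (univ.erase fun _ : κ => false)
    (F := fun ω n
      (τ : (G n × G n) × (((G n × G n) × (κ → Fin (B n))) × (κ → Fin (B n))))
      (v : κ → Fin (B' n)) => cj ω (FF_Crit (φ n) (g n) (c n) (c' n) τ.2.1.1
        (mix ω (iv_Crit τ.2.2 + iv_Crit v) (iv_Crit τ.2.1.2)))) (by
      intro ω hω
      obtain ⟨i, hi⟩ : ∃ i, ω i = true := by
        by_contra hn
        exact (mem_erase.1 hω).1 (funext fun i => by simpa using not_exists.1 hn i)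
      refine ClB.cj ω (ClB.of_indep i ?_ fun n τ s t => ?_)
      · obtain ⟨C, hC⟩ := hφ.bd
        exact ⟨C * C, hC.mono fun n hn _ _ => norm_FF_Crit hn _ _ _ _ _⟩
      · congr 1
        funext k
        by_cases hk : k = i
        · subst hk
          simp [mix, hi]
        · simp [mix, iv_Crit, Function.update_of_ne hk])
  refine (ClB.avg ((h1.mul h2.conj).mul h3.conj)).congr (Eventually.of_forall fun n ζ v => ?_)
  rw [be_Crit, ← expect_conj, mul_expect]
  refine expect_congr rfl fun q _ => ?_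
  rw [← mul_prod_erase univ _ (mem_univ fun _ : κ => false), cj_false]
  have e : mix (fun _ : κ => false) (iv_Crit q.2 + iv_Crit v) (iv_Crit q.1.2) =
      iv_Crit q.2 + iv_Crit v := funext fun _ => by simp [mix]
  rw [e]
  have e' : ∀ (d : κ → ℤ) (z : G n), Ph (φ n) (g n) d z v =
      φ n (z + pt_Crit (g n) d (iv_Crit v)) := fun _ _ => rfl
  simp only [e', map_mul, FF_Crit, pt_add_Crit, add_assoc, Complex.conj_conj]
  ring

theorem crit_stmt (hS : ShiftStmt) (hP : PairLStmt l κ G) : CritStmt l κ G := by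
  intro φ g B B' c c' hφ hBB ⟨δ, hδ, hU⟩
  have hB : ∀ᶠ n in l, 1 ≤ B n := hU.mono fun n hn => by
    by_contra h0
    have : IsEmpty (Fin (B n)) := ⟨fun i => by have := i.2; omega⟩
    rw [univ_eq_empty, expect_empty, Complex.zero_re] at hn
    linarith
  simp only [base_Crit] at hU
  have hU' : ∀ᶠ n in l, δ ≤ ‖be_Crit (φ n) (g n) (c n) (c' n) (B n) 0‖ :=
    hU.mono fun n hn => hn.trans (Complex.re_le_norm _)
  have h1 := prod_Crit l κ G hP φ g B B' c c' hφ hB
  have h2 : ClB l fun n (_ : G n × G n) (_ : κ → Fin (B' n)) =>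
      (conj (be_Crit (φ n) (g n) (c n) (c' n) (B n) 0))⁻¹ :=
    ClB.param (a := fun n _ => (conj (be_Crit (φ n) (g n) (c n) (c' n) (B n) 0))⁻¹)
      ⟨δ⁻¹, hU'.mono fun n hn _ => by
        rw [norm_inv, Complex.norm_conj]
        exact inv_anti₀ hδ hn⟩
  obtain ⟨C, hC⟩ := hφ.bd
  have hb : Bd2 l fun n (ζ : G n × G n) (v : κ → Fin (B' n)) =>
      FF_Crit (φ n) (g n) (c n) (c' n) ζ (iv_Crit v) :=
    ⟨C * C, hC.mono fun n hn _ _ => norm_FF_Crit hn _ _ _ _ _⟩
  change ClB l fun n (ζ : G n × G n) (v : κ → Fin (B' n)) =>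
    FF_Crit (φ n) (g n) (c n) (c' n) ζ (iv_Crit v)
  refine ClB.of_close hb fun ε hε => ⟨_, h2.mul h1, ?_⟩
  have ht := ((hBB.const_mul (4 * Fintype.card κ * (C * C) ^ Fintype.card (κ → Bool))).const_mul
    (δ⁻¹ * (C * C))).pow 2
  rw [mul_zero, mul_zero, zero_pow two_ne_zero] at ht
  filter_upwards [hB, hU', hC, ht.eventually (gt_mem_nhds hε)] with n h3 h4 h5 h6
  refine expect_le_Crit hε.le fun ζ => expect_le_Crit hε.le fun v => le_trans ?_ h6.le
  refine pow_le_pow_left₀ (norm_nonneg _) ?_ 2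
  have h7 := close_Crit hS h5 (g n) (c n) (c' n) h3 v
  have h8 := norm_FF_Crit h5 (g n) (c n) (c' n) ζ (iv_Crit v)
  generalize be_Crit (φ n) (g n) (c n) (c' n) (B n) 0 = U at h4 h7 ⊢
  generalize be_Crit (φ n) (g n) (c n) (c' n) (B n) (iv_Crit v) = b at h7 ⊢
  generalize FF_Crit (φ n) (g n) (c n) (c' n) ζ (iv_Crit v) = F at h8 ⊢
  have hU0 : conj U ≠ 0 := by
    rw [map_ne_zero]
    exact norm_pos_iff.1 (hδ.trans_le h4)
  have e : F - (conj U)⁻¹ * (F * conj b) = -((conj U)⁻¹ * F * conj (b - U)) := by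
    rw [map_sub]
    field_simp
    ring
  rw [e, norm_neg]
  refine norm_mul_le_of_le (norm_mul_le_of_le ?_ h8) (by rw [Complex.norm_conj]; exact h7)
  rw [norm_inv, Complex.norm_conj]
  exact inv_anti₀ hδ h4

end Pool.Agent.MP_4fffd4_nt.AN

end
end

section

/-!
The Cauchy-Schwarz selection and the polarisation identity.
-/

open Finset Filter
open scoped BigOperators ComplexConjugate Topology

noncomputable section

namespace Pool.Agent.MP_4fffd4_nt.AN

open Pool.Agent.MP_4fffd4_nt.SX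

theorem select_CsPol (R : Finset ℕ) (g : ℕ → ℝ) (η K : ℝ) (hR : R.Nonempty) (hη : 0 < η)
    (hK : 0 < K) (hg : ∀ a, g a ≤ K) (h : η ≤ 𝔼 a ∈ R, g a) :
    η / (2 * K) * R.card ≤ (R.filter fun a => η / 2 ≤ g a).card := by
  have hc : (0 : ℝ) < R.card := by exact_mod_cast hR.card_pos
  rw [expect_eq_sum_div_card, le_div_iff₀ hc] at h
  have h1 : ∑ a ∈ R, g a ≤ ∑ a ∈ R, ((if η / 2 ≤ g a then K else 0) + η / 2) := by
    refine sum_le_sum fun a _ => ?_
    split_ifs with h2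
    · linarith [hg a]
    · linarith [not_le.1 h2]
  rw [sum_add_distrib, ← sum_filter, sum_const, sum_const, nsmul_eq_mul, nsmul_eq_mul] at h1
  rw [div_mul_eq_mul_div, div_le_iff₀ (by positivity)]
  nlinarith

theorem cs_stmt : CsStmt := by
  intro T _ R Λ D δ C hδ hC hΛ hD h
  have hR : R.Nonempty := by
    rcases R.eq_empty_or_nonempty with rfl | hR
    · simp at h; linarith
    · exact hR
  have hT : (univ : Finset T).Nonempty := by
    rcases (univ : Finset T).eq_empty_or_nonempty with h0 | h0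
    · rw [h0] at h; simp at h; linarith
    · exact h0
  set M : T → ℂ := fun t => 𝔼 a ∈ R, D a t with hM
  have e1 : 𝔼 a ∈ R, (𝔼 t, (Λ t : ℂ) * conj (D a t)).re = 𝔼 t, ((Λ t : ℂ) * conj (M t)).re := by
    rw [← Complex.re_expect, ← Complex.re_expect, expect_comm]
    congr 1
    refine expect_congr rfl fun t _ => ?_
    rw [← mul_expect, hM, expect_conj]
  have e2 : δ ≤ 𝔼 t, ‖M t‖ * 1 := by
    refine h.trans (e1.le.trans (expect_le_expect fun t _ => ?_))
    refine (Complex.re_le_norm _).trans ?_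
    rw [norm_mul, Complex.norm_conj, Complex.norm_real, Real.norm_eq_abs, mul_comm]
    exact mul_le_mul_of_nonneg_left (hΛ t) (norm_nonneg _)
  have e3 : δ ^ 2 ≤ 𝔼 t, ‖M t‖ ^ 2 := by
    have := expect_mul_sq_le_sq_mul_sq (univ : Finset T) (fun t => ‖M t‖) (fun _ => (1 : ℝ))
    rw [one_pow, expect_const hT, mul_one] at this
    exact (pow_le_pow_left₀ hδ.le e2 2).trans this
  have e4 : 𝔼 t, ‖M t‖ ^ 2 = 𝔼 b ∈ R, 𝔼 a ∈ R, (𝔼 t, D a t * conj (D b t)).re := by
    have : ∀ t, ‖M t‖ ^ 2 = (𝔼 b ∈ R, 𝔼 a ∈ R, D a t * conj (D b t)).re := by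
      intro t
      have h1 : (𝔼 b ∈ R, 𝔼 a ∈ R, D a t * conj (D b t)) = M t * conj (M t) := by
        rw [expect_comm, hM]
        simp only
        rw [← expect_conj, expect_mul_expect]
      rw [h1, Complex.mul_conj, Complex.ofReal_re, Complex.normSq_eq_norm_sq]
    simp only [this, ← Complex.re_expect]
    congr 1
    rw [expect_comm]
    refine expect_congr rfl fun b _ => ?_
    rw [expect_comm]
  rw [e4] at e3
  obtain ⟨b, -, hb⟩ := exists_le_of_le_expect hR e3
  refine ⟨b, R.filter fun a => δ ^ 2 / 2 ≤ (𝔼 t, D a t * conj (D b t)).re, filter_subset _ _,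
    select_CsPol R _ (δ ^ 2) (C ^ 2) hR (by positivity) (by positivity) (fun a => ?_) hb,
    fun a ha => (mem_filter.1 ha).2⟩
  rw [Complex.re_expect]
  refine expect_le hT fun t _ => (Complex.re_le_norm _).trans ?_
  rw [norm_mul, Complex.norm_conj, sq]
  exact mul_le_mul (hD a t) (hD b t) (norm_nonneg _) hC.le

theorem coef_CsPol {κ : Type} [Fintype κ] [DecidableEq κ] (f : κ → Option κ) :
    ∑ ω : κ → Bool, (-1 : ℤ) ^ (univ.filter fun i => ω i = false).card *
      ∏ i, (f i).elim (1 : ℤ) (fun j => if ω j then 1 else 0) =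
      if ∀ j, ∃ i, f i = some j then 1 else 0 := by
  classical
  have h1 : ∀ ω : κ → Bool, (-1 : ℤ) ^ (univ.filter fun i => ω i = false).card *
      ∏ i, (f i).elim (1 : ℤ) (fun j => if ω j then 1 else 0) =
      ∏ j, (if ω j = false then (if ∃ i, f i = some j then 0 else -1) else (1 : ℤ)) := by
    intro ω
    by_cases hc : ∃ i j, f i = some j ∧ ω j = false
    · obtain ⟨i, j, hij, hj⟩ := hc
      rw [prod_eq_zero (mem_univ i) (by simp [hij, hj]), mul_zero, eq_comm]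
      exact prod_eq_zero (mem_univ j) (by rw [if_pos hj, if_pos ⟨i, hij⟩])
    · have h2 : ∏ i, (f i).elim (1 : ℤ) (fun j => if ω j then 1 else 0) = 1 := by
        refine prod_eq_one fun i _ => ?_
        cases hf : f i with
        | none => rfl
        | some j =>
          have : ω j = true := by
            cases hj : ω j with
            | true => rfl
            | false => exact absurd ⟨i, j, hf, hj⟩ hc
          simp [this]
      rw [h2, mul_one, ← prod_const, prod_filter]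
      refine prod_congr rfl fun j _ => ?_
      by_cases hj : ω j = false
      · rw [if_pos hj, if_pos hj, if_neg]
        rintro ⟨i, hi⟩
        exact hc ⟨i, j, hi, hj⟩
      · rw [if_neg hj, if_neg hj]
  simp only [h1]
  rw [← Fintype.prod_sum (fun (j : κ) (b : Bool) =>
    if b = false then (if ∃ i, f i = some j then 0 else -1) else (1 : ℤ))]
  split_ifs with h
  · refine prod_eq_one fun j _ => ?_
    simp [h j]
  · push Not at h
    obtain ⟨j, hj⟩ := h
    refine prod_eq_zero (mem_univ j) ?_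
    simp [hj]

theorem pol_stmt : PolStmt := by
  intro κ R Γ _ _ _ _ m a w
  classical
  have h1 : ∀ ω : κ → Bool, m (fun _ => a + dot ω w) = ∑ f : κ → Option κ,
      (∏ i, (f i).elim (1 : ℤ) (fun j => if ω j then 1 else 0)) •
        m fun i => (f i).elim a w := by
    intro ω
    have h2 : a + dot ω w = ∑ o : Option κ,
        (o.elim (1 : ℤ) (fun j => if ω j then 1 else 0)) • o.elim a w := by
      rw [Fintype.sum_option, dot]
      simp
    rw [h2, m.map_sum]
    exact sum_congr rfl fun f _ => m.map_smul_univ _ _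
  simp only [h1, smul_sum, smul_smul]
  rw [sum_comm]
  simp only [← sum_smul, coef_CsPol, ite_smul, one_smul, zero_smul]
  rw [← sum_filter, eq_comm]
  refine sum_bij (fun σ _ i => some (σ i)) (fun σ _ => ?_) (fun σ _ τ _ h => ?_) (fun f hf => ?_)
    (fun σ _ => rfl)
  · exact mem_filter.2 ⟨mem_univ _, fun j => ⟨σ.symm j, by simp⟩⟩
  · exact Equiv.ext fun i => Option.some_injective _ (congrFun h i)
  · choose g hg using (mem_filter.1 hf).2
    have hi : Function.Injective g := fun j k h =>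
      Option.some_injective _ (by rw [← hg j, ← hg k, h])
    have hb : Function.Bijective g := Finite.injective_iff_bijective.1 hi
    refine ⟨(Equiv.ofBijective g hb).symm, mem_univ _, funext fun i => ?_⟩
    rw [← hg]
    congr 1
    exact (Equiv.ofBijective g hb).apply_symm_apply i

end Pool.Agent.MP_4fffd4_nt.AN

end
end

section

open Finset Filter
open scoped BigOperators ComplexConjugate Topology
noncomputable section
namespace Pool.Agent.MP_4fffd4_nt.AN
open Pool.Agent.MP_4fffd4_nt.SX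

theorem arith_Cube {ε A l D C R P E : ℝ} {k : ℕ} (hε : 0 < ε) (hA : 0 < A) (hl : 0 < l)
    (hD : 0 < D) (hC : 0 < C) (hP : 0 ≤ P) (h1 : (ε * A / l) ^ (k + 1) ≤ (D * A) ^ k * R)
    (h2 : R ^ 2 ≤ P * E) (h3 : E ≤ C * A ^ 2 / l ^ ((k + 1) * 2)) :
    ε ^ ((k + 1) * 2) / (D ^ (k * 2) * C) ≤ P := by
  have h4 := pow_le_pow_left₀ (by positivity) h1 2
  rw [mul_pow _ R] at h4
  have h5 := h4.trans (mul_le_mul_of_nonneg_left (h2.trans (mul_le_mul_of_nonneg_left h3 hP))
    (by positivity))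
  rw [div_le_iff₀ (by positivity)]
  have h6 : ((ε * A / l) ^ (k + 1)) ^ 2 =
      ε ^ ((k + 1) * 2) * (A ^ ((k + 1) * 2) / l ^ ((k + 1) * 2)) := by
    rw [← pow_mul, div_pow, mul_pow]; ring
  have h7 : ((D * A) ^ k) ^ 2 * (P * (C * A ^ 2 / l ^ ((k + 1) * 2))) =
      P * (D ^ (k * 2) * C) * (A ^ ((k + 1) * 2) / l ^ ((k + 1) * 2)) := by
    rw [← pow_mul, mul_pow]; ring
  rw [h6, h7] at h5
  exact le_of_mul_le_mul_right h5 (by positivity)

theorem cs_Cube {X Y : Type} [Fintype X] [Fintype Y] (r : X → Y → ℝ) :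
    (𝔼 x, 𝔼 y, r x y) ^ 2 ≤
      (𝔼 x, 𝔼 y, if r x y ≠ 0 then (1 : ℝ) else 0) * 𝔼 x, 𝔼 y, r x y ^ 2 := by
  have h := expect_mul_sq_le_sq_mul_sq (univ : Finset (X × Y))
    (fun p => if r p.1 p.2 ≠ 0 then (1 : ℝ) else 0) fun p => r p.1 p.2
  rw [expect_prod, expect_prod, expect_prod] at h
  have e1 : ∀ x y, (if r x y ≠ 0 then (1 : ℝ) else 0) * r x y = r x y := fun x y => by
    split_ifs with h0
    · rw [one_mul]
    · rw [zero_mul, not_not.1 h0]
  have e2 : ∀ x y, (if r x y ≠ 0 then (1 : ℝ) else 0) ^ 2 = if r x y ≠ 0 then (1 : ℝ) else 0 :=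
    fun x y => by split_ifs <;> norm_num
  simpa only [e1, e2] using h

theorem cube_stmt (hP : PetStmt) (hS : SieveWStmt) : CubeStmt := by
  classical
  intro d ε hd hε
  obtain ⟨C, A₀, hC, hS⟩ := hS d
  obtain ⟨k, hk⟩ : ∃ k, 2 ^ d = k + 1 := ⟨2 ^ d - 1, by have := Nat.one_le_two_pow (n := d); omega⟩
  refine ⟨ε ^ ((k + 1) * 2) / (((d : ℝ) + 1) ^ (k * 2) * C), max A₀ 2, by positivity,
    fun A y S hA hSh hcard => ?_⟩
  have hA2 : 2 ≤ A := le_of_max_le_right hA
  have hA0 : (0 : ℝ) < A := by exact_mod_cast (by omega : 0 < A)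
  have hl : 0 < Real.log A := Real.log_pos (by exact_mod_cast hA2)
  obtain ⟨θ, hθ⟩ : ∃ θ : ℤ → ℝ, ∀ e, θ e = if ∃ a ∈ S, (a : ℤ) = y + e then 1 else 0 :=
    ⟨_, fun _ => rfl⟩
  have h01 : ∀ e, 0 ≤ θ e ∧ θ e ≤ 1 := fun e => by rw [hθ]; split_ifs <;> norm_num
  have hne : ∀ e, θ e ≠ 0 → ∃ a ∈ S, (a : ℤ) = y + e := fun e h => by
    by_contra hc
    exact h (by rw [hθ, if_neg hc])
  have hsum : (S.card : ℝ) ≤ ∑ e ∈ Ioc (0 : ℤ) A, θ e := by
    simp only [hθ, sum_boole, Nat.cast_le]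
    refine card_le_card_of_injOn (fun a => (a : ℤ) - y) (fun a ha => ?_) fun a _ b _ h => ?_
    · obtain ⟨-, -, h1, h2⟩ := hSh a ha
      simp only [coe_filter, mem_Ioc, Set.mem_setOf_eq]
      exact ⟨⟨by omega, by omega⟩, a, ha, by ring⟩
    · simp only at h
      omega
  have h1 := hP d 0 A A 0 1 0 (fun _ => 0) θ (fun _ => 1) (fun _ _ => 1) (ε * A / Real.log A)
    hd (by omega) one_pos (by simp) (by simp) h01 (fun e he => by
      obtain ⟨a, ha, h⟩ := hne e he
      obtain ⟨-, -, h1, h2⟩ := hSh a ha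
      constructor <;> omega) (by simp) (by simp) (by positivity) (by
      have e : (Ioc (0 : ℤ) 1).Nonempty := ⟨1, by simp⟩
      simp only [prod_const_one, mul_one, expect_const e, Nat.cast_zero, mul_zero, zero_mul,
        zero_div, add_zero]
      exact (hcard.trans hsum).trans (le_abs_self _))
  have hX : ∀ e h : Fin d → ℤ, XX (fun _ => (1 : ℝ)) e 0 1 h = 1 := fun e h => by simp [XX]
  simp only [hX, abs_one, mul_one, Nat.cast_zero, mul_zero, zero_mul, zero_div, add_zero,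
    Int.cast_one, Int.cast_zero, sub_zero, div_one] at h1
  rw [hk, Nat.add_sub_cancel, show (A : ℝ) + d * A = (d + 1) * A by ring] at h1
  have h3 := hS A y θ (le_of_max_le_left hA) h01 fun e he => by
    obtain ⟨a, ha, h⟩ := hne e he
    obtain ⟨h1, h2, -, -⟩ := hSh a ha
    rw [← h]
    exact ⟨by simpa using h1, by exact_mod_cast h2⟩
  rw [pow_succ 2 d, hk] at h3
  have h4 := arith_Cube hε hA0 hl (by positivity) hC (expect_nonneg fun u _ => expect_nonneg
    fun u' _ => by split_ifs <;> norm_num) h1 (cs_Cube (rr θ A)) h3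
  haveI : Nonempty (Fin A) := ⟨⟨0, by omega⟩⟩
  obtain ⟨u, -, hu⟩ := exists_le_of_le_expect univ_nonempty h4
  rw [expect_eq_sum_div_card, sum_boole, le_div_iff₀ (by positivity), card_univ,
    Fintype.card_fun, Fintype.card_fin, Fintype.card_fin, Nat.cast_pow] at hu
  refine ⟨(univ.filter fun u' => rr θ A u u' ≠ 0).image
    fun u' j => ((u' j : ℕ) : ℤ) - ((u j : ℕ) : ℤ), fun w hw i => ?_, ?_, fun w hw => ?_⟩
  · obtain ⟨u', -, rfl⟩ := mem_image.1 hw
    have := (u' i).2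
    have := (u i).2
    beta_reduce
    rw [abs_le]
    constructor <;> omega
  · rw [card_image_of_injective]
    · exact hu
    · intro v v' h
      funext j
      have := congrFun h j
      simp only at this
      exact Fin.ext (by omega)
  · obtain ⟨u', hu', rfl⟩ := mem_image.1 hw
    obtain ⟨e, -, he⟩ := exists_ne_zero_of_sum_ne_zero (mem_filter.1 hu').2
    refine ⟨y + e + ∑ j, ((u j : ℕ) : ℤ), fun ω => ?_⟩
    obtain ⟨a, ha, h⟩ := hne _ (prod_ne_zero_iff.1 he ω (mem_univ ω))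
    refine ⟨a, ha, ?_⟩
    have h5 := sum_mix ω (fun j => ((u j : ℕ) : ℤ)) fun j => ((u' j : ℕ) : ℤ)
    have h6 : ∑ j, (((mix ω u u' j : Fin A) : ℕ) : ℤ) =
        ∑ j, mix ω (fun j => ((u j : ℕ) : ℤ)) (fun j => ((u' j : ℕ) : ℤ)) j :=
      sum_congr rfl fun j _ => by unfold mix; split_ifs <;> rfl
    rw [h, h6, h5, ← add_assoc, ← add_assoc]
    rfl

end Pool.Agent.MP_4fffd4_nt.AN

end
end

section

/-!
Local uniformity of the Liouville function: the last step.
-/

open Finset Filter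
open scoped BigOperators ComplexConjugate Topology

noncomputable section

namespace Pool.Agent.MP_4fffd4_nt.AN

open Pool.Agent.MP_4fffd4_nt.SX

section

variable {κ : Type} [Fintype κ] [DecidableEq κ]

omit [DecidableEq κ] in
theorem val_End {q B : ℕ} (z : ZMod (q + 1)) {c : κ → ℤ} (hc : ∀ i, 1 ≤ c i) (v : κ → Fin B)
    (hz : (z.val : ℤ) + (∑ i, c i) * B ≤ q) :
    ((z + ∑ i, (c i * ((v i : ℕ) : ℤ)) • (1 : ZMod (q + 1))).val : ℤ) =
      z.val + ∑ i, c i * ((v i : ℕ) : ℤ) := by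
  have h1 : 0 ≤ ∑ i, c i * ((v i : ℕ) : ℤ) :=
    sum_nonneg fun i _ => mul_nonneg (by linarith [hc i]) (Nat.cast_nonneg _)
  have h2 : ∑ i, c i * ((v i : ℕ) : ℤ) ≤ (∑ i, c i) * B := by
    rw [sum_mul]
    exact sum_le_sum fun i _ =>
      mul_le_mul_of_nonneg_left (Nat.cast_le.2 (v i).2.le) (by linarith [hc i])
  have e : z + ∑ i, (c i * ((v i : ℕ) : ℤ)) • (1 : ZMod (q + 1)) =
      (((z.val : ℤ) + ∑ i, c i * ((v i : ℕ) : ℤ) : ℤ) : ZMod (q + 1)) := by
    simp
  rw [e, ZMod.val_intCast]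
  refine Int.emod_eq_of_lt (add_nonneg (Nat.cast_nonneg _) h1) ?_
  push_cast
  linarith

theorem bxa_eq_End (x : ℕ) {q B : ℕ} (z : ZMod (q + 1)) {c : κ → ℤ} (hc : ∀ i, 1 ≤ c i)
    (hz : (z.val : ℤ) + (∑ i, c i) * B ≤ q) :
    bxa (fun v : κ → Fin B => Ph (fw x q) 1 c z v) = LB c ((x + z.val : ℕ) : ℤ) B := by
  unfold bxa LB
  rw [re_expect']
  refine expect_congr rfl fun s _ => ?_
  rw [re_expect']
  refine expect_congr rfl fun s' _ => ?_
  simp only [Ph, fw, cj_ofReal, val_End z hc _ hz]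
  rw [← Complex.ofReal_prod, Complex.ofReal_re]
  simp only [Nat.cast_add, add_assoc]

theorem bxa_le_End {S : Type} [Fintype S] {F : (κ → S) → ℂ} (h : ∀ s, ‖F s‖ ≤ 1) : bxa F ≤ 1 := by
  refine (Complex.re_le_norm _).trans (norm_expect_le_of_le _ zero_le_one fun s _ =>
    norm_expect_le_of_le _ zero_le_one fun s' _ => ?_)
  rw [norm_prod]
  exact prod_le_one (fun _ _ => norm_nonneg _) fun ω _ => (norm_cj _ _).trans_le (h _)

theorem bxa_nonneg_End (hG : GcsStmt) [Nonempty κ] {S : Type} [Fintype S] (F : (κ → S) → ℂ) :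
    0 ≤ bxa F :=
  le_trans (by positivity) (hG κ S F (fun _ _ => 1) (fun _ _ => norm_one.le) fun _ _ _ => rfl)

end

theorem count_End (q T : ℕ) (f : ZMod (q + 1) → ℝ) {ε : ℝ} (hε : 0 ≤ ε) (h1 : ∀ z, f z ≤ 1)
    (h2 : ∀ z, z.val + T ≤ q → f z ≤ ε) : 𝔼 z, f z ≤ ε + T / (q + 1) := by
  have h3 : (univ.filter fun z : ZMod (q + 1) => ¬ z.val + T ≤ q).card ≤ T := by
    refine (card_le_card_of_injOn (t := range T) (fun z => q - z.val) (fun z hz => ?_)
      fun z _ w _ h => ZMod.val_injective _ ?_).trans_eq (card_range T)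
    · have := (mem_filter.1 (mem_coe.1 hz)).2
      have := z.val_lt
      exact mem_coe.2 (mem_range.2 (show q - z.val < T by omega))
    · have := z.val_lt
      have := w.val_lt
      simp only at h
      omega
  have h4 : ∑ z, f z ≤ ∑ z : ZMod (q + 1), (ε + if ¬ z.val + T ≤ q then 1 else 0) := by
    refine sum_le_sum fun z _ => ?_
    split_ifs with h
    · linarith [h2 z h]
    · linarith [h1 z]
  rw [sum_add_distrib, sum_const, sum_boole, card_univ, ZMod.card, nsmul_eq_mul] at h4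
  have h5 : (0 : ℝ) < q + 1 := by positivity
  have h6 : ((univ.filter fun z : ZMod (q + 1) => ¬ z.val + T ≤ q).card : ℝ) ≤ T :=
    Nat.cast_le.2 h3
  rw [Fintype.expect_eq_sum_div_card, ZMod.card]
  push_cast at h4 h6 ⊢
  rw [div_le_iff₀ h5, add_mul, div_mul_cancel₀ _ h5.ne']
  linarith

theorem end_stmt (hG : GcsStmt) (hB : AllBox) : EndStmt := by
  intro l d x q B' φ c hd hc hq h1 hL hK
  have : Nonempty (Fin d) := ⟨⟨0, hd⟩⟩
  have hn : ∀ n (z : ZMod (q n + 1)) (v : Fin d → Fin (B' n)),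
      ‖Ph (fw (x n) (q n)) 1 c z v‖ ≤ 1 := fun n z v => (norm_lam _).le
  obtain ⟨C, hC⟩ : ∃ C : ℕ, (C : ℤ) = ∑ i, c i :=
    ⟨_, Int.toNat_of_nonneg (sum_nonneg fun i _ => by linarith [hc i])⟩
  have key := hB l d hd (fun n => ZMod (q n + 1)) (fun n => Fin (B' n))
    (fun n z v => Ph (fw (x n) (q n)) 1 c z v) _ (Bd2.of_le hn) hK.conj (by
      refine tendsto_order.2 ⟨fun a ha => Eventually.of_forall fun n => ha.trans_le
        (expect_nonneg fun z _ => bxa_nonneg_End hG _), fun ε hε => ?_⟩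
      have ht := hq.const_mul (C : ℝ)
      rw [mul_zero] at ht
      filter_upwards [hL (ε / 2) (half_pos hε), ht.eventually (gt_mem_nhds (half_pos hε))]
        with n g1 g2
      refine (count_End (q n) (C * B' n) _ (half_pos hε).le (fun z => bxa_le_End (hn n z))
        fun z hz => ?_).trans_lt ?_
      · rw [bxa_eq_End _ z hc (by rw [← hC]; exact_mod_cast hz)]
        exact g1 _ (Nat.le_add_right _ _) (by omega)
      · rw [Nat.cast_mul, mul_div_assoc]
        linarith)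
  refine key.congr' (h1.mono fun n g => ?_)
  have : Nonempty (Fin (B' n)) := ⟨⟨0, g⟩⟩
  show 𝔼 z, 𝔼 v, _ = _
  rw [expect_comm]
  exact (expect_congr rfl fun v _ => (MP.add_right _).expect_c
    fun z => fw (x n) (q n) z * conj (φ n z)).trans (Fintype.expect_const _)

end Pool.Agent.MP_4fffd4_nt.AN

end
end

section

open Finset Filter
open scoped BigOperators ComplexConjugate Topology

noncomputable section

namespace Pool.Agent.MP_4fffd4_nt.AN

open Pool.Agent.MP_4fffd4_nt.SX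

/-- Normalised families whose two-point products are structured. -/
structure Sy_Sym {ι : Type} (l : Filter ι) (κ : Type) [Fintype κ] [DecidableEq κ]
    (S : ι → Type) [∀ n, Fintype (S n)] where
  X : ι → Type
  ft : ∀ n, Fintype (X n)
  ne : ∀ n, Nonempty (X n)
  F : ∀ n, X n → (κ → S n) → ℂ
  nrm : ∀ᶠ n in l, ∀ v, 𝔼 τ, F n τ v * conj (F n τ v) = 1
  rf : ClB l fun n (p : X n × X n) v => F n p.1 v * conj (F n p.2 v)

section grp

variable {ι : Type} {l : Filter ι} {κ : Type} [Fintype κ] [DecidableEq κ]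
  {S : ι → Type} [∀ n, Fintype (S n)]

instance ft_Sym (a : Sy_Sym l κ S) (n : ι) : Fintype (a.X n) := a.ft n

instance ne_Sym (a : Sy_Sym l κ S) (n : ι) : Nonempty (a.X n) := a.ne n

/-- The relation on families. -/
def Rel_Sym (a b : Sy_Sym l κ S) : Prop :=
  ClB l fun n (p : a.X n × b.X n) v => a.F n p.1 v * conj (b.F n p.2 v)

theorem raw_mul_Sym {X X' Y Y' : ι → Type} [∀ n, Fintype (X n)] [∀ n, Fintype (X' n)]
    [∀ n, Fintype (Y n)] [∀ n, Fintype (Y' n)] [∀ n, Nonempty (X n)] [∀ n, Nonempty (X' n)]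
    [∀ n, Nonempty (Y n)] [∀ n, Nonempty (Y' n)]
    {F : ∀ n, X n → (κ → S n) → ℂ} {F' : ∀ n, X' n → (κ → S n) → ℂ}
    {K : ∀ n, Y n → (κ → S n) → ℂ} {K' : ∀ n, Y' n → (κ → S n) → ℂ}
    (h : ClB l fun n (p : X n × X' n) v => F n p.1 v * conj (F' n p.2 v))
    (h' : ClB l fun n (p : Y n × Y' n) v => K n p.1 v * conj (K' n p.2 v)) :
    ClB l fun n (p : (X n × Y n) × (X' n × Y' n)) v =>
      F n p.1.1 v * K n p.1.2 v * conj (F' n p.2.1 v * K' n p.2.2 v) := by
  have h1 := h.comap (fun n (p : (X n × Y n) × (X' n × Y' n)) => (p.1.1, p.2.1))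
    (Eventually.of_forall fun _ => MP.prodMap MP.fst MP.fst)
  have h2 := h'.comap (fun n (p : (X n × Y n) × (X' n × Y' n)) => (p.1.2, p.2.2))
    (Eventually.of_forall fun _ => MP.prodMap MP.snd MP.snd)
  refine (h1.mul h2).congr (Eventually.of_forall fun n p v => ?_)
  simp only [map_mul]
  ring

theorem symm_Sym {a b : Sy_Sym l κ S} (h : Rel_Sym a b) : Rel_Sym b a := by
  have h1 := (ClB.conj h).comap (fun n (p : b.X n × a.X n) => (p.2, p.1))
    (Eventually.of_forall fun _ => MP.equiv (Equiv.prodComm _ _))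
  refine h1.congr (Eventually.of_forall fun n p v => ?_)
  simp only [map_mul, Complex.conj_conj]
  ring

theorem of_map_Sym {a b : Sy_Sym l κ S} (e : ∀ n, b.X n → a.X n) (he : ∀ n, MP (e n))
    (h : ∀ n τ v, b.F n τ v = a.F n (e n τ) v) : Rel_Sym a b := by
  have h1 := a.rf.comap (fun n (p : a.X n × b.X n) => (p.1, e n p.2))
    (Eventually.of_forall fun n => MP.prodMap MP.id (he n))
  refine h1.congr (Eventually.of_forall fun n p v => ?_)
  simp only [h]

/-- The product of two families. -/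
def mul_Sym (a b : Sy_Sym l κ S) : Sy_Sym l κ S where
  X n := a.X n × b.X n
  ft _ := inferInstance
  ne _ := inferInstance
  F n p v := a.F n p.1 v * b.F n p.2 v
  nrm := (a.nrm.and b.nrm).mono fun n hn v => by
    rw [expect_prod]
    have : ∀ (x : a.X n) (y : b.X n), a.F n x v * b.F n y v * conj (a.F n x v * b.F n y v) =
        a.F n x v * conj (a.F n x v) * (b.F n y v * conj (b.F n y v)) := fun x y => by
      rw [map_mul]; ring
    simp only [this, ← mul_expect, hn.2 v, mul_one, hn.1 v]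
  rf := raw_mul_Sym a.rf b.rf

/-- The conjugate family. -/
def inv_Sym (a : Sy_Sym l κ S) : Sy_Sym l κ S where
  X := a.X
  ft := a.ft
  ne := a.ne
  F n τ v := conj (a.F n τ v)
  nrm := a.nrm.mono fun n hn v => by
    simp only [Complex.conj_conj, mul_comm (conj _)]
    exact hn v
  rf := a.rf.conj.congr (Eventually.of_forall fun n p v => by rw [map_mul])

theorem rel_mul_Sym {a a' b b' : Sy_Sym l κ S} (h : Rel_Sym a a') (h' : Rel_Sym b b') :
    Rel_Sym (mul_Sym a b) (mul_Sym a' b') := raw_mul_Sym h h'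

theorem rel_inv_Sym {a a' : Sy_Sym l κ S} (h : Rel_Sym a a') :
    Rel_Sym (inv_Sym a) (inv_Sym a') :=
  (ClB.conj h).congr (Eventually.of_forall fun n p v => by rw [map_mul]; rfl)

variable [Nonempty κ]

theorem trans_Sym {a b c : Sy_Sym l κ S} (h : Rel_Sym a b) (h' : Rel_Sym b c) : Rel_Sym a c := by
  have h1 := ClB.comap h (fun n (p : (a.X n × c.X n) × b.X n) => (p.1.1, p.2))
    (Eventually.of_forall fun _ => MP.prodMap MP.fst MP.id)
  have h2 := ClB.comap h' (fun n (p : (a.X n × c.X n) × b.X n) => (p.2, p.1.2))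
    (Eventually.of_forall fun _ =>
      (MP.equiv (Equiv.prodComm _ _)).comp (MP.prodMap MP.snd MP.id))
  refine (h1.mul h2).avg.congr (b.nrm.mono fun n hn p v => ?_)
  have : ∀ y : b.X n, a.F n p.1 v * conj (b.F n y v) * (b.F n y v * conj (c.F n p.2 v)) =
      a.F n p.1 v * conj (c.F n p.2 v) * (b.F n y v * conj (b.F n y v)) := fun y => by ring
  simp only [this, ← mul_expect, hn v, mul_one]

/-- The trivial family. -/
def one_Sym : Sy_Sym l κ S where
  X _ := Unit
  ft _ := inferInstance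
  ne _ := inferInstance
  F _ _ _ := 1
  nrm := Eventually.of_forall fun n v => by simp
  rf := ClB.const _

variable (l κ S)

/-- The equivalence relation. -/
def st_Sym : Setoid (Sy_Sym l κ S) := ⟨Rel_Sym, fun a => a.rf, symm_Sym, trans_Sym⟩

/-- The classes. -/
def Gam_Sym : Type 1 := Quotient (st_Sym l κ S)

variable {l κ S}

/-- The class of a family. -/
def mk_Sym (a : Sy_Sym l κ S) : Gam_Sym l κ S := Quotient.mk _ a

instance : Add (Gam_Sym l κ S) :=
  ⟨Quotient.map₂ mul_Sym fun _ _ h _ _ h' => rel_mul_Sym h h'⟩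

instance : Neg (Gam_Sym l κ S) := ⟨Quotient.map inv_Sym fun _ _ h => rel_inv_Sym h⟩

instance : Zero (Gam_Sym l κ S) := ⟨mk_Sym one_Sym⟩

/-- The group of classes. -/
instance grp_Sym : AddGroup (Gam_Sym l κ S) :=
  AddGroup.ofLeftAxioms
    (fun a b c => Quotient.inductionOn₃ a b c fun a b c => Quotient.sound
      (of_map_Sym (a := mul_Sym (mul_Sym a b) c) (b := mul_Sym a (mul_Sym b c))
        (fun _ => (Equiv.prodAssoc _ _ _).symm) (fun _ => MP.equiv _)
        fun _ _ _ => (mul_assoc _ _ _).symm))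
    (fun a => Quotient.inductionOn a fun a => Quotient.sound
      (symm_Sym (of_map_Sym (a := a) (b := mul_Sym one_Sym a) (fun _ => Prod.snd)
        (fun _ => MP.snd) fun _ _ _ => one_mul _)))
    fun a => Quotient.inductionOn a fun a => Quotient.sound (by
      have h1 := a.rf.conj.comap (fun n (p : (a.X n × a.X n) × Unit) => p.1)
        (Eventually.of_forall fun _ => MP.fst)
      refine h1.congr (Eventually.of_forall fun n p v => ?_)
      simp [mul_Sym, inv_Sym, one_Sym])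

instance cgrp_Sym : AddCommGroup (Gam_Sym l κ S) :=
  { grp_Sym with
    add_comm := fun a b => Quotient.inductionOn₂ a b fun a b => Quotient.sound
      (of_map_Sym (a := mul_Sym a b) (b := mul_Sym b a)
        (fun _ => Equiv.prodComm _ _) (fun _ => MP.equiv _) fun _ _ _ => mul_comm _ _) }

end grp

variable {ι : Type} (l : Filter ι) (κ : Type) [Fintype κ] [DecidableEq κ] [Nonempty κ]
  (G : ι → Type) [∀ n, AddCommGroup (G n)] [∀ n, Fintype (G n)]

/-- The family of a form. -/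
def ph_Sym (hP : PairLStmt l κ G) (φ : ∀ n, G n → ℂ) (g : ∀ n, G n) (B : ι → ℕ)
    (h : Chr l κ φ) (e : κ → ι → ℤ) : Sy_Sym l κ fun n => Fin (B n) where
  X := G
  ft _ := inferInstance
  ne _ := inferInstance
  F n z v := Ph (φ n) (g n) (fun i => e i n) z v
  nrm := h.nrm_add.mono fun _ hn _ => hn _
  rf := hP φ g B (fun n i => e i n) (fun n => G n × G n) (fun _ => Prod.fst) (fun _ => Prod.snd) h
    (Eventually.of_forall fun _ => MP.id)

theorem sym_stmt (hP : PairLStmt l κ G) (hA : AddLStmt l κ G) : SymStmt l κ G := by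
  intro φ g B h hc
  rename_i d₀ _ _ _
  have key : ∀ (e : κ → ι → ℤ) (i : κ) (a b : ι → ℤ),
      mk_Sym (ph_Sym l κ G hP φ g B h (Function.update e i (a + b))) =
        mk_Sym (ph_Sym l κ G hP φ g B h (Function.update e i a)) +
          mk_Sym (ph_Sym l κ G hP φ g B h (Function.update e i b)) := by
    intro e i a b
    have hu : ∀ (x : ι → ℤ) (n : ι), (fun k => Function.update e i x k n) =
        Function.update (fun k => e k n) i (x n) := fun x n => funext fun k => by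
      by_cases hk : k = i
      · subst hk
        simp
      · simp [Function.update_of_ne hk]
    refine Quotient.sound ((hA φ g B h hc (fun n k => e k n) i a b).congr
      (Eventually.of_forall fun n p v => ?_))
    simp only [mul_Sym, ph_Sym, hu, map_mul, Pi.add_apply, mul_assoc]
  refine ⟨Gam_Sym l κ fun n => Fin (B n), inferInstance,
    ⟨fun e => mk_Sym (ph_Sym l κ G hP φ g B h e), ?_, ?_⟩, fun e e' hr => Quotient.sound hr,
    fun e he => ?_⟩
  · intro inst e i a b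
    cases Subsingleton.elim inst d₀
    exact key e i a b
  · intro inst e i c a
    cases Subsingleton.elim inst d₀
    exact map_zsmul (AddMonoidHom.mk'
      (fun a => mk_Sym (ph_Sym l κ G hP φ g B h (Function.update e i a))) (key e i)) c a
  · have h1 : Rel_Sym (ph_Sym l κ G hP φ g B h e) one_Sym := Quotient.exact he
    have h2 := ClB.comap h1 (fun n (z : G n) => (z, ()))
      (Eventually.of_forall fun _ => MP.equiv (Equiv.prodPUnit _).symm)
    refine h2.congr (Eventually.of_forall fun n p v => ?_)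
    simp [ph_Sym, one_Sym]

end Pool.Agent.MP_4fffd4_nt.AN

end
end

section

open Finset Filter
open scoped BigOperators ComplexConjugate Topology

noncomputable section

namespace Pool.Agent.MP_4fffd4_nt.SX

theorem sdiff_Pet (a b a' b' t : ℤ) (ha : a' = a + t) (hb : b' = b + t) (g : ℤ → ℝ) (B : ℝ)
    (hg : ∀ z, |g z| ≤ B) : |∑ m ∈ Ioc a' b' \ Ioc a b, g m| ≤ |(t : ℝ)| * B := by
  have hB : 0 ≤ B := (abs_nonneg _).trans (hg 0)
  have h1 : Ioc a' b' \ Ioc a b ⊆ Ioc b b' ∪ Ioc a' a := by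
    intro m hm
    rw [Finset.mem_sdiff, Finset.mem_Ioc, Finset.mem_Ioc] at hm
    rw [Finset.mem_union, Finset.mem_Ioc, Finset.mem_Ioc]
    omega
  have h2 : ((Ioc a' b' \ Ioc a b).card : ℤ) ≤ |t| := by
    have h3 := (card_le_card h1).trans (card_union_le _ _)
    rw [Int.card_Ioc, Int.card_Ioc] at h3
    have h4 : (((Ioc a' b' \ Ioc a b).card : ℕ) : ℤ) ≤ (((b' - b).toNat + (a - a').toNat : ℕ) : ℤ) := by
      exact_mod_cast h3
    push_cast at h4
    rcases abs_cases t with h | h <;> omega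
  have h5 : ((Ioc a' b' \ Ioc a b).card : ℝ) ≤ |(t : ℝ)| := by exact_mod_cast h2
  calc |∑ m ∈ Ioc a' b' \ Ioc a b, g m| ≤ ∑ m ∈ Ioc a' b' \ Ioc a b, |g m| :=
        abs_sum_le_sum_abs _ _
    _ ≤ ∑ _m ∈ Ioc a' b' \ Ioc a b, B := sum_le_sum fun m _ => hg m
    _ = (Ioc a' b' \ Ioc a b).card * B := by rw [sum_const, nsmul_eq_mul]
    _ ≤ |(t : ℝ)| * B := mul_le_mul_of_nonneg_right h5 hB

theorem shift_Pet (a b t : ℤ) (g : ℤ → ℝ) (B : ℝ) (hg : ∀ z, |g z| ≤ B) :
    |∑ m ∈ Ioc a b, g (m + t) - ∑ m ∈ Ioc a b, g m| ≤ 2 * |(t : ℝ)| * B := by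
  have h1 : ∑ m ∈ Ioc a b, g (m + t) = ∑ m ∈ Ioc (a + t) (b + t), g m := by
    rw [← map_add_right_Ioc, sum_map]
    rfl
  rw [h1, ← sum_sdiff_sub_sum_sdiff]
  have h2 := sdiff_Pet a b (a + t) (b + t) t rfl rfl g B hg
  have h3 := sdiff_Pet (a + t) (b + t) a b (-t) (by ring) (by ring) g B hg
  rw [Int.cast_neg, abs_neg] at h3
  calc _ ≤ _ := abs_sub _ _
    _ ≤ _ := add_le_add h2 h3
    _ = _ := by ring

theorem abs_prod_Pet {α : Type} (s : Finset α) (g : α → ℝ) (h : ∀ i, |g i| ≤ 1) :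
    |∏ i ∈ s, g i| ≤ 1 := by
  rw [abs_prod]
  exact prod_le_one (fun i _ => abs_nonneg _) fun i _ => h i

theorem dot_le_Pet {s H : ℕ} (c : Fin s → ℤ) (C : ℤ) (hc : ∀ k, |c k| ≤ C) (u : Fin s → Fin H) :
    |∑ k, c k * ((u k : ℕ) : ℤ)| ≤ C * s * H := by
  calc |∑ k, c k * ((u k : ℕ) : ℤ)| ≤ ∑ k, |c k * ((u k : ℕ) : ℤ)| := abs_sum_le_sum_abs _ _
    _ ≤ ∑ _k : Fin s, C * H := by
        refine sum_le_sum fun k _ => ?_
        rw [abs_mul, Nat.abs_cast]
        exact mul_le_mul (hc k) (by exact_mod_cast (u k).2.le) (by positivity)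
          ((abs_nonneg _).trans (hc k))
    _ = C * s * H := by
        rw [sum_const, card_univ, Fintype.card_fin, nsmul_eq_mul]
        ring

theorem reindex_Pet (Q P : ℕ) (U : ℤ) (h0 : 0 ≤ U) (h1 : U ≤ P) (θ ψ : ℤ → ℝ)
    (hθ : ∀ d, θ d ≠ 0 → 0 < d ∧ d ≤ Q) :
    ∑ d ∈ Ioc (0 : ℤ) Q, θ d * ψ d = ∑ d ∈ Ioc (-(P : ℤ)) Q, θ (d + U) * ψ (d + U) := by
  have h2 : ∑ d ∈ Ioc (-(P : ℤ)) Q, θ (d + U) * ψ (d + U) =
      ∑ d ∈ Ioc (-(P : ℤ) + U) (Q + U), θ d * ψ d := by
    rw [← map_add_right_Ioc, sum_map]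
    rfl
  rw [h2]
  refine sum_subset (fun d hd => ?_) fun d _ hd => ?_
  · simp only [mem_Ioc] at hd ⊢
    omega
  · have : θ d = 0 := by
      by_contra h
      exact hd (mem_Ioc.2 (hθ d h))
    rw [this, zero_mul]

theorem gcs_Pet (hG : GcsStmt) {s H : ℕ} (hs : 1 ≤ s) (F : (Fin s → Fin H) → ℝ)
    (b : Fin s → (Fin s → Fin H) → ℝ) (hb : ∀ i u, |b i u| ≤ 1)
    (hu : ∀ i u t, b i (Function.update u i t) = b i u) :
    |𝔼 u, F u * ∏ i, b i u| ^ 2 ^ s ≤ 𝔼 u, 𝔼 u', ∏ ω : Fin s → Bool, F (mix ω u u') := by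
  have : Nonempty (Fin s) := ⟨⟨0, hs⟩⟩
  have h := hG (Fin s) (Fin H) (fun u => (F u : ℂ)) (fun i u => (b i u : ℂ))
    (fun i u => by rw [Complex.norm_real, Real.norm_eq_abs]; exact hb i u)
    (fun i u t => by rw [hu])
  simp only [cj_ofReal, Fintype.card_fin] at h
  have e1 : (𝔼 u, (F u : ℂ) * ∏ i, (b i u : ℂ)) = ((𝔼 u, F u * ∏ i, b i u : ℝ) : ℂ) := by
    rw [Complex.ofReal_expect]
    push_cast
    rfl
  rw [e1, Complex.norm_real, Real.norm_eq_abs, re_expect'] at h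
  refine h.trans (le_of_eq (expect_congr rfl fun u _ => ?_))
  rw [re_expect']
  refine expect_congr rfl fun u' _ => ?_
  rw [← Complex.ofReal_prod, Complex.ofReal_re]

theorem pet_stmt (hS : ShiftStmt) (hG : GcsStmt) : PetStmt := by
  intro s L H Q a b n₀ nn θ f g t hs hH hab hn₀ hnn hθ hθ' hf hg ht hT
  have : Nonempty (Fin H) := ⟨⟨0, hH⟩⟩
  have hM : (0 : ℝ) < (b : ℝ) - a := by
    rw [sub_pos]
    exact_mod_cast hab
  have hcI : ((Ioc a b).card : ℝ) = (b : ℝ) - a := by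
    rw [Int.card_Ioc]
    have : (((b - a).toNat : ℕ) : ℤ) = b - a := Int.toNat_of_nonneg (by omega)
    exact_mod_cast congrArg (Int.cast : ℤ → ℝ) this
  set D : Finset ℤ := Ioc (-((s * H : ℕ) : ℤ)) (Q : ℤ) with hD
  set E : ℝ := (Q : ℝ) + s * H with hE
  have hcD : (D.card : ℝ) = E := by
    rw [hD, Int.card_Ioc]
    have : (((Q : ℤ) - -((s * H : ℕ) : ℤ)).toNat : ℕ) = Q + s * H := by omega
    rw [this, hE]
    push_cast
    ring
  have hE0 : 0 ≤ E := by positivity
  set G : ℤ → ℝ := fun m =>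
    ∑ d ∈ Ioc (0 : ℤ) Q, θ d * (f (m + n₀ * d) * ∏ j, g j (m + nn j * d)) with hGdef
  have hGb : ∀ m, |G m| ≤ Q := fun m => by
    calc |G m| ≤ ∑ d ∈ Ioc (0 : ℤ) Q, |θ d * (f (m + n₀ * d) * ∏ j, g j (m + nn j * d))| :=
          abs_sum_le_sum_abs _ _
      _ ≤ ∑ _d ∈ Ioc (0 : ℤ) Q, (1 : ℝ) := by
          refine sum_le_sum fun d _ => ?_
          rw [abs_mul, abs_mul, abs_of_nonneg (hθ d).1]
          exact mul_le_one₀ (hθ d).2 (by positivity)
            (mul_le_one₀ (hf _) (abs_nonneg _) (abs_prod_Pet _ _ fun j => hg j _))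
      _ = Q := by simp
  set F : ℤ → ℤ → (Fin s → Fin H) → ℝ := fun m d u =>
    θ (d + ∑ k, ((u k : ℕ) : ℤ)) * f (m + n₀ * d + ∑ k, (n₀ - nn k) * ((u k : ℕ) : ℤ)) with hF
  set β : ℤ → ℤ → Fin s → (Fin s → Fin H) → ℝ := fun m d j u =>
    g j (m + nn j * d + ∑ k, (nn j - nn k) * ((u k : ℕ) : ℤ)) with hβ
  have hβu : ∀ m d j u r, β m d j (Function.update u j r) = β m d j u := fun m d j u r => by
    simp only [hβ]
    congr 2
    refine sum_congr rfl fun k _ => ?_
    by_cases hk : k = j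
    · subst hk
      simp
    · rw [Function.update_of_ne hk]
  have hsh : ∀ u : Fin s → Fin H, |∑ m ∈ Ioc a b, ∑ d ∈ D, F m d u * ∏ j, β m d j u -
      ∑ m ∈ Ioc a b, G m| ≤ 2 * L * s * H * Q := fun u => by
    have hU0 : (0 : ℤ) ≤ ∑ k, ((u k : ℕ) : ℤ) := sum_nonneg fun k _ => by positivity
    have hU1 : ∑ k, ((u k : ℕ) : ℤ) ≤ ((s * H : ℕ) : ℤ) := by
      have := dot_le_Pet (fun _ => 1) 1 (fun _ => by simp) u
      simp only [one_mul] at this
      push_cast
      exact (le_abs_self _).trans this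
    have hN : |((-∑ k, nn k * ((u k : ℕ) : ℤ) : ℤ) : ℝ)| ≤ L * s * H := by
      have := dot_le_Pet nn L hnn u
      rw [← abs_neg] at this
      exact_mod_cast this
    have e : ∀ m, ∑ d ∈ D, F m d u * ∏ j, β m d j u = G (m + -∑ k, nn k * ((u k : ℕ) : ℤ)) := by
      intro m
      simp only [hGdef]
      rw [reindex_Pet Q (s * H) _ hU0 hU1 θ _ hθ']
      refine sum_congr rfl fun d _ => ?_
      simp only [hF, hβ]
      rw [mul_assoc]
      congr 2
      · congr 1
        simp only [sub_mul, sum_sub_distrib, ← mul_sum]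
        ring
      · refine prod_congr rfl fun j _ => ?_
        congr 1
        simp only [sub_mul, sum_sub_distrib, ← mul_sum]
        ring
    simp only [e]
    refine (shift_Pet a b _ G Q hGb).trans ?_
    have hQ : (0 : ℝ) ≤ Q := by positivity
    nlinarith [mul_le_mul_of_nonneg_right hN hQ]
  set Φ : ℤ → ℤ → ℝ := fun m d => 𝔼 u, F m d u * ∏ j, β m d j u with hΦ
  have h1 : |∑ m ∈ Ioc a b, ∑ d ∈ D, Φ m d - ∑ m ∈ Ioc a b, G m| ≤ 2 * L * s * H * Q := by
    have e : ∑ m ∈ Ioc a b, ∑ d ∈ D, Φ m d - ∑ m ∈ Ioc a b, G m =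
        𝔼 u : Fin s → Fin H, (∑ m ∈ Ioc a b, ∑ d ∈ D, F m d u * ∏ j, β m d j u -
          ∑ m ∈ Ioc a b, G m) := by
      rw [expect_sub_distrib, Fintype.expect_const, expect_sum_comm]
      simp only [expect_sum_comm, hΦ]
    rw [e]
    refine (abs_expect_le _ _).trans ?_
    exact expect_le univ_nonempty fun u _ => hsh u
  have h2 : t * ((b : ℝ) - a) ≤ ∑ p ∈ Ioc a b ×ˢ D, |Φ p.1 p.2| := by
    rw [expect_eq_sum_div_card, hcI, abs_div, abs_of_pos hM, le_div_iff₀ hM, add_mul,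
      div_mul_cancel₀ _ hM.ne'] at hT
    have h3 : |∑ m ∈ Ioc a b, ∑ d ∈ D, Φ m d| ≤ ∑ p ∈ Ioc a b ×ˢ D, |Φ p.1 p.2| := by
      rw [← sum_product' (f := fun m d => Φ m d)]
      exact abs_sum_le_sum_abs _ _
    have h4 := abs_sub_abs_le_abs_sub (∑ m ∈ Ioc a b, G m) (∑ m ∈ Ioc a b, ∑ d ∈ D, Φ m d)
    rw [abs_sub_comm] at h4
    have hT' : t * ((b : ℝ) - a) + 2 * L * s * H * Q ≤ |∑ m ∈ Ioc a b, G m| := hT
    linarith
  obtain ⟨n, hn⟩ : ∃ n, 2 ^ s = n + 1 := ⟨2 ^ s - 1, by have := Nat.one_le_two_pow (n := s); omega⟩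
  have h5 : (t * ((b : ℝ) - a)) ^ 2 ^ s ≤
      (((b : ℝ) - a) * E) ^ n * ∑ p ∈ Ioc a b ×ˢ D, |Φ p.1 p.2| ^ 2 ^ s := by
    refine (pow_le_pow_left₀ (by positivity) h2 _).trans ?_
    rw [hn]
    refine (pow_sum_le_card_mul_sum_pow (fun p _ => abs_nonneg _) n).trans (le_of_eq ?_)
    rw [card_product, Nat.cast_mul, hcI, hcD]
  have h6 : ∀ u u' : Fin s → Fin H, ∑ p ∈ Ioc a b ×ˢ D, ∏ ω : Fin s → Bool, F p.1 p.2 (mix ω u u') ≤
      rr θ Q u u' * |XX f (fun j => n₀ - nn j) a b fun j => ((u' j : ℕ) : ℤ) - ((u j : ℕ) : ℤ)| +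
        6 * L * E ^ 2 := fun u u' => by
    rw [sum_product_right, rr, sum_mul]
    have e6 : 6 * L * E ^ 2 = ∑ _d ∈ D, 6 * L * E := by
      rw [sum_const, nsmul_eq_mul, hcD]
      ring
    rw [e6, ← sum_add_distrib]
    refine sum_le_sum fun d hd => ?_
    set w : ℤ → ℝ := fun m => ∏ ω : Fin s → Bool,
      f (m + ∑ j, if ω j then (n₀ - nn j) * (((u' j : ℕ) : ℤ) - ((u j : ℕ) : ℤ)) else 0) with hw
    set P : ℝ := ∏ ω : Fin s → Bool, θ (d + ∑ j, (((mix ω u u' j : Fin H) : ℕ) : ℤ)) with hP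
    have hP0 : 0 ≤ P := prod_nonneg fun ω _ => (hθ _).1
    have hP1 : P ≤ 1 := prod_le_one (fun ω _ => (hθ _).1) fun ω _ => (hθ _).2
    set c : ℤ := n₀ * d + ∑ k, (n₀ - nn k) * ((u k : ℕ) : ℤ) with hc
    have e : ∀ m, ∏ ω : Fin s → Bool, F m d (mix ω u u') = P * w (m + c) := fun m => by
      simp only [hF, hw, hP]
      rw [prod_mul_distrib]
      congr 1
      refine prod_congr rfl fun ω _ => ?_
      congr 1
      rw [hc, add_assoc, add_assoc, add_assoc, ← sum_add_distrib]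
      congr 2
      refine sum_congr rfl fun k _ => ?_
      unfold mix
      split_ifs <;> ring
    simp only [e]
    rw [← mul_sum]
    have h7 := shift_Pet a b c w 1 fun z => abs_prod_Pet _ _ fun ω => hf _
    have h8 : |c| ≤ 3 * L * (Q + s * H) := by
      have h9 := dot_le_Pet (fun k => n₀ - nn k) (2 * L)
        (fun k => (abs_sub _ _).trans (by linarith [hnn k])) u
      have h10 : |d| ≤ Q + s * H := by
        rw [hD, mem_Ioc] at hd
        push_cast at hd
        have : (0 : ℤ) ≤ s * H := by positivity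
        rw [abs_le]
        constructor <;> linarith [hd.1, hd.2]
      have h11 : |n₀ * d| ≤ L * (Q + s * H) := by
        rw [abs_mul]
        exact mul_le_mul hn₀ h10 (abs_nonneg _) (by positivity)
      have h12 : (0 : ℤ) ≤ L * Q := by positivity
      calc |c| ≤ _ := abs_add_le _ _
        _ ≤ _ := add_le_add h11 h9
        _ ≤ _ := by nlinarith
    have h13 : |(c : ℝ)| ≤ 3 * L * E := by
      rw [hE]
      exact_mod_cast h8
    have h14 : ∑ m ∈ Ioc a b, w (m + c) ≤ |∑ m ∈ Ioc a b, w m| + 6 * L * E := by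
      linarith [le_abs_self (∑ m ∈ Ioc a b, w m), (abs_le.1 h7).2]
    have h15 : (0 : ℝ) ≤ 6 * L * E := by positivity
    calc P * ∑ m ∈ Ioc a b, w (m + c) ≤ P * (|∑ m ∈ Ioc a b, w m| + 6 * L * E) :=
          mul_le_mul_of_nonneg_left h14 hP0
      _ ≤ P * |∑ m ∈ Ioc a b, w m| + 6 * L * E := by nlinarith
      _ = _ := rfl
  have h16 : ∑ p ∈ Ioc a b ×ˢ D, |Φ p.1 p.2| ^ 2 ^ s ≤
      (𝔼 u : Fin s → Fin H, 𝔼 u' : Fin s → Fin H, rr θ Q u u' *
        |XX f (fun j => n₀ - nn j) a b fun j => ((u' j : ℕ) : ℤ) - ((u j : ℕ) : ℤ)|) +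
        6 * L * E ^ 2 := by
    calc ∑ p ∈ Ioc a b ×ˢ D, |Φ p.1 p.2| ^ 2 ^ s ≤ ∑ p ∈ Ioc a b ×ˢ D, 𝔼 u, 𝔼 u',
          ∏ ω : Fin s → Bool, F p.1 p.2 (mix ω u u') :=
          sum_le_sum fun p _ => gcs_Pet hG hs _ _ (fun j u => hg j _) (hβu p.1 p.2)
      _ = 𝔼 u, 𝔼 u', ∑ p ∈ Ioc a b ×ˢ D, ∏ ω : Fin s → Bool, F p.1 p.2 (mix ω u u') := by
          simp only [expect_sum_comm]
      _ ≤ 𝔼 u : Fin s → Fin H, 𝔼 u' : Fin s → Fin H, (rr θ Q u u' *
          |XX f (fun j => n₀ - nn j) a b fun j => ((u' j : ℕ) : ℤ) - ((u j : ℕ) : ℤ)| +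
            6 * L * E ^ 2) :=
          expect_le_expect fun u _ => expect_le_expect fun u' _ => h6 u u'
      _ = _ := by simp only [expect_add_distrib, Fintype.expect_const]
  have hn' : 2 ^ s - 1 = n := by omega
  rw [hn', ← add_div, ← mul_div_assoc, le_div_iff₀ hM]
  have h17 := h5.trans (mul_le_mul_of_nonneg_left h16 (by positivity))
  rw [mul_pow, mul_pow, hn, pow_succ ((b : ℝ) - a)] at h17
  rw [hn]
  have h18 : 0 < ((b : ℝ) - a) ^ n := by positivity
  refine le_of_mul_le_mul_left ?_ h18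
  linarith

end Pool.Agent.MP_4fffd4_nt.SX

end
end

section

open Finset Filter
open scoped BigOperators ComplexConjugate Topology

noncomputable section

namespace Pool.Agent.MP_4fffd4_nt.SX

theorem split_Psi {x : ℝ} (hx : 0 ≤ x) :
    ∑ n ∈ (Icc 1 ⌊2 * x⌋₊).filter (fun n => n.Prime ∧ n % 1 = 0 % 1), Real.log n =
      ∑ n ∈ (Icc 1 ⌊x⌋₊).filter (fun n => n.Prime ∧ n % 1 = 0 % 1), Real.log n +
        ∑ p ∈ prs x, Real.log p := by
  have hle : ⌊x⌋₊ ≤ ⌊2 * x⌋₊ := Nat.floor_le_floor (by linarith)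
  rw [← Finset.sum_filter_add_sum_filter_not _ (fun n : ℕ => n ≤ ⌊x⌋₊)]
  congr 1
  · refine Finset.sum_congr ?_ fun _ _ => rfl
    ext n
    simp only [mem_filter, mem_Icc]
    constructor
    · rintro ⟨⟨⟨h1, _⟩, h3⟩, h4⟩
      exact ⟨⟨h1, h4⟩, h3⟩
    · rintro ⟨⟨h1, h2⟩, h3⟩
      exact ⟨⟨⟨h1, h2.trans hle⟩, h3⟩, h2⟩
  · refine Finset.sum_congr ?_ fun _ _ => rfl
    ext n
    simp only [prs, mem_filter, mem_Icc, mem_Ioc, not_le]
    constructor
    · rintro ⟨⟨⟨_, h2⟩, h3, _⟩, h4⟩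
      exact ⟨⟨h4, h2⟩, h3⟩
    · rintro ⟨⟨h1, h2⟩, h3⟩
      exact ⟨⟨⟨h3.one_le, h2⟩, h3, by omega⟩, h1⟩

theorem cheb_stmt : ChebStmt := by
  obtain ⟨x0, h0⟩ := Pool.Agent.MP_e23604_nt.P.siegel_walfisz 1 0
  unfold ChebStmt
  filter_upwards [eventually_ge_atTop x0, eventually_ge_atTop 2,
    Real.tendsto_log_atTop.eventually_ge_atTop 6] with x hx0 hx2 hl
  have hx : 0 < x := by linarith
  have a1 := h0 x hx0 1 0 le_rfl (by simp) (by simp)
  have a2 := h0 (2 * x) (by linarith) 1 0 le_rfl (by simp) (by simp)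
  rw [split_Psi hx.le] at a2
  simp only [Nat.totient_one, Nat.cast_one, div_one, pow_one] at a1 a2
  have hl2 : Real.log x ≤ Real.log (2 * x) := Real.log_le_log hx (by linarith)
  have hl3 : Real.log (2 * x) ≤ 2 * Real.log x := by
    rw [Real.log_mul (by norm_num) hx.ne']
    have := Real.log_le_log (by norm_num : (0 : ℝ) < 2) hx2
    linarith
  have b1 : x / Real.log x ≤ x / 6 := div_le_div_of_nonneg_left hx.le (by norm_num) hl
  have b2 : 2 * x / Real.log (2 * x) ≤ 2 * x / 6 :=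
    div_le_div_of_nonneg_left (by linarith) (by norm_num) (hl.trans hl2)
  have c1 := (abs_le.1 a1).2
  have c2 := (abs_le.1 a2).1
  have hs : ∑ p ∈ prs x, Real.log p ≤ (prs x).card * (2 * Real.log x) := by
    rw [← nsmul_eq_mul]
    refine Finset.sum_le_card_nsmul _ _ _ fun p hp => ?_
    obtain ⟨hp1, hp2, hp3⟩ := (mem_prs hx.le).1 hp
    exact (Real.log_le_log (hx.trans hp2) hp3).trans hl3
  rw [div_le_iff₀ (by linarith)]
  linarith

end Pool.Agent.MP_4fffd4_nt.SX

end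
end

section

open Finset Filter
open scoped BigOperators ComplexConjugate Topology
noncomputable section
namespace Pool.Agent.MP_4fffd4_nt.SX

theorem one_Shift (a b t : ℤ) : (((Ioc a b \ Ioc (a + t) (b + t)).card : ℤ) : ℝ) ≤ |(t : ℝ)| := by
  rw [← Int.cast_abs, Int.cast_le]
  rcases le_total 0 t with h | h
  · have := card_le_card (show Ioc a b \ Ioc (a + t) (b + t) ⊆ Ioc a (a + t) from fun x hx => by
      simp only [Finset.mem_sdiff, mem_Ioc] at hx ⊢
      omega)
    rw [Int.card_Ioc] at this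
    rw [abs_of_nonneg h]
    omega
  · have := card_le_card (show Ioc a b \ Ioc (a + t) (b + t) ⊆ Ioc (b + t) b from fun x hx => by
      simp only [Finset.mem_sdiff, mem_Ioc] at hx ⊢
      omega)
    rw [Int.card_Ioc] at this
    rw [abs_of_nonpos h]
    omega

theorem shift_stmt : ShiftStmt := by
  intro V _ _ a b t M T B g hM hab ht hg
  have hB : 0 ≤ B := (abs_nonneg _).trans (hg 0)
  set S' := (bx a b).map (addRightEmbedding t) with hS'
  have e1 : ∑ y ∈ bx a b, g (y + t) = ∑ y ∈ S', g y := (sum_map _ (addRightEmbedding t) g).symm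
  have e2 : (S' \ bx a b).card = (bx a b \ S').card := card_sdiff_comm (card_map _)
  have h1 : ∀ A : Finset (V → ℤ), |∑ y ∈ A, g y| ≤ A.card * B := fun A =>
    (abs_sum_le_sum_abs _ _).trans ((sum_le_card_nsmul _ _ _ fun y _ => hg y).trans_eq
      (nsmul_eq_mul _ _))
  have h2 : bx a b \ S' ⊆ univ.biUnion fun v => Fintype.piFinset (Function.update
      (fun w => Ioc (a w) (b w)) v (Ioc (a v) (b v) \ Ioc (a v + t v) (b v + t v))) := by
    intro y hy
    obtain ⟨h3, h4⟩ := Finset.mem_sdiff.1 hy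
    obtain ⟨v, hv⟩ : ∃ v, ¬(a v < (y - t) v ∧ (y - t) v ≤ b v) := not_forall.1 fun h =>
      h4 (mem_map.2 ⟨y - t, mem_bx.2 h, sub_add_cancel y t⟩)
    refine mem_biUnion.2 ⟨v, mem_univ v, Fintype.mem_piFinset.2 fun w => ?_⟩
    have h5 := mem_bx.1 h3 w
    rcases eq_or_ne w v with rfl | h
    · simp only [Function.update_self, Finset.mem_sdiff, mem_Ioc, Pi.sub_apply] at hv ⊢
      omega
    · rw [Function.update_of_ne h]
      exact mem_Ioc.2 h5
  have h3 : ((bx a b \ S').card : ℝ) ≤ Fintype.card V * (T / M * (bx a b).card) := by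
    refine (Nat.cast_le.2 ((card_le_card h2).trans card_biUnion_le)).trans ?_
    rw [Nat.cast_sum, ← nsmul_eq_mul]
    refine sum_le_card_nsmul _ _ _ fun v _ => ?_
    have h4 : M ≤ (Ioc (a v) (b v)).card := by
      refine (hab v).trans ?_
      rw [Int.card_Ioc]
      exact_mod_cast Int.self_le_toNat _
    have h5 := (one_Shift (a v) (b v) (t v)).trans (ht v)
    rw [bx, Fintype.card_piFinset, Fintype.card_piFinset,
      prod_eq_mul_prod_sdiff_singleton_of_mem (mem_univ v),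
      prod_eq_mul_prod_sdiff_singleton_of_mem (mem_univ v), Function.update_self,
      prod_congr rfl fun w hw => by
        rw [Function.update_of_ne (notMem_singleton.1 (Finset.mem_sdiff.1 hw).2)],
      Nat.cast_mul, Nat.cast_mul, ← mul_assoc]
    refine mul_le_mul_of_nonneg_right (h5.trans ?_) (Nat.cast_nonneg _)
    rw [div_mul_eq_mul_div, le_div_iff₀ hM]
    exact mul_le_mul_of_nonneg_left h4 ((abs_nonneg _).trans (ht v))
  rw [e1, ← sum_sdiff_sub_sum_sdiff]
  refine (abs_sub _ _).trans ((add_le_add (h1 _) (h1 _)).trans ?_)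
  rw [e2, ← two_mul]
  refine (mul_le_mul_of_nonneg_left (mul_le_mul_of_nonneg_right h3 hB) zero_le_two).trans_eq ?_
  ring

theorem tup_stmt : TupStmt := by
  intro P _ _ j _ hj
  have h1 : (univ.filter fun q : Fin (2 * j) → P => ∀ i, ∃ i', i' ≠ i ∧ q i' = q i) ⊆
      (powersetCard j univ).biUnion fun A => Fintype.piFinset fun _ => A := by
    intro q hq
    have h2 := mul_card_image_le_card (f := q) univ 2 fun x hx => by
      obtain ⟨i, -, rfl⟩ := mem_image.1 hx
      obtain ⟨i', h3, h4⟩ := (mem_filter.1 hq).2 i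
      exact one_lt_card.2 ⟨i', by simp [h4], i, by simp, h3⟩
    rw [card_univ, Fintype.card_fin] at h2
    obtain ⟨A, h3, h4⟩ := exists_superset_card_eq (show (univ.image q).card ≤ j by omega) hj
    exact mem_biUnion.2 ⟨A, mem_powersetCard.2 ⟨subset_univ _, h4⟩,
      Fintype.mem_piFinset.2 fun i => h3 (mem_image_of_mem q (mem_univ i))⟩
  have h2 := ((card_le_card h1).trans card_biUnion_le).trans
    (sum_le_card_nsmul _ _ (j ^ (2 * j)) fun A hA => by
      simp [Fintype.card_piFinset, (mem_powersetCard.1 hA).2])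
  rw [card_powersetCard, card_univ, smul_eq_mul] at h2
  refine (Nat.cast_le.2 h2).trans ?_
  rw [Nat.cast_mul, Nat.cast_pow, mul_pow, mul_pow, Real.exp_one_pow]
  refine (mul_le_mul_of_nonneg_right (Nat.choose_le_pow_div j _) (by positivity)).trans ?_
  refine le_trans (le_of_eq ?_) (mul_le_mul_of_nonneg_right (mul_le_mul_of_nonneg_right
    (Real.pow_div_factorial_le_exp _ (Nat.cast_nonneg j) j) (by positivity)) (by positivity))
  ring

end Pool.Agent.MP_4fffd4_nt.SX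

end
end

section

/-!
Local uniformity of the Liouville function: all steps together.
-/

open Filter

namespace Pool.Agent.MP_4fffd4_nt.AN

open Pool.Agent.MP_4fffd4_nt.SX

theorem allAff : AllAff := fun l d _ hd =>
  have : Nonempty (Fin d) := ⟨⟨0, hd⟩⟩
  aff_stmt l (Fin d) _

theorem allBox : AllBox := fun l d hd =>
  have : Nonempty (Fin d) := ⟨⟨0, hd⟩⟩
  boxPair_stmt l (Fin d) gcs_stmt

theorem allPair : AllPair := fun l d q hd =>
  have : Nonempty (Fin d) := ⟨⟨0, hd⟩⟩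
  pairL_stmt l (Fin d) _ (allAff l d q hd)

theorem allCrit : AllCrit := fun l d q hd =>
  have : Nonempty (Fin d) := ⟨⟨0, hd⟩⟩
  crit_stmt l (Fin d) _ shift_stmt (allPair l d q hd)

theorem allSym : AllSym := fun l d q hd =>
  have : Nonempty (Fin d) := ⟨⟨0, hd⟩⟩
  sym_stmt l (Fin d) _ (allPair l d q hd) (addL_stmt l (Fin d) _ (allPair l d q hd))

end Pool.Agent.MP_4fffd4_nt.AN

end

section

/-!
Exponential sums with the Liouville function.
-/

open Finset Filter
open scoped BigOperators ComplexConjugate Topology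

noncomputable section

namespace Pool.Agent.MP_4fffd4_nt.SX

end Pool.Agent.MP_4fffd4_nt.SX

end
end

section

/-!
Decoupling of words from residues.
-/

open Finset Filter
open scoped BigOperators ComplexConjugate Topology

noncomputable section

namespace Pool.Agent.MP_4fffd4_nt.SX

theorem abs_expect_le_DecB {α : Type} (s : Finset α) {f : α → ℝ} {C : ℝ} (hC : 0 ≤ C)
    (h : ∀ a ∈ s, |f a| ≤ C) : |𝔼 a ∈ s, f a| ≤ C := by
  rcases s.eq_empty_or_nonempty with rfl | hs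
  · simpa using hC
  · exact (abs_expect_le _ _).trans (expect_le hs h)

theorem pow_expect_le_DecB {α : Type} (s : Finset α) (hs : s.Nonempty) (f : α → ℝ) (j : ℕ) :
    |𝔼 a ∈ s, f a| ^ (2 * j) ≤ 𝔼 a ∈ s, f a ^ (2 * j) := by
  rcases Nat.eq_zero_or_pos j with rfl | hj
  · simp [expect_const hs]
  obtain ⟨k, hk⟩ : ∃ k, 2 * j = k + 1 := ⟨2 * j - 1, by omega⟩
  have hc : (0 : ℝ) < s.card := by exact_mod_cast hs.card_pos
  have h1 := pow_sum_div_card_le_sum_pow (s := s) (f := fun a => |f a|) (fun _ _ => abs_nonneg _) k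
  have h2 : ∀ a, |f a| ^ (k + 1) = f a ^ (2 * j) := fun a => by
    rw [← hk, pow_mul, sq_abs, ← pow_mul]
  simp only [h2] at h1
  refine (pow_le_pow_left₀ (abs_nonneg _) (abs_expect_le _ _) _).trans ?_
  rw [expect_eq_sum_div_card, expect_eq_sum_div_card, hk, div_pow, pow_succ (s.card : ℝ),
    ← div_div, ← hk]
  rw [← hk] at h1
  exact div_le_div_of_nonneg_right h1 hc.le

theorem dec_stmtB (hM : MomStmt) : DecStmt := by
  intro V _ _ S T a b M Pr Q j w Γ hM0 hab hPr hne hj hT hw hΓ hQ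
  have hn : (0 : ℝ) < Pr.card := by exact_mod_cast hne.card_pos
  have hj0 : (0 : ℝ) < j := by exact_mod_cast hj
  set Z : S → (V → ℤ) → ℝ := fun s y => 𝔼 p ∈ Pr, (Γ s p (rs p y) - 𝔼 r ∈ cell V p, Γ s p r)
    with hZ
  rcases lt_or_ge Pr.card j with h | h
  · have h1 : 1 ≤ Real.sqrt (j / Pr.card) := by
      rw [Real.one_le_sqrt, one_le_div hn]
      exact_mod_cast h.le
    refine (abs_expect_le_DecB _ (C := 2) (by norm_num) fun y _ =>
      abs_expect_le_DecB _ (by norm_num) fun p _ => ?_).trans (by linarith)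
    have := abs_expect_le_DecB (cell V p) zero_le_one fun r _ => hΓ (w y) p r
    linarith [abs_sub (Γ (w y) p (rs p y)) (𝔼 r ∈ cell V p, Γ (w y) p r), hΓ (w y) p (rs p y)]
  have hb : (bx a b).Nonempty := ⟨b, mem_bx.2 fun v => ⟨by
    have : (a v : ℝ) < b v := by linarith [hab v]
    exact_mod_cast this, le_rfl⟩⟩
  have ev : ∀ x : ℝ, 0 ≤ x ^ (2 * j) := fun x => by rw [pow_mul]; positivity
  have h1 : 𝔼 y ∈ bx a b, Z (w y) y ^ (2 * j) ≤ ∑ s ∈ T, 𝔼 y ∈ bx a b, Z s y ^ (2 * j) := by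
    rw [← expect_sum_comm]
    exact expect_le_expect fun y hy =>
      single_le_sum (f := fun s => Z s y ^ (2 * j)) (fun s _ => ev _) (hw y hy)
  have h2 : 2 * Fintype.card V * (Q : ℝ) ^ (2 * j) / M ≤ (j / Pr.card) ^ j := by
    rw [div_le_iff₀ hM0, div_pow, div_mul_eq_mul_div, le_div_iff₀ (by positivity)]
    have : (1 : ℝ) ≤ (j : ℝ) ^ j := one_le_pow₀ (by exact_mod_cast hj)
    nlinarith
  have he : (1 : ℝ) ≤ Real.exp 1 := Real.one_le_exp zero_le_one
  have h3 : ∀ s ∈ T, 𝔼 y ∈ bx a b, Z s y ^ (2 * j) ≤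
      4 ^ j * ((Real.exp 1 + 1) ^ j * (j / Pr.card) ^ j) := fun s _ => by
    refine (hM V a b M Pr Q j (Γ s) hM0 hab hPr hj h (hΓ s)).trans ?_
    refine mul_le_mul_of_nonneg_left ?_ (by positivity)
    have a1 : Real.exp 1 ^ j + 1 ≤ (Real.exp 1 + 1) ^ j := by
      simpa using pow_add_pow_le (by positivity : 0 ≤ Real.exp 1) zero_le_one (by omega : j ≠ 0)
    rw [mul_div_assoc, mul_pow]
    nlinarith [pow_pos (div_pos hj0 hn) j]
  have h4 := sum_le_card_nsmul T _ _ h3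
  rw [nsmul_eq_mul] at h4
  have h5 : (T.card : ℝ) * (4 ^ j * ((Real.exp 1 + 1) ^ j * (j / Pr.card) ^ j)) ≤
      (8 * Real.sqrt (j / Pr.card)) ^ (2 * j) := by
    rw [pow_mul, mul_pow, Real.sq_sqrt (by positivity), mul_pow]
    have a1 : Real.exp j = Real.exp 1 ^ j := by rw [← Real.exp_nat_mul, mul_one]
    have a2 : Real.exp 1 ^ j * (4 ^ j * (Real.exp 1 + 1) ^ j) ≤ ((8 : ℝ) ^ 2) ^ j := by
      rw [← mul_pow, ← mul_pow]
      refine pow_le_pow_left₀ (by positivity) ?_ _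
      nlinarith [Real.exp_one_lt_d9]
    calc _ ≤ Real.exp 1 ^ j * (4 ^ j * ((Real.exp 1 + 1) ^ j * (j / Pr.card) ^ j)) :=
          mul_le_mul_of_nonneg_right (a1 ▸ hT) (by positivity)
      _ = Real.exp 1 ^ j * (4 ^ j * (Real.exp 1 + 1) ^ j) * (j / Pr.card) ^ j := by ring
      _ ≤ _ := mul_le_mul_of_nonneg_right a2 (by positivity)
  exact le_of_pow_le_pow_left₀ (by omega : 2 * j ≠ 0) (by positivity)
    ((pow_expect_le_DecB _ hb (fun y => Z (w y) y) j).trans (h1.trans (h4.trans h5)))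

theorem bx_unit_DecB (a b : ℤ) (g : ℤ → ℝ) :
    𝔼 y ∈ bx (fun _ : Unit => a) (fun _ => b), g (y ()) = 𝔼 m ∈ Ioc a b, g m :=
  expect_nbij (fun y => y ()) (fun _ hy => mem_Ioc.2 (mem_bx.1 hy ())) (fun _ _ => rfl)
    (fun _ _ _ _ h => funext fun _ => h)
    fun m hm => ⟨fun _ => m, mem_coe.2 (mem_bx.2 fun _ => mem_Ioc.1 hm), rfl⟩

end Pool.Agent.MP_4fffd4_nt.SX

end
end

section

/-!
The Turan-Kubilius inequality and the Katai criterion for the Liouville function.
-/

open Finset Filter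
open scoped BigOperators ComplexConjugate Topology

noncomputable section

namespace Pool.Agent.MP_4fffd4_nt.SX

end Pool.Agent.MP_4fffd4_nt.SX

end
end

section

open Finset Filter
open scoped BigOperators ComplexConjugate Topology
noncomputable section
namespace Pool.Agent.MP_4fffd4_nt.SX

end Pool.Agent.MP_4fffd4_nt.SX

end
end

section

open Finset Filter
open scoped BigOperators ComplexConjugate Topology

noncomputable section

namespace Pool.Agent.MP_4fffd4_nt.SX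

section aux

variable {V W : Type} [Fintype V] [DecidableEq V] [Fintype W]

/-- Reading a sign from a word. -/
def cl_LiftCore (R : ℕ) (s : Fin (2 * R + 1) → ℤ) (z : ℤ) : ℝ :=
  if h : z.toNat < 2 * R + 1 then (if s ⟨z.toNat, h⟩ = 1 then 1 else -1) else 1

theorem abs_cl_LiftCore (R : ℕ) (s : Fin (2 * R + 1) → ℤ) (z : ℤ) : |cl_LiftCore R s z| = 1 := by
  unfold cl_LiftCore
  split_ifs <;> simp

theorem cl_word_LiftCore (R : ℕ) (x z : ℤ) (hz : |z| ≤ R) :
    cl_LiftCore R (fun i => lamZ (x - R + ((i : ℕ) : ℤ))) (R + z) = lam (x + z) := by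
  have h1 := abs_le.1 hz
  have h : ((R : ℤ) + z).toNat < 2 * R + 1 := by omega
  have e : x - R + ((((R : ℤ) + z).toNat : ℕ) : ℤ) = x + z := by omega
  unfold cl_LiftCore
  rw [dif_pos h]
  simp only [e]
  rcases lamZ_eq (x + z) with h | h <;> simp [lam, h]

theorem mem_scale_LiftCore {α β : V → ℝ} {K : ℝ} {p : ℕ} (hp : 0 < p) (z : V → ℤ) :
    z ∈ bx (fun v => ⌊α v * (K / p)⌋) (fun v => ⌊β v * (K / p)⌋) ↔
      (fun v => (p : ℤ) * z v) ∈ bx (fun v => ⌊α v * K⌋) (fun v => ⌊β v * K⌋) := by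
  have hp' : (0 : ℝ) < p := by exact_mod_cast hp
  rw [mem_bx, mem_bx]
  refine forall_congr' fun v => ?_
  simp only [Int.floor_lt, Int.le_floor, ← mul_div_assoc, div_lt_iff₀ hp', le_div_iff₀ hp']
  push_cast
  rw [mul_comm (z v : ℝ)]

theorem card_bx_LiftCore {α β : V → ℝ} {K : ℝ} (hK : 1 ≤ K) (h : ∀ v, 1 ≤ β v - α v) :
    ((bx (fun v => ⌊α v * K⌋) (fun v => ⌊β v * K⌋)).card : ℝ) ≤
      2 ^ Fintype.card V * ∏ v, (β v - α v) * K := by
  rw [bx, Fintype.card_piFinset, ← card_univ, ← prod_const, ← prod_mul_distrib]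
  push_cast
  refine prod_le_prod (fun _ _ => by positivity) fun v _ => ?_
  have h1 := Int.floor_le (β v * K)
  have h2 := Int.lt_floor_add_one (α v * K)
  have h3 : 1 ≤ (β v - α v) * K := one_le_mul_of_one_le_of_one_le (h v) hK
  rw [Int.card_Ioc]
  rcases le_total (⌊β v * K⌋ - ⌊α v * K⌋) 0 with h4 | h4
  · rw [Int.toNat_of_nonpos h4]
    simp only [Nat.cast_zero]
    linarith
  · have : (((⌊β v * K⌋ - ⌊α v * K⌋).toNat : ℕ) : ℝ) = ((⌊β v * K⌋ - ⌊α v * K⌋ : ℤ) : ℝ) := by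
      exact_mod_cast congrArg (fun z : ℤ => (z : ℝ)) (Int.toNat_of_nonneg h4)
    rw [this]
    push_cast
    nlinarith

end aux

end Pool.Agent.MP_4fffd4_nt.SX

end
end

section

open Finset Filter
open scoped BigOperators ComplexConjugate Topology

noncomputable section

namespace Pool.Agent.MP_4fffd4_nt.SX

end Pool.Agent.MP_4fffd4_nt.SX

end
end

section

/-!
Powers of a character of higher order, and dilates.
-/

open Finset Filter
open scoped BigOperators ComplexConjugate Topology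

noncomputable section

namespace Pool.Agent.MP_4fffd4_nt.SX

variable {ι : Type} (l : Filter ι) (κ : Type) [Fintype κ] [DecidableEq κ] [Nonempty κ]
  (G : ι → Type) [∀ n, AddCommGroup (G n)] [∀ n, Fintype (G n)]

end Pool.Agent.MP_4fffd4_nt.SX

end
end

section

/-!
Closure properties of the classes attached to the powers of a character.
-/

open Finset Filter
open scoped BigOperators ComplexConjugate Topology

noncomputable section

namespace Pool.Agent.MP_4fffd4_nt.SX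

variable {ι : Type} (l : Filter ι) (κ : Type) [Fintype κ] [DecidableEq κ] [Nonempty κ]
  (G : ι → Type) [∀ n, AddCommGroup (G n)] [∀ n, Fintype (G n)]

end Pool.Agent.MP_4fffd4_nt.SX

end
end

section

open Finset Filter
open scoped BigOperators ComplexConjugate Topology

noncomputable section

namespace Pool.Agent.MP_4fffd4_nt.SX

section four

variable {q : ℕ} [NeZero q]

end four

end Pool.Agent.MP_4fffd4_nt.SX

end
end

section

/-!
All steps together.
-/

namespace Pool.Agent.MP_4fffd4_nt.SX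

theorem gvn_all : GvnStmt := gvn_stmt gcs_stmt

theorem dec_all : DecStmt := dec_stmtB (mom_stmt shift_stmt tup_stmt)

end Pool.Agent.MP_4fffd4_nt.SX

end

section

open Finset Filter
open scoped BigOperators ComplexConjugate Topology

noncomputable section

namespace Pool.Agent.MP_4fffd4_nt.AN

open Pool.Agent.MP_4fffd4_nt.SX

theorem abs_gq_MDec {s : ℕ} (e : Fin s → ℤ) (y : Bool → ℤ) (h : Fin s → ℤ) : |gq e y h| ≤ 1 := by
  simp [gq, abs_prod, abs_lam]

theorem off_MDec {s L Q R p : ℕ} {e u : Fin s → ℤ} (he : ∀ i, |e i| ≤ L) (hu : ∀ i, |u i| ≤ Q)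
    (hp : p ≤ Q) (hR : (1 + s * L) * Q ≤ R) {r : Bool → ℤ} (hr : r ∈ cell Bool p) (b : Bool)
    (ω : Fin s → Bool) : |r b + ∑ i, if ω i then e i * u i else 0| ≤ R := by
  have h1 := mem_cell.1 hr b
  have h2 : |∑ i, if ω i then e i * u i else 0| ≤ ∑ _i : Fin s, (L : ℤ) * Q :=
    (abs_sum_le_sum_abs _ _).trans (sum_le_sum fun i _ => by
      split_ifs
      · rw [abs_mul]
        exact mul_le_mul (he i) (hu i) (abs_nonneg _) (by positivity)
      · rw [abs_zero]
        positivity)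
  have h3 : |r b| ≤ Q := by rw [abs_le]; constructor <;> omega
  have h4 : (((1 + s * L) * Q : ℕ) : ℤ) ≤ R := by exact_mod_cast hR
  rw [sum_const, card_univ, Fintype.card_fin, nsmul_eq_mul] at h2
  push_cast at h4
  linarith [abs_add_le (r b) (∑ i, if ω i then e i * u i else 0)]

theorem shift_MDec (hS : ShiftStmt) (a b : Bool → ℤ) {M : ℝ} {p Q : ℕ} (g : (Bool → ℤ) → ℝ)
    (hM : 0 < M) (hab : ∀ v, M ≤ (b v : ℝ) - a v) (hp : 0 < p) (hQ : p ≤ Q) (hg : ∀ y, |g y| ≤ 1) :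
    |𝔼 y ∈ bx a b, 𝔼 r ∈ cell Bool p, g (y + r) - 𝔼 y ∈ bx a b, g y| ≤ 4 * Q / M := by
  have hne : (cell Bool p).Nonempty := ⟨_, rs_mem_cell hp 0⟩
  have hb : (bx a b).Nonempty := ⟨b, mem_bx.2 fun v => ⟨by
    have h1 : (a v : ℝ) < b v := by linarith [hab v]
    exact_mod_cast h1, le_rfl⟩⟩
  have hc : (0 : ℝ) < (bx a b).card := by exact_mod_cast hb.card_pos
  rw [expect_comm, ← expect_const hne (𝔼 y ∈ bx a b, g y), ← expect_sub_distrib]
  refine (abs_expect_le _ _).trans (expect_le hne fun r hr => ?_)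
  have h1 := hS Bool a b r M Q 1 g hM hab (fun v => by
    have h1 := mem_cell.1 hr v
    have : |r v| ≤ (Q : ℤ) := by rw [abs_le]; constructor <;> omega
    exact_mod_cast this) hg
  rw [expect_eq_sum_div_card, expect_eq_sum_div_card, ← sub_div, abs_div, abs_of_pos hc,
    div_le_iff₀ hc]
  refine h1.trans_eq ?_
  rw [Fintype.card_bool]
  push_cast
  ring

theorem mDec_stmt (hS : ShiftStmt) (hD : DecStmt) (hR : RsStmt) : MDecStmt := by
  intro s L Q R j e h u a b M Pr he hu hM hab hPr hne hj hQR ha hT hQM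
  have hD' := hD Bool (Bool × (Fin s → Bool) → Fin (2 * R + 1) → ℤ)
    (Fintype.piFinset fun _ => (pat_finite (2 * R + 1)).toFinset) (fun _ => a) (fun _ => b) M Pr Q j
    (fun y w i => lamZ ((y w.1 + ∑ k, if w.2 k then e k * h k else 0) - R + ((i : ℕ) : ℤ)))
    (fun st p r => ∏ w, cl_LiftCore R (st w)
      (R + (r w.1 + ∑ k, if w.2 k then e k * u p k else 0))) hM (fun _ => hab) hPr hne hj
    (by
      rw [Fintype.card_piFinset, prod_const, card_univ,
        ← Set.ncard_eq_toFinset_card _ (pat_finite _), Fintype.card_prod, Fintype.card_fun,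
        Fintype.card_bool, Fintype.card_fin, ← pow_succ']
      exact_mod_cast hT)
    (fun y hy => Fintype.mem_piFinset.2 fun w => (Set.Finite.mem_toFinset _).2 (word_mem_pat _ (by
      have h1 := (mem_bx.1 hy w.1).1
      have h2 := ha w.2
      omega)))
    (fun s _ r => by simp [abs_prod, abs_cl_LiftCore])
    (by rw [Fintype.card_bool]; push_cast; linarith)
  have hG : ∀ p ∈ Pr, ∀ y : Bool → ℤ, ∀ r ∈ cell Bool p,
      ∏ w : Bool × (Fin s → Bool), cl_LiftCore R (fun i =>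
        lamZ ((y w.1 + ∑ k, if w.2 k then e k * h k else 0) - R + ((i : ℕ) : ℤ)))
        (R + (r w.1 + ∑ k, if w.2 k then e k * u p k else 0)) = gq e (y + r) (h + u p) := by
    intro p hp y r hr
    rw [gq, Fintype.prod_prod_type]
    refine prod_congr rfl fun c _ => prod_congr rfl fun ω _ => ?_
    rw [cl_word_LiftCore R _ _ (off_MDec he (hu p hp) (hPr p hp).2 hQR hr c ω), add_add_add_comm,
      ← sum_add_distrib]
    congr 2
    refine sum_congr rfl fun k _ => ?_
    split_ifs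
    · rw [Pi.add_apply, mul_add]
    · rw [add_zero]
  have h1 : |𝔼 p ∈ Pr, 𝔼 y ∈ bx (fun _ : Bool => a) (fun _ => b),
      (gq e (y + rs p y) (h + u p) - 𝔼 r ∈ cell Bool p, gq e (y + r) (h + u p))| ≤
      8 * Real.sqrt (j / Pr.card) := by
    rw [expect_comm]
    refine le_of_eq_of_le ?_ hD'
    congr 1
    refine expect_congr rfl fun y _ => expect_congr rfl fun p hp => ?_
    rw [hG p hp y _ (rs_mem_cell (hPr p hp).1.pos y), expect_congr rfl (hG p hp y)]
  have h2 : ∀ p ∈ Pr, |𝔼 y ∈ bx (fun _ : Bool => a) (fun _ => b),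
      (wt p 0 y - 1) * gq e y (h + u p) - 𝔼 y ∈ bx (fun _ : Bool => a) (fun _ => b),
      (gq e (y + rs p y) (h + u p) - 𝔼 r ∈ cell Bool p, gq e (y + r) (h + u p))| ≤
      8 * (Q : ℝ) ^ 3 / M := by
    intro p hp
    have k1 := hR Bool (fun _ => a) (fun _ => b) M 1 p Q (fun y => gq e y (h + u p)) hM
      (fun _ => hab) (hPr p hp).1.one_le (hPr p hp).2 fun y => abs_gq_MDec e y _
    have k2 := shift_MDec hS (fun _ => a) (fun _ => b) (fun y => gq e y (h + u p)) hM
      (fun _ => hab) (hPr p hp).1.pos (hPr p hp).2 fun y => abs_gq_MDec e y _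
    have k3 : (1 : ℝ) ≤ Q := by exact_mod_cast (hPr p hp).1.one_le.trans (hPr p hp).2
    have k4 : 4 * (Q : ℝ) / M ≤ 4 * (Q : ℝ) ^ 3 / M :=
      div_le_div_of_nonneg_right (by linarith [le_self_pow₀ k3 (show 3 ≠ 0 by norm_num)]) hM.le
    have k5 : 2 * Fintype.card Bool * (Q : ℝ) ^ (Fintype.card Bool + 1) / M * 1 =
        4 * (Q : ℝ) ^ 3 / M := by
      rw [Fintype.card_bool]
      push_cast
      ring
    have k6 : 8 * (Q : ℝ) ^ 3 / M = 4 * (Q : ℝ) ^ 3 / M + 4 * (Q : ℝ) ^ 3 / M := by ring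
    rw [k5] at k1
    simp only [sub_mul, one_mul, expect_sub_distrib]
    rw [abs_le] at k1 k2 ⊢
    constructor <;> linarith [k1.1, k1.2, k2.1, k2.2]
  have h3 := (abs_expect_le _ _).trans (expect_le hne h2)
  rw [expect_sub_distrib] at h3
  rw [abs_le] at h1 h3 ⊢
  constructor <;> linarith [h1.1, h1.2, h3.1, h3.2]

end Pool.Agent.MP_4fffd4_nt.AN

end
end

section

open Finset Filter
open scoped BigOperators ComplexConjugate Topology

noncomputable section

namespace Pool.Agent.MP_4fffd4_nt.AN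

open Pool.Agent.MP_4fffd4_nt.SX

theorem rs_sum_RsCls {V : Type} [Fintype V] [DecidableEq V] (g : (V → ℤ) → ℝ) {p : ℕ}
    (hp : 0 < p) (y : V → ℤ) :
    g (y + rs p y) = ∑ r ∈ cell V p, if ∀ v, (p : ℤ) ∣ (y + r) v then g (y + r) else 0 := by
  rw [sum_eq_single_of_mem (rs p y) (rs_mem_cell hp y)]
  · exact (if_pos fun v => dvd_add_rs p y v).symm
  · intro r hr hne
    rw [if_neg]
    intro hd
    apply hne
    funext v
    have h1 := mem_cell.1 hr v
    have h2 := mem_cell.1 (rs_mem_cell hp y) v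
    have h3 : (p : ℤ) ∣ r v - rs p y v := by
      have := dvd_sub (hd v) (dvd_add_rs p y v)
      simpa using this
    have h4 := Int.eq_zero_of_abs_lt_dvd h3 (by rw [abs_lt]; constructor <;> omega)
    omega

theorem card_pos_RsCls {V : Type} [Fintype V] [DecidableEq V] {a b : V → ℤ} {M : ℝ} (hM : 0 < M)
    (hab : ∀ v, M ≤ (b v : ℝ) - a v) : (0 : ℝ) < (bx a b).card := by
  have : b ∈ bx a b := mem_bx.2 fun v => ⟨by
    have h1 : (a v : ℝ) < b v := by linarith [hab v]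
    exact_mod_cast h1, le_rfl⟩
  exact_mod_cast card_pos.2 ⟨b, this⟩

theorem rs_stmt (hS : ShiftStmt) : RsStmt := by
  intro V _ _ a b M B p Q g hM hab hp hQ hg
  have hp0 : 0 < p := hp
  have hB : 0 ≤ B := (abs_nonneg _).trans (hg 0)
  set hh : (V → ℤ) → ℝ := fun y => if ∀ v, (p : ℤ) ∣ y v then g y else 0 with hhh
  have hhB : ∀ y, |hh y| ≤ B := fun y => by
    simp only [hhh]
    split_ifs
    · exact hg y
    · simpa using hB
  have hw : ∀ y, wt p 0 y * g y = (p : ℝ) ^ Fintype.card V * hh y := fun y => by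
    simp only [hhh, wt, Pi.zero_apply, sub_zero]
    split_ifs <;> simp
  have ht : ∀ r ∈ cell V p, ∀ v, |(r v : ℝ)| ≤ Q := fun r hr v => by
    have h1 := mem_cell.1 hr v
    have : |r v| ≤ (Q : ℤ) := by rw [abs_le]; constructor <;> omega
    exact_mod_cast this
  have hc := card_pos_RsCls hM hab
  set E : ℝ := 2 * Fintype.card V * Q / M * B * (bx a b).card with hE
  have hE0 : 0 ≤ E := by positivity
  have h2 : |∑ y ∈ bx a b, g (y + rs p y) - (p : ℝ) ^ Fintype.card V * ∑ y ∈ bx a b, hh y| ≤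
      (p : ℝ) ^ Fintype.card V * E := by
    have e0 : ∀ y, g (y + rs p y) = ∑ r ∈ cell V p, hh (y + r) := fun y => rs_sum_RsCls g hp0 y
    simp only [e0]
    have e : ∀ x : ℝ, (p : ℝ) ^ Fintype.card V * x = ∑ _r ∈ cell V p, x := fun x => by
      simp [card_cell]
    rw [sum_comm, e, e, ← sum_sub_distrib]
    refine (abs_sum_le_sum_abs _ _).trans (sum_le_sum fun r hr => ?_)
    exact hS V a b r M Q B _ hM hab (ht r hr) hhB
  have h3 : (p : ℝ) ^ Fintype.card V ≤ (Q : ℝ) ^ Fintype.card V :=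
    pow_le_pow_left₀ (by positivity) (by exact_mod_cast hQ) _
  simp only [hw]
  rw [expect_eq_sum_div_card, expect_eq_sum_div_card, ← mul_sum, ← sub_div, abs_div,
    abs_of_pos hc, div_le_iff₀ hc]
  refine h2.trans ((mul_le_mul_of_nonneg_right h3 hE0).trans_eq ?_)
  rw [hE]
  ring

theorem cls_stmt : ClsStmt := by
  intro V _ _ a b ρ M q hq hqM hab
  have hq0 : (0 : ℤ) < q := by exact_mod_cast hq
  have hqR : (0 : ℝ) < q := by exact_mod_cast hq
  have hM : 0 < M := hqR.trans_le hqM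
  have hc := card_pos_RsCls hM hab
  set a' : V → ℤ := fun v => (a v - ρ v) / q with ha'
  set b' : V → ℤ := fun v => (b v - ρ v) / q with hb'
  have k1 : ∀ x : ℤ, x / q * q ≤ x := fun x => Int.ediv_mul_le x hq0.ne'
  have k2 : ∀ x : ℤ, x < (x / q + 1) * q := fun x => Int.lt_ediv_add_one_mul_self x hq0
  have hmem : ∀ h : V → ℤ, h ∈ bx a' b' ↔ (fun v => (q : ℤ) * h v + ρ v) ∈ bx a b := fun h => by
    rw [mem_bx, mem_bx]
    refine forall_congr' fun v => ?_
    simp only [ha', hb']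
    rw [Int.ediv_lt_iff_lt_mul hq0, Int.le_ediv_iff_mul_le hq0, mul_comm (h v)]
    constructor <;> rintro ⟨h1, h2⟩ <;> constructor <;> linarith
  refine ⟨a', b', (q : ℝ) ^ Fintype.card V * (bx a' b').card / (bx a b).card, by positivity, ?_,
    fun v => ?_, fun g => ?_⟩
  · rw [div_le_iff₀ hc, bx, bx, Fintype.card_piFinset, Fintype.card_piFinset, ← card_univ,
      ← prod_const, ← prod_const]
    push_cast
    rw [← prod_mul_distrib, ← prod_mul_distrib]
    refine prod_le_prod (fun _ _ => by positivity) fun v _ => ?_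
    have h1 := k1 (b v - ρ v)
    have h2 := k2 (a v - ρ v)
    have h3 : (q : ℤ) ≤ b v - a v := by
      have : (q : ℝ) ≤ (b v : ℝ) - a v := hqM.trans (hab v)
      exact_mod_cast this
    have h4 : (q : ℤ) * (b' v - a' v) ≤ 2 * (b v - a v) := by
      simp only [ha', hb']
      nlinarith
    rw [Int.card_Ioc, Int.card_Ioc]
    have h5 : q * (b' v - a' v).toNat ≤ 2 * (b v - a v).toNat := by
      rcases le_total (b' v - a' v) 0 with h6 | h6
      · rw [Int.toNat_of_nonpos h6]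
        simp
      · have h7 := Int.toNat_of_nonneg h6
        have h8 := Int.toNat_of_nonneg (show 0 ≤ b v - a v by omega)
        zify
        rw [h7, h8]
        exact h4
    exact_mod_cast h5
  · have h1 := k1 (a v - ρ v)
    have h2 := k2 (b v - ρ v)
    have h3 : b v - a v ≤ (b' v - a' v + 1) * q := by
      simp only [ha', hb']
      nlinarith
    have h4 : (b v : ℝ) - a v ≤ ((b' v : ℝ) - a' v + 1) * q := by exact_mod_cast h3
    rw [sub_le_iff_le_add, div_le_iff₀ hqR]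
    exact (hab v).trans h4
  · have e : ∑ h ∈ bx a b, wt q ρ h * g h =
        (q : ℝ) ^ Fintype.card V * ∑ h ∈ bx a' b', g fun v => q * h v + ρ v := by
      have e1 : ∀ h, wt q ρ h * g h =
          if ∀ v, (q : ℤ) ∣ h v - ρ v then (q : ℝ) ^ Fintype.card V * g h else 0 := fun h => by
        unfold wt
        split_ifs <;> simp
      simp only [e1]
      rw [← sum_filter, mul_sum]
      symm
      refine sum_nbij' (fun z v => (q : ℤ) * z v + ρ v) (fun y v => (y v - ρ v) / q) ?_ ?_ ?_ ?_ ?_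
      · intro z hz
        rw [mem_filter]
        exact ⟨(hmem z).1 hz, fun v => ⟨z v, by ring⟩⟩
      · intro y hy
        rw [mem_filter] at hy
        rw [hmem]
        have : (fun v => (q : ℤ) * ((y v - ρ v) / q) + ρ v) = y := funext fun v => by
          rw [Int.mul_ediv_cancel' (hy.2 v)]
          ring
        rw [this]
        exact hy.1
      · intro z _
        funext v
        simp only [add_sub_cancel_right]
        exact Int.mul_ediv_cancel_left _ hq0.ne'
      · intro y hy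
        rw [mem_filter] at hy
        funext v
        simp only
        rw [Int.mul_ediv_cancel' (hy.2 v)]
        ring
      · intro z _
        rfl
    rw [expect_eq_sum_div_card, e, ← card_mul_expect (bx a' b')]
    ring

end Pool.Agent.MP_4fffd4_nt.AN

end
end

section

open Finset Filter
open scoped BigOperators ComplexConjugate Topology

noncomputable section

namespace Pool.Agent.MP_4fffd4_nt.AN

open Pool.Agent.MP_4fffd4_nt.SX

theorem xx_Scale {s : ℕ} (e : Fin s → ℤ) (a b : ℤ) (h : Fin s → ℤ) :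
    XX lam e a b h ^ 2 = ∑ y ∈ bx (fun _ : Bool => a) (fun _ => b), gq e y h := by
  have h1 := Finset.prod_univ_sum (fun _ : Bool => Ioc a b)
    (fun _ m => ∏ ω : Fin s → Bool, lam (m + ∑ j, if ω j then e j * h j else 0))
  rw [prod_const, card_univ, Fintype.card_bool] at h1
  exact h1

theorem ae_Scale {s : ℕ} (e : Fin s → ℤ) (Y K : ℝ) :
    AE e Y K = (∑ h ∈ bh s K, ∑ y ∈ by2 Y K, gq e y h) / ((2 * K) ^ s * (Y * K) ^ 2) := by
  unfold AE bh by2
  simp only [xx_Scale]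

theorem sum_wt_Scale {V : Type} [Fintype V] [DecidableEq V] (α β : V → ℝ) (K : ℝ) {p : ℕ}
    (hp : 0 < p) (f : (V → ℤ) → ℝ) :
    ∑ y ∈ bx (fun v => ⌊α v * K⌋) (fun v => ⌊β v * K⌋), wt p 0 y * f y =
      (p : ℝ) ^ Fintype.card V *
        ∑ z ∈ bx (fun v => ⌊α v * (K / p)⌋) (fun v => ⌊β v * (K / p)⌋),
          f fun v => (p : ℤ) * z v := by
  classical
  have hp0 : (p : ℤ) ≠ 0 := by exact_mod_cast hp.ne'
  have e : ∀ y : V → ℤ, wt p 0 y * f y =
      if ∀ v, (p : ℤ) ∣ y v then (p : ℝ) ^ Fintype.card V * f y else 0 := fun y => by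
    unfold wt
    simp only [Pi.zero_apply, sub_zero]
    split_ifs <;> simp
  simp only [e]
  rw [← sum_filter, mul_sum]
  symm
  refine sum_nbij' (fun z v => (p : ℤ) * z v) (fun y v => y v / p) ?_ ?_ ?_ ?_ ?_
  · intro z hz
    rw [mem_filter]
    exact ⟨(mem_scale_LiftCore hp z).1 hz, fun v => dvd_mul_right _ _⟩
  · intro y hy
    rw [mem_filter] at hy
    rw [mem_scale_LiftCore hp]
    have : (fun v => (p : ℤ) * (y v / p)) = y := funext fun v => Int.mul_ediv_cancel' (hy.2 v)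
    rw [this]
    exact hy.1
  · intro z _
    funext v
    exact Int.mul_ediv_cancel_left _ hp0
  · intro y hy
    rw [mem_filter] at hy
    funext v
    exact Int.mul_ediv_cancel' (hy.2 v)
  · intro z _
    rfl

theorem bh_Scale (s : ℕ) (K : ℝ) :
    bh s K = bx (fun v => ⌊(fun _ : Fin s => (-1 : ℝ)) v * K⌋) (fun v => ⌊(fun _ => (1 : ℝ)) v * K⌋) := by
  simp [bh]

theorem by_Scale (Y K : ℝ) :
    by2 Y K = bx (fun v => ⌊(fun _ : Bool => Y) v * K⌋) (fun v => ⌊(fun _ => 2 * Y) v * K⌋) := rfl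

theorem gq_Scale {s L : ℕ} {e : Fin s → ℤ} {Y K : ℝ} (he : ∀ i, |e i| ≤ L)
    (hY : (s : ℝ) * L + 2 ≤ Y) (hK : 0 < K) {p : ℕ} (hp : p.Prime) {y : Bool → ℤ} {h : Fin s → ℤ}
    (hy : y ∈ by2 Y K) (hh : h ∈ bh s K) :
    gq e (fun v => (p : ℤ) * y v) (fun v => (p : ℤ) * h v) = gq e y h := by
  have h1 : ∀ (b : Bool) (ω : Fin s → Bool),
      lam ((p : ℤ) * y b + ∑ j, if ω j then e j * ((p : ℤ) * h j) else 0) =
        -lam (y b + ∑ j, if ω j then e j * h j else 0) := by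
    intro b ω
    have h2 := (mem_bx.1 hy b).1
    rw [Int.floor_lt] at h2
    have h3 : ∀ j, -((L : ℝ) * K) ≤ ((if ω j then e j * h j else 0 : ℤ) : ℝ) := fun j => by
      obtain ⟨h4, h5⟩ := mem_bx.1 hh j
      rw [Int.floor_lt] at h4
      rw [Int.le_floor] at h5
      have h6 : |(e j : ℝ)| ≤ L := by exact_mod_cast he j
      have h7 : |(h j : ℝ)| ≤ K := abs_le.2 ⟨h4.le, h5⟩
      have h8 : |(e j : ℝ) * h j| ≤ L * K := by
        rw [abs_mul]
        exact mul_le_mul h6 h7 (abs_nonneg _) (by positivity)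
      split_ifs
      · push_cast
        exact (abs_le.1 h8).1
      · have : 0 ≤ (L : ℝ) * K := by positivity
        simpa using this
    have h9 : -((s : ℝ) * (L * K)) ≤ ((∑ j, if ω j then e j * h j else 0 : ℤ) : ℝ) := by
      rw [Int.cast_sum]
      refine le_trans (le_of_eq ?_) (sum_le_sum fun j _ => h3 j)
      simp
    have h10 : (0 : ℤ) < y b + ∑ j, if ω j then e j * h j else 0 := by
      have : (0 : ℝ) < (y b : ℝ) + ((∑ j, if ω j then e j * h j else 0 : ℤ) : ℝ) := by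
        nlinarith [mul_le_mul_of_nonneg_right hY hK.le]
      exact_mod_cast this
    rw [← lam_prime_mul hp h10, mul_add, mul_sum]
    congr 2
    refine sum_congr rfl fun j _ => ?_
    split_ifs <;> ring
  unfold gq
  simp only [h1, Fintype.prod_bool, prod_neg]
  have h2 : ((-1 : ℝ) ^ (univ : Finset (Fin s → Bool)).card) *
      ((-1 : ℝ) ^ (univ : Finset (Fin s → Bool)).card) = 1 := by
    rw [← mul_pow]
    simp
  linear_combination ((∏ ω : Fin s → Bool, lam (y true + ∑ j, if ω j then e j * h j else 0)) *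
    ∏ ω : Fin s → Bool, lam (y false + ∑ j, if ω j then e j * h j else 0)) * h2

theorem scale_stmt : ScaleStmt := by
  intro s L e Y K he hY hK
  have hsL : (0 : ℝ) ≤ (s : ℝ) * L := by positivity
  have hK0 : 0 < K := by linarith
  have hY0 : 0 < Y := by linarith
  have hvol : 0 < (2 * K) ^ s * (Y * K) ^ 2 := by positivity
  have hE : ∀ F : (Fin s → ℤ) → (Bool → ℤ) → ℝ,
      ((bh s K).card * (by2 Y K).card : ℝ) * 𝔼 h ∈ bh s K, 𝔼 y ∈ by2 Y K, F h y =
        ∑ h ∈ bh s K, ∑ y ∈ by2 Y K, F h y := fun F => by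
    rw [mul_comm ((bh s K).card : ℝ), mul_assoc, card_mul_expect, mul_sum]
    exact sum_congr rfl fun h _ => card_mul_expect _ _
  refine ⟨((bh s K).card * (by2 Y K).card : ℝ) / ((2 * K) ^ s * (Y * K) ^ 2), by positivity,
    ?_, ?_, ?_⟩
  · have h1 : ((bh s K).card : ℝ) ≤ 2 ^ s * (2 * K) ^ s := by
      rw [bh_Scale]
      refine (card_bx_LiftCore (by linarith) (fun _ => by norm_num)).trans_eq ?_
      norm_num
    have h2 : ((by2 Y K).card : ℝ) ≤ 2 ^ 2 * (Y * K) ^ 2 := by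
      rw [by_Scale]
      refine (card_bx_LiftCore (by linarith) (fun _ => by linarith)).trans_eq ?_
      rw [prod_const, card_univ, Fintype.card_bool]
      ring
    rw [div_le_iff₀ hvol]
    refine (mul_le_mul h1 h2 (by positivity) (by positivity)).trans_eq (by ring)
  · rw [ae_Scale, div_mul_eq_mul_div, hE]
  · intro p hp
    have hp0 : (0 : ℝ) < p := by exact_mod_cast hp.pos
    rw [ae_Scale, div_mul_eq_mul_div, hE]
    have h1 : ∑ h ∈ bh s K, ∑ y ∈ by2 Y K, wt p 0 h * (wt p 0 y * gq e y h) =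
        (p : ℝ) ^ s * ((p : ℝ) ^ 2 * ∑ h ∈ bh s (K / p), ∑ y ∈ by2 Y (K / p), gq e y h) := by
      simp only [← mul_sum]
      rw [bh_Scale s K, sum_wt_Scale _ _ K hp.pos, ← bh_Scale, Fintype.card_fin]
      congr 1
      rw [mul_sum]
      refine sum_congr rfl fun h hh => ?_
      rw [by_Scale Y K, sum_wt_Scale _ _ K hp.pos, ← by_Scale, Fintype.card_bool]
      congr 1
      exact sum_congr rfl fun y hy => gq_Scale he hY (div_pos hK0 hp0) hp hy hh
    rw [h1]
    have h2 : (2 * (K / p)) ^ s * (Y * (K / p)) ^ 2 =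
        (2 * K) ^ s * (Y * K) ^ 2 / ((p : ℝ) ^ s * (p : ℝ) ^ 2) := by
      rw [← mul_div_assoc, ← mul_div_assoc, div_pow, div_pow, div_mul_div_comm]
    rw [h2, div_div_eq_mul_div]
    congr 1
    ring

end Pool.Agent.MP_4fffd4_nt.AN

end
end

section

open Finset Filter
open scoped BigOperators ComplexConjugate Topology

noncomputable section

namespace Pool.Agent.MP_4fffd4_nt.AN

open Pool.Agent.MP_4fffd4_nt.SX

theorem sum_wt_Kl {V : Type} [Fintype V] [DecidableEq V] {p : ℕ} (hp : 0 < p) (c h : V → ℤ) :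
    ∑ r ∈ cell V p, wt p c (h + r) = (p : ℝ) ^ Fintype.card V := by
  rw [sum_eq_single_of_mem (rs p (h - c)) (rs_mem_cell hp _)]
  · unfold wt
    refine if_pos fun v => ?_
    have := dvd_add_rs p (h - c) v
    simp only [Pi.sub_apply, Pi.add_apply] at this ⊢
    convert this using 1
    ring
  · intro r hr hne
    unfold wt
    rw [if_neg]
    intro hd
    apply hne
    funext v
    have h1 := mem_cell.1 hr v
    have h2 := mem_cell.1 (rs_mem_cell hp (h - c)) v
    have h3 : (p : ℤ) ∣ r v - rs p (h - c) v := by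
      have := dvd_sub (hd v) (dvd_add_rs p (h - c) v)
      have e : r v - rs p (h - c) v = (h + r) v - c v - ((h - c) v + rs p (h - c) v) := by
        simp only [Pi.sub_apply, Pi.add_apply]
        ring
      rw [e]
      exact this
    have h4 := Int.eq_zero_of_abs_lt_dvd h3 (by rw [abs_lt]; constructor <;> omega)
    omega

end Pool.Agent.MP_4fffd4_nt.AN

end
end

section

open Finset Filter
open scoped BigOperators ComplexConjugate Topology

noncomputable section

namespace Pool.Agent.MP_4fffd4_nt.AN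

open Pool.Agent.MP_4fffd4_nt.SX

theorem mean_wt_UKFrz {V : Type} [Fintype V] [DecidableEq V] {m : ℕ} (hm : 0 < m) (h : V → ℤ) :
    𝔼 ρ ∈ cell V m, wt m ρ h = 1 := by
  have e : ∀ ρ : V → ℤ, wt m ρ h = wt m h (0 + ρ) := fun ρ => by
    unfold wt
    simp only [zero_add]
    exact if_congr (forall_congr' fun v => dvd_sub_comm) rfl rfl
  rw [expect_eq_sum_div_card, sum_congr rfl fun ρ _ => e ρ, sum_wt_Kl hm, card_cell]
  push_cast
  exact div_self (by positivity)

theorem wt_aff_UKFrz {V : Type} [Fintype V] {p : ℕ} {m u : ℤ} (hu : (p : ℤ) ∣ u * m - 1)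
    (c ρ h : V → ℤ) :
    wt p c (fun v => m * h v + ρ v) = wt p (fun v => u * (c v - ρ v)) h := by
  unfold wt
  refine if_congr (forall_congr' fun v => ⟨fun H => ?_, fun H => ?_⟩) rfl rfl
  · have e : h v - u * (c v - ρ v) = u * (m * h v + ρ v - c v) - (u * m - 1) * h v := by ring
    rw [e]
    exact dvd_sub (H.mul_left _) (hu.mul_right _)
  · have e : m * h v + ρ v - c v =
        m * (h v - u * (c v - ρ v)) + (u * m - 1) * (c v - ρ v) := by ring
    show (p : ℤ) ∣ m * h v + ρ v - c v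
    rw [e]
    exact dvd_add (H.mul_left _) (hu.mul_right _)

theorem inv_UKFrz {I : Finset ℕ} (hI : ∀ p ∈ I, p.Prime) (p : ℕ) :
    ∃ u : ℤ, p.Prime → p ∉ I → (p : ℤ) ∣ u * ((∏ q ∈ I, q : ℕ) : ℤ) - 1 := by
  by_cases hp : p.Prime ∧ p ∉ I
  · have h1 : Nat.Coprime (∏ q ∈ I, q) p := by
      refine Nat.Coprime.prod_left fun q hq => ?_
      refine (Nat.coprime_primes (hI q hq) hp.1).2 ?_
      rintro rfl
      exact hp.2 hq
    obtain ⟨u, w, h2⟩ := Nat.isCoprime_iff_coprime.2 h1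
    exact ⟨u, fun _ _ => ⟨-w, by linear_combination h2⟩⟩
  · exact ⟨0, fun h1 h2 => absurd ⟨h1, h2⟩ hp⟩

theorem frz_stmt (hC : ClsStmt) : FrzStmt := by
  intro V _ _ r J Pr I η M M' B κ hPr hI hM hM' hκ hK A _ _ F L a b σ c D hF hσ hJ hd hab hD
  choose u hu using inv_UKFrz hI
  have hm : 0 < ∏ p ∈ I, p := prod_pos fun p hp => (hI p hp).pos
  generalize (∏ p ∈ I, p) = m at *
  have hne : (cell V m).Nonempty := ⟨_, rs_mem_cell hm 0⟩
  have e1 : 𝔼 x, 𝔼 h ∈ bx a b, (∏ i, F i (x + L i h)) * (D h * WS Pr σ c h) =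
      𝔼 ρ ∈ cell V m, 𝔼 x, 𝔼 h ∈ bx a b,
        wt m ρ h * ((∏ i, F i (x + L i h)) * (D h * WS Pr σ c h)) := by
    rw [expect_comm (cell V m)]
    refine expect_congr rfl fun x _ => ?_
    rw [expect_comm (cell V m)]
    refine expect_congr rfl fun h _ => ?_
    rw [← expect_mul, mean_wt_UKFrz hm, one_mul]
  rw [e1, mul_expect]
  refine (abs_expect_le _ _).trans (expect_le_expect fun ρ _ => ?_)
  obtain ⟨a', b', t, t0, t1, hab', ht⟩ := hC V a b ρ M m hm hM hab
  have k := hK A (fun i x => F i (x + L i ρ)) (fun i => (m : ℤ) • L i) a' b' (fun S => σ S / κ)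
    (fun p v => u p * (c p v - ρ v)) (fun i x => hF i _)
    (fun S => by
      rw [abs_div, abs_of_pos hκ, div_le_iff₀ hκ, mul_comm]
      exact hσ S)
    (fun S hS => by simp [hJ S hS]) (fun v => hM'.trans (hab' v))
  have e2 : ∀ h : V → ℤ, WS Pr σ c (fun v => (m : ℤ) * h v + ρ v) =
      κ * WS Pr (fun S => σ S / κ) (fun p v => u p * (c p v - ρ v)) h := fun h => by
    unfold WS
    rw [mul_sum]
    refine sum_congr rfl fun S hS => ?_
    by_cases hS' : Disjoint S I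
    · rw [← mul_assoc, mul_div_cancel₀ _ hκ.ne']
      congr 1
      refine prod_congr rfl fun p hp => ?_
      rw [wt_aff_UKFrz (hu p (hPr p (mem_powerset.1 hS hp)) (disjoint_left.1 hS' hp))]
    · simp [hd S hS']
  have e3 : ∀ (x : A) (i : Fin r) (h : V → ℤ), x + L i (fun v => (m : ℤ) * h v + ρ v) =
      x + ((m : ℤ) • L i) h + L i ρ := fun x i h => by
    have : (fun v => (m : ℤ) * h v + ρ v) = (m : ℤ) • h + ρ := by
      funext v
      simp
    rw [this, map_add, map_zsmul, AddMonoidHom.zsmul_apply, add_assoc]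
  have e4 : 𝔼 x, 𝔼 h ∈ bx a b, wt m ρ h * ((∏ i, F i (x + L i h)) * (D h * WS Pr σ c h)) =
      t * κ * D ρ * 𝔼 x, 𝔼 h ∈ bx a' b', (∏ i, F i (x + ((m : ℤ) • L i) h + L i ρ)) *
        WS Pr (fun S => σ S / κ) (fun p v => u p * (c p v - ρ v)) h := by
    rw [mul_expect]
    refine expect_congr rfl fun x _ => ?_
    rw [ht, mul_expect, mul_expect]
    refine expect_congr rfl fun h _ => ?_
    rw [hD, e2]
    simp only [e3]
    ring
  rw [e4, abs_mul, abs_mul, abs_mul, abs_of_nonneg t0, abs_of_pos hκ]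
  have h0 := abs_nonneg (D ρ)
  calc _ ≤ 2 ^ Fintype.card V * κ * |D ρ| * B :=
        mul_le_mul (by gcongr) k (abs_nonneg _) (by positivity)
    _ = _ := by ring

end Pool.Agent.MP_4fffd4_nt.AN

end
end

section

/-!
The inductive step of the decoupling for weights of bounded degree.
-/

open Finset Filter
open scoped BigOperators ComplexConjugate Topology

noncomputable section

namespace Pool.Agent.MP_4fffd4_nt.AN

open Pool.Agent.MP_4fffd4_nt.SX

theorem sq_expect_UKOne {α : Type} (s : Finset α) (f : α → ℝ) :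
    (𝔼 i ∈ s, f i) ^ 2 ≤ 𝔼 i ∈ s, f i ^ 2 := by
  rcases s.eq_empty_or_nonempty with rfl | hs
  · simp
  have h := expect_mul_sq_le_sq_mul_sq s f fun _ => (1 : ℝ)
  simpa [expect_const hs] using h

theorem abs_le_UKOne {α : Type} (s : Finset α) {f : α → ℝ} {C : ℝ} (hC : 0 ≤ C)
    (h : ∀ i ∈ s, |f i| ≤ C) : |𝔼 i ∈ s, f i| ≤ C := by
  rcases s.eq_empty_or_nonempty with rfl | hs
  · simpa using hC
  · exact (abs_expect_le _ _).trans (expect_le hs h)

theorem le_UKOne {α : Type} (s : Finset α) {f : α → ℝ} {C : ℝ} (hC : 0 ≤ C)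
    (h : ∀ i ∈ s, f i ≤ C) : 𝔼 i ∈ s, f i ≤ C := by
  rcases s.eq_empty_or_nonempty with rfl | hs
  · simpa using hC
  · exact expect_le hs h

theorem wt_shift_UKOne {V : Type} [Fintype V] (p : ℕ) (c h t : V → ℤ) :
    wt p c (h + t) = wt p (c - t) h := by
  unfold wt
  refine if_congr (forall_congr' fun v => ?_) rfl rfl
  rw [show (h + t) v - c v = h v - (c - t) v by simp only [Pi.add_apply, Pi.sub_apply]; ring]

theorem wt_per_UKOne {V : Type} [Fintype V] {p : ℕ} {q : ℤ} (hq : (p : ℤ) ∣ q) (c h ρ t : V → ℤ) :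
    wt p c ((fun v => q * h v + ρ v) + t) = wt p c (ρ + t) := by
  unfold wt
  refine if_congr (forall_congr' fun v => ?_) rfl rfl
  rw [show ((fun v => q * h v + ρ v) + t) v - c v = q * h v + ((ρ + t) v - c v) by
    simp only [Pi.add_apply]; ring]
  exact dvd_add_right (hq.mul_right _)

theorem tau_big_UKOne {σ : Finset ℕ → ℝ} {J : ℕ} (h0 : ∀ S, J < S.card → σ S = 0)
    (I l U : Finset ℕ) (hU : 2 * J < U.card) : tau σ I l U = 0 := by
  unfold tau
  split_ifs
  · have e := card_inter_add_card_sdiff U l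
    have a1 : (U ∩ l).card ≤ (I ∪ U ∩ l).card := card_le_card subset_union_right
    have a2 : (U \ l).card ≤ (I ∪ U \ l).card := card_le_card subset_union_right
    by_cases h : J < (U ∩ l).card
    · rw [h0 _ (h.trans_le a1)]
      simp
    · rw [h0 (I ∪ U \ l) (by omega)]
      simp
  · rfl

theorem tau_zero_UKOne {σ : Finset ℕ → ℝ} {J : ℕ} (h0 : ∀ S, J < S.card → σ S = 0)
    {I : Finset ℕ} (hI : J < I.card) (l U : Finset ℕ) : tau σ I l U = 0 := by
  unfold tau
  split_ifs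
  · rw [h0 _ (hI.trans_le (card_le_card subset_union_left))]
    simp
  · rfl

theorem tau_le_UKOne {σ : Finset ℕ → ℝ} {J : ℕ} {η : ℝ} (hη : 0 < η)
    (hσ : ∀ S, |σ S| ≤ η ^ S.card) (h0 : ∀ S, J < S.card → σ S = 0) (I l U : Finset ℕ) :
    |tau σ I l U| ≤ 4 ^ J * η ^ (2 * I.card) * η ^ U.card := by
  by_cases hU : 2 * J < U.card
  · rw [tau_big_UKOne h0 I l U hU, abs_zero]
    positivity
  unfold tau
  split_ifs with hd
  · have e := card_inter_add_card_sdiff U l
    have d1 : Disjoint I (U ∩ l) := (hd.mono_left inter_subset_left).symm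
    have d2 : Disjoint I (U \ l) := (hd.mono_left sdiff_subset).symm
    have a1 := hσ (I ∪ U ∩ l)
    have a2 := hσ (I ∪ U \ l)
    rw [card_union_of_disjoint d1] at a1
    rw [card_union_of_disjoint d2] at a2
    have a3 : (2 : ℝ) ^ U.card ≤ 4 ^ J := by
      rw [show (4 : ℝ) = 2 ^ 2 by norm_num, ← pow_mul]
      exact pow_le_pow_right₀ one_le_two (by omega)
    rw [abs_mul, abs_mul, abs_of_nonneg (by positivity : (0 : ℝ) ≤ 2 ^ U.card), mul_assoc]
    refine mul_le_mul a3 ?_ (by positivity) (by positivity)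
    refine (mul_le_mul a1 a2 (abs_nonneg _) (by positivity)).trans (le_of_eq ?_)
    rw [← pow_add, ← pow_add]
    congr 1
    omega
  · rw [abs_zero]
    positivity

theorem prod_le_UKOne {Pr I : Finset ℕ} {Q J : ℕ} (hQ : 1 ≤ Q) (hPr : ∀ p ∈ Pr, p.Prime ∧ p ≤ Q)
    (hI : I ⊆ Pr) (hJ : I.card ≤ J) : ∏ p ∈ I, p ≤ Q ^ J :=
  (prod_le_pow_card I (fun p => p) Q fun p hp => (hPr p (hI hp)).2).trans
    (Nat.pow_le_pow_right hQ hJ)

/-- The contribution of one set of common primes. -/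
theorem term_UKOne (h2 : AbsStmt) (h3 : FrzStmt) {V : Type} [Fintype V] [DecidableEq V]
    {r J Q : ℕ} {Pr : Finset ℕ} {η M B : ℝ} (hQ : 1 ≤ Q) (hPr : ∀ p ∈ Pr, p.Prime ∧ p ≤ Q)
    (hη : 0 < η) (hM : 2 * (Q : ℝ) ^ J ≤ M) (hB : 0 ≤ B)
    (hK : KS V r (2 * J) Pr η (M / (2 * (Q : ℝ) ^ J)) B)
    {A : Type} [AddCommGroup A] [Fintype A] (F : (V → ℤ) → (V → ℤ) → Fin r → A → ℝ)
    (L : Fin r → (V → ℤ) →+ A) (a b : V → ℤ) (σ : Finset ℕ → ℝ) (c : ℕ → V → ℤ)
    (c' : (V → ℤ) → (V → ℤ) → Finset ℕ → ℕ → V → ℤ)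
    (hF : ∀ t t' i x, |F t t' i x| ≤ 1) (hσ : ∀ S, |σ S| ≤ η ^ S.card)
    (h0 : ∀ S, J < S.card → σ S = 0) (hab : ∀ v, M ≤ (b v : ℝ) - a v) {I : Finset ℕ}
    (hI : I ⊆ Pr) :
    𝔼 t ∈ cell V (Q ^ J), 𝔼 t' ∈ cell V (Q ^ J), 𝔼 l ∈ Pr.powerset, 𝔼 x, 𝔼 h ∈ bx a b,
      (∏ i, F t t' i (x + L i h)) * (((∏ p ∈ I, (wt p (c p) (h + t) - 1)) *
        ∏ p ∈ I, (wt p (c p) (h + t') - 1)) * WS Pr (tau σ I l) (c' t t' l) h) ≤
      8 ^ Fintype.card V * 4 ^ J * B * (4 * η ^ 2) ^ I.card := by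
  by_cases hJ : J < I.card
  · simp only [WS, tau_zero_UKOne h0 hJ, zero_mul, sum_const_zero, mul_zero, expect_const_zero]
    positivity
  have hq := prod_le_UKOne hQ hPr hI (not_lt.1 hJ)
  have hIp : ∀ p ∈ I, p.Prime := fun p hp => (hPr p (hI hp)).1
  have hq0 : (0 : ℝ) < (∏ p ∈ I, p : ℕ) := by
    exact_mod_cast prod_pos fun p hp => (hIp p hp).pos
  have hq1 : ((∏ p ∈ I, p : ℕ) : ℝ) ≤ (Q : ℝ) ^ J := by exact_mod_cast hq
  have hT : (0 : ℝ) < (Q : ℝ) ^ J := hq0.trans_le hq1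
  have hM0 : 0 < M := by linarith
  have a1 : ((∏ p ∈ I, p : ℕ) : ℝ) ≤ M := by linarith
  have a2 : M / (2 * (Q : ℝ) ^ J) ≤ M / (∏ p ∈ I, p : ℕ) - 1 := by
    have b1 : M / (Q : ℝ) ^ J ≤ M / (∏ p ∈ I, p : ℕ) := div_le_div_of_nonneg_left hM0.le hq0 hq1
    have b2 : 1 ≤ M / (2 * (Q : ℝ) ^ J) := (one_le_div (by positivity)).2 hM
    have b3 : M / (Q : ℝ) ^ J = 2 * (M / (2 * (Q : ℝ) ^ J)) := by field_simp
    linarith
  set D : (V → ℤ) → ℝ := fun y => ∏ p ∈ I, (wt p (c p) y - 1) with hD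
  set K : ℝ := 2 ^ Fintype.card V * (4 ^ J * η ^ (2 * I.card)) * B with hKd
  have hK0 : 0 ≤ K := by positivity
  have key : ∀ t t' : V → ℤ, 𝔼 l ∈ Pr.powerset, 𝔼 x, 𝔼 h ∈ bx a b,
      (∏ i, F t t' i (x + L i h)) * ((D (h + t) * D (h + t')) * WS Pr (tau σ I l) (c' t t' l) h) ≤
      K * 𝔼 ρ ∈ cell V (∏ p ∈ I, p), |D (ρ + t)| * |D (ρ + t')| := fun t t' => by
    refine le_UKOne _ (mul_nonneg hK0 (expect_nonneg fun _ _ => by positivity)) fun l _ => ?_
    have := h3 V r (2 * J) Pr I η M _ B (4 ^ J * η ^ (2 * I.card)) (fun p hp => (hPr p hp).1) hIp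
      a1 a2 (by positivity) hK A (F t t') L a b (tau σ I l) (c' t t' l)
      (fun h => D (h + t) * D (h + t')) (hF t t') (tau_le_UKOne hη hσ h0 I l)
      (fun S hS => tau_big_UKOne h0 I l S hS) (fun S hS => if_neg hS) hab (fun h ρ => by
        have e : ∀ u : V → ℤ,
            D ((fun v => ((∏ p ∈ I, p : ℕ) : ℤ) * h v + ρ v) + u) = D (ρ + u) := fun u =>
          prod_congr rfl fun p hp => by
            rw [wt_per_UKOne (by exact_mod_cast dvd_prod_of_mem (fun p => p) hp)]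
        rw [e, e])
    simp only [abs_mul] at this
    exact (le_abs_self _).trans this
  refine (expect_le_expect fun t _ => expect_le_expect fun t' _ => key t t').trans ?_
  have e : 𝔼 t ∈ cell V (Q ^ J), 𝔼 t' ∈ cell V (Q ^ J),
      K * 𝔼 ρ ∈ cell V (∏ p ∈ I, p), |D (ρ + t)| * |D (ρ + t')| =
      K * 𝔼 ρ ∈ cell V (∏ p ∈ I, p), (𝔼 t ∈ cell V (Q ^ J), |D (ρ + t)|) ^ 2 := by
    simp only [← mul_expect]
    congr 1
    simp only [sq, expect_mul_expect]
    rw [expect_comm (cell V (∏ p ∈ I, p))]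
    exact expect_congr rfl fun t _ => expect_comm _ _ _
  rw [e]
  have b : 𝔼 ρ ∈ cell V (∏ p ∈ I, p), (𝔼 t ∈ cell V (Q ^ J), |D (ρ + t)|) ^ 2 ≤
      (2 ^ I.card * 2 ^ Fintype.card V) ^ 2 :=
    le_UKOne _ (by positivity) fun ρ _ =>
      pow_le_pow_left₀ (expect_nonneg fun _ _ => abs_nonneg _) (h2 V I c ρ _ hIp hq) 2
  refine (mul_le_mul_of_nonneg_left b hK0).trans (le_of_eq ?_)
  rw [hKd, show (8 : ℝ) = 2 * 2 * 2 by norm_num, show (4 : ℝ) * η ^ 2 = 2 * 2 * η ^ 2 by ring]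
  simp only [mul_pow, pow_mul]
  ring

theorem sum_UKOne {Pr : Finset ℕ} {η : ℝ} (h : η ^ 2 * Pr.card ≤ 1) :
    ∑ I ∈ Pr.powerset, (4 * η ^ 2) ^ I.card ≤ 55 := by
  have e := sum_pow_mul_eq_add_pow (4 * η ^ 2) 1 Pr
  simp only [one_pow, mul_one] at e
  rw [e]
  have a1 : (4 * η ^ 2 + 1) ^ Pr.card ≤ Real.exp (4 * η ^ 2) ^ Pr.card :=
    pow_le_pow_left₀ (by positivity) (Real.add_one_le_exp _) _
  have a2 : Real.exp (4 * η ^ 2) ^ Pr.card ≤ Real.exp 1 ^ 4 := by
    rw [← Real.exp_nat_mul, ← Real.exp_nat_mul]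
    exact Real.exp_le_exp.2 (by push_cast; linarith)
  have a3 : Real.exp 1 ^ 4 ≤ 2.7182818286 ^ 4 :=
    pow_le_pow_left₀ (Real.exp_pos 1).le Real.exp_one_lt_d9.le 4
  have a4 : (2.7182818286 : ℝ) ^ 4 ≤ 55 := by norm_num
  linarith

theorem ks1_stmt (hS : ShiftStmt) (h1 : SplitStmt) (h2 : AbsStmt) (h3 : FrzStmt) (h4 : SupStmt) :
    Ks1Stmt := by
  intro V _ _ r J Q Pr η M B hQ hPr hη hη1 hc hM hB hK A _ _ F L a b σ c hF hσ h0 hab
  have hT : (0 : ℝ) < (Q : ℝ) ^ J := by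
    have : (0 : ℝ) < Q := by exact_mod_cast hQ
    positivity
  have hM0 : 0 < M := by linarith
  set L' : Fin r → (V → ℤ) →+ A := fun i => L i.succ - L 0 with hL'
  set P : A → (V → ℤ) → ℝ := fun x h => ∏ i : Fin r, F i.succ (x + L' i h) with hP
  set W : (V → ℤ) → ℝ := WS Pr σ c with hW
  set g : (V → ℤ) → ℝ := fun h => 𝔼 x, F 0 x * (P x h * W h) with hg
  set C := cell V (Q ^ J) with hC
  have hCne : C.Nonempty := by
    rw [← card_pos, hC, card_cell]
    positivity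
  have hP1 : ∀ x h, |P x h| ≤ 1 := fun x h => by
    rw [hP, abs_prod]
    exact prod_le_one (fun _ _ => abs_nonneg _) fun i _ => hF _ _
  have hWb : ∀ h, |W h| ≤ (Q : ℝ) ^ ((Fintype.card V + 1) * J) := fun h =>
    h4 V J Q Pr σ c h hQ hPr (fun S => (hσ S).trans (pow_le_one₀ hη.le hη1)) h0
  have hgb : ∀ h, |g h| ≤ (Q : ℝ) ^ ((Fintype.card V + 1) * J) := fun h =>
    abs_le_UKOne _ (by positivity) fun x _ => by
      rw [abs_mul, abs_mul]
      calc _ ≤ 1 * (1 * (Q : ℝ) ^ ((Fintype.card V + 1) * J)) :=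
            mul_le_mul (hF _ _) (mul_le_mul (hP1 _ _) (hWb _) (abs_nonneg _) zero_le_one)
              (by positivity) zero_le_one
        _ = _ := by ring
  have e1 : 𝔼 x, 𝔼 h ∈ bx a b, (∏ i, F i (x + L i h)) * W h = 𝔼 h ∈ bx a b, g h := by
    rw [expect_comm]
    refine expect_congr rfl fun h _ => ?_
    rw [hg]
    simp only
    rw [← MP.add_right (L 0 h) fun x => F 0 x * (P x h * W h)]
    refine expect_congr rfl fun x _ => ?_
    rw [Fin.prod_univ_succ, mul_assoc]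
    congr 2
    refine prod_congr rfl fun i _ => ?_
    congr 1
    simp only [hL', AddMonoidHom.sub_apply]
    abel
  set E : ℝ := 2 * Fintype.card V * (Q : ℝ) ^ ((Fintype.card V + 2) * J) / M with hE
  have hE0 : 0 ≤ E := by positivity
  have e2 : |𝔼 t ∈ C, 𝔼 h ∈ bx a b, g (h + t) - 𝔼 h ∈ bx a b, g h| ≤ E := by
    rw [← expect_const hCne (𝔼 h ∈ bx a b, g h), ← expect_sub_distrib]
    refine abs_le_UKOne _ hE0 fun t ht => ?_
    have ht' : ∀ v, |(t v : ℝ)| ≤ (Q : ℝ) ^ J := fun v => by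
      have b1 := mem_cell.1 ht v
      have b2 : |t v| ≤ ((Q ^ J : ℕ) : ℤ) := by rw [abs_le]; constructor <;> omega
      exact_mod_cast b2
    have b := hS V a b t M _ _ g hM0 hab ht' hgb
    rw [expect_eq_sum_div_card, expect_eq_sum_div_card, ← sub_div, abs_div, Nat.abs_cast]
    refine div_le_of_le_mul₀ (by positivity) hE0 (b.trans (le_of_eq ?_))
    rw [hE, show (Fintype.card V + 2) * J = J + (Fintype.card V + 1) * J by ring, pow_add]
    ring
  set G : A → (V → ℤ) → ℝ := fun x h => 𝔼 t ∈ C, P x (h + t) * W (h + t) with hG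
  have e3 : 𝔼 t ∈ C, 𝔼 h ∈ bx a b, g (h + t) = 𝔼 x, 𝔼 h ∈ bx a b, F 0 x * G x h := by
    rw [expect_comm C, expect_comm univ]
    refine expect_congr rfl fun h _ => ?_
    simp only [hg, hG, mul_expect]
    exact expect_comm _ _ _
  have e4 : (𝔼 x, 𝔼 h ∈ bx a b, F 0 x * G x h) ^ 2 ≤ 𝔼 x, 𝔼 h ∈ bx a b, G x h ^ 2 := by
    refine (sq_expect_UKOne _ _).trans (expect_le_expect fun x _ => ?_)
    refine (sq_expect_UKOne _ _).trans (expect_le_expect fun h _ => ?_)
    rw [mul_pow]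
    refine mul_le_of_le_one_left (sq_nonneg _) ?_
    rw [← sq_abs]
    exact pow_le_one₀ (abs_nonneg _) (hF _ _)
  set F' : (V → ℤ) → (V → ℤ) → Fin r → A → ℝ :=
    fun t t' i x => F i.succ (x + L' i t) * F i.succ (x + L' i t') with hF'
  set c' : (V → ℤ) → (V → ℤ) → Finset ℕ → ℕ → V → ℤ :=
    fun t t' l p => if p ∈ l then c p - t else c p - t' with hc'
  have hF1 : ∀ t t' i x, |F' t t' i x| ≤ 1 := fun t t' i x => by
    rw [hF', abs_mul]
    exact mul_le_one₀ (hF _ _) (abs_nonneg _) (hF _ _)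
  have e5 : ∀ (x : A) (h t t' : V → ℤ), P x (h + t) * W (h + t) * (P x (h + t') * W (h + t')) =
      ∑ I ∈ Pr.powerset, 𝔼 l ∈ Pr.powerset, (∏ i, F' t t' i (x + L' i h)) *
        (((∏ p ∈ I, (wt p (c p) (h + t) - 1)) * ∏ p ∈ I, (wt p (c p) (h + t') - 1)) *
          WS Pr (tau σ I l) (c' t t' l) h) := fun x h t t' => by
    have b1 : P x (h + t) * P x (h + t') = ∏ i, F' t t' i (x + L' i h) := by
      simp only [hP, hF', ← prod_mul_distrib, map_add, add_assoc]
    have b2 := h1 Pr σ (fun p => wt p (c p) (h + t) - 1) fun p => wt p (c p) (h + t') - 1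
    have b3 : ∀ I l : Finset ℕ, ∑ U ∈ Pr.powerset, tau σ I l U * ∏ p ∈ U,
        (if p ∈ l then wt p (c p) (h + t) - 1 else wt p (c p) (h + t') - 1) =
        WS Pr (tau σ I l) (c' t t' l) h := fun I l => by
      refine sum_congr rfl fun U _ => ?_
      congr 1
      refine prod_congr rfl fun p _ => ?_
      simp only [hc']
      split_ifs <;> rw [wt_shift_UKOne]
    simp only [b3] at b2
    rw [mul_mul_mul_comm, b1]
    simp only [← mul_expect, ← mul_sum]
    exact congrArg _ b2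
  have e6 : 𝔼 x, 𝔼 h ∈ bx a b, G x h ^ 2 = ∑ I ∈ Pr.powerset, 𝔼 t ∈ C, 𝔼 t' ∈ C,
      𝔼 l ∈ Pr.powerset, 𝔼 x, 𝔼 h ∈ bx a b, (∏ i, F' t t' i (x + L' i h)) *
        (((∏ p ∈ I, (wt p (c p) (h + t) - 1)) * ∏ p ∈ I, (wt p (c p) (h + t') - 1)) *
          WS Pr (tau σ I l) (c' t t' l) h) := by
    simp only [hG, sq, expect_mul_expect, e5, expect_sum_comm]
    refine sum_congr rfl fun I _ => ?_
    simp only [expect_comm (bx a b) C, expect_comm (univ : Finset A) C,
      expect_comm (bx a b) Pr.powerset, expect_comm (univ : Finset A) Pr.powerset]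
  have e7 : 𝔼 x, 𝔼 h ∈ bx a b, G x h ^ 2 ≤ 55 * 8 ^ Fintype.card V * 4 ^ J * B := by
    rw [e6]
    refine (sum_le_sum fun I hI => term_UKOne h2 h3 hQ hPr hη hM hB hK F' L' a b σ c c' hF1 hσ h0
      hab (mem_powerset.1 hI)).trans ?_
    rw [← mul_sum]
    refine (mul_le_mul_of_nonneg_left (sum_UKOne hc) (by positivity)).trans (le_of_eq ?_)
    ring
  have e8 := Real.abs_le_sqrt (e4.trans e7)
  rw [← e3] at e8
  rw [e1]
  have := abs_sub_abs_le_abs_sub (𝔼 h ∈ bx a b, g h) (𝔼 t ∈ C, 𝔼 h ∈ bx a b, g (h + t))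
  rw [abs_sub_comm] at this
  linarith

end Pool.Agent.MP_4fffd4_nt.AN

end
end

section

open Finset Filter
open scoped BigOperators ComplexConjugate Topology

noncomputable section

namespace Pool.Agent.MP_4fffd4_nt.AN

open Pool.Agent.MP_4fffd4_nt.SX

theorem cnt_UKZero {J Q : ℕ} {Pr : Finset ℕ} (hQ : 1 ≤ Q) (hPr : ∀ p ∈ Pr, p.Prime ∧ p ≤ Q) :
    (Pr.powerset.filter fun S => S.card ≤ J).card ≤ Q ^ J := by
  have h1 : Pr.card + 1 ≤ Q := by
    have : Pr ⊆ Icc 2 Q := fun p hp => mem_Icc.2 ⟨(hPr p hp).1.two_le, (hPr p hp).2⟩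
    have := card_le_card this
    rw [Nat.card_Icc] at this
    omega
  have h2 : (Pr.powerset.filter fun S => S.card ≤ J) ⊆
      (range (J + 1)).biUnion fun k => powersetCard k Pr := fun S hS => by
    rw [mem_filter, mem_powerset] at hS
    exact mem_biUnion.2 ⟨S.card, mem_range.2 (by omega), mem_powersetCard.2 ⟨hS.1, rfl⟩⟩
  refine (card_le_card h2).trans (card_biUnion_le.trans (le_trans ?_ (Nat.pow_le_pow_left h1 J)))
  rw [add_pow]
  refine sum_le_sum fun k hk => ?_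
  rw [card_powersetCard, one_pow, mul_one]
  exact (Nat.choose_le_pow _ _).trans
    (Nat.le_mul_of_pos_right _ (Nat.choose_pos (Nat.lt_succ_iff.1 (mem_range.1 hk))))

theorem fac_UKZero {V : Type} [Fintype V] {p Q : ℕ} (hp : 0 < p) (hQ : p ≤ Q) (c y : V → ℤ) :
    |wt p c y - 1| ≤ (Q : ℝ) ^ Fintype.card V := by
  have h3 : (p : ℝ) ^ Fintype.card V ≤ (Q : ℝ) ^ Fintype.card V :=
    pow_le_pow_left₀ (by positivity) (by exact_mod_cast hQ) _
  have h4 : (1 : ℝ) ≤ (p : ℝ) ^ Fintype.card V := one_le_pow₀ (by exact_mod_cast hp)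
  unfold wt
  rw [abs_le]
  split_ifs <;> constructor <;> linarith

theorem prod_UKZero {V : Type} [Fintype V] {J Q : ℕ} {S : Finset ℕ} (hQ : 1 ≤ Q)
    (hS : ∀ p ∈ S, p.Prime ∧ p ≤ Q) (hJ : S.card ≤ J) (c : ℕ → V → ℤ) (y : V → ℤ) :
    |∏ p ∈ S, (wt p (c p) y - 1)| ≤ (Q : ℝ) ^ (Fintype.card V * J) := by
  have h1 : (1 : ℝ) ≤ Q := by exact_mod_cast hQ
  rw [abs_prod, pow_mul]
  refine (prod_le_prod (fun _ _ => abs_nonneg _)
    fun p hp => fac_UKZero (hS p hp).1.pos (hS p hp).2 (c p) y).trans ?_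
  rw [prod_const]
  exact pow_le_pow_right₀ (one_le_pow₀ h1) hJ

theorem tot_UKZero {J Q : ℕ} {Pr : Finset ℕ} (hQ : 1 ≤ Q) (hPr : ∀ p ∈ Pr, p.Prime ∧ p ≤ Q)
    {E : ℝ} (hE : 0 ≤ E) :
    ∑ S ∈ Pr.powerset, (if S.card ≤ J then E else 0) ≤ (Q : ℝ) ^ J * E := by
  rw [← sum_filter, sum_const, nsmul_eq_mul]
  exact mul_le_mul_of_nonneg_right (by exact_mod_cast cnt_UKZero hQ hPr) hE

theorem sup_stmt : SupStmt := by
  intro V _ _ J Q Pr σ c h hQ hPr hσ hJ
  rw [add_mul, one_mul, pow_add, mul_comm]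
  refine (abs_sum_le_sum_abs _ _).trans (le_trans (sum_le_sum fun S hS => ?_)
    (tot_UKZero hQ hPr (by positivity)))
  split_ifs with h1
  · rw [abs_mul, ← one_mul ((Q : ℝ) ^ _)]
    exact mul_le_mul (hσ S) (prod_UKZero hQ (fun p hp => hPr p (mem_powerset.1 hS hp)) h1 c h)
      (abs_nonneg _) zero_le_one
  · rw [hJ S (not_le.1 h1), zero_mul, abs_zero]

theorem zero_UKZero (hS : ShiftStmt) {V W : Type} [Fintype V] [DecidableEq V] {M T B : ℝ}
    (hM : 0 < M) (hT : 0 ≤ T) (a b : V → ℤ) (hab : ∀ v, M ≤ (b v : ℝ) - a v) (s : Finset W)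
    (hs : s.Nonempty) (τ : W → V → ℤ) (hτ : ∀ t ∈ s, ∀ v, |(τ t v : ℝ)| ≤ T) (g : (V → ℤ) → ℝ)
    (hg : ∀ y, |g y| ≤ B) (h0 : ∀ y, ∑ t ∈ s, g (y + τ t) = 0) :
    |𝔼 y ∈ bx a b, g y| ≤ 2 * Fintype.card V * T / M * B := by
  have hB : 0 ≤ B := (abs_nonneg _).trans (hg 0)
  have h1 : ∑ t ∈ s, ∑ y ∈ bx a b, g (y + τ t) = 0 := by
    rw [sum_comm]
    exact sum_eq_zero fun y _ => h0 y
  have e : ∀ x : ℝ, (s.card : ℝ) * x = ∑ _t ∈ s, x := fun x => by simp
  have h2 : |∑ t ∈ s, ∑ y ∈ bx a b, g (y + τ t) - (s.card : ℝ) * ∑ y ∈ bx a b, g y| ≤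
      (s.card : ℝ) * (2 * Fintype.card V * T / M * B * (bx a b).card) := by
    rw [e, e, ← sum_sub_distrib]
    exact (abs_sum_le_sum_abs _ _).trans
      (sum_le_sum fun t ht => hS V a b (τ t) M T B g hM hab (hτ t ht) hg)
  rw [h1, zero_sub, abs_neg, abs_mul, Nat.abs_cast] at h2
  have h5 := le_of_mul_le_mul_left h2 (by exact_mod_cast hs.card_pos)
  rw [expect_eq_sum_div_card, abs_div, Nat.abs_cast]
  exact div_le_of_le_mul₀ (by positivity) (by positivity) h5

theorem sum_UKZero {V : Type} [Fintype V] [DecidableEq V] {p : ℕ} (hp : 0 < p) {m : ℤ}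
    (hm : IsCoprime m p) (c y : V → ℤ) :
    ∑ t ∈ cell V p, (wt p c (y + m • t) - 1) = 0 := by
  obtain ⟨u, w, huw⟩ := hm
  have e : ∀ t : V → ℤ, wt p c (y + m • t) = wt p 0 (u • (y - c) + t) := fun t => by
    unfold wt
    refine if_congr (forall_congr' fun v => ?_) rfl rfl
    simp only [Pi.add_apply, Pi.smul_apply, Pi.sub_apply, Pi.zero_apply, smul_eq_mul, sub_zero]
    constructor
    · rintro ⟨k, hk⟩
      exact ⟨u * k + w * t v, by linear_combination u * hk - t v * huw⟩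
    · rintro ⟨k, hk⟩
      exact ⟨m * k + w * (y v - c v), by linear_combination m * hk - (y v - c v) * huw⟩
  simp only [e]
  rw [sum_sub_distrib, sum_wt_Kl hp]
  simp [card_cell]

theorem term_UKZero (hS : ShiftStmt) {V : Type} [Fintype V] [DecidableEq V] {J Q : ℕ}
    {S : Finset ℕ} (hQ : 1 ≤ Q) (hP : ∀ p ∈ S, p.Prime ∧ p ≤ Q) (hJ : S.card ≤ J)
    (hne : S.Nonempty) {M : ℝ} (hM : 0 < M) (a b : V → ℤ) (hab : ∀ v, M ≤ (b v : ℝ) - a v)
    (c : ℕ → V → ℤ) : |𝔼 y ∈ bx a b, ∏ p ∈ S, (wt p (c p) y - 1)| ≤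
      2 * Fintype.card V * (Q : ℝ) ^ J / M * (Q : ℝ) ^ (Fintype.card V * J) := by
  obtain ⟨q, hq⟩ := hne
  have hq0 := (hP q hq).1.pos
  have hm : IsCoprime ((∏ p ∈ S.erase q, p : ℕ) : ℤ) q :=
    Nat.isCoprime_iff_coprime.2 (Nat.Coprime.prod_left fun p hp =>
      (Nat.coprime_primes (hP p (mem_of_mem_erase hp)).1 (hP q hq).1).2 (ne_of_mem_erase hp))
  have hle : q * ∏ p ∈ S.erase q, p ≤ Q ^ J := by
    rw [mul_prod_erase S (fun p => p) hq]
    exact (prod_le_pow_card S _ _ fun p hp => (hP p hp).2).trans (Nat.pow_le_pow_right hQ hJ)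
  refine zero_UKZero hS hM (by positivity) a b hab (cell V q) ⟨_, rs_mem_cell hq0 0⟩
    (fun t => ((∏ p ∈ S.erase q, p : ℕ) : ℤ) • t) (fun t ht v => ?_) _
    (prod_UKZero hQ hP hJ c) fun y => ?_
  · have h1 := mem_cell.1 ht v
    generalize ∏ p ∈ S.erase q, p = m at hle
    have h2 : |(m : ℤ) * t v| ≤ ((Q ^ J : ℕ) : ℤ) := by
      rw [abs_of_nonneg (mul_nonneg (Int.natCast_nonneg m) h1.1)]
      refine (mul_le_mul_of_nonneg_left h1.2.le (Int.natCast_nonneg m)).trans ?_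
      rw [mul_comm]
      exact_mod_cast hle
    rw [Pi.smul_apply, smul_eq_mul]
    exact_mod_cast h2
  · have e : ∀ t : V → ℤ, ∏ p ∈ S, (wt p (c p) (y + ((∏ p ∈ S.erase q, p : ℕ) : ℤ) • t) - 1) =
        (wt q (c q) (y + ((∏ p ∈ S.erase q, p : ℕ) : ℤ) • t) - 1) *
          ∏ p ∈ S.erase q, (wt p (c p) y - 1) := fun t => by
      rw [← mul_prod_erase S _ hq]
      refine congrArg _ (prod_congr rfl fun p hp => congrArg (· - 1) ?_)
      obtain ⟨k, hk⟩ := dvd_prod_of_mem (fun p : ℕ => p) hp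
      unfold wt
      refine if_congr (forall_congr' fun v => ?_) rfl rfl
      rw [hk, Pi.add_apply, Pi.smul_apply, smul_eq_mul, add_sub_right_comm]
      refine dvd_add_left ?_
      exact ⟨k * t v, by push_cast; ring⟩
    simp only [e]
    rw [← sum_mul, sum_UKZero hq0 hm, zero_mul]

theorem ks0_stmt (hS : ShiftStmt) : Ks0Stmt := by
  intro V _ _ J Q Pr η M hQ hPr hη0 hη1 hM A _ _ F L a b σ c _ hσ hJ hab
  simp only [univ_eq_empty, prod_empty, one_mul]
  rw [Fintype.expect_const]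
  have hσ1 : ∀ S, |σ S| ≤ 1 := fun S => (hσ S).trans (pow_le_one₀ hη0 hη1)
  have hE : 0 ≤ 2 * Fintype.card V * (Q : ℝ) ^ J / M * (Q : ℝ) ^ (Fintype.card V * J) := by
    positivity
  have e : 1 + 2 * Fintype.card V * (Q : ℝ) ^ ((Fintype.card V + 2) * J) / M =
      ∑ S ∈ Pr.powerset, (if S = ∅ then (1 : ℝ) else 0) + (Q : ℝ) ^ J *
        (2 * Fintype.card V * (Q : ℝ) ^ J / M * (Q : ℝ) ^ (Fintype.card V * J)) := by
    rw [sum_ite_eq', if_pos (empty_mem_powerset _)]
    ring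
  rw [e]
  unfold WS
  rw [expect_sum_comm]
  refine (abs_sum_le_sum_abs _ _).trans (le_trans ?_ (add_le_add le_rfl (tot_UKZero hQ hPr hE)))
  rw [← sum_add_distrib]
  refine sum_le_sum fun S hS' => ?_
  rw [← mul_expect, abs_mul]
  by_cases h1 : S.card ≤ J
  · rw [if_pos h1]
    refine (mul_le_of_le_one_left (abs_nonneg _) (hσ1 S)).trans ?_
    rcases S.eq_empty_or_nonempty with rfl | hne
    · rw [if_pos rfl]
      refine le_add_of_le_of_nonneg ?_ hE
      simp only [prod_empty]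
      rcases (bx a b).eq_empty_or_nonempty with h2 | h2
      · rw [h2, expect_empty, abs_zero]
        exact zero_le_one
      · rw [expect_const h2, abs_one]
    · rw [if_neg hne.ne_empty, zero_add]
      exact term_UKZero hS hQ (fun p hp => hPr p (mem_powerset.1 hS' hp)) h1 hne hM a b hab c
  · rw [hJ S (not_le.1 h1), abs_zero, zero_mul, if_neg h1, add_zero]
    split_ifs
    exacts [zero_le_one, le_rfl]

end Pool.Agent.MP_4fffd4_nt.AN

end
end

section

/-!
The lifting step with the square root saving.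
-/

namespace Pool.Agent.MP_4fffd4_nt.AN

open Pool.Agent.MP_4fffd4_nt.SX

theorem klSharp_all : KlSharpStmt :=
  klSharp_stmt (ks0_stmt shift_stmt)
    (ks1_stmt shift_stmt split_stmt (abs_stmt cls_stmt) (frz_stmt cls_stmt) sup_stmt)

theorem liftSharp_all : LiftSharpStmt :=
  liftSharp_stmt (rs_stmt shift_stmt) klSharp_all
    (mDec_stmt shift_stmt dec_all (rs_stmt shift_stmt)) hDec_stmt scale_stmt

end Pool.Agent.MP_4fffd4_nt.AN

end
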