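import Pool.Agent.Mg.F4fffd4.G3529f8
import Pool.Agent.Mg.F4fffd4.G7a216a

set_option linter.all false


section

/-!
Assembly of the global steps for every exponent below one third.
-/

open Finset Filter
open scoped BigOperators ComplexConjugate Topology

noncomputable section

namespace Pool.Agent.MP_4fffd4_nt.AN

open Pool.Agent.MP_4fffd4_nt.SX

theorem miss_UMain (hM : MonoStmt) {c : ℝ} (hc : c ≤ 1 / 2) {L : ℕ} (hL : 4 ≤ L)
    (h : ((pat L).ncard : ℝ) < Real.exp ((L : ℝ) ^ c)) :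
    ∃ (s : ℕ) (v : Fin (s + 1) → ℤ), 1 ≤ s ∧ (∀ i, v i = 1 ∨ v i = -1) ∧ v ∉ pat (s + 1) := by
  obtain ⟨s, rfl⟩ : ∃ s, L = s + 1 := ⟨L - 1, by omega⟩
  obtain ⟨v, hv, hv'⟩ := hM.2 s (by
    have h4 : (4 : ℝ) ≤ ((s + 1 : ℕ) : ℝ) := by exact_mod_cast hL
    have h5 : ((s + 1 : ℕ) : ℝ) ^ (1 / 2 : ℝ) ≤ ((s + 1 : ℕ) : ℝ) * Real.log 2 := by
      rw [← Real.sqrt_eq_rpow]
      have h6 := Real.log_two_gt_d9
      refine Real.sqrt_le_iff.2 ⟨by positivity, ?_⟩
      have h7 : (2 : ℝ) ≤ ((s + 1 : ℕ) : ℝ) * Real.log 2 := by nlinarith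
      have h8 : (1 : ℝ) ≤ ((s + 1 : ℕ) : ℝ) * Real.log 2 * Real.log 2 := by nlinarith
      nlinarith
    have h7 := (Real.rpow_le_rpow_of_exponent_le (by linarith) hc).trans h5
    have h6 := h.trans_le (Real.exp_le_exp.2 h7)
    rw [Real.exp_nat_mul, Real.exp_log two_pos] at h6
    exact_mod_cast h6)
  exact ⟨s, v, by omega, hv, hv'⟩

end Pool.Agent.MP_4fffd4_nt.AN

end
end

section

/-!
Assembly of the global steps with windows of length x ^ (1 - θ).
-/

open Finset Filter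
open scoped BigOperators ComplexConjugate Topology

noncomputable section

namespace Pool.Agent.MP_4fffd4_nt.AN

open Pool.Agent.MP_4fffd4_nt.SX

theorem wMain_stmt (hC : ChebStmt) (hU : ∀ s : ℕ, 1 ≤ s → GP (s + 1)) (hT : WTopStmt)
    (hL : LiftSharpStmt) (hB : BaseRStmt) (hM : MonoStmt) (hN : WNumStmt) : WMainStmt := by
  by_contra hn
  unfold WMainStmt at hn
  push Not at hn
  obtain ⟨L, hL3, hL4⟩ := hn 1 one_pos 4
  obtain ⟨s, v, hs, hv, hv'⟩ := miss_UMain hM le_rfl hL3 (hL4.trans_le (Real.exp_le_exp.2 (by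
    have h4 : (4 : ℝ) ≤ L := by exact_mod_cast hL3
    have h5 : 1 ≤ Real.log L := by
      rw [Real.le_log_iff_exp_le (by linarith)]
      linarith [Real.exp_one_lt_d9]
    rw [one_mul]
    exact (Real.rpow_le_rpow (by positivity) (div_le_self (by linarith) h5) (by norm_num)).trans
      (Real.rpow_le_rpow_of_exponent_le (by linarith) (by norm_num)))))
  obtain ⟨C, A₀, hC0, hL'⟩ := hL s s
  obtain ⟨δ, hδ, n₁, hB'⟩ := hB s (A₀ + 4) v hs (by omega) hv hv'
  have hs1 : (0 : ℝ) < (s : ℝ) + 1 := by positivity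
  obtain ⟨θ, K₂, hθ, hT'⟩ := hT s s hs (hU s hs) (δ / (4 * ((s : ℝ) + 1))) (by positivity)
  obtain ⟨c, hc0, n₂, hN'⟩ := hN s (A₀ + 4) (8 * (1 + s * s)) (δ / (2 * (((s : ℝ) + 1) * C))) θ
    (by omega) (by positivity) hθ
  obtain ⟨K₃, hC'⟩ := eventually_atTop.1 hC
  obtain ⟨n, hn1, hn2⟩ := hn c hc0 (n₁ + n₂ + ⌈K₂⌉₊ + 8 * (1 + s * s) * (⌈K₃⌉₊ + 4))
  obtain ⟨j, i, a5, a6, a7, a13, a14⟩ := hN' n (by omega)
  have hnc : (0 : ℝ) ≤ c * ((n : ℝ) / Real.log n) ^ (1 / 3 : ℝ) := by positivity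
  generalize c * ((n : ℝ) / Real.log n) ^ (1 / 3 : ℝ) = E at hn2 a6 hnc
  obtain ⟨B, hB⟩ : ∃ B : ℝ, B = 8 * (1 + (s : ℝ) * s) := ⟨_, rfl⟩
  have hBc : ((8 * (1 + s * s) : ℕ) : ℝ) = B := by rw [hB]; push_cast; ring
  rw [hBc] at a13 a14
  have hss : (0 : ℝ) ≤ (s : ℝ) * s := by positivity
  have hB8 : 8 ≤ B := by rw [hB]; linarith
  obtain ⟨P, hP⟩ : ∃ P : ℝ, P = (n : ℝ) / B := ⟨_, rfl⟩
  rw [← hP] at a13 a14
  have hPB : P * B = n := by rw [hP]; field_simp
  have b0 : B * (⌈K₃⌉₊ + 4) ≤ n := by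
    rw [← hBc]
    exact_mod_cast (by omega : 8 * (1 + s * s) * (⌈K₃⌉₊ + 4) ≤ n)
  have b1 : (⌈K₃⌉₊ : ℝ) + 4 ≤ P := by
    rw [hP, le_div_iff₀ (by linarith)]
    linarith
  have b3 : K₃ ≤ P := by linarith [Nat.le_ceil K₃]
  have hP4 : 4 ≤ P := by linarith [Nat.cast_nonneg (α := ℝ) ⌈K₃⌉₊]
  have hPn : 8 * P ≤ n := by nlinarith
  have hBn : 4 * B ≤ n := by nlinarith
  have hn32 : (32 : ℝ) ≤ n := by linarith
  have b2 : K₂ ≤ n := (Nat.le_ceil K₂).trans (by exact_mod_cast (by omega : ⌈K₂⌉₊ ≤ n))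
  obtain ⟨K₀, hK₀⟩ : ∃ K₀ : ℝ, K₀ = (n : ℝ) ^ (A₀ + 4) := ⟨_, rfl⟩
  obtain ⟨Y, hY⟩ : ∃ Y : ℝ, Y = (n : ℝ) ^ (2 * (A₀ + 4) + 4 * j) := ⟨_, rfl⟩
  rw [← hK₀, ← hY] at a14
  have hnK : (n : ℝ) ≤ K₀ := hK₀ ▸ le_self_pow₀ (by linarith) (by omega)
  have hnY : (n : ℝ) ≤ Y := hY ▸ le_self_pow₀ (by linarith) (by omega)
  have hlog : 0 < Real.log P := Real.log_pos (by linarith)
  have hcard := hC' P b3
  have hc0 : (0 : ℝ) < (prs P).card := lt_of_lt_of_le (by positivity) hcard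
  have hne : (prs P).Nonempty := card_pos.1 (by exact_mod_cast hc0)
  have hpat : ∀ m : ℕ, (m : ℝ) ≤ n → ((pat m).ncard : ℝ) ≤ Real.exp E := fun m hm =>
    le_trans (by exact_mod_cast hM.1 m n (by exact_mod_cast hm)) hn2.le
  have hQ : (⌊2 * P⌋₊ : ℝ) ≤ 2 * P := Nat.floor_le (by linarith)
  have hPr : ∀ p ∈ prs P, p.Prime ∧ p ≤ ⌊2 * P⌋₊ := fun p hp =>
    ⟨(mem_filter.1 hp).2, (mem_Ioc.1 (mem_filter.1 hp).1).2⟩
  have hcQ : ((prs P).card : ℝ) ≤ 2 * P := by
    refine le_trans ?_ hQ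
    have : (prs P).card ≤ ⌊2 * P⌋₊ := by
      refine (card_filter_le _ _).trans ?_
      rw [Nat.card_Ioc]
      exact Nat.sub_le _ _
    exact_mod_cast this
  have hR : 4 * (((1 + s * s) * ⌊2 * P⌋₊ : ℕ) : ℝ) ≤ n := by
    push_cast
    calc 4 * ((1 + (s : ℝ) * s) * ⌊2 * P⌋₊) ≤ 4 * ((1 + (s : ℝ) * s) * (2 * P)) := by gcongr
      _ = P * B := by rw [hB]; ring
      _ = n := hPB
  set w : ℝ := Real.sqrt (j / (P / (4 * Real.log P))) with hw
  have hw0 : 0 ≤ w := by positivity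
  have key := iter_Main (fun K => ∑ i : Fin (s + 1), AE (ee i) Y K) K₀ P δ (((s : ℝ) + 1) * C * w)
    (by linarith) (by linarith) (by positivity) (fun K h1 h2 => by
      refine hB' n j Y K (by omega) a5 a7 ?_ (hK₀ ▸ h1) (h2.trans ?_) hY.ge
      · refine (pow_le_pow_left₀ (by positivity) hn2.le _).trans ?_
        rw [← Real.exp_nat_mul, Real.exp_le_exp]
        refine le_trans (mul_le_mul_of_nonneg_right ?_ hnc) a6
        exact_mod_cast (Nat.lt_two_pow_self (n := s + 1)).le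
      · rw [pow_succ', ← hK₀]
        exact mul_le_mul_of_nonneg_right (by linarith) (by linarith))
    (fun K h1 => by
      have hi : ∀ i : Fin (s + 1), 𝔼 p ∈ prs P, AE (ee i) Y (K / p) - C * w ≤ AE (ee i) Y K := by
        intro i
        have h2 := hL' (ee i) Y K ⌊2 * P⌋₊ ((1 + s * s) * ⌊2 * P⌋₊) j (prs P)
          (fun k => (ee_Main i k).2) (by linarith) hPr hne a5 le_rfl (by linarith) ?_ ?_ ?_
        · have h3 : Real.sqrt (j / (prs P).card) ≤ w := by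
            rw [hw]
            gcongr
          have h4 : C * Real.sqrt (j / (prs P).card) ≤ C * w := by gcongr
          linarith [(abs_le.1 h2).1]
        · have h3 : ((2 * ((1 + s * s) * ⌊2 * P⌋₊) + 1 : ℕ) : ℝ) ≤ n := by
            rw [Nat.cast_add, Nat.cast_mul, Nat.cast_ofNat, Nat.cast_one]
            linarith
          refine (pow_le_pow_left₀ (by positivity) (hpat _ h3) _).trans ?_
          rw [← Real.exp_nat_mul, Real.exp_le_exp]
          push_cast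
          exact a6
        · have h3 : (⌊2 * P⌋₊ : ℝ) ^ (2 * j) * ((prs P).card : ℝ) ^ j ≤ (n : ℝ) ^ (3 * j) := by
            rw [show 3 * j = 2 * j + j by ring, pow_add]
            exact mul_le_mul (pow_le_pow_left₀ (by positivity) (by linarith) _)
              (pow_le_pow_left₀ (by positivity) (by linarith) _) (by positivity) (by positivity)
          have h4 : (n : ℝ) ^ (3 * j) * n ≤ Y := by
            rw [← pow_succ, hY]
            exact pow_le_pow_right₀ (by linarith) (by omega)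
          have h5 : (1 : ℝ) ≤ (n : ℝ) ^ (3 * j) := one_le_pow₀ (by linarith)
          have h6 : Y ≤ Y * K := le_mul_of_one_le_right (by linarith) (by linarith)
          nlinarith
        · have h3 : (2 * (⌊2 * P⌋₊ : ℝ)) ^ A₀ ≤ (n : ℝ) ^ A₀ :=
            pow_le_pow_left₀ (by positivity) (by linarith) _
          have h4 : (n : ℝ) ^ A₀ * n ≤ K₀ := by
            rw [← pow_succ, hK₀]
            exact pow_le_pow_right₀ (by linarith) (by omega)
          have h5 : (1 : ℝ) ≤ (n : ℝ) ^ A₀ := one_le_pow₀ (by linarith)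
          nlinarith
      obtain ⟨p, hp, hp'⟩ := exists_le_of_le_expect hne
        (le_refl (𝔼 p ∈ prs P, -∑ i : Fin (s + 1), AE (ee i) Y (K / p)))
      obtain ⟨-, p1, p2⟩ := (mem_prs (by linarith)).1 hp
      refine ⟨p, p1.le, p2, ?_⟩
      have h2 := sum_le_sum fun i (_ : i ∈ univ) => hi i
      rw [sum_sub_distrib, ← expect_sum_comm] at h2
      rw [expect_neg_distrib] at hp'
      simp only [sum_const, card_univ, Fintype.card_fin, nsmul_eq_mul] at h2
      push_cast at h2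
      linarith) i (K₀ * P ^ i) (le_mul_of_one_le_right (by linarith) (one_le_pow₀ (by linarith)))
    le_rfl
  have h1 : ∑ k : Fin (s + 1), AE (ee k) Y (K₀ * P ^ i) ≤ δ / 4 := by
    have h2 := sum_le_card_nsmul univ _ _ fun k (_ : k ∈ (univ : Finset (Fin (s + 1)))) =>
      hT' (ee k) Y (K₀ * P ^ i) (ee_Main k)
        ((b2.trans hnK).trans (le_mul_of_one_le_right (by linarith) (one_le_pow₀ (by linarith))))
        (by linarith) a14
    rw [card_univ, Fintype.card_fin, nsmul_eq_mul] at h2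
    refine h2.trans_eq ?_
    push_cast
    field_simp
  have h2 : (i : ℝ) * (((s : ℝ) + 1) * C * w) ≤ δ / 2 := by
    rw [le_div_iff₀ (by positivity)] at a13
    linarith
  beta_reduce at key
  linarith

end Pool.Agent.MP_4fffd4_nt.AN

end
end
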