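import Pool.Agent.Mg.F4fffd4.G3529f8
import Pool.Agent.Mg.F4fffd4.G28422a
import Pool.Agent.Mg.F4fffd4.G7a216a
import Pool.Agent.Mg.F4fffd4.G918e37
import Pool.Agent.Mg.F4fffd4.G86bb1c
import Pool.Agent.Mg.F4fffd4.G7c5b4d
import Pool.Agent.Mg.F4fffd4.Gb8940b

set_option linter.all false


section

open Finset Filter
open scoped BigOperators ComplexConjugate Topology

noncomputable section

namespace Pool.Agent.MP_4fffd4_nt.AN

open Pool.Agent.MP_4fffd4_nt.SX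

/-- The weights on the vertices. -/
def ww_TopC (f : ℤ → ℝ) (s n : ℕ) (a b : ℤ) (ω : Fin s → Bool) (x : ZMod (n + 1)) : ℝ :=
  (if ω = fun _ => false then (if a < (x.val : ℤ) ∧ (x.val : ℤ) ≤ b then 1 else 0) else 1) *
    f (x.val : ℤ)

theorem xx_eq_TopC (f : ℤ → ℝ) {s n : ℕ} (e : Fin s → ℤ) (a b : ℤ) (h : Fin s → ℤ) (ha : 0 ≤ a)
    (hb : b ≤ n)
    (hz : ∀ m ∈ Ioc a b, ∀ ω : Fin s → Bool,
      0 ≤ m + ∑ j, (if ω j then e j * h j else 0) ∧ m + ∑ j, (if ω j then e j * h j else 0) ≤ n) :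
    XX f e a b h = ∑ x : ZMod (n + 1),
      ∏ ω, ww_TopC f s n a b ω (x + dot ω fun j => ((e j * h j : ℤ) : ZMod (n + 1))) := by
  have hv : ∀ z : ℤ, 0 ≤ z → z ≤ n → (((z : ZMod (n + 1)).val : ℕ) : ℤ) = z := by
    intro z h0 h1
    rw [ZMod.val_intCast]
    exact Int.emod_eq_of_lt h0 (by push_cast; omega)
  have h1 : ∀ x : ZMod (n + 1),
      ∏ ω, ww_TopC f s n a b ω (x + dot ω fun j => ((e j * h j : ℤ) : ZMod (n + 1))) =
      if a < (x.val : ℤ) ∧ (x.val : ℤ) ≤ b then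
        ∏ ω : Fin s → Bool,
          f (((x + dot ω fun j => ((e j * h j : ℤ) : ZMod (n + 1))).val : ℕ) : ℤ) else 0 := by
    intro x
    unfold ww_TopC
    rw [prod_mul_distrib, prod_ite_eq' univ (fun _ : Fin s => false)]
    simp only [mem_univ, if_true, dot_false, add_zero]
    split_ifs <;> simp
  simp only [h1]
  rw [← sum_filter]
  unfold XX
  refine sum_nbij' (fun m => (m : ZMod (n + 1))) (fun x => ((x.val : ℕ) : ℤ)) ?_ ?_ ?_ ?_ ?_
  · intro m hm
    have hm' := mem_Ioc.1 hm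
    refine mem_filter.2 ⟨mem_univ _, ?_⟩
    rw [hv m (by omega) (by omega)]
    exact hm'
  · intro x hx
    exact mem_Ioc.2 (mem_filter.1 hx).2
  · intro m hm
    have hm' := mem_Ioc.1 hm
    exact hv m (by omega) (by omega)
  · intro x _
    simp
  · intro m hm
    refine prod_congr rfl fun ω _ => ?_
    have h2 : ((m : ZMod (n + 1)) + dot ω fun j => ((e j * h j : ℤ) : ZMod (n + 1))) =
        ((m + ∑ j, (if ω j then e j * h j else 0) : ℤ) : ZMod (n + 1)) := by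
      unfold dot
      rw [Int.cast_add, Int.cast_sum]
      congr 1
      refine sum_congr rfl fun j _ => ?_
      split_ifs <;> simp
    rw [h2, hv _ (hz m hm ω).1 (hz m hm ω).2]

theorem core_TopC (hG : GiStmt) (hO : GiOptStmt) {s n : ℕ} (hs : 1 ≤ s) (x₀ : ℕ) (a b : ℤ) (η : ℝ)
    (hη : 0 ≤ η) (hU : (UU (Option (Fin s)) (fw x₀ n)).re ≤ η ^ 2 ^ (s + 1)) :
    ∑ k : Fin s → ZMod (n + 1),
      (∑ x, ∏ ω, ww_TopC (fun z => lam (x₀ + z)) s n a b ω (x + dot ω k)) ^ 2 ≤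
      ((n : ℝ) + 1) ^ (s + 2) * η := by
  have h1 := hG (Option (Fin s)) (ZMod (n + 1))
    (fun ω' x => ((ww_TopC (fun z => lam (x₀ + z)) s n a b (fun i => ω' (some i)) x : ℝ) : ℂ))
    (fun _ => true) (by
      intro ω _ x
      rw [Complex.norm_real, Real.norm_eq_abs]
      unfold ww_TopC
      rw [abs_mul, abs_lam, mul_one]
      split_ifs <;> simp)
  have h2 : (fun x : ZMod (n + 1) =>
      ((ww_TopC (fun z => lam (x₀ + z)) s n a b (fun _ => true) x : ℝ) : ℂ)) = fw x₀ n := by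
    funext x
    have : (fun _ : Fin s => true) ≠ fun _ => false := fun hh => by
      simpa using congrFun hh ⟨0, hs⟩
    simp [ww_TopC, this, fw]
  rw [gi_sq_Top hO, h2, Fintype.card_option, Fintype.card_fin, Complex.norm_real,
    Real.norm_eq_abs] at h1
  have h3 := (pow_le_pow_iff_left₀ (abs_nonneg _) hη (by positivity)).1 (h1.trans hU)
  have h4 := (le_abs_self _).trans h3
  have hq : (0 : ℝ) < (n : ℝ) + 1 := by positivity
  simp only [Fintype.expect_eq_sum_div_card, Fintype.card_fun, ZMod.card, Fintype.card_fin,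
    div_pow] at h4
  rw [← sum_div, div_div, div_le_iff₀ (by positivity)] at h4
  push_cast at h4
  calc _ ≤ _ := h4
    _ = _ := by ring

theorem shift_TopC {s : ℕ} (e : Fin s → ℤ) (x a b : ℤ) (h : Fin s → ℤ) :
    XX lam e (x + a) (x + b) h = XX (fun z => lam (x + z)) e a b h := by
  unfold XX
  refine sum_nbij' (fun m => m - x) (fun m => x + m) ?_ ?_ ?_ ?_ ?_
  · intro m hm
    have := mem_Ioc.1 hm
    exact mem_Ioc.2 (by constructor <;> omega)
  · intro m hm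
    have := mem_Ioc.1 hm
    exact mem_Ioc.2 (by constructor <;> omega)
  · intro m _
    ring
  · intro m _
    ring
  · intro m _
    refine prod_congr rfl fun ω _ => ?_
    congr 1
    ring

theorem cut_TopC (g : ℤ → ℝ) (a b : ℤ) (T k : ℕ) :
    ∑ m ∈ Ioc a (min b (a + k * T)), g m =
      ∑ i ∈ range k, ∑ m ∈ Ioc (a + i * T) (min b (a + i * T + T)), g m := by
  induction k with
  | zero => simp
  | succ k ih =>
    have h0 : (0 : ℤ) ≤ k * T := by positivity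
    have h1 : (((k + 1 : ℕ) : ℤ)) * T = k * T + T := by push_cast; ring
    rw [sum_range_succ, ← ih, h1, ← sum_union]
    · refine sum_congr ?_ fun _ _ => rfl
      ext m
      simp only [mem_union, mem_Ioc, le_min_iff]
      omega
    · rw [disjoint_left]
      intro m h2 h3
      simp only [mem_Ioc, le_min_iff] at h2 h3
      omega

theorem block_TopC (hG : GiStmt) (hO : GiOptStmt) {s L T : ℕ} (hs : 1 ≤ s) (e : Fin s → ℤ)
    (he : ∀ j, e j ≠ 0 ∧ |e j| ≤ L) (x₀ : ℕ) (b : ℤ) (η : ℝ) (hη : 0 ≤ η)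
    (H : Finset (Fin s → ℤ)) (hH : ∀ h ∈ H, ∀ j, |h j| ≤ T) (hb : b ≤ (s * L * T : ℕ) + (T : ℤ))
    (hU : (UU (Option (Fin s)) (fw x₀ (2 * (s * L * T) + T))).re ≤ η ^ 2 ^ (s + 1)) :
    ∑ h ∈ H, XX lam e (x₀ + (s * L * T : ℕ)) (x₀ + b) h ^ 2 ≤
      (((2 * (s * L * T) + T : ℕ) : ℝ) + 1) ^ (s + 2) * η := by
  set n := 2 * (s * L * T) + T with hn
  have heh : ∀ h ∈ H, ∀ j, |e j * h j| ≤ (L * T : ℕ) := by
    intro h hh j
    rw [abs_mul]
    push_cast
    exact mul_le_mul (he j).2 (hH h hh j) (abs_nonneg _) (by positivity)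
  have hxx : ∀ h ∈ H, XX lam e (x₀ + (s * L * T : ℕ)) (x₀ + b) h = ∑ x : ZMod (n + 1),
      ∏ ω, ww_TopC (fun z => lam (x₀ + z)) s n (s * L * T : ℕ) b ω
        (x + dot ω fun j => ((e j * h j : ℤ) : ZMod (n + 1))) := by
    intro h hh
    rw [shift_TopC]
    refine xx_eq_TopC _ e _ _ h (by positivity) (by omega) ?_
    intro m hm ω
    have hm' := mem_Ioc.1 hm
    have h4 : |∑ j, (if ω j then e j * h j else 0)| ≤ ((s * L * T : ℕ) : ℤ) := by
      refine (abs_sum_le_sum_abs _ _).trans ?_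
      calc _ ≤ ∑ _j : Fin s, ((L * T : ℕ) : ℤ) := by
            refine sum_le_sum fun j _ => ?_
            split_ifs
            · exact heh h hh j
            · rw [abs_zero]
              positivity
        _ = _ := by
            rw [sum_const, card_univ, Fintype.card_fin, nsmul_eq_mul]
            push_cast
            ring
    have h6 := abs_le.1 h4
    constructor <;> omega
  have hinj : Set.InjOn (fun (h : Fin s → ℤ) j => ((e j * h j : ℤ) : ZMod (n + 1))) H := by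
    intro h hh h' hh' heq
    funext j
    have h1 : ((n + 1 : ℕ) : ℤ) ∣ e j * h' j - e j * h j :=
      (ZMod.intCast_eq_intCast_iff_dvd_sub _ _ _).1 (congrFun heq j)
    have h2 := abs_le.1 (heh h hh j)
    have h3 := abs_le.1 (heh h' hh' j)
    have h4 : L * T ≤ s * L * T := by
      rw [mul_assoc]
      exact Nat.le_mul_of_pos_left _ hs
    have h5 := Int.eq_zero_of_abs_lt_dvd h1 (abs_lt.2 (by constructor <;> omega))
    exact (mul_left_cancel₀ (he j).1 (sub_eq_zero.1 h5)).symm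
  refine le_trans ?_ (core_TopC hG hO hs x₀ (s * L * T : ℕ) b η hη hU)
  rw [sum_congr rfl fun h hh => by rw [hxx h hh],
    ← sum_image (f := fun k : Fin s → ZMod (n + 1) =>
      (∑ x, ∏ ω, ww_TopC (fun z => lam (x₀ + z)) s n (s * L * T : ℕ) b ω (x + dot ω k)) ^ 2) hinj]
  exact sum_le_sum_of_subset_of_nonneg (subset_univ _) fun _ _ _ => sq_nonneg _

end Pool.Agent.MP_4fffd4_nt.AN

end
end

section

open Finset Filter
open scoped BigOperators ComplexConjugate Topology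

noncomputable section

namespace Pool.Agent.MP_4fffd4_nt.AN

open Pool.Agent.MP_4fffd4_nt.SX

lemma logp_BaseC (A : ℝ) (m : ℕ) : ∀ᶠ K : ℝ in atTop, A * Real.log K ^ m ≤ K := by
  filter_upwards [((Real.isLittleO_pow_log_id_atTop (n := m)).const_mul_left A).def one_pos,
    eventually_ge_atTop 0] with K h hK
  rw [one_mul, id, Real.norm_of_nonneg hK, Real.norm_eq_abs] at h
  exact (le_abs_self _).trans h

theorem mono_stmt : MonoStmt := by
  refine ⟨fun m n hmn => ?_, fun s h => ?_⟩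
  · refine le_trans (Set.ncard_le_ncard (t := (fun ε j => ε (Fin.castLE hmn j)) '' pat n) ?_
      ((pat_finite n).image _)) (Set.ncard_image_le (pat_finite n))
    rintro ε ⟨a, ha, h⟩
    exact ⟨fun j => (-1 : ℤ) ^ ArithmeticFunction.cardFactors (a + j + 1), ⟨a, ha, fun _ => rfl⟩,
      funext fun j => (h j).symm⟩
  · by_contra hn
    push Not at hn
    have hsub : ((Fintype.piFinset fun _ : Fin (s + 1) => ({1, -1} : Finset ℤ) :
        Finset (Fin (s + 1) → ℤ)) : Set (Fin (s + 1) → ℤ)) ⊆ pat (s + 1) := fun v hv =>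
      hn v fun i => by simpa using Fintype.mem_piFinset.1 hv i
    have h1 := Set.ncard_le_ncard hsub (pat_finite _)
    rw [Set.ncard_coe_finset, Fintype.card_piFinset] at h1
    simp only [prod_const, card_univ, Fintype.card_fin] at h1
    exact absurd h (not_lt.2 h1)

end Pool.Agent.MP_4fffd4_nt.AN

end
end

section

/-!
The base of the induction on scales for a general set of steps.
-/

open Finset Filter
open scoped BigOperators ComplexConjugate Topology Pointwise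

noncomputable section

namespace Pool.Agent.MP_4fffd4_nt.AN

open Pool.Agent.MP_4fffd4_nt.SX

theorem sum_UBCore {Θ : Finset ℕ} {Q : ℕ} (h : ∀ p ∈ Θ, 1 ≤ p ∧ p ≤ Q) (Ψ : ℤ → ℝ) :
    ∑ d ∈ Ioc (0 : ℤ) Q, (if d.toNat ∈ Θ then 1 else 0) * Ψ d = ∑ p ∈ Θ, Ψ p := by
  have e : ∑ d ∈ Ioc (0 : ℤ) Q, (if d.toNat ∈ Θ then 1 else 0) * Ψ d =
      ∑ d ∈ (Ioc (0 : ℤ) Q).filter fun d => d.toNat ∈ Θ, Ψ d := by
    rw [sum_filter]
    refine sum_congr rfl fun d _ => ?_
    split_ifs <;> simp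
  rw [e]
  symm
  refine sum_bij' (fun p _ => (p : ℤ)) (fun d _ => d.toNat) ?_ ?_ ?_ ?_ ?_
  · intro p hp
    have := h p hp
    simp only [mem_filter, mem_Ioc, Int.toNat_natCast]
    exact ⟨⟨by omega, by omega⟩, hp⟩
  · intro d hd
    exact (mem_filter.1 hd).2
  · intro p _
    simp
  · intro d hd
    have := (mem_Ioc.1 (mem_filter.1 hd).1).1
    omega
  · intro p _
    rfl

theorem core_UBCore (hP : PetStmt) (s n : ℕ) (hs : 1 ≤ s) (hn : 2 ^ s = n + 1) (C K Y τ : ℝ)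
    (Θ : Finset ℕ) (hC : 0 < C) (hK : 3 ≤ K) (hY2 : 2 ≤ Y) (hτ0 : 0 < τ)
    (hΘ : ∀ p ∈ Θ, 1 ≤ p ∧ p ≤ ⌊2 * K⌋₊)
    (hS : 𝔼 u : Fin s → Fin ⌊K⌋₊, 𝔼 u' : Fin s → Fin ⌊K⌋₊,
      rr (fun d => if d.toNat ∈ Θ then 1 else 0) ⌊2 * K⌋₊ u u' ^ 2 ≤
        C * K ^ 2 / Real.log K ^ 2 ^ (s + 1))
    (hY1 : 8 * ((s : ℝ) + 1) * s * Real.log K / τ ≤ Y)
    (hYb : 24 * ((s : ℝ) + 1) * ((s : ℝ) + 2) ^ (n + 2) * Real.log K ^ (n + 1) / τ ^ (n + 1) ≤ Y)
    (S : Finset (Fin (s + 1))) (i₀ : Fin (s + 1)) (hi : i₀ ∈ S)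
    (h1 : 2 * (K / Real.log K * τ) ≤ Θ.card *
      |𝔼 p ∈ Θ, 𝔼 m ∈ Ioc ⌊Y * K⌋ ⌊2 * Y * K⌋, ∏ i ∈ S, lam (m + (((i : ℕ) : ℤ) + 1) * p)|) :
    (τ ^ (n + 1) / (4 * ((s : ℝ) + 2) ^ n * 2 ^ s)) ^ 2 / C ≤ AE (ee i₀) Y K := by
  have hK0 : 0 < K := by linarith
  have hY0 : 0 < Y := by linarith
  have hl : 0 < Real.log K := Real.log_pos (by linarith)
  have hH : 1 ≤ ⌊K⌋₊ := Nat.le_floor (by push_cast; linarith)
  have hHK : (⌊K⌋₊ : ℝ) ≤ K := Nat.floor_le hK0.le
  have hQK : (⌊2 * K⌋₊ : ℝ) ≤ 2 * K := Nat.floor_le (by linarith)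
  have hYK : 2 ≤ Y * K := by nlinarith
  have hM : Y * K / 2 ≤ (⌊2 * Y * K⌋ : ℝ) - ⌊Y * K⌋ := by
    have e1 := Int.floor_le (Y * K)
    have e2 := Int.lt_floor_add_one (2 * Y * K)
    linarith
  have hM0 : (0 : ℝ) < (⌊2 * Y * K⌋ : ℝ) - ⌊Y * K⌋ := lt_of_lt_of_le (by positivity) hM
  have hab : ⌊Y * K⌋ < ⌊2 * Y * K⌋ := by
    have : (⌊Y * K⌋ : ℝ) < ⌊2 * Y * K⌋ := by linarith
    exact_mod_cast this
  have hidx : ∀ i : Fin (s + 1), |((i : ℕ) : ℤ) + 1| ≤ (s + 1 : ℕ) := fun i => by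
    have := i.2
    rw [abs_of_nonneg (by omega)]
    omega
  have key := hP s (s + 1) ⌊K⌋₊ ⌊2 * K⌋₊ ⌊Y * K⌋ ⌊2 * Y * K⌋ (((i₀ : ℕ) : ℤ) + 1)
    (fun j => ((i₀.succAbove j : ℕ) : ℤ) + 1) (fun d => if d.toNat ∈ Θ then 1 else 0) lam
    (fun j z => if i₀.succAbove j ∈ S then lam z else 1) (K / Real.log K * τ) hs hH hab (hidx _)
    (fun j => hidx _) (fun d => by split_ifs <;> simp) (fun d hd => by
      have := hΘ _ (by_contra fun h => hd (if_neg h))
      omega)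
    (fun z => (abs_lam z).le) (fun j z => by
      split_ifs
      · exact (abs_lam z).le
      · simp) (by positivity) (by
      have e : 𝔼 m ∈ Ioc ⌊Y * K⌋ ⌊2 * Y * K⌋, ∑ d ∈ Ioc (0 : ℤ) (⌊2 * K⌋₊ : ℕ),
          (if d.toNat ∈ Θ then 1 else 0) *
          (lam (m + (((i₀ : ℕ) : ℤ) + 1) * d) * ∏ j : Fin s,
            (fun z => if i₀.succAbove j ∈ S then lam z else 1)
              (m + (((i₀.succAbove j : ℕ) : ℤ) + 1) * d)) =
          Θ.card * 𝔼 p ∈ Θ, 𝔼 m ∈ Ioc ⌊Y * K⌋ ⌊2 * Y * K⌋,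
            ∏ i ∈ S, lam (m + (((i : ℕ) : ℤ) + 1) * p) := by
        rw [card_mul_expect, ← expect_sum_comm]
        refine expect_congr rfl fun m _ => ?_
        rw [sum_UBCore hΘ]
        exact sum_congr rfl fun p _ => (prod_split_Base S i₀ hi m p).symm
      rw [e, abs_mul, Nat.abs_cast]
      have e1 : 2 * ((s + 1 : ℕ) : ℝ) * s * ⌊K⌋₊ * ⌊2 * K⌋₊ / ((⌊2 * Y * K⌋ : ℝ) - ⌊Y * K⌋) ≤
          K / Real.log K * τ := by
        rw [div_le_iff₀ hτ0] at hY1
        push_cast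
        calc 2 * ((s : ℝ) + 1) * s * ⌊K⌋₊ * ⌊2 * K⌋₊ / ((⌊2 * Y * K⌋ : ℝ) - ⌊Y * K⌋)
            ≤ 2 * ((s : ℝ) + 1) * s * K * (2 * K) / (Y * K / 2) := by gcongr
          _ = K * (8 * ((s : ℝ) + 1) * s * Real.log K) / (Real.log K * Y) := by field_simp; ring
          _ ≤ K * (Y * τ) / (Real.log K * Y) := by gcongr
          _ = _ := by field_simp
      linarith)
  have hee : (fun j : Fin s => ((i₀ : ℕ) : ℤ) + 1 - (((i₀.succAbove j : ℕ) : ℤ) + 1)) = ee i₀ := by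
    funext j
    unfold ee
    ring
  rw [hee, hn, Nat.add_sub_cancel] at key
  rw [Nat.cast_succ s] at key
  refine num_Base n K (Real.log K) Y _ ((⌊2 * K⌋₊ : ℝ) + s * ⌊K⌋₊) _ _ C τ _ _ ((s : ℝ) + 1) hK0 hl
    hY0 hM (by positivity) ?_ (by positivity) hC (AE_nonneg_Base _ _ hK0.le) (by positivity)
    (by positivity) hτ0 ?_ ?_ hYb key
  · have : (s : ℝ) * ⌊K⌋₊ ≤ s * K := by gcongr
    linarith
  · refine expect_nonneg fun u _ => expect_nonneg fun u' _ => mul_nonneg ?_ (abs_nonneg _)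
    exact sum_nonneg fun d _ => prod_nonneg fun ω _ => ite_nonneg zero_le_one le_rfl
  · refine (cs_Base _ _).trans (mul_le_mul ?_ ?_ ?_ (by positivity))
    · rw [← pow_mul, ← hn, ← pow_succ]
      exact hS
    · refine (sq_mean_Base (by linarith) _).trans_eq ?_
      unfold AE
      rw [div_pow, mul_pow (2 : ℝ) K]
      field_simp
    · exact expect_nonneg fun u _ => expect_nonneg fun u' _ => sq_nonneg _

theorem one_UBCore (L : ℕ) (v : Fin L → ℝ) (hv : ∀ i, |v i| = 1) (X : ℝ) (hX : 2 ≤ X)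
    (Θ : Finset ℕ) (hne : Θ.Nonempty) (h : ∑ h ∈ Θ, Fv v X h ≤ (1 / 2) ^ (L + 2) * Θ.card) :
    ∃ S : Finset (Fin L), S.Nonempty ∧ (1 / 2 : ℝ) ^ (L + 1) ≤
      |𝔼 p ∈ Θ, 𝔼 m ∈ Ioc ⌊X⌋ ⌊2 * X⌋, ∏ i ∈ S, lam (m + (((i : ℕ) : ℤ) + 1) * p)| := by
  have hM : X / 2 ≤ (⌊2 * X⌋ : ℝ) - ⌊X⌋ := by
    linarith [Int.floor_le X, Int.lt_floor_add_one (2 * X)]
  have hab : ⌊X⌋ < ⌊2 * X⌋ := by
    have : (⌊X⌋ : ℝ) < ⌊2 * X⌋ := by linarith
    exact_mod_cast this
  have hcard : ((Ioc ⌊X⌋ ⌊2 * X⌋).card : ℝ) = (⌊2 * X⌋ : ℝ) - ⌊X⌋ := by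
    exact_mod_cast Int.card_Ioc_of_le _ _ hab.le
  have key : 𝔼 p ∈ Θ, 𝔼 m ∈ Ioc ⌊X⌋ ⌊2 * X⌋,
      ∏ i : Fin L, (1 - (-v i) * lam (m + (((i : ℕ) : ℤ) + 1) * p)) / 2 ≤ (1 / 2) ^ (L + 1) := by
    have h1 : ∀ p ∈ Θ, 𝔼 m ∈ Ioc ⌊X⌋ ⌊2 * X⌋,
        ∏ i : Fin L, (1 - (-v i) * lam (m + (((i : ℕ) : ℤ) + 1) * p)) / 2 ≤ 2 * Fv v X p := by
      intro p _
      have h2 : 0 ≤ ∑ m ∈ Ioc ⌊X⌋ ⌊2 * X⌋,
          ∏ i : Fin L, (1 + v i * lam (m + (((i : ℕ) : ℤ) + 1) * p)) / 2 :=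
        sum_nonneg fun m _ => prod_nonneg fun i _ => by
          have h3 := neg_abs_le (v i * lam (m + (((i : ℕ) : ℤ) + 1) * p))
          rw [abs_mul, hv, abs_lam] at h3
          linarith
      simp only [neg_mul, sub_neg_eq_add]
      rw [expect_eq_sum_div_card, hcard, Fv]
      refine (div_le_div_of_nonneg_left h2 (by linarith) hM).trans (le_of_eq ?_)
      field_simp
    refine (expect_le_expect h1).trans ?_
    rw [expect_eq_sum_div_card, div_le_iff₀ (by exact_mod_cast hne.card_pos), ← mul_sum]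
    rw [pow_succ _ (L + 1)] at h
    linarith
  refine pick_Base1 (fun i => -v i) (fun i => by rw [abs_neg, hv])
    (fun S => 𝔼 p ∈ Θ, 𝔼 m ∈ Ioc ⌊X⌋ ⌊2 * X⌋, ∏ i ∈ S, lam (m + (((i : ℕ) : ℤ) + 1) * p)) ?_ ?_
  · simp only [prod_empty, expect_const (nonempty_Ioc.2 hab), expect_const hne]
  · simp only [expand_Base1, ← mul_expect, expect_sum_comm] at key
    exact key

theorem coreR_stmt (hP : PetStmt) : CoreRStmt := by
  intro s c C hs hc hC
  obtain ⟨n, hn⟩ : ∃ n, 2 ^ s = n + 1 := ⟨2 ^ s - 1, by have := Nat.two_pow_pos s; omega⟩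
  obtain ⟨τ, hτ⟩ : ∃ τ : ℝ, τ = c * (1 / 2) ^ (s + 3) := ⟨_, rfl⟩
  have hτ0 : 0 < τ := by rw [hτ]; positivity
  obtain ⟨K₁, hK₁⟩ := eventually_atTop.1 ((eventually_ge_atTop (3 : ℝ)).and
    ((logp_BaseC (8 * ((s : ℝ) + 1) * s / τ) 1).and
      (logp_BaseC (24 * ((s : ℝ) + 1) * ((s : ℝ) + 2) ^ (n + 2) / τ ^ (n + 1)) (n + 1))))
  refine ⟨(τ ^ (n + 1) / (4 * ((s : ℝ) + 2) ^ n * 2 ^ s)) ^ 2 / C, K₁, by positivity,
    fun v Y K Θ hK hKY hv hΘ hcard hS hF => ?_⟩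
  obtain ⟨c4, c6, c7⟩ := hK₁ K hK
  have hl : 0 < Real.log K := Real.log_pos (by linarith)
  have hne : Θ.Nonempty := by
    have : (0 : ℝ) < Θ.card := lt_of_lt_of_le (by positivity) hcard
    exact card_pos.1 (by exact_mod_cast this)
  obtain ⟨S, ⟨i₀, hi⟩, hS1⟩ := one_UBCore (s + 1) v hv (Y * K) (by nlinarith) Θ hne hF
  rw [← mul_assoc] at hS1
  rw [div_mul_eq_mul_div] at c6 c7
  rw [pow_one] at c6
  refine (core_UBCore hP s n hs hn C K Y τ Θ hC c4 (by linarith) hτ0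
    (fun p hp => ⟨(hΘ p hp).1, Nat.le_floor (hΘ p hp).2⟩) hS (c6.trans hKY) (c7.trans hKY)
    S i₀ hi ?_).trans (single_le_sum (f := fun i => AE (ee i) Y K)
      (fun i _ => AE_nonneg_Base _ _ (by linarith)) (mem_univ i₀))
  refine le_trans (le_of_eq ?_) (mul_le_mul hcard hS1 (by positivity) (Nat.cast_nonneg _))
  rw [hτ]
  ring

end Pool.Agent.MP_4fffd4_nt.AN

end
end

section

open Finset Filter
open scoped BigOperators ComplexConjugate Topology Pointwise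
noncomputable section
namespace Pool.Agent.MP_4fffd4_nt.AN
open Pool.Agent.MP_4fffd4_nt.SX

/-- The weight of a pattern. -/
def G_UBDec {L : ℕ} (v : Fin L → ℝ) (h : ℕ) (m : ℤ) : ℝ :=
  ∏ i : Fin L, (1 + v i * lam (m + (((i : ℕ) : ℤ) + 1) * h)) / 2

theorem half_UBDec {u x : ℝ} (hu : |u| ≤ 1) (hx : |x| = 1) : |(1 + u * x) / 2| ≤ 1 := by
  have h : |u * x| ≤ 1 := by rw [abs_mul, hx, mul_one]; exact hu
  rw [abs_le] at h ⊢
  constructor <;> linarith [h.1, h.2]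

theorem abs_G_UBDec {L : ℕ} {v : Fin L → ℝ} (hv : ∀ i, |v i| ≤ 1) (h : ℕ) (m : ℤ) :
    |G_UBDec v h m| ≤ 1 := by
  rw [G_UBDec, abs_prod]
  exact prod_le_one (fun _ _ => abs_nonneg _) fun i _ => half_UBDec (hv i) (abs_lam _)

theorem dil_UBDec {L : ℕ} (v : Fin L → ℝ) {X : ℝ} (hX : 0 < X) {p : ℕ} (hp : p.Prime) (g : ℕ) :
    Fv (-v) (X / p) g = (∑ m ∈ Ioc ⌊X⌋ ⌊2 * X⌋,
      (if (p : ℤ) ∣ m then (p : ℝ) else 0) * G_UBDec v (p * g) m) / X := by
  have p0 : (0 : ℝ) < p := by exact_mod_cast hp.pos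
  have p1 : (p : ℤ) ≠ 0 := by exact_mod_cast hp.ne_zero
  have hm : ∀ m : ℤ, m ∈ Ioc ⌊X / p⌋ ⌊2 * (X / p)⌋ ↔ (p : ℤ) * m ∈ Ioc ⌊X⌋ ⌊2 * X⌋ := fun m => by
    rw [mem_Ioc, mem_Ioc, Int.floor_lt, Int.floor_lt, Int.le_floor, Int.le_floor, div_lt_iff₀ p0,
      ← mul_div_assoc, le_div_iff₀ p0]
    push_cast
    rw [mul_comm (p : ℝ)]
  simp only [ite_mul, zero_mul]
  rw [← sum_filter, ← mul_sum, Fv, div_div_eq_mul_div, mul_comm]
  congr 2
  refine sum_nbij (fun m => (p : ℤ) * m) (fun m h => mem_filter.2 ⟨(hm m).1 h, dvd_mul_right _ _⟩)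
    (fun m _ m' _ h => mul_left_cancel₀ p1 h) (fun m h => ?_) fun m h => ?_
  · obtain ⟨h1, m', rfl⟩ := mem_filter.1 h
    exact ⟨m', (hm m').2 h1, rfl⟩
  · have h0 : 0 < m := lt_of_le_of_lt (Int.floor_nonneg.2 (by positivity)) (mem_Ioc.1 h).1
    refine prod_congr rfl fun i _ => ?_
    rw [show (p : ℤ) * m + (((i : ℕ) : ℤ) + 1) * ((p * g : ℕ) : ℤ) =
      p * (m + (((i : ℕ) : ℤ) + 1) * g) by push_cast; ring, lam_prime_mul hp (by positivity),
      Pi.neg_apply]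
    ring

theorem shift_UBDec (hS : ShiftStmt) (a b : Unit → ℤ) {M : ℝ} {p Q : ℕ} (g : (Unit → ℤ) → ℝ)
    (hM : 0 < M) (hab : ∀ v, M ≤ (b v : ℝ) - a v) (hp : 0 < p) (hQ : p ≤ Q) (hg : ∀ y, |g y| ≤ 1) :
    |𝔼 y ∈ bx a b, 𝔼 r ∈ cell Unit p, g (y + r) - 𝔼 y ∈ bx a b, g y| ≤ 2 * Q / M := by
  have hne : (cell Unit p).Nonempty := ⟨_, rs_mem_cell hp 0⟩
  have hb : (bx a b).Nonempty := ⟨b, mem_bx.2 fun v => ⟨by
    have h1 : (a v : ℝ) < b v := by linarith [hab v]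
    exact_mod_cast h1, le_rfl⟩⟩
  have hc : (0 : ℝ) < (bx a b).card := by exact_mod_cast hb.card_pos
  rw [expect_comm, ← expect_const hne (𝔼 y ∈ bx a b, g y), ← expect_sub_distrib]
  refine (abs_expect_le _ _).trans (expect_le hne fun r hr => ?_)
  have h1 := hS Unit a b r M Q 1 g hM hab (fun v => by
    have h1 := mem_cell.1 hr v
    have : |r v| ≤ (Q : ℤ) := by rw [abs_le]; constructor <;> omega
    exact_mod_cast this) hg
  rw [expect_eq_sum_div_card, expect_eq_sum_div_card, ← sub_div, abs_div, abs_of_pos hc,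
    div_le_iff₀ hc]
  refine h1.trans_eq ?_
  rw [Fintype.card_unit]
  push_cast
  ring

theorem bDec_stmt (hS : ShiftStmt) (hD : DecStmt) (hR : RsStmt) : BDecStmt := by
  intro L Q j H v X Pr c g hv hc hPr hne hj hX hT hQ
  have hX0 : 0 < X := by linarith
  have hM : 0 < X - 1 := by linarith
  have hab : X - 1 ≤ (⌊2 * X⌋ : ℝ) - ⌊X⌋ := by
    linarith [Int.floor_le X, Int.lt_floor_add_one (2 * X)]
  have ha : (2 : ℤ) ≤ ⌊X⌋ := Int.le_floor.2 (by exact_mod_cast hX)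
  have hcard : ((Ioc ⌊X⌋ ⌊2 * X⌋).card : ℝ) = (⌊2 * X⌋ : ℝ) - ⌊X⌋ := by
    have h1 : (⌊X⌋ : ℝ) ≤ ⌊2 * X⌋ := by linarith
    have h2 := Int.card_Ioc_of_le _ _ (by exact_mod_cast h1 : ⌊X⌋ ≤ ⌊2 * X⌋)
    exact_mod_cast h2
  obtain ⟨N, hN⟩ : ∃ N : ℝ, N = (Ioc ⌊X⌋ ⌊2 * X⌋).card := ⟨_, rfl⟩
  have hN0 : 0 < N := by rw [hN, hcard]; linarith
  have hN2 : N / X ≤ 2 := by
    rw [div_le_iff₀ hX0, hN, hcard]
    linarith [Int.floor_le (2 * X), Int.lt_floor_add_one X]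
  set R := (L + 1) * Q + 1 with hRd
  let cl : (Fin R → ℤ) → ℤ → ℝ := fun s z =>
    if h : z.toNat < R then (if s ⟨z.toNat, h⟩ = 1 then 1 else -1) else 1
  have hcl : ∀ s z, |cl s z| = 1 := fun s z => by
    simp only [cl]
    split_ifs <;> simp
  let Γ : (Fin L → Fin R → ℤ) → ℕ → (Unit → ℤ) → ℝ := fun s p r => (if p ∈ Pr then c p else 0) *
    ∏ i : Fin L, (1 + v i * cl (s i) (r () + (((i : ℕ) : ℤ) + 1) * (((p * g p : ℕ) : ℤ) - H))) / 2
  let w : (Unit → ℤ) → Fin L → Fin R → ℤ := fun y i k =>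
    lamZ (y () + (((i : ℕ) : ℤ) + 1) * H + ((k : ℕ) : ℤ))
  have hΓ : ∀ p ∈ Pr, ∀ y, ∀ r ∈ cell Unit p,
      Γ (w y) p r = c p * G_UBDec v (p * g p) ((y + r) ()) := by
    intro p hp y r hr
    simp only [Γ, if_pos hp]
    congr 1
    refine prod_congr rfl fun i _ => ?_
    obtain ⟨r0, r1⟩ := mem_cell.1 hr ()
    obtain ⟨-, q1, q2, q3⟩ := hPr p hp
    obtain ⟨u, hu⟩ : ∃ u : ℤ, u = ((p * g p : ℕ) : ℤ) - H := ⟨_, rfl⟩
    have u0 : 0 ≤ u := by omega
    have u1 : u ≤ Q := by omega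
    have hi : ((i : ℕ) : ℤ) + 1 ≤ L := by exact_mod_cast i.2
    have z0 : 0 ≤ r () + (((i : ℕ) : ℤ) + 1) * u := by positivity
    have z1 : r () + (((i : ℕ) : ℤ) + 1) * u < R := by
      have h1 : (((i : ℕ) : ℤ) + 1) * u ≤ L * Q := mul_le_mul hi u1 u0 (by positivity)
      have h2 : (p : ℤ) ≤ Q := by exact_mod_cast q1
      rw [hRd]
      push_cast
      linarith
    have z2 : (r () + (((i : ℕ) : ℤ) + 1) * u).toNat < R := by omega
    have e : (y + r) () + (((i : ℕ) : ℤ) + 1) * ((p * g p : ℕ) : ℤ) =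
        y () + (((i : ℕ) : ℤ) + 1) * H + (r () + (((i : ℕ) : ℤ) + 1) * u) := by
      rw [hu, Pi.add_apply]; ring
    rw [← hu, e]
    congr 3
    simp only [cl, w, dif_pos z2, Int.toNat_of_nonneg z0, lam]
    rcases lamZ_eq (y () + (((i : ℕ) : ℤ) + 1) * H + (r () + (((i : ℕ) : ℤ) + 1) * u)) with h | h <;>
      simp [h]
  have h1 := hD Unit (Fin L → Fin R → ℤ) (Fintype.piFinset fun _ => (pat_finite R).toFinset)
    (fun _ => ⌊X⌋) (fun _ => ⌊2 * X⌋) (X - 1) Pr Q j w Γ hM (fun _ => hab)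
    (fun p hp => ⟨(hPr p hp).1, (hPr p hp).2.1⟩) hne hj
    (by
      rw [Fintype.card_piFinset, prod_const, card_univ,
        ← Set.ncard_eq_toFinset_card _ (pat_finite _), Fintype.card_fin]
      exact_mod_cast hT)
    (fun y hy => Fintype.mem_piFinset.2 fun i => (Set.Finite.mem_toFinset _).2 (word_mem_pat _ (by
      have h1 := (mem_bx.1 hy ()).1
      have h2 : 0 ≤ (((i : ℕ) : ℤ) + 1) * H := by positivity
      omega)))
    (fun s p r => by
      rw [abs_mul, abs_prod]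
      refine mul_le_one₀ ?_ (prod_nonneg fun _ _ => abs_nonneg _)
        (prod_le_one (fun _ _ => abs_nonneg _) fun i _ => half_UBDec (hv i) (hcl _ _))
      split_ifs with h
      · exact hc p h
      · simp)
    (by simpa using hQ)
  rw [expect_comm] at h1
  have h2 : ∀ p ∈ Pr, |c p * (Fv v X (p * g p) - Fv (-v) (X / p) (g p)) +
      N / X * 𝔼 y ∈ bx (fun _ : Unit => ⌊X⌋) (fun _ => ⌊2 * X⌋),
        (Γ (w y) p (rs p y) - 𝔼 r ∈ cell Unit p, Γ (w y) p r)| ≤ 8 * (Q : ℝ) ^ 2 / (X - 1) := by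
    intro p hp
    obtain ⟨pp, q1, -, -⟩ := hPr p hp
    have k1 := hR Unit (fun _ => ⌊X⌋) (fun _ => ⌊2 * X⌋) (X - 1) 1 p Q
      (fun y => G_UBDec v (p * g p) (y ())) hM (fun _ => hab) pp.one_le q1
      fun y => abs_G_UBDec hv _ _
    have k2 := shift_UBDec hS (fun _ => ⌊X⌋) (fun _ => ⌊2 * X⌋)
      (fun y => G_UBDec v (p * g p) (y ())) hM (fun _ => hab) pp.pos q1
      fun y => abs_G_UBDec hv _ _
    have e1 : Fv v X (p * g p) = N / X * 𝔼 y ∈ bx (fun _ : Unit => ⌊X⌋) (fun _ => ⌊2 * X⌋),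
        G_UBDec v (p * g p) (y ()) := by
      rw [bx_unit_DecB, expect_eq_sum_div_card, ← hN, div_mul_div_comm, mul_comm X,
        mul_div_mul_left _ _ hN0.ne']
      rfl
    have e2 : Fv (-v) (X / p) (g p) = N / X * 𝔼 y ∈ bx (fun _ : Unit => ⌊X⌋) (fun _ => ⌊2 * X⌋),
        wt p 0 y * G_UBDec v (p * g p) (y ()) := by
      have e3 : ∀ y : Unit → ℤ, wt p 0 y = if (p : ℤ) ∣ y () then (p : ℝ) else 0 := fun y => by
        simp [wt, Unique.forall_iff]
      simp only [e3]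
      rw [bx_unit_DecB _ _ fun m => (if (p : ℤ) ∣ m then (p : ℝ) else 0) * G_UBDec v (p * g p) m,
        expect_eq_sum_div_card, ← hN, div_mul_div_comm, mul_comm X,
        mul_div_mul_left _ _ hN0.ne', dil_UBDec v hX0 pp]
    have e4 : 𝔼 y ∈ bx (fun _ : Unit => ⌊X⌋) (fun _ => ⌊2 * X⌋),
        (Γ (w y) p (rs p y) - 𝔼 r ∈ cell Unit p, Γ (w y) p r) =
        c p * (𝔼 y ∈ bx (fun _ : Unit => ⌊X⌋) (fun _ => ⌊2 * X⌋),
          G_UBDec v (p * g p) ((y + rs p y) ()) -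
        𝔼 y ∈ bx (fun _ : Unit => ⌊X⌋) (fun _ => ⌊2 * X⌋), 𝔼 r ∈ cell Unit p,
          G_UBDec v (p * g p) ((y + r) ())) := by
      rw [← expect_sub_distrib, mul_expect]
      refine expect_congr rfl fun y _ => ?_
      rw [hΓ p hp y _ (rs_mem_cell pp.pos y), expect_congr rfl (hΓ p hp y), ← mul_expect, mul_sub]
    have k3 : (1 : ℝ) ≤ Q := by exact_mod_cast pp.one_le.trans q1
    have k4 : 2 * (Q : ℝ) / (X - 1) ≤ 2 * (Q : ℝ) ^ 2 / (X - 1) :=
      div_le_div_of_nonneg_right (by nlinarith) hM.le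
    have k5 : 2 * Fintype.card Unit * (Q : ℝ) ^ (Fintype.card Unit + 1) / (X - 1) * 1 =
        2 * (Q : ℝ) ^ 2 / (X - 1) := by
      rw [Fintype.card_unit]
      push_cast
      ring
    rw [k5] at k1
    rw [e1, e2, e4]
    have key : ∀ A B C D t s E : ℝ, |C - B| ≤ E → |D - A| ≤ E → 0 ≤ t → t ≤ 2 → |s| ≤ 1 →
        |s * (t * A - t * B) + t * (s * (C - D))| ≤ 4 * E := by
      intro A B C D t s E a1 a2 a3 a4 a5
      rw [show s * (t * A - t * B) + t * (s * (C - D)) = s * (t * ((C - B) - (D - A))) by ring,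
        abs_mul, abs_mul, abs_of_nonneg a3]
      have a6 : |(C - B) - (D - A)| ≤ 2 * E := (abs_sub _ _).trans (by linarith)
      have a7 : t * |(C - B) - (D - A)| ≤ 2 * (2 * E) :=
        mul_le_mul a4 a6 (abs_nonneg _) zero_le_two
      have a8 := mul_le_mul_of_nonneg_right a5 (mul_nonneg a3 (abs_nonneg ((C - B) - (D - A))))
      linarith
    refine (key _ _ _ _ _ _ _ k1 (k2.trans k4) (by positivity) hN2 (hc p hp)).trans_eq ?_
    ring
  have h3 := (abs_expect_le _ _).trans (expect_le hne h2)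
  rw [expect_add_distrib, ← mul_expect] at h3
  have h4 := mul_le_mul hN2 h1 (abs_nonneg _) zero_le_two
  rw [← abs_of_nonneg (div_pos hN0 hX0).le, ← abs_mul] at h4
  rw [abs_le] at h3 h4 ⊢
  constructor <;> linarith [h3.1, h3.2, h4.1, h4.2]

end Pool.Agent.MP_4fffd4_nt.AN

end
end

section

open Finset Filter
open scoped BigOperators ComplexConjugate Topology Pointwise

noncomputable section

namespace Pool.Agent.MP_4fffd4_nt.AN

open Pool.Agent.MP_4fffd4_nt.SX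

lemma mem_UBIter {k₁ k₂ p : ℕ} (h : p ∈ Prk k₁ k₂) : 1 ≤ p ∧ p ≤ 2 ^ k₂ := by
  obtain ⟨k, hk, hp⟩ := mem_biUnion.1 h
  obtain ⟨a1, a2⟩ := mem_Par hp
  have a3 : 2 ^ (k + 1) ≤ 2 ^ k₂ := Nat.pow_le_pow_right (by norm_num) (mem_Ico.1 hk).2
  exact ⟨(Nat.zero_le _).trans_lt a1, a2.trans a3⟩

lemma pow_UBIter (k₁ k₂ r : ℕ) : ∀ h ∈ Prk k₁ k₂ ^ r, 1 ≤ h ∧ h ≤ (2 ^ k₂) ^ r := by
  induction r with
  | zero =>
    intro h hh
    rw [pow_zero, Finset.mem_one] at hh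
    simp [hh]
  | succ r ih =>
    intro h hh
    rw [pow_succ] at hh
    obtain ⟨a, ha, b, hb, rfl⟩ := mem_mul.1 hh
    obtain ⟨a1, a2⟩ := ih a ha
    obtain ⟨b1, b2⟩ := mem_UBIter hb
    exact ⟨Nat.mul_pos a1 b1, by rw [pow_succ]; exact Nat.mul_le_mul a2 b2⟩

lemma zero_UBIter {L : ℕ} (v : Fin L → ℤ) (hv : ∀ i, v i = 1 ∨ v i = -1) (hp : v ∉ pat L)
    {X : ℝ} (hX : 0 ≤ X) : Fv (fun i => (v i : ℝ)) X 1 = 0 := by
  rw [Fv, sum_eq_zero, zero_div]
  intro m hm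
  have h0 : 0 ≤ ⌊X⌋ := Int.floor_nonneg.2 hX
  have h1 := (mem_Ioc.1 hm).1
  have hw := word_mem_pat L (a := m + 1) (by omega)
  have hne : v ≠ fun j : Fin L => lamZ (m + 1 + ((j : ℕ) : ℤ)) := fun e => hp (e ▸ hw)
  obtain ⟨i, hi⟩ := Function.ne_iff.1 hne
  refine prod_eq_zero (mem_univ i) ?_
  have e : m + (((i : ℕ) : ℤ) + 1) * ((1 : ℕ) : ℤ) = m + 1 + ((i : ℕ) : ℤ) := by push_cast; ring
  rw [e, lam]
  rcases hv i with a | a <;> rcases lamZ_eq (m + 1 + ((i : ℕ) : ℤ)) with b | b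
  · exact absurd (a.trans b.symm) hi
  · rw [a, b]; norm_num
  · rw [a, b]; norm_num
  · exact absurd (a.trans b.symm) hi

theorem bIter_stmt (hB : BStepStmt) : BIterStmt := by
  intro L k₁ k₂ j r v Z ζ hv hp hj hk hζ hk' hpat hZ
  have hq : (1 : ℝ) ≤ (2 : ℝ) ^ k₂ := one_le_pow₀ (by norm_num)
  have hZ3 : 3 ≤ Z := by
    have : (1 : ℝ) ≤ ((2 : ℝ) ^ k₂) ^ (3 * j) := one_le_pow₀ hq
    linarith
  have hk1 : (1 : ℝ) ≤ k₂ := by exact_mod_cast hk
  induction r with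
  | zero =>
    intro X hX
    rw [pow_zero, mul_one] at hX
    have e : (fun i => (-1 : ℝ) ^ 0 * (v i : ℝ)) = fun i => (v i : ℝ) := by funext i; simp
    rw [pow_zero, ← singleton_one, sum_singleton, e, zero_UBIter v hv hp (by linarith)]
    simp
  | succ r ih =>
    intro X hX
    have hqr : (1 : ℝ) ≤ ((2 : ℝ) ^ k₂) ^ (r + 1) := one_le_pow₀ hq
    have hZX : Z ≤ X := le_trans (le_mul_of_one_le_right (by linarith) hqr) hX
    have hr0 : (0 : ℝ) ≤ r := Nat.cast_nonneg r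
    have hkr : (1 : ℝ) ≤ (k₂ : ℝ) ^ r := one_le_pow₀ hk1
    have e : (-fun i => (-1 : ℝ) ^ (r + 1) * (v i : ℝ)) = fun i => (-1 : ℝ) ^ r * (v i : ℝ) := by
      funext i
      simp only [Pi.neg_apply, pow_succ]
      ring
    have key := hB L k₁ k₂ j ((2 ^ k₂) ^ r) (fun i => (-1 : ℝ) ^ (r + 1) * (v i : ℝ))
      (Prk k₁ k₂ ^ r) X (r * (k₂ : ℝ) ^ r * (ζ * (1 + r * k₂))) ζ
      (fun i => by
        rw [abs_mul, abs_pow, abs_neg, abs_one, one_pow, one_mul]
        rcases hv i with a | a <;> simp [a])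
      (pow_UBIter k₁ k₂ r) hj (by positivity) hζ
      (fun k h1 h2 => ⟨(hk' k h1 h2).1, le_trans (add_le_add_right
        (div_le_div_of_nonneg_left (by positivity) (by linarith) (by linarith)) _)
        (hk' k h1 h2).2⟩)
      hpat (by linarith)
      (fun p hp' => by
        rw [e]
        obtain ⟨p1, p2⟩ := mem_UBIter hp'
        have p3 : (0 : ℝ) < p := by exact_mod_cast p1
        have p4 : (p : ℝ) ≤ (2 : ℝ) ^ k₂ := by exact_mod_cast p2
        refine ih _ ?_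
        rw [le_div_iff₀ p3]
        refine le_trans ?_ hX
        rw [pow_succ, ← mul_assoc]
        exact mul_le_mul_of_nonneg_left p4 (by positivity))
    rw [pow_succ (Prk k₁ k₂)]
    refine key.trans ?_
    have hl : Real.log ((((2 ^ k₂) ^ r : ℕ) : ℝ) * 2 ^ k₂) ≤ (r + 1) * k₂ := by
      have hl2 : Real.log 2 ≤ 1 := by have := Real.log_two_lt_d9; linarith
      push_cast
      rw [← pow_succ, Real.log_pow, Real.log_pow]
      push_cast
      have : (0 : ℝ) ≤ ((r : ℝ) + 1) * k₂ := by positivity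
      nlinarith
    have h1 : ζ * (1 + Real.log ((((2 ^ k₂) ^ r : ℕ) : ℝ) * 2 ^ k₂)) ≤
        (k₂ : ℝ) ^ r * (ζ * (1 + (r + 1) * k₂)) :=
      le_trans (mul_le_mul_of_nonneg_left (by linarith) hζ)
        (le_mul_of_one_le_left (by positivity) hkr)
    have h2 : r * (k₂ : ℝ) ^ r * (ζ * (1 + r * k₂)) ≤ r * (k₂ : ℝ) ^ r * (ζ * (1 + (r + 1) * k₂)) :=
      mul_le_mul_of_nonneg_left (mul_le_mul_of_nonneg_left (by nlinarith) hζ) (by positivity)
    refine (mul_le_mul_of_nonneg_left (add_le_add h2 h1) (by linarith)).trans (le_of_eq ?_)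
    push_cast
    ring

end Pool.Agent.MP_4fffd4_nt.AN

end
end

section

open Finset Filter
open scoped BigOperators ComplexConjugate Topology Pointwise

noncomputable section

namespace Pool.Agent.MP_4fffd4_nt.AN

open Pool.Agent.MP_4fffd4_nt.SX

theorem nonneg_UBStep {L : ℕ} {v : Fin L → ℝ} (hv : ∀ i, |v i| ≤ 1) {X : ℝ} (hX : 0 ≤ X) (h : ℕ) :
    0 ≤ Fv v X h := by
  refine div_nonneg (sum_nonneg fun m _ => prod_nonneg fun i _ => ?_) hX
  have h1 : |v i * lam (m + (((i : ℕ) : ℤ) + 1) * h)| ≤ 1 := by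
    rw [abs_mul, abs_lam, mul_one]
    exact hv i
  linarith [(abs_le.1 h1).1]

theorem split_UBStep (f : ℕ → ℝ) (hf : ∀ h, 0 ≤ f h) (S : Finset ℕ) (k₁ k₂ : ℕ) :
    ∑ h ∈ S * Prk k₁ k₂, f h ≤ ∑ k ∈ Ico k₁ k₂, ∑ p ∈ prs ((2 : ℝ) ^ k), ∑ h ∈ S, f (p * h) := by
  have h1 : S * Prk k₁ k₂ ⊆ (((Ico k₁ k₂).sigma fun k => prs ((2 : ℝ) ^ k)) ×ˢ S).image
      fun q => q.1.2 * q.2 := by
    intro x hx
    obtain ⟨h, hh, p, hp, rfl⟩ := mem_mul.1 hx
    obtain ⟨k, hk, hp⟩ := mem_biUnion.1 hp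
    exact mem_image.2 ⟨(⟨k, p⟩, h), mem_product.2 ⟨mem_sigma.2 ⟨hk, hp⟩, hh⟩, mul_comm _ _⟩
  refine (sum_le_sum_of_subset_of_nonneg h1 fun _ _ _ => hf _).trans ?_
  refine (sum_image_le_of_nonneg fun _ _ => hf _).trans (le_of_eq ?_)
  rw [sum_product, sum_sigma]

theorem fib_UBStep (φ : ℕ → ℝ) {p N : ℕ} (hp : 0 < p) (S : Finset ℕ)
    (hS : ∀ h ∈ S, 1 ≤ h ∧ h * p ≤ N) :
    ∑ H ∈ Icc 1 N, (if (H + p - 1) / p ∈ S then φ ((H + p - 1) / p) else 0) =
      p * ∑ h ∈ S, φ h := by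
  simp only [← sum_ite_eq S]
  rw [sum_comm, mul_sum]
  refine sum_congr rfl fun h hh => ?_
  obtain ⟨h1, h2⟩ := hS h hh
  obtain ⟨h, rfl⟩ : ∃ h', h = h' + 1 := ⟨h - 1, by omega⟩
  have e : ((Icc 1 N).filter fun H => (H + p - 1) / p = h + 1) = Ioc (h * p) (h * p + p) := by
    ext H
    rw [add_mul, one_mul] at h2
    rw [mem_filter, mem_Icc, mem_Ioc, Nat.div_eq_iff hp, add_mul, one_mul]
    omega
  rw [← sum_filter, e, sum_const, Nat.card_Ioc, Nat.add_sub_cancel_left, nsmul_eq_mul]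

theorem card_UBStep (k : ℕ) : (prs ((2 : ℝ) ^ k)).card ≤ 2 ^ k := by
  have : prs ((2 : ℝ) ^ k) ⊆ Ioc (2 ^ k) (2 ^ (k + 1)) := fun p hp => mem_Ioc.2 (mem_Par hp)
  have h := card_le_card this
  rw [Nat.card_Ioc, pow_succ, mul_two, Nat.add_sub_cancel] at h
  exact h

theorem harm_UBStep (N : ℕ) : ∑ H ∈ Icc 1 N, (H : ℝ)⁻¹ ≤ 1 + Real.log N := by
  have := harmonic_le_one_add_log N
  rw [harmonic_eq_sum_Icc] at this
  push_cast at this
  exact this

theorem bStep_stmt (hB : BDecStmt) : BStepStmt := by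
  intro L k₁ k₂ j H₀ v S X ε ζ hv hS hj hε hζ hk hpat hX hP
  have hQ : (1 : ℝ) ≤ (2 : ℝ) ^ k₂ := one_le_pow₀ (by norm_num)
  have hX2 : 2 ≤ X := by linarith [one_le_pow₀ (n := 3 * j) hQ]
  have hlog : 0 ≤ Real.log (H₀ * 2 ^ k₂) := by exact_mod_cast Real.log_natCast_nonneg (H₀ * 2 ^ k₂)
  refine (split_UBStep (fun h => Fv v X h / h)
    (fun h => div_nonneg (nonneg_UBStep hv (by linarith) h) (Nat.cast_nonneg _)) S k₁ k₂).trans ?_
  refine (sum_le_card_nsmul _ _ (ε + ζ * (1 + Real.log (H₀ * 2 ^ k₂))) fun k hkk => ?_).trans ?_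
  swap
  · rw [Nat.card_Ico, nsmul_eq_mul]
    exact mul_le_mul_of_nonneg_right (by exact_mod_cast Nat.sub_le _ _) (by positivity)
  obtain ⟨hk1, hk2⟩ := mem_Ico.1 hkk
  obtain ⟨hne, hz⟩ := hk k hk1 hk2
  have hA : (0 : ℝ) < 2 ^ k := by positivity
  have hc : ((prs ((2 : ℝ) ^ k)).card : ℝ) ≤ 2 ^ k := by exact_mod_cast card_UBStep k
  have hpA : ∀ p ∈ prs ((2 : ℝ) ^ k), (2 : ℝ) ^ k ≤ p := fun p hp => by
    exact_mod_cast (mem_Par hp).1.le
  have hpQ : ∀ p ∈ prs ((2 : ℝ) ^ k), p ≤ 2 ^ k₂ := fun p hp =>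
    (mem_Par hp).2.trans (Nat.pow_le_pow_right (by norm_num) hk2)
  have hp0 : ∀ p ∈ prs ((2 : ℝ) ^ k), 0 < p := fun p hp => (mem_filter.1 hp).2.pos
  have e1 : ∀ p ∈ prs ((2 : ℝ) ^ k), ∑ h ∈ S, Fv v X (p * h) / (p * h : ℕ) =
      (∑ h ∈ S, Fv (-v) (X / p) h / h) / p + ∑ H ∈ Icc 1 (H₀ * 2 ^ k₂), (2 ^ k * (H : ℝ))⁻¹ *
        ((if (H + p - 1) / p ∈ S then 2 ^ k * (H : ℝ) / (p * (p * ((H + p - 1) / p) : ℕ)) else 0) *
          (Fv v X (p * ((H + p - 1) / p)) - Fv (-v) (X / p) ((H + p - 1) / p))) := by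
    intro p hp
    have hpR : (0 : ℝ) < p := by exact_mod_cast hp0 p hp
    have := fib_UBStep (fun h => (Fv v X (p * h) - Fv (-v) (X / p) h) / (p * (p * h : ℕ)))
      (N := H₀ * 2 ^ k₂) (hp0 p hp) S fun h hh =>
        ⟨(hS h hh).1, Nat.mul_le_mul (hS h hh).2 (hpQ p hp)⟩
    rw [sum_congr (s₁ := Icc 1 (H₀ * 2 ^ k₂)) rfl (g := fun H => if (H + p - 1) / p ∈ S then
      (Fv v X (p * ((H + p - 1) / p)) - Fv (-v) (X / p) ((H + p - 1) / p)) /
        (p * (p * ((H + p - 1) / p) : ℕ)) else 0) fun H hH => ?_, this, sum_div, mul_sum,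
      ← sum_add_distrib]
    · refine sum_congr rfl fun h hh => ?_
      have : (0 : ℝ) < h := by exact_mod_cast (hS h hh).1
      push_cast
      field_simp
      ring
    · have : (0 : ℝ) < H := by exact_mod_cast (mem_Icc.1 hH).1
      split_ifs
      · rw [div_mul_eq_mul_div, mul_div_assoc, inv_mul_cancel_left₀ (by positivity)]
      · simp
  rw [sum_congr rfl e1, sum_add_distrib]
  refine add_le_add ?_ ?_
  · refine (sum_le_card_nsmul _ _ (ε / 2 ^ k) fun p hp => ?_).trans ?_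
    · exact div_le_div₀ hε (hP p (mem_biUnion.2 ⟨k, hkk, hp⟩)) hA (hpA p hp)
    · rw [nsmul_eq_mul, ← mul_div_assoc, div_le_iff₀' hA]
      exact mul_le_mul_of_nonneg_right hc hε
  rw [sum_comm]
  have h5 := harm_UBStep (H₀ * 2 ^ k₂)
  push_cast at h5
  refine le_trans ?_ (mul_le_mul_of_nonneg_left h5 hζ)
  rw [mul_sum]
  refine sum_le_sum fun H hH => ?_
  have hH0 : (0 : ℝ) < H := by exact_mod_cast (mem_Icc.1 hH).1
  have hg : ∀ p ∈ prs ((2 : ℝ) ^ k), H ≤ p * ((H + p - 1) / p) ∧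
      p * ((H + p - 1) / p) ≤ H + 2 ^ k₂ := fun p hp => by
    have h1 := Nat.mul_div_le (H + p - 1) p
    have h2 := Nat.lt_mul_div_succ (H + p - 1) (hp0 p hp)
    have h3 := hpQ p hp
    have h4 := hp0 p hp
    rw [mul_add, mul_one] at h2
    omega
  have h6 := hB L (2 ^ k₂) j H v X (prs ((2 : ℝ) ^ k))
    (fun p => if (H + p - 1) / p ∈ S then 2 ^ k * H / (p * (p * ((H + p - 1) / p) : ℕ)) else 0)
    (fun p => (H + p - 1) / p) hv (fun p hp => by
      split_ifs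
      · have h1 : (H : ℝ) ≤ (p * ((H + p - 1) / p) : ℕ) := by exact_mod_cast (hg p hp).1
        rw [abs_of_nonneg (by positivity)]
        exact div_le_one_of_le₀ (mul_le_mul (hpA p hp) h1 hH0.le (Nat.cast_nonneg _))
          (by positivity)
      · simp) (fun p hp => ⟨(mem_filter.1 hp).2, hpQ p hp, hg p hp⟩) hne hj hX2 hpat (by
      refine le_trans ?_ hX
      push_cast
      rw [show 3 * j = 2 * j + j by ring, pow_add, ← mul_assoc]
      refine mul_le_mul_of_nonneg_left (pow_le_pow_left₀ (Nat.cast_nonneg _) ?_ _) (by positivity)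
      exact hc.trans (pow_le_pow_right₀ (by norm_num) hk2.le))
  have h7 := ((le_abs_self _).trans h6).trans (by push_cast; exact hz)
  have hcp : (0 : ℝ) < (prs ((2 : ℝ) ^ k)).card := by exact_mod_cast hne.card_pos
  rw [expect_eq_sum_div_card, div_le_iff₀ hcp] at h7
  rw [← mul_sum, inv_mul_le_iff₀ (by positivity), mul_comm ζ, mul_assoc,
    mul_inv_cancel_left₀ hH0.ne', mul_comm _ ζ]
  exact h7.trans (mul_le_mul_of_nonneg_left hc hζ)

end Pool.Agent.MP_4fffd4_nt.AN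

end
end

section

open Finset Filter
open scoped BigOperators ComplexConjugate Topology Pointwise

noncomputable section

namespace Pool.Agent.MP_4fffd4_nt.AN

open Pool.Agent.MP_4fffd4_nt.SX

end Pool.Agent.MP_4fffd4_nt.AN

end
end

section

/-!
The base with several primes and the global steps together.
-/

namespace Pool.Agent.MP_4fffd4_nt.AN

open Pool.Agent.MP_4fffd4_nt.SX

theorem baseR_all : BaseRStmt :=
  baseR_stmt (bIter_stmt (bStep_stmt (bDec_stmt shift_stmt dec_all (rs_stmt shift_stmt))))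
    (count_stmt cheb_stmt) sieveR_stmt (coreR_stmt (pet_stmt shift_stmt gcs_stmt))
    (bNum_stmt cheb_stmt) mono_stmt

end Pool.Agent.MP_4fffd4_nt.AN

end

section

open Finset Filter
open scoped BigOperators ComplexConjugate Topology

noncomputable section

namespace Pool.Agent.MP_4fffd4_nt.AN

open Pool.Agent.MP_4fffd4_nt.SX

lemma rr_zero_VBt {A : ℕ} (θ : ℤ → ℝ) (u u' : Fin 0 → Fin A) :
    rr θ A u u' = ∑ d ∈ Ioc (0 : ℤ) (A : ℤ), θ d := by
  unfold rr
  simp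

theorem vBt_stmt (h : SieveWStmt) : VBtStmt := by
  obtain ⟨C, A₀, hC, h⟩ := h 0
  refine ⟨2 * Real.sqrt C, max 2 A₀, by positivity, le_max_left _ _, fun y z hz hy => ?_⟩
  have hz2 : (2 : ℝ) ≤ z := (le_max_left _ _).trans hz
  have hzA : (A₀ : ℝ) ≤ z := (le_max_right _ _).trans hz
  have hy0 : (0 : ℝ) ≤ y := by linarith
  set A : ℕ := ⌊z⌋₊ + 1 with hA
  have hA0 : A₀ ≤ A := by
    have : A₀ ≤ ⌊z⌋₊ := Nat.le_floor hzA
    omega
  have hzy : ⌊z⌋₊ ≤ ⌊y⌋₊ := Nat.floor_le_floor hy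
  have hsum : ⌊y + z⌋₊ ≤ ⌊y⌋₊ + A := by
    have h1 : y + z < ((⌊y⌋₊ + A + 1 : ℕ) : ℝ) := by
      have a1 := Nat.lt_floor_add_one y
      have a2 := Nat.lt_floor_add_one z
      rw [hA]
      push_cast
      linarith
    have h2 := (Nat.floor_lt (by linarith : (0 : ℝ) ≤ y + z)).2 h1
    omega
  set θ : ℤ → ℝ := fun d => if ((⌊y⌋₊ : ℤ) + d).toNat ∈ pio y (y + z) then 1 else 0 with hθ
  have h1 := h A (⌊y⌋₊ : ℤ) θ hA0 (fun d => by
      simp only [hθ]
      split_ifs <;> norm_num)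
    (fun d hd => by
      simp only [hθ] at hd
      have hm : ((⌊y⌋₊ : ℤ) + d).toNat ∈ pio y (y + z) := by
        by_contra hn
        exact hd (if_neg hn)
      have a1 := mem_filter.1 hm
      have a2 := (mem_Ioc.1 a1.1).1
      refine ⟨a1.2, ?_⟩
      omega)
  simp only [rr_zero_VBt, expect_const univ_nonempty] at h1
  have hcard : ((pio y (y + z)).card : ℝ) ≤ ∑ d ∈ Ioc (0 : ℤ) (A : ℤ), θ d := by
    simp only [hθ]
    rw [sum_boole]
    have : (pio y (y + z)).card ≤ ((Ioc (0 : ℤ) (A : ℤ)).filter fun d =>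
        ((⌊y⌋₊ : ℤ) + d).toNat ∈ pio y (y + z)).card := by
      refine card_le_card_of_injOn (fun a : ℕ => (a : ℤ) - ⌊y⌋₊) (fun a ha => ?_) ?_
      · have ha' : a ∈ pio y (y + z) := ha
        have a2 := mem_Ioc.1 (mem_filter.1 ha').1
        have e : ((⌊y⌋₊ : ℤ) + ((a : ℤ) - ⌊y⌋₊)).toNat = a := by omega
        have e1 : (0 : ℤ) < (a : ℤ) - ⌊y⌋₊ := by omega
        have e2 : (a : ℤ) - ⌊y⌋₊ ≤ A := by omega
        refine mem_coe.2 (mem_filter.2 ⟨mem_Ioc.2 ⟨e1, e2⟩, ?_⟩)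
        beta_reduce
        rw [e]
        exact ha'
      · intro a _ b _ hab
        simp only at hab
        omega
    exact_mod_cast this
  have hlz : 0 < Real.log z := Real.log_pos (by linarith)
  have hAz : z ≤ (A : ℝ) := by
    rw [hA]
    push_cast
    exact (Nat.lt_floor_add_one z).le
  have hA2 : (A : ℝ) ≤ 2 * z := by
    rw [hA]
    push_cast
    have := Nat.floor_le (by linarith : (0 : ℝ) ≤ z)
    linarith
  have hlA : Real.log z ≤ Real.log A := Real.log_le_log (by linarith) hAz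
  have hS : ∑ d ∈ Ioc (0 : ℤ) (A : ℤ), θ d ≤ Real.sqrt C * A / Real.log A := by
    refine le_trans (le_abs_self _) (abs_le_of_sq_le_sq ?_ (by
      have : 0 < Real.log A := by linarith
      positivity))
    · refine h1.trans (le_of_eq ?_)
      rw [div_pow, mul_pow, Real.sq_sqrt hC.le]
      norm_num
  refine hcard.trans (hS.trans ?_)
  calc Real.sqrt C * A / Real.log A ≤ Real.sqrt C * (2 * z) / Real.log z := by
        gcongr
    _ = 2 * Real.sqrt C * z / Real.log z := by ring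

lemma blk_VBt {x Z : ℝ} (hx : 1 < x) (hxZ : x ≤ Z ^ 2)
    (h : x / (4 * Real.log x) ≤ (prs x).card) : 1 / (16 * Real.log Z) ≤ Lr (prs x) := by
  have hl : 0 < Real.log x := Real.log_pos hx
  have hx0 : 0 < x := by linarith
  have h2 : (prs x).card • ((1 : ℝ) / (2 * x)) ≤ ∑ p ∈ prs x, (1 : ℝ) / p :=
    card_nsmul_le_sum _ _ _ fun p hp => by
      have a1 := mem_filter.1 hp
      have a2 := (mem_Ioc.1 a1.1).2
      have a3 : (0 : ℝ) < p := by exact_mod_cast a1.2.pos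
      have a4 : (p : ℝ) ≤ 2 * x :=
        (Nat.cast_le.2 a2).trans (Nat.floor_le (by linarith))
      exact one_div_le_one_div_of_le a3 a4
  rw [nsmul_eq_mul] at h2
  have h3 : Real.log x ≤ 2 * Real.log Z := by
    have := Real.log_le_log hx0 hxZ
    rw [Real.log_pow] at this
    exact_mod_cast this
  unfold Lr
  refine le_trans ?_ (le_trans (mul_le_mul_of_nonneg_right h (by positivity)) h2)
  have e : x / (4 * Real.log x) * (1 / (2 * x)) = 1 / (8 * Real.log x) := by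
    field_simp
    ring
  rw [e]
  exact one_div_le_one_div_of_le (by positivity) (by linarith)

lemma step_VBt {Z x : ℝ} (hx : Z ≤ x) (h0 : 0 ≤ x) :
    Lr (pio Z (2 * x)) = Lr (pio Z x) + Lr (prs x) := by
  have h1 : ⌊Z⌋₊ ≤ ⌊x⌋₊ := Nat.floor_le_floor hx
  have h2 : ⌊x⌋₊ ≤ ⌊2 * x⌋₊ := Nat.floor_le_floor (by linarith)
  unfold Lr pio prs
  rw [sum_filter, sum_filter, sum_filter, sum_Ioc_consecutive _ h1 h2]

theorem vCh_stmt (h : ChebStmt) : VChStmt := by
  obtain ⟨x₀, hx₀⟩ := eventually_atTop.1 h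
  filter_upwards [eventually_ge_atTop x₀, eventually_gt_atTop 1,
    Real.tendsto_log_atTop.eventually_ge_atTop 3] with Z h1 h2 h3
  have hl2 : (0 : ℝ) < Real.log 2 := Real.log_pos (by norm_num)
  have hl2' : Real.log 2 ≤ 0.7 := by have := Real.log_two_lt_d9; linarith
  set m : ℕ := ⌊Real.log Z / Real.log 2⌋₊ with hm
  have hm1 : (2 : ℝ) ^ m ≤ Z := by
    have a1 : (m : ℝ) ≤ Real.log Z / Real.log 2 := Nat.floor_le (by positivity)
    rw [le_div_iff₀ hl2, ← Real.log_pow] at a1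
    exact (Real.log_le_log_iff (by positivity) (by linarith)).1 a1
  have hm2 : Real.log Z ≤ m := by
    have a1 : Real.log Z / Real.log 2 < m + 1 := Nat.lt_floor_add_one _
    rw [div_lt_iff₀ hl2] at a1
    have a2 : (0 : ℝ) ≤ m := Nat.cast_nonneg _
    nlinarith
  have key : ∀ i : ℕ, i ≤ m → (i : ℝ) * (1 / (16 * Real.log Z)) ≤ Lr (pio Z (Z * 2 ^ i)) := by
    intro i
    induction i with
    | zero =>
      intro _
      simp only [Nat.cast_zero, zero_mul]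
      exact sum_nonneg fun p _ => by positivity
    | succ i ih =>
      intro hi
      have a1 : (1 : ℝ) ≤ 2 ^ i := one_le_pow₀ (by norm_num)
      have a2 : Z ≤ Z * 2 ^ i := by nlinarith
      have a3 : (2 : ℝ) ^ i ≤ 2 ^ m := pow_le_pow_right₀ (by norm_num) (by omega)
      have a4 : Z * 2 ^ i ≤ Z ^ 2 := by nlinarith
      have e : Z * 2 ^ (i + 1) = 2 * (Z * 2 ^ i) := by ring
      rw [e, step_VBt a2 (by linarith)]
      have b1 := ih (by omega)
      have b2 := blk_VBt (x := Z * 2 ^ i) (Z := Z) (by linarith) a4 (hx₀ _ (by linarith))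
      push_cast
      linarith
  have k1 := key m le_rfl
  have k2 : Lr (pio Z (Z * 2 ^ m)) ≤ Lr (pio Z (Z ^ 2)) := by
    unfold Lr pio
    refine sum_le_sum_of_subset_of_nonneg (filter_subset_filter _ (Ioc_subset_Ioc_right
      (Nat.floor_le_floor (by nlinarith)))) fun p _ _ => by positivity
  refine le_trans ?_ (k1.trans k2)
  have hl : 0 < Real.log Z := by linarith
  rw [mul_one_div, div_le_div_iff₀ (by norm_num) (by positivity)]
  linarith

end Pool.Agent.MP_4fffd4_nt.AN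

end
end

section

open Finset Filter
open scoped BigOperators ComplexConjugate Topology

noncomputable section

namespace Pool.Agent.MP_4fffd4_nt.AN

open Pool.Agent.MP_4fffd4_nt.SX

theorem log_VEul {z : ℂ} (hz : ‖z‖ ≤ 1 / 2) : ‖-Complex.log (1 - z) - z‖ ≤ ‖z‖ ^ 2 := by
  have h := Complex.norm_log_one_add_sub_self_le (z := -z) (by rw [norm_neg]; linarith)
  rw [norm_neg, ← norm_neg, ← sub_eq_add_neg, sub_neg_eq_add, neg_add'] at h
  refine h.trans ?_
  have h2 : (1 - ‖z‖)⁻¹ ≤ 2 := by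
    rw [inv_le_comm₀ (by linarith) two_pos]
    linarith
  have h3 := mul_le_mul_of_nonneg_left h2 (sq_nonneg ‖z‖)
  linarith

theorem sq_VEul : Summable (fun p : Nat.Primes => (1 : ℝ) / ((p : ℕ) : ℝ) ^ 2) ∧
    ∑' p : Nat.Primes, (1 : ℝ) / ((p : ℕ) : ℝ) ^ 2 ≤ 2 := by
  have hs := hasSum_zeta_two.summable
  refine ⟨hs.comp_injective Subtype.val_injective, ?_⟩
  have h := tsum_comp_le_tsum_of_inj hs (fun n => by positivity)
    (Subtype.val_injective (p := Nat.Prime))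
  rw [hasSum_zeta_two.tsum_eq] at h
  refine le_trans h ?_
  have h1 := Real.pi_lt_d2
  have h2 := Real.pi_pos
  nlinarith

theorem vEul_stmt : VEulStmt := by
  intro q χ s hs
  have h1 : ∀ p : Nat.Primes, ‖χ (p : ℕ) * ((p : ℕ) : ℂ) ^ (-s)‖ ≤ ((p : ℕ) : ℝ) ^ (-s).re :=
    fun p => by
      rw [norm_mul, Complex.norm_natCast_cpow_of_pos p.2.pos]
      exact mul_le_of_le_one_left (by positivity) (χ.norm_le_one _)
  have h2 : ∀ p : Nat.Primes, ‖χ (p : ℕ) * ((p : ℕ) : ℂ) ^ (-s)‖ ≤ 1 / ((p : ℕ) : ℝ) := fun p => by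
    refine (h1 p).trans ?_
    rw [one_div, ← Real.rpow_neg_one]
    exact Real.rpow_le_rpow_of_exponent_le (by exact_mod_cast p.2.pos) (by
      rw [Complex.neg_re]; linarith)
  have h3 : Summable (fun p : Nat.Primes => χ (p : ℕ) * ((p : ℕ) : ℂ) ^ (-s)) :=
    ((Nat.Primes.summable_rpow.2 (by rw [Complex.neg_re]; linarith)).of_nonneg_of_le
      (fun _ => norm_nonneg _) h1).of_norm
  refine ⟨h3, ?_⟩
  rw [← χ.LSeries_eulerProduct_exp_log hs, Complex.norm_exp, Real.log_exp, ← Complex.sub_re,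
    ← (χ.summable_neg_log_one_sub_mul_prime_cpow hs).tsum_sub h3]
  refine (Complex.abs_re_le_norm _).trans
    ((tsum_of_norm_bounded sq_VEul.1.hasSum fun p => ?_).trans sq_VEul.2)
  have h4 : (2 : ℝ) ≤ (p : ℕ) := by exact_mod_cast p.2.two_le
  refine (log_VEul ((h2 p).trans (one_div_le_one_div_of_le two_pos h4))).trans ?_
  rw [← one_div_pow]
  exact pow_le_pow_left₀ (norm_nonneg _) (h2 p) 2

theorem step_VEul {x δ : ℝ} (hx : 0 < x) (hδ : 0 < δ) :
    x ^ (-δ) - (x + 1) ^ (-δ) ≤ δ * (1 / x ^ (1 + δ)) := by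
  have h1 : (x + 1) ^ (-δ) = x ^ (-δ) * (1 + 1 / x) ^ (-δ) := by
    rw [← Real.mul_rpow hx.le (by positivity), mul_add, mul_one, mul_one_div_cancel hx.ne']
  have h2 : 1 - δ * (1 / x) ≤ (1 + 1 / x) ^ (-δ) := by
    rw [Real.rpow_def_of_pos (by positivity)]
    have h3 := Real.log_le_sub_one_of_pos (show 0 < 1 + 1 / x by positivity)
    have h4 := Real.add_one_le_exp (Real.log (1 + 1 / x) * -δ)
    nlinarith
  have h5 : 1 / x ^ (1 + δ) = x ^ (-δ) * (1 / x) := by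
    rw [Real.rpow_add hx, Real.rpow_one, Real.rpow_neg hx.le]
    field_simp
  have h6 := mul_le_mul_of_nonneg_left h2 (Real.rpow_nonneg hx.le (-δ))
  rw [h1, h5]
  linarith

theorem zeta_VEul {δ : ℝ} (hδ : 0 < δ) (h1 : δ ≤ 1) :
    1 / δ ≤ ∑' n : ℕ, 1 / (n + 1 : ℝ) ^ (1 + δ) ∧
      ∑' n : ℕ, 1 / (n + 1 : ℝ) ^ (1 + δ) ≤ 2 * (1 / δ) := by
  constructor
  · have hs : Summable fun n : ℕ => 1 / (n + 1 : ℝ) ^ (1 + δ) := by
      have := (summable_nat_add_iff 1).2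
        (Real.summable_one_div_nat_rpow.2 (show 1 < 1 + δ by linarith))
      simpa only [Nat.cast_add, Nat.cast_one] using this
    have ht : Tendsto (fun N : ℕ => 1 - ((N : ℝ) + 1) ^ (-δ)) atTop (𝓝 (1 - 0)) :=
      tendsto_const_nhds.sub ((tendsto_rpow_neg_atTop hδ).comp
        (tendsto_natCast_atTop_atTop.atTop_add tendsto_const_nhds))
    rw [sub_zero] at ht
    rw [div_le_iff₀' hδ]
    refine le_of_tendsto' ht fun N => ?_
    refine le_trans ?_ (mul_le_mul_of_nonneg_left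
      (hs.sum_le_tsum (range N) fun n _ => by positivity) hδ.le)
    induction N with
    | zero => simp
    | succ N ih =>
      have := step_VEul (show (0 : ℝ) < N + 1 by positivity) hδ
      rw [sum_range_succ, mul_add, Nat.cast_succ]
      linarith
  · have h2 := ZetaAsymptotics.zeta_limit_aux1 (show 1 < 1 + δ by linarith)
    have h3 : 0 ≤ ZetaAsymptotics.termTSum (1 + δ) :=
      tsum_nonneg fun n => ZetaAsymptotics.term_nonneg _ _
    have h4 : 1 ≤ 1 / δ := one_le_one_div hδ h1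
    rw [add_sub_cancel_left] at h2
    nlinarith

theorem vZet_stmt (h : VEulStmt) : VZetStmt := by
  intro δ hδ h1
  have hs : 1 < ((1 + δ : ℝ) : ℂ).re := by
    rw [Complex.ofReal_re]
    linarith
  obtain ⟨-, h2⟩ := h 1 1 _ hs
  have e1 : LSeries (fun n : ℕ => (1 : DirichletCharacter ℂ 1) n) ((1 + δ : ℝ) : ℂ) =
      ((∑' n : ℕ, 1 / (n + 1 : ℝ) ^ (1 + δ) : ℝ) : ℂ) := by
    rw [DirichletCharacter.modOne_eq_one, LSeries_one_eq_riemannZeta hs,
      zeta_eq_tsum_one_div_nat_add_one_cpow hs, Complex.ofReal_tsum]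
    refine tsum_congr fun n => ?_
    rw [Complex.ofReal_div, Complex.ofReal_cpow (by positivity)]
    push_cast
    rfl
  have e2 : ∑' p : Nat.Primes, (1 : DirichletCharacter ℂ 1) (p : ℕ) *
      ((p : ℕ) : ℂ) ^ (-((1 + δ : ℝ) : ℂ)) =
      ((∑' p : Nat.Primes, ((p : ℕ) : ℝ) ^ (-(1 + δ)) : ℝ) : ℂ) := by
    rw [Complex.ofReal_tsum]
    refine tsum_congr fun p => ?_
    rw [MulChar.one_apply (isUnit_of_subsingleton _), one_mul, Complex.ofReal_cpow (by positivity)]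
    push_cast
    rfl
  obtain ⟨h3, h4⟩ := zeta_VEul hδ h1
  have h5 : 0 < 1 / δ := by positivity
  rw [e1, e2, Complex.ofReal_re, Complex.norm_real, Real.norm_of_nonneg (h5.le.trans h3),
    abs_le] at h2
  have h6 := Real.log_le_log h5 h3
  have h7 := Real.log_le_log (h5.trans_le h3) h4
  rw [Real.log_mul two_ne_zero h5.ne'] at h7
  have h8 := Real.log_le_sub_one_of_pos two_pos
  exact ⟨Nat.Primes.summable_rpow.2 (by linarith), by linarith, by linarith⟩

end Pool.Agent.MP_4fffd4_nt.AN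

end
end

section

open Finset Filter
open scoped BigOperators ComplexConjugate Topology

noncomputable section

namespace Pool.Agent.MP_4fffd4_nt.AN

open Pool.Agent.MP_4fffd4_nt.SX

theorem val_VRange (N : ℕ) [NeZero N] (φ : ℕ → ℝ) :
    𝔼 j : ZMod N, φ j.val = 𝔼 j ∈ range N, φ j :=
  expect_nbij' (fun j => j.val) (fun j => (j : ZMod N)) (fun a _ => mem_range.2 (ZMod.val_lt a))
    (fun _ _ => mem_univ _) (fun a _ => ZMod.natCast_zmod_val a)
    (fun _ ha => ZMod.val_natCast_of_lt (mem_range.1 ha)) fun _ _ => rfl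

theorem few_VRange {N : ℕ} [NeZero N] (φ : ZMod N → ℝ) (m : ℕ) {a b : ℝ} (ha : 0 ≤ a) (hb : 0 ≤ b)
    (h1 : ∀ j, φ j ≤ b) (h2 : ∀ j : ZMod N, m ≤ j.val → φ j ≤ a) :
    𝔼 j, φ j ≤ a + b * (m / N) := by
  have e : 𝔼 j : ZMod N, (if j.val < m then (1 : ℝ) else 0) ≤ m / N := by
    rw [val_VRange N fun j => if j < m then (1 : ℝ) else 0, expect_eq_sum_div_card, card_range,
      sum_boole]
    gcongr
    exact (card_le_card fun j hj => mem_range.2 (mem_filter.1 hj).2).trans (card_range m).le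
  calc _ ≤ 𝔼 j : ZMod N, (a + b * if j.val < m then (1 : ℝ) else 0) := by
        refine expect_le_expect fun j _ => ?_
        split_ifs with h
        · linarith [h1 j]
        · linarith [h2 j (not_lt.1 h)]
    _ = a + b * 𝔼 j : ZMod N, (if j.val < m then (1 : ℝ) else 0) := by
        rw [expect_add_distrib, Fintype.expect_const, mul_expect]
    _ ≤ _ := by gcongr

theorem sub_VRange {N : ℕ} [NeZero N] (j : ZMod N) {k : ℕ} (h : k ≤ j.val) :
    (j - (k : ZMod N)).val = j.val - k := by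
  have e := ZMod.val_natCast_of_lt (h.trans_lt (ZMod.val_lt j))
  rw [ZMod.val_sub (by rw [e]; exact h), e]

theorem ex_VRange (a b : ℝ) : ‖ex a - ex b‖ ≤ |a - b| := by
  have e : ex a - ex b = ex b * (Complex.exp (Complex.I * ((b - a : ℝ) : ℂ)) - 1) := by
    unfold ex
    rw [mul_sub, mul_one, ← Complex.exp_add]
    congr 2
    push_cast
    ring
  have e2 : ‖ex b‖ = 1 := by
    unfold ex
    rw [← Complex.ofReal_neg, Complex.norm_exp_ofReal_mul_I]
  rw [e, norm_mul, e2, one_mul, abs_sub_comm]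
  exact Real.norm_exp_I_mul_ofReal_sub_one_le

theorem wsum_VRange {Pr : Finset ℕ} {ν a : ℕ → ℂ} {B : ℝ} (hν : ∑ p ∈ Pr, ‖ν p‖ ≤ 1) (hB : 0 ≤ B)
    (h : ∀ p ∈ Pr, ‖a p‖ ≤ B) : ‖∑ p ∈ Pr, ν p * a p‖ ≤ B := by
  calc _ ≤ ∑ p ∈ Pr, ‖ν p‖ * B := by
        refine (norm_sum_le _ _).trans (sum_le_sum fun p hp => ?_)
        rw [norm_mul]
        exact mul_le_mul_of_nonneg_left (h p hp) (norm_nonneg _)
    _ ≤ 1 * B := by rw [← sum_mul]; gcongr
    _ = B := one_mul B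

theorem re_VRange {x y : ℂ} {B : ℝ} (hx : ‖x‖ ≤ 2) (hy : ‖y‖ ≤ B) : (conj x * y).re ≤ 2 * B := by
  refine (Complex.re_le_norm _).trans ?_
  rw [norm_mul, Complex.norm_conj]
  exact mul_le_mul hx hy (norm_nonneg _) zero_le_two

theorem vRange_stmt (h1 : VLipStmt) (h2 : VTkStmt) (h3 : VSpecStmt) : VRangeStmt := by
  intro c ε hc hε
  set κ : ℝ := min (c / 2) 1 with hκ
  have κ0 : 0 < κ := lt_min (by positivity) one_pos
  set C : ℝ := 60 / c + 243 / κ ^ 2 with hC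
  have C0 : 0 < C := by positivity
  filter_upwards [eventually_ge_atTop 1, eventually_ge_atTop ((C / ε) ^ 2)] with K hK hKC
  intro f Pr P Y u N hf hPr hL hY hfr hu hN
  have K0 : 0 < K := by linarith
  have Y0 : 0 < Y := by linarith
  have L1 : 1 ≤ Lr Pr := hK.trans hL
  have hP : 2 ≤ P := by
    rcases Pr.eq_empty_or_nonempty with rfl | ⟨p, hp⟩
    · simp [Lr] at L1
      linarith
    · exact le_trans (by exact_mod_cast (hPr p hp).1.two_le) (hPr p hp).2
  have lP : 1 / 2 ≤ Real.log P :=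
    le_trans (by linarith [Real.log_two_gt_d9]) (Real.log_le_log two_pos hP)
  have N2 : K ^ 2 / 2 ≤ N := by
    refine le_trans ?_ hN
    calc K ^ 2 / 2 = K ^ 2 * 1 * (1 / 2) := by ring
      _ ≤ _ := by gcongr
  have N0 : (0 : ℝ) < N := lt_of_lt_of_le (by positivity) N2
  have : NeZero N := ⟨by rintro rfl; simp at N0⟩
  have KP : 1 ≤ K * P := by nlinarith
  have PY : P * Y ≤ u := by
    refine le_trans ?_ hu
    calc P * Y = 1 * (P * Y) := by ring
      _ ≤ K * P * (P * Y) := by gcongr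
      _ = _ := by ring
  have Yu : Y ≤ u := le_trans (by nlinarith) PY
  have u0 : 0 < u := by linarith
  set σ : ℝ := 1 / (K * Y) with hσ
  have σ0 : 0 < σ := by positivity
  have Yσ : Y * σ = 1 / K := by rw [hσ]; field_simp
  set r : ℝ := 1 / Real.sqrt K with hr
  have sK : 1 ≤ Real.sqrt K := Real.one_le_sqrt.2 hK
  have r0 : 0 < r := by positivity
  have r1 : r ≤ 1 := by rw [hr, div_le_one (by linarith)]; exact sK
  have rK : 1 / K = r ^ 2 := by rw [hr, div_pow, one_pow, Real.sq_sqrt K0.le]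
  have rK' : 1 / K ≤ r := by rw [rK]; exact pow_le_of_le_one r0.le r1 two_ne_zero
  have uj : ∀ j : ℕ, u ≤ u * Real.exp (j * σ) := fun j =>
    le_mul_of_one_le_right u0.le (Real.one_le_exp (by positivity))
  set F : ℕ → ℂ := fun j => gw f Y (u * Real.exp (j * σ)) with hF
  have F2 : ∀ j, ‖F j‖ ≤ 2 := fun j => (h1 f Y _ hf.1 hY (Yu.trans (uj j))).1
  set ν : ℕ → ℂ := fun p => f p / (p * Lr Pr) with hν
  have ν1 : ∑ p ∈ Pr, ‖ν p‖ ≤ 1 := by
    calc _ ≤ ∑ p ∈ Pr, (1 : ℝ) / p / Lr Pr := sum_le_sum fun p _ => by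
          rw [hν, norm_div, norm_mul, Complex.norm_natCast, Complex.norm_of_nonneg (by linarith),
            div_div]
          exact div_le_div_of_nonneg_right (hf.1 p) (by positivity)
      _ = 1 := by rw [← sum_div]; exact div_self (by linarith : Lr Pr ≠ 0)
  set k : ℕ → ℕ := fun p => ⌊Real.log p / σ⌋₊ with hk
  have k1 : ∀ p : ℕ, (k p : ℝ) ≤ Real.log p / σ := fun p =>
    Nat.floor_le (div_nonneg (Real.log_natCast_nonneg p) σ0.le)
  have k2 : ∀ p : ℕ, Real.log p / σ < k p + 1 := fun p => Nat.lt_floor_add_one _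
  have key := h3 N (fun j => F j.val) Pr ν k (c / 2) κ (by positivity) κ0 ν1 fun θ hθ => by
    have a1 := hfr (θ / σ) (by
      rw [abs_div, abs_of_pos σ0, hσ, div_div_eq_mul_div, div_one]
      exact mul_le_of_le_one_left (by positivity) (hθ.trans (min_le_right _ _)))
    have a2 : ‖∑ p ∈ Pr, ν p * (ex (k p * θ) - ex (θ / σ * Real.log p))‖ ≤ c / 2 := by
      refine wsum_VRange ν1 (by positivity) fun p _ => (ex_VRange _ _).trans ?_
      have e : (k p : ℝ) * θ - θ / σ * Real.log p = θ * (k p - Real.log p / σ) := by ring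
      rw [e, abs_mul]
      refine (mul_le_of_le_one_right (abs_nonneg _) ?_).trans (hθ.trans (min_le_left _ _))
      rw [abs_le]
      constructor <;> linarith [k1 p, k2 p]
    have a3 := (Complex.re_le_norm _).trans a2
    simp only [mul_sub, sum_sub_distrib, Complex.sub_re] at a3
    linarith
  have b1 : 𝔼 j : ZMod N, (conj (F j.val) *
      (F j.val - ∑ p ∈ Pr, ν p * F (j - (k p : ZMod N)).val)).re ≤
      2 * (11 * r) + 2 * 4 * ((⌊Real.log P / σ⌋₊ : ℝ) / N) := by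
    refine few_VRange _ _ (by positivity) (by norm_num) (fun j => re_VRange (F2 _) ?_)
      fun j hj => re_VRange (F2 _) ?_
    · refine (norm_sub_le _ _).trans ?_
      linarith [F2 j.val, wsum_VRange ν1 zero_le_two fun p _ => F2 (j - (k p : ZMod N)).val]
    · set v := u * Real.exp (j.val * σ) with hv
      have uv : u ≤ v := uj _
      have v0 : 0 < v := by linarith
      have t1 := h2 f Pr P Y v hf hPr L1 hY (Yu.trans uv)
      have t2 : 2 / Real.sqrt (Lr Pr) ≤ 2 * r := by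
        rw [hr, mul_one_div]
        gcongr
      have t3 : P * Real.sqrt (Y / v) ≤ r := by
        refine (pow_le_pow_iff_left₀ (by positivity) r0.le two_ne_zero).1 ?_
        rw [mul_pow, Real.sq_sqrt (by positivity), ← rK, ← mul_div_assoc, div_le_div_iff₀ v0 K0]
        linarith
      have t4 : ‖∑ p ∈ Pr, ν p * (gw f Y (v / p) - F (j - (k p : ZMod N)).val)‖ ≤ 6 * r := by
        refine wsum_VRange ν1 (by positivity) fun p hp => ?_
        obtain ⟨pp, pP⟩ := hPr p hp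
        have p0 : (0 : ℝ) < p := by exact_mod_cast pp.pos
        have kp : k p ≤ j.val := le_trans (Nat.floor_le_floor (by gcongr)) hj
        have s0 : 0 ≤ Real.log p - k p * σ := by
          have := (le_div_iff₀ σ0).1 (k1 p)
          linarith
        have s1 : Real.log p - k p * σ ≤ σ := by
          have := (div_lt_iff₀ σ0).1 (k2 p)
          linarith
        have vp : Y ≤ v / p := by
          rw [le_div_iff₀ p0]
          have : Y * p ≤ Y * P := by gcongr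
          linarith
        have e : F (j - (k p : ZMod N)).val = gw f Y (v / p * Real.exp (Real.log p - k p * σ)) := by
          rw [sub_VRange j kp]
          refine congrArg (gw f Y) ?_
          rw [Nat.cast_sub kp, sub_mul, Real.exp_sub, Real.exp_sub, Real.exp_log p0, hv]
          field_simp
        rw [e, norm_sub_rev]
        refine ((h1 f Y _ hf.1 hY vp).2 _ s0).trans ?_
        have c1 : Y * (Real.log p - k p * σ) ≤ 1 / K := by rw [← Yσ]; gcongr
        have c2 : 2 * Y / (v / p) ≤ 1 / K := by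
          rw [div_div_eq_mul_div, div_le_div_iff₀ v0 K0]
          have : 2 * Y * p * K ≤ P * Y * P * K := by gcongr
          linarith
        linarith
      have e : F j.val - ∑ p ∈ Pr, ν p * F (j - (k p : ZMod N)).val =
          (gw f Y v - ∑ p ∈ Pr, f p / (p * Lr Pr) * gw f Y (v / p)) +
            ∑ p ∈ Pr, ν p * (gw f Y (v / p) - F (j - (k p : ZMod N)).val) := by
        simp only [mul_sub, sum_sub_distrib]
        rw [sub_add_sub_cancel]
      rw [e]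
      refine (norm_add_le _ _).trans ?_
      linarith
  have b2 : (⌊Real.log P / σ⌋₊ : ℝ) / N ≤ 1 / K := by
    rw [div_le_div_iff₀ N0 K0]
    have : (⌊Real.log P / σ⌋₊ : ℝ) ≤ Real.log P / σ := Nat.floor_le (by positivity)
    calc _ ≤ Real.log P / σ * K := mul_le_mul_of_nonneg_right this K0.le
      _ = K ^ 2 * Y * Real.log P := by rw [hσ, div_div_eq_mul_div, div_one]; ring
      _ ≤ 1 * N := by rw [one_mul]; exact hN
  have b3 : 𝔼 j : ZMod N, ‖F j.val - F (j - 1).val‖ ^ 2 ≤ (7 * (1 / K)) ^ 2 + 4 ^ 2 * ((1 : ℕ) / N) := by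
    refine few_VRange _ 1 (by positivity) (by norm_num)
      (fun j => pow_le_pow_left₀ (norm_nonneg _) ?_ 2)
      fun j hj => pow_le_pow_left₀ (norm_nonneg _) ?_ 2
    · refine (norm_sub_le _ _).trans ?_
      linarith [F2 j.val, F2 (j - 1).val]
    · have e := sub_VRange j hj
      rw [Nat.cast_one] at e
      have e2 : F j.val = gw f Y (u * Real.exp ((j.val - 1 : ℕ) * σ) * Real.exp σ) := by
        refine congrArg (gw f Y) ?_
        rw [mul_assoc, ← Real.exp_add, Nat.cast_sub hj, Nat.cast_one, sub_mul, one_mul,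
          sub_add_cancel]
      rw [e, e2]
      have uv := uj (j.val - 1)
      refine ((h1 f Y _ hf.1 hY (Yu.trans uv)).2 σ σ0.le).trans ?_
      have c2 : 2 * Y / (u * Real.exp ((j.val - 1 : ℕ) * σ)) ≤ 2 * (1 / K) := by
        rw [mul_one_div 2 K, div_le_div_iff₀ (u0.trans_le uv) K0]
        have : K * 1 * Y ≤ K * P ^ 2 * Y := by gcongr; exact one_le_pow₀ (by linarith)
        linarith
      linarith
  have b4 : ((1 : ℕ) : ℝ) / N ≤ 2 * (1 / K) ^ 2 := by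
    rw [Nat.cast_one, div_pow, one_pow, mul_one_div, div_le_div_iff₀ N0 (by positivity)]
    linarith
  have b5 : (1 / K) ^ 2 ≤ r := by
    have : 0 < 1 / K := by positivity
    exact (pow_le_of_le_one this.le (rK'.trans r1) two_ne_zero).trans rK'
  rw [← val_VRange N fun j => ‖F j‖ ^ 2]
  refine key.trans ?_
  have f1 : C * r ≤ ε := by
    have : C / ε ≤ Real.sqrt K := Real.le_sqrt_of_sq_le hKC
    rw [hr, mul_one_div, div_le_iff₀ (by linarith)]
    rw [div_le_iff₀ hε] at this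
    linarith
  calc _ ≤ 30 * r / (c / 2) + 3 / κ ^ 2 * (81 * r) := by
        gcongr
        · rw [re_expect']
          linarith
        · linarith
    _ = C * r := by rw [hC]; field_simp; ring
    _ ≤ ε := f1

end Pool.Agent.MP_4fffd4_nt.AN

end
end

section

/-!
The Liouville function in a fixed arithmetic progression.
-/

open Finset Filter
open scoped BigOperators ComplexConjugate Topology

noncomputable section

namespace Pool.Agent.MP_4fffd4_nt.AN

open Pool.Agent.MP_4fffd4_nt.SX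

theorem orth_MAp (I : Finset ℕ) (f : ℕ → ℝ) (d c : ℕ) [NeZero d] (hc : Nat.Coprime c d) :
    (d.totient : ℂ) * ((∑ n ∈ I.filter fun n => n % d = c % d, f n : ℝ) : ℂ) =
      ∑ χ : DirichletCharacter ℂ d, χ (c : ZMod d)⁻¹ * ∑ n ∈ I, χ n * (f n : ℂ) := by
  have hu : IsUnit (c : ZMod d) := (ZMod.isUnit_iff_coprime c d).2 hc
  simp only [mul_sum]
  rw [sum_comm, sum_filter, Complex.ofReal_sum, mul_sum]
  refine sum_congr rfl fun n _ => ?_
  simp only [← mul_assoc]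
  rw [← sum_mul, DirichletCharacter.sum_char_inv_mul_char_eq ℂ hu]
  have e : (c : ZMod d) = (n : ZMod d) ↔ n % d = c % d := by
    rw [eq_comm, ZMod.natCast_eq_natCast_iff']
  by_cases h : n % d = c % d
  · rw [if_pos h, if_pos (e.2 h)]
  · rw [if_neg h, if_neg (fun h' => h (e.1 h'))]
    simp

end Pool.Agent.MP_4fffd4_nt.AN

end
end

section

/-!
The Liouville function in short windows of an arithmetic progression.
-/

open Finset Filter
open scoped BigOperators ComplexConjugate Topology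

noncomputable section

namespace Pool.Agent.MP_4fffd4_nt.AN

open Pool.Agent.MP_4fffd4_nt.SX

theorem win_VAp (f : ℕ → ℝ) {W : ℕ} (hW : 1 ≤ W) (y B : ℕ) :
    ∑ v ∈ range B, f (y + W * (v + 1)) =
      ∑ n ∈ (Ioc y (y + W * B)).filter fun n => n % W = y % W, f n := by
  have e : ∀ n : ℕ, Icc 1 n = Ioc 0 n := fun n => Finset.ext fun k => by
    rw [mem_Icc, mem_Ioc]
    rfl
  have h := tele_LuOne f hW y B
  rw [e, e, sum_filter, sum_filter,
    ← sum_Ioc_consecutive _ (Nat.zero_le y) (Nat.le_add_right y (W * B))] at h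
  rw [sum_filter]
  exact (add_left_cancel h).symm

end Pool.Agent.MP_4fffd4_nt.AN

end
end

section

/-!
The Liouville function in windows of length x ^ (1 - θ) of an arithmetic progression.
-/

open Finset Filter
open scoped BigOperators ComplexConjugate Topology

noncomputable section

namespace Pool.Agent.MP_4fffd4_nt.AN

open Pool.Agent.MP_4fffd4_nt.SX

theorem chi_WAp (h : WWinStmt) (g d : ℕ) [NeZero d] (hg : 1 ≤ g) (χ : DirichletCharacter ℂ d)
    {ε : ℝ} (hε : 0 < ε) :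
    ∀ᶠ θ : ℝ in 𝓝[>] 0, ∀ᶠ X : ℕ in atTop, ∀ H : ℕ, (X : ℝ) ^ (1 - θ) ≤ H → H ≤ X →
      ‖∑ n ∈ Ioc (X / g) ((X + H) / g), χ n * (lam (n : ℤ) : ℂ)‖ ≤ ε * H := by
  have hg' : (1 : ℝ) ≤ g := by exact_mod_cast hg
  have t1 : Tendsto (fun X : ℕ => (X : ℝ) / g) atTop atTop :=
    tendsto_natCast_atTop_atTop.atTop_div_const (by linarith)
  obtain ⟨θ₀, h0, h⟩ := h d χ ε hε
  filter_upwards [Ioo_mem_nhdsGT (half_pos h0)] with θ hθ
  filter_upwards [t1.eventually h, t1.eventually_ge_atTop g, eventually_ge_atTop 1]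
    with X h1 h2 h3 H h4 h5
  have hX : (0 : ℝ) < X := by exact_mod_cast h3
  have hH : (0 : ℝ) < H := lt_of_lt_of_le (by positivity) h4
  have h6 := h1 (X / H) ((one_le_div hH).2 (by exact_mod_cast h5)) (by
    have e1 : (X : ℝ) / H ≤ (X : ℝ) ^ θ := by
      rw [Real.rpow_sub hX, Real.rpow_one, div_le_iff₀ (by positivity)] at h4
      rw [div_le_iff₀ hH, mul_comm]
      exact h4
    have e2 : (X : ℝ) ≤ ((X : ℝ) / g) ^ (2 : ℝ) := by
      rw [Real.rpow_two, sq]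
      refine le_trans (le_of_eq ?_) (mul_le_mul_of_nonneg_left h2 (by positivity))
      field_simp
    refine e1.trans ((Real.rpow_le_rpow hX.le e2 hθ.1.le).trans ?_)
    rw [← Real.rpow_mul (by positivity)]
    exact Real.rpow_le_rpow_of_exponent_le (hg'.trans h2) (by linarith [hθ.2]))
  have e1 : (X : ℝ) / g * (1 + 1 / (X / H)) = ((X + H : ℕ) : ℝ) / g := by
    push_cast
    field_simp
  have e2 : (X : ℝ) / H / (X / g) = g / H := by field_simp
  rw [gw, e1, e2, Nat.floor_div_eq_div, Nat.floor_div_eq_div, norm_mul, Complex.norm_real,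
    Real.norm_of_nonneg (by positivity), div_mul_eq_mul_div, div_le_iff₀ hH] at h6
  exact (le_mul_of_one_le_left (norm_nonneg _) hg').trans h6

theorem cop_WAp (h : WWinStmt) (g d : ℕ) (hg : 1 ≤ g) (hd : 1 ≤ d) {ε : ℝ} (hε : 0 < ε) :
    ∀ᶠ θ : ℝ in 𝓝[>] 0, ∀ᶠ X : ℕ in atTop, ∀ H : ℕ, (X : ℝ) ^ (1 - θ) ≤ H → H ≤ X →
      ∀ c : ℕ, Nat.Coprime c d →
      |∑ n ∈ (Ioc (X / g) ((X + H) / g)).filter fun n => n % d = c % d, lam (n : ℤ)| ≤ ε * H := by
  have : NeZero d := ⟨by omega⟩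
  filter_upwards [eventually_all.2 fun χ => chi_WAp h g d hg χ hε] with θ hθ
  filter_upwards [eventually_all.2 hθ] with X hx H h1 h2 c hc
  have hφ : (0 : ℝ) < d.totient := by exact_mod_cast Nat.totient_pos.2 hd
  refine le_of_mul_le_mul_left ?_ hφ
  have e := congrArg (fun z : ℂ => ‖z‖)
    (orth_MAp (Ioc (X / g) ((X + H) / g)) (fun n => lam (n : ℤ)) d c hc)
  simp only [norm_mul, Complex.norm_natCast, Complex.norm_real, Real.norm_eq_abs] at e
  rw [e]
  refine (norm_sum_le _ _).trans ((sum_le_card_nsmul _ _ (ε * H) fun χ _ => ?_).trans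
    (le_of_eq ?_))
  · rw [norm_mul]
    exact (mul_le_of_le_one_left (norm_nonneg _) (χ.norm_le_one _)).trans (hx χ H h1 h2)
  · rw [card_univ, ← Nat.card_eq_fintype_card,
      DirichletCharacter.card_eq_totient_of_hasEnoughRootsOfUnity ℂ d, nsmul_eq_mul]

theorem wAp_stmt (h : WWinStmt) : WApStmt := by
  intro W ε hW hε
  obtain ⟨θ, hθ, h0⟩ := (((eventually_all_finset (Icc 1 W)).2 fun g hg =>
    (eventually_all_finset (Icc 1 W)).2 fun d hd =>
      cop_WAp h g d (mem_Icc.1 hg).1 (mem_Icc.1 hd).1 hε).and self_mem_nhdsWithin).exists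
  refine ⟨θ, h0, ?_⟩
  filter_upwards [(eventually_all_finset (Icc 1 W)).2 fun g hg =>
    (eventually_all_finset (Icc 1 W)).2 (hθ g hg)] with X hX b H h2 h3
  have hg : 0 < Nat.gcd b W := Nat.gcd_pos_of_pos_right b hW
  obtain ⟨b', r', hc, hb, hr'⟩ := Nat.exists_coprime b W
  generalize Nat.gcd b W = g at hg hb hr'
  have hr0 : 0 < r' := Nat.pos_of_mul_pos_right (hr' ▸ hW : 0 < r' * g)
  have e : ∑ n ∈ (Ioc X (X + H)).filter fun n => n % (r' * g) = b' * g % (r' * g), lam (n : ℕ) =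
      (∑ n ∈ (Ioc (X / g) ((X + H) / g)).filter fun n => n % r' = b' % r', lam (n : ℕ)) *
        lam (g : ℕ) := by
    rw [sum_mul]
    symm
    refine sum_bij (fun n _ => n * g) (fun n hn => ?_) (fun n _ n' _ e => ?_) (fun n hn => ?_)
      fun n hn => ?_
    · simp only [mem_filter, mem_Ioc] at hn ⊢
      exact ⟨⟨(Nat.div_lt_iff_lt_mul hg).1 hn.1.1, (Nat.le_div_iff_mul_le hg).1 hn.1.2⟩, by
        rw [Nat.mul_mod_mul_right, Nat.mul_mod_mul_right, hn.2]⟩
    · exact Nat.eq_of_mul_eq_mul_right hg e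
    · simp only [mem_filter, mem_Ioc] at hn ⊢
      obtain ⟨k, rfl⟩ : g ∣ n :=
        (Nat.ModEq.dvd_iff hn.2 (Dvd.intro_left _ rfl)).2 (Dvd.intro_left _ rfl)
      rw [mul_comm g k, Nat.mul_mod_mul_right, Nat.mul_mod_mul_right] at hn
      exact ⟨k, ⟨⟨(Nat.div_lt_iff_lt_mul hg).2 hn.1.1, (Nat.le_div_iff_mul_le hg).2 hn.1.2⟩,
        Nat.eq_of_mul_eq_mul_right hg hn.2⟩, mul_comm k g⟩
    · have hn0 : 0 < n := Nat.zero_lt_of_lt (mem_Ioc.1 (mem_filter.1 hn).1).1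
      rw [Nat.cast_mul, lam_mul (by exact_mod_cast hn0) (by exact_mod_cast hg)]
  have h1 := hX g (mem_Icc.2 ⟨hg, by rw [hr']; exact Nat.le_mul_of_pos_left g hr0⟩) r'
    (mem_Icc.2 ⟨hr0, by rw [hr']; exact Nat.le_mul_of_pos_right r' hg⟩) H h2 h3 b' hc
  rw [hb, hr', e, abs_mul, abs_lam, mul_one]
  exact h1

theorem wLu_stmt (h : WApStmt) : LP 1 := by
  intro c hc ε hε
  have hW : 1 ≤ (c 0).natAbs := Int.natAbs_pos.2 (hc 0)
  have hW' : (1 : ℝ) ≤ (c 0).natAbs := by exact_mod_cast hW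
  have hs := Real.sqrt_pos.2 hε
  obtain ⟨θ, h0, hX⟩ := h _ (√ε / (c 0).natAbs) hW (by positivity)
  obtain ⟨X₀, hX⟩ := eventually_atTop.1 hX
  have ha : 0 < min θ 1 := lt_min h0 one_pos
  have ha1 := min_le_left θ 1
  have ha2 := min_le_right θ 1
  generalize min θ 1 = a at ha ha1 ha2
  have h1 : ∀ᶠ x : ℕ in atTop, (2 * (c 0).natAbs : ℝ) ≤ Real.log x :=
    (Real.tendsto_log_atTop.comp tendsto_natCast_atTop_atTop).eventually_ge_atTop _
  have h2 : ∀ᶠ x : ℕ in atTop, (2 : ℝ) ≤ (x : ℝ) ^ (a / 2) :=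
    ((tendsto_rpow_atTop (half_pos ha)).comp tendsto_natCast_atTop_atTop).eventually_ge_atTop _
  refine ⟨a / 2, half_pos ha, ?_⟩
  filter_upwards [h2, h1, eventually_ge_atTop (2 * X₀), eventually_ge_atTop 1]
    with x h2 h4 h5 h6 B hB1 hB2
  have hx : (0 : ℝ) < x := by exact_mod_cast h6
  have hB0 : (0 : ℝ) < B := lt_of_lt_of_le (by positivity) hB1
  have h7 : 2 * ((c 0).natAbs * B) ≤ x := by
    have h7 : (B : ℝ) * (2 * (c 0).natAbs) ≤ x := (mul_le_mul_of_nonneg_left h4 hB0.le).trans hB2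
    have h8 : B * (2 * (c 0).natAbs) ≤ x := by exact_mod_cast h7
    linarith
  obtain ⟨y, y1, y2, y3⟩ := sum_LuOne (c 0) x B (by exact_mod_cast hB0) h7
  have h8 := hX y (by omega) y ((c 0).natAbs * B) (by
    have e1 : (y : ℝ) ≤ 2 * x := by exact_mod_cast (by omega : y ≤ 2 * x)
    have e2 : (1 : ℝ) ≤ y := by exact_mod_cast (by omega : 1 ≤ y)
    have e3 : (2 : ℝ) ^ (1 - a) ≤ (x : ℝ) ^ (a / 2) := by
      refine le_trans ?_ h2
      simpa using Real.rpow_le_rpow_of_exponent_le one_le_two (by linarith : 1 - a ≤ 1)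
    refine (Real.rpow_le_rpow_of_exponent_le e2 (by linarith : 1 - θ ≤ 1 - a)).trans
      ((Real.rpow_le_rpow (by positivity) e1 (by linarith)).trans ?_)
    rw [Real.mul_rpow zero_le_two hx.le, Nat.cast_mul]
    refine (mul_le_mul_of_nonneg_right e3 (by positivity)).trans ?_
    rw [← Real.rpow_add hx, show a / 2 + (1 - a) = 1 - a / 2 by ring]
    exact hB1.trans (le_mul_of_one_le_left hB0.le hW')) (by omega)
  rw [← win_VAp (fun n => lam (n : ℤ)) hW, Nat.cast_mul, ← mul_assoc,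
    div_mul_cancel₀ _ (by positivity)] at h8
  rw [lb_LuOne, y3, ← Real.sq_sqrt hε.le, sq_le_sq, abs_div, abs_of_pos hB0, abs_of_pos hs,
    div_le_iff₀ hB0]
  exact h8

end Pool.Agent.MP_4fffd4_nt.AN

end
end

section

open Finset Filter
open scoped BigOperators ComplexConjugate Topology
noncomputable section
namespace Pool.Agent.MP_4fffd4_nt.AN
open Pool.Agent.MP_4fffd4_nt.SX

lemma lip_WArc (a b : ℝ) (r : ℕ) : ‖ex (a + b) ^ r - ex a ^ r‖ ≤ r * |b| := by
  have e : ex (a + b) ^ r - ex a ^ r = Complex.exp (((-(r * a) : ℝ) : ℂ) * Complex.I) *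
      (Complex.exp (Complex.I * ((-(r * b) : ℝ) : ℂ)) - 1) := by
    unfold ex
    rw [← Complex.exp_nat_mul, ← Complex.exp_nat_mul, mul_sub, ← Complex.exp_add, mul_one]
    congr 2 <;> push_cast <;> ring
  rw [e, norm_mul, Complex.norm_exp_ofReal_mul_I, one_mul]
  refine Real.norm_exp_I_mul_ofReal_sub_one_le.trans_eq ?_
  rw [Real.norm_eq_abs, abs_neg, abs_mul, Nat.abs_cast]

lemma mean_WArc {R : ℕ} (hR : 1 ≤ R) (a b : ℝ) :
    ‖𝔼 r ∈ range R, ex (a + b) ^ r‖ ≤ ‖𝔼 r ∈ range R, ex a ^ r‖ + R * |b| := by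
  refine (norm_le_insert' _ (𝔼 r ∈ range R, ex a ^ r)).trans (add_le_add_right ?_ _)
  rw [← expect_sub_distrib]
  refine (RCLike.norm_expect_le (K := ℂ)).trans
    (expect_le (nonempty_range_iff.2 (by omega)) fun r hr => (lip_WArc a b r).trans ?_)
  have : (r : ℝ) ≤ R := by exact_mod_cast (mem_range.1 hr).le
  gcongr

theorem wArc_stmt (h1 : VBlockStmt) (h2 : WGeoStmt) : WArcStmt := by
  obtain ⟨C, Z₀, hC, hZ₀, h1⟩ := h1
  obtain ⟨η, hη, e1, e2⟩ : ∃ η : ℝ, 0 < η ∧ η ≤ 1 / 2 ∧ η ≤ 1 / (64 * C) :=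
    ⟨min (1 / 2) (1 / (64 * C)), by positivity, min_le_left _ _, min_le_right _ _⟩
  obtain ⟨R, hR⟩ := exists_nat_gt (2 / η ^ 2)
  have R0 : (0 : ℝ) < R := lt_trans (by positivity) hR
  have R1 : 1 ≤ R := by exact_mod_cast R0
  have R1' : (1 : ℝ) ≤ R := by exact_mod_cast R1
  refine ⟨R, R1, fun A => ?_⟩
  filter_upwards [eventually_gt_atTop (0 : ℝ), eventually_ge_atTop ((Z₀ * R / η) ^ 4 * A),
    Real.tendsto_log_atTop.eventually_ge_atTop (4 * R : ℝ)] with Z Z0 hZ hl τ t1 t2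
  have t0 : 0 < |τ| := by linarith
  obtain ⟨σ, hσ⟩ : ∃ σ : ℝ, σ = η / (R * |τ|) := ⟨_, rfl⟩
  have s0 : 0 < σ := by rw [hσ]; positivity
  have s1 : R * (|τ| * σ) = η := by rw [hσ]; field_simp
  have s2 : σ ≤ 1 / 2 := by
    rw [hσ]
    exact (div_le_self hη.le (one_le_mul_of_one_le_of_one_le R1' t1)).trans e1
  have s3 : (Z₀ / σ) ^ 2 ≤ Z := by
    refine le_of_sq_le_sq ?_ Z0.le
    calc ((Z₀ / σ) ^ 2) ^ 2 = (Z₀ * R / η) ^ 4 * |τ| ^ 4 := by rw [hσ]; field_simp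
      _ ≤ (Z₀ * R / η) ^ 4 * (A * Z) := by
        rw [(by decide : Even 4).pow_abs]
        gcongr
      _ ≤ Z * Z := by rw [← mul_assoc]; gcongr
      _ = _ := (sq Z).symm
  have h3 := h1 (fun v => ‖𝔼 r ∈ range R, ex (-τ * Real.log v) ^ r‖) σ Z (Z ^ 2)⁻¹ η s0 s2 s3
    (by positivity) (fun _ => norm_nonneg _) hη.le fun v s hv h0 hs => by
      have v0 : 0 < v := lt_of_lt_of_le (by positivity) hv
      rw [Real.log_mul v0.ne' (Real.exp_pos _).ne', Real.log_exp, mul_add]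
      refine (mean_WArc R1 _ _).trans (add_le_add_right ?_ _)
      rw [abs_mul, abs_neg, abs_of_nonneg h0, ← s1]
      gcongr
  have N1 : Real.log Z / σ ≤ ⌈Real.log Z / σ⌉₊ := Nat.le_ceil _
  have l0 : 0 < Real.log Z := by linarith
  have b1 : |-τ * σ| = |τ| * σ := by rw [abs_mul, abs_neg, abs_of_pos s0]
  have h4 := h2 R ⌈Real.log Z / σ⌉₊ (-τ * Real.log (Z ^ 2)⁻¹) (-τ * σ) R1
    (Nat.ceil_pos.2 (by positivity)) (abs_pos.1 (by rw [b1]; positivity)) (by rw [b1, s1]; linarith)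
  have h5 : 4 / (⌈Real.log Z / σ⌉₊ * |-τ * σ|) ≤ 1 / (R : ℝ) := by
    rw [div_le_iff₀ s0] at N1
    rw [b1, div_le_div_iff₀ (mul_pos (by nlinarith) (by positivity)) R0]
    nlinarith
  have h6 : 1 / (R : ℝ) + 1 / R ≤ η ^ 2 := by
    rw [div_lt_iff₀ (by positivity)] at hR
    rw [← add_div, div_le_iff₀ R0]
    linarith
  have h7 := mean_VAll (range ⌈Real.log Z / σ⌉₊) _ hη.le (h4.trans (by linarith))
  have e3 : ∀ j : ℕ, -τ * Real.log ((Z ^ 2)⁻¹ * Real.exp (j * σ)) =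
      -τ * Real.log (Z ^ 2)⁻¹ + j * (-τ * σ) := fun j => by
    rw [Real.log_mul (by positivity) (Real.exp_pos _).ne', Real.log_exp]
    ring
  have e4 : ∀ p : ℕ, -τ * Real.log ((Z ^ 2)⁻¹ * Z ^ 2 / p) = τ * Real.log p := fun p => by
    rw [inv_mul_cancel₀ (by positivity), one_div, Real.log_inv]
    ring
  simp only [e3, e4] at h3
  refine h3.trans ((mul_le_mul_of_nonneg_left (add_le_add (h7.trans e2) e2) hC.le).trans_eq ?_)
  field_simp
  norm_num

end Pool.Agent.MP_4fffd4_nt.AN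

end
end

section

open Finset Filter
open scoped BigOperators ComplexConjugate Topology

noncomputable section

namespace Pool.Agent.MP_4fffd4_nt.AN

open Pool.Agent.MP_4fffd4_nt.SX

lemma tw_WPar (l : Filter ℕ) (x q : ℕ → ℕ) (hx : Tendsto x l atTop)
    (hθ : ∀ θ : ℝ, 0 < θ → ∀ᶠ n in l, (x n : ℝ) ^ (1 - θ) ≤ (q n : ℝ) + 1) :
    ∃ t w : ℕ → ℝ, Tendsto t l atTop ∧ (∀ n, 0 ≤ t n) ∧ (∀ n, 0 ≤ w n) ∧
      (∀ C : ℝ, ∀ᶠ n in l, C * t n ≤ w n) ∧ (∀ C : ℝ, ∀ᶠ n in l, C * w n ≤ Real.log (x n)) ∧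
      (∀ᶠ n in l, Real.log (Real.log (x n)) ≤ 1 / 2 * w n) ∧
      ∀ᶠ n in l, (x n : ℝ) * Real.exp (-t n) ≤ (q n : ℝ) + 1 := by
  have hr : Tendsto (fun n => Real.log (x n)) l atTop :=
    Real.tendsto_log_atTop.comp (tendsto_natCast_atTop_atTop.comp hx)
  have hs : Tendsto (fun n => Real.sqrt (Real.log (x n))) l atTop :=
    Real.tendsto_sqrt_atTop.comp hr
  have r0 : ∀ n, 0 ≤ Real.log (x n) := fun n => Real.log_natCast_nonneg _
  obtain ⟨t, ht⟩ : ∃ t : ℕ → ℝ,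
      t = fun n => max (Real.log (x n / ((q n : ℝ) + 1))) (Real.sqrt (Real.log (x n))) := ⟨_, rfl⟩
  have t1 : ∀ n, Real.log (x n / ((q n : ℝ) + 1)) ≤ t n := fun n => ht ▸ le_max_left _ _
  have t2 : ∀ n, Real.sqrt (Real.log (x n)) ≤ t n := fun n => ht ▸ le_max_right _ _
  have t0 : ∀ n, 0 ≤ t n := fun n => (Real.sqrt_nonneg _).trans (t2 n)
  have tt : Tendsto t l atTop := tendsto_atTop_mono t2 hs
  have key : ∀ C : ℝ, ∀ᶠ n in l, C ^ 2 * t n ≤ Real.log (x n) := fun C => by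
    have hC : 0 < C ^ 2 + 1 := by positivity
    filter_upwards [hθ (1 / (C ^ 2 + 1)) (by positivity), hs.eventually_ge_atTop (C ^ 2 + 1),
      hx.eventually_gt_atTop 0] with n h1 h2 h3
    have x0 : (0 : ℝ) < x n := by exact_mod_cast h3
    have h4 : (C ^ 2 + 1) * t n ≤ Real.log (x n) := by
      rw [← le_div_iff₀' hC, ht]
      refine max_le ?_ ?_
      · have h5 := Real.log_le_log (by positivity) h1
        rw [Real.log_rpow x0] at h5
        rw [Real.log_div x0.ne' (by positivity), div_eq_inv_mul, ← one_div]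
        linarith
      · rw [le_div_iff₀' hC]
        calc _ ≤ Real.sqrt (Real.log (x n)) * Real.sqrt (Real.log (x n)) :=
            mul_le_mul_of_nonneg_right h2 (Real.sqrt_nonneg _)
          _ = _ := Real.mul_self_sqrt (r0 n)
    linarith [t0 n]
  refine ⟨t, fun n => Real.sqrt (t n * Real.log (x n)), tt, t0, fun n => Real.sqrt_nonneg _,
    fun C => (key C).mono fun n h => ?_, fun C => (key C).mono fun n h => ?_, ?_, ?_⟩
  · refine Real.le_sqrt_of_sq_le ?_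
    have := mul_le_mul_of_nonneg_left h (t0 n)
    linarith
  · refine (abs_le_of_sq_le_sq' ?_ (r0 n)).2
    rw [mul_pow, Real.sq_sqrt (mul_nonneg (t0 n) (r0 n))]
    have := mul_le_mul_of_nonneg_right h (r0 n)
    linarith
  · filter_upwards [hr.eventually ((isLittleO_log_rpow_atTop
      (show (0 : ℝ) < 1 / 2 by norm_num)).bound (show (0 : ℝ) < 1 / 2 by norm_num)),
      tt.eventually_ge_atTop 1] with n h h1
    rw [Real.norm_of_nonneg (Real.rpow_nonneg (r0 n) _), ← Real.sqrt_eq_rpow] at h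
    refine ((le_abs_self _).trans h).trans (mul_le_mul_of_nonneg_left ?_ (by norm_num))
    exact Real.sqrt_le_sqrt (le_mul_of_one_le_left (r0 n) h1)
  · filter_upwards [hx.eventually_gt_atTop 0] with n h3
    have x0 : (0 : ℝ) < x n := by exact_mod_cast h3
    have h1 := (Real.log_le_iff_le_exp (by positivity)).1 (t1 n)
    rw [div_le_iff₀ (by positivity)] at h1
    rw [Real.exp_neg, ← div_eq_mul_inv, div_le_iff₀ (Real.exp_pos _)]
    linarith

theorem wPar_stmt (hC : ChebStmt) : WParStmt := by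
  intro l x q hl hθ hq
  obtain ⟨t, w, hs, t0, w0, d1, d2, hlog, hqt⟩ := tw_WPar l x q hl hθ
  have hr : Tendsto (fun n => Real.log (x n)) l atTop :=
    Real.tendsto_log_atTop.comp (tendsto_natCast_atTop_atTop.comp hl)
  have ht : Tendsto w l atTop :=
    tendsto_atTop_mono' l ((d1 1).mono fun n h => by rwa [one_mul] at h) hs
  obtain ⟨k₁, hk₁⟩ : ∃ k₁ : ℕ → ℕ, k₁ = fun n : ℕ => ⌈3 * t n⌉₊ := ⟨_, rfl⟩
  obtain ⟨k₂, hk₂⟩ : ∃ k₂ : ℕ → ℕ, k₂ = fun n : ℕ => ⌊w n⌋₊ := ⟨_, rfl⟩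
  have t1 : Tendsto k₁ l atTop :=
    hk₁ ▸ tendsto_nat_ceil_atTop.comp (hs.const_mul_atTop (by norm_num))
  have t2 : Tendsto k₂ l atTop := hk₂ ▸ tendsto_nat_floor_atTop.comp ht
  have a1 : ∀ n : ℕ, 3 * t n ≤ k₁ n := fun n => hk₁ ▸ Nat.le_ceil _
  have a2 : ∀ n : ℕ, (k₁ n : ℝ) < 3 * t n + 1 := fun n =>
    hk₁ ▸ Nat.ceil_lt_add_one (by have := t0 n; positivity)
  have a3 : ∀ n : ℕ, (k₂ n : ℝ) ≤ w n := fun n => hk₂ ▸ Nat.floor_le (w0 n)
  have a4 : ∀ n : ℕ, w n < (k₂ n : ℝ) + 1 := fun n => hk₂ ▸ Nat.lt_floor_add_one _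
  have kk : ∀ C : ℝ, 1 ≤ C → ∀ᶠ n : ℕ in l, C * k₁ n < k₂ n := fun C hC => by
    filter_upwards [d1 (5 * C), hs.eventually_ge_atTop 1] with n h1 h2
    have := a2 n
    have := a4 n
    nlinarith
  have hx : ∀ᶠ n : ℕ in l, Real.exp (Real.log (x n)) = x n :=
    (hl.eventually_gt_atTop 0).mono fun n hx => Real.exp_log (by exact_mod_cast hx)
  have h16 : ∀ᶠ n : ℕ in l, 16 ^ k₂ n ≤ q n + 1 := by
    filter_upwards [hqt, hx, d1 1, d2 5] with n h1 h2 h3 h4
    have h5 := pow_Par 4 (k₂ n) (a3 n)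
    have h6 : Real.exp ((4 : ℕ) * w n) ≤ x n * Real.exp (-t n) := by
      rw [← h2, ← Real.exp_add]
      push_cast
      exact Real.exp_le_exp.2 (by linarith)
    have h7 : (((16 ^ k₂ n : ℕ)) : ℝ) ≤ ((q n + 1 : ℕ) : ℝ) := by
      push_cast
      have e : (16 : ℝ) = 2 ^ 4 := by norm_num
      rw [e]
      exact h5.trans (h6.trans h1)
    exact_mod_cast h7
  have hB : ∀ᶠ n : ℕ in l, 1 ≤ (q n + 1) / 4 ^ k₂ n ∧
      (((q n + 1) / 4 ^ k₂ n : ℕ) : ℝ) * 4 ^ k₂ n ≤ q n + 1 ∧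
      (q n : ℝ) + 1 ≤ 2 * (((q n + 1) / 4 ^ k₂ n : ℕ) : ℝ) * 4 ^ k₂ n := h16.mono fun n h => by
    have := half_Par (D := 4 ^ k₂ n) (by positivity)
      ((Nat.pow_le_pow_left (by norm_num) _).trans h)
    rwa [Nat.cast_pow, Nat.cast_ofNat, Nat.cast_succ] at this
  have hB' : ∀ᶠ n : ℕ in l, 1 ≤ (q n + 1) / 8 ^ k₂ n ∧
      (((q n + 1) / 8 ^ k₂ n : ℕ) : ℝ) * 8 ^ k₂ n ≤ q n + 1 ∧
      (q n : ℝ) + 1 ≤ 2 * (((q n + 1) / 8 ^ k₂ n : ℕ) : ℝ) * 8 ^ k₂ n := h16.mono fun n h => by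
    have := half_Par (D := 8 ^ k₂ n) (by positivity)
      ((Nat.pow_le_pow_left (by norm_num) _).trans h)
    rwa [Nat.cast_pow, Nat.cast_ofNat, Nat.cast_succ] at this
  have hz : Tendsto (fun n => 2 / (2 : ℝ) ^ k₂ n) l (𝓝 0) :=
    ((tendsto_pow_atTop_atTop_of_one_lt (show (1 : ℝ) < 2 by norm_num)).comp t2).const_div_atTop 2
  have e4 : ∀ k : ℕ, (4 : ℝ) ^ k = 2 ^ k * 2 ^ k := fun k => by rw [← mul_pow]; norm_num
  have e8 : ∀ k : ℕ, (8 : ℝ) ^ k = 4 ^ k * 2 ^ k := fun k => by rw [← mul_pow]; norm_num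
  refine ⟨k₁, k₂, fun n => (q n + 1) / 4 ^ k₂ n, fun n => (q n + 1) / 8 ^ k₂ n,
    ⟨t1, (kk 1 le_rfl).mono fun n h => ?_, ?_, ?_, hq,
      ?_, ?_, ?_, (hB.and hB').mono fun n h => ⟨h.1.1, h.2.1⟩⟩, fun θ hθ0 => ?_⟩
  · rw [one_mul] at h
    exact_mod_cast h
  · obtain ⟨k₀, h0, h⟩ := sum_Par hC
    refine tendsto_atTop.2 fun C => ?_
    filter_upwards [kk (Real.exp (8 * |C|)) (Real.one_le_exp (by positivity)), kk 1 le_rfl,
      t1.eventually_ge_atTop k₀] with n h1 h2 h3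
    rw [one_mul] at h2
    refine le_trans ?_ (h _ _ h3 (Nat.cast_lt.1 h2).le)
    have h4 : (0 : ℝ) < k₁ n := by exact_mod_cast (by omega : 0 < k₁ n)
    have h5 := Real.log_le_log (by positivity) h1.le
    rw [Real.log_mul (by positivity) h4.ne', Real.log_exp] at h5
    have := le_abs_self C
    linarith
  · filter_upwards [hqt] with n h1
    have h2 : (x n : ℝ) ≤ (q n + 1) * Real.exp (t n) := by
      rwa [Real.exp_neg, ← div_eq_mul_inv, div_le_iff₀ (Real.exp_pos _)] at h1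
    have h3 : Real.exp (t n) ^ 2 ≤ 2 ^ k₁ n := by
      rw [← Real.exp_nat_mul, ← Real.exp_log (show (0 : ℝ) < 2 ^ k₁ n by positivity), Real.log_pow]
      refine Real.exp_le_exp.2 ?_
      have := a1 n
      have := Real.log_two_gt_d9
      have : (0 : ℝ) ≤ k₁ n := Nat.cast_nonneg _
      push_cast
      nlinarith
    have h4 : (x n : ℝ) ^ 2 ≤ (q n + 1) ^ 2 * 2 ^ k₁ n :=
      calc (x n : ℝ) ^ 2 ≤ ((q n + 1) * Real.exp (t n)) ^ 2 := by gcongr
        _ = (q n + 1) ^ 2 * Real.exp (t n) ^ 2 := mul_pow _ _ _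
        _ ≤ _ := by gcongr
    exact_mod_cast h4
  · refine squeeze_zero' (Eventually.of_forall fun n => by positivity) (h16.mono fun n h => ?_) hz
    have h1 : (4 : ℝ) ^ k₂ n ≤ Real.sqrt (q n + 1) := by
      refine Real.le_sqrt_of_sq_le ?_
      rw [← pow_mul, mul_comm, pow_mul]
      norm_num
      exact_mod_cast h
    rw [div_le_div_iff₀ (by positivity) (by positivity), ← e4]
    linarith [Real.sqrt_nonneg ((q n : ℝ) + 1)]
  · refine squeeze_zero' (Eventually.of_forall fun n => by positivity) (hB.mono fun n h => ?_) hz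
    rw [div_le_div_iff₀ (by positivity) (by positivity), mul_assoc, ← e4]
    have : (0 : ℝ) ≤ q n := Nat.cast_nonneg _
    linarith [h.2.1]
  · refine squeeze_zero' (Eventually.of_forall fun n => by positivity)
      ((hB.and hB').mono fun n h => ?_) hz
    have h1 : (0 : ℝ) < (((q n + 1) / 4 ^ k₂ n : ℕ) : ℝ) := by exact_mod_cast h.1.1
    rw [div_le_div_iff₀ h1 (by positivity)]
    refine le_of_mul_le_mul_right ?_ (show (0 : ℝ) < 4 ^ k₂ n by positivity)
    have h2 := h.2.2.1.trans h.1.2.2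
    rw [e8] at h2
    linarith
  · filter_upwards [hqt, hq, hB', d1 1, d2 (5 / θ), ht.eventually_ge_atTop 4,
      hlog, hr.eventually_ge_atTop 1, hl.eventually_gt_atTop 0]
      with n h1 h1' h2 h3 h4 h5 h6 h7 h8 y hy hy'
    obtain ⟨-, h2, h2'⟩ := h2
    generalize (((q n + 1) / 8 ^ k₂ n : ℕ) : ℝ) = B at h2 h2' ⊢
    have hx0 : (0 : ℝ) < x n := by exact_mod_cast h8
    have hy1 : (x n : ℝ) ≤ y := by exact_mod_cast hy
    have hy2 : (y : ℝ) ≤ 2 * x n := by exact_mod_cast hy'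
    have hy0 : (0 : ℝ) < y := hx0.trans_le hy1
    have hQ : (q n : ℝ) + 1 ≤ x n := by exact_mod_cast h1'
    have h8p : (0 : ℝ) < 8 ^ k₂ n := by positivity
    have hB0 : 0 ≤ B := by
      by_contra hn
      have : (0 : ℝ) ≤ q n := Nat.cast_nonneg _
      nlinarith
    constructor
    · have b0 : 5 * w n ≤ θ * Real.log (x n) := by
        rw [div_mul_eq_mul_div, div_le_iff₀ hθ0] at h4
        linarith
      have b1 : θ * Real.log (x n) ≤ θ * Real.log y :=
        mul_le_mul_of_nonneg_left (Real.log_le_log hx0 hy1) hθ0.le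
      have b2 : (8 : ℝ) ^ k₂ n ≤ Real.exp (3 * w n) := by
        have := pow_Par 3 (k₂ n) (a3 n)
        norm_num at this
        exact this
      have b3 : (4 : ℝ) ≤ Real.exp 3 := by have := Real.add_one_le_exp (3 : ℝ); linarith
      have b4 : Real.exp (-(θ * Real.log y)) * Real.exp (3 * w n) * Real.exp 3 ≤
          Real.exp (-t n) := by
        rw [← Real.exp_add, ← Real.exp_add]
        exact Real.exp_le_exp.2 (by linarith)
      have b5 : (y : ℝ) ^ (1 - θ) = y * Real.exp (-(θ * Real.log y)) := by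
        rw [sub_eq_add_neg, Real.rpow_add hy0, Real.rpow_one, Real.rpow_def_of_pos hy0]
        congr 2
        ring
      rw [b5]
      refine le_of_mul_le_mul_right ?_ (show (0 : ℝ) < 2 * 8 ^ k₂ n by positivity)
      calc y * Real.exp (-(θ * Real.log y)) * (2 * 8 ^ k₂ n)
          ≤ (2 * x n) * Real.exp (-(θ * Real.log y)) * (2 * Real.exp (3 * w n)) := by
            gcongr
        _ = x n * (Real.exp (-(θ * Real.log y)) * Real.exp (3 * w n) * 4) := by ring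
        _ ≤ x n * (Real.exp (-(θ * Real.log y)) * Real.exp (3 * w n) * Real.exp 3) := by
            gcongr
        _ ≤ x n * Real.exp (-t n) := by gcongr
        _ ≤ B * (2 * 8 ^ k₂ n) := by linarith
    · have hl2 : Real.log 2 ≤ 1 := by have := Real.log_two_lt_d9; linarith
      have b1 : Real.log y ≤ 2 * Real.log (x n) := by
        have := Real.log_le_log hy0 hy2
        rw [Real.log_mul (by norm_num) hx0.ne'] at this
        linarith
      have b2 : 2 * Real.log (x n) ≤ 8 ^ k₂ n := by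
        rw [← Real.log_le_log_iff (by linarith) h8p, Real.log_mul (by norm_num) (by linarith),
          Real.log_pow]
        have b3 : (1 : ℝ) ≤ Real.log 8 := by
          have e : (8 : ℝ) = 2 ^ 3 := by norm_num
          have := Real.log_two_gt_d9
          rw [e, Real.log_pow]
          push_cast
          linarith
        have := a4 n
        have : (0 : ℝ) ≤ k₂ n := Nat.cast_nonneg _
        nlinarith
      calc B * Real.log y ≤ B * 8 ^ k₂ n := by gcongr; exact b1.trans b2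
        _ ≤ y := by linarith

end Pool.Agent.MP_4fffd4_nt.AN

end
end

section

open Finset Filter
open scoped BigOperators ComplexConjugate Topology
noncomputable section
namespace Pool.Agent.MP_4fffd4_nt.AN
open Pool.Agent.MP_4fffd4_nt.SX

theorem sum_WPret {q : ℕ} [NeZero q] (χ : DirichletCharacter ℂ q) (t y P : ℝ)
    (hL : 0 < Lr (pio y P)) :
    1 - (∑ p ∈ pio y P, χ p * (lam (p : ℤ) : ℂ) / (p * Lr (pio y P)) *
        ex (t * Real.log p)).re =
      (∑ p ∈ pio y P, (1 + (χ p * ex (t * Real.log p)).re) / p) / Lr (pio y P) := by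
  have h1 : ∀ p ∈ pio y P, (χ p * (lam (p : ℤ) : ℂ) / (p * Lr (pio y P)) *
      ex (t * Real.log p)).re = -((χ p * ex (t * Real.log p)).re / p / Lr (pio y P)) := by
    intro p hp
    rw [lam_prime (mem_filter.1 hp).2]
    have : χ p * ((-1 : ℝ) : ℂ) / (p * Lr (pio y P)) * ex (t * Real.log p) =
        -(χ p * ex (t * Real.log p) / ((p : ℝ) : ℂ) / (Lr (pio y P) : ℂ)) := by
      push_cast
      ring
    rw [this, Complex.neg_re, Complex.div_ofReal_re, Complex.div_ofReal_re]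
  rw [Complex.re_sum, sum_congr rfl h1, sum_neg_distrib, sub_neg_eq_add, ← sum_div]
  simp only [add_div, sum_add_distrib]
  rw [show ∑ p ∈ pio y P, (1 : ℝ) / p = Lr (pio y P) from rfl, div_self hL.ne']

theorem up_WPret (h2 : VBlockStmt) :
    ∃ C Z₀ : ℝ, 0 < C ∧ ∀ Z : ℝ, Z₀ ≤ Z → Lr (pio Z (Z ^ 2)) ≤ C := by
  obtain ⟨C, Z₁, hC, hZ₁, h⟩ := h2
  refine ⟨C, (Z₁ / (1 / 2)) ^ 2, hC, fun Z hZ => ?_⟩
  have b := h (fun _ => 1) (1 / 2) Z 1 0 (by norm_num) le_rfl hZ one_pos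
    (fun _ => zero_le_one) le_rfl (fun _ _ _ _ _ => by simp)
  refine b.trans ?_
  rw [add_zero]
  refine mul_le_of_le_one_right hC.le ?_
  rcases (range ⌈Real.log Z / (1 / 2)⌉₊).eq_empty_or_nonempty with e | e
  · rw [e]
    simp
  · rw [expect_const e]

theorem wPret_stmt (h1 : VChStmt) (h2 : VBlockStmt) (h3 : WBigStmt) (h4 : WSmallStmt) :
    WPretStmt := by
  intro q _ χ
  obtain ⟨C, Z₀, hC, hU⟩ := up_WPret h2
  obtain ⟨Z₁, h1⟩ := eventually_atTop.1 h1
  obtain ⟨c₃, hc₃, h3⟩ := h3 q χ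
  obtain ⟨Z₃, h3⟩ := eventually_atTop.1 h3
  obtain ⟨C₄, h4⟩ := h4 q χ
  have hm : 0 < min c₃ (1 / 4) := lt_min hc₃ (by norm_num)
  refine ⟨min c₃ (1 / 4) / C, ⌈3 * |C₄|⌉₊ + 1, by positivity, fun J hJ => ?_⟩
  have hJ' : 3 * |C₄| + 1 ≤ (J : ℝ) := by
    have a : ((⌈3 * |C₄|⌉₊ + 1 : ℕ) : ℝ) ≤ J := by exact_mod_cast hJ
    push_cast at a
    linarith [Nat.le_ceil (3 * |C₄|)]
  have hJ0 : (0 : ℝ) < J := by linarith [abs_nonneg C₄]
  filter_upwards [eventually_ge_atTop Z₀, eventually_ge_atTop Z₁, eventually_ge_atTop Z₃,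
    eventually_ge_atTop 3] with Z z0 z1 z3 z4
  have zz : 1 ≤ Z := by linarith
  have hL : (J : ℝ) / 16 ≤ Lr (pio Z (Z ^ 2 ^ J)) := by
    rw [Lr, blocks_VAll zz]
    refine le_trans (le_of_eq ?_) (sum_le_sum fun i _ =>
      h1 (Z ^ 2 ^ i) (z1.trans (self_VAll zz i)))
    rw [sum_const, card_range, nsmul_eq_mul]
    ring
  have hL' : Lr (pio Z (Z ^ 2 ^ J)) ≤ J * C := by
    rw [Lr, blocks_VAll zz]
    refine (sum_le_sum fun i _ => hU (Z ^ 2 ^ i) (z0.trans (self_VAll zz i))).trans (le_of_eq ?_)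
    rw [sum_const, card_range, nsmul_eq_mul]
  have L0 : 0 < Lr (pio Z (Z ^ 2 ^ J)) := lt_of_lt_of_le (by positivity) hL
  refine ⟨hL, fun t ht => ?_⟩
  rw [sum_WPret χ t Z _ L0, le_div_iff₀ L0]
  have key : (J : ℝ) * min c₃ (1 / 4) ≤
      ∑ p ∈ pio Z (Z ^ 2 ^ J), (1 + (χ p * ex (t * Real.log p)).re) / p := by
    rcases le_total 1 |t| with h | h
    · rw [blocks_VAll zz]
      refine le_trans ?_ (sum_le_sum fun i _ =>
        h3 (Z ^ 2 ^ i) (z3.trans (self_VAll zz i)) t h (ht.trans (self_VAll zz i)))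
      rw [sum_const, card_range, nsmul_eq_mul]
      exact mul_le_mul_of_nonneg_left (min_le_left _ _) hJ0.le
    · refine le_trans ?_ (h4 Z (Z ^ 2 ^ J) t z4 (self_VAll zz J) h)
      have lz : 0 < Real.log Z := Real.log_pos (by linarith)
      rw [Real.log_pow, mul_div_assoc, div_self lz.ne', mul_one, Nat.cast_pow, Real.log_pow]
      have a : (0.69 : ℝ) < Real.log ((2 : ℕ) : ℝ) := by
        have := Real.log_two_gt_d9
        push_cast
        linarith
      have b := mul_le_mul_of_nonneg_left (min_le_right c₃ (1 / 4)) hJ0.le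
      nlinarith [le_abs_self C₄, abs_nonneg C₄]
  calc min c₃ (1 / 4) / C * Lr (pio Z (Z ^ 2 ^ J)) ≤ min c₃ (1 / 4) / C * (J * C) :=
        mul_le_mul_of_nonneg_left hL' (by positivity)
    _ = J * min c₃ (1 / 4) := by field_simp
    _ ≤ _ := key

end Pool.Agent.MP_4fffd4_nt.AN

end
end

section

open Finset Filter
open scoped BigOperators ComplexConjugate Topology
noncomputable section
namespace Pool.Agent.MP_4fffd4_nt.AN
open Pool.Agent.MP_4fffd4_nt.SX

lemma cpow_VSm (p : ℕ) (hp : 0 < p) (δ t : ℝ) :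
    (p : ℂ) ^ (-(((1 + δ : ℝ) : ℂ) + (t : ℂ) * Complex.I)) =
      ex (t * Real.log p) * (((p : ℝ) ^ (-(1 + δ)) : ℝ) : ℂ) := by
  have h0 : (p : ℂ) ≠ 0 := by exact_mod_cast hp.ne'
  have h1 : (0 : ℝ) < p := by exact_mod_cast hp
  rw [Complex.cpow_def_of_ne_zero h0, Real.rpow_def_of_pos h1, ex, Complex.ofReal_exp,
    ← Complex.exp_add, ← Complex.natCast_log]
  congr 1
  push_cast
  ring

lemma re_VSm (a : ℂ) (p : ℕ) (hp : 0 < p) (δ t : ℝ) :
    (a * (p : ℂ) ^ (-(((1 + δ : ℝ) : ℂ) + (t : ℂ) * Complex.I))).re =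
      (a * ex (t * Real.log p)).re * (p : ℝ) ^ (-(1 + δ)) := by
  rw [cpow_VSm p hp, ← mul_assoc, Complex.re_mul_ofReal]

lemma re_VSm' (a : ℂ) (p : Nat.Primes) (δ t : ℝ) :
    (a * ((p : ℕ) : ℂ) ^ (-(((1 + δ : ℝ) : ℂ) + (t : ℂ) * Complex.I))).re =
      (a * ex (t * Real.log (p : ℕ))).re * ((p : ℕ) : ℝ) ^ (-(1 + δ)) :=
  re_VSm a p p.2.pos δ t

end Pool.Agent.MP_4fffd4_nt.AN

end
end

section

open Finset Filter
open scoped BigOperators ComplexConjugate Topology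
noncomputable section
namespace Pool.Agent.MP_4fffd4_nt.AN
open Pool.Agent.MP_4fffd4_nt.SX

theorem bd_VPret {q : ℕ} [NeZero q] (χ : DirichletCharacter ℂ q) (t : ℝ) (p : ℕ) :
    0 ≤ 1 + (χ p * ex (t * Real.log p)).re ∧ 1 + (χ p * ex (t * Real.log p)).re ≤ 2 := by
  have h1 : ‖χ p * ex (t * Real.log p)‖ ≤ 1 := by
    have : ‖ex (t * Real.log p)‖ = 1 := by
      rw [ex, ← Complex.ofReal_neg, Complex.norm_exp_ofReal_mul_I]
    rw [norm_mul, this, mul_one]
    exact χ.norm_le_one _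
  have h2 := abs_le.1 ((Complex.abs_re_le_norm _).trans h1)
  constructor <;> linarith [h2.1, h2.2]

end Pool.Agent.MP_4fffd4_nt.AN

end
end

section

open Finset Filter
open scoped BigOperators ComplexConjugate Topology
noncomputable section
namespace Pool.Agent.MP_4fffd4_nt.AN
open Pool.Agent.MP_4fffd4_nt.SX

lemma sum_WSmall (h1 : VEulStmt) (h2 : VZetStmt) (q : ℕ) (χ : DirichletCharacter ℂ q)
    (δ t : ℝ) (hδ : 0 < δ) (hδ1 : δ ≤ 1) :
    Real.log (1 / δ) - 4 +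
        Real.log ‖LSeries (fun n : ℕ => χ n) (((1 + δ : ℝ) : ℂ) + (t : ℂ) * Complex.I)‖ ≤
      ∑' p : Nat.Primes,
        (1 + (χ (p : ℕ) * ex (t * Real.log (p : ℕ))).re) * ((p : ℕ) : ℝ) ^ (-(1 + δ)) ∧
    ∑' p : Nat.Primes,
        (1 + (χ (p : ℕ) * ex (t * Real.log (p : ℕ))).re) * ((p : ℕ) : ℝ) ^ (-(1 + δ)) ≤
      Real.log (1 / δ) + 5 +
        Real.log ‖LSeries (fun n : ℕ => χ n) (((1 + δ : ℝ) : ℂ) + (t : ℂ) * Complex.I)‖ := by
  obtain ⟨hA, hA1, hA2⟩ := h2 δ hδ hδ1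
  have hre : (((1 + δ : ℝ) : ℂ) + (t : ℂ) * Complex.I).re = 1 + δ := by simp
  obtain ⟨s1, s2⟩ := h1 q χ (((1 + δ : ℝ) : ℂ) + (t : ℂ) * Complex.I) (by rw [hre]; linarith)
  have s3 := (Complex.hasSum_re s1.hasSum)
  simp only [re_VSm'] at s3
  have s4 := hA.hasSum.add s3
  have e : (fun p : Nat.Primes => ((p : ℕ) : ℝ) ^ (-(1 + δ)) +
      (χ (p : ℕ) * ex (t * Real.log (p : ℕ))).re * ((p : ℕ) : ℝ) ^ (-(1 + δ))) =
      fun p : Nat.Primes => (1 + (χ (p : ℕ) * ex (t * Real.log (p : ℕ))).re) *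
        ((p : ℕ) : ℝ) ^ (-(1 + δ)) := by
    funext p
    ring
  rw [e] at s4
  rw [s4.tsum_eq]
  have b3 := abs_le.1 s2
  constructor <;> linarith [b3.1, b3.2]

theorem wSmall_stmt (h1 : VEulStmt) (h2 : VZetStmt) (h3 : WRatStmt) (h4 : WCutStmt) :
    WSmallStmt := by
  intro q _ χ
  obtain ⟨C, hC, hrat⟩ := h3 q χ
  obtain ⟨D, hcut⟩ := h4
  refine ⟨9 + Real.log C + D, fun Z P t hZ hZP ht => ?_⟩
  have hZ1 : 1 ≤ Real.log Z := by
    rw [Real.le_log_iff_exp_le (by linarith)]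
    linarith [Real.exp_one_lt_d9]
  have hPZ : Real.log Z ≤ Real.log P := Real.log_le_log (by linarith) hZP
  have hZ0 : 0 < Real.log Z := by linarith
  have hP0 : 0 < Real.log P := by linarith
  have d1 : 0 < 1 / Real.log P := by positivity
  have d2 : 0 < 1 / Real.log Z := by positivity
  have d12 : 1 / Real.log P ≤ 1 / Real.log Z := one_div_le_one_div_of_le hZ0 hPZ
  have d21 : 1 / Real.log Z ≤ 1 := by rw [div_le_one hZ0]; exact hZ1
  have a1 := (sum_WSmall h1 h2 q χ _ t d1 (d12.trans d21)).1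
  have a2 := (sum_WSmall h1 h2 q χ _ t d2 d21).2
  have a3 := hrat _ _ t d1 d12 d21 ht
  have a4 := hcut Z P (fun p => 1 + (χ p * ex (t * Real.log p)).re) hZ hZP (bd_VPret χ t)
  have hne : ∀ δ : ℝ, 0 < δ →
      0 < ‖LSeries (fun n : ℕ => χ n) (((1 + δ : ℝ) : ℂ) + (t : ℂ) * Complex.I)‖ := by
    intro δ hδ
    refine norm_pos_iff.2 (DirichletCharacter.LSeries_ne_zero_of_one_lt_re χ ?_)
    have hre : (((1 + δ : ℝ) : ℂ) + (t : ℂ) * Complex.I).re = 1 + δ := by simp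
    rw [hre]
    linarith
  have a5 := Real.log_le_log (hne _ d2) a3
  rw [Real.log_mul (by linarith) (hne _ d1).ne'] at a5
  rw [one_div_one_div] at a1 a2
  rw [Real.log_div hP0.ne' hZ0.ne']
  linarith

end Pool.Agent.MP_4fffd4_nt.AN

end
end

section

/-!
The inductive steps for local uniformity in windows of length x ^ (1 - θ).
-/

open Finset Filter
open scoped BigOperators ComplexConjugate Topology

noncomputable section

namespace Pool.Agent.MP_4fffd4_nt.AN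

open Pool.Agent.MP_4fffd4_nt.SX

theorem wStep_stmt (hX : ChrStmt) (hP : WParStmt) (hC : BilCStmt) (hE : EndStmt) (d : ℕ)
    (hd : 1 ≤ d) (hL : LP d) : GP (d + 1) := by
  intro ε hε
  by_contra hn
  have hex : ∀ k : ℕ, ∃ x n : ℕ, k + 1 ≤ x ∧ (x : ℝ) ^ (1 - 1 / ((k : ℝ) + 1)) ≤ (n : ℝ) + 1 ∧
      n + 1 ≤ x ∧ ε < (UU (Fin (d + 1)) (fw x n)).re := fun k => by
    by_contra h
    push Not at h
    exact hn ⟨1 / ((k : ℝ) + 1), by positivity,
      (eventually_ge_atTop (k + 1)).mono fun x hx n h1 h2 => h x n hx h1 h2⟩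
  choose x q hx hq hqx hU using hex
  obtain ⟨u, hu⟩ := Ultrafilter.exists_le (atTop : Filter ℕ)
  have hxt : Tendsto x u atTop :=
    (tendsto_atTop_mono (fun k => (Nat.le_succ k).trans (hx k)) tendsto_id).mono_left hu
  have h2 : ¬ Nul0 u (Fin (d + 1)) fun k => fw (x k) (q k) := fun h => by
    obtain ⟨k, hk⟩ := (h.eventually (gt_mem_nhds hε)).exists
    exact absurd (hU k) (not_lt.2 hk.le)
  obtain ⟨φ, hφ, hcor, hc₀⟩ := hX u d q (fun k => fw (x k) (q k)) hd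
    (fun n z => (norm_fw _ _ z).le) h2
  obtain ⟨k₁, k₂, B, B', hpar, hB⟩ := hP u x q hxt (fun θ hθ => by
    filter_upwards [hu (tendsto_one_div_add_atTop_nhds_zero_nat.eventually (gt_mem_nhds hθ))]
      with k hk
    refine le_trans (Real.rpow_le_rpow_of_exponent_le ?_ (by linarith [hk.le])) (hq k)
    exact_mod_cast (by have := hx k; omega : 1 ≤ x k)) (Eventually.of_forall hqx)
  obtain ⟨c, hc, hcl⟩ := hC u d x q k₁ k₂ B B' φ hd hpar hφ hc₀ hcor
  have h3 : Tendsto (fun n => (B' n : ℝ) / (q n + 1)) u (𝓝 0) := by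
    have h4 := hpar.bb.mul hpar.bq
    rw [mul_zero] at h4
    refine squeeze_zero' (Eventually.of_forall fun n => by positivity) ?_ h4
    filter_upwards [hpar.b1] with n hn
    have h5 : (0 : ℝ) < B n := by exact_mod_cast hn.1
    have h6 : (1 : ℝ) ≤ 2 ^ k₂ n := one_le_pow₀ one_le_two
    have h7 : (B' n : ℝ) / B n * ((B n : ℝ) * 2 ^ k₂ n / (q n + 1)) =
        (B' n : ℝ) / (q n + 1) * 2 ^ k₂ n := by field_simp
    rw [h7]
    exact le_mul_of_one_le_right (by positivity) h6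
  have h8 := hE u d x q B' φ c hd hc h3 (hpar.b1.mono fun n hn => hn.2) (fun η hη => by
    obtain ⟨θ, hθ, h4⟩ := hL c (fun i => by have := hc i; omega) η hη
    obtain ⟨N, hN⟩ := eventually_atTop.1 h4
    filter_upwards [hB θ hθ, hpar.qx, hxt.eventually_ge_atTop N] with k h5 h6 h7 y h9 h10
    obtain ⟨b1, b2⟩ := h5 y h9 (by omega)
    exact hN y (le_trans h7 h9) _ b1 b2) hcl
  obtain ⟨δ, hδ, h9⟩ := hcor
  have h10 := (tendsto_zero_iff_norm_tendsto_zero.1 h8).eventually (gt_mem_nhds hδ)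
  obtain ⟨k, hk, hk'⟩ := (h9.and h10).exists
  exact absurd hk (not_le.2 hk')

theorem wGl_stmt (hG : GvnStmt) (d : ℕ) (hd : 2 ≤ d) (hU : GP d) : LP d := by
  intro c hc ε hε
  obtain ⟨s, hs⟩ := Int.eq_ofNat_of_zero_le (sum_nonneg fun i _ => abs_nonneg (c i) :
    0 ≤ ∑ i, |c i|)
  have hs1 : 1 ≤ s := by
    have h1 : |c ⟨0, by omega⟩| ≤ ∑ i, |c i| :=
      single_le_sum (f := fun i => |c i|) (fun _ _ => abs_nonneg _) (mem_univ _)
    have h2 := abs_pos.2 (hc ⟨0, by omega⟩)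
    omega
  have hr : 0 < ε / (2 * s + 1) ^ d := by positivity
  obtain ⟨θ, hθ, h0⟩ := hU ((ε / (2 * s + 1) ^ d) ^ 2 ^ d) (by positivity)
  obtain ⟨N, hN⟩ := eventually_atTop.1 h0
  refine ⟨min θ 1, lt_min hθ one_pos, ?_⟩
  have h1 : ∀ᶠ x : ℕ in atTop, (4 * s : ℝ) ≤ Real.log x :=
    (Real.tendsto_log_atTop.comp tendsto_natCast_atTop_atTop).eventually_ge_atTop _
  filter_upwards [h1, eventually_ge_atTop (2 * N), eventually_ge_atTop 1]
    with x h3 h4 h5 B hB1 hB2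
  have hx : (0 : ℝ) < x := by exact_mod_cast h5
  have hB : 1 ≤ B := by
    have : (0 : ℝ) < B := lt_of_lt_of_le (by positivity) hB1
    exact_mod_cast this
  have h6 : 4 * (s * B) ≤ x := by
    have h7 : (B : ℝ) * (4 * s) ≤ x :=
      (mul_le_mul_of_nonneg_left h3 (by positivity)).trans hB2
    have h8 : B * (4 * s) ≤ x := by exact_mod_cast h7
    linarith
  have h7 : B ≤ s * B := Nat.le_mul_of_pos_left _ hs1
  obtain ⟨y, hy⟩ : ∃ y, x = y + s * B := ⟨x - s * B, by omega⟩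
  have h8 : 2 * s * B = 2 * (s * B) := mul_assoc _ _ _
  have h9 := hN y (by omega) (2 * s * B) (by
    have e1 : (y : ℝ) ≤ x := by exact_mod_cast (by omega : y ≤ x)
    have e2 : (B : ℝ) ≤ (2 * s * B : ℕ) := by exact_mod_cast (by omega : B ≤ 2 * s * B)
    have e3 : (1 : ℝ) ≤ y := by exact_mod_cast (by omega : 1 ≤ y)
    have e4 := Real.rpow_le_rpow_of_exponent_le e3 (sub_le_sub_left (min_le_left θ 1) 1)
    have e5 := Real.rpow_le_rpow (by linarith) e1 (sub_nonneg.2 (min_le_right θ 1))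
    linarith) (by omega)
  have h10 := fin_GL hG hd c hc y B s hB hs.symm hr.le h9
  rw [mul_div_cancel₀ _ (by positivity)] at h10
  rw [hy]
  exact_mod_cast h10

end Pool.Agent.MP_4fffd4_nt.AN

end
end

section

/-!
The top scale for windows of length x ^ (1 - θ).
-/

open Finset Filter
open scoped BigOperators ComplexConjugate Topology

noncomputable section

namespace Pool.Agent.MP_4fffd4_nt.AN

open Pool.Agent.MP_4fffd4_nt.SX

theorem wTop_stmt (hG : GiStmt) (hO : GiOptStmt) (hE : GiEqvStmt) : WTopStmt := by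
  intro s L hs hU ε hε
  have hC : 0 < 9 * (2 * ((s : ℝ) * L) + 2) ^ (s + 2) := by positivity
  set η := ε / (9 * (2 * ((s : ℝ) * L) + 2) ^ (s + 2)) with hηd
  have hη : 0 < η := by positivity
  obtain ⟨θ, hθ, h0⟩ := hU _ (pow_pos hη (2 ^ (s + 1)))
  obtain ⟨X₀, hX⟩ := eventually_atTop.1 h0
  refine ⟨θ, max 4 X₀, hθ, fun e Y K he hK hY hY2 => ?_⟩
  have hK4 : 4 ≤ K := (le_max_left _ _).trans hK
  have hKX : (X₀ : ℝ) ≤ K := (le_max_right _ _).trans hK
  have hsL : (0 : ℝ) ≤ (s : ℝ) * L := by positivity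
  have hY4 : 4 ≤ Y := by linarith
  have hK0 : 0 < K := by linarith
  have hY0 : 0 < Y := by linarith
  set T := ⌊K⌋₊ with hT
  have hT1 : (T : ℝ) ≤ K := Nat.floor_le hK0.le
  have hT2 : K < T + 1 := Nat.lt_floor_add_one K
  set k := ⌊3 * Y⌋₊ with hk
  have hk1 : (k : ℝ) ≤ 3 * Y := Nat.floor_le (by positivity)
  have hk2 : 3 * Y < k + 1 := Nat.lt_floor_add_one _
  set a := ⌊Y * K⌋ with ha
  set b := ⌊2 * Y * K⌋ with hb
  have ha1 : Y * K < a + 1 := Int.lt_floor_add_one _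
  have hb1 : (b : ℝ) ≤ 2 * Y * K := Int.floor_le _
  set H := bx (fun _ : Fin s => ⌊-K⌋) (fun _ => ⌊K⌋) with hH
  have hbox : ∀ h ∈ H, ∀ j, |h j| ≤ T := by
    intro h hh j
    have h1 := mem_bx.1 hh j
    have h2 : -K < (h j : ℝ) := Int.floor_lt.1 h1.1
    have h3 : (h j : ℝ) ≤ K := Int.le_floor.1 h1.2
    have h4 : ((|h j| : ℤ) : ℝ) < ((T + 1 : ℤ) : ℝ) := by
      push_cast
      exact abs_lt.2 ⟨by linarith, by linarith⟩
    have h5 : |h j| < T + 1 := by exact_mod_cast h4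
    omega
  have hab : b ≤ a + k * T := by
    have h1 : (3 * Y - 1) * (K - 1) ≤ k * T :=
      mul_le_mul (by linarith) (by linarith) (by linarith) (by positivity)
    have h2 : (b : ℝ) ≤ ((a + k * T : ℤ) : ℝ) := by
      push_cast
      nlinarith [mul_nonneg (sub_nonneg.2 hY4) (sub_nonneg.2 hK4)]
    exact_mod_cast h2
  set P := s * L * T with hP
  have hP1 : (P : ℝ) ≤ s * L * K := by
    rw [hP]
    push_cast
    exact mul_le_mul_of_nonneg_left hT1 hsL
  have hP0 : (0 : ℝ) ≤ P := by positivity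
  have hN : ((2 * P + T : ℕ) : ℝ) + 1 ≤ (2 * ((s : ℝ) * L) + 2) * K := by
    push_cast
    linarith
  have hYK : 4 * ((s : ℝ) * L + 1) * K ≤ Y * K := mul_le_mul_of_nonneg_right hY hK0.le
  have hsK : 0 ≤ (s : ℝ) * L * K := by positivity
  have hblk : ∀ i ∈ range k, ∑ h ∈ H, XX lam e (a + i * T) (min b (a + i * T + T)) h ^ 2 ≤
      (((2 * P + T : ℕ) : ℝ) + 1) ^ (s + 2) * η := by
    intro i _
    by_cases hi : b ≤ a + i * T
    · have h1 : ∀ h ∈ H, XX lam e (a + i * T) (min b (a + i * T + T)) h ^ 2 = 0 := by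
        intro h _
        unfold XX
        rw [Ioc_eq_empty (by have := min_le_left b (a + i * T + T); omega), sum_empty]
        norm_num
      rw [sum_eq_zero h1]
      positivity
    have hi0 : (0 : ℝ) ≤ (i : ℝ) * T := by positivity
    have h1 : (2 * ((s : ℝ) * L) + 2) * K ≤ ((a + i * T - P : ℤ) : ℝ) := by
      push_cast
      linarith
    have h2 : 0 ≤ a + i * T - P := by
      have : (0 : ℝ) ≤ ((a + i * T - P : ℤ) : ℝ) := le_trans (by positivity) h1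
      exact_mod_cast this
    obtain ⟨x, hx⟩ := Int.eq_ofNat_of_zero_le h2
    rw [hx, Int.cast_natCast] at h1
    have h3 : K ≤ x := by linarith
    have h4 : (x : ℝ) ≤ 2 * Y * K := by
      have h5 : (x : ℤ) ≤ b := by omega
      have h6 : ((x : ℤ) : ℝ) ≤ b := by exact_mod_cast h5
      rw [Int.cast_natCast] at h6
      linarith
    have h5 : (x : ℝ) ^ (1 - θ) ≤ ((2 * P + T : ℕ) : ℝ) + 1 := by
      have h6 : 2 * Y ≤ (x : ℝ) ^ θ := hY2.trans (Real.rpow_le_rpow hK0.le h3 hθ.le)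
      have h7 : (0 : ℝ) < x := by linarith
      have h8 : (x : ℝ) ^ (1 - θ) ≤ K := by
        rw [Real.rpow_sub h7, Real.rpow_one, div_le_iff₀ (by positivity)]
        nlinarith
      push_cast
      linarith
    have h6 := hX x (by exact_mod_cast hKX.trans h3) (2 * P + T) h5 (by exact_mod_cast hN.trans h1)
    rw [eqv_Unif hE (finSuccEquiv s)] at h6
    have h7 := block_TopC hG hO hs e he x (min b (a + i * T + T) - x) η hη.le H hbox
      (by have := min_le_right b (a + i * T + T); omega) h6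
    rw [show (x : ℤ) + (s * L * T : ℕ) = a + i * T by omega,
      show (x : ℤ) + (min b (a + i * T + T) - x) = min b (a + i * T + T) by ring] at h7
    exact h7
  have hsum : ∑ h ∈ H, XX lam e a b h ^ 2 ≤
      (k : ℝ) * (k * ((((2 * P + T : ℕ) : ℝ) + 1) ^ (s + 2) * η)) := by
    calc _ ≤ ∑ h ∈ H, (k : ℝ) *
            ∑ i ∈ range k, XX lam e (a + i * T) (min b (a + i * T + T)) h ^ 2 := by
          refine sum_le_sum fun h _ => ?_
          have h1 : XX lam e a b h =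
              ∑ i ∈ range k, XX lam e (a + i * T) (min b (a + i * T + T)) h := by
            unfold XX
            rw [← cut_TopC, min_eq_left hab]
          rw [h1]
          simpa using sq_sum_le_card_mul_sum_sq (s := range k)
            (f := fun i : ℕ => XX lam e (a + i * T) (min b (a + i * T + T)) h)
      _ = (k : ℝ) * ∑ i ∈ range k, ∑ h ∈ H,
            XX lam e (a + i * T) (min b (a + i * T + T)) h ^ 2 := by
          rw [← mul_sum, sum_comm]
      _ ≤ _ := by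
          refine mul_le_mul_of_nonneg_left ?_ (by positivity)
          simpa using sum_le_card_nsmul _ _ _ hblk
  unfold AE
  rw [div_le_iff₀ (by positivity)]
  have h1 : (((2 * P + T : ℕ) : ℝ) + 1) ^ (s + 2) ≤ ((2 * ((s : ℝ) * L) + 2) * K) ^ (s + 2) :=
    pow_le_pow_left₀ (by positivity) hN _
  have h2 : K ^ s ≤ (2 * K) ^ s := pow_le_pow_left₀ hK0.le (by linarith) _
  have h3 : ε = 9 * (2 * ((s : ℝ) * L) + 2) ^ (s + 2) * η := by
    rw [hηd, mul_div_cancel₀ _ hC.ne']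
  calc _ ≤ _ := hsum
    _ ≤ (3 * Y) * ((3 * Y) * (((2 * ((s : ℝ) * L) + 2) * K) ^ (s + 2) * η)) := by gcongr
    _ = ε * (K ^ s * (Y * K) ^ 2) := by
        rw [h3, mul_pow, pow_add K]
        ring
    _ ≤ _ := by gcongr

end Pool.Agent.MP_4fffd4_nt.AN

end
end

section

/-!
All steps together, with windows of length x ^ (1 - θ).
-/

namespace Pool.Agent.MP_4fffd4_nt.AN

open Pool.Agent.MP_4fffd4_nt.SX

theorem wWin_all : WWinStmt :=
  have hZ := vZet_stmt vEul_stmt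
  have hC := vCh_stmt cheb_stmt
  have hB := vBlock_stmt (vBt_stmt sieveW_stmt)
  wWin_stmt (vRange_stmt vLip_stmt vTk_stmt vSpec_stmt)
    (wPret_stmt hC hB (wBig_stmt hC (wArc_stmt hB wGeo_stmt))
      (wSmall_stmt vEul_stmt hZ wRat_stmt (wCut_stmt hZ)))
    (vAll_stmt vLip_stmt vTk_stmt hC hB)

theorem wStep_all (d : ℕ) (hd : 1 ≤ d) (hL : LP d) : GP (d + 1) :=
  wStep_stmt chr_stmt (wPar_stmt cheb_stmt)
    (bilC_stmt (bilB_stmt (bilA_stmt tkw_stmt gcs_stmt allAff allBox) (sel_stmt cheb_stmt) cs_stmt)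
      (cube_stmt (pet_stmt shift_stmt gcs_stmt) sieveW_stmt) pol_stmt tree_stmt allPair allCrit
      allSym)
    (end_stmt gcs_stmt allBox) d hd hL

theorem lp_all (d : ℕ) (hd : 1 ≤ d) : LP d := by
  induction d, hd using Nat.le_induction with
  | base => exact wLu_stmt (wAp_stmt wWin_all)
  | succ d hd ih => exact wGl_stmt (gvn_stmt gcs_stmt) (d + 1) (by omega) (wStep_all d hd ih)

theorem gp_all (s : ℕ) (hs : 1 ≤ s) : GP (s + 1) := wStep_all s hs (lp_all s hs)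

theorem wMain_all : WMainStmt :=
  wMain_stmt cheb_stmt gp_all (wTop_stmt (gi_stmt gvn_all) giOpt_stmt giEqv_stmt) liftSharp_all
    baseR_all mono_stmt wNum_stmt

end Pool.Agent.MP_4fffd4_nt.AN

end
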